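import Pool.Agent.Freud.Defs2

set_option autoImplicit false

open MeasureTheory Filter Topology Asymptotics

namespace Pool.Agent.Freud

/-! Contour shifts for the Airy integral. -/

/-- The integrand of the Airy integral with a monomial factor. -/
noncomputable def aaF (p : ℕ) (ζ w : ℂ) : ℂ := w ^ p * Complex.exp (w ^ 3 / 3 - ζ * w)

/-- Its derivative. -/
noncomputable def aaF' (p : ℕ) (ζ w : ℂ) : ℂ :=
  (p * w ^ (p - 1) + w ^ p * (w ^ 2 - ζ)) * Complex.exp (w ^ 3 / 3 - ζ * w)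

lemma aaF_hasDerivAt (p : ℕ) (ζ w : ℂ) : HasDerivAt (aaF p ζ) (aaF' p ζ w) w := by
  have h1 : HasDerivAt (fun w : ℂ => w ^ 3 / 3 - ζ * w) (w ^ 2 - ζ) w := by
    have h2 := ((hasDerivAt_pow 3 w).div_const 3).sub ((hasDerivAt_id w).const_mul ζ)
    refine h2.congr_deriv ?_
    push_cast
    ring
  have h3 := (hasDerivAt_pow p w).mul h1.cexp
  refine h3.congr_deriv ?_
  unfold aaF'
  ring

/-- Gaussian bound for the exponential. -/
lemma aa_bound (ζ c0 : ℂ) (hc : 0 < c0.re) (m : ℕ) : ∃ C b : ℝ, 0 < b ∧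
    ∀ c ∈ Metric.ball c0 (c0.re / 2), ∀ s : ℝ,
      (1 + ‖c + Complex.I * s‖) ^ m *
        ‖Complex.exp ((c + Complex.I * s) ^ 3 / 3 - ζ * (c + Complex.I * s))‖ ≤
        C * Real.exp (-b * s ^ 2) := by
  set r := c0.re / 2 with hr
  have hr0 : 0 < r := by positivity
  set R := ‖c0‖ + r with hR
  have hR0 : 0 < R := by positivity
  set Z := ‖ζ‖ with hZ
  have hZ0 : 0 ≤ Z := norm_nonneg _
  refine ⟨m.factorial * Real.exp (1 + R + 2 / r + (R ^ 3 / 3 + r * R ^ 2 + 2 * Z * R + Z ^ 2 / r)),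
    r / 8, by positivity, fun c hcb s => ?_⟩
  rw [Metric.mem_ball, dist_eq_norm] at hcb
  have hcR : ‖c‖ ≤ R := by
    have : ‖c‖ ≤ ‖c - c0‖ + ‖c0‖ := by simpa using norm_add_le (c - c0) c0
    linarith
  have hre : r ≤ c.re := by
    have h1 := Complex.abs_re_le_norm (c - c0)
    rw [Complex.sub_re] at h1
    have h2 := (abs_le.mp h1).1
    linarith
  have hreR : c.re ≤ R := (Complex.re_le_norm c).trans hcR
  have himR : |c.im| ≤ R := (Complex.abs_im_le_norm c).trans hcR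
  set w := c + Complex.I * s with hw
  have hwn : ‖w‖ ≤ R + |s| := by
    calc ‖w‖ ≤ ‖c‖ + ‖Complex.I * (s : ℂ)‖ := norm_add_le _ _
      _ = ‖c‖ + |s| := by simp
      _ ≤ _ := by linarith
  have h1 : (1 + ‖w‖) ^ m ≤ m.factorial * Real.exp (1 + R + |s|) := by
    have h2 := Real.pow_div_factorial_le_exp (1 + R + |s|) (by positivity) m
    rw [div_le_iff₀ (by positivity)] at h2
    calc (1 + ‖w‖) ^ m ≤ (1 + R + |s|) ^ m := by
          apply pow_le_pow_left₀ (by positivity)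
          linarith
      _ ≤ _ := by linarith
  have h3 : ‖Complex.exp (w ^ 3 / 3 - ζ * w)‖ ≤
      Real.exp (R ^ 3 / 3 - r / 2 * s ^ 2 + r * R ^ 2 + 2 * Z * R + Z * |s|) := by
    rw [Complex.norm_exp]
    apply Real.exp_le_exp.mpr
    have e1 : (w ^ 3 / 3 - ζ * w).re = c.re ^ 3 / 3 - c.re * (c.im + s) ^ 2 - (ζ * w).re := by
      have e2 : (w ^ 3 / 3).re = c.re ^ 3 / 3 - c.re * (c.im + s) ^ 2 := by
        have e3 : (w ^ 3 / 3).re = (w ^ 3).re / 3 := by
          rw [show w ^ 3 / 3 = w ^ 3 / ((3 : ℝ) : ℂ) by norm_num, Complex.div_ofReal_re]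
        rw [e3, hw, pow_succ, pow_two]
        simp only [Complex.mul_re, Complex.mul_im, Complex.add_re, Complex.add_im, Complex.I_re,
          Complex.I_im, Complex.ofReal_re, Complex.ofReal_im]
        ring
      rw [Complex.sub_re, e2]
    have e4 : |(ζ * w).re| ≤ Z * (R + |s|) :=
      (Complex.abs_re_le_norm _).trans (by rw [norm_mul]; gcongr)
    have e5 := (abs_le.mp e4).1
    have e6 : c.re ^ 3 ≤ R ^ 3 := pow_le_pow_left₀ (by linarith) hreR 3
    have e7 : s ^ 2 / 2 - R ^ 2 ≤ (c.im + s) ^ 2 := by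
      have : c.im ^ 2 ≤ R ^ 2 := by
        rw [← sq_abs c.im]
        exact pow_le_pow_left₀ (abs_nonneg _) himR 2
      nlinarith [sq_nonneg (2 * c.im + s)]
    have e8 : r * (c.im + s) ^ 2 ≤ c.re * (c.im + s) ^ 2 := by gcongr
    rw [e1]
    nlinarith
  have h4 : Z * |s| ≤ r / 4 * s ^ 2 + Z ^ 2 / r := by
    rw [← sub_nonneg]
    have : r / 4 * s ^ 2 + Z ^ 2 / r - Z * |s| = (r / 2 * |s| - Z) ^ 2 / r := by
      field_simp
      rw [← sq_abs s]
      ring
    rw [this]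
    positivity
  have h5 : |s| ≤ r / 8 * s ^ 2 + 2 / r := by
    rw [← sub_nonneg]
    have : r / 8 * s ^ 2 + 2 / r - |s| = (r / 4 * |s| - 1) ^ 2 * 2 / r := by
      field_simp
      rw [← sq_abs s]
      ring
    rw [this]
    positivity
  calc (1 + ‖w‖) ^ m * ‖Complex.exp (w ^ 3 / 3 - ζ * w)‖ ≤
      (m.factorial * Real.exp (1 + R + |s|)) *
        Real.exp (R ^ 3 / 3 - r / 2 * s ^ 2 + r * R ^ 2 + 2 * Z * R + Z * |s|) := by gcongr
    _ = m.factorial * Real.exp ((1 + R + |s|) +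
        (R ^ 3 / 3 - r / 2 * s ^ 2 + r * R ^ 2 + 2 * Z * R + Z * |s|)) := by
        rw [mul_assoc, ← Real.exp_add]
    _ ≤ m.factorial * Real.exp ((1 + R + 2 / r + (R ^ 3 / 3 + r * R ^ 2 + 2 * Z * R + Z ^ 2 / r)) +
        -(r / 8) * s ^ 2) := by
        apply mul_le_mul_of_nonneg_left _ (by positivity)
        apply Real.exp_le_exp.mpr
        linarith
    _ = _ := by rw [Real.exp_add]; ring

lemma aa_norm_F' (p : ℕ) (ζ w : ℂ) : ‖aaF' p ζ w‖ ≤
    (p + 1 + ‖ζ‖) * ((1 + ‖w‖) ^ (p + 2) * ‖Complex.exp (w ^ 3 / 3 - ζ * w)‖) := by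
  unfold aaF'
  rw [norm_mul, ← mul_assoc]
  apply mul_le_mul_of_nonneg_right _ (norm_nonneg _)
  have hw : 0 ≤ ‖w‖ := norm_nonneg _
  have h0 : ∀ k, k ≤ p + 2 → ‖w‖ ^ k ≤ (1 + ‖w‖) ^ (p + 2) := fun k hk =>
    (pow_le_pow_left₀ hw (by linarith) k).trans (pow_le_pow_right₀ (by linarith) hk)
  calc ‖(p : ℂ) * w ^ (p - 1) + w ^ p * (w ^ 2 - ζ)‖ ≤
      ‖(p : ℂ) * w ^ (p - 1)‖ + ‖w ^ p * (w ^ 2 - ζ)‖ := norm_add_le _ _
    _ ≤ p * ‖w‖ ^ (p - 1) + ‖w‖ ^ p * (‖w‖ ^ 2 + ‖ζ‖) := by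
        rw [norm_mul, norm_mul, norm_pow, norm_pow, Complex.norm_natCast]
        gcongr
        exact (norm_sub_le _ _).trans (by rw [norm_pow])
    _ = p * ‖w‖ ^ (p - 1) + ‖w‖ ^ (p + 2) + ‖w‖ ^ p * ‖ζ‖ := by ring
    _ ≤ p * (1 + ‖w‖) ^ (p + 2) + (1 + ‖w‖) ^ (p + 2) + (1 + ‖w‖) ^ (p + 2) * ‖ζ‖ := by
        gcongr
        · exact h0 _ (by omega)
        · linarith
        · exact h0 _ (by omega)
    _ = _ := by ring

lemma aa_norm_F (p : ℕ) (ζ w : ℂ) : ‖aaF p ζ w‖ ≤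
    (1 + ‖w‖) ^ (p + 2) * ‖Complex.exp (w ^ 3 / 3 - ζ * w)‖ := by
  unfold aaF
  rw [norm_mul, norm_pow]
  gcongr
  exact (pow_le_pow_left₀ (norm_nonneg _) (by linarith) p).trans
    (pow_le_pow_right₀ (by linarith [norm_nonneg w]) (by omega))

/-- The Airy integral over the vertical line through `c`. -/
noncomputable def aaJ (p : ℕ) (ζ c : ℂ) : ℂ := ∫ s : ℝ, aaF p ζ (c + Complex.I * s)

lemma aa_continuous (p : ℕ) (ζ c : ℂ) : Continuous fun s : ℝ => aaF p ζ (c + Complex.I * s) := by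
  unfold aaF
  fun_prop

lemma aa_continuous' (p : ℕ) (ζ c : ℂ) : Continuous fun s : ℝ => aaF' p ζ (c + Complex.I * s) := by
  unfold aaF'
  fun_prop

lemma aaJ_hasDerivAt (p : ℕ) (ζ c : ℂ) (hc : 0 < c.re) : HasDerivAt (aaJ p ζ) 0 c := by
  obtain ⟨C, b, hb, hC⟩ := aa_bound ζ c hc (p + 2)
  have hball : c ∈ Metric.ball c (c.re / 2) := Metric.mem_ball_self (by positivity)
  have hint : Integrable fun s : ℝ => aaF p ζ (c + Complex.I * s) := by
    refine ((integrable_exp_neg_mul_sq hb).const_mul C).mono'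
      (aa_continuous p ζ c).aestronglyMeasurable (Eventually.of_forall fun s => ?_)
    exact (aa_norm_F p ζ _).trans (hC c hball s)
  have h1 := hasDerivAt_integral_of_dominated_loc_of_deriv_le
    (F := fun (c : ℂ) (s : ℝ) => aaF p ζ (c + Complex.I * s))
    (F' := fun (c : ℂ) (s : ℝ) => aaF' p ζ (c + Complex.I * s))
    (bound := fun s => (p + 1 + ‖ζ‖) * (C * Real.exp (-b * s ^ 2)))
    (μ := volume) (x₀ := c)
    (Metric.ball_mem_nhds c (by positivity : 0 < c.re / 2))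
    (Eventually.of_forall fun c => (aa_continuous p ζ c).aestronglyMeasurable)
    hint (aa_continuous' p ζ c).aestronglyMeasurable
    (Eventually.of_forall fun s x hx => (aa_norm_F' p ζ _).trans
      (mul_le_mul_of_nonneg_left (hC x hx s) (by positivity)))
    (((integrable_exp_neg_mul_sq hb).const_mul C).const_mul _)
    (Eventually.of_forall fun s x _ => by
      have := (aaF_hasDerivAt p ζ (x + Complex.I * s)).comp x ((hasDerivAt_id x).add_const _)
      rw [mul_one] at this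
      exact this)
  obtain ⟨hi, hd⟩ := h1
  have h2 : ∫ s : ℝ, aaF' p ζ (c + Complex.I * s) = 0 := by
    have h3 : ∀ s : ℝ, HasDerivAt (fun s : ℝ => aaF p ζ (c + Complex.I * s))
        (aaF' p ζ (c + Complex.I * s) * Complex.I) s := by
      intro s
      have h4 : HasDerivAt (fun s : ℝ => c + Complex.I * (s : ℂ)) Complex.I s := by
        have := ((Complex.ofRealCLM.hasDerivAt (x := s)).const_mul Complex.I).const_add c
        simpa using this
      exact (aaF_hasDerivAt p ζ (c + Complex.I * s)).comp s h4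
    have hlim : ∀ l : Filter ℝ, Tendsto (fun s : ℝ => Real.exp (-b * s ^ 2)) l (𝓝 0) →
        Tendsto (fun s : ℝ => aaF p ζ (c + Complex.I * s)) l (𝓝 0) := by
      intro l hl
      refine squeeze_zero_norm (fun s => (aa_norm_F p ζ _).trans (hC c hball s)) ?_
      simpa using hl.const_mul C
    have hsq : ∀ l : Filter ℝ, Tendsto (fun s : ℝ => s ^ 2) l atTop →
        Tendsto (fun s : ℝ => Real.exp (-b * s ^ 2)) l (𝓝 0) := by
      intro l hl
      refine Real.tendsto_exp_atBot.comp ?_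
      exact hl.const_mul_atTop_of_neg (by linarith)
    have h5 := integral_of_hasDerivAt_of_tendsto h3 (hi.mul_const _)
      (hlim _ (hsq _ (by
        have := (tendsto_pow_atTop (α := ℝ) (n := 2) (by norm_num)).comp tendsto_neg_atBot_atTop
        refine this.congr fun s => by simp)))
      (hlim _ (hsq _ (tendsto_pow_atTop (by norm_num))))
    rw [sub_self, integral_mul_const] at h5
    exact (mul_eq_zero.mp h5).resolve_right Complex.I_ne_zero
  rw [h2] at hd
  exact hd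

lemma aaJ_const (p : ℕ) (ζ c : ℂ) (hc : 0 < c.re) : aaJ p ζ c = aaJ p ζ 1 := by
  have hopen : IsOpen {z : ℂ | 0 < z.re} := isOpen_lt continuous_const Complex.continuous_re
  have hconn : IsPreconnected {z : ℂ | 0 < z.re} := (convex_halfSpace_re_gt 0).isPreconnected
  refine hopen.is_const_of_deriv_eq_zero hconn
    (fun z hz => (aaJ_hasDerivAt p ζ z hz).differentiableAt.differentiableWithinAt)
    (fun z hz => (aaJ_hasDerivAt p ζ z hz).deriv) hc ?_
  simp

end Pool.Agent.Freud
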