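import Pool.Agent.Freud.Defs2

/-!
The Airy function: differential equation, conjugation, connection formulas.
-/

set_option autoImplicit false

open MeasureTheory Filter Topology

namespace Pool.Agent.Freud

/-- The point `1 + i s`. -/
noncomputable def airyW (s : ℝ) : ℂ := 1 + Complex.I * s

/-- The Airy kernel. -/
noncomputable def airyK (ζ : ℂ) (s : ℝ) : ℂ :=
  Complex.exp (airyW s ^ 3 / 3 - ζ * airyW s)

theorem airyW_norm_le (s : ℝ) : ‖airyW s‖ ≤ 1 + |s| := by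
  unfold airyW
  calc ‖(1 : ℂ) + Complex.I * s‖ ≤ ‖(1 : ℂ)‖ + ‖Complex.I * s‖ := norm_add_le _ _
    _ = 1 + |s| := by simp

theorem airyW_cube_re (s : ℝ) : (airyW s ^ 3 / 3).re = 1 / 3 - s ^ 2 := by
  have : airyW s ^ 3 / 3 = ((1 / 3 - s ^ 2 : ℝ) : ℂ) + ((s - s ^ 3 / 3 : ℝ) : ℂ) * Complex.I := by
    unfold airyW
    push_cast
    have h2 : Complex.I ^ 2 = -1 := Complex.I_sq
    have h3 : Complex.I ^ 3 = -Complex.I := by rw [pow_succ, h2]; ring
    ring_nf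
    rw [h2, h3]
    ring
  rw [this, Complex.add_re, Complex.ofReal_re, Complex.re_ofReal_mul, Complex.I_re]
  ring

theorem airyK_norm (ζ : ℂ) (s : ℝ) :
    ‖airyK ζ s‖ ≤ Real.exp (1 / 3 + ‖ζ‖ + ‖ζ‖ ^ 2) * Real.exp (-(3 / 4) * s ^ 2) := by
  unfold airyK
  rw [Complex.norm_exp, ← Real.exp_add]
  apply Real.exp_le_exp.2
  rw [Complex.sub_re, airyW_cube_re]
  have h1 : -(ζ * airyW s).re ≤ ‖ζ‖ * (1 + |s|) := by
    calc -(ζ * airyW s).re ≤ |(ζ * airyW s).re| := neg_le_abs _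
      _ ≤ ‖ζ * airyW s‖ := Complex.abs_re_le_norm _
      _ = ‖ζ‖ * ‖airyW s‖ := norm_mul _ _
      _ ≤ ‖ζ‖ * (1 + |s|) := by gcongr; exact airyW_norm_le s
  have h2 : ‖ζ‖ * |s| ≤ ‖ζ‖ ^ 2 + s ^ 2 / 4 := by
    have : 0 ≤ (‖ζ‖ - |s| / 2) ^ 2 := sq_nonneg _
    have h3 : |s| ^ 2 = s ^ 2 := sq_abs s
    nlinarith
  nlinarith

theorem one_add_abs_le (s : ℝ) : 1 + |s| ≤ 2 * Real.exp (s ^ 2 / 4) := by
  have h1 := Real.add_one_le_exp (s ^ 2 / 4)
  have h2 : |s| ≤ s ^ 2 / 4 + 1 := by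
    have h3 : |s| ^ 2 = s ^ 2 := sq_abs s
    nlinarith [sq_nonneg (|s| / 2 - 1)]
  have h4 : 1 ≤ Real.exp (s ^ 2 / 4) := Real.one_le_exp (by positivity)
  linarith

/-- Uniform Gaussian bound for `w^k` times the kernel, `k ≤ 2`. -/
theorem airyK_bound (k : ℕ) (hk : k ≤ 2) (M : ℝ) (ζ : ℂ) (hζ : ‖ζ‖ ≤ M) (s : ℝ) :
    ‖airyW s ^ k * airyK ζ s‖ ≤
      4 * Real.exp (1 / 3 + M + M ^ 2) * Real.exp (-(1 / 4) * s ^ 2) := by
  have hM : 0 ≤ M := (norm_nonneg ζ).trans hζ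
  have h1 : ‖airyW s ^ k‖ ≤ 4 * Real.exp (s ^ 2 / 2) := by
    rw [norm_pow]
    have h2 : ‖airyW s‖ ≤ 2 * Real.exp (s ^ 2 / 4) := (airyW_norm_le s).trans (one_add_abs_le s)
    have h3 : 1 ≤ 2 * Real.exp (s ^ 2 / 4) := by
      have : 1 ≤ Real.exp (s ^ 2 / 4) := Real.one_le_exp (by positivity)
      linarith
    calc ‖airyW s‖ ^ k ≤ (2 * Real.exp (s ^ 2 / 4)) ^ k := by gcongr
      _ ≤ (2 * Real.exp (s ^ 2 / 4)) ^ 2 := pow_le_pow_right₀ h3 hk
      _ = 4 * Real.exp (s ^ 2 / 2) := by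
        rw [mul_pow, ← Real.exp_nat_mul]
        norm_num
        ring
  have h4 : ‖airyK ζ s‖ ≤ Real.exp (1 / 3 + M + M ^ 2) * Real.exp (-(3 / 4) * s ^ 2) := by
    refine (airyK_norm ζ s).trans ?_
    gcongr
  rw [norm_mul]
  calc ‖airyW s ^ k‖ * ‖airyK ζ s‖ ≤ (4 * Real.exp (s ^ 2 / 2)) *
        (Real.exp (1 / 3 + M + M ^ 2) * Real.exp (-(3 / 4) * s ^ 2)) := by gcongr
    _ = 4 * Real.exp (1 / 3 + M + M ^ 2) * (Real.exp (s ^ 2 / 2) * Real.exp (-(3 / 4) * s ^ 2)) := by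
        ring
    _ = _ := by rw [← Real.exp_add]; congr 2; ring

theorem airyK_continuous (ζ : ℂ) : Continuous (airyK ζ) := by
  unfold airyK airyW
  fun_prop

theorem airyW_continuous : Continuous airyW := by
  unfold airyW
  fun_prop

theorem airy_gauss_integrable (C : ℝ) :
    Integrable (fun s : ℝ => C * Real.exp (-(1 / 4) * s ^ 2)) :=
  (integrable_exp_neg_mul_sq (by norm_num : (0 : ℝ) < 1 / 4)).const_mul C

theorem airyK_integrable (k : ℕ) (hk : k ≤ 2) (ζ : ℂ) :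
    Integrable (fun s => airyW s ^ k * airyK ζ s) := by
  apply (airy_gauss_integrable (4 * Real.exp (1 / 3 + ‖ζ‖ + ‖ζ‖ ^ 2))).mono'
  · exact ((airyW_continuous.pow k).mul (airyK_continuous ζ)).aestronglyMeasurable
  · exact Eventually.of_forall fun s => airyK_bound k hk ‖ζ‖ ζ le_rfl s

theorem airyK_hasDerivAt_zeta (ζ : ℂ) (s : ℝ) :
    HasDerivAt (fun z => airyK z s) (-(airyW s * airyK ζ s)) ζ := by
  unfold airyK
  have h1 : HasDerivAt (fun z : ℂ => airyW s ^ 3 / 3 - z * airyW s) (-airyW s) ζ := by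
    have := ((hasDerivAt_id ζ).mul_const (airyW s)).const_sub (airyW s ^ 3 / 3)
    simpa using this
  exact h1.cexp.congr_deriv (by ring)

theorem airy_moment_hasDerivAt (k : ℕ) (hk : k + 1 ≤ 2) (ζ : ℂ) :
    HasDerivAt (fun z => ∫ s : ℝ, airyW s ^ k * airyK z s)
      (-∫ s : ℝ, airyW s ^ (k + 1) * airyK ζ s) ζ := by
  have h := hasDerivAt_integral_of_dominated_loc_of_deriv_le (μ := volume) (𝕜 := ℂ)
    (F := fun z s => airyW s ^ k * airyK z s)
    (F' := fun z s => -(airyW s ^ (k + 1) * airyK z s)) (x₀ := ζ)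
    (bound := fun s => 4 * Real.exp (1 / 3 + (‖ζ‖ + 1) + (‖ζ‖ + 1) ^ 2) *
      Real.exp (-(1 / 4) * s ^ 2))
    (Metric.ball_mem_nhds ζ one_pos)
    (Eventually.of_forall fun z =>
      ((airyW_continuous.pow k).mul (airyK_continuous z)).aestronglyMeasurable)
    (airyK_integrable k (by omega) ζ)
    ((airyW_continuous.pow (k + 1)).mul (airyK_continuous ζ)).neg.aestronglyMeasurable
    (Eventually.of_forall fun s z hz => by
      rw [norm_neg]
      apply airyK_bound (k + 1) hk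
      have h1 : ‖z - ζ‖ < 1 := by simpa [dist_eq_norm] using hz
      have h2 : ‖z‖ ≤ ‖z - ζ‖ + ‖ζ‖ := by
        calc ‖z‖ = ‖(z - ζ) + ζ‖ := by ring_nf
          _ ≤ _ := norm_add_le _ _
      linarith)
    (airy_gauss_integrable _)
    (Eventually.of_forall fun s z _ => by
      exact ((airyK_hasDerivAt_zeta z s).const_mul (airyW s ^ k)).congr_deriv (by ring))
  have h2 := h.2
  rwa [integral_neg] at h2

theorem Airy_eq (ζ : ℂ) : Airy ζ = (1 / (2 * (Real.pi : ℂ))) * ∫ s : ℝ, airyW s ^ 0 * airyK ζ s := by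
  unfold Airy
  congr 1
  apply integral_congr_ae
  exact Eventually.of_forall fun s => by simp [airyK, airyW]

theorem Airy'_eq (ζ : ℂ) :
    Airy' ζ = -(1 / (2 * (Real.pi : ℂ))) * ∫ s : ℝ, airyW s ^ 1 * airyK ζ s := by
  unfold Airy'
  congr 1
  apply integral_congr_ae
  exact Eventually.of_forall fun s => by simp [airyK, airyW]

theorem Airy_hasDerivAt (ζ : ℂ) : HasDerivAt Airy (Airy' ζ) ζ := by
  have h := (airy_moment_hasDerivAt 0 (by norm_num) ζ).const_mul (1 / (2 * (Real.pi : ℂ)))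
  have h1 : Airy = fun z => (1 / (2 * (Real.pi : ℂ))) * ∫ s : ℝ, airyW s ^ 0 * airyK z s := by
    funext z; exact Airy_eq z
  rw [h1, Airy'_eq]
  exact h.congr_deriv (by simp)

theorem airyW_hasDerivAt (s : ℝ) : HasDerivAt airyW Complex.I s := by
  unfold airyW
  have h := (Complex.ofRealCLM.hasDerivAt (x := s)).const_mul Complex.I
  have h2 := h.const_add (1 : ℂ)
  simpa using h2

theorem airyK_hasDerivAt (ζ : ℂ) (s : ℝ) :
    HasDerivAt (airyK ζ) (Complex.I * ((airyW s ^ 2 - ζ) * airyK ζ s)) s := by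
  unfold airyK
  have h1 := airyW_hasDerivAt s
  have h2 : HasDerivAt (fun s => airyW s ^ 3 / 3 - ζ * airyW s)
      (Complex.I * (airyW s ^ 2 - ζ)) s := by
    have := ((h1.pow 3).div_const 3).sub (h1.const_mul ζ)
    exact this.congr_deriv (by push_cast; ring)
  exact h2.cexp.congr_deriv (by ring)

theorem airyK_tendsto (ζ : ℂ) : Tendsto (airyK ζ) atTop (𝓝 0) ∧ Tendsto (airyK ζ) atBot (𝓝 0) := by
  have h1 : ∀ l : Filter ℝ, Tendsto (fun s : ℝ => s ^ 2) l atTop → Tendsto (airyK ζ) l (𝓝 0) := by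
    intro l hl
    apply squeeze_zero_norm (fun s => airyK_norm ζ s)
    have h2 : Tendsto (fun s : ℝ => -(3 / 4) * s ^ 2) l atBot :=
      hl.const_mul_atTop_of_neg (by norm_num)
    have h3 := (Real.tendsto_exp_atBot.comp h2).const_mul (Real.exp (1 / 3 + ‖ζ‖ + ‖ζ‖ ^ 2))
    simpa using h3
  refine ⟨h1 _ (tendsto_pow_atTop (by norm_num)), h1 _ ?_⟩
  have h4 : (fun s : ℝ => s ^ 2) = (fun s : ℝ => s ^ 2) ∘ (fun s => -s) := by
    funext s; simp
  rw [h4]
  exact (tendsto_pow_atTop (by norm_num)).comp tendsto_neg_atBot_atTop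

theorem airy_ibp (ζ : ℂ) :
    ∫ s : ℝ, airyW s ^ 2 * airyK ζ s = ζ * ∫ s : ℝ, airyW s ^ 0 * airyK ζ s := by
  have hint : Integrable (fun s => Complex.I * ((airyW s ^ 2 - ζ) * airyK ζ s)) := by
    have := ((airyK_integrable 2 le_rfl ζ).sub
      ((airyK_integrable 0 (by norm_num) ζ).const_mul ζ)).const_mul Complex.I
    refine this.congr (Eventually.of_forall fun s => ?_)
    simp only [Pi.sub_apply, pow_zero, one_mul]
    ring
  have h := integral_of_hasDerivAt_of_tendsto (airyK_hasDerivAt ζ) hint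
    (airyK_tendsto ζ).2 (airyK_tendsto ζ).1
  rw [sub_zero, integral_const_mul, mul_eq_zero] at h
  have h2 := h.resolve_left Complex.I_ne_zero
  have h3 : ∫ s : ℝ, (airyW s ^ 2 - ζ) * airyK ζ s =
      (∫ s : ℝ, airyW s ^ 2 * airyK ζ s) - ∫ s : ℝ, ζ * (airyW s ^ 0 * airyK ζ s) := by
    rw [← integral_sub (airyK_integrable 2 le_rfl ζ)
      ((airyK_integrable 0 (by norm_num) ζ).const_mul ζ)]
    apply integral_congr_ae
    exact Eventually.of_forall fun s => by simp only [pow_zero, one_mul]; ring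
  rw [h3, integral_const_mul, sub_eq_zero] at h2
  exact h2

theorem Airy'_hasDerivAt (ζ : ℂ) : HasDerivAt Airy' (ζ * Airy ζ) ζ := by
  have h := (airy_moment_hasDerivAt 1 (by norm_num) ζ).const_mul (-(1 / (2 * (Real.pi : ℂ))))
  have h1 : Airy' = fun z => -(1 / (2 * (Real.pi : ℂ))) * ∫ s : ℝ, airyW s ^ 1 * airyK z s := by
    funext z; exact Airy'_eq z
  rw [h1, Airy_eq]
  exact h.congr_deriv (by rw [airy_ibp]; ring)

theorem airyW_neg_conj (s : ℝ) : airyW (-s) = starRingEnd ℂ (airyW s) := by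
  simp [airyW]

theorem airyK_conj (ζ : ℂ) (s : ℝ) :
    airyK (starRingEnd ℂ ζ) (-s) = starRingEnd ℂ (airyK ζ s) := by
  unfold airyK
  rw [← Complex.exp_conj, airyW_neg_conj]
  simp only [map_sub, map_div₀, map_pow, map_mul, map_ofNat]

theorem airy_moment_conj (k : ℕ) (ζ : ℂ) :
    ∫ s : ℝ, airyW s ^ k * airyK (starRingEnd ℂ ζ) s =
      starRingEnd ℂ (∫ s : ℝ, airyW s ^ k * airyK ζ s) := by
  rw [← integral_conj, ← integral_neg_eq_self]
  apply integral_congr_ae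
  exact Eventually.of_forall fun s => by
    simp only [airyW_neg_conj, airyK_conj, map_mul, map_pow]

theorem Airy_conj (ζ : ℂ) : Airy (starRingEnd ℂ ζ) = starRingEnd ℂ (Airy ζ) := by
  rw [Airy_eq, Airy_eq, airy_moment_conj]
  simp only [map_mul, map_div₀, map_one, map_ofNat, Complex.conj_ofReal]

theorem Airy'_conj (ζ : ℂ) : Airy' (starRingEnd ℂ ζ) = starRingEnd ℂ (Airy' ζ) := by
  rw [Airy'_eq, Airy'_eq, airy_moment_conj]
  simp only [map_mul, map_div₀, map_one, map_ofNat, Complex.conj_ofReal, map_neg]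

theorem om_cube : om ^ 3 = 1 := by
  unfold om
  rw [← Complex.exp_nat_mul]
  have : ((3 : ℕ) : ℂ) * (2 * Real.pi * Complex.I / 3) = 2 * Real.pi * Complex.I := by
    push_cast; ring
  rw [this, Complex.exp_two_pi_mul_I]

theorem om_ne_one : om ≠ 1 := by
  intro h
  have h1 : om.re = Real.cos (2 * Real.pi / 3) := by
    unfold om
    have : (2 * Real.pi * Complex.I / 3 : ℂ) = ((2 * Real.pi / 3 : ℝ) : ℂ) * Complex.I := by
      push_cast; ring
    rw [this, Complex.exp_ofReal_mul_I_re]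
  rw [h, Complex.one_re] at h1
  have h2 : Real.cos (2 * Real.pi / 3) = -(1 / 2) := by
    have : 2 * Real.pi / 3 = Real.pi - Real.pi / 3 := by ring
    rw [this, Real.cos_pi_sub, Real.cos_pi_div_three]
  rw [h2] at h1
  norm_num at h1

theorem om_sum : 1 + om + om ^ 2 = 0 := by
  have h1 : (om - 1) * (1 + om + om ^ 2) = 0 := by
    have : (om - 1) * (1 + om + om ^ 2) = om ^ 3 - 1 := by ring
    rw [this, om_cube, sub_self]
  exact (mul_eq_zero.1 h1).resolve_left (sub_ne_zero.2 om_ne_one)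

/-- Uniqueness for the Airy equation. -/
theorem airy_ode_unique (D D' : ℂ → ℂ) (h1 : ∀ z, HasDerivAt D (D' z) z)
    (h2 : ∀ z, HasDerivAt D' (z * D z) z) (h0 : D 0 = 0) (h0' : D' 0 = 0) (ζ : ℂ) :
    D ζ = 0 ∧ D' ζ = 0 := by
  let f : ℝ → ℂ × ℂ := fun t => (D (t * ζ), D' (t * ζ))
  let f' : ℝ → ℂ × ℂ := fun t => (D' (t * ζ) * ζ, (t * ζ * D (t * ζ)) * ζ)
  have hline : ∀ t : ℝ, HasDerivAt (fun t : ℝ => (t : ℂ) * ζ) ζ t := by
    intro t
    have := (Complex.ofRealCLM.hasDerivAt (x := t)).mul_const ζ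
    simpa using this
  have hf : ∀ t, HasDerivAt f (f' t) t := by
    intro t
    exact ((h1 _).comp_of_eq t (hline t) rfl).prodMk ((h2 _).comp_of_eq t (hline t) rfl)
  have key := eq_zero_of_abs_deriv_le_mul_abs_self_of_eq_zero_right (f := f) (f' := f')
    (K := ‖ζ‖ + ‖ζ‖ ^ 2) (a := 0) (b := 1)
    (fun t _ => (hf t).continuousAt.continuousWithinAt)
    (fun t _ => (hf t).hasDerivWithinAt)
    (by simp [f, h0, h0'])
    (by
      intro t ht
      have ht0 : 0 ≤ t := ht.1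
      have ht1 : t ≤ 1 := ht.2.le
      have e1 : ‖D (t * ζ)‖ ≤ ‖f t‖ := norm_fst_le (f t)
      have e2 : ‖D' (t * ζ)‖ ≤ ‖f t‖ := norm_snd_le (f t)
      rw [Prod.norm_def]
      apply max_le
      · calc ‖(f' t).1‖ = ‖D' (t * ζ)‖ * ‖ζ‖ := norm_mul _ _
          _ ≤ ‖f t‖ * ‖ζ‖ := by gcongr
          _ ≤ (‖ζ‖ + ‖ζ‖ ^ 2) * ‖f t‖ := by
              have e4 := mul_nonneg (sq_nonneg ‖ζ‖) (norm_nonneg (f t))
              nlinarith
      · calc ‖(f' t).2‖ = t * ‖ζ‖ * ‖D (t * ζ)‖ * ‖ζ‖ := by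
              show ‖(t : ℂ) * ζ * D (t * ζ) * ζ‖ = _
              rw [norm_mul, norm_mul, norm_mul, Complex.norm_real, Real.norm_eq_abs,
                abs_of_nonneg ht0]
          _ ≤ 1 * ‖ζ‖ * ‖f t‖ * ‖ζ‖ := by gcongr
          _ ≤ (‖ζ‖ + ‖ζ‖ ^ 2) * ‖f t‖ := by
              have e4 := mul_nonneg (norm_nonneg ζ) (norm_nonneg (f t))
              nlinarith)
    1 ⟨zero_le_one, le_rfl⟩
  have e3 : f 1 = (D ζ, D' ζ) := by simp [f]
  rw [e3] at key
  exact ⟨congrArg Prod.fst key, congrArg Prod.snd key⟩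

theorem airy_connect_aux (ζ : ℂ) :
    Airy ζ + om * Airy (om * ζ) + om ^ 2 * Airy (om ^ 2 * ζ) = 0 ∧
    Airy' ζ + om ^ 2 * Airy' (om * ζ) + om ^ 4 * Airy' (om ^ 2 * ζ) = 0 := by
  have hlin : ∀ (c z : ℂ), HasDerivAt (fun z => c * z) c z := by
    intro c z
    simpa using (hasDerivAt_id z).const_mul c
  have o3 := om_cube
  have o4 : om ^ 4 = om := by rw [pow_succ, o3, one_mul]
  have o6 : om ^ 6 = 1 := by
    have : om ^ 6 = (om ^ 3) ^ 2 := by ring
    rw [this, o3, one_pow]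
  have o8 : om ^ 8 = om ^ 2 := by
    have : om ^ 8 = (om ^ 3) ^ 2 * om ^ 2 := by ring
    rw [this, o3]; ring
  apply airy_ode_unique
    (fun z => Airy z + om * Airy (om * z) + om ^ 2 * Airy (om ^ 2 * z))
    (fun z => Airy' z + om ^ 2 * Airy' (om * z) + om ^ 4 * Airy' (om ^ 2 * z))
  · intro z
    have e1 := ((Airy_hasDerivAt (om * z)).comp z (hlin om z)).const_mul om
    have e2 := ((Airy_hasDerivAt (om ^ 2 * z)).comp z (hlin (om ^ 2) z)).const_mul (om ^ 2)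
    exact (((Airy_hasDerivAt z).add e1).add e2).congr_deriv (by ring)
  · intro z
    have e1 := ((Airy'_hasDerivAt (om * z)).comp z (hlin om z)).const_mul (om ^ 2)
    have e2 := ((Airy'_hasDerivAt (om ^ 2 * z)).comp z (hlin (om ^ 2) z)).const_mul (om ^ 4)
    have i1 : om ^ 2 * (om * z * Airy (om * z) * om) = om * z * Airy (om * z) := by
      have : om ^ 2 * (om * z * Airy (om * z) * om) = om ^ 4 * z * Airy (om * z) := by ring
      rw [this, o4]
    have i2 : om ^ 4 * (om ^ 2 * z * Airy (om ^ 2 * z) * om ^ 2) =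
        om ^ 2 * z * Airy (om ^ 2 * z) := by
      have : om ^ 4 * (om ^ 2 * z * Airy (om ^ 2 * z) * om ^ 2) = om ^ 8 * z * Airy (om ^ 2 * z) := by
        ring
      rw [this, o8]
    exact (((Airy'_hasDerivAt z).add e1).add e2).congr_deriv (by rw [i1, i2]; ring)
  · have := om_sum
    simp only [mul_zero]
    calc Airy 0 + om * Airy 0 + om ^ 2 * Airy 0 = (1 + om + om ^ 2) * Airy 0 := by ring
      _ = 0 := by rw [this, zero_mul]
  · have := om_sum
    simp only [mul_zero]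
    rw [o4]
    calc Airy' 0 + om ^ 2 * Airy' 0 + om * Airy' 0 = (1 + om + om ^ 2) * Airy' 0 := by ring
      _ = 0 := by rw [this, zero_mul]

theorem Airy_connect (ζ : ℂ) :
    Airy ζ + om * Airy (om * ζ) + om ^ 2 * Airy (om ^ 2 * ζ) = 0 := (airy_connect_aux ζ).1

theorem Airy'_connect (ζ : ℂ) :
    Airy' ζ + om ^ 2 * Airy' (om * ζ) + om ^ 4 * Airy' (om ^ 2 * ζ) = 0 := (airy_connect_aux ζ).2

end Pool.Agent.Freud
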