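import Pool.Agent.Freud.AiryB

set_option autoImplicit false

open MeasureTheory Filter Topology Asymptotics

namespace Pool.Agent.Freud

/-! Asymptotic expansions of the Airy function. -/

lemma aaJ_zero {ζ c : ℂ} (h : c ^ 2 = ζ) :
    aaJ 0 ζ c = Complex.exp (-(2 / 3 * c ^ 3)) * aaG 0 c := by
  unfold aaJ aaG
  rw [← integral_const_mul]
  congr 1
  funext s
  unfold aaF
  rw [pow_zero, pow_zero, one_mul, one_mul, ← Complex.exp_add]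
  congr 1
  have hI : Complex.I ^ 2 = -1 := Complex.I_sq
  have hI3 : Complex.I ^ 3 = -Complex.I := by rw [pow_succ, hI]; ring
  rw [← h]
  linear_combination (-(s : ℂ) ^ 2 * c + 2 * c * (s:ℂ)^2 ) * hI + (s : ℂ) ^ 3 / 3 * hI3

lemma aaJ_one {ζ c : ℂ} (hc : 0 < c.re) (h : c ^ 2 = ζ) :
    aaJ 1 ζ c = Complex.exp (-(2 / 3 * c ^ 3)) * (c * aaG 0 c + Complex.I * aaG 1 c) := by
  unfold aaJ aaG
  rw [← integral_const_mul, ← integral_const_mul, ← integral_add ((aaG_int 0 hc).const_mul _)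
    ((aaG_int 1 hc).const_mul _), ← integral_const_mul]
  congr 1
  funext s
  unfold aaF
  have e : Complex.exp ((c + Complex.I * s) ^ 3 / 3 - ζ * (c + Complex.I * s)) =
      Complex.exp (-(2 / 3 * c ^ 3)) *
        Complex.exp (-c * (s : ℂ) ^ 2 - Complex.I * (s : ℂ) ^ 3 / 3) := by
    rw [← Complex.exp_add]
    congr 1
    have hI : Complex.I ^ 2 = -1 := Complex.I_sq
    have hI3 : Complex.I ^ 3 = -Complex.I := by rw [pow_succ, hI]; ring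
    rw [← h]
    linear_combination (-(s : ℂ) ^ 2 * c + 2 * c * (s:ℂ)^2 ) * hI + (s : ℂ) ^ 3 / 3 * hI3
  rw [e]
  ring

lemma aaAiry_eq {ζ c : ℂ} (hc : 0 < c.re) (h : c ^ 2 = ζ) :
    Airy ζ = 1 / (2 * Real.pi) * (Complex.exp (-(2 / 3 * c ^ 3)) * aaG 0 c) := by
  rw [← aaJ_zero h, aaJ_const 0 ζ c hc]
  unfold Airy aaJ aaF
  simp

lemma aaAiry'_eq {ζ c : ℂ} (hc : 0 < c.re) (h : c ^ 2 = ζ) :
    Airy' ζ = -(1 / (2 * Real.pi)) *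
      (Complex.exp (-(2 / 3 * c ^ 3)) * (c * aaG 0 c + Complex.I * aaG 1 c)) := by
  rw [← aaJ_one hc h, aaJ_const 1 ζ c hc]
  unfold Airy' aaJ aaF
  simp

/-- Coefficients of the expansion of the Airy function. -/
noncomputable def aau (k : ℕ) : ℂ := (-(1 / 9)) ^ k / (2 * k).factorial * aaa (3 * k)

/-- Coefficients of the expansion of the derivative. -/
noncomputable def aav : ℕ → ℂ
  | 0 => 1
  | k + 1 => aau (k + 1) + 1 / 3 * (-(1 / 9)) ^ k / (2 * k + 1).factorial * aaa (3 * k + 2)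

lemma aau_zero : aau 0 = 1 := by simp [aau, aaa]

lemma aa_scaled_zero (K : ℕ) {c : ℂ} (hc : 0 < c.re) :
    c ^ (1 / 2 : ℂ) / (√Real.pi : ℝ) *
      ∑ j ∈ Finset.range (2 * (K + 1)), (-Complex.I / 3) ^ j / j.factorial * aaM (3 * j + 0) c =
      ∑ k ∈ Finset.range (K + 1), aau k * ((c ^ 3) ^ k)⁻¹ := by
  have hpi : ((√Real.pi : ℝ) : ℂ) ≠ 0 := by
    exact_mod_cast (Real.sqrt_pos.mpr Real.pi_pos).ne'
  rw [aa_sum_two, Finset.mul_sum]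
  refine Finset.sum_congr rfl fun i _ => ?_
  rw [aaM_odd (m := 3 * (2 * i + 1) + 0) ⟨3 * i + 1, by ring⟩, mul_zero, add_zero,
    show 3 * (2 * i) + 0 = 2 * (3 * i) by ring, aaM_even _ hc, pow_mul (-Complex.I / 3)]
  have h1 : (-Complex.I / 3) ^ 2 = (-(1 / 9) : ℂ) := by
    rw [div_pow, neg_sq, Complex.I_sq]
    norm_num
  have h2 := aaM_zero hc
  rw [h1, aau, ← pow_mul, ← inv_pow]
  calc c ^ (1 / 2 : ℂ) / (√Real.pi : ℝ) * ((-(1 / 9)) ^ i / ((2 * i).factorial : ℂ) *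
        (aaa (3 * i) * c⁻¹ ^ (3 * i) * aaM 0 c)) =
      (c ^ (1 / 2 : ℂ) * aaM 0 c) / (√Real.pi : ℝ) * ((-(1 / 9)) ^ i / ((2 * i).factorial : ℂ) *
        aaa (3 * i) * c⁻¹ ^ (3 * i)) := by ring
    _ = _ := by rw [h2, div_self hpi, one_mul]

lemma aa_scaled_one (K : ℕ) {c : ℂ} (hc : 0 < c.re) :
    Complex.I * (c ^ (-(1 / 2) : ℂ) / (√Real.pi : ℝ)) *
      ∑ j ∈ Finset.range (2 * K + 1), (-Complex.I / 3) ^ j / j.factorial * aaM (3 * j + 1) c =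
      ∑ k ∈ Finset.range K, (1 / 3 * (-(1 / 9)) ^ k / ((2 * k + 1).factorial : ℂ) *
        aaa (3 * k + 2)) * ((c ^ 3) ^ (k + 1))⁻¹ := by
  have hc0 : c ≠ 0 := by
    rintro rfl
    simp at hc
  have hpi : ((√Real.pi : ℝ) : ℂ) ≠ 0 := by
    exact_mod_cast (Real.sqrt_pos.mpr Real.pi_pos).ne'
  rw [Finset.sum_range_succ, aaM_odd (m := 3 * (2 * K) + 1) ⟨3 * K, by ring⟩, mul_zero, add_zero,
    aa_sum_two, Finset.mul_sum]
  refine Finset.sum_congr rfl fun i _ => ?_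
  rw [aaM_odd (m := 3 * (2 * i) + 1) ⟨3 * i, by ring⟩, mul_zero, zero_add,
    show 3 * (2 * i + 1) + 1 = 2 * (3 * i + 2) by ring, aaM_even _ hc,
    pow_succ (-Complex.I / 3) (2 * i), pow_mul (-Complex.I / 3)]
  have h1 : (-Complex.I / 3) ^ 2 = (-(1 / 9) : ℂ) := by
    rw [div_pow, neg_sq, Complex.I_sq]
    norm_num
  have h2 := aaM_zero hc
  have h3 : c ^ (-(1 / 2) : ℂ) = c⁻¹ * c ^ (1 / 2 : ℂ) := by
    rw [show (-(1 / 2) : ℂ) = 1 / 2 - 1 by ring, Complex.cpow_sub _ _ hc0, Complex.cpow_one]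
    ring
  have h4 : (Complex.I * (-Complex.I / 3) : ℂ) = 1 / 3 := by
    linear_combination (-(1 / 3)) * Complex.I_sq
  rw [h1, h3, ← pow_mul, ← inv_pow]
  calc Complex.I * (c⁻¹ * c ^ (1 / 2 : ℂ) / (√Real.pi : ℝ)) *
        ((-(1 / 9)) ^ i * (-Complex.I / 3) / ((2 * i + 1).factorial : ℂ) *
        (aaa (3 * i + 2) * c⁻¹ ^ (3 * i + 2) * aaM 0 c)) =
      (Complex.I * (-Complex.I / 3)) * ((c ^ (1 / 2 : ℂ) * aaM 0 c) / (√Real.pi : ℝ)) *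
        ((-(1 / 9)) ^ i / ((2 * i + 1).factorial : ℂ) *
        aaa (3 * i + 2) * (c⁻¹ ^ (3 * i + 2) * c⁻¹)) := by ring
    _ = _ := by rw [h2, div_self hpi, h4, ← pow_succ]; ring

lemma aa_re_ge {ε : ℝ} (hε : 0 < ε) {c : ℂ} (h : |c.arg| ≤ (Real.pi - ε) / 2) :
    Real.sin (ε / 2) * ‖c‖ ≤ c.re := by
  have h1 : c.re = ‖c‖ * Real.cos c.arg := by
    rcases eq_or_ne c 0 with rfl | hc0
    · simp
    · rw [Complex.cos_arg hc0]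
      field_simp
  have h2 : Real.sin (ε / 2) ≤ Real.cos c.arg := by
    rw [← Real.cos_abs, ← Real.cos_pi_div_two_sub]
    apply Real.cos_le_cos_of_nonneg_of_le_pi (abs_nonneg _)
    · linarith [Real.pi_pos]
    · linarith
  rw [h1, mul_comm]
  exact mul_le_mul_of_nonneg_left h2 (norm_nonneg _)

/-- Error bound in terms of `ζ`. -/
lemma aa_err {C δ : ℝ} (hC : 0 ≤ C) (hδ : 0 < δ) (m q : ℕ) {c : ℂ} (hc : δ * ‖c‖ ≤ c.re)
    (hc0 : c ≠ 0) : √‖c‖ ^ q * (C / √c.re ^ (m + q)) ≤ C / √δ ^ (m + q) * (√‖c‖ ^ m)⁻¹ := by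
  have h0 : 0 < ‖c‖ := norm_pos_iff.mpr hc0
  have h1 : 0 < √‖c‖ := Real.sqrt_pos.mpr h0
  have h2 : 0 < √δ := Real.sqrt_pos.mpr hδ
  have h3 : √δ * √‖c‖ ≤ √c.re := by
    rw [← Real.sqrt_mul hδ.le]
    exact Real.sqrt_le_sqrt hc
  have h4 : (√δ * √‖c‖) ^ (m + q) ≤ √c.re ^ (m + q) := pow_le_pow_left₀ (by positivity) h3 _
  calc √‖c‖ ^ q * (C / √c.re ^ (m + q)) ≤ √‖c‖ ^ q * (C / (√δ * √‖c‖) ^ (m + q)) := by
        gcongr
    _ = _ := by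
        rw [mul_pow, pow_add √‖c‖]
        field_simp

theorem Airy_asymp : ∃ u v : ℕ → ℂ, u 0 = 1 ∧ v 0 = 1 ∧
    ∀ (K : ℕ) (ε : ℝ), 0 < ε → ∃ C : ℝ, ∀ ζ : ℂ, 1 ≤ ‖ζ‖ → |ζ.arg| ≤ Real.pi - ε →
      ‖2 * √Real.pi * ζ ^ (1 / 4 : ℂ) * Complex.exp (2 / 3 * ζ ^ (3 / 2 : ℂ)) * Airy ζ
        - ∑ k ∈ Finset.range (K + 1), u k * ((ζ ^ (3 / 2 : ℂ)) ^ k)⁻¹‖
          ≤ C * ‖ζ‖ ^ (-(3 * (K + 1) / 2) : ℝ) ∧
      ‖-(2 * √Real.pi * ζ ^ (-(1 / 4) : ℂ) * Complex.exp (2 / 3 * ζ ^ (3 / 2 : ℂ)) * Airy' ζ)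
        - ∑ k ∈ Finset.range (K + 1), v k * ((ζ ^ (3 / 2 : ℂ)) ^ k)⁻¹‖
          ≤ C * ‖ζ‖ ^ (-(3 * (K + 1) / 2) : ℝ) := by
  refine ⟨aau, aav, aau_zero, rfl, fun K ε hε => ?_⟩
  obtain ⟨C₀, hC₀, hG0⟩ := aaG_expand 0 (2 * (K + 1)) (by omega)
  obtain ⟨C₁, hC₁, hG1⟩ := aaG_expand 1 (2 * K + 1) (by omega)
  by_cases hεπ : ε ≤ Real.pi
  swap
  · refine ⟨0, fun ζ _ h => ?_⟩
    push Not at hεπ
    have := (abs_nonneg ζ.arg).trans h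
    linarith
  set δ := Real.sin (ε / 2) with hδ'
  have hδ : 0 < δ := Real.sin_pos_of_pos_of_lt_pi (by linarith) (by linarith [Real.pi_pos])
  have hsπ : 0 < √Real.pi := Real.sqrt_pos.mpr Real.pi_pos
  set D₀ := (1 / √Real.pi) * (C₀ / √δ ^ (6 * K + 6 + 1)) with hD₀
  set D₁ := (1 / √Real.pi) * (C₁ / √δ ^ (6 * K + 5)) with hD₁
  refine ⟨D₀ + D₁, fun ζ hζ harg => ?_⟩
  have hζ0 : ζ ≠ 0 := by
    rintro rfl
    simp at hζ
    linarith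
  set c := ζ ^ (1 / 2 : ℂ) with hcdef
  have hc2 : c ^ 2 = ζ := by
    rw [hcdef, ← Complex.cpow_nat_mul]
    norm_num
  have hlog : Complex.log c = Complex.log ζ * (1 / 2) := by
    rw [hcdef, Complex.cpow_def_of_ne_zero hζ0]
    have e : (Complex.log ζ * (1 / 2)).im = ζ.arg / 2 := by
      rw [show (1 / 2 : ℂ) = ((1 / 2 : ℝ) : ℂ) by norm_num, Complex.mul_im, Complex.ofReal_im,
        Complex.ofReal_re, Complex.log_im]
      ring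
    apply Complex.log_exp
    · rw [e]
      linarith [Complex.neg_pi_lt_arg ζ, Real.pi_pos]
    · rw [e]
      linarith [Complex.arg_le_pi ζ, Real.pi_pos]
  have hcarg : c.arg = ζ.arg / 2 := by
    rw [← Complex.log_im, hlog, show (1 / 2 : ℂ) = ((1 / 2 : ℝ) : ℂ) by norm_num, Complex.mul_im,
      Complex.ofReal_im, Complex.ofReal_re, Complex.log_im]
    ring
  have hcn : ‖ζ‖ = ‖c‖ ^ 2 := by rw [← hc2, norm_pow]
  have hc0 : c ≠ 0 := by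
    intro h
    rw [h] at hc2
    simp at hc2
    exact hζ0 hc2.symm
  have hre : δ * ‖c‖ ≤ c.re := aa_re_ge hε (by
    rw [hcarg, abs_div, abs_two]
    linarith)
  have hcpos : 0 < c.re := lt_of_lt_of_le (mul_pos hδ (norm_pos_iff.mpr hc0)) hre
  have h14 : ζ ^ (1 / 4 : ℂ) = c ^ (1 / 2 : ℂ) := by
    rw [Complex.cpow_def_of_ne_zero hζ0, Complex.cpow_def_of_ne_zero hc0, hlog]
    congr 1
    ring
  have h14' : ζ ^ (-(1 / 4) : ℂ) = c ^ (-(1 / 2) : ℂ) := by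
    rw [Complex.cpow_neg, Complex.cpow_neg, h14]
  have h32 : ζ ^ (3 / 2 : ℂ) = c ^ 3 := by
    rw [hcdef, ← Complex.cpow_nat_mul]
    norm_num
  have hcsq : ‖c ^ (1 / 2 : ℂ)‖ = √‖c‖ := by
    rw [show (1 / 2 : ℂ) = ((1 / 2 : ℝ) : ℂ) by norm_num, Complex.norm_cpow_real,
      Real.sqrt_eq_rpow]
  have hcsq' : ‖c ^ (-(1 / 2) : ℂ)‖ = (√‖c‖)⁻¹ := by
    rw [Complex.cpow_neg, norm_inv, hcsq]
  have hcn0 : 0 < ‖c‖ := norm_pos_iff.mpr hc0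
  have hsc : 0 < √‖c‖ := Real.sqrt_pos.mpr hcn0
  have hsc2 : √‖c‖ ^ 2 = ‖c‖ := Real.sq_sqrt hcn0.le
  have hpow : ‖ζ‖ ^ (-(3 * (K + 1) / 2) : ℝ) = (√‖c‖ ^ (6 * K + 6))⁻¹ := by
    have e : ‖ζ‖ = √‖c‖ ^ (4 : ℝ) := by
      rw [hcn, ← hsc2, ← pow_mul]
      norm_cast
      rw [Real.sqrt_sq hsc.le]
    rw [e, ← Real.rpow_mul hsc.le, ← Real.rpow_natCast, ← Real.rpow_neg hsc.le]
    congr 1
    push_cast
    ring
  have hpiC : ((√Real.pi : ℝ) : ℂ) ≠ 0 := by exact_mod_cast hsπ.ne'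
  have hpi2 : ((√Real.pi : ℝ) : ℂ) * ((√Real.pi : ℝ) : ℂ) = (Real.pi : ℂ) := by
    rw [← Complex.ofReal_mul, Real.mul_self_sqrt Real.pi_pos.le]
  have hexp : Complex.exp (2 / 3 * c ^ 3) * Complex.exp (-(2 / 3 * c ^ 3)) = 1 := by
    rw [← Complex.exp_add, add_neg_cancel, Complex.exp_zero]
  have hnorm1 : ‖c ^ (1 / 2 : ℂ) / ((√Real.pi : ℝ) : ℂ)‖ = 1 / √Real.pi * √‖c‖ := by
    rw [norm_div, hcsq, Complex.norm_real, Real.norm_eq_abs, abs_of_pos hsπ]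
    ring
  have hnorm2 : ‖Complex.I * (c ^ (-(1 / 2) : ℂ) / ((√Real.pi : ℝ) : ℂ))‖ =
      1 / √Real.pi * (√‖c‖)⁻¹ := by
    rw [norm_mul, Complex.norm_I, one_mul, norm_div, hcsq', Complex.norm_real, Real.norm_eq_abs,
      abs_of_pos hsπ]
    ring
  have hcc : c ^ (-(1 / 2) : ℂ) * c = c ^ (1 / 2 : ℂ) := by
    rw [show (1 / 2 : ℂ) = -(1 / 2) + 1 by ring, Complex.cpow_add _ _ hc0, Complex.cpow_one]
    norm_num
  -- the first expansion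
  have hfirst : ‖c ^ (1 / 2 : ℂ) / ((√Real.pi : ℝ) : ℂ) * aaG 0 c -
      ∑ k ∈ Finset.range (K + 1), aau k * ((c ^ 3) ^ k)⁻¹‖ ≤ D₀ * (√‖c‖ ^ (6 * K + 6))⁻¹ := by
    rw [← aa_scaled_zero K hcpos, ← mul_sub, norm_mul, hnorm1]
    have h1 := hG0 c hcpos
    rw [show 3 * (2 * (K + 1)) + 0 + 1 = 6 * K + 6 + 1 by ring] at h1
    have h2 := aa_err hC₀ hδ (6 * K + 6) 1 hre hc0
    rw [pow_one] at h2
    calc 1 / √Real.pi * √‖c‖ * ‖aaG 0 c - ∑ j ∈ Finset.range (2 * (K + 1)),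
          (-Complex.I / 3) ^ j / (j.factorial : ℂ) * aaM (3 * j + 0) c‖ ≤
        1 / √Real.pi * √‖c‖ * (C₀ / √c.re ^ (6 * K + 6 + 1)) := by gcongr
      _ = 1 / √Real.pi * (√‖c‖ * (C₀ / √c.re ^ (6 * K + 6 + 1))) := by ring
      _ ≤ 1 / √Real.pi * (C₀ / √δ ^ (6 * K + 6 + 1) * (√‖c‖ ^ (6 * K + 6))⁻¹) := by gcongr
      _ = _ := by rw [hD₀]; ring
  have hsecond : ‖Complex.I * (c ^ (-(1 / 2) : ℂ) / ((√Real.pi : ℝ) : ℂ)) * aaG 1 c -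
      ∑ k ∈ Finset.range K, (1 / 3 * (-(1 / 9)) ^ k / ((2 * k + 1).factorial : ℂ) *
        aaa (3 * k + 2)) * ((c ^ 3) ^ (k + 1))⁻¹‖ ≤ D₁ * (√‖c‖ ^ (6 * K + 6))⁻¹ := by
    rw [← aa_scaled_one K hcpos, ← mul_sub, norm_mul, hnorm2]
    have h1 := hG1 c hcpos
    rw [show 3 * (2 * K + 1) + 1 + 1 = 6 * K + 5 by ring] at h1
    have h2 := aa_err hC₁ hδ (6 * K + 5) 0 hre hc0
    rw [pow_zero, one_mul, add_zero] at h2
    calc 1 / √Real.pi * (√‖c‖)⁻¹ * ‖aaG 1 c - ∑ j ∈ Finset.range (2 * K + 1),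
          (-Complex.I / 3) ^ j / (j.factorial : ℂ) * aaM (3 * j + 1) c‖ ≤
        1 / √Real.pi * (√‖c‖)⁻¹ * (C₁ / √c.re ^ (6 * K + 5)) := by gcongr
      _ ≤ 1 / √Real.pi * (√‖c‖)⁻¹ * (C₁ / √δ ^ (6 * K + 5) * (√‖c‖ ^ (6 * K + 5))⁻¹) := by gcongr
      _ = _ := by
        rw [hD₁, pow_succ (√‖c‖) (6 * K + 5), mul_inv]
        ring
  have hD₀0 : 0 ≤ D₀ := by positivity
  have hD₁0 : 0 ≤ D₁ := by positivity
  have hinv : 0 ≤ (√‖c‖ ^ (6 * K + 6))⁻¹ := by positivity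
  rw [h14, h14', h32, hpow, aaAiry_eq hcpos hc2, aaAiry'_eq hcpos hc2]
  constructor
  · have e : 2 * ((√Real.pi : ℝ) : ℂ) * c ^ (1 / 2 : ℂ) * Complex.exp (2 / 3 * c ^ 3) *
        (1 / (2 * Real.pi) * (Complex.exp (-(2 / 3 * c ^ 3)) * aaG 0 c)) =
        c ^ (1 / 2 : ℂ) / ((√Real.pi : ℝ) : ℂ) * aaG 0 c := by
      rw [← hpi2]
      calc _ = c ^ (1 / 2 : ℂ) / ((√Real.pi : ℝ) : ℂ) * aaG 0 c *
            (Complex.exp (2 / 3 * c ^ 3) * Complex.exp (-(2 / 3 * c ^ 3))) := by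
            field_simp
        _ = _ := by rw [hexp, mul_one]
    rw [e]
    nlinarith
  · have e : -(2 * ((√Real.pi : ℝ) : ℂ) * c ^ (-(1 / 2) : ℂ) * Complex.exp (2 / 3 * c ^ 3) *
        (-(1 / (2 * Real.pi)) * (Complex.exp (-(2 / 3 * c ^ 3)) *
          (c * aaG 0 c + Complex.I * aaG 1 c)))) =
        c ^ (1 / 2 : ℂ) / ((√Real.pi : ℝ) : ℂ) * aaG 0 c +
        Complex.I * (c ^ (-(1 / 2) : ℂ) / ((√Real.pi : ℝ) : ℂ)) * aaG 1 c := by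
      rw [← hpi2, ← hcc]
      calc _ = (c ^ (-(1 / 2) : ℂ) * c / ((√Real.pi : ℝ) : ℂ) * aaG 0 c +
            Complex.I * (c ^ (-(1 / 2) : ℂ) / ((√Real.pi : ℝ) : ℂ)) * aaG 1 c) *
            (Complex.exp (2 / 3 * c ^ 3) * Complex.exp (-(2 / 3 * c ^ 3))) := by
            field_simp
        _ = _ := by rw [hexp, mul_one]
    have e2 : ∑ k ∈ Finset.range (K + 1), aav k * ((c ^ 3) ^ k)⁻¹ =
        ∑ k ∈ Finset.range (K + 1), aau k * ((c ^ 3) ^ k)⁻¹ +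
        ∑ k ∈ Finset.range K, (1 / 3 * (-(1 / 9)) ^ k / ((2 * k + 1).factorial : ℂ) *
          aaa (3 * k + 2)) * ((c ^ 3) ^ (k + 1))⁻¹ := by
      rw [Finset.sum_range_succ', Finset.sum_range_succ', add_right_comm, ← Finset.sum_add_distrib,
        aau_zero]
      congr 1
      refine Finset.sum_congr rfl fun k _ => ?_
      rw [aav]
      ring
    rw [e, e2, add_sub_add_comm]
    refine (norm_add_le _ _).trans ?_
    nlinarith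

end Pool.Agent.Freud
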