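import Pool.Agent.Freud.AiryA

set_option autoImplicit false

open MeasureTheory Filter Topology Asymptotics

namespace Pool.Agent.Freud

/-! Gaussian moments and the expansion of the Airy integral. -/

/-- Gaussian moments. -/
noncomputable def aaM (m : ℕ) (c : ℂ) : ℂ := ∫ s : ℝ, (s : ℂ) ^ m * Complex.exp (-c * (s : ℂ) ^ 2)

/-- The Airy integral along the steepest descent line. -/
noncomputable def aaG (p : ℕ) (c : ℂ) : ℂ :=
  ∫ s : ℝ, (s : ℂ) ^ p * Complex.exp (-c * (s : ℂ) ^ 2 - Complex.I * (s : ℂ) ^ 3 / 3)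

lemma aa_abs_int (m : ℕ) {ρ : ℝ} (hρ : 0 < ρ) :
    Integrable fun s : ℝ => |s| ^ m * Real.exp (-ρ * s ^ 2) := by
  have h1 := (integrable_rpow_mul_exp_neg_mul_sq hρ (s := m) (by
    have : (0 : ℝ) ≤ m := by positivity
    linarith)).norm
  refine h1.congr (Eventually.of_forall fun s => ?_)
  simp only
  rw [Real.rpow_natCast, norm_mul, norm_pow, Real.norm_eq_abs, Real.norm_eq_abs, Real.abs_exp]

lemma aa_norm_gauss (c : ℂ) (s : ℝ) :
    ‖Complex.exp (-c * (s : ℂ) ^ 2)‖ = Real.exp (-c.re * s ^ 2) := by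
  rw [Complex.norm_exp]
  congr 1
  rw [← Complex.ofReal_pow, Complex.mul_re, Complex.ofReal_re, Complex.ofReal_im, mul_zero,
    sub_zero, Complex.neg_re]

lemma aaM_int (m : ℕ) {c : ℂ} (hc : 0 < c.re) :
    Integrable fun s : ℝ => (s : ℂ) ^ m * Complex.exp (-c * (s : ℂ) ^ 2) := by
  refine (aa_abs_int m hc).mono' (by fun_prop) (Eventually.of_forall fun s => ?_)
  rw [norm_mul, norm_pow, Complex.norm_real, Real.norm_eq_abs, aa_norm_gauss]

lemma aaG_int (p : ℕ) {c : ℂ} (hc : 0 < c.re) :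
    Integrable fun s : ℝ => (s : ℂ) ^ p *
      Complex.exp (-c * (s : ℂ) ^ 2 - Complex.I * (s : ℂ) ^ 3 / 3) := by
  refine (aa_abs_int p hc).mono' (by fun_prop) (Eventually.of_forall fun s => ?_)
  rw [norm_mul, norm_pow, Complex.norm_real, Real.norm_eq_abs, sub_eq_add_neg, Complex.exp_add,
    norm_mul, aa_norm_gauss]
  have h1 : ‖Complex.exp (-(Complex.I * (s : ℂ) ^ 3 / 3))‖ = 1 := by
    rw [show -(Complex.I * (s : ℂ) ^ 3 / 3) = ((-(s ^ 3 / 3) : ℝ) : ℂ) * Complex.I by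
      push_cast; ring]
    exact Complex.norm_exp_ofReal_mul_I _
  rw [h1, mul_one]

lemma aaM_odd {m : ℕ} (hm : Odd m) (c : ℂ) : aaM m c = 0 := by
  have h1 : aaM m c = -aaM m c := by
    unfold aaM
    rw [← integral_neg]
    conv_lhs => rw [← integral_neg_eq_self]
    congr 1
    funext s
    push_cast
    rw [hm.neg_pow, neg_sq]
    ring
  have h2 : (2 : ℂ) * aaM m c = 0 := by
    rw [two_mul]
    nth_rewrite 2 [h1]
    ring
  exact (mul_eq_zero.mp h2).resolve_left two_ne_zero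

lemma aaM_rec (m : ℕ) {c : ℂ} (hc : 0 < c.re) :
    aaM (m + 2) c = ((m : ℂ) + 1) / 2 * c⁻¹ * aaM m c := by
  have hc0 : c ≠ 0 := by
    rintro rfl
    simp at hc
  have h1 : ∀ s : ℝ, HasDerivAt (fun s : ℝ => (s : ℂ) ^ (m + 1) * Complex.exp (-c * (s : ℂ) ^ 2))
      (((m : ℂ) + 1) * ((s : ℂ) ^ m * Complex.exp (-c * (s : ℂ) ^ 2)) -
        2 * c * ((s : ℂ) ^ (m + 2) * Complex.exp (-c * (s : ℂ) ^ 2))) s := by
    intro s
    have h2 : HasDerivAt (fun w : ℂ => w ^ (m + 1) * Complex.exp (-c * w ^ 2))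
        (((m : ℂ) + 1) * ((s : ℂ) ^ m * Complex.exp (-c * (s : ℂ) ^ 2)) -
        2 * c * ((s : ℂ) ^ (m + 2) * Complex.exp (-c * (s : ℂ) ^ 2))) (s : ℂ) := by
      have h3 := (hasDerivAt_pow (m + 1) (s : ℂ)).mul
        (((hasDerivAt_pow 2 (s : ℂ)).const_mul (-c)).cexp)
      refine h3.congr_deriv ?_
      rw [show m + 1 - 1 = m from rfl, show 2 - 1 = 1 from rfl]
      push_cast
      ring
    exact h2.comp_ofReal
  have h4 := integral_eq_zero_of_hasDerivAt_of_integrable h1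
    (((aaM_int m hc).const_mul _).sub ((aaM_int (m + 2) hc).const_mul _)) (aaM_int (m + 1) hc)
  rw [integral_sub ((aaM_int m hc).const_mul _) ((aaM_int (m + 2) hc).const_mul _),
    integral_const_mul, integral_const_mul] at h4
  have h5 : ((m : ℂ) + 1) * aaM m c = 2 * c * aaM (m + 2) c := sub_eq_zero.mp h4
  field_simp
  rw [h5]
  ring

/-- Coefficients of the even moments. -/
noncomputable def aaa : ℕ → ℂ
  | 0 => 1
  | k + 1 => aaa k * ((2 * k + 1) / 2)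

lemma aaM_even (k : ℕ) {c : ℂ} (hc : 0 < c.re) : aaM (2 * k) c = aaa k * (c⁻¹) ^ k * aaM 0 c := by
  induction k with
  | zero => simp [aaa]
  | succ k ih =>
    rw [show 2 * (k + 1) = 2 * k + 2 by ring, aaM_rec _ hc, ih, aaa]
    push_cast
    ring

lemma aaM_zero {c : ℂ} (hc : 0 < c.re) : c ^ (1 / 2 : ℂ) * aaM 0 c = (√Real.pi : ℝ) := by
  have hc0 : c ≠ 0 := by
    rintro rfl
    simp at hc
  have h1 : aaM 0 c = (Real.pi / c) ^ (1 / 2 : ℂ) := by
    rw [← integral_gaussian_complex hc]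
    unfold aaM
    simp
  have harg : c.arg ≠ Real.pi := by
    intro h
    have := (Complex.abs_arg_lt_pi_div_two_iff.mpr (Or.inl hc))
    rw [h, abs_of_pos Real.pi_pos] at this
    linarith [Real.pi_pos]
  have hpi : (Real.pi : ℂ) ≠ 0 := by exact_mod_cast Real.pi_ne_zero
  have hlog : Complex.log (Real.pi / c) = (Real.log Real.pi : ℝ) + -Complex.log c := by
    rw [div_eq_mul_inv, Complex.log_ofReal_mul Real.pi_pos (inv_ne_zero hc0),
      Complex.log_inv _ harg]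
  rw [h1, Complex.cpow_def_of_ne_zero hc0, Complex.cpow_def_of_ne_zero (div_ne_zero hpi hc0),
    ← Complex.exp_add, hlog, ← add_mul]
  rw [show Complex.log c + ((Real.log Real.pi : ℝ) + -Complex.log c) =
    ((Real.log Real.pi : ℝ) : ℂ) by ring, show ((Real.log Real.pi : ℝ) : ℂ) * (1 / 2) =
    ((Real.log Real.pi * (1 / 2) : ℝ) : ℂ) by push_cast; ring, ← Complex.ofReal_exp,
    Real.sqrt_eq_rpow, Real.rpow_def_of_pos Real.pi_pos]

lemma aa_abs_scale (m : ℕ) {ρ : ℝ} (hρ : 0 < ρ) :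
    ∫ s : ℝ, |s| ^ m * Real.exp (-ρ * s ^ 2) =
      (∫ s : ℝ, |s| ^ m * Real.exp (-1 * s ^ 2)) / √ρ ^ (m + 1) := by
  have hs : 0 < √ρ := Real.sqrt_pos.mpr hρ
  have h1 := Measure.integral_comp_mul_left (fun s : ℝ => |s| ^ m * Real.exp (-1 * s ^ 2)) (√ρ)
  have h2 : ∀ s : ℝ, |√ρ * s| ^ m * Real.exp (-1 * (√ρ * s) ^ 2) =
      √ρ ^ m * (|s| ^ m * Real.exp (-ρ * s ^ 2)) := by
    intro s
    rw [abs_mul, abs_of_pos hs, mul_pow, mul_pow √ρ s 2, Real.sq_sqrt hρ.le]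
    ring_nf
  simp_rw [h2] at h1
  rw [integral_const_mul, smul_eq_mul, abs_of_pos (by positivity)] at h1
  rw [eq_div_iff (by positivity), pow_succ]
  calc (∫ s : ℝ, |s| ^ m * Real.exp (-ρ * s ^ 2)) * (√ρ ^ m * √ρ) =
      √ρ ^ m * (∫ s : ℝ, |s| ^ m * Real.exp (-ρ * s ^ 2)) * √ρ := by ring
    _ = _ := by rw [h1]; field_simp

lemma aa_exp_I (N : ℕ) (hN : 0 < N) : ∃ C : ℝ, 0 ≤ C ∧ ∀ x : ℂ, x.re = 0 →
    ‖Complex.exp x - ∑ j ∈ Finset.range N, x ^ j / j.factorial‖ ≤ C * ‖x‖ ^ N := by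
  refine ⟨(N.succ : ℝ) * (N.factorial * N : ℝ)⁻¹ + 1 + N, by positivity, fun x hx => ?_⟩
  have h0 : 0 ≤ ‖x‖ ^ N := by positivity
  have h00 : (0 : ℝ) ≤ (N.succ : ℝ) * (N.factorial * N : ℝ)⁻¹ := by positivity
  rcases le_total ‖x‖ 1 with h1 | h1
  · have h2 := Complex.exp_bound h1 hN
    refine h2.trans ?_
    have : (0 : ℝ) ≤ N := by positivity
    nlinarith
  · have h2 : ‖Complex.exp x‖ = 1 := by rw [Complex.norm_exp, hx, Real.exp_zero]
    have h3 : ‖∑ j ∈ Finset.range N, x ^ j / j.factorial‖ ≤ N * ‖x‖ ^ N := by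
      refine (norm_sum_le _ _).trans ?_
      have h4 : ∀ j ∈ Finset.range N, ‖x ^ j / (j.factorial : ℂ)‖ ≤ ‖x‖ ^ N := by
        intro j hj
        rw [norm_div, norm_pow, Complex.norm_natCast]
        have h5 : (1 : ℝ) ≤ j.factorial := by exact_mod_cast Nat.succ_le_of_lt j.factorial_pos
        calc ‖x‖ ^ j / j.factorial ≤ ‖x‖ ^ j := div_le_self (by positivity) h5
          _ ≤ _ := pow_le_pow_right₀ h1 (Finset.mem_range.mp hj).le
      refine (Finset.sum_le_sum h4).trans ?_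
      rw [Finset.sum_const, Finset.card_range, nsmul_eq_mul]
    have h6 : (1 : ℝ) ≤ ‖x‖ ^ N := one_le_pow₀ h1
    calc _ ≤ ‖Complex.exp x‖ + ‖∑ j ∈ Finset.range N, x ^ j / j.factorial‖ := norm_sub_le _ _
      _ ≤ 1 + N * ‖x‖ ^ N := by rw [h2]; gcongr
      _ ≤ _ := by nlinarith

lemma aaG_expand (p N : ℕ) (hN : 0 < N) : ∃ C : ℝ, 0 ≤ C ∧ ∀ c : ℂ, 0 < c.re →
    ‖aaG p c - ∑ j ∈ Finset.range N, (-Complex.I / 3) ^ j / j.factorial * aaM (3 * j + p) c‖ ≤
      C / √c.re ^ (3 * N + p + 1) := by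
  obtain ⟨C, hC0, hC⟩ := aa_exp_I N hN
  have hD0 : 0 ≤ ∫ s : ℝ, |s| ^ (3 * N + p) * Real.exp (-1 * s ^ 2) :=
    integral_nonneg fun s => by positivity
  refine ⟨C * ∫ s : ℝ, |s| ^ (3 * N + p) * Real.exp (-1 * s ^ 2), by positivity, fun c hc => ?_⟩
  have h1 : ∑ j ∈ Finset.range N, (-Complex.I / 3) ^ j / j.factorial * aaM (3 * j + p) c =
      ∫ s : ℝ, (s : ℂ) ^ p * Complex.exp (-c * (s : ℂ) ^ 2) *
        ∑ j ∈ Finset.range N, (-(Complex.I * (s : ℂ) ^ 3 / 3)) ^ j / j.factorial := by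
    have h2 : ∀ s : ℝ, (s : ℂ) ^ p * Complex.exp (-c * (s : ℂ) ^ 2) *
        ∑ j ∈ Finset.range N, (-(Complex.I * (s : ℂ) ^ 3 / 3)) ^ j / j.factorial =
        ∑ j ∈ Finset.range N, (-Complex.I / 3) ^ j / j.factorial *
          ((s : ℂ) ^ (3 * j + p) * Complex.exp (-c * (s : ℂ) ^ 2)) := by
      intro s
      rw [Finset.mul_sum]
      refine Finset.sum_congr rfl fun j _ => ?_
      rw [show -(Complex.I * (s : ℂ) ^ 3 / 3) = (-Complex.I / 3) * (s : ℂ) ^ 3 by ring, mul_pow,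
        ← pow_mul, pow_add]
      ring
    simp_rw [h2]
    rw [integral_finsetSum _ fun j _ => (aaM_int (3 * j + p) hc).const_mul _]
    refine Finset.sum_congr rfl fun j _ => ?_
    rw [integral_const_mul]
    rfl
  have hint : Integrable fun s : ℝ => (s : ℂ) ^ p * Complex.exp (-c * (s : ℂ) ^ 2) *
        ∑ j ∈ Finset.range N, (-(Complex.I * (s : ℂ) ^ 3 / 3)) ^ j / j.factorial := by
    have h2 : (fun s : ℝ => (s : ℂ) ^ p * Complex.exp (-c * (s : ℂ) ^ 2) *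
        ∑ j ∈ Finset.range N, (-(Complex.I * (s : ℂ) ^ 3 / 3)) ^ j / j.factorial) =
        fun s : ℝ => ∑ j ∈ Finset.range N, (-Complex.I / 3) ^ j / j.factorial *
          ((s : ℂ) ^ (3 * j + p) * Complex.exp (-c * (s : ℂ) ^ 2)) := by
      funext s
      rw [Finset.mul_sum]
      refine Finset.sum_congr rfl fun j _ => ?_
      rw [show -(Complex.I * (s : ℂ) ^ 3 / 3) = (-Complex.I / 3) * (s : ℂ) ^ 3 by ring, mul_pow,
        ← pow_mul, pow_add]
      ring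
    rw [h2]
    exact integrable_finsetSum _ fun j _ => (aaM_int (3 * j + p) hc).const_mul _
  rw [h1, aaG, ← integral_sub (aaG_int p hc) hint]
  refine (norm_integral_le_integral_norm _).trans ?_
  have h3 : ∀ s : ℝ, ‖(s : ℂ) ^ p * Complex.exp (-c * (s : ℂ) ^ 2 - Complex.I * (s : ℂ) ^ 3 / 3) -
      (s : ℂ) ^ p * Complex.exp (-c * (s : ℂ) ^ 2) *
        ∑ j ∈ Finset.range N, (-(Complex.I * (s : ℂ) ^ 3 / 3)) ^ j / j.factorial‖ ≤
      C * (|s| ^ (3 * N + p) * Real.exp (-c.re * s ^ 2)) := by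
    intro s
    rw [sub_eq_add_neg (-c * (s : ℂ) ^ 2), Complex.exp_add, ← mul_assoc, ← mul_sub, norm_mul,
      norm_mul, norm_pow, Complex.norm_real, Real.norm_eq_abs, aa_norm_gauss]
    have h4 := hC (-(Complex.I * (s : ℂ) ^ 3 / 3)) (by
      rw [show -(Complex.I * (s : ℂ) ^ 3 / 3) = ((-(s ^ 3 / 3) : ℝ) : ℂ) * Complex.I by
        push_cast; ring, Complex.mul_re, Complex.I_re, Complex.I_im, Complex.ofReal_im]
      ring)
    have h5 : ‖-(Complex.I * (s : ℂ) ^ 3 / 3)‖ ^ N ≤ |s| ^ (3 * N) := by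
      rw [pow_mul]
      apply pow_le_pow_left₀ (norm_nonneg _)
      rw [norm_neg, norm_div, norm_mul, Complex.norm_I, one_mul, norm_pow, Complex.norm_real,
        Real.norm_eq_abs]
      have : ‖(3 : ℂ)‖ = 3 := by simp
      rw [this]
      have : 0 ≤ |s| ^ 3 := by positivity
      linarith
    calc _ ≤ |s| ^ p * Real.exp (-c.re * s ^ 2) * (C * |s| ^ (3 * N)) := by
          apply mul_le_mul_of_nonneg_left _ (by positivity)
          exact h4.trans (mul_le_mul_of_nonneg_left h5 hC0)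
      _ = _ := by rw [pow_add]; ring
  refine (integral_mono_of_nonneg (Eventually.of_forall fun s => norm_nonneg _)
    ((aa_abs_int (3 * N + p) hc).const_mul C) (Eventually.of_forall h3)).trans ?_
  rw [integral_const_mul, aa_abs_scale _ hc, mul_div_assoc]

lemma aa_sum_two {f : ℕ → ℂ} (K : ℕ) : ∑ j ∈ Finset.range (2 * K), f j =
    ∑ i ∈ Finset.range K, (f (2 * i) + f (2 * i + 1)) := by
  induction K with
  | zero => simp
  | succ K ih =>
    rw [show 2 * (K + 1) = 2 * K + 1 + 1 by ring, Finset.sum_range_succ, Finset.sum_range_succ, ih,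
      Finset.sum_range_succ]
    ring

end Pool.Agent.Freud
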