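import Pool.Agent.Freud.Defs

/-!
Calculus of dbar derivatives and the cut-off functions.
-/

set_option autoImplicit false

open MeasureTheory Filter Topology

namespace Pool.Agent.Freud

/-! ### Scalar rules -/

theorem HasDbar.of_hasDerivAt {f : ℂ → ℂ} {f' z : ℂ} (h : HasDerivAt f f' z) :
    HasDbar f 0 z := by
  refine ⟨_, h.hasFDerivAt.restrictScalars ℝ, ?_⟩
  simp only [ContinuousLinearMap.coe_restrictScalars', ContinuousLinearMap.toSpanSingleton_apply,
    smul_eq_mul, one_mul, mul_zero]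
  linear_combination f' * Complex.I_mul_I

theorem HasDbar.add {f g : ℂ → ℂ} {b c z : ℂ} (hf : HasDbar f b z) (hg : HasDbar g c z) :
    HasDbar (fun w => f w + g w) (b + c) z := by
  obtain ⟨L, hL, h1⟩ := hf
  obtain ⟨M, hM, h2⟩ := hg
  refine ⟨L + M, hL.add hM, ?_⟩
  simp only [add_apply]
  linear_combination h1 + h2

theorem HasDbar.mul {f g : ℂ → ℂ} {b c z : ℂ} (hf : HasDbar f b z) (hg : HasDbar g c z) :
    HasDbar (fun w => f w * g w) (b * g z + f z * c) z := by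
  obtain ⟨L, hL, h1⟩ := hf
  obtain ⟨M, hM, h2⟩ := hg
  refine ⟨f z • M + g z • L, hL.mul hM, ?_⟩
  simp only [add_apply, smul_apply, smul_eq_mul]
  linear_combination g z * h1 + f z * h2

theorem HasDbar.congr {f g : ℂ → ℂ} {b z : ℂ} (hf : HasDbar f b z) (h : g =ᶠ[𝓝 z] f) :
    HasDbar g b z := by
  obtain ⟨L, hL, h1⟩ := hf
  exact ⟨L, hL.congr_of_eventuallyEq h, h1⟩

theorem HasDbar.of_eq {f : ℂ → ℂ} {b c z : ℂ} (hf : HasDbar f b z) (h : b = c) :
    HasDbar f c z := by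
  subst h; exact hf

theorem HasDbar.const (c z : ℂ) : HasDbar (fun _ => c) 0 z :=
  HasDbar.of_hasDerivAt (hasDerivAt_const z c)

theorem HasDbar.neg {f : ℂ → ℂ} {b z : ℂ} (hf : HasDbar f b z) :
    HasDbar (fun w => -f w) (-b) z := by
  obtain ⟨L, hL, h1⟩ := hf
  refine ⟨-L, hL.neg, ?_⟩
  simp only [neg_apply]
  linear_combination -h1

theorem HasDbar.sub {f g : ℂ → ℂ} {b c z : ℂ} (hf : HasDbar f b z) (hg : HasDbar g c z) :
    HasDbar (fun w => f w - g w) (b - c) z := by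
  obtain ⟨L, hL, h1⟩ := hf
  obtain ⟨M, hM, h2⟩ := hg
  refine ⟨L - M, hL.sub hM, ?_⟩
  simp only [sub_apply]
  linear_combination h1 - h2

theorem HasDbar.const_mul {f : ℂ → ℂ} {b z : ℂ} (a : ℂ) (hf : HasDbar f b z) :
    HasDbar (fun w => a * f w) (a * b) z :=
  ((HasDbar.const a z).mul hf).of_eq (by ring)

/-- composition with a holomorphic function -/
theorem HasDbar.comp {f g : ℂ → ℂ} {b g' z : ℂ} (hg : HasDerivAt g g' (f z))
    (hf : HasDbar f b z) : HasDbar (fun w => g (f w)) (g' * b) z := by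
  obtain ⟨L, hL, h1⟩ := hf
  have h2 := (hg.hasFDerivAt.restrictScalars ℝ).comp z hL
  refine ⟨_, h2, ?_⟩
  simp only [ContinuousLinearMap.comp_apply, ContinuousLinearMap.coe_restrictScalars',
    ContinuousLinearMap.toSpanSingleton_apply, smul_eq_mul]
  linear_combination g' * h1

theorem HasDbar.inv {f : ℂ → ℂ} {b z : ℂ} (hf : HasDbar f b z) (h : f z ≠ 0) :
    HasDbar (fun w => (f w)⁻¹) (-(b / f z ^ 2)) z :=
  (HasDbar.comp (hasDerivAt_inv h) hf).of_eq (by field_simp)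

theorem HasDbar.continuousAt {f : ℂ → ℂ} {b z : ℂ} (hf : HasDbar f b z) : ContinuousAt f z := by
  obtain ⟨L, hL, -⟩ := hf
  exact hL.continuousAt

/-! ### Matrix rules -/

theorem HasDbarM.add {F G : ℂ → Mat2} {B C : Mat2} {z : ℂ} (hF : HasDbarM F B z)
    (hG : HasDbarM G C z) : HasDbarM (fun w => F w + G w) (B + C) z :=
  fun i j => (hF i j).add (hG i j)

theorem HasDbarM.smul {f : ℂ → ℂ} {G : ℂ → Mat2} {b : ℂ} {C : Mat2} {z : ℂ}
    (hf : HasDbar f b z) (hG : HasDbarM G C z) :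
    HasDbarM (fun w => f w • G w) (b • G z + f z • C) z :=
  fun i j => hf.mul (hG i j)

theorem HasDbarM.mul {F G : ℂ → Mat2} {B C : Mat2} {z : ℂ} (hF : HasDbarM F B z)
    (hG : HasDbarM G C z) : HasDbarM (fun w => F w * G w) (B * G z + F z * C) z := by
  intro i j
  have h := ((hF i 0).mul (hG 0 j)).add ((hF i 1).mul (hG 1 j))
  have e : (fun w => (F w * G w) i j) = fun w => F w i 0 * G w 0 j + F w i 1 * G w 1 j := by
    funext w
    rw [Matrix.mul_apply, Fin.sum_univ_two]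
  rw [e]
  refine h.of_eq ?_
  rw [Matrix.add_apply, Matrix.mul_apply, Matrix.mul_apply, Fin.sum_univ_two, Fin.sum_univ_two]
  ring

theorem HasDbarM.inv {F : ℂ → Mat2} {B : Mat2} {z : ℂ} (hF : HasDbarM F B z)
    (hdet : (F z).det ≠ 0) :
    HasDbarM (fun w => (F w)⁻¹) (-((F z)⁻¹ * B * (F z)⁻¹)) z := by
  have hd : HasDbar (fun w => (F w).det)
      (B 0 0 * F z 1 1 + F z 0 0 * B 1 1 - (B 0 1 * F z 1 0 + F z 0 1 * B 1 0)) z := by
    have e : (fun w => (F w).det) = fun w => F w 0 0 * F w 1 1 - F w 0 1 * F w 1 0 := by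
      funext w
      rw [Matrix.det_fin_two]
    rw [e]
    exact ((hF 0 0).mul (hF 1 1)).sub ((hF 0 1).mul (hF 1 0))
  have hi := hd.inv hdet
  have hinv : ∀ w, (F w)⁻¹ = !![(F w).det⁻¹ * F w 1 1, (F w).det⁻¹ * (-F w 0 1);
      (F w).det⁻¹ * (-F w 1 0), (F w).det⁻¹ * F w 0 0] := by
    intro w
    rw [Matrix.inv_def, Ring.inverse_eq_inv', Matrix.adjugate_fin_two]
    simp only [Matrix.smul_of, Matrix.smul_cons, Matrix.smul_empty, smul_eq_mul]
  have hD : (F z).det = F z 0 0 * F z 1 1 - F z 0 1 * F z 1 0 := Matrix.det_fin_two _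
  intro i j
  fin_cases i <;> fin_cases j
  · have h := hi.mul (hF 1 1)
    have e : (fun w => (F w)⁻¹ 0 0) = fun w => (F w).det⁻¹ * F w 1 1 := by
      funext w; rw [hinv]; rfl
    change HasDbar (fun w => (F w)⁻¹ 0 0) ((-((F z)⁻¹ * B * (F z)⁻¹)) 0 0) z
    rw [e]
    refine h.of_eq ?_
    rw [Matrix.neg_apply, Matrix.mul_apply, Fin.sum_univ_two, Matrix.mul_apply, Matrix.mul_apply,
      Fin.sum_univ_two, Fin.sum_univ_two, hinv]
    simp only [Matrix.of_apply, Matrix.cons_val', Matrix.cons_val_zero, Matrix.cons_val_one,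
      Matrix.cons_val_fin_one]
    field_simp
    rw [hD]
    ring
  · have h := hi.mul (hF 0 1).neg
    have e : (fun w => (F w)⁻¹ 0 1) = fun w => (F w).det⁻¹ * (-F w 0 1) := by
      funext w; rw [hinv]; rfl
    change HasDbar (fun w => (F w)⁻¹ 0 1) ((-((F z)⁻¹ * B * (F z)⁻¹)) 0 1) z
    rw [e]
    refine h.of_eq ?_
    rw [Matrix.neg_apply, Matrix.mul_apply, Fin.sum_univ_two, Matrix.mul_apply, Matrix.mul_apply,
      Fin.sum_univ_two, Fin.sum_univ_two, hinv]
    simp only [Matrix.of_apply, Matrix.cons_val', Matrix.cons_val_zero, Matrix.cons_val_one,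
      Matrix.cons_val_fin_one]
    field_simp
    rw [hD]
    ring
  · have h := hi.mul (hF 1 0).neg
    have e : (fun w => (F w)⁻¹ 1 0) = fun w => (F w).det⁻¹ * (-F w 1 0) := by
      funext w; rw [hinv]; rfl
    change HasDbar (fun w => (F w)⁻¹ 1 0) ((-((F z)⁻¹ * B * (F z)⁻¹)) 1 0) z
    rw [e]
    refine h.of_eq ?_
    rw [Matrix.neg_apply, Matrix.mul_apply, Fin.sum_univ_two, Matrix.mul_apply, Matrix.mul_apply,
      Fin.sum_univ_two, Fin.sum_univ_two, hinv]
    simp only [Matrix.of_apply, Matrix.cons_val', Matrix.cons_val_zero, Matrix.cons_val_one,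
      Matrix.cons_val_fin_one]
    field_simp
    rw [hD]
    ring
  · have h := hi.mul (hF 0 0)
    have e : (fun w => (F w)⁻¹ 1 1) = fun w => (F w).det⁻¹ * F w 0 0 := by
      funext w; rw [hinv]; rfl
    change HasDbar (fun w => (F w)⁻¹ 1 1) ((-((F z)⁻¹ * B * (F z)⁻¹)) 1 1) z
    rw [e]
    refine h.of_eq ?_
    rw [Matrix.neg_apply, Matrix.mul_apply, Fin.sum_univ_two, Matrix.mul_apply, Matrix.mul_apply,
      Fin.sum_univ_two, Fin.sum_univ_two, hinv]
    simp only [Matrix.of_apply, Matrix.cons_val', Matrix.cons_val_zero, Matrix.cons_val_one,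
      Matrix.cons_val_fin_one]
    field_simp
    rw [hD]
    ring

/-- the reflection, scalar version -/
theorem HasDbar.conj_neg_conj {f : ℂ → ℂ} {b z : ℂ} (hf : HasDbar f b (-(starRingEnd ℂ z))) :
    HasDbar (fun w => starRingEnd ℂ (f (-(starRingEnd ℂ w)))) (-(starRingEnd ℂ b)) z := by
  obtain ⟨L, hL, h1⟩ := hf
  have hc : HasFDerivAt (fun w : ℂ => -(starRingEnd ℂ w)) (-(Complex.conjCLE : ℂ →L[ℝ] ℂ)) z := by
    have := (Complex.conjCLE : ℂ →L[ℝ] ℂ).hasFDerivAt (x := z)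
    exact this.neg
  have h2 := hL.comp z hc
  have h3 := ((Complex.conjCLE : ℂ →L[ℝ] ℂ).hasFDerivAt (x := f (-(starRingEnd ℂ z)))).comp z h2
  refine ⟨_, h3, ?_⟩
  have e1 : L (-(starRingEnd ℂ (1 : ℂ))) = -L 1 := by
    rw [map_one, map_neg]
  have e2 : L (-(starRingEnd ℂ Complex.I)) = L Complex.I := by
    rw [Complex.conj_I, neg_neg]
  have h4 := congrArg (starRingEnd ℂ) h1
  rw [map_add, map_mul, map_mul, Complex.conj_I, Complex.conj_ofNat] at h4
  change starRingEnd ℂ (L (-(starRingEnd ℂ (1 : ℂ)))) +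
    Complex.I * starRingEnd ℂ (L (-(starRingEnd ℂ Complex.I))) = _
  rw [e1, e2, map_neg]
  linear_combination -h4

theorem HasDbarM.refl {F : ℂ → Mat2} {B : Mat2} {z : ℂ}
    (hF : HasDbarM F B (-(starRingEnd ℂ z))) :
    HasDbarM (refl F) (-(sig3 * cj B * sig3)) z := by
  have hs : ∀ A : Mat2, sig3 * cj A * sig3 = !![starRingEnd ℂ (A 0 0), -starRingEnd ℂ (A 0 1);
      -starRingEnd ℂ (A 1 0), starRingEnd ℂ (A 1 1)] := by
    intro A
    ext i j
    fin_cases i <;> fin_cases j <;>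
      simp [sig3, cj, Matrix.mul_apply, Matrix.vecMul, dotProduct, Fin.sum_univ_two]
  intro i j
  fin_cases i <;> fin_cases j
  · have h := (hF 0 0).conj_neg_conj
    have e : (fun w => Pool.Agent.Freud.refl F w 0 0)
        = fun w => starRingEnd ℂ (F (-(starRingEnd ℂ w)) 0 0) := by
      funext w
      change (sig3 * cj (F (-(starRingEnd ℂ w))) * sig3) 0 0 = _
      rw [hs]; rfl
    change HasDbar (fun w => Pool.Agent.Freud.refl F w 0 0) ((-(sig3 * cj B * sig3)) 0 0) z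
    rw [e, hs]
    exact h
  · have h := (hF 0 1).conj_neg_conj.neg
    have e : (fun w => Pool.Agent.Freud.refl F w 0 1)
        = fun w => -starRingEnd ℂ (F (-(starRingEnd ℂ w)) 0 1) := by
      funext w
      change (sig3 * cj (F (-(starRingEnd ℂ w))) * sig3) 0 1 = _
      rw [hs]; rfl
    change HasDbar (fun w => Pool.Agent.Freud.refl F w 0 1) ((-(sig3 * cj B * sig3)) 0 1) z
    rw [e, hs]
    exact h
  · have h := (hF 1 0).conj_neg_conj.neg
    have e : (fun w => Pool.Agent.Freud.refl F w 1 0)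
        = fun w => -starRingEnd ℂ (F (-(starRingEnd ℂ w)) 1 0) := by
      funext w
      change (sig3 * cj (F (-(starRingEnd ℂ w))) * sig3) 1 0 = _
      rw [hs]; rfl
    change HasDbar (fun w => Pool.Agent.Freud.refl F w 1 0) ((-(sig3 * cj B * sig3)) 1 0) z
    rw [e, hs]
    exact h
  · have h := (hF 1 1).conj_neg_conj
    have e : (fun w => Pool.Agent.Freud.refl F w 1 1)
        = fun w => starRingEnd ℂ (F (-(starRingEnd ℂ w)) 1 1) := by
      funext w
      change (sig3 * cj (F (-(starRingEnd ℂ w))) * sig3) 1 1 = _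
      rw [hs]; rfl
    change HasDbar (fun w => Pool.Agent.Freud.refl F w 1 1) ((-(sig3 * cj B * sig3)) 1 1) z
    rw [e, hs]
    exact h

/-! ### Cut-offs -/

theorem dbar_rho_contDiff : ContDiff ℝ 1 rho := by
  unfold rho
  exact Real.smoothTransition.contDiff.comp (by fun_prop)

theorem dbar_tau_contDiff : ContDiff ℝ 1 tau := by
  unfold tau
  exact Real.smoothTransition.contDiff.comp (by fun_prop)

theorem dbar_rho_hasDerivAt (t : ℝ) : HasDerivAt rho (deriv rho t) t :=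
  ((dbar_rho_contDiff.differentiable (by norm_num)) t).hasDerivAt

theorem dbar_tau_hasDerivAt (t : ℝ) : HasDerivAt tau (deriv tau t) t :=
  ((dbar_tau_contDiff.differentiable (by norm_num)) t).hasDerivAt

/-- chain rule for a real function of a real valued function on the plane -/
theorem HasDbar.of_real {φ : ℝ → ℝ} {φ' : ℝ} {g : ℂ → ℝ} {M : ℂ →L[ℝ] ℝ} {z : ℂ}
    (hg : HasFDerivAt g M z) (hφ : HasDerivAt φ φ' (g z)) :
    HasDbar (fun w => (φ (g w) : ℂ)) (φ' * (M 1 + Complex.I * M Complex.I) / 2) z := by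
  have h1 := hφ.comp_hasFDerivAt z hg
  have h2 := (Complex.ofRealCLM.hasFDerivAt (x := φ (g z))).comp z h1
  refine ⟨_, h2, ?_⟩
  change ((φ' * M 1 : ℝ) : ℂ) + Complex.I * ((φ' * M Complex.I : ℝ) : ℂ) = _
  push_cast
  ring

theorem hasDbar_rho (y0 : ℝ) (hy : 0 < y0) (z : ℂ) :
    HasDbar (fun w => (rho (w.im / y0) : ℂ))
      (Complex.I / 2 * ((deriv rho (z.im / y0) : ℝ) : ℂ) / y0) z := by
  have _ := hy
  have hg : HasFDerivAt (fun w : ℂ => w.im / y0) ((y0⁻¹ : ℝ) • Complex.imCLM) z := by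
    have := (Complex.imCLM.hasFDerivAt (x := z)).const_smul (y0⁻¹ : ℝ)
    have e : (fun w : ℂ => w.im / y0) = fun w : ℂ => (y0⁻¹ : ℝ) • Complex.imCLM w := by
      funext w
      rw [smul_eq_mul, Complex.imCLM_apply, div_eq_inv_mul]
    rw [e]
    exact this
  refine (HasDbar.of_real hg (dbar_rho_hasDerivAt _)).of_eq ?_
  simp only [smul_apply, Complex.imCLM_apply, Complex.one_im, Complex.I_im,
    smul_eq_mul, mul_zero, mul_one, Complex.ofReal_zero, Complex.ofReal_inv]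
  ring

theorem hasDbar_tau (z : ℂ) (hz : z ∈ UH) :
    HasDbar (fun w => (tau (w.re / w.im) : ℂ))
      (-(Complex.I / 2) * ((deriv tau (z.re / z.im) : ℝ) : ℂ) * z / (z.im : ℂ) ^ 2) z := by
  have hz' : z.im ≠ 0 := ne_of_gt hz
  have hg : HasFDerivAt (fun w : ℂ => w.re / w.im)
      ((z.im⁻¹ : ℝ) • Complex.reCLM - (z.re * (z.im ^ 2)⁻¹) • Complex.imCLM) z := by
    have h1 := Complex.reCLM.hasFDerivAt (x := z)
    have h2 := (hasDerivAt_inv hz').comp_hasFDerivAt z (Complex.imCLM.hasFDerivAt (x := z))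
    have h3 := h1.mul h2
    have e : (fun w : ℂ => w.re / w.im) = fun w : ℂ => Complex.reCLM w *
        ((fun y : ℝ => y⁻¹) ∘ Complex.imCLM) w := by
      funext w
      rfl
    rw [e]
    refine h3.congr_fderiv ?_
    ext v
    simp only [add_apply, sub_apply,
      smul_apply, smul_eq_mul, Complex.reCLM_apply, Complex.imCLM_apply,
      Function.comp_apply]
    ring
  refine (HasDbar.of_real hg (dbar_tau_hasDerivAt _)).of_eq ?_
  have hzc : (z.im : ℂ) ≠ 0 := by exact_mod_cast hz'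
  have hzz : z = z.re + z.im * Complex.I := (Complex.re_add_im z).symm
  simp only [sub_apply, smul_apply, Complex.imCLM_apply,
    Complex.reCLM_apply, Complex.one_im, Complex.I_im, Complex.one_re, Complex.I_re,
    smul_eq_mul, mul_zero, mul_one, Complex.ofReal_inv, sub_zero, zero_sub, Complex.ofReal_neg,
    Complex.ofReal_mul, Complex.ofReal_pow]
  conv_rhs => rw [show -(Complex.I / 2) * ((deriv tau (z.re / z.im) : ℝ) : ℂ) * z
    = -(Complex.I / 2) * ((deriv tau (z.re / z.im) : ℝ) : ℂ) * (z.re + z.im * Complex.I) from by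
      rw [← hzz]]
  field_simp
  linear_combination (((deriv tau (z.re / z.im) : ℝ) : ℂ) * z.im) * Complex.I_sq

theorem hasDbar_eta (δ : ℝ) (hδ : 0 < δ) (z : ℂ) :
    HasDbar (fun w => (eta δ w : ℂ)) (deta δ z) z := by
  have _ := hδ
  have hg : HasFDerivAt (fun w : ℂ => ‖w - 1‖ ^ 2 / (3 * δ / 4) ^ 2)
      ((2 * ((3 * δ / 4) ^ 2)⁻¹ * (z - 1).re) • Complex.reCLM +
        (2 * ((3 * δ / 4) ^ 2)⁻¹ * (z - 1).im) • Complex.imCLM) z := by
    have h1 := (Complex.reCLM.hasFDerivAt (x := z)).sub_const 1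
    have h2 := Complex.imCLM.hasFDerivAt (x := z)
    have h3 := ((h1.mul h1).add (h2.mul h2)).mul_const (((3 * δ / 4) ^ 2)⁻¹)
    have e : (fun w : ℂ => ‖w - 1‖ ^ 2 / (3 * δ / 4) ^ 2)
        = fun w : ℂ => ((Complex.reCLM w - 1) * (Complex.reCLM w - 1) +
          Complex.imCLM w * Complex.imCLM w) * ((3 * δ / 4) ^ 2)⁻¹ := by
      funext w
      rw [← Complex.normSq_eq_norm_sq, Complex.normSq_apply, Complex.sub_re, Complex.sub_im,
        Complex.one_re, Complex.one_im, sub_zero, div_eq_mul_inv]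
      rfl
    rw [e]
    refine h3.congr_fderiv ?_
    ext v
    simp only [add_apply,
      smul_apply, smul_eq_mul, Complex.reCLM_apply, Complex.imCLM_apply,
      Complex.sub_re, Complex.sub_im, Complex.one_re, Complex.one_im]
    ring
  refine (HasDbar.of_real hg (dbar_rho_hasDerivAt _)).of_eq ?_
  unfold deta
  have hzz : z - 1 = (z - 1).re + (z - 1).im * Complex.I := (Complex.re_add_im (z - 1)).symm
  generalize deriv rho (‖z - 1‖ ^ 2 / (3 * δ / 4) ^ 2) = D
  simp only [add_apply, smul_apply, Complex.imCLM_apply,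
    Complex.reCLM_apply, Complex.one_im, Complex.I_im, Complex.one_re, Complex.I_re,
    smul_eq_mul, mul_zero, mul_one, Complex.ofReal_inv, add_zero, zero_add,
    Complex.ofReal_mul, Complex.ofReal_pow, Complex.ofReal_ofNat]
  linear_combination (-((D : ℂ) * (((3 * δ / 4 : ℝ) : ℂ) ^ 2)⁻¹)) * hzz

theorem dbar_bounded_of_zero {f : ℝ → ℝ} (hf : Continuous f) {a b : ℝ}
    (ha : ∀ t, t ≤ a → f t = 0) (hb : ∀ t, b ≤ t → f t = 0) : ∃ C : ℝ, ∀ t, |f t| ≤ C := by
  obtain ⟨C, hC⟩ := (isCompact_Icc (a := a) (b := b)).exists_bound_of_continuousOn hf.continuousOn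
  refine ⟨max C 0, fun t => ?_⟩
  by_cases h1 : t ≤ a
  · rw [ha t h1, abs_zero]; exact le_max_right _ _
  · by_cases h2 : b ≤ t
    · rw [hb t h2, abs_zero]; exact le_max_right _ _
    · have := hC t ⟨by linarith, by linarith⟩
      rw [Real.norm_eq_abs] at this
      exact this.trans (le_max_left _ _)

theorem rho_facts : ContDiff ℝ 1 rho ∧ (∀ t, 0 ≤ rho t ∧ rho t ≤ 1) ∧
    (∀ t, t ≤ 1 / 2 → rho t = 1) ∧ (∀ t, 1 ≤ t → rho t = 0) ∧
    (∀ t, t ≤ 1 / 2 → deriv rho t = 0) ∧ (∀ t, 1 ≤ t → deriv rho t = 0) ∧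
    (∃ C : ℝ, ∀ t, |deriv rho t| ≤ C) := by
  have hb : ∀ t, 0 ≤ rho t ∧ rho t ≤ 1 := fun t =>
    ⟨Real.smoothTransition.nonneg _, Real.smoothTransition.le_one _⟩
  have h1 : ∀ t, t ≤ 1 / 2 → rho t = 1 := fun t ht =>
    Real.smoothTransition.one_of_one_le (by linarith)
  have h0 : ∀ t, 1 ≤ t → rho t = 0 := fun t ht =>
    Real.smoothTransition.zero_of_nonpos (by linarith)
  have d1 : ∀ t, t ≤ 1 / 2 → deriv rho t = 0 := by
    intro t ht
    refine IsLocalMax.deriv_eq_zero (Eventually.of_forall fun s => ?_)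
    rw [h1 t ht]; exact (hb s).2
  have d0 : ∀ t, 1 ≤ t → deriv rho t = 0 := by
    intro t ht
    refine IsLocalMin.deriv_eq_zero (Eventually.of_forall fun s => ?_)
    rw [h0 t ht]; exact (hb s).1
  exact ⟨dbar_rho_contDiff, hb, h1, h0, d1, d0,
    dbar_bounded_of_zero (dbar_rho_contDiff.continuous_deriv le_rfl) d1 d0⟩

theorem tau_facts : ContDiff ℝ 1 tau ∧ (∀ t, 0 ≤ tau t ∧ tau t ≤ 1) ∧
    (∀ t, t ≤ -1 → tau t = 0) ∧ (∀ t, 1 ≤ t → tau t = 1) ∧
    (∀ t, t ≤ -1 → deriv tau t = 0) ∧ (∀ t, 1 ≤ t → deriv tau t = 0) ∧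
    (∀ t, tau (-t) = 1 - tau t) ∧ (∃ C : ℝ, ∀ t, |deriv tau t| ≤ C) := by
  have hb : ∀ t, 0 ≤ tau t ∧ tau t ≤ 1 := fun t =>
    ⟨Real.smoothTransition.nonneg _, Real.smoothTransition.le_one _⟩
  have h0 : ∀ t, t ≤ -1 → tau t = 0 := fun t ht =>
    Real.smoothTransition.zero_of_nonpos (by linarith)
  have h1 : ∀ t, 1 ≤ t → tau t = 1 := fun t ht =>
    Real.smoothTransition.one_of_one_le (by linarith)
  have d0 : ∀ t, t ≤ -1 → deriv tau t = 0 := by
    intro t ht
    refine IsLocalMin.deriv_eq_zero (Eventually.of_forall fun s => ?_)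
    rw [h0 t ht]; exact (hb s).1
  have d1 : ∀ t, 1 ≤ t → deriv tau t = 0 := by
    intro t ht
    refine IsLocalMax.deriv_eq_zero (Eventually.of_forall fun s => ?_)
    rw [h1 t ht]; exact (hb s).2
  refine ⟨dbar_tau_contDiff, hb, h0, h1, d0, d1, ?_,
    dbar_bounded_of_zero (dbar_tau_contDiff.continuous_deriv le_rfl) d0 d1⟩
  intro t
  unfold tau Real.smoothTransition
  have e1 : 1 - (-t + 1) / 2 = (t + 1) / 2 := by ring
  have e2 : 1 - (t + 1) / 2 = (-t + 1) / 2 := by ring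
  have hpos := Real.smoothTransition.pos_denom ((t + 1) / 2)
  rw [e2] at hpos
  rw [e1, e2, eq_sub_iff_add_eq, add_comm (expNegInvGlue ((-t + 1) / 2)), ← add_div, add_comm,
    div_eq_one_iff_eq hpos.ne']

end Pool.Agent.Freud
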