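import Pool.Agent.Freud.Defs2

/-!
Job FR-B2: decay of polynomials times the weight, Stieltjes transforms of orthogonal polynomials,
and the Legendre duplication form of the coefficient.
-/

set_option autoImplicit false

open MeasureTheory Filter Topology Asymptotics

namespace Pool.Agent.Freud

theorem kap_pos (α : ℝ) (hα : 0 < α) : 0 < kap α := by
  unfold kap
  have h1 : 0 < Real.Gamma (α / 2) := Real.Gamma_pos_of_pos (by linarith)
  have h2 : 0 < Real.Gamma ((α + 1) / 2) := Real.Gamma_pos_of_pos (by linarith)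
  have h3 : 0 < √Real.pi := Real.sqrt_pos.2 Real.pi_pos
  positivity

/-- A polynomial has polynomial growth. -/
theorem DecPoly_poly_bd (P : Polynomial ℝ) :
    ∃ K : ℝ, 0 ≤ K ∧ ∃ N : ℕ, ∀ x : ℝ, |P.eval x| ≤ K * (1 + |x|) ^ N := by
  refine ⟨∑ i ∈ Finset.range (P.natDegree + 1), |P.coeff i|,
    Finset.sum_nonneg (fun i _ => abs_nonneg _), P.natDegree, fun x => ?_⟩
  rw [Polynomial.eval_eq_sum_range, Finset.sum_mul]
  refine (Finset.abs_sum_le_sum_abs _ _).trans (Finset.sum_le_sum fun i hi => ?_)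
  rw [abs_mul, abs_pow]
  refine mul_le_mul_of_nonneg_left ?_ (abs_nonneg _)
  have hx : 0 ≤ |x| := abs_nonneg x
  calc |x| ^ i ≤ (1 + |x|) ^ i := pow_le_pow_left₀ hx (by linarith) i
    _ ≤ (1 + |x|) ^ P.natDegree :=
      pow_le_pow_right₀ (by linarith) (Nat.lt_succ_iff.1 (Finset.mem_range.1 hi))

/-- Exponential decay beats polynomial growth. -/
theorem DecPoly_exp_beats (c : ℝ) (hc : 0 < c) (M : ℕ) :
    ∃ C : ℝ, 0 ≤ C ∧ ∀ x : ℝ, (1 + |x|) ^ M * Real.exp (-(c * |x|)) ≤ C := by
  refine ⟨M.factorial / c ^ M * Real.exp c, by positivity, fun x => ?_⟩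
  have hx : 0 ≤ |x| := abs_nonneg x
  have h1 := Real.pow_div_factorial_le_exp (c * (1 + |x|)) (by positivity) M
  have h2 : Real.exp (-(c * |x|)) = Real.exp c / Real.exp (c * (1 + |x|)) := by
    rw [← Real.exp_sub]; congr 1; ring
  have h3 : (0 : ℝ) < M.factorial := by exact_mod_cast Nat.factorial_pos M
  have h4 : 0 < Real.exp (c * (1 + |x|)) := Real.exp_pos _
  rw [h2, mul_div_assoc', div_le_iff₀ h4]
  have h5 : (1 + |x|) ^ M = (c * (1 + |x|)) ^ M / M.factorial * (M.factorial / c ^ M) := by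
    rw [mul_pow]
    field_simp
  calc (1 + |x|) ^ M * Real.exp c
      = (c * (1 + |x|)) ^ M / M.factorial * (M.factorial / c ^ M) * Real.exp c := by rw [← h5]
    _ ≤ Real.exp (c * (1 + |x|)) * (M.factorial / c ^ M) * Real.exp c := by
      gcongr
    _ = M.factorial / c ^ M * Real.exp c * Real.exp (c * (1 + |x|)) := by ring

/-- Exponential bound on the weight. -/
theorem DecPoly_wt_le (α : ℝ) (hα : 1 < α) (n : ℕ) (x : ℝ) :
    wt α n x ≤ Real.exp (n * kap α) * Real.exp (-(n * kap α * |x|)) := by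
  have hk := kap_pos α (by linarith)
  unfold wt
  rw [← Real.exp_add, Real.exp_le_exp]
  have h1 : |x| - 1 ≤ |x| ^ α := by
    rcases le_total 1 |x| with h | h
    · have := Real.rpow_le_rpow_of_exponent_le h hα.le
      rw [Real.rpow_one] at this
      linarith
    · have := Real.rpow_nonneg (abs_nonneg x) α
      linarith
  have h2 : 0 ≤ n * kap α := by positivity
  nlinarith [mul_le_mul_of_nonneg_left h1 h2]

theorem DecPoly_wt_pos (α : ℝ) (n : ℕ) (x : ℝ) : 0 < wt α n x := Real.exp_pos _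

theorem DecPoly_bd_aux (α : ℝ) (hα : 1 < α) (n : ℕ) (hn : 1 ≤ n) (g : ℝ → ℝ) (K : ℝ) (hK : 0 ≤ K)
    (N : ℕ) (hg : ∀ x, |g x| ≤ K * (1 + |x|) ^ N) :
    ∃ C, ∀ x, |g x * wt α n x| ≤ C / (1 + x ^ 2) ^ 2 := by
  have hk := kap_pos α (by linarith)
  have hn' : (0 : ℝ) < n := by exact_mod_cast hn
  obtain ⟨C, hC0, hC⟩ := DecPoly_exp_beats (n * kap α) (by positivity) (N + 4)
  refine ⟨K * Real.exp (n * kap α) * C, fun x => ?_⟩
  have hx : 0 ≤ |x| := abs_nonneg x
  rw [le_div_iff₀ (by positivity), abs_mul, abs_of_pos (DecPoly_wt_pos α n x)]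
  have h1 : (1 + x ^ 2) ^ 2 ≤ (1 + |x|) ^ 4 := by
    have : 1 + x ^ 2 ≤ (1 + |x|) ^ 2 := by rw [← sq_abs x]; nlinarith
    calc (1 + x ^ 2) ^ 2 ≤ ((1 + |x|) ^ 2) ^ 2 := by gcongr
      _ = (1 + |x|) ^ 4 := by ring
  calc |g x| * wt α n x * (1 + x ^ 2) ^ 2
      ≤ (K * (1 + |x|) ^ N) * (Real.exp (n * kap α) * Real.exp (-(n * kap α * |x|))) *
          (1 + |x|) ^ 4 := by
        have := DecPoly_wt_pos α n x
        have h2 := DecPoly_wt_le α hα n x
        have h3 := hg x
        gcongr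
    _ = K * Real.exp (n * kap α) * ((1 + |x|) ^ (N + 4) * Real.exp (-(n * kap α * |x|))) := by
        rw [pow_add]; ring
    _ ≤ K * Real.exp (n * kap α) * C := by
        gcongr
        exact hC x

theorem DecPoly_hasDerivAt_wt (α : ℝ) (hα : 1 < α) (n : ℕ) (x : ℝ) :
    HasDerivAt (wt α n) (wt α n x * (-(n * kap α * (α * |x| ^ (α - 2) * x)))) x := by
  unfold wt
  exact (((hasDerivAt_abs_rpow x hα).const_mul (n * kap α)).neg).exp

theorem DecPoly_contDiff_wt (α : ℝ) (hα : 1 < α) (n : ℕ) : ContDiff ℝ 1 (wt α n) := by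
  unfold wt
  have h := contDiff_norm_rpow (E := ℝ) hα
  simp only [Real.norm_eq_abs] at h
  exact ((contDiff_const.mul h).neg).exp

theorem dec_poly (α : ℝ) (hα : 1 < α) (n : ℕ) (hn : 1 ≤ n) (P : Polynomial ℝ) :
    ∃ f', Dec (fun x => P.eval x * wt α n x) f' := by
  have hcd : ContDiff ℝ 1 (fun x => P.eval x * wt α n x) := by
    refine ContDiff.mul ?_ (DecPoly_contDiff_wt α hα n)
    exact P.contDiff_aeval (𝕜 := ℝ) 1
  have hder : ∀ x, HasDerivAt (fun x => P.eval x * wt α n x)
      ((P.derivative.eval x + P.eval x * (-(n * kap α * (α * |x| ^ (α - 2) * x)))) * wt α n x)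
      x := by
    intro x
    have h := (P.hasDerivAt x).mul (DecPoly_hasDerivAt_wt α hα n x)
    refine h.congr_deriv ?_
    ring
  obtain ⟨K0, hK0, N0, h0⟩ := DecPoly_poly_bd P
  obtain ⟨K1, hK1, N1, h1⟩ := DecPoly_poly_bd P.derivative
  obtain ⟨C0, hC0⟩ := DecPoly_bd_aux α hα n hn (fun x => P.eval x) K0 hK0 N0 h0
  obtain ⟨M, hM⟩ := exists_nat_ge (α - 1)
  have hk := kap_pos α (by linarith)
  have h2 : ∀ x : ℝ, |P.derivative.eval x +
      P.eval x * (-(n * kap α * (α * |x| ^ (α - 2) * x)))| ≤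
      (K1 + K0 * (n * kap α * α)) * (1 + |x|) ^ (N1 + N0 + M) := by
    intro x
    have hx : 0 ≤ |x| := abs_nonneg x
    have hx1 : 1 ≤ 1 + |x| := by linarith
    have h3 : |(|x| ^ (α - 2)) * x| ≤ (1 + |x|) ^ M := by
      rw [abs_mul, abs_of_nonneg (Real.rpow_nonneg hx _)]
      rcases eq_or_lt_of_le hx with hx0 | hx0
      · rw [← hx0]
        simp
      · have : (|x| ^ (α - 2)) * |x| = |x| ^ (α - 1) := by
          have h := Real.rpow_add hx0 (α - 2) 1
          rw [Real.rpow_one] at h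
          rw [← h]
          congr 1
          ring
        rw [this]
        calc |x| ^ (α - 1) ≤ (1 + |x|) ^ (α - 1) :=
              Real.rpow_le_rpow hx (by linarith) (by linarith)
          _ ≤ (1 + |x|) ^ (M : ℝ) := Real.rpow_le_rpow_of_exponent_le hx1 hM
          _ = (1 + |x|) ^ M := Real.rpow_natCast _ _
    have h4 : |(n * kap α * (α * |x| ^ (α - 2) * x))| ≤ n * kap α * α * (1 + |x|) ^ M := by
      have : (n * kap α * (α * |x| ^ (α - 2) * x)) = n * kap α * α * ((|x| ^ (α - 2)) * x) := by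
        ring
      rw [this, abs_mul, abs_of_nonneg (by positivity : 0 ≤ n * kap α * α)]
      gcongr
    calc |P.derivative.eval x + P.eval x * (-(n * kap α * (α * |x| ^ (α - 2) * x)))|
        ≤ |P.derivative.eval x| + |P.eval x * (-(n * kap α * (α * |x| ^ (α - 2) * x)))| :=
          abs_add_le _ _
      _ = |P.derivative.eval x| + |P.eval x| * |(n * kap α * (α * |x| ^ (α - 2) * x))| := by
          rw [abs_mul, abs_neg]
      _ ≤ K1 * (1 + |x|) ^ N1 + K0 * (1 + |x|) ^ N0 * (n * kap α * α * (1 + |x|) ^ M) := by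
          have := h0 x
          have := h1 x
          gcongr
      _ = K1 * (1 + |x|) ^ N1 + K0 * (n * kap α * α) * (1 + |x|) ^ (N0 + M) := by
          rw [pow_add]; ring
      _ ≤ K1 * (1 + |x|) ^ (N1 + N0 + M) +
          K0 * (n * kap α * α) * (1 + |x|) ^ (N1 + N0 + M) := by
          have e1 : (1 + |x|) ^ N1 ≤ (1 + |x|) ^ (N1 + N0 + M) :=
            pow_le_pow_right₀ hx1 (by omega)
          have e2 : (1 + |x|) ^ (N0 + M) ≤ (1 + |x|) ^ (N1 + N0 + M) :=
            pow_le_pow_right₀ hx1 (by omega)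
          have e3 : 0 ≤ K0 * (n * kap α * α) := by
            have : (0 : ℝ) < α := by linarith
            positivity
          gcongr
      _ = _ := by ring
  obtain ⟨C1, hC1⟩ := DecPoly_bd_aux α hα n hn (fun x => P.derivative.eval x +
      P.eval x * (-(n * kap α * (α * |x| ^ (α - 2) * x)))) (K1 + K0 * (n * kap α * α)) (by
        have : (0 : ℝ) < α := by linarith
        positivity) (N1 + N0 + M) h2
  refine ⟨deriv (fun x => P.eval x * wt α n x), ?_, ?_, max C0 C1, ?_⟩
  · intro x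
    exact (hcd.differentiable (by norm_num)).differentiableAt.hasDerivAt
  · exact hcd.continuous_deriv le_rfl
  · intro x
    rw [(hder x).deriv]
    constructor
    · refine (hC0 x).trans ?_
      gcongr
      exact le_max_left _ _
    · refine (hC1 x).trans ?_
      gcongr
      exact le_max_right _ _

theorem Dec.integrable {f f' : ℝ → ℝ} (h : Dec f f') : Integrable f := by
  obtain ⟨C, hC⟩ := h.bound
  have hcont : Continuous f := continuous_iff_continuousAt.2 fun x => (h.deriv x).continuousAt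
  have h1 : Integrable (fun x : ℝ => C * (1 + x ^ 2)⁻¹) := integrable_inv_one_add_sq.const_mul C
  refine h1.mono' hcont.aestronglyMeasurable (Eventually.of_forall fun x => ?_)
  rw [Real.norm_eq_abs]
  have hC0 : 0 ≤ C := by
    have := (hC 0).1
    have h2 := abs_nonneg (f 0)
    norm_num at this
    linarith
  refine (hC x).1.trans ?_
  rw [div_eq_mul_inv]
  refine mul_le_mul_of_nonneg_left ?_ hC0
  apply inv_anti₀ (by positivity)
  nlinarith [sq_nonneg x, sq_nonneg (x ^ 2)]

theorem DecPoly_integrable (α : ℝ) (hα : 1 < α) (n : ℕ) (hn : 1 ≤ n) (P : Polynomial ℝ) (m : ℕ) :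
    Integrable (fun x : ℝ => P.eval x * x ^ m * wt α n x) := by
  obtain ⟨f', hf⟩ := dec_poly α hα n hn (P * Polynomial.X ^ m)
  have := hf.integrable
  simpa [Polynomial.eval_mul, Polynomial.eval_pow] using this

/-- One step: multiplication by `z`. -/
theorem DecPoly_step (F : ℝ → ℝ) (hF : Integrable F) (hF1 : Integrable (fun x => x * F x))
    (z : ℂ) (hz : z ∈ UH) :
    z * Hst F z = Hst (fun x => x * F x) z + (((1 / (2 * Real.pi)) * ∫ x, F x : ℝ) : ℂ) := by
  have hzim : 0 < z.im := hz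
  have hne : ∀ x : ℝ, z - x ≠ 0 := by
    intro x h
    have := congrArg Complex.im h
    simp at this
    linarith
  have hle : ∀ x : ℝ, z.im ≤ ‖z - x‖ := by
    intro x
    have := Complex.abs_im_le_norm (z - x)
    simp only [Complex.sub_im, Complex.ofReal_im, sub_zero] at this
    exact (le_abs_self _).trans this
  have hcont : Continuous (fun x : ℝ => (z - x)⁻¹) := by
    apply Continuous.inv₀ (by fun_prop)
    exact hne
  have hint : ∀ G : ℝ → ℝ, Integrable G → Integrable (fun x : ℝ => (G x : ℂ) / (z - x)) := by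
    intro G hG
    have h1 : Integrable (fun x : ℝ => |G x| / z.im) := hG.abs.div_const _
    refine h1.mono' ?_ (Eventually.of_forall fun x => ?_)
    · simp only [div_eq_mul_inv]
      exact hG.ofReal.aestronglyMeasurable.mul hcont.aestronglyMeasurable
    · rw [norm_div, Complex.norm_real, Real.norm_eq_abs]
      exact div_le_div_of_nonneg_left (abs_nonneg _) hzim (hle x)
  unfold Hst
  have h1 : z * ∫ x : ℝ, (F x : ℂ) / (z - x) =
      (∫ x : ℝ, ((x * F x : ℝ) : ℂ) / (z - x)) + ∫ x : ℝ, (F x : ℂ) := by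
    have hi := integral_add (hint _ hF1) (hF.ofReal (𝕜 := ℂ))
    rw [← integral_const_mul]
    refine Eq.trans ?_ hi
    congr 1
    ext x
    have := hne x
    simp only [Complex.coe_algebraMap]
    push_cast
    field_simp
    ring
  have h2 : (((1 / (2 * Real.pi)) * ∫ x, F x : ℝ) : ℂ) =
      (1 / (2 * (Real.pi : ℂ))) * ∫ x : ℝ, (F x : ℂ) := by
    rw [Complex.ofReal_mul, ← integral_complex_ofReal]
    push_cast
    ring
  rw [h2]
  calc z * (1 / (2 * (Real.pi : ℂ)) * ∫ x : ℝ, (F x : ℂ) / (z - x))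
      = 1 / (2 * (Real.pi : ℂ)) * (z * ∫ x : ℝ, (F x : ℂ) / (z - x)) := by ring
    _ = _ := by rw [h1]; ring

/-- Orthogonality improves the decay of the Stieltjes transform. -/
theorem Hst_orth (α : ℝ) (hα : 1 < α) (n : ℕ) (hn : 1 ≤ n) (P : Polynomial ℝ) (m : ℕ)
    (h : ∀ j : ℕ, j < m → ∫ x : ℝ, P.eval x * x ^ j * wt α n x = 0) :
    ∀ z ∈ UH, z ^ m * Hst (fun x => P.eval x * wt α n x) z =
      Hst (fun x => P.eval x * x ^ m * wt α n x) z := by
  intro z hz
  induction m with
  | zero => simp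
  | succ m ih =>
    have h1 := ih (fun j hj => h j (by omega))
    have h2 := DecPoly_step (fun x => P.eval x * x ^ m * wt α n x)
      (DecPoly_integrable α hα n hn P m) (by
        have := DecPoly_integrable α hα n hn P (m + 1)
        refine this.congr (Eventually.of_forall fun x => ?_)
        simp only [pow_succ]
        ring) z hz
    rw [h m (by omega)] at h2
    rw [pow_succ, mul_comm (z ^ m) z, mul_assoc, h1, h2]
    simp only [mul_zero, Complex.ofReal_zero, add_zero]
    congr 1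
    ext x
    rw [pow_succ]
    ring

theorem two_bco (α : ℝ) (hα : 1 < α) :
    2 * bco α = (α - 1) * Real.sin (Real.pi * α / 2) * (1 - 1 / α) ^ α *
      Real.Gamma (α / 2) ^ 2 / (2 * Real.pi) := by
  have hα0 : 0 < α := by linarith
  have hleg := Real.Gamma_mul_Gamma_add_half (α / 2)
  have e1 : α / 2 + 1 / 2 = (α + 1) / 2 := by ring
  have e2 : 2 * (α / 2) = α := by ring
  rw [e1, e2] at hleg
  have hG1 : Real.Gamma (α + 1) = α * Real.Gamma α := Real.Gamma_add_one hα0.ne'
  have hg2 : 0 < Real.Gamma ((α + 1) / 2) := Real.Gamma_pos_of_pos (by linarith)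
  have hpi : 0 < √Real.pi := Real.sqrt_pos.2 Real.pi_pos
  have h2p : (0 : ℝ) < 2 ^ (1 - α) := Real.rpow_pos_of_pos (by norm_num) _
  have key : kap α * Real.Gamma (α + 1) = α * Real.Gamma (α / 2) ^ 2 / 2 ^ (1 - α) := by
    unfold kap
    rw [hG1]
    have : Real.Gamma α = Real.Gamma (α / 2) * Real.Gamma ((α + 1) / 2) / (2 ^ (1 - α) * √Real.pi) := by
      rw [hleg]; field_simp
    rw [this]
    field_simp
  have hpow : ((α - 1) / (2 * α)) ^ (α + 1) = (1 - 1 / α) ^ α * ((α - 1) / α) / (2 ^ α * 2) := by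
    have h1 : (α - 1) / (2 * α) = (1 - 1 / α) / 2 := by field_simp
    have h2 : 0 < 1 - 1 / α := by
      rw [sub_pos, div_lt_one hα0]; exact hα
    rw [h1, Real.div_rpow h2.le (by norm_num), Real.rpow_add h2, Real.rpow_add (by norm_num),
      Real.rpow_one, Real.rpow_one]
    congr 1
    congr 1
    field_simp
  have h3 : (2 : ℝ) ^ (1 - α) = 2 / 2 ^ α := by
    rw [Real.rpow_sub (by norm_num), Real.rpow_one]
  have h4 : (0 : ℝ) < 2 ^ α := Real.rpow_pos_of_pos (by norm_num) _
  unfold bco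
  rw [hpow]
  have h5 : kap α * Real.sin (Real.pi * α / 2) * Real.Gamma (α + 1) =
      kap α * Real.Gamma (α + 1) * Real.sin (Real.pi * α / 2) := by ring
  rw [h5, key, h3]
  field_simp
  
end Pool.Agent.Freud
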