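import Pool.Agent.Freud.Defs2

/-!
Basic facts on the g-function (job FR-D1 of BLUEPRINT.md).

Notation: for `z` in the open upper half plane and real `s` we write
`gbU z s = (s² - z²)^(1/2)` and `gbQ z s = z + i * gbU z s`.
-/

set_option autoImplicit false

open MeasureTheory Filter Topology Asymptotics

namespace Pool.Agent.Freud

/-- The square root `(s² - z²)^(1/2)`. -/
noncomputable def gbU (z : ℂ) (s : ℝ) : ℂ := ((s : ℂ) ^ 2 - z ^ 2) ^ (1 / 2 : ℂ)

/-- The quantity `z + i (s² - z²)^(1/2)`. -/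
noncomputable def gbQ (z : ℂ) (s : ℝ) : ℂ := z + Complex.I * gbU z s

theorem gb_slit {z : ℂ} (hz : z ∈ UH) (s : ℝ) : (s : ℂ) ^ 2 - z ^ 2 ∈ Complex.slitPlane := by
  have hy : 0 < z.im := hz
  rw [Complex.mem_slitPlane_iff]
  have h1 : ((s : ℂ) ^ 2 - z ^ 2).re = s ^ 2 - z.re ^ 2 + z.im ^ 2 := by
    simp [pow_two]; ring
  have h2 : ((s : ℂ) ^ 2 - z ^ 2).im = -(2 * z.re * z.im) := by
    simp [pow_two]; ring
  rw [h1, h2]
  by_cases hx : z.re = 0
  · left
    rw [hx]
    have := pow_pos hy 2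
    nlinarith [sq_nonneg s]
  · right
    have : 2 * z.re * z.im ≠ 0 := mul_ne_zero (mul_ne_zero two_ne_zero hx) hy.ne'
    exact neg_ne_zero.2 this

theorem gbU_ne {z : ℂ} (hz : z ∈ UH) (s : ℝ) : (s : ℂ) ^ 2 - z ^ 2 ≠ 0 :=
  Complex.slitPlane_ne_zero (gb_slit hz s)

theorem gbU_sq (z : ℂ) (s : ℝ) : gbU z s ^ 2 = (s : ℂ) ^ 2 - z ^ 2 := by
  unfold gbU
  have := Complex.cpow_nat_inv_pow ((s : ℂ) ^ 2 - z ^ 2) (n := 2) two_ne_zero
  rw [← this]
  simp

theorem gbU_re_pos {z : ℂ} (hz : z ∈ UH) (s : ℝ) : 0 < (gbU z s).re := by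
  unfold gbU
  have hne := gbU_ne hz s
  have hsl := gb_slit hz s
  set w := (s : ℂ) ^ 2 - z ^ 2 with hw
  rw [Complex.cpow_def_of_ne_zero hne, Complex.exp_re]
  have him : (Complex.log w * (1 / 2 : ℂ)).im = w.arg / 2 := by
    simp [Complex.mul_im, Complex.log_im, div_eq_mul_inv]
  rw [him]
  apply mul_pos (Real.exp_pos _)
  apply Real.cos_pos_of_mem_Ioo
  have h1 := Complex.neg_pi_lt_arg w
  have h2 : w.arg < Real.pi := lt_of_le_of_ne (Complex.arg_le_pi w)
    (Complex.mem_slitPlane_iff_arg.1 hsl).1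
  constructor <;> linarith

theorem gbU_ne_zero {z : ℂ} (hz : z ∈ UH) (s : ℝ) : gbU z s ≠ 0 := by
  intro h
  have := gbU_re_pos hz s
  rw [h] at this
  simp at this

/-- `Re u * Im u = - Re z * Im z`. -/
theorem gbU_re_mul_im (z : ℂ) (s : ℝ) :
    (gbU z s).re * (gbU z s).im = -(z.re * z.im) := by
  have h := congrArg Complex.im (gbU_sq z s)
  simp [pow_two] at h
  linarith

theorem gbU_re_sq_sub (z : ℂ) (s : ℝ) :
    (gbU z s).re ^ 2 - (gbU z s).im ^ 2 = s ^ 2 - z.re ^ 2 + z.im ^ 2 := by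
  have h := congrArg Complex.re (gbU_sq z s)
  simp [pow_two] at h
  linarith

/-- The key identity `(a² - y²)(a² + x²) = s² a²`, `a = Re u`. -/
theorem gbU_key (z : ℂ) (s : ℝ) :
    ((gbU z s).re ^ 2 - z.im ^ 2) * ((gbU z s).re ^ 2 + z.re ^ 2) = s ^ 2 * (gbU z s).re ^ 2 := by
  have h1 := gbU_re_mul_im z s
  have h2 := gbU_re_sq_sub z s
  set a := (gbU z s).re
  set b := (gbU z s).im
  have h3 : a ^ 2 * b ^ 2 = z.re ^ 2 * z.im ^ 2 := by
    have : (a * b) ^ 2 = (z.re * z.im) ^ 2 := by rw [h1]; ring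
    nlinarith
  have h4 : b ^ 2 = a ^ 2 - (s ^ 2 - z.re ^ 2 + z.im ^ 2) := by linarith
  rw [h4] at h3
  nlinarith

theorem gbU_re_ge {z : ℂ} (hz : z ∈ UH) (s : ℝ) : z.im ≤ (gbU z s).re := by
  have hy : 0 < z.im := hz
  have ha := gbU_re_pos hz s
  have hk := gbU_key z s
  set a := (gbU z s).re
  by_contra hlt
  push Not at hlt
  have h1 : a ^ 2 - z.im ^ 2 < 0 := by nlinarith
  have h2 : 0 < a ^ 2 + z.re ^ 2 := by positivity
  have h3 : (a ^ 2 - z.im ^ 2) * (a ^ 2 + z.re ^ 2) < 0 := mul_neg_of_neg_of_pos h1 h2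
  have h4 : 0 ≤ s ^ 2 * a ^ 2 := by positivity
  linarith

theorem gbU_norm_ge {z : ℂ} (hz : z ∈ UH) (s : ℝ) : z.im ≤ ‖gbU z s‖ :=
  (gbU_re_ge hz s).trans (Complex.re_le_norm _)

theorem gbQ_mem {z : ℂ} (hz : z ∈ UH) (s : ℝ) : gbQ z s ∈ UH := by
  have hy : 0 < z.im := hz
  have ha := gbU_re_pos hz s
  show 0 < (gbQ z s).im
  unfold gbQ
  simp
  linarith

theorem gbQ_im_ge {z : ℂ} (hz : z ∈ UH) (s : ℝ) : 2 * z.im ≤ (gbQ z s).im := by
  have ha := gbU_re_ge hz s
  unfold gbQ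
  simp
  linarith

theorem gbQ_ne {z : ℂ} (hz : z ∈ UH) (s : ℝ) : gbQ z s ≠ 0 := by
  intro h
  have h1 : 0 < (gbQ z s).im := gbQ_mem hz s
  rw [h] at h1
  simp at h1

theorem gbQ_mul (z : ℂ) (s : ℝ) : gbQ z s * (z - Complex.I * gbU z s) = (s : ℂ) ^ 2 := by
  have h := gbU_sq z s
  unfold gbQ
  have hI := Complex.I_sq
  calc (z + Complex.I * gbU z s) * (z - Complex.I * gbU z s)
      = z ^ 2 - Complex.I ^ 2 * gbU z s ^ 2 := by ring
    _ = (s : ℂ) ^ 2 := by rw [hI, h]; ring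

/-- `Re (i u conj z) > 0`. -/
theorem gb_pos {z : ℂ} (hz : z ∈ UH) (s : ℝ) :
    0 < (gbU z s).re * z.im - (gbU z s).im * z.re := by
  have hy : 0 < z.im := hz
  have ha := gbU_re_pos hz s
  have h1 := gbU_re_mul_im z s
  set a := (gbU z s).re
  set b := (gbU z s).im
  have h2 : a * (a * z.im - b * z.re) = a ^ 2 * z.im + z.re ^ 2 * z.im := by
    have : a * (a * z.im - b * z.re) = a ^ 2 * z.im - (a * b) * z.re := by ring
    rw [this, h1]; ring
  have h3 : 0 < a * (a * z.im - b * z.re) := by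
    rw [h2]; positivity
  exact (mul_pos_iff_of_pos_left ha).1 h3

theorem gbQ_norm_ge {z : ℂ} (hz : z ∈ UH) (s : ℝ) : |s| ≤ ‖gbQ z s‖ := by
  have h1 := gb_pos hz s
  have h2 : ‖z - Complex.I * gbU z s‖ ^ 2 ≤ ‖gbQ z s‖ ^ 2 := by
    unfold gbQ
    rw [← Complex.normSq_eq_norm_sq, ← Complex.normSq_eq_norm_sq, Complex.normSq_apply,
      Complex.normSq_apply]
    simp
    nlinarith
  have h3 : ‖z - Complex.I * gbU z s‖ ≤ ‖gbQ z s‖ :=
    (sq_le_sq₀ (norm_nonneg _) (norm_nonneg _)).1 h2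
  have h4 : ‖gbQ z s‖ * ‖z - Complex.I * gbU z s‖ = |s| ^ 2 := by
    rw [← norm_mul, gbQ_mul, norm_pow, Complex.norm_real, Real.norm_eq_abs]
  have h5 : |s| ^ 2 ≤ ‖gbQ z s‖ ^ 2 := by
    rw [← h4, pow_two]
    exact mul_le_mul_of_nonneg_left h3 (norm_nonneg _)
  exact (sq_le_sq₀ (abs_nonneg _) (norm_nonneg _)).1 h5

theorem gbU_norm_sq_le (z : ℂ) (s : ℝ) : ‖gbU z s‖ ^ 2 ≤ s ^ 2 + ‖z‖ ^ 2 := by
  rw [← norm_pow, gbU_sq]
  calc ‖(s : ℂ) ^ 2 - z ^ 2‖ ≤ ‖(s : ℂ) ^ 2‖ + ‖z ^ 2‖ := norm_sub_le _ _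
    _ = s ^ 2 + ‖z‖ ^ 2 := by
        rw [norm_pow, norm_pow, Complex.norm_real, Real.norm_eq_abs, sq_abs]

theorem gbQ_norm_le (z : ℂ) (s : ℝ) : ‖gbQ z s‖ ≤ |s| + 2 * ‖z‖ := by
  have h1 : ‖gbU z s‖ ≤ |s| + ‖z‖ := by
    apply (sq_le_sq₀ (norm_nonneg _) (by positivity)).1
    refine (gbU_norm_sq_le z s).trans ?_
    have : 0 ≤ |s| * ‖z‖ := by positivity
    nlinarith [sq_abs s]
  unfold gbQ
  calc ‖z + Complex.I * gbU z s‖ ≤ ‖z‖ + ‖Complex.I * gbU z s‖ := norm_add_le _ _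
    _ = ‖z‖ + ‖gbU z s‖ := by rw [norm_mul, Complex.norm_I, one_mul]
    _ ≤ _ := by linarith

theorem gbQ_half_slit {z : ℂ} (hz : z ∈ UH) (s : ℝ) : gbQ z s / 2 ∈ Complex.slitPlane := by
  rw [Complex.mem_slitPlane_iff]
  right
  have h : 0 < (gbQ z s).im := gbQ_mem hz s
  have h2 : (gbQ z s / 2).im = (gbQ z s).im / 2 := by
    have := Complex.div_ofReal_im (gbQ z s) 2
    rw [← this]
    simp
  rw [h2]
  linarith

theorem gb_contU {z : ℂ} (hz : z ∈ UH) : Continuous fun s : ℝ => gbU z s := by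
  unfold gbU
  refine Continuous.cpow ?_ continuous_const fun s => ?_
  · fun_prop
  · exact gb_slit hz s

theorem gb_contQ {z : ℂ} (hz : z ∈ UH) : Continuous fun s : ℝ => gbQ z s := by
  unfold gbQ
  exact continuous_const.add (continuous_const.mul (gb_contU hz))

theorem gb_contLog {z : ℂ} (hz : z ∈ UH) : Continuous fun s : ℝ => Complex.log (gbQ z s / 2) :=
  Continuous.clog ((gb_contQ hz).div_const 2) fun s => gbQ_half_slit hz s

theorem gb_hasDerivAtU {z : ℂ} (hz : z ∈ UH) (s : ℝ) :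
    HasDerivAt (fun w => gbU w s) (-z / gbU z s) z := by
  have h0 : HasDerivAt (fun w : ℂ => (s : ℂ) ^ 2 - w ^ 2) (-(2 * z)) z := by
    have := ((hasDerivAt_id z).pow 2).const_sub ((s : ℂ) ^ 2)
    simpa using this
  have h1 := h0.cpow_const (c := (1 / 2 : ℂ)) (gb_slit hz s)
  have h2 : (1 / 2 : ℂ) * ((s : ℂ) ^ 2 - z ^ 2) ^ ((1 / 2 : ℂ) - 1) * -(2 * z) = -z / gbU z s := by
    have hne := gbU_ne_zero hz s
    have hne2 := gbU_ne hz s
    have h3 : ((s : ℂ) ^ 2 - z ^ 2) ^ ((1 / 2 : ℂ) - 1) = (gbU z s)⁻¹ := by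
      rw [show ((1 / 2 : ℂ) - 1) = -(1 / 2) by ring, Complex.cpow_neg]
      rfl
    rw [h3]
    field_simp
  rw [h2] at h1
  exact h1

theorem gb_hasDerivAtLog {z : ℂ} (hz : z ∈ UH) (s : ℝ) :
    HasDerivAt (fun w => Complex.log (gbQ w s / 2)) (-Complex.I / gbU z s) z := by
  have h1 := gb_hasDerivAtU hz s
  have h2 : HasDerivAt (fun w => gbQ w s / 2) ((1 + Complex.I * (-z / gbU z s)) / 2) z := by
    unfold gbQ
    exact ((hasDerivAt_id z).add (h1.const_mul Complex.I)).div_const 2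
  have h3 := h2.clog (gbQ_half_slit hz s)
  have hne := gbU_ne_zero hz s
  have hq := gbQ_ne hz s
  have h4 : (1 + Complex.I * (-z / gbU z s)) / 2 / (gbQ z s / 2) = -Complex.I / gbU z s := by
    have e1 : 1 + Complex.I * (-z / gbU z s) = -Complex.I * gbQ z s / gbU z s := by
      unfold gbQ
      field_simp
      ring_nf
      rw [Complex.I_sq]
      ring
    rw [e1]
    field_simp
  rw [h4] at h3
  exact h3

/-- The weight `α s^(α-1)`. -/
noncomputable def gbW (α : ℝ) (s : ℝ) : ℝ := α * s ^ (α - 1)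

theorem gbW_cont {α : ℝ} (hα : 1 < α) : Continuous (gbW α) := by
  unfold gbW
  exact continuous_const.mul (Real.continuous_rpow_const (by linarith))

theorem gbW_nonneg {α : ℝ} (hα : 1 < α) {s : ℝ} (hs : 0 ≤ s) : 0 ≤ gbW α s := by
  unfold gbW
  have := Real.rpow_nonneg hs (α - 1)
  nlinarith

theorem gbW_integral {α : ℝ} (hα : 1 < α) : ∫ s in (0 : ℝ)..1, gbW α s = 1 := by
  unfold gbW
  rw [intervalIntegral.integral_const_mul, integral_rpow (Or.inl (by linarith))]
  rw [Real.one_rpow, Real.zero_rpow (by linarith)]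
  have : α - 1 + 1 = α := by ring
  rw [this]
  have h : α ≠ 0 := by linarith
  field_simp
  ring

theorem gbW_integral_c {α : ℝ} (hα : 1 < α) : ∫ s in (0 : ℝ)..1, ((gbW α s : ℝ) : ℂ) = 1 := by
  rw [intervalIntegral.integral_ofReal, gbW_integral hα]
  simp

theorem gfun_eq (α : ℝ) (z : ℂ) :
    gfun α z = ∫ s in (0 : ℝ)..1, ((gbW α s : ℝ) : ℂ) * Complex.log (gbQ z s / 2) := rfl

theorem dgfun_eq (α : ℝ) (z : ℂ) :
    dgfun α z = ∫ s in (0 : ℝ)..1, ((gbW α s : ℝ) : ℂ) * (-Complex.I / gbU z s) := by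
  unfold dgfun
  rw [← intervalIntegral.integral_const_mul]
  congr 1
  funext s
  have : ((s : ℂ) ^ 2 - z ^ 2) ^ (-(1 / 2) : ℂ) = (gbU z s)⁻¹ := by
    rw [Complex.cpow_neg]
    rfl
  rw [this]
  unfold gbW
  ring

theorem gfun_integrand_cont {α : ℝ} (hα : 1 < α) {z : ℂ} (hz : z ∈ UH) :
    Continuous fun s : ℝ => ((gbW α s : ℝ) : ℂ) * Complex.log (gbQ z s / 2) :=
  (Complex.continuous_ofReal.comp (gbW_cont hα)).mul (gb_contLog hz)

theorem dgfun_integrand_cont {α : ℝ} (hα : 1 < α) {z : ℂ} (hz : z ∈ UH) :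
    Continuous fun s : ℝ => ((gbW α s : ℝ) : ℂ) * (-Complex.I / gbU z s) :=
  (Complex.continuous_ofReal.comp (gbW_cont hα)).mul
    (continuous_const.div (gb_contU hz) fun s => gbU_ne_zero hz s)

theorem gfun_hasDerivAt (α : ℝ) (hα : 1 < α) (z : ℂ) (hz : z ∈ UH) :
    HasDerivAt (gfun α) (dgfun α z) z := by
  have hy : 0 < z.im := hz
  have hU : {w : ℂ | z.im / 2 < w.im} ∈ 𝓝 z := by
    apply (isOpen_lt continuous_const Complex.continuous_im).mem_nhds
    show z.im / 2 < z.im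
    linarith
  have hUH : ∀ w ∈ {w : ℂ | z.im / 2 < w.im}, w ∈ UH := by
    intro w hw
    have : z.im / 2 < w.im := hw
    show 0 < w.im
    linarith
  rw [dgfun_eq]
  have key := intervalIntegral.hasDerivAt_integral_of_dominated_loc_of_deriv_le
    (𝕜 := ℂ) (μ := volume) (a := 0) (b := 1)
    (F := fun w s => ((gbW α s : ℝ) : ℂ) * Complex.log (gbQ w s / 2))
    (F' := fun w s => ((gbW α s : ℝ) : ℂ) * (-Complex.I / gbU w s))
    (x₀ := z) (s := {w : ℂ | z.im / 2 < w.im})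
    (bound := fun s => |gbW α s| * (2 / z.im)) hU ?_ ?_ ?_ ?_ ?_ ?_
  · exact key.2
  · filter_upwards [hU] with w hw
    exact (gfun_integrand_cont hα (hUH w hw)).aestronglyMeasurable
  · exact (gfun_integrand_cont hα hz).intervalIntegrable _ _
  · exact (dgfun_integrand_cont hα hz).aestronglyMeasurable
  · refine Eventually.of_forall fun s _ w hw => ?_
    rw [norm_mul, Complex.norm_real, Real.norm_eq_abs, norm_div, norm_neg, Complex.norm_I]
    apply mul_le_mul_of_nonneg_left _ (abs_nonneg _)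
    have h1 : z.im / 2 < w.im := hw
    have h2 := gbU_norm_ge (hUH w hw) s
    have h3 : z.im / 2 ≤ ‖gbU w s‖ := by linarith
    calc 1 / ‖gbU w s‖ ≤ 1 / (z.im / 2) := one_div_le_one_div_of_le (by linarith) h3
      _ = 2 / z.im := by rw [one_div_div]
  · exact ((gbW_cont hα).abs.mul continuous_const).intervalIntegrable _ _
  · refine Eventually.of_forall fun s _ w hw => ?_
    exact (gb_hasDerivAtLog (hUH w hw) s).const_mul _

/-! ### Symmetry -/

theorem gbU_symm {z : ℂ} (hz : z ∈ UH) (s : ℝ) :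
    gbU (-(starRingEnd ℂ z)) s = starRingEnd ℂ (gbU z s) := by
  unfold gbU
  have h1 : (s : ℂ) ^ 2 - (-(starRingEnd ℂ z)) ^ 2 = starRingEnd ℂ ((s : ℂ) ^ 2 - z ^ 2) := by
    simp
  rw [h1]
  have h2 : ((s : ℂ) ^ 2 - z ^ 2).arg ≠ Real.pi :=
    (Complex.mem_slitPlane_iff_arg.1 (gb_slit hz s)).1
  rw [Complex.conj_cpow _ _ h2]
  congr 2
  rw [map_div₀, map_one, map_ofNat]

theorem gbQ_symm {z : ℂ} (hz : z ∈ UH) (s : ℝ) :
    gbQ (-(starRingEnd ℂ z)) s = -(starRingEnd ℂ (gbQ z s)) := by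
  unfold gbQ
  rw [gbU_symm hz]
  simp
  ring

/-- Reflection of the logarithm on the upper half plane. -/
theorem log_refl {q : ℂ} (hq : q ∈ UH) :
    Complex.log (-(starRingEnd ℂ q)) = starRingEnd ℂ (Complex.log q) + Real.pi * Complex.I := by
  have hq' : 0 < q.im := hq
  have harg : (-(starRingEnd ℂ q)).arg = Real.pi - q.arg := by
    have h1 : 0 < (-(starRingEnd ℂ q)).im := by simpa using hq'
    rw [Complex.arg_of_im_pos h1, Complex.arg_of_im_pos hq']
    have h2 : (-(starRingEnd ℂ q)).re = -q.re := by simp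
    have h3 : ‖-(starRingEnd ℂ q)‖ = ‖q‖ := by simp
    rw [h2, h3, neg_div, Real.arccos_neg]
  apply Complex.ext
  · simp [Complex.log_re]
  · rw [Complex.log_im, harg]
    simp [Complex.log_im]
    ring

theorem gfun_symm (α : ℝ) (hα : 1 < α) (z : ℂ) (hz : z ∈ UH) :
    gfun α (-(starRingEnd ℂ z)) = starRingEnd ℂ (gfun α z) + Real.pi * Complex.I := by
  rw [gfun_eq, gfun_eq]
  have h1 : ∀ s : ℝ, ((gbW α s : ℝ) : ℂ) * Complex.log (gbQ (-(starRingEnd ℂ z)) s / 2) =
      starRingEnd ℂ (((gbW α s : ℝ) : ℂ) * Complex.log (gbQ z s / 2)) +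
        ((gbW α s : ℝ) : ℂ) * (Real.pi * Complex.I) := by
    intro s
    have h2 : gbQ (-(starRingEnd ℂ z)) s / 2 = -(starRingEnd ℂ (gbQ z s / 2)) := by
      rw [gbQ_symm hz, map_div₀, map_ofNat]
      ring
    have h3 : gbQ z s / 2 ∈ UH := by
      have h : 0 < (gbQ z s).im := gbQ_mem hz s
      show 0 < (gbQ z s / 2).im
      have h2 : (gbQ z s / 2).im = (gbQ z s).im / 2 := by
        have := Complex.div_ofReal_im (gbQ z s) 2
        rw [← this]
        simp
      rw [h2]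
      linarith
    rw [h2, log_refl h3]
    simp
    ring
  simp_rw [h1]
  rw [intervalIntegral.integral_add, intervalIntegral.integral_mul_const, gbW_integral_c hα,
    one_mul]
  · congr 1
    rw [intervalIntegral.integral_of_le zero_le_one, intervalIntegral.integral_of_le zero_le_one]
    exact integral_conj
  · exact (Complex.continuous_conj.comp (gfun_integrand_cont hα hz)).intervalIntegrable _ _
  · exact ((Complex.continuous_ofReal.comp (gbW_cont hα)).mul continuous_const).intervalIntegrable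
      _ _

/-! ### The integral of `α s^(α-1) log s` -/

theorem gbW_log_integrable {α : ℝ} (hα : 1 < α) :
    IntervalIntegrable (fun s => gbW α s * Real.log s) volume 0 1 := by
  have h := (intervalIntegral.intervalIntegrable_log' (a := 0) (b := 1)).continuousOn_mul
    (gbW_cont hα).continuousOn
  exact h

theorem gbW_log_integral {α : ℝ} (hα : 1 < α) :
    ∫ s in (0 : ℝ)..1, gbW α s * Real.log s = -(1 / α) := by
  have hα0 : α ≠ 0 := by linarith
  have hα1 : 0 < α := by linarith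
  set F : ℝ → ℝ := fun s => s ^ (α - 1) * (s * Real.log s) - s ^ α / α with hF
  have hcont : Continuous F := by
    refine ((Real.continuous_rpow_const (by linarith)).mul ?_).sub
      ((Real.continuous_rpow_const hα1.le).div_const _)
    exact Real.continuous_mul_log
  have hder : ∀ s ∈ Set.Ioo (0 : ℝ) 1, HasDerivAt F (gbW α s * Real.log s) s := by
    intro s hs
    have hs0 : s ≠ 0 := hs.1.ne'
    have h1 : HasDerivAt (fun s : ℝ => s ^ α * Real.log s - s ^ α / α)
        (α * s ^ (α - 1) * Real.log s + s ^ α * s⁻¹ - α * s ^ (α - 1) / α) s := by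
      exact ((Real.hasDerivAt_rpow_const (Or.inl hs0)).mul (Real.hasDerivAt_log hs0)).sub
        ((Real.hasDerivAt_rpow_const (Or.inl hs0)).div_const _)
    have h2 : α * s ^ (α - 1) * Real.log s + s ^ α * s⁻¹ - α * s ^ (α - 1) / α
        = gbW α s * Real.log s := by
      unfold gbW
      have : s ^ α * s⁻¹ = s ^ (α - 1) := by
        rw [Real.rpow_sub hs.1, Real.rpow_one]
        rfl
      rw [this]
      field_simp
      ring
    rw [h2] at h1
    apply h1.congr_of_eventuallyEq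
    filter_upwards [Ioo_mem_nhds hs.1 hs.2] with t ht
    rw [hF]
    have h3 : t ^ (α - 1) * (t * Real.log t) = t ^ α * Real.log t := by
      have : t ^ α = t ^ (α - 1) * t := by
        rw [← Real.rpow_add_one ht.1.ne']
        congr 1
        ring
      rw [this]
      ring
    simp only [h3]
  have h := intervalIntegral.integral_eq_sub_of_hasDerivAt_of_le zero_le_one hcont.continuousOn
    hder (gbW_log_integrable hα)
  rw [h, hF]
  simp [Real.zero_rpow hα0]

theorem gfun_lower (α : ℝ) (hα : 1 < α) (z : ℂ) (hz : z ∈ UH) :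
    ell α / 2 ≤ (gfun α z).re := by
  have hα0 : α ≠ 0 := by linarith
  have h1 : (gfun α z).re = ∫ s in (0 : ℝ)..1, gbW α s * Real.log ‖gbQ z s / 2‖ := by
    rw [gfun_eq, intervalIntegral.integral_of_le zero_le_one,
      intervalIntegral.integral_of_le zero_le_one]
    have h := integral_re (μ := volume.restrict (Set.Ioc (0 : ℝ) 1)) (𝕜 := ℂ)
      (f := fun s : ℝ => ((gbW α s : ℝ) : ℂ) * Complex.log (gbQ z s / 2))
      (((gfun_integrand_cont hα hz).intervalIntegrable 0 1).1)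
    rw [show (∫ s in Set.Ioc (0 : ℝ) 1, ((gbW α s : ℝ) : ℂ) * Complex.log (gbQ z s / 2)).re =
      RCLike.re (∫ s in Set.Ioc (0 : ℝ) 1, ((gbW α s : ℝ) : ℂ) * Complex.log (gbQ z s / 2)) from rfl,
      ← h]
    congr 1
    funext s
    simp [Complex.log_re]
  have h2 : ell α / 2 = ∫ s in (0 : ℝ)..1, (gbW α s * Real.log s - gbW α s * Real.log 2) := by
    have hi : IntervalIntegrable (fun s => gbW α s * Real.log 2) volume 0 1 :=
      ((gbW_cont hα).mul continuous_const).intervalIntegrable _ _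
    rw [intervalIntegral.integral_sub (gbW_log_integrable hα) hi, gbW_log_integral hα,
      intervalIntegral.integral_mul_const, gbW_integral hα]
    unfold ell
    field_simp
    ring
  rw [h1, h2]
  have hc : Continuous fun s : ℝ => gbW α s * Real.log ‖gbQ z s / 2‖ := by
    refine (gbW_cont hα).mul (Continuous.log ?_ ?_)
    · exact ((gb_contQ hz).div_const 2).norm
    · intro s
      rw [norm_ne_zero_iff]
      exact div_ne_zero (gbQ_ne hz s) two_ne_zero
  apply intervalIntegral.integral_mono_on_of_le_Ioo zero_le_one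
  · exact (gbW_log_integrable hα).sub
      (((gbW_cont hα).mul continuous_const).intervalIntegrable _ _)
  · exact hc.intervalIntegrable _ _
  · intro s hs
    have h3 : Real.log (s / 2) ≤ Real.log ‖gbQ z s / 2‖ := by
      apply Real.log_le_log (by linarith [hs.1])
      rw [norm_div]
      have := gbQ_norm_ge hz s
      rw [abs_of_pos hs.1] at this
      have h4 : ‖(2 : ℂ)‖ = 2 := by simp
      rw [h4]
      linarith
    rw [Real.log_div hs.1.ne' two_ne_zero] at h3
    have h5 := mul_le_mul_of_nonneg_left h3 (gbW_nonneg hα hs.1.le)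
    linarith

/-! ### Bounds -/

theorem gb_log_bound {z : ℂ} (hz : z ∈ UH) {s M : ℝ} (hs : 0 < s) (hs1 : s ≤ 1) (hM : 1 ≤ M)
    (hzM : 1 + 2 * ‖z‖ ≤ M) :
    ‖Complex.log (gbQ z s / 2)‖ ≤ Real.log M + Real.log 2 - Real.log s + Real.pi := by
  have hq : 0 < ‖gbQ z s / 2‖ := norm_pos_iff.2 (div_ne_zero (gbQ_ne hz s) two_ne_zero)
  have h2 : ‖gbQ z s / 2‖ = ‖gbQ z s‖ / 2 := by
    rw [norm_div]
    simp
  have hup : Real.log ‖gbQ z s / 2‖ ≤ Real.log M := by
    apply Real.log_le_log hq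
    rw [h2]
    have := gbQ_norm_le z s
    rw [abs_of_pos hs] at this
    have h0 := norm_nonneg z
    linarith
  have hlow : Real.log s - Real.log 2 ≤ Real.log ‖gbQ z s / 2‖ := by
    rw [← Real.log_div hs.ne' two_ne_zero]
    apply Real.log_le_log (by linarith)
    rw [h2]
    have := gbQ_norm_ge hz s
    rw [abs_of_pos hs] at this
    linarith
  have hM0 : 0 ≤ Real.log M := Real.log_nonneg hM
  have h20 : 0 ≤ Real.log 2 := Real.log_nonneg (by norm_num)
  have hs0 : Real.log s ≤ 0 := Real.log_nonpos hs.le hs1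
  have h3 := Complex.norm_le_abs_re_add_abs_im (Complex.log (gbQ z s / 2))
  rw [Complex.log_re, Complex.log_im] at h3
  have h4 : |Real.log ‖gbQ z s / 2‖| ≤ Real.log M + Real.log 2 - Real.log s := by
    rw [abs_le]
    constructor <;> linarith
  have h5 := Complex.abs_arg_le_pi (gbQ z s / 2)
  linarith

theorem gfun_locbdd (α : ℝ) (hα : 1 < α) (B : ℝ) :
    ∃ C : ℝ, ∀ z ∈ UH, ‖z‖ ≤ B → ‖gfun α z‖ ≤ C := by
  set M : ℝ := 1 + 2 * |B| with hM
  have hM1 : 1 ≤ M := by
    have := abs_nonneg B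
    linarith
  refine ⟨∫ s in (0 : ℝ)..1, (gbW α s * (Real.log M + Real.log 2 + Real.pi) -
    gbW α s * Real.log s), fun z hz hzB => ?_⟩
  have hi1 : IntervalIntegrable (fun s => gbW α s * (Real.log M + Real.log 2 + Real.pi))
      volume 0 1 := ((gbW_cont hα).mul continuous_const).intervalIntegrable _ _
  rw [gfun_eq]
  apply intervalIntegral.norm_integral_le_of_norm_le zero_le_one _
    (hi1.sub (gbW_log_integrable hα))
  refine Eventually.of_forall fun s hs => ?_
  rw [norm_mul, Complex.norm_real, Real.norm_eq_abs, abs_of_nonneg (gbW_nonneg hα hs.1.le)]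
  have hzM : 1 + 2 * ‖z‖ ≤ M := by
    have := le_abs_self B
    linarith
  have h := mul_le_mul_of_nonneg_left (gb_log_bound hz hs.1 hs.2 hM1 hzM)
    (gbW_nonneg hα hs.1.le)
  calc _ ≤ _ := h
    _ = _ := by ring

/-- For `w` near `1`, `log (z w) = log z + log w` when `z` and `z w` lie in the upper half
plane. -/
theorem log_mul_of_UH {z w : ℂ} (hz : z ∈ UH) (hw : 0 < w.re) (hzw : z * w ∈ UH) :
    Complex.log (z * w) = Complex.log z + Complex.log w := by
  have hz' : 0 < z.im := hz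
  have hz0 : z ≠ 0 := by
    rintro rfl
    simp at hz'
  have hw0 : w ≠ 0 := by
    rintro rfl
    simp at hw
  rw [Complex.log_mul_eq_add_log_iff hz0 hw0]
  have h1 : 0 ≤ z.arg := Complex.arg_nonneg_iff.2 hz'.le
  have h2 : z.arg ≤ Real.pi := Complex.arg_le_pi z
  have h3 : |w.arg| < Real.pi / 2 := Complex.abs_arg_lt_pi_div_two_iff.2 (Or.inl hw)
  rw [abs_lt] at h3
  refine ⟨by linarith [Real.pi_pos], ?_⟩
  by_contra hcon
  push Not at hcon
  have hn1 : 0 < ‖z‖ := norm_pos_iff.2 hz0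
  have hn2 : 0 < ‖w‖ := norm_pos_iff.2 hw0
  have h4 : Real.sin (z.arg + w.arg) = (z * w).im / (‖z‖ * ‖w‖) := by
    rw [Real.sin_add, Complex.sin_arg, Complex.sin_arg, Complex.cos_arg hz0, Complex.cos_arg hw0,
      Complex.mul_im]
    field_simp
    ring
  have h5 : 0 < Real.sin (z.arg + w.arg) := by
    rw [h4]
    have : 0 < (z * w).im := hzw
    positivity
  have h6 : Real.sin (z.arg + w.arg) < 0 := by
    have e : Real.sin (z.arg + w.arg) = -Real.sin (z.arg + w.arg - Real.pi) := by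
      rw [Real.sin_sub_pi, neg_neg]
    rw [e]
    have := Real.sin_pos_of_pos_of_lt_pi (x := z.arg + w.arg - Real.pi) (by linarith) (by linarith)
    linarith
  linarith

theorem gb_ratio {z : ℂ} (hz : z ∈ UH) (s : ℝ) :
    0 < (Complex.I * gbU z s / z).re ∧
      (Complex.I * gbU z s / z) ^ 2 = 1 - (s : ℂ) ^ 2 / z ^ 2 := by
  have hz' : 0 < z.im := hz
  have hz0 : z ≠ 0 := by
    rintro rfl
    simp at hz'
  constructor
  · have h1 := gb_pos hz s
    have h2 : (Complex.I * gbU z s / z).re =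
        ((gbU z s).re * z.im - (gbU z s).im * z.re) / Complex.normSq z := by
      rw [Complex.div_re]
      simp
      ring
    rw [h2]
    exact div_pos h1 (Complex.normSq_pos.2 hz0)
  · rw [div_pow, mul_pow, gbU_sq, Complex.I_sq]
    field_simp
    ring

theorem gb_log_diff {z : ℂ} (hz : z ∈ UH) (hz2 : 2 ≤ ‖z‖) {s : ℝ} (hs0 : 0 ≤ s) (hs1 : s ≤ 1) :
    ‖Complex.log (gbQ z s / 2) - Complex.log z‖ ≤ 1 / ‖z‖ ^ 2 := by
  have hz' : 0 < z.im := hz
  have hz0 : z ≠ 0 := by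
    rintro rfl
    simp at hz'
  obtain ⟨hv, hv2⟩ := gb_ratio hz s
  set v := Complex.I * gbU z s / z with hvdef
  have hzn : 0 < ‖z‖ := norm_pos_iff.2 hz0
  have h1 : ‖v - 1‖ ≤ 1 / ‖z‖ ^ 2 := by
    have e1 : (v - 1) * (v + 1) = -((s : ℂ) ^ 2 / z ^ 2) := by
      have : (v - 1) * (v + 1) = v ^ 2 - 1 := by ring
      rw [this, hv2]; ring
    have e2 : ‖v - 1‖ * ‖v + 1‖ = s ^ 2 / ‖z‖ ^ 2 := by
      rw [← norm_mul, e1, norm_neg, norm_div, norm_pow, norm_pow, Complex.norm_real,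
        Real.norm_eq_abs, sq_abs]
    have e3 : 1 ≤ ‖v + 1‖ := by
      have := Complex.re_le_norm (v + 1)
      simp at this
      linarith
    have e4 : ‖v - 1‖ ≤ ‖v - 1‖ * ‖v + 1‖ := le_mul_of_one_le_right (norm_nonneg _) e3
    rw [e2] at e4
    refine e4.trans ?_
    apply div_le_div_of_nonneg_right _ (by positivity)
    nlinarith
  have h2 : 1 / ‖z‖ ^ 2 ≤ 1 / 4 := by
    apply one_div_le_one_div_of_le (by norm_num)
    nlinarith
  set t := (v - 1) / 2 with ht
  have ht2 : ‖t‖ ≤ 1 / ‖z‖ ^ 2 / 2 := by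
    rw [ht, norm_div]
    have : ‖(2 : ℂ)‖ = 2 := by simp
    rw [this]
    linarith
  have e5 : gbQ z s / 2 = z * (1 + t) := by
    rw [ht, hvdef]
    unfold gbQ
    field_simp
    ring
  have hre : 0 < (1 + t).re := by
    have := Complex.abs_re_le_norm t
    rw [abs_le] at this
    simp
    linarith
  have hmem : z * (1 + t) ∈ UH := by
    rw [← e5]
    have h : 0 < (gbQ z s).im := gbQ_mem hz s
    show 0 < (gbQ z s / 2).im
    have h2 : (gbQ z s / 2).im = (gbQ z s).im / 2 := by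
      have := Complex.div_ofReal_im (gbQ z s) 2
      rw [← this]
      simp
    rw [h2]
    linarith
  rw [e5, log_mul_of_UH hz hre hmem, add_sub_cancel_left]
  have h6 := Complex.norm_log_one_add_half_le_self (z := t) (by linarith)
  linarith [norm_nonneg t]

theorem gfun_inf (α : ℝ) (hα : 1 < α) :
    ∃ C : ℝ, ∀ z ∈ UH, 2 ≤ ‖z‖ → ‖gfun α z - Complex.log z‖ ≤ C / ‖z‖ ^ 2 := by
  refine ⟨1, fun z hz hz2 => ?_⟩
  have h1 : Complex.log z = ∫ s in (0 : ℝ)..1, ((gbW α s : ℝ) : ℂ) * Complex.log z := by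
    rw [intervalIntegral.integral_mul_const, gbW_integral_c hα, one_mul]
  have hi : IntervalIntegrable (fun s => ((gbW α s : ℝ) : ℂ) * Complex.log z) volume 0 1 :=
    ((Complex.continuous_ofReal.comp (gbW_cont hα)).mul continuous_const).intervalIntegrable _ _
  rw [h1, gfun_eq, ← intervalIntegral.integral_sub
    ((gfun_integrand_cont hα hz).intervalIntegrable _ _) hi]
  have h2 : ∫ s in (0 : ℝ)..1, gbW α s * (1 / ‖z‖ ^ 2) = 1 / ‖z‖ ^ 2 := by
    rw [intervalIntegral.integral_mul_const, gbW_integral hα, one_mul]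
  rw [← h2]
  apply intervalIntegral.norm_integral_le_of_norm_le zero_le_one _
    (((gbW_cont hα).mul continuous_const).intervalIntegrable _ _)
  refine Eventually.of_forall fun s hs => ?_
  rw [← mul_sub, norm_mul, Complex.norm_real, Real.norm_eq_abs,
    abs_of_nonneg (gbW_nonneg hα hs.1.le)]
  exact mul_le_mul_of_nonneg_left (gb_log_diff hz hz2 hs.1.le hs.2) (gbW_nonneg hα hs.1.le)

end Pool.Agent.Freud
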