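import Pool.Agent.Freud.ReflN
import Pool.Agent.Freud.Dbar
import Pool.Agent.Freud.GBasic
import Pool.Agent.Freud.DecPoly

/-!
The smooth lens factor `Gmat` (part R of BLUEPRINT.md).
-/

set_option autoImplicit false

open MeasureTheory Filter Topology Asymptotics

namespace Pool.Agent.Freud

theorem UH_slit {z : ℂ} (hz : z ∈ UH) : z ∈ Complex.slitPlane := by
  rw [Complex.mem_slitPlane_iff]
  right
  exact (show 0 < z.im from hz).ne'

theorem UH_neg_slit {z : ℂ} (hz : z ∈ UH) : -z ∈ Complex.slitPlane := by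
  rw [Complex.mem_slitPlane_iff]
  right
  have : 0 < z.im := hz
  simp
  exact this.ne'

/-- The dbar derivative of the vertical cut-off. -/
noncomputable def drho (y0 : ℝ) (z : ℂ) : ℂ :=
  Complex.I / 2 * ((deriv rho (z.im / y0) : ℝ) : ℂ) / y0

/-- The cut-off part of the dbar derivative of `Gmat`. -/
noncomputable def dGx (α : ℝ) (n : ℕ) (y0 : ℝ) (z : ℂ) : Mat2 :=
  if |z.re| < 1 then !![0, 0; -Complex.I * drho y0 z * Ecen α n z, 0]
  else if 0 < z.re then
    !![0, Complex.I / 2 * drho y0 z * Complex.exp (2 * n * xiR α z); 0, 0]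
  else !![0, Complex.I / 2 * drho y0 z * Complex.exp (2 * n * xiL α z); 0, 0]

/-- The dbar derivative of `Gmat`. -/
noncomputable def dG (α : ℝ) (n : ℕ) (y0 : ℝ) (z : ℂ) : Mat2 :=
  dGx α n y0 z + !![0, 0; -Complex.I * qfun α n y0 z, 0]

theorem Gmat_det (α : ℝ) (n : ℕ) (y0 : ℝ) (z : ℂ) : (Gmat α n y0 z).det = 1 := by
  unfold Gmat
  split_ifs <;> simp [Matrix.det_fin_two_of]

theorem rho_zero {t : ℝ} (ht : 1 ≤ t) : rho t = 0 := rho_facts.2.2.2.1 t ht

theorem rho_one {t : ℝ} (ht : t ≤ 1 / 2) : rho t = 1 := rho_facts.2.2.1 t ht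

theorem drho_zero {t : ℝ} (ht : 1 ≤ t) : deriv rho t = 0 := rho_facts.2.2.2.2.2.1 t ht

theorem drho_zero' {t : ℝ} (ht : t ≤ 1 / 2) : deriv rho t = 0 := rho_facts.2.2.2.2.1 t ht

theorem Gmat_eq_one {α : ℝ} {n : ℕ} {y0 : ℝ} (hy : 0 < y0) {z : ℂ} (hz : y0 ≤ z.im) :
    Gmat α n y0 z = 1 := by
  have h : rho (z.im / y0) = 0 := rho_zero (by rwa [le_div_iff₀ hy, one_mul])
  unfold Gmat
  rw [h]
  split_ifs <;> simp [Matrix.one_fin_two]

theorem qfun_zero_of_im {α : ℝ} {n : ℕ} {y0 : ℝ} (hy : 0 < y0) {z : ℂ} (hz : y0 ≤ z.im) :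
    qfun α n y0 z = 0 := by
  have h : rho (z.im / y0) = 0 := rho_zero (by rwa [le_div_iff₀ hy, one_mul])
  unfold qfun
  rw [h]
  simp

theorem dtau_zero {t : ℝ} (ht : 1 ≤ |t|) : deriv tau t = 0 := by
  rcases le_abs.mp ht with h | h
  · exact tau_facts.2.2.2.2.2.1 t h
  · exact tau_facts.2.2.2.2.1 t (by linarith)

theorem qfun_zero_of_re {α : ℝ} {n : ℕ} {y0 : ℝ} (hy : 0 < y0) {z : ℂ} (hz : z ∈ UH)
    (h : y0 ≤ |z.re|) : qfun α n y0 z = 0 := by
  have hz' : 0 < z.im := hz
  by_cases h1 : y0 ≤ z.im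
  · exact qfun_zero_of_im hy h1
  · push Not at h1
    have h2 : deriv tau (z.re / z.im) = 0 := by
      apply dtau_zero
      rw [abs_div, abs_of_pos hz', le_div_iff₀ hz']
      linarith
    unfold qfun
    rw [h2]
    simp

theorem drho_eq_zero_of_im {y0 : ℝ} (hy : 0 < y0) {z : ℂ} (hz : y0 ≤ z.im) :
    drho y0 z = 0 := by
  have h : deriv rho (z.im / y0) = 0 := drho_zero (by rwa [le_div_iff₀ hy, one_mul])
  unfold drho
  rw [h]
  simp

theorem drho_eq_zero_of_im' {y0 : ℝ} (hy : 0 < y0) {z : ℂ} (hz : z.im ≤ y0 / 2) :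
    drho y0 z = 0 := by
  have h : deriv rho (z.im / y0) = 0 := drho_zero' (by
    rw [div_le_iff₀ hy]; linarith)
  unfold drho
  rw [h]
  simp

theorem dGx_zero_of_im {α : ℝ} {n : ℕ} {y0 : ℝ} (hy : 0 < y0) {z : ℂ} (hz : y0 ≤ z.im) :
    dGx α n y0 z = 0 := by
  unfold dGx
  rw [drho_eq_zero_of_im hy hz]
  split_ifs <;> ext i j <;> fin_cases i <;> fin_cases j <;> simp

theorem dG_zero_of_im {α : ℝ} {n : ℕ} {y0 : ℝ} (hy : 0 < y0) {z : ℂ} (hz : y0 ≤ z.im) :
    dG α n y0 z = 0 := by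
  unfold dG
  rw [dGx_zero_of_im hy hz, qfun_zero_of_im hy hz]
  ext i j
  fin_cases i <;> fin_cases j <;> simp

theorem cpow_hasDbar {α : ℝ} {z : ℂ} (hz : z ∈ UH) :
    HasDbar (fun w => w ^ (α : ℂ)) 0 z := by
  have h : DifferentiableAt ℂ (fun w : ℂ => w ^ (α : ℂ)) z :=
    differentiableAt_id.cpow_const (UH_slit hz)
  exact HasDbar.of_hasDerivAt h.hasDerivAt

theorem cpow_neg_diff {α : ℝ} {z : ℂ} (hz : z ∈ UH) :
    DifferentiableAt ℂ (fun w : ℂ => (-w) ^ (α : ℂ)) z :=
  differentiableAt_id.neg.cpow_const (UH_neg_slit hz)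

theorem cpow_diff {α : ℝ} {z : ℂ} (hz : z ∈ UH) :
    DifferentiableAt ℂ (fun w : ℂ => w ^ (α : ℂ)) z :=
  differentiableAt_id.cpow_const (UH_slit hz)

theorem xiR_diff {α : ℝ} (hα : 1 < α) {z : ℂ} (hz : z ∈ UH) :
    DifferentiableAt ℂ (xiR α) z := by
  unfold xiR
  exact (((gfun_hasDerivAt α hα z hz).differentiableAt).sub
    (((cpow_diff hz).const_mul _).div_const 2)).sub_const _

theorem xiL_diff {α : ℝ} (hα : 1 < α) {z : ℂ} (hz : z ∈ UH) :
    DifferentiableAt ℂ (xiL α) z := by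
  unfold xiL
  exact (((gfun_hasDerivAt α hα z hz).differentiableAt).sub
    (((cpow_neg_diff hz).const_mul _).div_const 2)).sub_const _

theorem Ecen_hasDbar {α : ℝ} (hα : 1 < α) (n : ℕ) {z : ℂ} (hz : z ∈ UH) :
    HasDbar (Ecen α n) (Complex.exp (-(2 * n * gfun α z) + n * ell α) *
      (-(Complex.I / 2) * ((deriv tau (z.re / z.im) : ℝ) : ℂ) * z / (z.im : ℂ) ^ 2) *
      (Complex.exp (n * kap α * z ^ (α : ℂ)) - Complex.exp (n * kap α * (-z) ^ (α : ℂ)))) z := by
  have hg : DifferentiableAt ℂ (gfun α) z := (gfun_hasDerivAt α hα z hz).differentiableAt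
  have h1 : HasDbar (fun w => Complex.exp (-(2 * n * gfun α w) + n * ell α)) 0 z := by
    refine HasDbar.of_hasDerivAt (DifferentiableAt.hasDerivAt ?_)
    exact (((hg.const_mul _).neg).add_const _).cexp
  have h2 : HasDbar (fun w => Complex.exp (n * kap α * w ^ (α : ℂ))) 0 z := by
    refine HasDbar.of_hasDerivAt (DifferentiableAt.hasDerivAt ?_)
    exact ((cpow_diff hz).const_mul _).cexp
  have h3 : HasDbar (fun w => Complex.exp (n * kap α * (-w) ^ (α : ℂ))) 0 z := by
    refine HasDbar.of_hasDerivAt (DifferentiableAt.hasDerivAt ?_)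
    exact ((cpow_neg_diff hz).const_mul _).cexp
  have ht := hasDbar_tau z hz
  have h4 := h1.mul ((ht.mul h2).add (((HasDbar.const 1 z).sub ht).mul h3))
  refine HasDbar.of_eq h4 ?_
  ring

theorem Gmat_hasDbar {α : ℝ} (hα : 1 < α) (n : ℕ) {y0 : ℝ} (hy : 0 < y0) (hy1 : y0 ≤ 1) {z : ℂ}
    (hz : z ∈ UH) (h : |z.re| ≠ 1 ∨ y0 < z.im) :
    HasDbarM (Gmat α n y0) (dG α n y0 z) z := by
  by_cases h1 : y0 < z.im
  · have h2 : ∀ᶠ w in 𝓝 z, y0 < w.im :=
      (isOpen_lt continuous_const Complex.continuous_im).mem_nhds h1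
    rw [dG_zero_of_im hy h1.le]
    intro i j
    have h3 : HasDbar (fun _ : ℂ => (1 : Mat2) i j) 0 z := HasDbar.const _ z
    refine h3.congr ?_
    filter_upwards [h2] with w hw
    rw [Gmat_eq_one hy (le_of_lt hw)]
  have h2 : |z.re| ≠ 1 := h.resolve_right h1
  have hr := hasDbar_rho y0 hy z
  rcases lt_or_gt_of_ne h2 with h3 | h3
  · -- inside
    have h4 : ∀ᶠ w in 𝓝 z, |w.re| < 1 :=
      (isOpen_lt (continuous_abs.comp Complex.continuous_re) continuous_const).mem_nhds h3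
    have h5 := ((HasDbar.const (-Complex.I) z).mul hr).mul (Ecen_hasDbar hα n hz)
    have key : HasDbarM (fun w => (!![1, 0;
        -Complex.I * (rho (w.im / y0) : ℂ) * Ecen α n w, 1] : Mat2)) (dG α n y0 z) z := by
      intro i j
      unfold dG dGx
      rw [if_pos h3]
      fin_cases i <;> fin_cases j
      · simpa using HasDbar.const 1 z
      · simpa using HasDbar.const 0 z
      · refine HasDbar.of_eq h5 ?_
        simp [qfun, drho]
        ring
      · simpa using HasDbar.const 1 z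
    intro i j
    refine (key i j).congr ?_
    filter_upwards [h4] with w hw
    unfold Gmat
    rw [if_pos hw]
  · have h1' : 1 < |z.re| := h3
    have hq : qfun α n y0 z = 0 := qfun_zero_of_re hy hz (by linarith)
    have h4 : ∀ᶠ w in 𝓝 z, 1 < |w.re| :=
      (isOpen_lt continuous_const (continuous_abs.comp Complex.continuous_re)).mem_nhds h3
    rcases lt_abs.mp h1' with h5 | h5
    · have h6 : ∀ᶠ w in 𝓝 z, 0 < w.re :=
        (isOpen_lt continuous_const Complex.continuous_re).mem_nhds (by linarith : (0 : ℝ) < z.re)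
      have h7 : HasDbar (fun w => Complex.exp (2 * n * xiR α w)) 0 z :=
        HasDbar.of_hasDerivAt (DifferentiableAt.hasDerivAt
          (((xiR_diff hα hz).const_mul _).cexp))
      have h8 := ((HasDbar.const (Complex.I / 2) z).mul hr).mul h7
      have key : HasDbarM (fun w => (!![1,
          Complex.I / 2 * (rho (w.im / y0) : ℂ) * Complex.exp (2 * n * xiR α w); 0, 1] : Mat2))
          (dG α n y0 z) z := by
        intro i j
        unfold dG dGx
        rw [if_neg (by linarith), if_pos (by linarith), hq]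
        fin_cases i <;> fin_cases j
        · simpa using HasDbar.const 1 z
        · refine HasDbar.of_eq h8 ?_
          simp [drho]
        · simpa using HasDbar.const 0 z
        · simpa using HasDbar.const 1 z
      intro i j
      refine (key i j).congr ?_
      filter_upwards [h4, h6] with w hw hw2
      unfold Gmat
      rw [if_neg (by linarith), if_pos hw2]
    · have h6 : ∀ᶠ w in 𝓝 z, w.re < 0 :=
        (isOpen_lt Complex.continuous_re continuous_const).mem_nhds (by linarith : z.re < (0 : ℝ))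
      have h7 : HasDbar (fun w => Complex.exp (2 * n * xiL α w)) 0 z :=
        HasDbar.of_hasDerivAt (DifferentiableAt.hasDerivAt
          (((xiL_diff hα hz).const_mul _).cexp))
      have h8 := ((HasDbar.const (Complex.I / 2) z).mul hr).mul h7
      have key : HasDbarM (fun w => (!![1,
          Complex.I / 2 * (rho (w.im / y0) : ℂ) * Complex.exp (2 * n * xiL α w); 0, 1] : Mat2))
          (dG α n y0 z) z := by
        intro i j
        unfold dG dGx
        rw [if_neg (by linarith), if_neg (by linarith), hq]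
        fin_cases i <;> fin_cases j
        · simpa using HasDbar.const 1 z
        · refine HasDbar.of_eq h8 ?_
          simp [drho]
        · simpa using HasDbar.const 0 z
        · simpa using HasDbar.const 1 z
      intro i j
      refine (key i j).congr ?_
      filter_upwards [h4, h6] with w hw hw2
      unfold Gmat
      rw [if_neg (by linarith), if_neg (by linarith)]

theorem HasDbar.unique {f : ℂ → ℂ} {b c z : ℂ} (h1 : HasDbar f b z) (h2 : HasDbar f c z) :
    b = c := by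
  obtain ⟨L, hL, hb⟩ := h1
  obtain ⟨L', hL', hc⟩ := h2
  have := hL.unique hL'
  subst this
  rw [hb] at hc
  have h2 : (2 : ℂ) ≠ 0 := two_ne_zero
  exact mul_left_cancel₀ h2 hc

theorem HasDbarM.unique {F : ℂ → Mat2} {B C : Mat2} {z : ℂ} (h1 : HasDbarM F B z)
    (h2 : HasDbarM F C z) : B = C := by
  ext i j
  exact (h1 i j).unique (h2 i j)

theorem HasDbarM.congr {F G : ℂ → Mat2} {B : Mat2} {z : ℂ} (hF : HasDbarM F B z)
    (h : G =ᶠ[𝓝 z] F) : HasDbarM G B z := by
  intro i j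
  refine (hF i j).congr ?_
  filter_upwards [h] with w hw
  rw [hw]

theorem HasDbarM.continuousAt {F : ℂ → Mat2} {B : Mat2} {z : ℂ} (hF : HasDbarM F B z) :
    ContinuousAt F z := by
  show Tendsto F (𝓝 z) (𝓝 (F z))
  rw [tendsto_mat]
  intro i j
  exact (hF i j).continuousAt

theorem conj_cpow_real {w : ℂ} (α : ℝ) (hw : w ∈ Complex.slitPlane) :
    (starRingEnd ℂ w) ^ (α : ℂ) = starRingEnd ℂ (w ^ (α : ℂ)) := by
  have h := Complex.conj_cpow w (α : ℂ) (Complex.slitPlane_arg_ne_pi hw)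
  rw [h, Complex.conj_ofReal]

theorem mc_cpow {z : ℂ} (hz : z ∈ UH) (α : ℝ) :
    (mc z) ^ (α : ℂ) = starRingEnd ℂ ((-z) ^ (α : ℂ)) := by
  have : mc z = starRingEnd ℂ (-z) := by simp [mc]
  rw [this, conj_cpow_real α (UH_neg_slit hz)]

theorem neg_mc_cpow {z : ℂ} (hz : z ∈ UH) (α : ℝ) :
    (-mc z) ^ (α : ℂ) = starRingEnd ℂ (z ^ (α : ℂ)) := by
  have : -mc z = starRingEnd ℂ z := by simp [mc]
  rw [this, conj_cpow_real α (UH_slit hz)]

theorem gfun_mc {α : ℝ} (hα : 1 < α) {z : ℂ} (hz : z ∈ UH) :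
    gfun α (mc z) = starRingEnd ℂ (gfun α z) + Real.pi * Complex.I :=
  gfun_symm α hα z hz

theorem xiL_mc {α : ℝ} (hα : 1 < α) {z : ℂ} (hz : z ∈ UH) :
    xiL α (mc z) = starRingEnd ℂ (xiR α z) + Real.pi * Complex.I := by
  unfold xiL xiR
  rw [gfun_mc hα hz, neg_mc_cpow hz]
  simp only [map_sub, map_div₀, map_mul, Complex.conj_ofReal, Complex.conj_ofNat]
  ring

theorem xiR_mc {α : ℝ} (hα : 1 < α) {z : ℂ} (hz : z ∈ UH) :
    xiR α (mc z) = starRingEnd ℂ (xiL α z) + Real.pi * Complex.I := by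
  unfold xiL xiR
  rw [gfun_mc hα hz, mc_cpow hz]
  simp only [map_sub, map_div₀, map_mul, Complex.conj_ofReal, Complex.conj_ofNat]
  ring

theorem exp_two_n_pi (n : ℕ) : Complex.exp (2 * n * (Real.pi * Complex.I)) = 1 := by
  have := Complex.exp_nat_mul_two_pi_mul_I n
  rw [← this]
  congr 1
  ring

theorem exp_two_n_pi' (n : ℕ) : Complex.exp (-(2 * n * (Real.pi * Complex.I))) = 1 := by
  rw [Complex.exp_neg, exp_two_n_pi, inv_one]

theorem exp_conj' (z : ℂ) : Complex.exp (starRingEnd ℂ z) = starRingEnd ℂ (Complex.exp z) :=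
  Complex.exp_conj z

theorem Ecen_mc {α : ℝ} (hα : 1 < α) (n : ℕ) {z : ℂ} (hz : z ∈ UH) :
    Ecen α n (mc z) = starRingEnd ℂ (Ecen α n z) := by
  unfold Ecen
  rw [gfun_mc hα hz, mc_cpow hz, neg_mc_cpow hz, mc_re, mc_im, neg_div,
    tau_facts.2.2.2.2.2.2.1]
  have e1 : Complex.exp (-(2 * n * (starRingEnd ℂ (gfun α z) + Real.pi * Complex.I)) + n * ell α)
      = starRingEnd ℂ (Complex.exp (-(2 * n * gfun α z) + n * ell α)) := by
    have : -(2 * n * (starRingEnd ℂ (gfun α z) + Real.pi * Complex.I)) + n * ell α =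
        starRingEnd ℂ (-(2 * n * gfun α z) + n * ell α) + -(2 * n * (Real.pi * Complex.I)) := by
      simp only [map_add, map_neg, map_mul, Complex.conj_ofReal, Complex.conj_ofNat,
        Complex.conj_natCast]
      ring
    rw [this, Complex.exp_add, exp_two_n_pi', mul_one, exp_conj']
  have e2 : ∀ w : ℂ, Complex.exp (n * kap α * starRingEnd ℂ w) =
      starRingEnd ℂ (Complex.exp (n * kap α * w)) := by
    intro w
    rw [← exp_conj']
    simp
  rw [e1, e2, e2]
  simp only [map_add, map_mul, map_sub, Complex.conj_ofReal, map_one]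
  push_cast
  ring

theorem refl_Gmat {α : ℝ} (hα : 1 < α) (n : ℕ) (y0 : ℝ) {z : ℂ} (hz : z ∈ UH) :
    refl (Gmat α n y0) z = Gmat α n y0 z := by
  have eR : starRingEnd ℂ (Complex.exp (2 * n * xiL α (mc z))) = Complex.exp (2 * n * xiR α z) := by
    have : 2 * n * xiL α (mc z) = starRingEnd ℂ (2 * n * xiR α z) +
        2 * n * (Real.pi * Complex.I) := by
      rw [xiL_mc hα hz]
      simp only [map_mul, Complex.conj_ofNat, Complex.conj_natCast]
      ring
    rw [this, Complex.exp_add, exp_two_n_pi, mul_one, exp_conj', Complex.conj_conj]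
  have eL : starRingEnd ℂ (Complex.exp (2 * n * xiR α (mc z))) = Complex.exp (2 * n * xiL α z) := by
    have : 2 * n * xiR α (mc z) = starRingEnd ℂ (2 * n * xiL α z) +
        2 * n * (Real.pi * Complex.I) := by
      rw [xiR_mc hα hz]
      simp only [map_mul, Complex.conj_ofNat, Complex.conj_natCast]
      ring
    rw [this, Complex.exp_add, exp_two_n_pi, mul_one, exp_conj', Complex.conj_conj]
  rw [refl_apply]
  unfold Gmat
  rw [mc_re, mc_im, abs_neg]
  by_cases h1 : |z.re| < 1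
  · rw [if_pos h1, if_pos h1]
    ext i j
    fin_cases i <;> fin_cases j <;> simp [Ecen_mc hα n hz]
  · rw [if_neg h1, if_neg h1]
    have h2 : z.re ≠ 0 := by
      intro h
      rw [h] at h1
      simp at h1
    rcases lt_or_gt_of_ne h2 with h3 | h3
    · rw [if_pos (by linarith), if_neg (by linarith)]
      ext i j
      fin_cases i <;> fin_cases j
      · simp
      · simp only [Matrix.of_apply, Matrix.cons_val', Matrix.cons_val_zero,
          Matrix.cons_val_one, Matrix.cons_val_fin_one, map_mul, eL, Complex.conj_ofReal,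
          map_div₀, Complex.conj_I, Complex.conj_ofNat, Fin.zero_eta, Fin.mk_one]
        ring
      · simp
      · simp
    · rw [if_neg (by linarith), if_pos (by linarith)]
      ext i j
      fin_cases i <;> fin_cases j
      · simp
      · simp only [Matrix.of_apply, Matrix.cons_val', Matrix.cons_val_zero,
          Matrix.cons_val_one, Matrix.cons_val_fin_one, map_mul, eR, Complex.conj_ofReal,
          map_div₀, Complex.conj_I, Complex.conj_ofNat, Fin.zero_eta, Fin.mk_one]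
        ring
      · simp
      · simp

theorem refl_dG {α : ℝ} (hα : 1 < α) (n : ℕ) {y0 : ℝ} (hy : 0 < y0) (hy1 : y0 ≤ 1) {z : ℂ}
    (hz : z ∈ UH) (h : |z.re| ≠ 1 ∨ y0 < z.im) :
    refl (dG α n y0) z = -dG α n y0 z := by
  have h1 : HasDbarM (Gmat α n y0) (dG α n y0 (mc z)) (mc z) := by
    apply Gmat_hasDbar hα n hy hy1 (mc_mem hz)
    rw [mc_re, mc_im, abs_neg]
    exact h
  have h2 := HasDbarM.refl h1
  have h3 := Gmat_hasDbar hα n hy hy1 hz h
  have h4 : HasDbarM (refl (Gmat α n y0)) (dG α n y0 z) z := by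
    refine h3.congr ?_
    filter_upwards [isOpen_UH.mem_nhds hz] with w hw
    exact refl_Gmat hα n y0 hw
  have h5 := h2.unique h4
  rw [← h5, neg_neg]
  rfl

theorem Gmat_inv_mul_dG {α : ℝ} (n : ℕ) {y0 : ℝ} (hy : 0 < y0) (hy1 : y0 ≤ 1) {z : ℂ}
    (hz : z ∈ UH) : Gmat α n y0 z * dG α n y0 z = dG α n y0 z := by
  unfold Gmat dG dGx
  by_cases h1 : |z.re| < 1
  · rw [if_pos h1, if_pos h1]
    ext i j
    fin_cases i <;> fin_cases j <;> simp [Matrix.mul_apply, Fin.sum_univ_two]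
  · have hq : qfun α n y0 z = 0 := qfun_zero_of_re hy hz (by linarith)
    rw [if_neg h1, if_neg h1, hq]
    by_cases h2 : 0 < z.re
    · rw [if_pos h2, if_pos h2]
      ext i j
      fin_cases i <;> fin_cases j <;> simp [Matrix.mul_apply, Fin.sum_univ_two]
    · rw [if_neg h2, if_neg h2]
      ext i j
      fin_cases i <;> fin_cases j <;> simp [Matrix.mul_apply, Fin.sum_univ_two]

/-! ### Norm facts -/

theorem nm_nonneg (A : Mat2) : 0 ≤ nm A := by
  unfold nm; positivity

theorem nm_add (A B : Mat2) : nm (A + B) ≤ nm A + nm B := by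
  unfold nm
  have h := fun i j => norm_add_le (A i j) (B i j)
  simp only [Matrix.add_apply]
  linarith [h 0 0, h 0 1, h 1 0, h 1 1]

theorem nm_neg (A : Mat2) : nm (-A) = nm A := by
  simp [nm]

theorem nm_sub (A B : Mat2) : nm (A - B) ≤ nm A + nm B := by
  rw [sub_eq_add_neg, ← nm_neg B]
  exact nm_add A (-B)

theorem nm_smul (c : ℂ) (A : Mat2) : nm (c • A) = ‖c‖ * nm A := by
  simp [nm]
  ring

theorem nm_mul (A B : Mat2) : nm (A * B) ≤ nm A * nm B := by
  unfold nm
  simp only [Matrix.mul_apply, Fin.sum_univ_two]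
  have h : ∀ i j : Fin 2, ‖A i 0 * B 0 j + A i 1 * B 1 j‖ ≤
      ‖A i 0‖ * ‖B 0 j‖ + ‖A i 1‖ * ‖B 1 j‖ := by
    intro i j
    refine (norm_add_le _ _).trans ?_
    rw [norm_mul, norm_mul]
  have p := fun i j => norm_nonneg (A i j)
  have q := fun i j => norm_nonneg (B i j)
  have h00 := h 0 0
  have h01 := h 0 1
  have h10 := h 1 0
  have h11 := h 1 1
  have m := fun i j k l => mul_nonneg (p i j) (q k l)
  nlinarith [m 0 0 1 0, m 0 0 1 1, m 0 1 0 0, m 0 1 0 1, m 1 0 1 0, m 1 0 1 1, m 1 1 0 0,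
    m 1 1 0 1]

theorem nm_zero : nm 0 = 0 := by simp [nm]

theorem nm_one : nm 1 = 2 := by simp [nm]; norm_num

theorem norm_le_nm (A : Mat2) (i j : Fin 2) : ‖A i j‖ ≤ nm A := by
  unfold nm
  have p := fun i j => norm_nonneg (A i j)
  fin_cases i <;> fin_cases j <;> simp only [Fin.zero_eta, Fin.mk_one] <;>
    linarith [p 0 0, p 0 1, p 1 0, p 1 1]

/-! ### Bounds -/

theorem exp_xiR_eq (α : ℝ) (n : ℕ) (z : ℂ) :
    Complex.exp (-(2 * n * gfun α z) + n * ell α) * Complex.exp (n * kap α * z ^ (α : ℂ)) =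
      Complex.exp (-(2 * n * xiR α z)) := by
  rw [← Complex.exp_add]
  congr 1
  unfold xiR
  ring

theorem exp_xiL_eq (α : ℝ) (n : ℕ) (z : ℂ) :
    Complex.exp (-(2 * n * gfun α z) + n * ell α) * Complex.exp (n * kap α * (-z) ^ (α : ℂ)) =
      Complex.exp (-(2 * n * xiL α z)) := by
  rw [← Complex.exp_add]
  congr 1
  unfold xiL
  ring

theorem Ecen_bound {α δ y0 c : ℝ} (hG : Geo α δ y0 c) (n : ℕ) {z : ℂ} (hz : z ∈ UH)
    (h1 : z.im ≤ y0) (h2 : |z.re| ≤ 1 - δ / 4) :
    ‖Ecen α n z‖ ≤ Real.exp (-(2 * n * (c * z.im))) := by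
  have hz' : 0 < z.im := hz
  have hre : ∀ (w : ℂ), c * z.im ≤ w.re →
      ‖Complex.exp (-(2 * n * w))‖ ≤ Real.exp (-(2 * n * (c * z.im))) := by
    intro w hw
    rw [Complex.norm_exp]
    apply Real.exp_le_exp.mpr
    have : (-(2 * n * w)).re = -(2 * n * w.re) := by
      have : (2 * (n : ℂ)) = ((2 * n : ℝ) : ℂ) := by push_cast; ring
      rw [this, Complex.neg_re, Complex.re_ofReal_mul]
    rw [this]
    have : (0 : ℝ) ≤ 2 * n := by positivity
    nlinarith
  have t0 := (tau_facts.2.1 (z.re / z.im)).1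
  have t1 := (tau_facts.2.1 (z.re / z.im)).2
  rw [abs_le] at h2
  have e : Ecen α n z = (tau (z.re / z.im) : ℂ) * Complex.exp (-(2 * n * xiR α z)) +
      (1 - (tau (z.re / z.im) : ℂ)) * Complex.exp (-(2 * n * xiL α z)) := by
    rw [← exp_xiR_eq, ← exp_xiL_eq]
    unfold Ecen
    ring
  rw [e]
  have n1 : ‖(tau (z.re / z.im) : ℂ) * Complex.exp (-(2 * n * xiR α z))‖ ≤
      tau (z.re / z.im) * Real.exp (-(2 * n * (c * z.im))) := by
    rw [norm_mul, Complex.norm_real, Real.norm_eq_abs, abs_of_nonneg t0]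
    by_cases h : z.re / z.im ≤ -1
    · rw [tau_facts.2.2.1 _ h]
      simp
    · push Not at h
      rw [lt_div_iff₀ hz'] at h
      have := hG.right z hz h1 (by linarith) h2.2
      exact mul_le_mul_of_nonneg_left (hre _ this) t0
  have n2 : ‖(1 - (tau (z.re / z.im) : ℂ)) * Complex.exp (-(2 * n * xiL α z))‖ ≤
      (1 - tau (z.re / z.im)) * Real.exp (-(2 * n * (c * z.im))) := by
    have : (1 - (tau (z.re / z.im) : ℂ)) = ((1 - tau (z.re / z.im) : ℝ) : ℂ) := by push_cast; ring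
    rw [this, norm_mul, Complex.norm_real, Real.norm_eq_abs, abs_of_nonneg (by linarith)]
    by_cases h : 1 ≤ z.re / z.im
    · rw [tau_facts.2.2.2.1 _ h]
      simp
    · push Not at h
      rw [div_lt_iff₀ hz'] at h
      have := hG.left z hz h1 (by linarith) (by linarith [h2.1])
      exact mul_le_mul_of_nonneg_left (hre _ this) (by linarith)
  refine (norm_add_le _ _).trans ?_
  linarith

theorem exp_outR_bound {α δ y0 c : ℝ} (hG : Geo α δ y0 c) (n : ℕ) {z : ℂ} (hz : z ∈ UH)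
    (h1 : z.im ≤ y0) (h2 : 1 + δ / 4 ≤ z.re) :
    ‖Complex.exp (2 * n * xiR α z)‖ ≤ Real.exp (-(2 * n * (c * |z.re|))) := by
  have h := hG.outR z hz h1 h2
  have hd : 0 < δ := by
    have := hG.y0_le
    have := hG.y0_pos
    linarith
  rw [Complex.norm_exp, abs_of_pos (by linarith : 0 < z.re)]
  apply Real.exp_le_exp.mpr
  have : (2 * n * xiR α z).re = 2 * n * (xiR α z).re := by
    have : (2 * (n : ℂ)) = ((2 * n : ℝ) : ℂ) := by push_cast; ring
    rw [this, Complex.re_ofReal_mul]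
  rw [this]
  have : (0 : ℝ) ≤ 2 * n := by positivity
  nlinarith

theorem exp_outL_bound {α δ y0 c : ℝ} (hG : Geo α δ y0 c) (n : ℕ) {z : ℂ} (hz : z ∈ UH)
    (h1 : z.im ≤ y0) (h2 : z.re ≤ -(1 + δ / 4)) :
    ‖Complex.exp (2 * n * xiL α z)‖ ≤ Real.exp (-(2 * n * (c * |z.re|))) := by
  have h := hG.outL z hz h1 h2
  have hd : 0 < δ := by
    have := hG.y0_le
    have := hG.y0_pos
    linarith
  rw [Complex.norm_exp, abs_of_neg (by linarith : z.re < 0)]
  apply Real.exp_le_exp.mpr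
  have : (2 * n * xiL α z).re = 2 * n * (xiL α z).re := by
    have : (2 * (n : ℂ)) = ((2 * n : ℝ) : ℂ) := by push_cast; ring
    rw [this, Complex.re_ofReal_mul]
  rw [this]
  have : (0 : ℝ) ≤ 2 * n := by positivity
  nlinarith

/-- The set of admissible points: not in the strip over the neighbourhoods of the edges. -/
def Good (δ y0 : ℝ) (z : ℂ) : Prop :=
  |z.re| ≤ 1 - δ / 4 ∨ 1 + δ / 4 ≤ |z.re| ∨ y0 ≤ z.im

theorem Gmat_bound {α δ y0 c : ℝ} (hG : Geo α δ y0 c) (n : ℕ) {z : ℂ} (hz : z ∈ UH)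
    (h : Good δ y0 z) : nm (Gmat α n y0 z) ≤ 3 := by
  have hz' : 0 < z.im := hz
  have hy := hG.y0_pos
  have hd : 0 < δ := by
    have := hG.y0_le
    linarith
  have hc := hG.c_pos
  by_cases h0 : y0 ≤ z.im
  · rw [Gmat_eq_one hy h0, nm_one]; norm_num
  push Not at h0
  have r0 := (rho_facts.2.1 (z.im / y0)).1
  have r1 := (rho_facts.2.1 (z.im / y0)).2
  rcases h with h | h | h
  · unfold Gmat
    rw [if_pos (by linarith)]
    have h1 := Ecen_bound hG n hz h0.le h
    have h2 : Real.exp (-(2 * n * (c * z.im))) ≤ 1 := by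
      apply Real.exp_le_one_iff.mpr
      have : 0 ≤ 2 * n * (c * z.im) := by positivity
      linarith
    have h3 : ‖-Complex.I * (rho (z.im / y0) : ℂ) * Ecen α n z‖ ≤ 1 := by
      rw [norm_mul, norm_mul, norm_neg, Complex.norm_I, Complex.norm_real, Real.norm_eq_abs,
        abs_of_nonneg r0, one_mul]
      calc rho (z.im / y0) * ‖Ecen α n z‖ ≤ 1 * 1 :=
        mul_le_mul r1 (h1.trans h2) (norm_nonneg _) zero_le_one
        _ = 1 := one_mul 1
    simp only [nm, Matrix.of_apply, Matrix.cons_val', Matrix.cons_val_zero,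
      Matrix.cons_val_one, Matrix.cons_val_fin_one, norm_one, norm_zero]
    linarith
  · unfold Gmat
    rw [if_neg (by linarith)]
    have h2 : Real.exp (-(2 * n * (c * |z.re|))) ≤ 1 := by
      apply Real.exp_le_one_iff.mpr
      have : 0 ≤ 2 * n * (c * |z.re|) := by positivity
      linarith
    have h3 : ∀ w : ℂ, ‖w‖ ≤ 1 → ‖Complex.I / 2 * (rho (z.im / y0) : ℂ) * w‖ ≤ 1 := by
      intro w hw
      rw [norm_mul, norm_mul, norm_div, Complex.norm_I, Complex.norm_real, Real.norm_eq_abs,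
        abs_of_nonneg r0]
      have : ‖(2 : ℂ)‖ = 2 := by simp
      rw [this]
      have : rho (z.im / y0) * ‖w‖ ≤ 1 * 1 := mul_le_mul r1 hw (norm_nonneg _) zero_le_one
      have h0 : 0 ≤ rho (z.im / y0) * ‖w‖ := by positivity
      calc 1 / 2 * rho (z.im / y0) * ‖w‖ = (1 / 2) * (rho (z.im / y0) * ‖w‖) := by ring
        _ ≤ 1 := by linarith
    rcases le_abs.mp h with h' | h'
    · rw [if_pos (by linarith)]
      have := h3 _ ((exp_outR_bound hG n hz h0.le h').trans h2)
      simp only [nm, Matrix.of_apply, Matrix.cons_val', Matrix.cons_val_zero,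
        Matrix.cons_val_one, Matrix.cons_val_fin_one, norm_one, norm_zero]
      linarith
    · rw [if_neg (by linarith)]
      have := h3 _ ((exp_outL_bound hG n hz h0.le (by linarith)).trans h2)
      simp only [nm, Matrix.of_apply, Matrix.cons_val', Matrix.cons_val_zero,
        Matrix.cons_val_one, Matrix.cons_val_fin_one, norm_one, norm_zero]
      linarith
  · linarith

theorem Gmat_sub_one_bound {α δ y0 c : ℝ} (hG : Geo α δ y0 c) (hδ : δ < 1 / 2) (n : ℕ) {z : ℂ}
    (hz : z ∈ UH) (h : 3 ≤ ‖z‖) :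
    nm (Gmat α n y0 z - 1) ≤ Real.exp (-(2 * n * (c * (‖z‖ - 1)))) := by
  have hz' : 0 < z.im := hz
  have hy := hG.y0_pos
  have hy8 := hG.y0_le
  have hc := hG.c_pos
  by_cases h0 : y0 ≤ z.im
  · rw [Gmat_eq_one hy h0, sub_self, nm_zero]; positivity
  push Not at h0
  have r0 := (rho_facts.2.1 (z.im / y0)).1
  have r1 := (rho_facts.2.1 (z.im / y0)).2
  have hre : ‖z‖ - 1 ≤ |z.re| := by
    have := Complex.norm_le_abs_re_add_abs_im z
    rw [abs_of_pos hz'] at this
    linarith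
  have hre' : 2 ≤ |z.re| := by linarith
  have h2 : Real.exp (-(2 * n * (c * |z.re|))) ≤ Real.exp (-(2 * n * (c * (‖z‖ - 1)))) := by
    apply Real.exp_le_exp.mpr
    have : 2 * n * (c * (‖z‖ - 1)) ≤ 2 * n * (c * |z.re|) := by gcongr
    linarith
  have h3 : ∀ w : ℂ, ‖w‖ ≤ Real.exp (-(2 * n * (c * |z.re|))) →
      ‖Complex.I / 2 * (rho (z.im / y0) : ℂ) * w‖ ≤ Real.exp (-(2 * n * (c * (‖z‖ - 1)))) := by
    intro w hw
    rw [norm_mul, norm_mul, norm_div, Complex.norm_I, Complex.norm_real, Real.norm_eq_abs,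
      abs_of_nonneg r0]
    have : ‖(2 : ℂ)‖ = 2 := by simp
    rw [this]
    have : rho (z.im / y0) * ‖w‖ ≤ 1 * ‖w‖ := mul_le_mul_of_nonneg_right r1 (norm_nonneg _)
    have h0 : 0 ≤ rho (z.im / y0) * ‖w‖ := by positivity
    calc 1 / 2 * rho (z.im / y0) * ‖w‖ = (1 / 2) * (rho (z.im / y0) * ‖w‖) := by ring
      _ ≤ ‖w‖ := by linarith
      _ ≤ _ := hw.trans h2
  unfold Gmat
  rw [if_neg (by linarith)]
  rcases le_abs.mp hre' with h' | h'
  · rw [if_pos (by linarith)]
    have := h3 _ (exp_outR_bound hG n hz h0.le (by linarith))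
    simpa [nm, Matrix.one_fin_two] using this
  · rw [if_neg (by linarith)]
    have := h3 _ (exp_outL_bound hG n hz h0.le (by linarith))
    simpa [nm, Matrix.one_fin_two] using this

theorem drho_bound {y0 : ℝ} (hy : 0 < y0) : ∃ C : ℝ, 0 ≤ C ∧ ∀ z : ℂ, ‖drho y0 z‖ ≤ C := by
  obtain ⟨C, hC⟩ := rho_facts.2.2.2.2.2.2
  have hC0 : 0 ≤ C := (abs_nonneg _).trans (hC 0)
  refine ⟨C / y0, by positivity, fun z => ?_⟩
  unfold drho
  rw [norm_div, norm_mul, norm_div, Complex.norm_I, Complex.norm_real, Complex.norm_real,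
    Real.norm_eq_abs, Real.norm_eq_abs, abs_of_pos hy]
  have : ‖(2 : ℂ)‖ = 2 := by simp
  rw [this]
  have h := hC (z.im / y0)
  gcongr
  linarith

theorem dGx_bound {α δ y0 c : ℝ} (hG : Geo α δ y0 c) (hδ : δ < 1 / 2) :
    ∃ C c' : ℝ, 0 < c' ∧ 0 ≤ C ∧ ∀ n : ℕ, 1 ≤ n → ∀ z ∈ UH, Good δ y0 z →
      nm (dGx α n y0 z) ≤ C * Real.exp (-(c' * n)) * Real.exp (-(c' * ‖z‖)) := by
  have hy := hG.y0_pos
  have hy8 := hG.y0_le
  have hc := hG.c_pos
  obtain ⟨C, hC0, hC⟩ := drho_bound hy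
  set c' : ℝ := c * y0 with hc'
  have hcp : 0 < c' := by positivity
  have hcc : c' ≤ c := by
    rw [hc']
    nlinarith
  refine ⟨C * Real.exp (2 * c'), c', hcp, by positivity, ?_⟩
  intro n hn z hz hg
  have hn' : (1 : ℝ) ≤ n := by exact_mod_cast hn
  have hz' : 0 < z.im := hz
  by_cases h0 : y0 ≤ z.im
  · rw [dGx_zero_of_im hy h0, nm_zero]; positivity
  push Not at h0
  by_cases h00 : z.im ≤ y0 / 2
  · have : dGx α n y0 z = 0 := by
      unfold dGx
      rw [drho_eq_zero_of_im' hy h00]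
      split_ifs <;> ext i j <;> fin_cases i <;> fin_cases j <;> simp
    rw [this, nm_zero]; positivity
  push Not at h00
  have hnz : ‖z‖ ≤ |z.re| + 1 := by
    have := Complex.norm_le_abs_re_add_abs_im z
    rw [abs_of_pos hz'] at this
    linarith
  have hcomb : C * Real.exp (2 * c') * Real.exp (-(c' * n)) * Real.exp (-(c' * ‖z‖)) =
      C * Real.exp (2 * c' - c' * n - c' * ‖z‖) := by
    rw [mul_assoc, mul_assoc, ← Real.exp_add, ← Real.exp_add]
    congr 2
    ring
  rw [hcomb]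
  rcases hg with h | h | h
  · have h1 := Ecen_bound hG n hz h0.le h
    unfold dGx
    rw [if_pos (by linarith)]
    have h3 : ‖-Complex.I * drho y0 z * Ecen α n z‖ ≤
        C * Real.exp (2 * c' - c' * n - c' * ‖z‖) := by
      rw [norm_mul, norm_mul, norm_neg, Complex.norm_I, one_mul]
      refine mul_le_mul (hC z) (h1.trans (Real.exp_le_exp.mpr ?_)) (norm_nonneg _) hC0
      have e1 : c' * n ≤ 2 * n * (c * z.im) := by
        rw [hc']
        have : c * y0 * n ≤ 2 * n * (c * (y0 / 2)) := by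
          apply le_of_eq; ring
        refine this.trans ?_
        gcongr
      have e2 : c' * ‖z‖ ≤ c' * 2 := by
        gcongr
        linarith
      linarith
    simp only [nm, Matrix.of_apply, Matrix.cons_val', Matrix.cons_val_zero,
      Matrix.cons_val_one, Matrix.cons_val_fin_one, norm_zero]
    linarith
  · unfold dGx
    have hre : 1 ≤ |z.re| := by linarith
    rw [if_neg (by linarith)]
    have e1 : c' * n + c' * ‖z‖ ≤ 2 * n * (c * |z.re|) + 2 * c' := by
      have a1 : c' * n ≤ n * (c * |z.re|) := by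
        calc c' * n ≤ c * n := by gcongr
          _ = n * (c * 1) := by ring
          _ ≤ n * (c * |z.re|) := by gcongr
      have a2 : c' * ‖z‖ ≤ n * (c * |z.re|) + c' := by
        calc c' * ‖z‖ ≤ c' * (|z.re| + 1) := by gcongr
          _ = 1 * (c' * |z.re|) + c' := by ring
          _ ≤ n * (c * |z.re|) + c' := by gcongr
      linarith
    have h3 : ∀ w : ℂ, ‖w‖ ≤ Real.exp (-(2 * n * (c * |z.re|))) →
        ‖Complex.I / 2 * drho y0 z * w‖ ≤ C * Real.exp (2 * c' - c' * n - c' * ‖z‖) := by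
      intro w hw
      rw [norm_mul, norm_mul, norm_div, Complex.norm_I]
      have : ‖(2 : ℂ)‖ = 2 := by simp
      rw [this]
      have h4 : ‖drho y0 z‖ * ‖w‖ ≤ C * Real.exp (2 * c' - c' * n - c' * ‖z‖) := by
        refine mul_le_mul (hC z) (hw.trans (Real.exp_le_exp.mpr ?_)) (norm_nonneg _) hC0
        linarith
      have h5 : 0 ≤ ‖drho y0 z‖ * ‖w‖ := by positivity
      calc 1 / 2 * ‖drho y0 z‖ * ‖w‖ = 1 / 2 * (‖drho y0 z‖ * ‖w‖) := by ring
        _ ≤ ‖drho y0 z‖ * ‖w‖ := by linarith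
        _ ≤ _ := h4
    rcases le_abs.mp h with h' | h'
    · rw [if_pos (by linarith)]
      have := h3 _ (exp_outR_bound hG n hz h0.le h')
      simpa [nm] using this
    · rw [if_neg (by linarith)]
      have := h3 _ (exp_outL_bound hG n hz h0.le (by linarith))
      simpa [nm] using this
  · linarith

end Pool.Agent.Freud
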