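import Pool.Agent.Freud.AsmDefs
import Pool.Agent.Freud.LensG

/-!
Expansion of the annular source term (job FR-R2).
-/

set_option autoImplicit false

open MeasureTheory Filter Topology Asymptotics

namespace Pool.Agent.Freud

/-! ### Coefficients of `F = R (1 + e R)⁻¹` -/

/-- Coefficients of the solution of `F = R - e F R`. -/
noncomputable def annExp_f (x : ℕ → Mat2) (e : ℂ) : ℕ → Mat2
  | 0 => x 0
  | k + 1 => x (k + 1) - e • ∑ i : Fin (k + 1), annExp_f x e i.1 * x (k - i.1)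
  decreasing_by exact i.2

theorem annExp_f_zero (x : ℕ → Mat2) (e : ℂ) : annExp_f x e 0 = x 0 := by
  rw [annExp_f]

theorem annExp_f_succ (x : ℕ → Mat2) (e : ℂ) (k : ℕ) : annExp_f x e (k + 1) =
    x (k + 1) - e • ∑ i ∈ Finset.range (k + 1), annExp_f x e i * x (k - i) := by
  rw [annExp_f]
  congr 2
  exact Fin.sum_univ_eq_sum_range (fun i => annExp_f x e i * x (k - i)) (k + 1)

theorem annExp_nm_sum {ι : Type*} (t : Finset ι) (f : ι → Mat2) :
    nm (∑ i ∈ t, f i) ≤ ∑ i ∈ t, nm (f i) := by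
  classical
  induction t using Finset.induction_on with
  | empty => simp [nm_zero]
  | insert a s ha ih =>
    rw [Finset.sum_insert ha, Finset.sum_insert ha]
    exact le_trans (nm_add _ _) (by linarith)

/-- The coefficients are bounded. -/
theorem annExp_f_bound {S : Set ℂ} {x : ℕ → ℂ → Mat2} {e : ℂ → ℂ}
    (hx' : ∀ k, ∃ C : ℝ, ∀ z ∈ S, nm (x k z) ≤ C) (he : ∀ z, ‖e z‖ ≤ 1) :
    ∀ k, ∃ C : ℝ, ∀ z ∈ S, nm (annExp_f (fun k => x k z) (e z) k) ≤ C := by
  intro k
  induction k using Nat.strong_induction_on with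
  | _ k ih =>
    cases k with
    | zero =>
      obtain ⟨C, hC⟩ := hx' 0
      refine ⟨C, fun z hz => ?_⟩
      rw [annExp_f_zero]
      exact hC z hz
    | succ k =>
      choose M hM using hx'
      have hF : ∀ i : ℕ, ∃ C : ℝ, i < k + 1 → ∀ z ∈ S,
          nm (annExp_f (fun k => x k z) (e z) i) ≤ C := by
        intro i
        by_cases hi : i < k + 1
        · obtain ⟨C, hC⟩ := ih i hi
          exact ⟨C, fun _ => hC⟩
        · exact ⟨0, fun h => absurd h hi⟩
      choose B hB using hF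
      refine ⟨M (k + 1) + ∑ i ∈ Finset.range (k + 1), B i * M (k - i), fun z hz => ?_⟩
      rw [annExp_f_succ]
      refine le_trans (nm_sub _ _) (add_le_add (hM _ z hz) ?_)
      rw [nm_smul]
      have h1 : nm (∑ i ∈ Finset.range (k + 1), annExp_f (fun k => x k z) (e z) i *
          x (k - i) z) ≤ ∑ i ∈ Finset.range (k + 1), B i * M (k - i) := by
        refine le_trans (annExp_nm_sum _ _) (Finset.sum_le_sum fun i hi => ?_)
        refine le_trans (nm_mul _ _) ?_
        have h2 := hB i (Finset.mem_range.1 hi) z hz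
        exact mul_le_mul h2 (hM _ z hz) (nm_nonneg _) (le_trans (nm_nonneg _) h2)
      calc ‖e z‖ * nm (∑ i ∈ Finset.range (k + 1), annExp_f (fun k => x k z) (e z) i *
            x (k - i) z) ≤ 1 * nm (∑ i ∈ Finset.range (k + 1),
              annExp_f (fun k => x k z) (e z) i * x (k - i) z) :=
            mul_le_mul_of_nonneg_right (he z) (nm_nonneg _)
        _ ≤ _ := by rw [one_mul]; exact h1

/-- The coefficients are continuous. -/
theorem annExp_f_cont {S : Set ℂ} {x : ℕ → ℂ → Mat2} {e : ℂ → ℂ}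
    (hx : ∀ k, ContinuousOn (x k) S) (he : ContinuousOn e S) :
    ∀ k, ContinuousOn (fun z => annExp_f (fun k => x k z) (e z) k) S := by
  intro k
  induction k using Nat.strong_induction_on with
  | _ k ih =>
    cases k with
    | zero =>
      have h : (fun z => annExp_f (fun k => x k z) (e z) 0) = x 0 := by
        funext z
        rw [annExp_f_zero]
      rw [h]
      exact hx 0
    | succ k =>
      have h : (fun z => annExp_f (fun k => x k z) (e z) (k + 1)) = fun z =>
          x (k + 1) z - e z • ∑ i ∈ Finset.range (k + 1),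
            annExp_f (fun k => x k z) (e z) i * x (k - i) z := by
        funext z
        rw [annExp_f_succ]
      rw [h]
      apply (hx _).sub
      apply he.smul
      apply continuousOn_finsetSum
      intro i hi
      exact (ih i (Finset.mem_range.1 hi)).mul (hx _)

/-! ### The expansion of `F` -/

/-- `1 / n ^ (k + 1)`. -/
noncomputable def annExp_u (n : ℕ) (k : ℕ) : ℂ := ((n : ℂ) ^ (k + 1))⁻¹

theorem annExp_u_norm (n k : ℕ) : ‖annExp_u n k‖ = 1 / (n : ℝ) ^ (k + 1) := by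
  unfold annExp_u
  rw [norm_inv, norm_pow, Complex.norm_natCast, one_div]

theorem annExp_u_mul (n k l : ℕ) : annExp_u n k * annExp_u n l = annExp_u n (k + l + 1) := by
  unfold annExp_u
  rw [← mul_inv, ← pow_add]
  congr 2
  ring

theorem annExp_sum_eq (n : ℕ) (x : ℕ → Mat2) (e : ℂ) (K : ℕ) :
    ∑ k ∈ Finset.range (K + 1), annExp_u n k • annExp_f x e k =
      ∑ k ∈ Finset.range (K + 1), annExp_u n k • x k -
        e • ∑ i ∈ Finset.range K, (annExp_u n i • annExp_f x e i) *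
          ∑ j ∈ Finset.range (K - i), annExp_u n j • x j := by
  have h1 : ∑ i ∈ Finset.range K, (annExp_u n i • annExp_f x e i) *
      ∑ j ∈ Finset.range (K - i), annExp_u n j • x j =
      ∑ k ∈ Finset.range K, annExp_u n (k + 1) •
        ∑ i ∈ Finset.range (k + 1), annExp_f x e i * x (k - i) := by
    calc ∑ i ∈ Finset.range K, (annExp_u n i • annExp_f x e i) *
          ∑ j ∈ Finset.range (K - i), annExp_u n j • x j
        = ∑ i ∈ Finset.range K, ∑ j ∈ Finset.range (K - i),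
            (annExp_u n i • annExp_f x e i) * (annExp_u n j • x j) := by
          apply Finset.sum_congr rfl
          intro i _
          rw [Finset.mul_sum]
      _ = ∑ k ∈ Finset.range K, ∑ i ∈ Finset.range (k + 1),
            (annExp_u n i • annExp_f x e i) * (annExp_u n (k - i) • x (k - i)) :=
          (Finset.sum_range_diag_flip K (fun i j =>
            (annExp_u n i • annExp_f x e i) * (annExp_u n j • x j))).symm
      _ = _ := by
          apply Finset.sum_congr rfl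
          intro k _
          rw [Finset.smul_sum]
          apply Finset.sum_congr rfl
          intro i hi
          rw [smul_mul_smul_comm, annExp_u_mul]
          congr 2
          have := Finset.mem_range.1 hi
          omega
  rw [h1, Finset.sum_range_succ', Finset.sum_range_succ' (fun k => annExp_u n k • x k),
    annExp_f_zero, Finset.smul_sum]
  have h2 : ∑ k ∈ Finset.range K, annExp_u n (k + 1) • annExp_f x e (k + 1) =
      ∑ k ∈ Finset.range K, annExp_u n (k + 1) • x (k + 1) -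
        ∑ k ∈ Finset.range K, e • annExp_u n (k + 1) •
          ∑ i ∈ Finset.range (k + 1), annExp_f x e i * x (k - i) := by
    rw [← Finset.sum_sub_distrib]
    apply Finset.sum_congr rfl
    intro k _
    rw [annExp_f_succ, smul_sub, smul_comm]
  rw [h2]
  abel

theorem annExp_main {S : Set ℂ} {x : ℕ → ℂ → Mat2} {e : ℂ → ℂ} {R F : ℕ → ℂ → Mat2} {n0 : ℕ}
    (hx' : ∀ k, ∃ C : ℝ, ∀ z ∈ S, nm (x k z) ≤ C) (he : ∀ z, ‖e z‖ ≤ 1) (hn0 : 1 ≤ n0)
    (hR : ∀ K : ℕ, ∃ C : ℝ, ∀ n : ℕ, n0 ≤ n → ∀ z ∈ S,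
      nm (R n z - ∑ k ∈ Finset.range K, annExp_u n k • x k z) ≤ C / (n : ℝ) ^ (K + 1))
    (hF0 : ∃ C : ℝ, ∀ n : ℕ, n0 ≤ n → ∀ z ∈ S, nm (F n z) ≤ C / (n : ℝ))
    (hF : ∀ n : ℕ, n0 ≤ n → ∀ z ∈ S, F n z = R n z - e z • (F n z * R n z)) :
    ∀ K : ℕ, ∃ C : ℝ, ∀ n : ℕ, n0 ≤ n → ∀ z ∈ S,
      nm (F n z - ∑ k ∈ Finset.range K, annExp_u n k • annExp_f (fun k => x k z) (e z) k) ≤
        C / (n : ℝ) ^ (K + 1) := by
  intro K
  induction K with
  | zero =>
    obtain ⟨C, hC⟩ := hF0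
    refine ⟨C, fun n hn z hz => ?_⟩
    simpa using hC n hn z hz
  | succ K ih =>
    obtain ⟨CF, hCF⟩ := ih
    choose CR hCR using hR
    obtain hB := annExp_f_bound hx' he
    choose B hB using hB
    refine ⟨CR (K + 1) + (CF * CR 0 + ∑ i ∈ Finset.range K, B i * CR (K - i)),
      fun n hn z hz => ?_⟩
    have hnpos : (0 : ℝ) < n := by
      have : 0 < n := by omega
      exact_mod_cast this
    rw [annExp_sum_eq]
    set f : ℕ → Mat2 := annExp_f (fun k => x k z) (e z) with hf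
    set Sx : ℕ → Mat2 := fun m => ∑ j ∈ Finset.range m, annExp_u n j • x j z with hSx
    have key : F n z - (∑ k ∈ Finset.range (K + 1), annExp_u n k • x k z -
        e z • ∑ i ∈ Finset.range K, (annExp_u n i • f i) * Sx (K - i)) =
        (R n z - Sx (K + 1)) - e z • ((F n z - ∑ i ∈ Finset.range K, annExp_u n i • f i) *
          R n z + ∑ i ∈ Finset.range K, (annExp_u n i • f i) * (R n z - Sx (K - i))) := by
      have h1 : ∑ i ∈ Finset.range K, (annExp_u n i • f i) * (R n z - Sx (K - i)) =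
          (∑ i ∈ Finset.range K, annExp_u n i • f i) * R n z -
            ∑ i ∈ Finset.range K, (annExp_u n i • f i) * Sx (K - i) := by
        rw [Finset.sum_mul, ← Finset.sum_sub_distrib]
        apply Finset.sum_congr rfl
        intro i _
        rw [mul_sub]
      rw [h1, sub_mul]
      nth_rewrite 1 [hF n hn z hz]
      have h2 : Sx (K + 1) = ∑ k ∈ Finset.range (K + 1), annExp_u n k • x k z := rfl
      rw [h2]
      rw [smul_add, smul_sub, smul_sub]
      abel
    rw [key]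
    have hR0 : nm (R n z) ≤ CR 0 / (n : ℝ) := by
      have := hCR 0 n hn z hz
      simpa using this
    have a1 : nm (R n z - Sx (K + 1)) ≤ CR (K + 1) / (n : ℝ) ^ (K + 1 + 1) :=
      hCR (K + 1) n hn z hz
    have a2 : nm ((F n z - ∑ i ∈ Finset.range K, annExp_u n i • f i) * R n z) ≤
        CF * CR 0 / (n : ℝ) ^ (K + 1 + 1) := by
      refine le_trans (nm_mul _ _) ?_
      have h3 := hCF n hn z hz
      calc nm (F n z - ∑ i ∈ Finset.range K, annExp_u n i • f i) * nm (R n z)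
          ≤ (CF / (n : ℝ) ^ (K + 1)) * (CR 0 / (n : ℝ)) :=
            mul_le_mul h3 hR0 (nm_nonneg _) (le_trans (nm_nonneg _) h3)
        _ = CF * CR 0 / (n : ℝ) ^ (K + 1 + 1) := by
            rw [div_mul_div_comm, ← pow_succ]
    have a3 : ∀ i ∈ Finset.range K, nm ((annExp_u n i • f i) * (R n z - Sx (K - i))) ≤
        B i * CR (K - i) / (n : ℝ) ^ (K + 1 + 1) := by
      intro i hi
      refine le_trans (nm_mul _ _) ?_
      rw [nm_smul, annExp_u_norm]
      have h4 := hB i z hz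
      have h5 := hCR (K - i) n hn z hz
      have h6 : 1 / (n : ℝ) ^ (i + 1) * nm (f i) ≤ B i / (n : ℝ) ^ (i + 1) := by
        rw [one_div, inv_mul_eq_div]
        exact div_le_div_of_nonneg_right h4 (by positivity)
      calc 1 / (n : ℝ) ^ (i + 1) * nm (f i) * nm (R n z - Sx (K - i))
          ≤ (B i / (n : ℝ) ^ (i + 1)) * (CR (K - i) / (n : ℝ) ^ (K - i + 1)) :=
            mul_le_mul h6 h5 (nm_nonneg _) (le_trans (by
              have := nm_nonneg (f i)
              positivity) h6)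
        _ = B i * CR (K - i) / (n : ℝ) ^ (K + 1 + 1) := by
            rw [div_mul_div_comm, ← pow_add]
            congr 2
            have := Finset.mem_range.1 hi
            omega
    refine le_trans (nm_sub _ _) ?_
    rw [add_div]
    apply add_le_add a1
    rw [nm_smul]
    have a4 : nm ((F n z - ∑ i ∈ Finset.range K, annExp_u n i • f i) * R n z +
        ∑ i ∈ Finset.range K, (annExp_u n i • f i) * (R n z - Sx (K - i))) ≤
        (CF * CR 0 + ∑ i ∈ Finset.range K, B i * CR (K - i)) / (n : ℝ) ^ (K + 1 + 1) := by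
      refine le_trans (nm_add _ _) ?_
      rw [add_div]
      apply add_le_add a2
      refine le_trans (annExp_nm_sum _ _) ?_
      rw [Finset.sum_div]
      exact Finset.sum_le_sum a3
    calc ‖e z‖ * nm ((F n z - ∑ i ∈ Finset.range K, annExp_u n i • f i) * R n z +
          ∑ i ∈ Finset.range K, (annExp_u n i • f i) * (R n z - Sx (K - i)))
        ≤ 1 * nm ((F n z - ∑ i ∈ Finset.range K, annExp_u n i • f i) * R n z +
          ∑ i ∈ Finset.range K, (annExp_u n i • f i) * (R n z - Sx (K - i))) :=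
          mul_le_mul_of_nonneg_right (he z) (nm_nonneg _)
      _ ≤ _ := by rw [one_mul]; exact a4

/-! ### Inverses -/

theorem annExp_det {X : Mat2} (hX : nm X ≤ 1 / 4) : 1 / 2 ≤ ‖(1 + X).det‖ := by
  have h0 := norm_nonneg (X 0 0)
  have h1 := norm_nonneg (X 0 1)
  have h2 := norm_nonneg (X 1 0)
  have h3 := norm_nonneg (X 1 1)
  unfold nm at hX
  rw [Matrix.det_fin_two]
  have e1 : (1 + X) 0 0 * (1 + X) 1 1 - (1 + X) 0 1 * (1 + X) 1 0 =
      1 - (-(X 0 0) - X 1 1 - X 0 0 * X 1 1 + X 0 1 * X 1 0) := by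
    simp
    ring
  rw [e1]
  have e2 : ‖-(X 0 0) - X 1 1 - X 0 0 * X 1 1 + X 0 1 * X 1 0‖ ≤
      ‖X 0 0‖ + ‖X 1 1‖ + ‖X 0 0‖ * ‖X 1 1‖ + ‖X 0 1‖ * ‖X 1 0‖ := by
    refine le_trans (norm_add_le _ _) ?_
    rw [norm_mul]
    apply add_le_add _ (le_refl _)
    refine le_trans (norm_sub_le _ _) ?_
    rw [norm_mul]
    apply add_le_add _ (le_refl _)
    refine le_trans (norm_sub_le _ _) ?_
    rw [norm_neg]
  have e3 := norm_sub_norm_le (1 : ℂ) (-(X 0 0) - X 1 1 - X 0 0 * X 1 1 + X 0 1 * X 1 0)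
  rw [norm_one] at e3
  have e4 : ‖X 0 0‖ * ‖X 1 1‖ ≤ ‖X 0 0‖ * (1 / 4) :=
    mul_le_mul_of_nonneg_left (by linarith) h0
  have e5 : ‖X 0 1‖ * ‖X 1 0‖ ≤ ‖X 0 1‖ * (1 / 4) :=
    mul_le_mul_of_nonneg_left (by linarith) h1
  linarith

theorem annExp_unit {X : Mat2} (hX : nm X ≤ 1 / 4) : IsUnit (1 + X).det := by
  rw [isUnit_iff_ne_zero]
  intro h
  have := annExp_det hX
  rw [h, norm_zero] at this
  norm_num at this

theorem annExp_inv_bound {X : Mat2} (hX : nm X ≤ 1 / 4) : nm ((1 + X)⁻¹) ≤ 5 := by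
  have hd := annExp_det hX
  rw [Matrix.inv_def, nm_smul, Ring.inverse_eq_inv', norm_inv, Matrix.adjugate_fin_two]
  have h1 : nm !![(1 + X) 1 1, -(1 + X) 0 1; -(1 + X) 1 0, (1 + X) 0 0] = nm (1 + X) := by
    unfold nm
    simp
    ring
  rw [h1]
  have h2 : nm (1 + X) ≤ 2 + 1 / 4 := by
    refine le_trans (nm_add _ _) ?_
    rw [nm_one]
    linarith
  have h3 : ‖(1 + X).det‖⁻¹ ≤ 2 := by
    rw [inv_le_comm₀ (by linarith) (by norm_num)]
    linarith
  calc ‖(1 + X).det‖⁻¹ * nm (1 + X) ≤ 2 * (2 + 1 / 4) :=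
        mul_le_mul h3 h2 (nm_nonneg _) (by norm_num)
    _ ≤ 5 := by norm_num

theorem annExp_eqn (R : Mat2) (e : ℂ) (hu : IsUnit (1 + e • R).det) :
    R * (1 + e • R)⁻¹ = R - e • (R * (1 + e • R)⁻¹ * R) := by
  have h1 : (1 + e • R) * (1 + e • R)⁻¹ = 1 := Matrix.mul_nonsing_inv _ hu
  have h2 : (1 + e • R)⁻¹ * (1 + e • R) = 1 := Matrix.nonsing_inv_mul _ hu
  have h3 : R * (1 + e • R)⁻¹ * (1 + e • R) = R := by rw [mul_assoc, h2, mul_one]
  rw [mul_add, mul_one, mul_smul_comm] at h3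
  exact eq_sub_of_add_eq h3

/-! ### Cut-offs and the reflection -/

theorem annExp_eta_le (δ : ℝ) (z : ℂ) : ‖(eta δ z : ℂ)‖ ≤ 1 := by
  rw [Complex.norm_real, Real.norm_eq_abs]
  unfold eta
  have h := rho_facts.2.1 (‖z - 1‖ ^ 2 / (3 * δ / 4) ^ 2)
  rw [abs_of_nonneg h.1]
  exact h.2

theorem annExp_eta_cont (δ : ℝ) : Continuous (fun z : ℂ => (eta δ z : ℂ)) := by
  apply Complex.continuous_ofReal.comp
  unfold eta
  apply rho_facts.1.continuous.comp
  fun_prop

theorem annExp_deta_cont (δ : ℝ) : Continuous (deta δ) := by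
  unfold deta
  have h1 : Continuous (deriv rho) := rho_facts.1.continuous_deriv (le_refl _)
  have h2 : Continuous (fun z : ℂ => deriv rho (‖z - 1‖ ^ 2 / (3 * δ / 4) ^ 2)) := by
    apply h1.comp
    fun_prop
  exact ((Complex.continuous_ofReal.comp h2).mul (by fun_prop)).div_const _

theorem annExp_deta_bound (δ : ℝ) : ∃ C : ℝ, 0 ≤ C ∧ ∀ z ∈ ann δ, ‖deta δ z‖ ≤ C := by
  obtain ⟨-, -, -, -, -, -, C, hC⟩ := rho_facts
  have hC0 : 0 ≤ C := le_trans (abs_nonneg _) (hC 0)
  refine ⟨C * |3 * δ / 4| / (3 * δ / 4) ^ 2, by positivity, fun z hz => ?_⟩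
  unfold deta
  rw [norm_div, norm_mul, norm_pow, Complex.norm_real, Complex.norm_real, Real.norm_eq_abs,
    Real.norm_eq_abs, sq_abs]
  apply div_le_div_of_nonneg_right _ (by positivity)
  exact mul_le_mul (hC _) (le_trans hz.2.2 (le_abs_self _)) (norm_nonneg _) hC0

theorem annExp_far {δ : ℝ} (hδ' : δ < 1 / 2) {z : ℂ} (hz : z ∈ ann δ) :
    3 * δ / 4 < ‖mc z - 1‖ := by
  rw [norm_mc_sub_one]
  have h1 : (2 : ℝ) ≤ ‖z + 1‖ + ‖z - 1‖ := by
    have h2 : ‖(z + 1) - (z - 1)‖ ≤ ‖z + 1‖ + ‖z - 1‖ := norm_sub_le _ _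
    have h3 : (z + 1) - (z - 1) = 2 := by ring
    rw [h3] at h2
    simpa using h2
  have := hz.2.2
  linarith

theorem annExp_t_ge {δ : ℝ} (hδ : 0 < δ) {z : ℂ} (h : 3 * δ / 4 < ‖z - 1‖) :
    1 ≤ ‖z - 1‖ ^ 2 / (3 * δ / 4) ^ 2 := by
  rw [le_div_iff₀ (by positivity), one_mul]
  exact pow_le_pow_left₀ (by positivity) h.le 2

theorem annExp_eta_zero {δ : ℝ} (hδ : 0 < δ) {z : ℂ} (h : 3 * δ / 4 < ‖z - 1‖) :
    eta δ z = 0 := by
  unfold eta
  exact rho_zero (annExp_t_ge hδ h)

theorem annExp_deta_zero {δ : ℝ} (hδ : 0 < δ) {z : ℂ} (h : 3 * δ / 4 < ‖z - 1‖) :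
    deta δ z = 0 := by
  unfold deta
  rw [drho_zero (annExp_t_ge hδ h)]
  simp

theorem annExp_refl_congr {X Y : ℂ → Mat2} {z : ℂ} (h : X (mc z) = Y (mc z)) :
    refl X z = refl Y z := by
  rw [refl_apply, refl_apply, h]

theorem annExp_refl_zero {X : ℂ → Mat2} {z : ℂ} (h : X (mc z) = 0) : refl X z = 0 := by
  rw [refl_apply, h]
  ext i j
  fin_cases i <;> fin_cases j <;> simp

theorem annExp_refl_sum {ι : Type*} (t : Finset ι) (X : ι → ℂ → Mat2) (z : ℂ) :
    refl (fun w => ∑ i ∈ t, X i w) z = ∑ i ∈ t, refl (X i) z := by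
  classical
  induction t using Finset.induction_on with
  | empty =>
    rw [Finset.sum_empty]
    exact annExp_refl_zero (by simp)
  | insert a s ha ih =>
    rw [Finset.sum_insert ha, ← ih, ← refl_add]
    apply annExp_refl_congr
    rw [Finset.sum_insert ha]

theorem annExp_mem_mc {δ : ℝ} {z : ℂ} (h : z ∈ Aset δ) (h2 : z ∉ ann δ) : mc z ∈ ann δ := by
  obtain ⟨hU, h3 | h3⟩ := h
  · exact absurd ⟨hU, h3⟩ h2
  · refine ⟨mc_mem hU, ?_⟩
    rw [norm_mc_sub_one]
    exact h3

theorem annExp_not_mem {δ : ℝ} {z : ℂ} (h : z ∉ Aset δ) : z ∉ ann δ ∧ mc z ∉ ann δ := by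
  constructor
  · intro h2
    exact h ⟨h2.1, Or.inl h2.2⟩
  · intro h2
    apply h
    have h3 := mc_mem h2.1
    rw [mc_mc] at h3
    have h4 := h2.2
    rw [norm_mc_sub_one] at h4
    exact ⟨h3, Or.inr h4⟩

theorem annExp_ann_meas (δ : ℝ) : MeasurableSet (ann δ) := by
  have h : ann δ = UH ∩ ({z : ℂ | δ / 2 ≤ ‖z - 1‖} ∩ {z : ℂ | ‖z - 1‖ ≤ 3 * δ / 4}) := by
    ext z
    rfl
  rw [h]
  have hc : Continuous (fun z : ℂ => ‖z - 1‖) := by fun_prop
  exact isOpen_UH.measurableSet.inter ((measurableSet_le measurable_const hc.measurable).inter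
    (measurableSet_le hc.measurable measurable_const))

open scoped Classical in
/-- Restriction to the right annulus. -/
noncomputable def annExp_cut (δ : ℝ) (X : ℂ → Mat2) (z : ℂ) : Mat2 :=
  if z ∈ ann δ then X z else 0

theorem annExp_cut_mem {δ : ℝ} {X : ℂ → Mat2} {z : ℂ} (h : z ∈ ann δ) :
    annExp_cut δ X z = X z := if_pos h

theorem annExp_cut_not {δ : ℝ} {X : ℂ → Mat2} {z : ℂ} (h : z ∉ ann δ) :
    annExp_cut δ X z = 0 := if_neg h

theorem annExp_cut_meas {δ : ℝ} {X : ℂ → Mat2} (hX : ContinuousOn X (ann δ)) (i j : Fin 2) :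
    Measurable (fun z => annExp_cut δ X z i j) := by
  classical
  have h1 : (fun z => annExp_cut δ X z i j) =
      (ann δ).piecewise (fun z => X z i j) (fun _ => 0) := by
    funext z
    by_cases hz : z ∈ ann δ
    · rw [annExp_cut_mem hz, Set.piecewise_eq_of_mem _ _ _ hz]
    · rw [annExp_cut_not hz, Set.piecewise_eq_of_notMem _ _ _ hz]
      rfl
  rw [h1]
  apply ContinuousOn.measurable_piecewise _ continuousOn_const (annExp_ann_meas δ)
  have h2 : Continuous (fun A : Mat2 => A i j) := by fun_prop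
  exact h2.comp_continuousOn hX

theorem annExp_refl_meas {X : ℂ → Mat2} (hX : ∀ i j, Measurable (fun z => X z i j))
    (i j : Fin 2) : Measurable (fun z => refl X z i j) := by
  have h1 : ∀ i j, Measurable (fun z => starRingEnd ℂ (X (mc z) i j)) := fun i j =>
    Complex.continuous_conj.measurable.comp ((hX i j).comp mc_continuous.measurable)
  have h2 : ∀ z, refl X z i j = (!![starRingEnd ℂ (X (mc z) 0 0), -(starRingEnd ℂ (X (mc z) 0 1));
      -(starRingEnd ℂ (X (mc z) 1 0)), starRingEnd ℂ (X (mc z) 1 1)] : Mat2) i j := fun z => by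
    rw [refl_apply]
  simp only [h2]
  fin_cases i <;> fin_cases j <;> simp
  · exact h1 0 0
  · exact h1 0 1
  · exact h1 1 0
  · exact h1 1 1

/-- The annular source term in terms of the right annulus only. -/
theorem annExp_Wann {α δ y0 : ℝ} {m : ℂ → ℂ} {n : ℕ} (hδ : 0 < δ) (hδ' : δ < 1 / 2)
    (hs : ∀ z ∈ ann δ, nm (Xrat α n y0 m z - 1) ≤ 1 / 4) {z : ℂ} (hz : z ∈ Aset δ) :
    Wann α y0 δ m n z =
      annExp_cut δ (fun z => -(deta δ z • ((Xrat α n y0 m z - 1) *
        (1 + (eta δ z : ℂ) • (Xrat α n y0 m z - 1))⁻¹))) z -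
      refl (annExp_cut δ (fun z => -(deta δ z • ((Xrat α n y0 m z - 1) *
        (1 + (eta δ z : ℂ) • (Xrat α n y0 m z - 1))⁻¹)))) z := by
  unfold Wann
  rw [if_pos hz]
  unfold Ymat
  by_cases h1 : z ∈ ann δ
  · have hfar := annExp_far hδ' h1
    have hmc : mc z ∉ ann δ := fun h => absurd h.2.2 (not_le.2 hfar)
    have e1 : refl (dX1 α n y0 δ m) z = 0 := by
      apply annExp_refl_zero
      unfold dX1
      rw [annExp_deta_zero hδ hfar, zero_smul]
    have e2 : refl (X1 α n y0 δ m) z = 0 := by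
      apply annExp_refl_zero
      unfold X1
      rw [annExp_eta_zero hδ hfar]
      simp
    rw [e1, e2, annExp_cut_mem h1, annExp_refl_zero (annExp_cut_not hmc)]
    unfold dX1 X1
    rw [zero_sub, add_zero, sub_zero, neg_mul, smul_mul_assoc]
  · have h2 := annExp_mem_mc hz h1
    have hfar := annExp_far hδ' h2
    rw [mc_mc] at hfar
    have e1 : dX1 α n y0 δ m z = 0 := by
      unfold dX1
      rw [annExp_deta_zero hδ hfar, zero_smul]
    have e2 : X1 α n y0 δ m z = 0 := by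
      unfold X1
      rw [annExp_eta_zero hδ hfar]
      simp
    have hnm : nm (X1 α n y0 δ m (mc z)) ≤ 1 / 4 := by
      unfold X1
      rw [nm_smul]
      calc ‖(eta δ (mc z) : ℂ)‖ * nm (Xrat α n y0 m (mc z) - 1)
          ≤ 1 * nm (Xrat α n y0 m (mc z) - 1) :=
            mul_le_mul_of_nonneg_right (annExp_eta_le δ _) (nm_nonneg _)
        _ ≤ 1 / 4 := by rw [one_mul]; exact hs _ h2
    have hu := annExp_unit hnm
    have e3 : (1 + refl (X1 α n y0 δ m) z)⁻¹ =
        refl (fun w => (1 + X1 α n y0 δ m w)⁻¹) z := by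
      apply Matrix.inv_eq_right_inv
      have e4 : 1 + refl (X1 α n y0 δ m) z = refl (fun w => 1 + X1 α n y0 δ m w) z := by
        rw [refl_add, refl_one]
      rw [e4, ← refl_mul]
      have e5 : refl (fun w => (1 + X1 α n y0 δ m w) * (1 + X1 α n y0 δ m w)⁻¹) z =
          refl (fun _ => (1 : Mat2)) z := by
        apply annExp_refl_congr
        exact Matrix.mul_nonsing_inv _ hu
      rw [e5, refl_one]
    rw [e1, e2, annExp_cut_not h1, sub_zero, add_zero, zero_sub, e3, ← refl_mul]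
    have e6 : refl (annExp_cut δ (fun z => -(deta δ z • ((Xrat α n y0 m z - 1) *
        (1 + (eta δ z : ℂ) • (Xrat α n y0 m z - 1))⁻¹)))) z =
        refl (fun w => (fun _ => (0 : Mat2)) w -
          dX1 α n y0 δ m w * (1 + X1 α n y0 δ m w)⁻¹) z := by
      apply annExp_refl_congr
      rw [annExp_cut_mem h2]
      unfold dX1 X1
      rw [zero_sub, smul_mul_assoc]
    rw [e6, refl_sub, annExp_refl_zero (X := fun _ => (0 : Mat2)) rfl, zero_sub, neg_neg]

theorem Wann_expansion (α δ y0 c m1 : ℝ) (m : ℂ → ℂ) (hδ : 0 < δ) (hδ' : δ < 1 / 2)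
    (hG : Geo α δ y0 c) (hL : LocMap α δ m1 m) (x : ℕ → ℂ → Mat2)
    (hx : ∀ k, ContinuousOn (x k) (ann δ)) (hx' : ∀ k, ∃ C : ℝ, ∀ z ∈ ann δ, nm (x k z) ≤ C)
    (hX : ∀ K : ℕ, ∃ C : ℝ, ∀ n : ℕ, 1 ≤ n → ∀ z ∈ ann δ,
          nm (Xrat α n y0 m z - 1 - ∑ k ∈ Finset.range K, (((n : ℂ) ^ (k + 1))⁻¹) • x k z)
            ≤ C / n ^ (K + 1)) :
    ∃ (n0 : ℕ) (w : ℕ → ℂ → Mat2), 1 ≤ n0 ∧
      (∀ n, n0 ≤ n → ∀ z ∈ ann δ, nm (Xrat α n y0 m z - 1) ≤ 1 / 4) ∧
      (∀ k i j, Measurable (fun s => w k s i j)) ∧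
      (∀ k s, s ∉ Aset δ → w k s = 0) ∧
      (∀ k, ∃ B : ℝ, ∀ s ∈ Aset δ, nm (w k s) ≤ B) ∧
      (∀ K : ℕ, ∃ B : ℝ, ∀ n, n0 ≤ n → ∀ s ∈ Aset δ,
        nm (Wann α y0 δ m n s - ∑ k ∈ Finset.range K, (((n : ℂ) ^ (k + 1))⁻¹) • w k s)
          ≤ B / n ^ (K + 1)) := by
  -- the threshold
  obtain ⟨C0, hC0⟩ := hX 0
  obtain ⟨N, hN⟩ := exists_nat_ge (4 * |C0|)
  set n0 : ℕ := max 1 N with hn0
  have hn01 : 1 ≤ n0 := le_max_left _ _
  have hsmall : ∀ n, n0 ≤ n → ∀ z ∈ ann δ, nm (Xrat α n y0 m z - 1) ≤ 1 / 4 := by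
    intro n hn z hz
    have h1 := hC0 n (le_trans hn01 hn) z hz
    simp only [Finset.range_zero, Finset.sum_empty, sub_zero, zero_add, pow_one] at h1
    refine le_trans h1 ?_
    have h2 : (N : ℝ) ≤ n := by exact_mod_cast le_trans (le_max_right _ _) hn
    have h3 : (0 : ℝ) < n := by
      have : 0 < n := by omega
      exact_mod_cast this
    rw [div_le_iff₀ h3]
    have h4 := le_abs_self C0
    linarith
  set e : ℂ → ℂ := fun z => (eta δ z : ℂ) with he
  set R : ℕ → ℂ → Mat2 := fun n z => Xrat α n y0 m z - 1 with hRdef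
  set F : ℕ → ℂ → Mat2 := fun n z => R n z * (1 + e z • R n z)⁻¹ with hFdef
  set f : ℕ → ℂ → Mat2 := fun k z => annExp_f (fun k => x k z) (e z) k with hfdef
  have hele : ∀ z, ‖e z‖ ≤ 1 := annExp_eta_le δ
  have heR : ∀ n, n0 ≤ n → ∀ z ∈ ann δ, nm (e z • R n z) ≤ 1 / 4 := by
    intro n hn z hz
    rw [nm_smul]
    calc ‖e z‖ * nm (R n z) ≤ 1 * nm (R n z) :=
          mul_le_mul_of_nonneg_right (hele z) (nm_nonneg _)
      _ ≤ 1 / 4 := by rw [one_mul]; exact hsmall n hn z hz
  have hRexp : ∀ K : ℕ, ∃ C : ℝ, ∀ n : ℕ, n0 ≤ n → ∀ z ∈ ann δ,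
      nm (R n z - ∑ k ∈ Finset.range K, annExp_u n k • x k z) ≤ C / (n : ℝ) ^ (K + 1) := by
    intro K
    obtain ⟨C, hC⟩ := hX K
    exact ⟨C, fun n hn z hz => hC n (le_trans hn01 hn) z hz⟩
  have hF0 : ∃ C : ℝ, ∀ n : ℕ, n0 ≤ n → ∀ z ∈ ann δ, nm (F n z) ≤ C / (n : ℝ) := by
    refine ⟨C0 * 5, fun n hn z hz => ?_⟩
    have h1 := hC0 n (le_trans hn01 hn) z hz
    simp only [Finset.range_zero, Finset.sum_empty, sub_zero, zero_add, pow_one] at h1
    refine le_trans (nm_mul _ _) ?_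
    have h2 := annExp_inv_bound (heR n hn z hz)
    calc nm (R n z) * nm ((1 + e z • R n z)⁻¹) ≤ (C0 / n) * 5 :=
          mul_le_mul h1 h2 (nm_nonneg _) (le_trans (nm_nonneg _) h1)
      _ = C0 * 5 / n := by ring
  have hFeq : ∀ n : ℕ, n0 ≤ n → ∀ z ∈ ann δ, F n z = R n z - e z • (F n z * R n z) :=
    fun n hn z hz => annExp_eqn _ _ (annExp_unit (heR n hn z hz))
  have hFexp := annExp_main (F := F) hx' hele hn01 hRexp hF0 hFeq
  have hfcont : ∀ k, ContinuousOn (f k) (ann δ) := annExp_f_cont hx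
    (annExp_eta_cont δ).continuousOn
  obtain hfbd := annExp_f_bound hx' hele
  obtain ⟨Cd, hCd0, hCd⟩ := annExp_deta_bound δ
  set v : ℕ → ℂ → Mat2 := fun k => annExp_cut δ (fun z => -(deta δ z • f k z)) with hv
  have hvcont : ∀ k, ContinuousOn (fun z => -(deta δ z • f k z)) (ann δ) := fun k =>
    ((annExp_deta_cont δ).continuousOn.smul (hfcont k)).neg
  have hvmeas : ∀ k i j, Measurable (fun z => v k z i j) := fun k i j =>
    annExp_cut_meas (hvcont k) i j
  refine ⟨n0, fun k z => v k z - refl (v k) z, hn01, hsmall, ?_, ?_, ?_, ?_⟩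
  · intro k i j
    exact (hvmeas k i j).sub (annExp_refl_meas (hvmeas k) i j)
  · intro k s hs
    obtain ⟨h1, h2⟩ := annExp_not_mem hs
    show v k s - refl (v k) s = 0
    rw [hv]
    simp only
    rw [annExp_cut_not h1, annExp_refl_zero (annExp_cut_not h2), sub_zero]
  · intro k
    obtain ⟨B, hB⟩ := hfbd k
    have hvb : ∀ z, nm (v k z) ≤ Cd * |B| := by
      intro z
      by_cases hz : z ∈ ann δ
      · have e1 : v k z = -(deta δ z • f k z) := annExp_cut_mem hz
        rw [e1, nm_neg, nm_smul]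
        exact mul_le_mul (hCd z hz) (le_trans (hB z hz) (le_abs_self _)) (nm_nonneg _) hCd0
      · have e1 : v k z = 0 := annExp_cut_not hz
        rw [e1, nm_zero]
        positivity
    refine ⟨Cd * |B| + Cd * |B|, fun s _ => ?_⟩
    refine le_trans (nm_sub _ _) (add_le_add (hvb s) ?_)
    rw [nm_refl]
    exact hvb _
  · intro K
    obtain ⟨B, hB⟩ := hFexp K
    refine ⟨Cd * |B| + Cd * |B|, fun n hn s hs => ?_⟩
    have hnpos : (0 : ℝ) < n := by
      have : 0 < n := by omega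
      exact_mod_cast this
    set Vn : ℂ → Mat2 := annExp_cut δ (fun z => -(deta δ z • F n z)) with hVn
    have hW : Wann α y0 δ m n s = Vn s - refl Vn s :=
      annExp_Wann hδ hδ' (fun z hz => hsmall n hn z hz) hs
    set D : ℂ → Mat2 := fun z => Vn z - ∑ k ∈ Finset.range K, annExp_u n k • v k z with hD
    have hDb : ∀ z, nm (D z) ≤ Cd * |B| / (n : ℝ) ^ (K + 1) := by
      intro z
      by_cases hz : z ∈ ann δ
      · have e1 : D z = -(deta δ z • (F n z - ∑ k ∈ Finset.range K, annExp_u n k • f k z)) := by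
          have e2 : Vn z = -(deta δ z • F n z) := annExp_cut_mem hz
          have e3 : ∀ k, v k z = -(deta δ z • f k z) := fun k => annExp_cut_mem hz
          show Vn z - ∑ k ∈ Finset.range K, annExp_u n k • v k z = _
          rw [e2, smul_sub, Finset.smul_sum, neg_sub, sub_eq_add_neg, neg_add_eq_sub]
          rw [← Finset.sum_neg_distrib]
          congr 1
          apply Finset.sum_congr rfl
          intro k _
          rw [e3, smul_neg, neg_neg, smul_comm]
        rw [e1, nm_neg, nm_smul]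
        have h5 := hB n hn z hz
        calc ‖deta δ z‖ * nm (F n z - ∑ k ∈ Finset.range K, annExp_u n k • f k z)
            ≤ Cd * (|B| / (n : ℝ) ^ (K + 1)) :=
              mul_le_mul (hCd z hz) (le_trans h5 (div_le_div_of_nonneg_right (le_abs_self B)
                (by positivity))) (nm_nonneg _) hCd0
          _ = Cd * |B| / (n : ℝ) ^ (K + 1) := by ring
      · have e1 : D z = 0 := by
          have e2 : Vn z = 0 := annExp_cut_not hz
          have e3 : ∀ k, v k z = 0 := fun k => annExp_cut_not hz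
          show Vn z - ∑ k ∈ Finset.range K, annExp_u n k • v k z = _
          rw [e2]
          simp [e3]
        rw [e1, nm_zero]
        positivity
    have hconj : ∀ k, starRingEnd ℂ (annExp_u n k) = annExp_u n k := by
      intro k
      unfold annExp_u
      simp
    have hrD : refl D s = refl Vn s - ∑ k ∈ Finset.range K, annExp_u n k • refl (v k) s := by
      rw [hD, refl_sub, annExp_refl_sum]
      congr 1
      apply Finset.sum_congr rfl
      intro k _
      rw [refl_smul (fun _ => annExp_u n k), hconj]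
    have hfin : Wann α y0 δ m n s - ∑ k ∈ Finset.range K, (((n : ℂ) ^ (k + 1))⁻¹) •
        (v k s - refl (v k) s) = D s - refl D s := by
      rw [hW, hrD]
      show _ = (Vn s - ∑ k ∈ Finset.range K, annExp_u n k • v k s) - _
      have e5 : ∑ k ∈ Finset.range K, (((n : ℂ) ^ (k + 1))⁻¹) • (v k s - refl (v k) s) =
          ∑ k ∈ Finset.range K, annExp_u n k • v k s -
            ∑ k ∈ Finset.range K, annExp_u n k • refl (v k) s := by
        rw [← Finset.sum_sub_distrib]
        apply Finset.sum_congr rfl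
        intro k _
        rw [smul_sub]
        rfl
      rw [e5]
      abel
    rw [hfin, add_div]
    refine le_trans (nm_sub _ _) (add_le_add (hDb s) ?_)
    rw [nm_refl]
    exact hDb _

end Pool.Agent.Freud
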