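import Pool.Agent.Freud.Defs

/-!
Shared structures for the recurrence coefficient project; see BLUEPRINT.md.
-/

set_option autoImplicit false

open MeasureTheory Filter Topology Asymptotics

namespace Pool.Agent.Freud

/-- `f` is continuously differentiable with derivative `f'` and both decay. -/
structure Dec (f f' : ℝ → ℝ) : Prop where
  deriv : ∀ x, HasDerivAt f (f' x) x
  cont : Continuous f'
  bound : ∃ C, ∀ x, |f x| ≤ C / (1 + x ^ 2) ^ 2 ∧ |f' x| ≤ C / (1 + x ^ 2) ^ 2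

/-- Geometric estimates for the phase functions near the real axis. -/
structure Geo (α δ y0 c : ℝ) : Prop where
  y0_pos : 0 < y0
  y0_le : y0 ≤ δ / 8
  c_pos : 0 < c
  mid : ∀ z ∈ UH, z.im ≤ y0 → |z.re| ≤ 1 - δ / 4 → ell α / 2 + c * z.im ≤ (gfun α z).re
  right : ∀ z ∈ UH, z.im ≤ y0 → -z.im ≤ z.re → z.re ≤ 1 - δ / 4 → c * z.im ≤ (xiR α z).re
  left : ∀ z ∈ UH, z.im ≤ y0 → z.re ≤ z.im → -(1 - δ / 4) ≤ z.re → c * z.im ≤ (xiL α z).re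
  outR : ∀ z ∈ UH, z.im ≤ y0 → 1 + δ / 4 ≤ z.re → (xiR α z).re ≤ -(c * z.re)
  outL : ∀ z ∈ UH, z.im ≤ y0 → z.re ≤ -(1 + δ / 4) → (xiL α z).re ≤ c * z.re

/-- Half of the conjectured coefficient. -/
noncomputable def bco (α : ℝ) : ℝ :=
  kap α * Real.sin (Real.pi * α / 2) * Real.Gamma (α + 1) *
    ((α - 1) / (2 * α)) ^ (α + 1) / Real.pi

/-- The analytic output of the steepest descent analysis. -/
structure Asm (α y0 r c C : ℝ) (n0 : ℕ) (A : Set ℂ) (w : ℕ → ℂ → Mat2)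
    (We Wx : ℕ → ℂ → Mat2) : Prop where
  y0_pos : 0 < y0
  r_pos : 0 < r
  c_pos : 0 < c
  n0_pos : 1 ≤ n0
  A_meas : MeasurableSet A
  A_sub : A ⊆ UH
  A_loc : ∀ s ∈ A, r ≤ ‖s‖ ∧ ‖s‖ ≤ 2
  w_meas : ∀ k i j, Measurable (fun s => w k s i j)
  w_supp : ∀ k s, s ∉ A → w k s = 0
  w_bd : ∀ k, ∃ B : ℝ, ∀ s ∈ A, nm (w k s) ≤ B
  We_cont : ∀ n, n0 ≤ n → ContinuousOn (We n) UH
  We_supp : ∀ n s, s ∉ A → We n s = 0
  We_exp : ∀ K : ℕ, ∃ B : ℝ, ∀ n, n0 ≤ n → ∀ s ∈ A,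
    nm (We n s - ∑ k ∈ Finset.range K, (((n : ℂ) ^ (k + 1))⁻¹) • w k s) ≤ B / n ^ (K + 1)
  Wx_cont : ∀ n, n0 ≤ n → ContinuousOn (Wx n) UH
  Wx_bd : ∀ n, n0 ≤ n → ∀ s ∈ UH, nm (Wx n s) ≤ C * Real.exp (-(c * n)) * Real.exp (-(c * ‖s‖))
  W0_cont : ∀ n, ContinuousOn (W0 α n y0) UH
  W0_bd : ∀ n, 1 ≤ n → ∀ s ∈ UH,
    nm (W0 α n y0 s) ≤ C * n * ‖s‖ ^ (α - 1) * Real.exp (-(c * n * ‖s‖))
  sol : ∀ n, n0 ≤ n → ∀ (P Q : Polynomial ℝ) (hP hQ : ℝ), OPData α n P Q hP hQ →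
    ∃ R : ℂ → Mat2, ContinuousOn R UH ∧ (∃ B : ℝ, ∀ z ∈ UH, nm (R z) ≤ B) ∧
      (∀ z ∈ UH, R z = 1 + KK (fun s => R s * (We n s + W0 α n y0 s + Wx n s)) z) ∧
      hP / hQ =
        (1 / 2 + (2 / Real.pi) * (IU (fun s => R s * (We n s + W0 α n y0 s + Wx n s)) 0 1).re) *
        (1 / 2 + (2 / Real.pi) * (IU (fun s => R s * (We n s + W0 α n y0 s + Wx n s)) 1 0).re)

/-- `p` are the orthonormal polynomials with positive leading coefficients for the weight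
`exp (-|x|^α)` and `a` their recurrence coefficients. -/
structure IsFreud (α : ℝ) (p : ℕ → Polynomial ℝ) (a : ℕ → ℝ) : Prop where
  deg : ∀ n, (p n).natDegree = n
  lead : ∀ n, 0 < (p n).leadingCoeff
  orth : ∀ m n, ∫ x : ℝ, (p m).eval x * (p n).eval x * Real.exp (-(|x| ^ α)) =
    if m = n then 1 else 0
  rec0 : Polynomial.X * p 0 = Polynomial.C (a 1) * p 1
  rec1 : ∀ n, 1 ≤ n →
    Polynomial.X * p n = Polynomial.C (a (n + 1)) * p (n + 1) + Polynomial.C (a n) * p (n - 1)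

/-- The Freud constant. -/
noncomputable def Cfreud (α : ℝ) : ℝ :=
  2 ^ α * Real.Gamma ((α + 1) / 2) / (√Real.pi * Real.Gamma (α / 2))

/-- The normalised recurrence coefficients. -/
noncomputable def rfreud (α : ℝ) (a : ℕ → ℝ) (n : ℕ) : ℝ := a n * (Cfreud α / n) ^ (1 / α)

/-- `r` has an expansion of form (E) (with `N`, `M` the possibly infinite numbers of terms). -/
def ExpE (r : ℕ → ℝ) : Prop :=
  ∃ (N M : ℕ∞) (i j A B : ℕ → ℝ), 0 < N ∧ i 0 = 0 ∧ A 0 = 1 ∧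
    (∀ k l : ℕ, k < l → (l : ℕ∞) < N → i k < i l) ∧
    (∀ k l : ℕ, k < l → (l : ℕ∞) < M → j k < j l) ∧
    (N = ⊤ → Tendsto i atTop atTop) ∧ (M = ⊤ → Tendsto j atTop atTop) ∧
    ∀ T : ℝ, 0 < T → (fun n : ℕ => r n
      - (∑ᶠ k ∈ {k : ℕ | (k : ℕ∞) < N ∧ i k ≤ T}, A k * (n : ℝ) ^ (-(i k)))
      - (-1) ^ n * ∑ᶠ k ∈ {k : ℕ | (k : ℕ∞) < M ∧ j k ≤ T}, B k * (n : ℝ) ^ (-(j k)))
        =o[atTop] (fun n : ℕ => (n : ℝ) ^ (-T))

end Pool.Agent.Freud
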