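import Mathlib
import Pool.Agent.Freud.Defs2

/-!
Base lemmas for the zero part (FR-Z1, FR-Z2) of MP_6cbd85_an: the kernel `ztau`, integrals over the
upper half plane, and the exact integral of `z^a exp (i l z) dbar tau`.
-/

set_option autoImplicit false

open MeasureTheory Filter Topology Asymptotics Set

namespace Pool.Agent.Freud

/-! ### the upper half plane -/

theorem zb_isOpen_UH : IsOpen UH := isOpen_lt continuous_const Complex.continuous_im

theorem zb_meas_UH : MeasurableSet UH := zb_isOpen_UH.measurableSet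

theorem zb_slit {z : ℂ} (hz : z ∈ UH) : z ∈ Complex.slitPlane :=
  Or.inr (ne_of_gt hz)

theorem zb_slit_neg {z : ℂ} (hz : z ∈ UH) : -z ∈ Complex.slitPlane := by
  right
  have : 0 < z.im := hz
  simp only [Complex.neg_im]
  linarith

theorem zb_ne_zero {z : ℂ} (hz : z ∈ UH) : z ≠ 0 := Complex.slitPlane_ne_zero (zb_slit hz)

/-! ### the transition function -/

theorem zb_tau_contDiff : ContDiff ℝ 1 tau := by
  unfold tau
  exact (Real.smoothTransition.contDiff (n := 1)).comp (by fun_prop)

theorem zb_tau_one {t : ℝ} (h : 1 ≤ t) : tau t = 1 :=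
  Real.smoothTransition.one_of_one_le (by linarith)

theorem zb_tau_zero {t : ℝ} (h : t ≤ -1) : tau t = 0 :=
  Real.smoothTransition.zero_of_nonpos (by linarith)

theorem zb_dtau_zero {t : ℝ} (h : 1 ≤ |t|) : deriv tau t = 0 := by
  rcases le_abs.mp h with h | h
  · apply IsLocalMax.deriv_eq_zero
    refine Eventually.of_forall fun s => ?_
    rw [zb_tau_one h]
    exact Real.smoothTransition.le_one _
  · apply IsLocalMin.deriv_eq_zero
    refine Eventually.of_forall fun s => ?_
    rw [zb_tau_zero (by linarith)]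
    exact Real.smoothTransition.nonneg _

theorem zb_dtau_cont : Continuous (deriv tau) := zb_tau_contDiff.continuous_deriv (by norm_num)

theorem zb_dtau_cpt : HasCompactSupport (deriv tau) := by
  refine HasCompactSupport.intro (isCompact_Icc (a := (-1 : ℝ)) (b := 1)) fun t ht => ?_
  apply zb_dtau_zero
  by_contra hc
  push Not at hc
  rw [abs_lt] at hc
  exact ht ⟨hc.1.le, hc.2.le⟩

theorem zb_dtau_bd : ∃ C : ℝ, 0 < C ∧ ∀ t, |deriv tau t| ≤ C := by
  obtain ⟨C, hC⟩ := zb_dtau_cpt.exists_bound_of_continuous zb_dtau_cont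
  refine ⟨|C| + 1, by positivity, fun t => ?_⟩
  have := hC t
  rw [Real.norm_eq_abs] at this
  linarith [le_abs_self C]

theorem zb_dtau_int : Integrable (deriv tau) :=
  zb_dtau_cont.integrable_of_hasCompactSupport zb_dtau_cpt

theorem zb_integral_dtau : ∫ t, deriv tau t = 1 := by
  have h1 : ∫ t, deriv tau t = ∫ t in (-1 : ℝ)..1, deriv tau t := by
    rw [intervalIntegral.integral_of_le (by norm_num)]
    symm
    apply setIntegral_eq_integral_of_forall_compl_eq_zero
    intro t ht
    apply zb_dtau_zero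
    by_contra hc
    push Not at hc
    rw [abs_lt] at hc
    exact ht ⟨hc.1, hc.2.le⟩
  rw [h1, intervalIntegral.integral_deriv_eq_sub
    (fun t _ => (zb_tau_contDiff.differentiable (by norm_num)) t)
    (zb_dtau_cont.intervalIntegrable _ _), zb_tau_one le_rfl, zb_tau_zero le_rfl]
  norm_num

/-! ### the kernel -/

/-- The dbar derivative of `tau (x / y)`. -/
noncomputable def ztau (z : ℂ) : ℂ :=
  -(Complex.I / 2) * ((deriv tau (z.re / z.im) : ℝ) : ℂ) * z / (z.im : ℂ) ^ 2

theorem ztau_zero {z : ℂ} (hz : z ∈ UH) (h : z.im ≤ |z.re|) : ztau z = 0 := by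
  have hy : 0 < z.im := hz
  unfold ztau
  rw [zb_dtau_zero]
  · simp
  · rw [abs_div, abs_of_pos hy, le_div_iff₀ hy]; linarith

theorem zb_norm_le {z : ℂ} (hz : z ∈ UH) (h : |z.re| ≤ z.im) : ‖z‖ ≤ 2 * z.im := by
  have := Complex.norm_le_abs_re_add_abs_im z
  have hy : 0 < z.im := hz
  rw [abs_of_pos hy] at this
  linarith

theorem ztau_bd : ∃ C : ℝ, 0 < C ∧ ∀ z ∈ UH, ‖ztau z‖ ≤ C / ‖z‖ := by
  obtain ⟨C, hC, h⟩ := zb_dtau_bd
  refine ⟨2 * C, by positivity, fun z hz => ?_⟩
  have hy : 0 < z.im := hz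
  have hn : 0 < ‖z‖ := norm_pos_iff.mpr (zb_ne_zero hz)
  rcases le_total z.im |z.re| with h1 | h1
  · rw [ztau_zero hz h1, norm_zero]; positivity
  · have h2 := zb_norm_le hz h1
    have e : ‖ztau z‖ = |deriv tau (z.re / z.im)| * ‖z‖ / (2 * z.im ^ 2) := by
      unfold ztau
      rw [norm_div, norm_mul, norm_mul, norm_neg, norm_div, Complex.norm_I, norm_pow,
        Complex.norm_real, Complex.norm_real, Real.norm_eq_abs, Real.norm_eq_abs, abs_of_pos hy]
      simp
      field_simp
    rw [e, div_le_div_iff₀ (by positivity) hn]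
    have h3 := h (z.re / z.im)
    have h4 : ‖z‖ * ‖z‖ ≤ (2 * z.im) * (2 * z.im) :=
      mul_le_mul h2 h2 hn.le (by positivity)
    calc |deriv tau (z.re / z.im)| * ‖z‖ * ‖z‖ ≤ C * ((2 * z.im) * (2 * z.im)) := by
          rw [mul_assoc]
          exact mul_le_mul h3 h4 (by positivity) hC.le
      _ = 2 * C * (2 * z.im ^ 2) := by ring

theorem ztau_cont : ContinuousOn ztau UH := by
  unfold ztau
  have h1 : ContinuousOn (fun z : ℂ => deriv tau (z.re / z.im)) UH := by
    refine zb_dtau_cont.comp_continuousOn ?_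
    exact Complex.continuous_re.continuousOn.div Complex.continuous_im.continuousOn
      fun z hz => ne_of_gt hz
  have h2 : ContinuousOn (fun z : ℂ => ((deriv tau (z.re / z.im) : ℝ) : ℂ)) UH :=
    Complex.continuous_ofReal.comp_continuousOn h1
  refine ((continuousOn_const.mul h2).mul continuousOn_id).div ?_ ?_
  · exact ((Complex.continuous_ofReal.comp Complex.continuous_im).pow 2).continuousOn
  · intro z hz
    have : (z.im : ℂ) ≠ 0 := by
      exact_mod_cast ne_of_gt (show 0 < z.im from hz)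
    positivity

/-! ### integrals of radial majorants -/

theorem zb_int_radial {q b : ℝ} (hq : -2 < q) (hb : 0 < b) :
    Integrable (fun z : ℂ => ‖z‖ ^ q * Real.exp (-b * ‖z‖)) ∧
      ∫ z : ℂ, ‖z‖ ^ q * Real.exp (-b * ‖z‖) = 2 * Real.pi * Real.Gamma (q + 2) * b ^ (-(q + 2)) := by
  have h := Complex.integral_rpow_mul_exp_neg_mul_rpow (p := 1) (q := q) (b := b) le_rfl hq hb
  simp only [Real.rpow_one, div_one] at h
  have hpos : 0 < 2 * Real.pi * b ^ (-(q + 2)) * Real.Gamma (q + 2) := by
    have := Real.Gamma_pos_of_pos (show 0 < q + 2 by linarith)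
    positivity
  constructor
  · by_contra hc
    rw [integral_undef hc] at h
    linarith
  · rw [h]; ring

theorem zb_int_UH {q b : ℝ} (hq : -2 < q) (hb : 0 < b) :
    ∫ z in UH, ‖z‖ ^ q * Real.exp (-b * ‖z‖) ≤ 2 * Real.pi * Real.Gamma (q + 2) * b ^ (-(q + 2)) := by
  obtain ⟨h1, h2⟩ := zb_int_radial hq hb
  rw [← h2]
  exact setIntegral_le_integral h1 (Eventually.of_forall fun z => by positivity)

end Pool.Agent.Freud
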