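import Mathlib
import Pool.Agent.Freud.ZeroBase

/-!
The exact integral `∫_UH z^a exp (i l z) dbar tau dA` (FR-Z1, FR-Z2) of MP_6cbd85_an.
-/

set_option autoImplicit false

open MeasureTheory Filter Topology Asymptotics Set

namespace Pool.Agent.Freud

/-! ### Fubini -/

theorem zi_fubini {F : ℂ → ℂ} (hF : IntegrableOn F UH) :
    ∫ z in UH, F z = ∫ y in Ioi (0 : ℝ), ∫ x : ℝ, F (⟨x, y⟩ : ℂ) := by
  have hmp := Complex.volume_preserving_equiv_real_prod.symm
  have hme := Complex.measurableEquivRealProd.symm.measurableEmbedding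
  have hpre : Complex.measurableEquivRealProd.symm ⁻¹' UH = univ ×ˢ Ioi (0 : ℝ) := by
    ext p
    simp [UH]
  have h1 := hmp.setIntegral_preimage_emb hme F UH
  rw [hpre] at h1
  rw [← h1]
  have hi : IntegrableOn (fun p : ℝ × ℝ => F (Complex.measurableEquivRealProd.symm p))
      (univ ×ˢ Ioi (0 : ℝ)) := by
    have := (hmp.integrableOn_comp_preimage hme (f := F) (s := UH)).mpr hF
    rw [hpre] at this
    exact this
  rw [IntegrableOn, Measure.volume_eq_prod, ← Measure.prod_restrict, Measure.restrict_univ] at hi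
  rw [Measure.volume_eq_prod, ← Measure.prod_restrict, Measure.restrict_univ,
    integral_prod_symm _ hi]
  rfl

/-- substitution `x = t y` -/
theorem zi_fubini_scaled {F : ℂ → ℂ} (hF : IntegrableOn F UH) :
    ∫ z in UH, F z = ∫ y in Ioi (0 : ℝ), ∫ t : ℝ, (y : ℂ) * F ((y : ℂ) * (t + Complex.I)) := by
  rw [zi_fubini hF]
  refine setIntegral_congr_fun measurableSet_Ioi fun y hy => ?_
  have hy' : (0 : ℝ) < y := hy
  have h := Measure.integral_comp_mul_right (fun x : ℝ => F (⟨x, y⟩ : ℂ)) y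
  have e : ∀ t : ℝ, (⟨t * y, y⟩ : ℂ) = (y : ℂ) * (t + Complex.I) := by
    intro t
    apply Complex.ext <;> simp [mul_comm]
  simp only [e] at h
  show ∫ x : ℝ, F (⟨x, y⟩ : ℂ) = _
  rw [integral_const_mul, h, abs_of_pos (inv_pos.mpr hy'), Complex.real_smul, ← mul_assoc]
  push_cast
  rw [mul_inv_cancel₀ (by exact_mod_cast hy'.ne'), one_mul]

theorem zi_ofReal {X : Type*} [MeasurableSpace X] (μ : Measure X) (f : X → ℝ) :
    ∫ x, ((f x : ℝ) : ℂ) ∂μ = ((∫ x, f x ∂μ : ℝ) : ℂ) := integral_ofReal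

/-! ### contour rotation -/

noncomputable def ziK (a l : ℝ) (w : ℂ) (y : ℝ) : ℂ :=
  (w + Complex.I) ^ ((a + 1 : ℝ) : ℂ) * ((y ^ a : ℝ) : ℂ) *
    Complex.exp (Complex.I * l * (w + Complex.I) * y)

noncomputable def ziK' (a l : ℝ) (w : ℂ) (y : ℝ) : ℂ :=
  (w + Complex.I) ^ (a : ℂ) * ((y ^ a : ℝ) : ℂ) *
    Complex.exp (Complex.I * l * (w + Complex.I) * y) * ((a + 1) + Complex.I * l * (w + Complex.I) * y)

theorem zi_slit (t : ℝ) : (t : ℂ) + Complex.I ∈ Complex.slitPlane := by
  right; simp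

theorem zi_K_deriv (a l : ℝ) (y t : ℝ) :
    HasDerivAt (fun s : ℝ => ziK a l s y) (ziK' a l t y) t := by
  have h1 : HasDerivAt (fun w : ℂ => w + Complex.I) 1 (t : ℂ) :=
    (hasDerivAt_id (t : ℂ)).add_const Complex.I
  have h2 := h1.cpow_const (c := ((a + 1 : ℝ) : ℂ)) (zi_slit t)
  have h3 : HasDerivAt (fun w : ℂ => Complex.I * l * (w + Complex.I) * y) (Complex.I * l * 1 * y)
      (t : ℂ) := (h1.const_mul (Complex.I * l)).mul_const (y : ℂ)
  have h4 := h3.cexp
  have h5 := ((h2.mul_const ((y ^ a : ℝ) : ℂ)).mul h4).comp_ofReal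
  refine h5.congr_deriv ?_
  have e1 : ((a + 1 : ℝ) : ℂ) - 1 = (a : ℂ) := by push_cast; ring
  have e2 : ((t : ℂ) + Complex.I) ^ ((a + 1 : ℝ) : ℂ) =
      ((t : ℂ) + Complex.I) ^ (a : ℂ) * ((t : ℂ) + Complex.I) := by
    push_cast
    rw [Complex.cpow_add _ _ (Complex.slitPlane_ne_zero (zi_slit t)), Complex.cpow_one]
  unfold ziK'
  rw [e1, e2]
  push_cast
  ring

theorem zi_norm_exp (l t y : ℝ) :
    ‖Complex.exp (Complex.I * l * ((t : ℂ) + Complex.I) * y)‖ = Real.exp (-(l * y)) := by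
  rw [Complex.norm_exp]
  congr 1
  simp

theorem zi_norm_add (t : ℝ) : ‖(t : ℂ) + Complex.I‖ ≤ |t| + 1 := by
  refine (norm_add_le _ _).trans ?_
  simp

theorem zi_int_pow {a l : ℝ} (ha : 0 < a) (hl : 0 < l) :
    IntegrableOn (fun y : ℝ => y ^ a * Real.exp (-(l * y))) (Ioi 0) := by
  have h := integrableOn_rpow_mul_exp_neg_mul_rpow (p := 1) (s := a) (b := l)
    (by linarith) (by norm_num) hl
  simp only [Real.rpow_one] at h
  refine h.congr_fun (fun y _ => ?_) measurableSet_Ioi
  simp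

theorem zi_K'_bd {a l : ℝ} (ha : 0 < a) (hl : 0 < l) {R t y : ℝ} (hR : 1 ≤ R)
    (ht : ‖(t : ℂ) + Complex.I‖ ≤ R) (hy : 0 < y) :
    ‖ziK' a l t y‖ ≤ R ^ a * (a + 1) * (y ^ a * Real.exp (-(l * y))) +
      R ^ a * (l * R) * (y ^ (a + 1) * Real.exp (-(l * y))) := by
  unfold ziK'
  rw [norm_mul, norm_mul, norm_mul, zi_norm_exp, Complex.norm_cpow_real, Complex.norm_real,
    Real.norm_eq_abs, abs_of_nonneg (Real.rpow_nonneg hy.le a)]
  have h1 : ‖(t : ℂ) + Complex.I‖ ^ a ≤ R ^ a := Real.rpow_le_rpow (norm_nonneg _) ht ha.le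
  have h2 : ‖((a : ℂ) + 1) + Complex.I * l * ((t : ℂ) + Complex.I) * y‖ ≤ (a + 1) + l * R * y := by
    refine (norm_add_le _ _).trans ?_
    have e1 : ‖(a : ℂ) + 1‖ = a + 1 := by
      have : (a : ℂ) + 1 = ((a + 1 : ℝ) : ℂ) := by push_cast; ring
      rw [this, Complex.norm_real, Real.norm_eq_abs, abs_of_pos (by linarith)]
    rw [e1, norm_mul, norm_mul, norm_mul, Complex.norm_I, Complex.norm_real, Complex.norm_real,
      Real.norm_eq_abs, Real.norm_eq_abs, abs_of_pos hl, abs_of_pos hy, one_mul]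
    have : l * ‖(t : ℂ) + Complex.I‖ * y ≤ l * R * y := by
      apply mul_le_mul_of_nonneg_right _ hy.le
      exact mul_le_mul_of_nonneg_left ht hl.le
    linarith
  have hR0 : 0 < R := by linarith
  have e : y ^ (a + 1) = y ^ a * y := by rw [Real.rpow_add hy, Real.rpow_one]
  calc _ ≤ R ^ a * y ^ a * Real.exp (-(l * y)) * ((a + 1) + l * R * y) := by
        apply mul_le_mul _ h2 (norm_nonneg _) (by positivity)
        apply mul_le_mul_of_nonneg_right _ (Real.exp_pos _).le
        exact mul_le_mul_of_nonneg_right h1 (by positivity)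
    _ = _ := by rw [e]; ring

theorem zi_K_meas (a l : ℝ) (w : ℂ) : Measurable (ziK a l w) := by
  unfold ziK
  refine ((measurable_const).mul ?_).mul ?_
  · exact Complex.measurable_ofReal.comp (measurable_id.pow_const a)
  · exact (Complex.continuous_exp.comp (by fun_prop)).measurable

theorem zi_K'_meas (a l : ℝ) (w : ℂ) : Measurable (ziK' a l w) := by
  unfold ziK'
  refine ((measurable_const.mul ?_).mul ?_).mul ?_
  · exact Complex.measurable_ofReal.comp (measurable_id.pow_const a)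
  · exact (Complex.continuous_exp.comp (by fun_prop)).measurable
  · exact (show Continuous fun y : ℝ => ((a : ℂ) + 1) + Complex.I * l * (w + Complex.I) * y by
      fun_prop).measurable

theorem zi_K_norm {a l : ℝ} {t y : ℝ} (hy : 0 < y) :
    ‖ziK a l t y‖ = ‖(t : ℂ) + Complex.I‖ ^ (a + 1) * (y ^ a * Real.exp (-(l * y))) := by
  unfold ziK
  rw [norm_mul, norm_mul, zi_norm_exp, Complex.norm_cpow_real, Complex.norm_real,
    Real.norm_eq_abs, abs_of_nonneg (Real.rpow_nonneg hy.le a)]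
  ring

theorem zi_K_int {a l : ℝ} (ha : 0 < a) (hl : 0 < l) (t : ℝ) :
    IntegrableOn (ziK a l t) (Ioi 0) := by
  have h := (zi_int_pow ha hl).const_mul (‖(t : ℂ) + Complex.I‖ ^ (a + 1))
  refine Integrable.mono' h (zi_K_meas a l t).aestronglyMeasurable ?_
  filter_upwards [ae_restrict_mem measurableSet_Ioi] with y hy
  rw [zi_K_norm hy]

theorem zi_int_K'_zero {a l : ℝ} (ha : 0 < a) (hl : 0 < l) (t : ℝ) :
    ∫ y in Ioi (0 : ℝ), ziK' a l t y = 0 := by
  set p : ℂ := (t : ℂ) + Complex.I with hp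
  -- primitive in y
  set H : ℝ → ℂ := fun y => p ^ (a : ℂ) * ((y ^ (a + 1) : ℝ) : ℂ) *
    Complex.exp (Complex.I * l * p * y) with hH
  have hderiv : ∀ y ∈ Ioi (0 : ℝ), HasDerivAt H (ziK' a l t y) y := by
    intro y hy
    have hy0 : (0 : ℝ) < y := hy
    have h1 : HasDerivAt (fun y : ℝ => ((y ^ (a + 1) : ℝ) : ℂ)) (((a + 1) * y ^ a : ℝ) : ℂ) y := by
      have := (Real.hasDerivAt_rpow_const (x := y) (p := a + 1) (Or.inl hy0.ne')).ofReal_comp
      refine this.congr_deriv ?_
      congr 2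
      ring_nf
    have h2 : HasDerivAt (fun y : ℝ => Complex.I * l * p * (y : ℂ)) (Complex.I * l * p * 1) y :=
      ((hasDerivAt_id (y : ℂ)).comp_ofReal).const_mul _
    have h3 := (h1.const_mul (p ^ (a : ℂ))).mul h2.cexp
    refine h3.congr_deriv ?_
    have e : y ^ (a + 1) = y ^ a * y := by rw [Real.rpow_add hy0, Real.rpow_one]
    unfold ziK'
    rw [← hp, e]
    push_cast
    ring
  have hcont : ContinuousWithinAt H (Ici 0) 0 := by
    have h1 : Continuous (fun y : ℝ => ((y ^ (a + 1) : ℝ) : ℂ)) :=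
      Complex.continuous_ofReal.comp (Real.continuous_rpow_const (by linarith))
    have : Continuous H := by
      rw [hH]
      exact (continuous_const.mul h1).mul (Complex.continuous_exp.comp (by fun_prop))
    exact this.continuousWithinAt
  have hint : IntegrableOn (ziK' a l t) (Ioi 0) := by
    have hR : 1 ≤ |t| + 1 := by linarith [abs_nonneg t]
    have hb := ((zi_int_pow ha hl).const_mul ((|t| + 1) ^ a * (a + 1))).add
      ((zi_int_pow (show 0 < a + 1 by linarith) hl).const_mul ((|t| + 1) ^ a * (l * (|t| + 1))))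
    refine Integrable.mono' hb (zi_K'_meas a l t).aestronglyMeasurable ?_
    filter_upwards [ae_restrict_mem measurableSet_Ioi] with y hy
    exact zi_K'_bd ha hl hR (zi_norm_add t) hy
  have hlim : Tendsto H atTop (𝓝 0) := by
    rw [tendsto_zero_iff_norm_tendsto_zero]
    have h1 := tendsto_rpow_mul_exp_neg_mul_atTop_nhds_zero (a + 1) l hl
    have h2 := h1.const_mul (‖p‖ ^ a)
    rw [mul_zero] at h2
    refine h2.congr' ?_
    filter_upwards [eventually_gt_atTop (0 : ℝ)] with y hy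
    rw [hH]
    simp only
    rw [norm_mul, norm_mul, hp, zi_norm_exp, Complex.norm_cpow_real, Complex.norm_real,
      Real.norm_eq_abs, abs_of_nonneg (Real.rpow_nonneg hy.le _)]
    rw [neg_mul]; ring
  have h := integral_Ioi_of_hasDerivAt_of_tendsto hcont hderiv hint hlim
  rw [h, hH]
  simp only
  rw [Real.zero_rpow (by linarith)]
  simp

theorem zi_K_const {a l : ℝ} (ha : 0 < a) (hl : 0 < l) (t : ℝ) :
    ∫ y in Ioi (0 : ℝ), ziK a l t y = ∫ y in Ioi (0 : ℝ), ziK a l (0 : ℝ) y := by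
  have hd : ∀ t : ℝ, HasDerivAt (fun s : ℝ => ∫ y in Ioi (0 : ℝ), ziK a l s y) 0 t := by
    intro t
    have hR : 1 ≤ |t| + 2 := by linarith [abs_nonneg t]
    have hb := ((zi_int_pow ha hl).const_mul ((|t| + 2) ^ a * (a + 1))).add
      ((zi_int_pow (show 0 < a + 1 by linarith) hl).const_mul ((|t| + 2) ^ a * (l * (|t| + 2))))
    have h := (hasDerivAt_integral_of_dominated_loc_of_deriv_le (μ := volume.restrict (Ioi (0 : ℝ)))
      (F := fun (s : ℝ) (y : ℝ) => ziK a l s y) (F' := fun (s : ℝ) (y : ℝ) => ziK' a l s y)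
      (x₀ := t) (s := Metric.ball t 1)
      (bound := fun y => (|t| + 2) ^ a * (a + 1) * (y ^ a * Real.exp (-(l * y))) +
        (|t| + 2) ^ a * (l * (|t| + 2)) * (y ^ (a + 1) * Real.exp (-(l * y))))
      (Metric.ball_mem_nhds t one_pos)
      (Eventually.of_forall fun s => (zi_K_meas a l s).aestronglyMeasurable)
      (zi_K_int ha hl t) (zi_K'_meas a l t).aestronglyMeasurable
      ?_ hb ?_).2
    · rw [zi_int_K'_zero ha hl t] at h
      exact h
    · filter_upwards [ae_restrict_mem measurableSet_Ioi] with y hy s hs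
      refine zi_K'_bd ha hl hR ?_ hy
      refine (zi_norm_add s).trans ?_
      rw [Metric.mem_ball, Real.dist_eq] at hs
      have := abs_sub_abs_le_abs_sub s t
      linarith
    · exact Eventually.of_forall fun y s _ => zi_K_deriv a l y s
  have := is_const_of_deriv_eq_zero (fun s => (hd s).differentiableAt) (fun s => (hd s).deriv) t 0
  exact this

theorem zi_K_zero {a l : ℝ} (ha : 0 < a) (hl : 0 < l) :
    ∫ y in Ioi (0 : ℝ), ziK a l (0 : ℝ) y =
      Complex.exp (Complex.I * (Real.pi / 2) * (a + 1)) *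
        ((Real.Gamma (a + 1) * l ^ (-(a + 1)) : ℝ) : ℂ) := by
  have h := Real.integral_rpow_mul_exp_neg_mul_Ioi (a := a + 1) (r := l) (by linarith) hl
  have e1 : (1 / l) ^ (a + 1) = l ^ (-(a + 1)) := by
    rw [one_div, Real.inv_rpow hl.le, Real.rpow_neg hl.le]
  rw [e1] at h
  have e2 : ∀ y ∈ Ioi (0 : ℝ), ziK a l (0 : ℝ) y =
      Complex.exp (Complex.I * (Real.pi / 2) * (a + 1)) *
        ((y ^ (a + 1 - 1) * Real.exp (-(l * y)) : ℝ) : ℂ) := by
    intro y _
    unfold ziK
    have e3 : ((0 : ℝ) : ℂ) + Complex.I = Complex.I := by simp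
    have e4 : Complex.I ^ ((a + 1 : ℝ) : ℂ) = Complex.exp (Complex.I * (Real.pi / 2) * (a + 1)) := by
      rw [Complex.cpow_def_of_ne_zero Complex.I_ne_zero, Complex.log_I]
      congr 1
      push_cast
      ring
    have e5 : Complex.I * l * Complex.I * y = ((-(l * y) : ℝ) : ℂ) := by
      have : Complex.I * l * Complex.I * y = (Complex.I * Complex.I) * l * y := by ring
      rw [this, Complex.I_mul_I]
      push_cast
      ring
    rw [e3, e4, e5, add_sub_cancel_right, ← Complex.ofReal_exp]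
    push_cast
    ring
  rw [setIntegral_congr_fun measurableSet_Ioi e2, integral_const_mul, zi_ofReal, h]
  push_cast
  ring

/-! ### the exact integral -/

noncomputable def zF (a l : ℝ) (z : ℂ) : ℂ :=
  z ^ (a : ℂ) * Complex.exp (Complex.I * l * z) * ztau z

theorem zi_exp_norm (l : ℝ) (z : ℂ) : ‖Complex.exp (Complex.I * l * z)‖ = Real.exp (-(l * z.im)) := by
  rw [Complex.norm_exp]
  congr 1
  simp

/-- bound of `exp (i l z) ztau z` on the upper half plane -/
theorem zi_kernel_bd {C l : ℝ} (hC : ∀ z ∈ UH, ‖ztau z‖ ≤ C / ‖z‖) (hC0 : 0 < C) (hl : 0 < l) {z : ℂ}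
    (hz : z ∈ UH) : ‖Complex.exp (Complex.I * l * z) * ztau z‖ ≤
      C / ‖z‖ * Real.exp (-(l / 2) * ‖z‖) := by
  have hn : 0 < ‖z‖ := norm_pos_iff.mpr (zb_ne_zero hz)
  rcases le_total z.im |z.re| with h1 | h1
  · rw [ztau_zero hz h1, mul_zero, norm_zero]; positivity
  · have h2 := zb_norm_le hz h1
    rw [norm_mul, zi_exp_norm, mul_comm]
    apply mul_le_mul (hC z hz) _ (Real.exp_pos _).le (by positivity)
    rw [Real.exp_le_exp]
    nlinarith

theorem zF_cont (a l : ℝ) : ContinuousOn (zF a l) UH := by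
  unfold zF
  refine ContinuousOn.mul (ContinuousOn.mul ?_ ?_) ztau_cont
  · exact fun z hz => (continuousAt_cpow_const (zb_slit hz)).continuousWithinAt
  · exact (Complex.continuous_exp.comp (by fun_prop)).continuousOn

theorem zF_int {a l : ℝ} (ha : 0 < a) (hl : 0 < l) : IntegrableOn (zF a l) UH := by
  obtain ⟨C, hC0, hC⟩ := ztau_bd
  have h := ((zb_int_radial (q := a - 1) (b := l / 2) (by linarith) (by linarith)).1.const_mul
    C).integrableOn (s := UH)
  refine Integrable.mono' h ((zF_cont a l).aestronglyMeasurable zb_meas_UH) ?_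
  filter_upwards [ae_restrict_mem zb_meas_UH] with z hz
  have hn : 0 < ‖z‖ := norm_pos_iff.mpr (zb_ne_zero hz)
  have h1 := zi_kernel_bd hC hC0 hl hz
  unfold zF
  rw [mul_assoc, norm_mul, Complex.norm_cpow_real]
  have h2 := mul_le_mul_of_nonneg_left h1 (Real.rpow_nonneg hn.le a)
  refine h2.trans (le_of_eq ?_)
  rw [Real.rpow_sub hn, Real.rpow_one]
  ring

theorem zF_integral {a l : ℝ} (ha : 0 < a) (hl : 0 < l) :
    ∫ z in UH, zF a l z = 1 / 2 * Complex.exp (Complex.I * (Real.pi / 2) * a) *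
      ((Real.Gamma (a + 1) * l ^ (-(a + 1)) : ℝ) : ℂ) := by
  rw [zi_fubini_scaled (zF_int ha hl)]
  have e1 : ∀ y ∈ Ioi (0 : ℝ), ∫ t : ℝ, (y : ℂ) * zF a l ((y : ℂ) * (t + Complex.I)) =
      ∫ t : ℝ, (-(Complex.I / 2) * ((deriv tau t : ℝ) : ℂ)) * ziK a l t y := by
    intro y hy
    have hy0 : (0 : ℝ) < y := hy
    have hyc : (y : ℂ) ≠ 0 := by exact_mod_cast hy0.ne'
    congr 1
    funext t
    unfold zF ztau ziK
    have hne := Complex.slitPlane_ne_zero (zi_slit t)
    have r1 : ((y : ℂ) * (t + Complex.I)).re = y * t := by simp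
    have r2 : ((y : ℂ) * (t + Complex.I)).im = y := by simp
    have r3 : ((y : ℂ) * (t + Complex.I)) ^ (a : ℂ) =
        ((y ^ a : ℝ) : ℂ) * ((t : ℂ) + Complex.I) ^ (a : ℂ) := by
      rw [Complex.cpow_def_of_ne_zero (mul_ne_zero hyc hne), Complex.log_ofReal_mul hy0 hne,
        add_mul, Complex.exp_add, Complex.cpow_def_of_ne_zero hne, Real.rpow_def_of_pos hy0]
      push_cast
      rfl
    have r4 : ((t : ℂ) + Complex.I) ^ ((a + 1 : ℝ) : ℂ) =
        ((t : ℂ) + Complex.I) ^ (a : ℂ) * ((t : ℂ) + Complex.I) := by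
      push_cast
      rw [Complex.cpow_add _ _ hne, Complex.cpow_one]
    have r5 : y * t / y = t := by field_simp
    rw [r1, r2, r3, r4, r5]
    have r6 : Complex.I * l * ((y : ℂ) * (t + Complex.I)) = Complex.I * l * (t + Complex.I) * y := by
      ring
    rw [r6]
    field_simp
  rw [setIntegral_congr_fun measurableSet_Ioi e1]
  have hint : Integrable (Function.uncurry fun (y t : ℝ) =>
      (-(Complex.I / 2) * ((deriv tau t : ℝ) : ℂ)) * ziK a l t y)
      ((volume.restrict (Ioi (0 : ℝ))).prod volume) := by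
    have hm1 : Measurable fun p : ℝ × ℝ => (-(Complex.I / 2) * ((deriv tau p.2 : ℝ) : ℂ)) *
        ziK a l p.2 p.1 := by
      unfold ziK
      refine Measurable.mul ?_ (Measurable.mul (Measurable.mul ?_ ?_) ?_)
      · exact measurable_const.mul (Complex.measurable_ofReal.comp
          (zb_dtau_cont.measurable.comp measurable_snd))
      · exact ((Complex.measurable_ofReal.comp measurable_snd).add_const _).pow_const _
      · exact Complex.measurable_ofReal.comp (measurable_fst.pow_const a)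
      · exact (Complex.continuous_exp.comp (by fun_prop)).measurable
    have hg : Integrable (fun t : ℝ => |deriv tau t| * ‖(t : ℂ) + Complex.I‖ ^ (a + 1)) := by
      refine Continuous.integrable_of_hasCompactSupport ?_ ?_
      · exact zb_dtau_cont.abs.mul (Continuous.rpow_const (by fun_prop) fun t => Or.inr (by linarith))
      · refine zb_dtau_cpt.mono fun t ht h0 => ht ?_
        show |deriv tau t| * _ = 0
        rw [h0]; simp
    have hf : Integrable (fun y : ℝ => y ^ a * Real.exp (-(l * y))) (volume.restrict (Ioi 0)) :=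
      zi_int_pow ha hl
    have hp := hf.mul_prod hg
    refine Integrable.mono' hp hm1.aestronglyMeasurable ?_
    have hae : ∀ᵐ p : ℝ × ℝ ∂((volume.restrict (Ioi (0 : ℝ))).prod volume), p.1 ∈ Ioi (0 : ℝ) :=
      Measure.quasiMeasurePreserving_fst.ae (ae_restrict_mem measurableSet_Ioi)
    filter_upwards [hae] with p hp1
    simp only [Function.uncurry]
    rw [norm_mul, zi_K_norm hp1, norm_mul, norm_neg, norm_div, Complex.norm_I, Complex.norm_real,
      Real.norm_eq_abs]
    have hq : 0 ≤ |deriv tau p.2| * (‖(p.2 : ℂ) + Complex.I‖ ^ (a + 1) *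
        (p.1 ^ a * Real.exp (-(l * p.1)))) := by
      have := Real.rpow_nonneg (le_of_lt (show (0 : ℝ) < p.1 from hp1)) a
      positivity
    simp only [Complex.norm_ofNat]
    linarith
  rw [integral_integral_swap hint]
  have e2 : ∀ t : ℝ, ∫ y in Ioi (0 : ℝ), (-(Complex.I / 2) * ((deriv tau t : ℝ) : ℂ)) *
      ziK a l t y = ((deriv tau t : ℝ) : ℂ) * (-(Complex.I / 2) *
        ∫ y in Ioi (0 : ℝ), ziK a l (0 : ℝ) y) := by
    intro t
    rw [integral_const_mul, zi_K_const ha hl t]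
    ring
  simp only [e2]
  rw [integral_mul_const, zi_ofReal, zb_integral_dtau, zi_K_zero ha hl]
  have e3 : Complex.exp (Complex.I * (Real.pi / 2) * (a + 1)) =
      Complex.exp (Complex.I * (Real.pi / 2) * a) * Complex.I := by
    have : Complex.I * (Real.pi / 2) * (a + 1) = Complex.I * (Real.pi / 2) * a +
        (Real.pi / 2) * Complex.I := by ring
    rw [this, Complex.exp_add, Complex.exp_pi_div_two_mul_I]
  rw [e3]
  have e4 : Complex.I * Complex.I = -1 := Complex.I_mul_I
  push_cast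
  linear_combination (-(1 / 2) * Complex.exp (Complex.I * (Real.pi / 2) * a) *
    (Real.Gamma (a + 1) : ℂ) * ((l ^ (-(a + 1)) : ℝ) : ℂ)) * e4

end Pool.Agent.Freud
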