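import Mathlib
import Pool.Agent.Freud.ZeroInt

/-!
The conjugation by the outer parametrix near the origin (FR-Z1, FR-Z2) of MP_6cbd85_an.
-/

set_option autoImplicit false

open MeasureTheory Filter Topology Asymptotics Set

namespace Pool.Agent.Freud

/-- `exp (2 bfun z)`, the square root of `(z-1)/(z+1)` -/
noncomputable def zS (z : ℂ) : ℂ := Complex.exp (2 * bfun z)

/-- `Nmat * E21 * Ninv` -/
noncomputable def zM (z : ℂ) : Mat2 :=
  !![-((zS z - (zS z)⁻¹) / 4), -((zS z + (zS z)⁻¹ - 2) / 4);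
     (zS z + (zS z)⁻¹ + 2) / 4, (zS z - (zS z)⁻¹) / 4]

theorem zm_hyp (b : ℂ) :
    Complex.cosh b ^ 2 = (Complex.exp (2 * b) + (Complex.exp (2 * b))⁻¹ + 2) / 4 ∧
    Complex.sinh b ^ 2 = (Complex.exp (2 * b) + (Complex.exp (2 * b))⁻¹ - 2) / 4 ∧
    Complex.sinh b * Complex.cosh b = (Complex.exp (2 * b) - (Complex.exp (2 * b))⁻¹) / 4 := by
  have e1 : Complex.exp (2 * b) = Complex.exp b ^ 2 := by rw [← Complex.exp_nat_mul]; norm_num
  have e2 : (Complex.exp (2 * b))⁻¹ = Complex.exp (-b) ^ 2 := by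
    rw [← Complex.exp_neg, ← Complex.exp_nat_mul]; congr 1; push_cast; ring
  have e3 : Complex.exp b * Complex.exp (-b) = 1 := by rw [← Complex.exp_add]; simp
  have c : Complex.cosh b = (Complex.exp b + Complex.exp (-b)) / 2 := rfl
  have s : Complex.sinh b = (Complex.exp b - Complex.exp (-b)) / 2 := rfl
  rw [e2, e1, c, s]
  refine ⟨?_, ?_, ?_⟩
  · linear_combination (1 / 2) * e3
  · linear_combination (-(1 / 2)) * e3
  · ring

theorem zM_eq (z q : ℂ) : Nmat z * !![0, 0; q, 0] * Ninv z = q • zM z := by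
  obtain ⟨h1, h2, h3⟩ := zm_hyp (bfun z)
  unfold Nmat Ninv zM zS
  have e : (!![Complex.cosh (bfun z), -Complex.sinh (bfun z);
      -Complex.sinh (bfun z), Complex.cosh (bfun z)] : Mat2) * !![0, 0; q, 0] *
      !![Complex.cosh (bfun z), Complex.sinh (bfun z);
        Complex.sinh (bfun z), Complex.cosh (bfun z)] =
      q • !![-(Complex.sinh (bfun z) * Complex.cosh (bfun z)), -(Complex.sinh (bfun z) ^ 2);
        Complex.cosh (bfun z) ^ 2, Complex.sinh (bfun z) * Complex.cosh (bfun z)] := by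
    ext i j
    fin_cases i <;> fin_cases j <;> simp [Matrix.mul_apply, Fin.sum_univ_two] <;> ring
  rw [e, h1, h2, h3]

theorem zm_w_mem {z : ℂ} (hz : z ∈ UH) : 0 < ((z - 1) / (z + 1)).im := by
  have hy : 0 < z.im := hz
  have hne : z + 1 ≠ 0 := by
    intro h
    have := congrArg Complex.im h
    simp at this
    linarith
  have hns : 0 < Complex.normSq (z + 1) := Complex.normSq_pos.mpr hne
  rw [Complex.div_im]
  simp only [Complex.sub_im, Complex.sub_re, Complex.add_im, Complex.add_re, Complex.one_im,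
    Complex.one_re, sub_zero, add_zero]
  rw [← sub_div]
  apply div_pos _ hns
  ring_nf
  linarith

theorem zS_sq {z : ℂ} (hz : z ∈ UH) : zS z ^ 2 = (z - 1) / (z + 1) := by
  have hw := zm_w_mem hz
  have hne : (z - 1) / (z + 1) ≠ 0 := by
    intro h; rw [h] at hw; simp at hw
  unfold zS bfun
  rw [← Complex.exp_nat_mul]
  have : ((2 : ℕ) : ℂ) * (2 * (Complex.log ((z - 1) / (z + 1)) / 4)) =
    Complex.log ((z - 1) / (z + 1)) := by push_cast; ring
  rw [this, Complex.exp_log hne]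

theorem zS_im {z : ℂ} (hz : z ∈ UH) : 0 < (zS z).im := by
  have hw := zm_w_mem hz
  have ha : 0 < Complex.arg ((z - 1) / (z + 1)) := by
    rcases (Complex.arg_nonneg_iff.mpr hw.le).lt_or_eq with h | h
    · exact h
    · exfalso
      have := Complex.arg_eq_zero_iff.mp h.symm
      linarith [this.2]
  have hb := Complex.arg_le_pi ((z - 1) / (z + 1))
  unfold zS
  rw [Complex.exp_im]
  have e : (2 * bfun z).im = Complex.arg ((z - 1) / (z + 1)) / 2 := by
    unfold bfun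
    have : 2 * (Complex.log ((z - 1) / (z + 1)) / 4) =
      ((1 / 2 : ℝ) : ℂ) * Complex.log ((z - 1) / (z + 1)) := by push_cast; ring
    rw [this, Complex.im_ofReal_mul, Complex.log_im]
    ring
  rw [e]
  apply mul_pos (Real.exp_pos _)
  apply Real.sin_pos_of_pos_of_lt_pi <;> linarith [Real.pi_pos]


theorem zS_ne (z : ℂ) : zS z ≠ 0 := Complex.exp_ne_zero _

theorem zm_norm_add_one {z : ℂ} (hz : ‖z‖ ≤ 1 / 2) : 1 / 2 ≤ ‖z + 1‖ := by
  have h := norm_sub_norm_le (1 : ℂ) (-z)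
  rw [norm_neg, norm_one, sub_neg_eq_add, add_comm (1 : ℂ) z] at h
  linarith

theorem zm_norm_sub_one {z : ℂ} (hz : ‖z‖ ≤ 1 / 2) : 1 / 2 ≤ ‖z - 1‖ := by
  have h := norm_sub_norm_le (1 : ℂ) z
  rw [norm_one, norm_sub_rev] at h
  linarith

/-- `zS z - i = 2 z / ((z+1)(zS z + i))` -/
theorem zS_sub {z : ℂ} (hz : z ∈ UH) :
    (zS z - Complex.I) * ((z + 1) * (zS z + Complex.I)) = 2 * z := by
  have h := zS_sq hz
  have hne : z + 1 ≠ 0 := by
    intro h
    have := congrArg Complex.im h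
    have hy : 0 < z.im := hz
    simp at this
    linarith
  have h2 : (zS z - Complex.I) * (zS z + Complex.I) = zS z ^ 2 + 1 := by
    linear_combination (-1 : ℂ) * Complex.I_mul_I
  have h3 : (zS z ^ 2 + 1) * (z + 1) = 2 * z := by
    rw [h]; field_simp; ring
  linear_combination (z + 1) * h2 + h3

theorem zS_near {z : ℂ} (hz : z ∈ UH) (hn : ‖z‖ ≤ 1 / 2) : ‖zS z - Complex.I‖ ≤ 4 * ‖z‖ := by
  have h := congrArg norm (zS_sub hz)
  rw [norm_mul, norm_mul, norm_mul, Complex.norm_ofNat] at h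
  have h1 := zm_norm_add_one hn
  have h2 : 1 ≤ ‖zS z + Complex.I‖ := by
    have h3 := Complex.abs_im_le_norm (zS z + Complex.I)
    have h4 := zS_im hz
    rw [Complex.add_im, Complex.I_im, abs_of_pos (by linarith)] at h3
    linarith
  have h3 : 1 / 2 ≤ ‖z + 1‖ * ‖zS z + Complex.I‖ := by nlinarith
  have h4 : ‖zS z - Complex.I‖ * (1 / 2) ≤ ‖zS z - Complex.I‖ * (‖z + 1‖ * ‖zS z + Complex.I‖) :=
    mul_le_mul_of_nonneg_left h3 (norm_nonneg _)
  linarith

theorem zS_norm_ge {z : ℂ} (hz : z ∈ UH) (hn : ‖z‖ ≤ 1 / 2) : 1 / 2 ≤ ‖zS z‖ := by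
  have h := congrArg norm (zS_sq hz)
  rw [norm_pow, norm_div] at h
  have h1 := zm_norm_add_one hn
  have h2 := zm_norm_sub_one hn
  have h3 : ‖z + 1‖ ≤ 3 / 2 := by
    refine (norm_add_le _ _).trans ?_
    rw [norm_one]; linarith
  have h4 : 1 / 4 ≤ ‖zS z‖ ^ 2 := by
    rw [h, le_div_iff₀ (by linarith)]
    linarith
  nlinarith [norm_nonneg (zS z)]

theorem zS_inv_near {z : ℂ} (hz : z ∈ UH) (hn : ‖z‖ ≤ 1 / 2) :
    ‖(zS z)⁻¹ + Complex.I‖ ≤ 8 * ‖z‖ := by
  have h1 := zS_near hz hn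
  have h2 := zS_norm_ge hz hn
  have e : (zS z)⁻¹ + Complex.I = Complex.I * (zS z - Complex.I) * (zS z)⁻¹ := by
    have h0 := zS_ne z
    field_simp
    linear_combination Complex.I_mul_I
  rw [e, norm_mul, norm_mul, Complex.norm_I, one_mul, norm_inv]
  have h3 : ‖zS z‖⁻¹ ≤ 2 := by
    rw [inv_le_comm₀ (by linarith) (by norm_num)]
    linarith
  calc ‖zS z - Complex.I‖ * ‖zS z‖⁻¹ ≤ (4 * ‖z‖) * 2 :=
        mul_le_mul h1 h3 (by positivity) (by positivity)
    _ = 8 * ‖z‖ := by ring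

/-- value of `zM` at the origin -/
noncomputable def zM0 : Mat2 := !![-(Complex.I / 2), 1 / 2; 1 / 2, Complex.I / 2]

theorem zM_near {z : ℂ} (hz : z ∈ UH) (hn : ‖z‖ ≤ 1 / 2) (i j : Fin 2) :
    ‖zM z i j - zM0 i j‖ ≤ 3 * ‖z‖ := by
  have h1 := zS_near hz hn
  have h2 := zS_inv_near hz hn
  have key1 : ‖((zS z - Complex.I) - ((zS z)⁻¹ + Complex.I)) / 4‖ ≤ 3 * ‖z‖ := by
    rw [norm_div, Complex.norm_ofNat, div_le_iff₀ (by norm_num)]
    refine (norm_sub_le _ _).trans ?_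
    linarith
  have key2 : ‖((zS z - Complex.I) + ((zS z)⁻¹ + Complex.I)) / 4‖ ≤ 3 * ‖z‖ := by
    rw [norm_div, Complex.norm_ofNat, div_le_iff₀ (by norm_num)]
    refine (norm_add_le _ _).trans ?_
    linarith
  fin_cases i <;> fin_cases j
  · have e : zM z 0 0 - zM0 0 0 = -(((zS z - Complex.I) - ((zS z)⁻¹ + Complex.I)) / 4) := by
      simp [zM, zM0]; ring
    show ‖zM z 0 0 - zM0 0 0‖ ≤ _
    rw [e, norm_neg]; exact key1
  · have e : zM z 0 1 - zM0 0 1 = -(((zS z - Complex.I) + ((zS z)⁻¹ + Complex.I)) / 4) := by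
      simp [zM, zM0]; ring
    show ‖zM z 0 1 - zM0 0 1‖ ≤ _
    rw [e, norm_neg]; exact key2
  · have e : zM z 1 0 - zM0 1 0 = ((zS z - Complex.I) + ((zS z)⁻¹ + Complex.I)) / 4 := by
      simp [zM, zM0]; ring
    show ‖zM z 1 0 - zM0 1 0‖ ≤ _
    rw [e]; exact key2
  · have e : zM z 1 1 - zM0 1 1 = ((zS z - Complex.I) - ((zS z)⁻¹ + Complex.I)) / 4 := by
      simp [zM, zM0]; ring
    show ‖zM z 1 1 - zM0 1 1‖ ≤ _
    rw [e]; exact key1

theorem zM0_bd (i j : Fin 2) : ‖zM0 i j‖ ≤ 1 := by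
  fin_cases i <;> fin_cases j <;> simp [zM0] <;> norm_num

theorem zM_bd {z : ℂ} (hz : z ∈ UH) (hn : ‖z‖ ≤ 1 / 2) (i j : Fin 2) : ‖zM z i j‖ ≤ 3 := by
  have h1 := zM_near hz hn i j
  have h2 := zM0_bd i j
  have h3 : zM z i j = (zM z i j - zM0 i j) + zM0 i j := by ring
  rw [h3]
  refine (norm_add_le _ _).trans ?_
  linarith

theorem zS_cont : ContinuousOn zS UH := by
  intro z hz
  have hw := zm_w_mem hz
  have hne : z + 1 ≠ 0 := by
    intro h
    have := congrArg Complex.im h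
    have hy : 0 < z.im := hz
    simp at this
    linarith
  have hs : (z - 1) / (z + 1) ∈ Complex.slitPlane := Or.inr (ne_of_gt hw)
  have h1 : ContinuousAt (fun z : ℂ => (z - 1) / (z + 1)) z :=
    ContinuousAt.div (by fun_prop) (by fun_prop) hne
  have h2 : ContinuousAt (fun z : ℂ => Complex.log ((z - 1) / (z + 1))) z := h1.clog hs
  unfold zS bfun
  exact (((h2.div_const 4).const_mul 2).cexp).continuousWithinAt

theorem zM_cont (i j : Fin 2) : ContinuousOn (fun z => zM z i j) UH := by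
  have h1 := zS_cont
  have h2 : ContinuousOn (fun z => (zS z)⁻¹) UH := h1.inv₀ fun z _ => zS_ne z
  fin_cases i <;> fin_cases j <;> simp only [zM] <;> simp
  · exact ((h1.sub h2).div_const 4).neg
  · exact (((h1.add h2).sub continuousOn_const).div_const 4).neg
  · exact ((h1.add h2).add continuousOn_const).div_const 4
  · exact (h1.sub h2).div_const 4

theorem W0_eq (α : ℝ) (n : ℕ) (y0 : ℝ) (z : ℂ) :
    W0 α n y0 z = (-Complex.I * qfun α n y0 z) • zM z := by
  unfold W0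
  exact zM_eq z _

end Pool.Agent.Freud
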