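import Mathlib
import Pool.Agent.Freud.ZeroMat

/-!
FR-Z1 of MP_6cbd85_an: `W0_bound` and estimates of the source term near the origin.
-/

set_option autoImplicit false

open MeasureTheory Filter Topology Asymptotics Set

namespace Pool.Agent.Freud

/-! ### elementary facts -/

theorem za_exp_norm_sub_one (x : ℂ) : ‖Complex.exp x - 1‖ ≤ ‖x‖ * Real.exp ‖x‖ := by
  have := Complex.norm_exp_sub_sum_le_norm_mul_exp x 1
  simpa using this

theorem za_exp_norm_sub_two (x : ℂ) : ‖Complex.exp x - 1 - x‖ ≤ ‖x‖ ^ 2 * Real.exp ‖x‖ := by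
  have := Complex.norm_exp_sub_sum_le_norm_mul_exp x 2
  rw [Finset.sum_range_succ, Finset.sum_range_one] at this
  simp only [pow_zero, Nat.factorial_zero, Nat.cast_one, div_one, pow_one, Nat.factorial_one] at this
  rw [sub_add_eq_sub_sub] at this
  exact this

theorem za_exp_norm (x : ℂ) : ‖Complex.exp x‖ ≤ Real.exp ‖x‖ := by
  rw [Complex.norm_exp, Real.exp_le_exp]
  exact Complex.re_le_norm x

/-- `|e^A (e^a - e^b) - (a - b)| ≤ 4 S e^(4S) |a - b|` -/
theorem za_exp3 {A a b : ℂ} {S : ℝ} (hA : ‖A‖ ≤ S) (ha : ‖a‖ ≤ S) (hb : ‖b‖ ≤ S) :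
    ‖Complex.exp A * (Complex.exp a - Complex.exp b) - (a - b)‖ ≤
      ‖a - b‖ * (4 * S * Real.exp (4 * S)) := by
  have hS : 0 ≤ S := (norm_nonneg A).trans hA
  set d := a - b with hd
  have hd1 : ‖d‖ ≤ 2 * S := (norm_sub_le _ _).trans (by linarith)
  have hc1 : ‖A + b‖ ≤ 2 * S := (norm_add_le _ _).trans (by linarith)
  have e : Complex.exp A * (Complex.exp a - Complex.exp b) - d =
      Complex.exp (A + b) * (Complex.exp d - 1 - d) + (Complex.exp (A + b) - 1) * d := by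
    have h1 : Complex.exp A * Complex.exp a = Complex.exp (A + b) * Complex.exp d := by
      rw [← Complex.exp_add, ← Complex.exp_add]; congr 1; rw [hd]; ring
    have h2 : Complex.exp A * Complex.exp b = Complex.exp (A + b) := by rw [← Complex.exp_add]
    linear_combination h1 - h2
  rw [e]
  refine (norm_add_le _ _).trans ?_
  rw [norm_mul, norm_mul]
  have m1 : Real.exp ‖A + b‖ ≤ Real.exp (2 * S) := Real.exp_le_exp.mpr hc1
  have m2 : Real.exp ‖d‖ ≤ Real.exp (2 * S) := Real.exp_le_exp.mpr hd1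
  have m3 : Real.exp (2 * S) ≤ Real.exp (4 * S) := Real.exp_le_exp.mpr (by linarith)
  have m4 : Real.exp (2 * S) * Real.exp (2 * S) = Real.exp (4 * S) := by
    rw [← Real.exp_add]; congr 1; ring
  have p1 : ‖Complex.exp (A + b)‖ ≤ Real.exp (2 * S) := (za_exp_norm _).trans m1
  have p2 : ‖Complex.exp d - 1 - d‖ ≤ ‖d‖ * (2 * S) * Real.exp (2 * S) := by
    refine (za_exp_norm_sub_two d).trans ?_
    rw [pow_two]
    apply mul_le_mul _ m2 (Real.exp_pos _).le (by positivity)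
    exact mul_le_mul_of_nonneg_left hd1 (norm_nonneg _)
  have p3 : ‖Complex.exp (A + b) - 1‖ ≤ 2 * S * Real.exp (2 * S) :=
    (za_exp_norm_sub_one _).trans (mul_le_mul hc1 m1 (Real.exp_pos _).le (by positivity))
  have q1 : ‖Complex.exp (A + b)‖ * ‖Complex.exp d - 1 - d‖ ≤
      Real.exp (2 * S) * (‖d‖ * (2 * S) * Real.exp (2 * S)) :=
    mul_le_mul p1 p2 (norm_nonneg _) (Real.exp_pos _).le
  have q2 : ‖Complex.exp (A + b) - 1‖ * ‖d‖ ≤ 2 * S * Real.exp (2 * S) * ‖d‖ :=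
    mul_le_mul_of_nonneg_right p3 (norm_nonneg _)
  have q3 : Real.exp (2 * S) * (‖d‖ * (2 * S) * Real.exp (2 * S)) =
      ‖d‖ * (2 * S) * Real.exp (4 * S) := by rw [← m4]; ring
  have q4 : 2 * S * Real.exp (2 * S) * ‖d‖ ≤ 2 * S * Real.exp (4 * S) * ‖d‖ := by
    apply mul_le_mul_of_nonneg_right _ (norm_nonneg _)
    exact mul_le_mul_of_nonneg_left m3 (by positivity)
  rw [q3] at q1
  linarith

theorem za_exp_sub_exp (a b : ℂ) (m : ℝ) (ha : a.re ≤ m) (hb : b.re ≤ m) :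
    ‖Complex.exp a - Complex.exp b‖ ≤ ‖a - b‖ * Real.exp m := by
  have h := Convex.norm_image_sub_le_of_norm_hasDerivWithin_le (f := Complex.exp)
    (f' := Complex.exp) (s := {z : ℂ | z.re ≤ m}) (C := Real.exp m) (x := b) (y := a)
    (fun z _ => (Complex.hasDerivAt_exp z).hasDerivWithinAt)
    (fun z hz => by rw [Complex.norm_exp]; exact Real.exp_le_exp.mpr hz)
    (convex_halfSpace_re_le m) hb ha
  rw [mul_comm]; exact h

/-- `(-z)^α = e^{-iπα} z^α` on the upper half plane -/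
theorem za_neg_cpow (α : ℝ) {z : ℂ} (hz : z ∈ UH) :
    (-z) ^ (α : ℂ) = Complex.exp (-(Complex.I * Real.pi * α)) * z ^ (α : ℂ) := by
  have h0 := zb_ne_zero hz
  have hl : Complex.log (-z) = Complex.log z - Real.pi * Complex.I := by
    apply Complex.ext
    · simp [Complex.log_re]
    · simp [Complex.log_im, Complex.arg_neg_eq_arg_sub_pi_of_im_pos (show 0 < z.im from hz)]
  rw [Complex.cpow_def_of_ne_zero (neg_ne_zero.mpr h0), Complex.cpow_def_of_ne_zero h0, hl,
    ← Complex.exp_add]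
  congr 1
  ring

theorem za_kap_pos {α : ℝ} (hα : 1 < α) : 0 < kap α := by
  unfold kap
  have h1 := Real.Gamma_pos_of_pos (show 0 < α / 2 by linarith)
  have h2 := Real.Gamma_pos_of_pos (show 0 < (α + 1) / 2 by linarith)
  have := Real.pi_pos
  positivity

theorem za_rho_bd (t : ℝ) : 0 ≤ rho t ∧ rho t ≤ 1 :=
  ⟨Real.smoothTransition.nonneg _, Real.smoothTransition.le_one _⟩

theorem za_rho_one {t : ℝ} (h : t ≤ 1 / 2) : rho t = 1 :=
  Real.smoothTransition.one_of_one_le (by linarith)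

theorem za_rho_zero {t : ℝ} (h : 1 ≤ t) : rho t = 0 :=
  Real.smoothTransition.zero_of_nonpos (by linarith)

/-! ### bound on `W0` -/

theorem za_q_eq (α : ℝ) (n : ℕ) (y0 : ℝ) (z : ℂ) : qfun α n y0 z =
    (rho (z.im / y0) : ℂ) * ztau z * (Complex.exp (-(2 * n * gfun α z) + n * ell α) *
    (Complex.exp (n * kap α * z ^ (α : ℂ)) - Complex.exp (n * kap α * (-z) ^ (α : ℂ)))) := by
  unfold qfun ztau
  ring

theorem za_q_zero {α δ y0 c : ℝ} (hG : Geo α δ y0 c) {n : ℕ} {z : ℂ} (hz : z ∈ UH)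
    (h : z.im ≤ |z.re| ∨ y0 ≤ z.im) : qfun α n y0 z = 0 := by
  rw [za_q_eq]
  rcases h with h | h
  · rw [ztau_zero hz h]; ring
  · rw [za_rho_zero ((le_div_iff₀ hG.y0_pos).mpr (by linarith))]; simp

theorem za_q_bd {α δ y0 c : ℝ} (hα : 1 < α) (hδ : 0 < δ) (hδ' : δ < 1 / 2) (hG : Geo α δ y0 c)
    {Ct : ℝ} (hC0 : 0 < Ct) (hC : ∀ z ∈ UH, ‖ztau z‖ ≤ Ct / ‖z‖) (n : ℕ) {z : ℂ} (hz : z ∈ UH) :
    ‖qfun α n y0 z‖ ≤ 2 * Ct * kap α * n * ‖z‖ ^ (α - 1) * Real.exp (-(c * n * ‖z‖)) := by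
  have hk := za_kap_pos hα
  have hn : 0 < ‖z‖ := norm_pos_iff.mpr (zb_ne_zero hz)
  by_cases h : z.im ≤ |z.re| ∨ y0 ≤ z.im
  · rw [za_q_zero hG hz h, norm_zero]; positivity
  · push Not at h
    obtain ⟨h1, h2⟩ := h
    have hy : 0 < z.im := hz
    have habs := abs_le.mp h1.le
    have hy0 := hG.y0_le
    have hb := zb_norm_le hz h1.le
    have hR := hG.right z hz h2.le habs.1 (by linarith)
    have hL := hG.left z hz h2.le habs.2 (by linarith)
    have hc := hG.c_pos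
    rw [za_q_eq, norm_mul, norm_mul]
    have r1 : ‖(rho (z.im / y0) : ℂ)‖ ≤ 1 := by
      rw [Complex.norm_real, Real.norm_eq_abs, abs_of_nonneg (za_rho_bd _).1]
      exact (za_rho_bd _).2
    have r2 := hC z hz
    -- the exponentials
    set u : ℂ := -(2 * n * gfun α z) + n * ell α + n * kap α * z ^ (α : ℂ) with hu
    set v : ℂ := -(2 * n * gfun α z) + n * ell α + n * kap α * (-z) ^ (α : ℂ) with hv
    have e1 : Complex.exp (-(2 * n * gfun α z) + n * ell α) *
        (Complex.exp (n * kap α * z ^ (α : ℂ)) - Complex.exp (n * kap α * (-z) ^ (α : ℂ))) =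
        Complex.exp u - Complex.exp v := by
      rw [hu, hv, Complex.exp_add _ (n * kap α * z ^ (α : ℂ)),
        Complex.exp_add _ (n * kap α * (-z) ^ (α : ℂ))]
      ring
    have hn0 : (0 : ℝ) ≤ n := Nat.cast_nonneg n
    have ur : u.re ≤ -(c * n * ‖z‖) := by
      have e : u = ((-(2 * n) : ℝ) : ℂ) * xiR α z := by
        rw [hu]; unfold xiR; push_cast; ring
      rw [e, Complex.re_ofReal_mul]
      nlinarith [mul_le_mul_of_nonneg_left hR hn0, mul_le_mul_of_nonneg_left hb (mul_nonneg hc.le hn0)]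
    have vr : v.re ≤ -(c * n * ‖z‖) := by
      have e : v = ((-(2 * n) : ℝ) : ℂ) * xiL α z := by
        rw [hv]; unfold xiL; push_cast; ring
      rw [e, Complex.re_ofReal_mul]
      nlinarith [mul_le_mul_of_nonneg_left hL hn0, mul_le_mul_of_nonneg_left hb (mul_nonneg hc.le hn0)]
    have huv : ‖u - v‖ ≤ 2 * n * kap α * ‖z‖ ^ α := by
      have e : u - v = n * kap α * z ^ (α : ℂ) - n * kap α * (-z) ^ (α : ℂ) := by
        rw [hu, hv]; ring
      rw [e]
      refine (norm_sub_le _ _).trans ?_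
      rw [norm_mul, norm_mul, norm_mul, norm_mul, Complex.norm_cpow_real, Complex.norm_cpow_real,
        norm_neg, Complex.norm_natCast, Complex.norm_real, Real.norm_eq_abs, abs_of_pos hk]
      linarith
    have r3 := za_exp_sub_exp u v _ ur vr
    rw [e1]
    have r4 : ‖Complex.exp u - Complex.exp v‖ ≤
        2 * n * kap α * ‖z‖ ^ α * Real.exp (-(c * n * ‖z‖)) :=
      r3.trans (mul_le_mul_of_nonneg_right huv (Real.exp_pos _).le)
    have r5 : ‖(rho (z.im / y0) : ℂ)‖ * ‖ztau z‖ ≤ 1 * (Ct / ‖z‖) :=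
      mul_le_mul r1 r2 (norm_nonneg _) zero_le_one
    refine (mul_le_mul r5 r4 (norm_nonneg _) (by positivity)).trans (le_of_eq ?_)
    rw [Real.rpow_sub hn, Real.rpow_one]
    field_simp

theorem za_q_supp {α δ y0 c : ℝ} (hG : Geo α δ y0 c) {n : ℕ} {z : ℂ} (hz : z ∈ UH)
    (h : 2 * y0 ≤ ‖z‖) : qfun α n y0 z = 0 := by
  apply za_q_zero hG hz
  by_contra hc
  push Not at hc
  have := zb_norm_le hz hc.1.le
  linarith

theorem nm_smul' (a : ℂ) (A : Mat2) : nm (a • A) = ‖a‖ * nm A := by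
  unfold nm
  simp only [Matrix.smul_apply, smul_eq_mul, norm_mul]
  ring

theorem W0_bound (α δ y0 c : ℝ) (hα : 1 < α) (hδ : 0 < δ) (hδ' : δ < 1 / 2)
    (hG : Geo α δ y0 c) : ∃ c' C : ℝ, 0 < c' ∧
      ∀ n : ℕ, 1 ≤ n → ∀ z ∈ UH,
        nm (W0 α n y0 z) ≤ C * n * ‖z‖ ^ (α - 1) * Real.exp (-(c' * n * ‖z‖)) ∧
        (2 * y0 ≤ ‖z‖ → W0 α n y0 z = 0) := by
  obtain ⟨Ct, hC0, hC⟩ := ztau_bd
  have hk := za_kap_pos hα
  refine ⟨c, 12 * (2 * Ct * kap α), hG.c_pos, fun n _ z hz => ⟨?_, fun h => ?_⟩⟩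
  · by_cases h : 2 * y0 ≤ ‖z‖
    · rw [W0_eq, za_q_supp hG hz h]
      have : nm ((-Complex.I * 0 : ℂ) • zM z) = 0 := by rw [nm_smul']; simp
      rw [this]
      positivity
    · push Not at h
      have hn : ‖z‖ ≤ 1 / 2 := by
        have := hG.y0_le
        linarith
      rw [W0_eq, nm_smul', norm_mul, norm_neg, Complex.norm_I, one_mul]
      have h1 := za_q_bd hα hδ hδ' hG hC0 hC n hz
      have h2 : nm (zM z) ≤ 12 := by
        unfold nm
        linarith [zM_bd hz hn 0 0, zM_bd hz hn 0 1, zM_bd hz hn 1 0, zM_bd hz hn 1 1]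
      have h3 : 0 ≤ nm (zM z) := by unfold nm; positivity
      refine (mul_le_mul h1 h2 h3 (by positivity)).trans (le_of_eq ?_)
      ring
  · rw [W0_eq, za_q_supp hG hz h, mul_zero, zero_smul]

/-! ### the model of the source term -/

/-- model of the source term -/
noncomputable def zQm (α : ℝ) (n : ℕ) (z : ℂ) : ℂ :=
  ((-1 : ℂ) ^ n * (n * kap α * (1 - Complex.exp (-(Complex.I * Real.pi * α))))) *
    zF α (2 * n * (α / (α - 1))) z

theorem za_zF_bd {α l Ct : ℝ} (hC0 : 0 < Ct) (hC : ∀ z ∈ UH, ‖ztau z‖ ≤ Ct / ‖z‖) (hl : 0 < l)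
    {z : ℂ} (hz : z ∈ UH) : ‖zF α l z‖ ≤ Ct * ‖z‖ ^ (α - 1) * Real.exp (-(l / 2) * ‖z‖) := by
  have hn : 0 < ‖z‖ := norm_pos_iff.mpr (zb_ne_zero hz)
  have h1 := zi_kernel_bd hC hC0 hl hz
  unfold zF
  rw [mul_assoc, norm_mul, Complex.norm_cpow_real]
  refine (mul_le_mul_of_nonneg_left h1 (Real.rpow_nonneg hn.le α)).trans (le_of_eq ?_)
  rw [Real.rpow_sub hn, Real.rpow_one]
  ring

theorem za_phase_norm (α : ℝ) : ‖(1 : ℂ) - Complex.exp (-(Complex.I * Real.pi * α))‖ ≤ 2 := by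
  refine (norm_sub_le _ _).trans ?_
  have : ‖Complex.exp (-(Complex.I * Real.pi * α))‖ = 1 := by
    rw [Complex.norm_exp]; simp
  rw [this, norm_one]; norm_num

theorem zQm_bd {α Ct : ℝ} (hα : 1 < α) (hC0 : 0 < Ct) (hC : ∀ z ∈ UH, ‖ztau z‖ ≤ Ct / ‖z‖)
    {n : ℕ} (hn1 : 1 ≤ n) {z : ℂ} (hz : z ∈ UH) :
    ‖zQm α n z‖ ≤ 2 * Ct * kap α * n * ‖z‖ ^ (α - 1) * Real.exp (-(α / (α - 1) * n * ‖z‖)) := by
  have hk := za_kap_pos hα
  have hn0 : (0 : ℝ) < n := by exact_mod_cast hn1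
  have hl : 0 < 2 * n * (α / (α - 1)) := by
    have : 0 < α - 1 := by linarith
    have : 0 < α := by linarith
    positivity
  have h := za_zF_bd (α := α) hC0 hC hl hz
  have h2 := za_phase_norm α
  unfold zQm
  rw [norm_mul, norm_mul, norm_mul, norm_mul, norm_pow, norm_neg, norm_one, one_pow, one_mul,
    Complex.norm_natCast, Complex.norm_real, Real.norm_eq_abs, abs_of_pos hk]
  have e : -(2 * n * (α / (α - 1)) / 2) * ‖z‖ = -(α / (α - 1) * n * ‖z‖) := by ring
  rw [e] at h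
  have h3 : n * kap α * ‖(1 : ℂ) - Complex.exp (-(Complex.I * Real.pi * α))‖ ≤ n * kap α * 2 :=
    mul_le_mul_of_nonneg_left h2 (by positivity)
  refine (mul_le_mul h3 h (norm_nonneg _) (by positivity)).trans (le_of_eq ?_)
  ring

/-- the statement of `near_zero` for a fixed `α` -/
def ZNear (α θ C r : ℝ) : Prop := 0 < θ ∧ 0 < r ∧ ∀ z ∈ UH, ‖z‖ ≤ r →
      ‖gfun α z - (ell α / 2 + Real.pi / 2 * Complex.I
        - Complex.I * (α / (α - 1)) * z)‖ ≤ C * ‖z‖ ^ (1 + θ)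

theorem za_q_near {α δ y0 c : ℝ} (hα : 1 < α) (hG : Geo α δ y0 c)
    {θ C r : ℝ} (hN : ZNear α θ C r) {Ct : ℝ} (hC0 : 0 < Ct)
    (hC : ∀ z ∈ UH, ‖ztau z‖ ≤ Ct / ‖z‖) :
    ∃ θ' r' M : ℝ, 0 < θ' ∧ θ' ≤ 1 ∧ 0 < r' ∧ r' ≤ 1 / 2 ∧ 0 ≤ M ∧ ∀ n : ℕ, 1 ≤ n →
      ∀ z ∈ UH, ‖z‖ ≤ r' → ‖qfun α n y0 z - zQm α n z‖ ≤
        M * n ^ 2 * ‖z‖ ^ (α + θ') * Real.exp (-(α / (α - 1) / 2 * n * ‖z‖)) := by
  obtain ⟨hθ, hr, hN⟩ := hN
  have hk := za_kap_pos hα
  have hα1 : 0 < α - 1 := by linarith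
  have hα0 : 0 < α := by linarith
  set l1 := α / (α - 1) with hl1
  have hl10 : 0 < l1 := by positivity
  set θ' := min θ (min (α - 1) 1) with hθ'
  have hθ'0 : 0 < θ' := lt_min hθ (lt_min hα1 one_pos)
  have hθ'1 : θ' ≤ 1 := (min_le_right _ _).trans (min_le_right _ _)
  have hθ'α : θ' ≤ α - 1 := (min_le_right _ _).trans (min_le_left _ _)
  have hθ'θ : θ' ≤ θ := min_le_left _ _
  set K := 2 * |C| + kap α with hK
  have hK0 : 0 < K := by positivity
  set r' := min (min r (1 / 2)) (min (y0 / 2) ((l1 / (8 * K)) ^ (1 / θ'))) with hr'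
  have hy0 := hG.y0_pos
  have hr'0 : 0 < r' := lt_min (lt_min hr (by norm_num)) (lt_min (by positivity) (by positivity))
  have hr'r : r' ≤ r := (min_le_left _ _).trans (min_le_left _ _)
  have hr'2 : r' ≤ 1 / 2 := (min_le_left _ _).trans (min_le_right _ _)
  have hr'y : r' ≤ y0 / 2 := (min_le_right _ _).trans (min_le_left _ _)
  have hr'K : r' ≤ (l1 / (8 * K)) ^ (1 / θ') := (min_le_right _ _).trans (min_le_right _ _)
  refine ⟨θ', r', Ct * (2 * kap α) * (4 * K), hθ'0, hθ'1, hr'0, hr'2, by positivity,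
    fun n hn1 z hz hzr => ?_⟩
  have hn0 : (0 : ℝ) < n := by exact_mod_cast hn1
  have hn : 0 < ‖z‖ := norm_pos_iff.mpr (zb_ne_zero hz)
  rcases le_or_gt z.im |z.re| with h1 | h1
  · have e1 : qfun α n y0 z = 0 := za_q_zero hG hz (Or.inl h1)
    have e2 : zQm α n z = 0 := by unfold zQm zF; rw [ztau_zero hz h1]; simp
    rw [e1, e2, sub_zero, norm_zero]
    positivity
  · -- the cut-off is one
    have hy : 0 < z.im := hz
    have him : z.im ≤ ‖z‖ := by
      have := Complex.abs_im_le_norm z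
      rwa [abs_of_pos hy] at this
    have hrho : rho (z.im / y0) = 1 := by
      apply za_rho_one
      rw [div_le_iff₀ hy0]
      linarith
    set g0 : ℂ := ell α / 2 + Real.pi / 2 * Complex.I - Complex.I * (α / (α - 1)) * z with hg0
    set A : ℂ := ((-(2 * n) : ℝ) : ℂ) * (gfun α z - g0) with hA
    set a : ℂ := n * kap α * z ^ (α : ℂ) with ha
    set b : ℂ := n * kap α * (-z) ^ (α : ℂ) with hb
    have hexp : Complex.exp (-(2 * n * gfun α z) + n * ell α) =
        (-1 : ℂ) ^ n * Complex.exp (Complex.I * ((2 * n * l1 : ℝ) : ℂ) * z) * Complex.exp A := by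
      have e1 : (-1 : ℂ) ^ n = Complex.exp (-(n * (Real.pi * Complex.I))) := by
        have : Complex.exp (-(n * (Real.pi * Complex.I))) =
            Complex.exp (-(Real.pi * Complex.I)) ^ n := by
          rw [← Complex.exp_nat_mul]; congr 1; ring
        rw [this, Complex.exp_neg, Complex.exp_pi_mul_I]
        norm_num
      rw [e1, ← Complex.exp_add, ← Complex.exp_add]
      congr 1
      rw [hA, hg0, hl1]
      push_cast
      ring
    have e3 : qfun α n y0 z - zQm α n z = (-1 : ℂ) ^ n *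
        (Complex.exp (Complex.I * ((2 * n * l1 : ℝ) : ℂ) * z) * ztau z) *
        (Complex.exp A * (Complex.exp a - Complex.exp b) - (a - b)) := by
      have e4 : a - b = n * kap α * (1 - Complex.exp (-(Complex.I * Real.pi * α))) * z ^ (α : ℂ) := by
        rw [ha, hb, za_neg_cpow α hz]; ring
      have e5 : zQm α n z = (-1 : ℂ) ^ n *
          (Complex.exp (Complex.I * ((2 * n * l1 : ℝ) : ℂ) * z) * ztau z) * (a - b) := by
        rw [e4, hl1]
        unfold zQm zF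
        ring
      have e6 : qfun α n y0 z = (-1 : ℂ) ^ n *
          (Complex.exp (Complex.I * ((2 * n * l1 : ℝ) : ℂ) * z) * ztau z) *
          (Complex.exp A * (Complex.exp a - Complex.exp b)) := by
        rw [za_q_eq, hrho, hexp, ha, hb, Complex.ofReal_one]
        ring
      rw [e5, e6]
      ring
    have hzp : ‖z‖ ≤ 1 := by linarith
    have hzθ : ‖z‖ ^ (1 + θ) ≤ ‖z‖ ^ (1 + θ') :=
      Real.rpow_le_rpow_of_exponent_ge hn hzp (by linarith)
    have hzα : ‖z‖ ^ α ≤ ‖z‖ ^ (1 + θ') :=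
      Real.rpow_le_rpow_of_exponent_ge hn hzp (by linarith)
    set S := n * K * ‖z‖ ^ (1 + θ') with hS
    have hpow0 : 0 ≤ ‖z‖ ^ (1 + θ') := by positivity
    have hAS : ‖A‖ ≤ S := by
      rw [hA, norm_mul, Complex.norm_real, Real.norm_eq_abs, abs_neg, abs_of_pos (by positivity)]
      have h2 := hN z hz (hzr.trans hr'r)
      have h3 : C * ‖z‖ ^ (1 + θ) ≤ |C| * ‖z‖ ^ (1 + θ') := by
        refine (mul_le_mul_of_nonneg_right (le_abs_self C) (by positivity)).trans ?_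
        exact mul_le_mul_of_nonneg_left hzθ (abs_nonneg _)
      have h4 : 2 * (n : ℝ) * ‖gfun α z - g0‖ ≤ 2 * n * (|C| * ‖z‖ ^ (1 + θ')) :=
        mul_le_mul_of_nonneg_left (h2.trans h3) (by positivity)
      refine h4.trans ?_
      rw [hS, hK]
      have : 0 ≤ n * kap α * ‖z‖ ^ (1 + θ') := by positivity
      nlinarith
    have hnk : n * kap α * ‖z‖ ^ α ≤ S := by
      have h2 : n * kap α * ‖z‖ ^ α ≤ n * kap α * ‖z‖ ^ (1 + θ') :=
        mul_le_mul_of_nonneg_left hzα (by positivity)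
      refine h2.trans ?_
      rw [hS, hK]
      have : 0 ≤ n * (2 * |C|) * ‖z‖ ^ (1 + θ') := by positivity
      nlinarith
    have haS : ‖a‖ ≤ S := by
      rw [ha, norm_mul, norm_mul, Complex.norm_cpow_real, Complex.norm_natCast, Complex.norm_real,
        Real.norm_eq_abs, abs_of_pos hk]
      exact hnk
    have hbS : ‖b‖ ≤ S := by
      rw [hb, norm_mul, norm_mul, Complex.norm_cpow_real, Complex.norm_natCast, Complex.norm_real,
        Real.norm_eq_abs, abs_of_pos hk, norm_neg]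
      exact hnk
    have hab : ‖a - b‖ ≤ 2 * n * kap α * ‖z‖ ^ α := by
      refine (norm_sub_le _ _).trans ?_
      rw [ha, hb, norm_mul, norm_mul, norm_mul, norm_mul, Complex.norm_cpow_real,
        Complex.norm_cpow_real, Complex.norm_natCast, Complex.norm_real,
        Real.norm_eq_abs, abs_of_pos hk, norm_neg]
      linarith
    have h5 := za_exp3 hAS haS hbS
    have h6 := zi_kernel_bd (l := 2 * n * l1) hC hC0 (by positivity) hz
    have hS4 : 4 * S ≤ l1 / 2 * n * ‖z‖ := by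
      have h7 : ‖z‖ ^ θ' ≤ l1 / (8 * K) := by
        have h8 : ‖z‖ ^ θ' ≤ ((l1 / (8 * K)) ^ (1 / θ')) ^ θ' :=
          Real.rpow_le_rpow hn.le (hzr.trans hr'K) hθ'0.le
        rw [← Real.rpow_mul (by positivity), one_div, inv_mul_cancel₀ hθ'0.ne', Real.rpow_one] at h8
        exact h8
      have h8 : K * ‖z‖ ^ θ' ≤ l1 / 8 := by
        have := mul_le_mul_of_nonneg_left h7 hK0.le
        have e : K * (l1 / (8 * K)) = l1 / 8 := by field_simp
        linarith
      rw [hS, Real.rpow_add hn, Real.rpow_one]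
      have h9 := mul_le_mul_of_nonneg_left h8 (show 0 ≤ 4 * n * ‖z‖ by positivity)
      linarith
    have hexp2 : Real.exp (-(2 * n * l1 / 2) * ‖z‖) * Real.exp (4 * S) ≤
        Real.exp (-(l1 / 2 * n * ‖z‖)) := by
      rw [← Real.exp_add, Real.exp_le_exp]
      linarith
    rw [e3, norm_mul, norm_mul, norm_pow, norm_neg, norm_one, one_pow, one_mul]
    have h10 : ‖Complex.exp A * (Complex.exp a - Complex.exp b) - (a - b)‖ ≤
        2 * n * kap α * ‖z‖ ^ α * (4 * S * Real.exp (4 * S)) :=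
      h5.trans (mul_le_mul_of_nonneg_right hab (by positivity))
    refine (mul_le_mul h6 h10 (norm_nonneg _) (by positivity)).trans ?_
    have h11 : Ct / ‖z‖ * Real.exp (-(2 * n * l1 / 2) * ‖z‖) *
        (2 * n * kap α * ‖z‖ ^ α * (4 * S * Real.exp (4 * S))) =
        Ct * (2 * kap α) * (4 * K) * n ^ 2 * (‖z‖ ^ α * ‖z‖ ^ (1 + θ') / ‖z‖) *
        (Real.exp (-(2 * n * l1 / 2) * ‖z‖) * Real.exp (4 * S)) := by
      rw [hS]; field_simp
    have h12 : ‖z‖ ^ α * ‖z‖ ^ (1 + θ') / ‖z‖ = ‖z‖ ^ (α + θ') := by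
      rw [Real.rpow_add hn, Real.rpow_one, Real.rpow_add hn]
      field_simp
    rw [h11, h12]
    exact mul_le_mul_of_nonneg_left hexp2 (by positivity)

/-! ### integrability -/

theorem za_q_cont {α : ℝ} {n : ℕ} {y0 : ℝ} (hg : ContinuousOn (gfun α) UH) :
    ContinuousOn (qfun α n y0) UH := by
  have e : qfun α n y0 = fun z => (rho (z.im / y0) : ℂ) * ztau z *
      (Complex.exp (-(2 * n * gfun α z) + n * ell α) *
      (Complex.exp (n * kap α * z ^ (α : ℂ)) - Complex.exp (n * kap α * (-z) ^ (α : ℂ)))) :=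
    funext fun z => za_q_eq α n y0 z
  rw [e]
  have h1 : Continuous fun z : ℂ => (rho (z.im / y0) : ℂ) := by
    unfold rho
    exact Complex.continuous_ofReal.comp (Real.smoothTransition.continuous.comp
      (by fun_prop))
  have h2 : ContinuousOn (fun z : ℂ => z ^ (α : ℂ)) UH := fun z hz =>
    (continuousAt_cpow_const (zb_slit hz)).continuousWithinAt
  have h3 : ContinuousOn (fun z : ℂ => (-z) ^ (α : ℂ)) UH := fun z hz =>
    (ContinuousAt.comp (f := fun z : ℂ => -z) (g := fun z : ℂ => z ^ (α : ℂ))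
      (continuousAt_cpow_const (zb_slit_neg hz)) continuous_neg.continuousAt).continuousWithinAt
  refine (h1.continuousOn.mul ztau_cont).mul (ContinuousOn.mul ?_ ?_)
  · exact Complex.continuous_exp.comp_continuousOn
      (((continuousOn_const.mul hg).neg).add continuousOn_const)
  · exact (Complex.continuous_exp.comp_continuousOn (continuousOn_const.mul h2)).sub
      (Complex.continuous_exp.comp_continuousOn (continuousOn_const.mul h3))

theorem za_W0_entry_bd {α δ y0 c : ℝ} (hα : 1 < α) (hδ : 0 < δ) (hδ' : δ < 1 / 2)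
    (hG : Geo α δ y0 c) {Ct : ℝ} (hC0 : 0 < Ct) (hC : ∀ z ∈ UH, ‖ztau z‖ ≤ Ct / ‖z‖) (n : ℕ)
    {z : ℂ} (hz : z ∈ UH) (i j : Fin 2) : ‖W0 α n y0 z i j‖ ≤
      3 * (2 * Ct * kap α * n * ‖z‖ ^ (α - 1) * Real.exp (-(c * n * ‖z‖))) := by
  have hk := za_kap_pos hα
  rw [W0_eq, Matrix.smul_apply, smul_eq_mul, norm_mul, norm_mul, norm_neg, Complex.norm_I, one_mul]
  by_cases h : 2 * y0 ≤ ‖z‖
  · rw [za_q_supp hG hz h, norm_zero, zero_mul]; positivity
  · push Not at h
    have hn : ‖z‖ ≤ 1 / 2 := by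
      have := hG.y0_le
      linarith
    have h1 := za_q_bd hα hδ hδ' hG hC0 hC n hz
    have h2 := zM_bd hz hn i j
    calc _ ≤ (2 * Ct * kap α * n * ‖z‖ ^ (α - 1) * Real.exp (-(c * n * ‖z‖))) * 3 :=
          mul_le_mul h1 h2 (norm_nonneg _) (by positivity)
      _ = _ := by ring

theorem za_W0_int {α δ y0 c : ℝ} (hα : 1 < α) (hδ : 0 < δ) (hδ' : δ < 1 / 2)
    (hG : Geo α δ y0 c) (hg : ContinuousOn (gfun α) UH) {n : ℕ} (hn1 : 1 ≤ n) (i j : Fin 2) :
    IntegrableOn (fun z => W0 α n y0 z i j) UH := by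
  obtain ⟨Ct, hC0, hC⟩ := ztau_bd
  have hn0 : (0 : ℝ) < n := by exact_mod_cast hn1
  have hc := hG.c_pos
  have h := ((zb_int_radial (q := α - 1) (b := c * n) (by linarith) (by positivity)).1.const_mul
    (3 * (2 * Ct * kap α * n))).integrableOn (s := UH)
  have hcont : ContinuousOn (fun z => W0 α n y0 z i j) UH := by
    have e : (fun z => W0 α n y0 z i j) = fun z => (-Complex.I * qfun α n y0 z) * zM z i j := by
      funext z; rw [W0_eq, Matrix.smul_apply, smul_eq_mul]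
    rw [e]
    exact (continuousOn_const.mul (za_q_cont hg)).mul (zM_cont i j)
  refine Integrable.mono' h (hcont.aestronglyMeasurable zb_meas_UH) ?_
  filter_upwards [ae_restrict_mem zb_meas_UH] with z hz
  refine (za_W0_entry_bd hα hδ hδ' hG hC0 hC n hz i j).trans (le_of_eq ?_)
  rw [show -(c * n) * ‖z‖ = -(c * n * ‖z‖) by ring]
  ring

end Pool.Agent.Freud
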