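import Pool.Agent.Freud.AsmLocal
import Pool.Agent.Freud.ZeroQ

/-!
Continuity and bounds for the parts of `W` (part R of BLUEPRINT.md).
-/

set_option autoImplicit false

open MeasureTheory Filter Topology Asymptotics

namespace Pool.Agent.Freud

theorem cj_continuous : Continuous cj := by
  unfold cj
  exact continuous_id.matrix_map Complex.continuous_conj

theorem refl_continuousAt {F : ℂ → Mat2} {z : ℂ} (h : ContinuousAt F (mc z)) :
    ContinuousAt (refl F) z := by
  have h1 : ContinuousAt (fun w => F (mc w)) z :=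
    ContinuousAt.comp (f := mc) (g := F) h mc_continuous.continuousAt
  have h2 : Continuous fun A : Mat2 => sig3 * cj A * sig3 :=
    (continuous_const.mul cj_continuous).mul continuous_const
  exact ContinuousAt.comp (f := fun w => F (mc w)) (g := fun A : Mat2 => sig3 * cj A * sig3)
    h2.continuousAt h1

theorem drho_cont (y0 : ℝ) : Continuous (drho y0) := by
  unfold drho
  have h : Continuous (deriv rho) := rho_facts.1.continuous_deriv le_rfl
  have h2 : Continuous fun z : ℂ => z.im / y0 := Complex.continuous_im.div_const _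
  have h3 : Continuous fun z : ℂ => ((deriv rho (z.im / y0) : ℝ) : ℂ) :=
    Complex.continuous_ofReal.comp (h.comp h2)
  exact (continuous_const.mul h3).div_const _

section

variable {α δ y0 c m1 : ℝ} {m : ℂ → ℂ} {n : ℕ}

theorem dGx_continuousAt (hα : 1 < α) (hy : 0 < y0) {z : ℂ}
    (hz : z ∈ UH) (h : |z.re| ≠ 1 ∨ y0 < z.im) :
    ContinuousAt (dGx α n y0) z := by
  by_cases h1 : y0 < z.im
  · have h2 : ∀ᶠ w in 𝓝 z, y0 < w.im :=
      (isOpen_lt continuous_const Complex.continuous_im).mem_nhds h1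
    have h3 : (fun _ => (0 : Mat2)) =ᶠ[𝓝 z] dGx α n y0 := by
      filter_upwards [h2] with w hw
      rw [dGx_zero_of_im hy hw.le]
    exact continuousAt_const.congr h3
  have h2 : |z.re| ≠ 1 := h.resolve_right h1
  have hd := (drho_cont y0).continuousAt (x := z)
  have mk : ∀ (f : ℂ → ℂ), ContinuousAt f z → ∀ (g : ℂ → ℂ), ContinuousAt g z →
      ContinuousAt (fun w => (!![0, f w; g w, 0] : Mat2)) z := by
    intro f hf g hg
    show Tendsto _ _ _
    rw [tendsto_mat]
    intro i j
    fin_cases i <;> fin_cases j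
    · exact tendsto_const_nhds
    · exact hf
    · exact hg
    · exact tendsto_const_nhds
  rcases lt_or_gt_of_ne h2 with h3 | h3
  · have h4 : ∀ᶠ w in 𝓝 z, |w.re| < 1 :=
      (isOpen_lt (continuous_abs.comp Complex.continuous_re) continuous_const).mem_nhds h3
    have hE : ContinuousAt (Ecen α n) z := (Ecen_hasDbar hα n hz).continuousAt
    refine (mk (fun _ => 0) continuousAt_const (fun w => -Complex.I * drho y0 w * Ecen α n w)
      ((continuousAt_const.mul hd).mul hE)).congr ?_
    filter_upwards [h4] with w hw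
    unfold dGx
    rw [if_pos hw]
  · have h1' : 1 < |z.re| := h3
    have h4 : ∀ᶠ w in 𝓝 z, 1 < |w.re| :=
      (isOpen_lt continuous_const (continuous_abs.comp Complex.continuous_re)).mem_nhds h3
    rcases lt_abs.mp h1' with h5 | h5
    · have h6 : ∀ᶠ w in 𝓝 z, 0 < w.re :=
        (isOpen_lt continuous_const Complex.continuous_re).mem_nhds (by linarith : (0 : ℝ) < z.re)
      have h7 : ContinuousAt (fun w => Complex.exp (2 * n * xiR α w)) z :=
        (((xiR_diff hα hz).const_mul _).cexp).continuousAt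
      refine (mk (fun w => Complex.I / 2 * drho y0 w * Complex.exp (2 * n * xiR α w))
        ((continuousAt_const.mul hd).mul h7) (fun _ => 0) continuousAt_const).congr ?_
      filter_upwards [h4, h6] with w hw hw2
      unfold dGx
      rw [if_neg (by linarith), if_pos hw2]
    · have h6 : ∀ᶠ w in 𝓝 z, w.re < 0 :=
        (isOpen_lt Complex.continuous_re continuous_const).mem_nhds (by linarith : z.re < (0 : ℝ))
      have h7 : ContinuousAt (fun w => Complex.exp (2 * n * xiL α w)) z :=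
        (((xiL_diff hα hz).const_mul _).cexp).continuousAt
      refine (mk (fun w => Complex.I / 2 * drho y0 w * Complex.exp (2 * n * xiL α w))
        ((continuousAt_const.mul hd).mul h7) (fun _ => 0) continuousAt_const).congr ?_
      filter_upwards [h4, h6] with w hw hw2
      unfold dGx
      rw [if_neg (by linarith), if_neg (by linarith)]

theorem dX1_continuousAt (hα : 1 < α) (hδ : 0 < δ) (hL : LocMap α δ m1 m) (hn : 1 ≤ n)
    (hy : 0 < y0) (hy1 : y0 ≤ 1) {z : ℂ} (hz : z ∈ UH) (h : |z.re| ≠ 1 ∨ y0 < z.im) :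
    ContinuousAt (dX1 α n y0 δ m) z := by
  by_cases hzb : ‖z - 1‖ < δ
  · have h1 := (Xrat_hasDbar hα hL hn hy hy1 hz hzb h).continuousAt
    exact ((deta_cont δ).continuousAt).smul (h1.sub continuousAt_const)
  · push Not at hzb
    have h2 : ∀ᶠ w in 𝓝 z, 3 * δ / 4 < ‖w - 1‖ := by
      have : Continuous fun w : ℂ => ‖w - 1‖ := by fun_prop
      exact (isOpen_lt continuous_const this).mem_nhds (by
        show 3 * δ / 4 < ‖z - 1‖
        linarith)
    have h3 : (fun _ => (0 : Mat2)) =ᶠ[𝓝 z] dX1 α n y0 δ m := by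
      filter_upwards [h2] with w hw
      rw [dX1_zero hδ (Or.inl hw.le)]
    exact continuousAt_const.congr h3

theorem Wann_eq (hδ : 0 < δ) {z : ℂ} (hz : z ∈ UH) (ho : Outer δ z) :
    Wann α y0 δ m n z =
      (refl (dX1 α n y0 δ m) z - dX1 α n y0 δ m z) * (Ymat α n y0 δ m z)⁻¹ := by
  unfold Wann
  split_ifs with h
  · rfl
  · have h2 : 3 * δ / 4 ≤ ‖z - 1‖ := by
      by_contra hc
      push Not at hc
      exact h ⟨hz, Or.inl ⟨ho.1, hc.le⟩⟩
    have h3 : 3 * δ / 4 ≤ ‖z + 1‖ := by
      by_contra hc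
      push Not at hc
      exact h ⟨hz, Or.inr ⟨ho.2, hc.le⟩⟩
    rw [dX1_zero hδ (Or.inl h2), rdX1_zero hδ (Or.inl h3)]
    simp

/-- Local alternatives: either `z` is near an inner disc or strictly outside. -/
theorem local_alt (hδ : 0 < δ) (z : ℂ) (hz : z ∈ UH) :
    (∀ᶠ w in 𝓝 z, w ∈ UH ∧ (‖w - 1‖ ≤ 13 * δ / 25 ∨ ‖w + 1‖ ≤ 13 * δ / 25)) ∨
    ((∀ᶠ w in 𝓝 z, w ∈ UH ∧ Outer δ w) ∧ Outer δ z) := by
  have c1 : Continuous fun w : ℂ => ‖w - 1‖ := by fun_prop
  have c2 : Continuous fun w : ℂ => ‖w + 1‖ := by fun_prop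
  by_cases h1 : ‖z - 1‖ < 13 * δ / 25
  · left
    filter_upwards [(isOpen_lt c1 continuous_const).mem_nhds h1, isOpen_UH.mem_nhds hz] with w h hw
    exact ⟨hw, Or.inl (le_of_lt h)⟩
  by_cases h2 : ‖z + 1‖ < 13 * δ / 25
  · left
    filter_upwards [(isOpen_lt c2 continuous_const).mem_nhds h2, isOpen_UH.mem_nhds hz] with w h hw
    exact ⟨hw, Or.inr (le_of_lt h)⟩
  right
  push Not at h1 h2
  have h3 : δ / 2 < ‖z - 1‖ := by linarith
  have h4 : δ / 2 < ‖z + 1‖ := by linarith
  refine ⟨?_, h3.le, h4.le⟩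
  filter_upwards [(isOpen_lt continuous_const c1).mem_nhds h3,
    (isOpen_lt continuous_const c2).mem_nhds h4, isOpen_UH.mem_nhds hz] with w ha hb hw
  exact ⟨hw, le_of_lt ha, le_of_lt hb⟩

theorem Yinv_continuousAt (hα : 1 < α) (hδ : 0 < δ) (hδ' : δ < 1 / 2) (hL : LocMap α δ m1 m)
    (hn : 1 ≤ n) (hy : 0 < y0) (hy8 : y0 ≤ δ / 8)
    (hX : ∀ z ∈ ann δ, nm (Xrat α n y0 m z - 1) ≤ 1 / 4) {z : ℂ} (hz : z ∈ UH)
    (ho : Outer δ z) : ContinuousAt (fun w => (Ymat α n y0 δ m w)⁻¹) z := by
  have hy1 : y0 ≤ 1 := by linarith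
  have hre := outer_re hδ hy8 ho (show 0 < z.im from hz)
  have hYn := Ymat_near hδ hδ' hX hz ho
  have hYd : (Ymat α n y0 δ m z).det ≠ 0 := det_ne_of_near (by linarith)
  exact ((Ymat_hasDbar hα hδ hL hn hy hy1 hz hre).inv hYd).continuousAt

theorem Wann_cont (hα : 1 < α) (hδ : 0 < δ) (hδ' : δ < 1 / 2) (hL : LocMap α δ m1 m)
    (hn : 1 ≤ n) (hy : 0 < y0) (hy8 : y0 ≤ δ / 8)
    (hX : ∀ z ∈ ann δ, nm (Xrat α n y0 m z - 1) ≤ 1 / 4) :
    ContinuousOn (Wann α y0 δ m n) UH := by
  intro z hz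
  apply ContinuousAt.continuousWithinAt
  have hy1 : y0 ≤ 1 := by linarith
  rcases local_alt hδ z hz with h | ⟨h, ho⟩
  · have h3 : (fun _ => (0 : Mat2)) =ᶠ[𝓝 z] Wann α y0 δ m n := by
      filter_upwards [h] with w hw
      exact (Wtot_zero hδ hδ' hy hy8 hw.1 hw.2).1.symm
    exact continuousAt_const.congr h3
  · have hre := outer_re hδ hy8 ho (show 0 < z.im from hz)
    have hYi := Yinv_continuousAt hα hδ hδ' hL hn hy hy8 hX hz ho
    have h1 := dX1_continuousAt hα hδ hL hn hy hy1 hz hre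
    have h2 : ContinuousAt (refl (dX1 α n y0 δ m)) z := by
      apply refl_continuousAt
      apply dX1_continuousAt hα hδ hL hn hy hy1 (mc_mem hz)
      rwa [mc_re, mc_im, abs_neg]
    refine ((h2.sub h1).mul hYi).congr ?_
    filter_upwards [h] with w hw
    exact (Wann_eq hδ hw.1 hw.2).symm

theorem Wrem_cont (hα : 1 < α) (hδ : 0 < δ) (hδ' : δ < 1 / 2) (hL : LocMap α δ m1 m)
    (hn : 1 ≤ n) (hy : 0 < y0) (hy8 : y0 ≤ δ / 8)
    (hX : ∀ z ∈ ann δ, nm (Xrat α n y0 m z - 1) ≤ 1 / 4) :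
    ContinuousOn (Wrem α y0 δ m n) UH := by
  intro z hz
  apply ContinuousAt.continuousWithinAt
  rcases local_alt hδ z hz with h | ⟨h, ho⟩
  · have h3 : (fun _ => (0 : Mat2)) =ᶠ[𝓝 z] Wrem α y0 δ m n := by
      filter_upwards [h] with w hw
      exact (Wtot_zero hδ hδ' hy hy8 hw.1 hw.2).2.2.symm
    exact continuousAt_const.congr h3
  · have hre := outer_re hδ hy8 ho (show 0 < z.im from hz)
    have hYi := Yinv_continuousAt hα hδ hδ' hL hn hy hy8 hX hz ho
    have hN := (Nmat_hasDbar hz).continuousAt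
    have hNi := (Ninv_hasDbar hz).continuousAt
    have hd := dGx_continuousAt (n := n) hα hy hz hre
    have he : ContinuousAt (fun w => ((1 - eta δ w - eta δ (mc w) : ℝ) : ℂ)) z := by
      have : Continuous (fun w => ((1 - eta δ w - eta δ (mc w) : ℝ) : ℂ)) :=
        Complex.continuous_ofReal.comp
          ((continuous_const.sub (eta_cont δ)).sub ((eta_cont δ).comp mc_continuous))
      exact this.continuousAt
    exact he.smul (((hN.mul hd).mul hNi).mul hYi)

theorem W0_cont (hα : 1 < α) (n : ℕ) (y0 : ℝ) : ContinuousOn (W0 α n y0) UH := by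
  have hg : ContinuousOn (gfun α) UH := fun z hz =>
    ((gfun_hasDerivAt α hα z hz).continuousAt).continuousWithinAt
  have hq : ContinuousOn (qfun α n y0) UH := za_q_cont hg
  intro z hz
  have hN := (Nmat_hasDbar hz).continuousAt.continuousWithinAt (s := UH)
  have hNi := (Ninv_hasDbar hz).continuousAt.continuousWithinAt (s := UH)
  have h1 : ContinuousWithinAt (fun w => (!![0, 0; -Complex.I * qfun α n y0 w, 0] : Mat2)) UH z := by
    show Tendsto _ _ _
    rw [tendsto_mat]
    intro i j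
    fin_cases i <;> fin_cases j
    · exact tendsto_const_nhds
    · exact tendsto_const_nhds
    · exact (hq z hz).const_mul _
    · exact tendsto_const_nhds
  exact (hN.mul h1).mul hNi

theorem outer_good (hy8 : y0 ≤ δ / 8) {z : ℂ} (hz : z ∈ UH) (ho : Outer δ z) :
    Good δ y0 z := by
  have hz' : 0 < z.im := hz
  by_contra hc
  unfold Good at hc
  push Not at hc
  obtain ⟨h1, h2, h3⟩ := hc
  have key : ∀ w : ℂ, |w.re| ≤ δ / 4 → w.im = z.im → δ / 2 ≤ ‖w‖ → False := by
    intro w a b d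
    have h4 := Complex.norm_le_abs_re_add_abs_im w
    rw [b, abs_of_pos hz'] at h4
    linarith
  rcases le_total 0 z.re with h | h
  · rw [abs_of_nonneg h] at h1 h2
    refine key (z - 1) ?_ (by simp) ho.1
    rw [abs_le]
    simp
    constructor <;> linarith
  · rw [abs_of_nonpos h] at h1 h2
    refine key (z + 1) ?_ (by simp) ho.2
    rw [abs_le]
    simp
    constructor <;> linarith

theorem not_outer {z : ℂ} (h : ¬ Outer δ z) (hδ : 0 < δ) :
    ‖z - 1‖ ≤ 13 * δ / 25 ∨ ‖z + 1‖ ≤ 13 * δ / 25 := by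
  unfold Outer at h
  rw [not_and_or] at h
  push Not at h
  rcases h with h | h
  · left; linarith
  · right; linarith

/-- A bound for `Wrem`. -/
theorem Wrem_bound (hδ : 0 < δ) (hδ' : δ < 1 / 2) (hG : Geo α δ y0 c) :
    ∃ C c' : ℝ, 0 < c' ∧ 0 ≤ C ∧ ∀ n : ℕ, 1 ≤ n →
      (∀ z ∈ ann δ, nm (Xrat α n y0 m z - 1) ≤ 1 / 4) → ∀ z ∈ UH,
      nm (Wrem α y0 δ m n z) ≤ C * Real.exp (-(c' * n)) * Real.exp (-(c' * ‖z‖)) := by
  obtain ⟨C, c', hc', hC, hb⟩ := dGx_bound hG hδ'
  have hy := hG.y0_pos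
  have hy8 := hG.y0_le
  set D : ℝ := 4 * (1 + 2 / (δ / 2)) with hD
  have hD0 : 0 ≤ D := by positivity
  refine ⟨D * C * D * 10, c', hc', by positivity, ?_⟩
  intro n hn hX z hz
  by_cases ho : Outer δ z
  · have h1 := hb n hn z hz (outer_good hy8 hz ho)
    have hN := Nmat_bound (by positivity : 0 < δ / 2) ho.1 ho.2
    have hNi := Ninv_bound (by positivity : 0 < δ / 2) ho.1 ho.2
    have hYn := Ymat_near hδ hδ' hX hz ho
    have hYi := inv_near_one (A := Ymat α n y0 δ m z) (by linarith)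
    unfold Wrem
    rw [nm_smul, Complex.norm_real, Real.norm_eq_abs]
    have he : |1 - eta δ z - eta δ (mc z)| ≤ 1 := by
      have a1 := eta_nonneg δ z
      have a2 := eta_le_one δ z
      have a3 := eta_nonneg δ (mc z)
      have a4 := eta_le_one δ (mc z)
      rw [abs_le]
      constructor <;> linarith
    set E := Real.exp (-(c' * n)) * Real.exp (-(c' * ‖z‖)) with hE
    have hE0 : 0 ≤ E := by positivity
    have h1' : nm (dGx α n y0 z) ≤ C * E := by rw [hE, ← mul_assoc]; exact h1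
    calc |1 - eta δ z - eta δ (mc z)| *
          nm (Nmat z * dGx α n y0 z * Ninv z * (Ymat α n y0 δ m z)⁻¹)
        ≤ 1 * (nm (Nmat z * dGx α n y0 z * Ninv z) * nm ((Ymat α n y0 δ m z)⁻¹)) :=
          mul_le_mul he (nm_mul _ _) (nm_nonneg _) zero_le_one
      _ ≤ 1 * ((nm (Nmat z * dGx α n y0 z) * nm (Ninv z)) * 10) := by
          have := nm_nonneg (Nmat z * dGx α n y0 z * Ninv z)
          have := nm_nonneg ((Ymat α n y0 δ m z)⁻¹)
          have := nm_nonneg (Nmat z * dGx α n y0 z)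
          have := nm_nonneg (Ninv z)
          gcongr
          exact nm_mul _ _
      _ ≤ 1 * (((D * (C * E)) * D) * 10) := by
          have p1 := nm_nonneg (Nmat z * dGx α n y0 z)
          have p2 := nm_nonneg (Ninv z)
          have p3 := nm_nonneg (Nmat z)
          have p4 := nm_nonneg (dGx α n y0 z)
          have : nm (Nmat z * dGx α n y0 z) ≤ D * (C * E) :=
            (nm_mul _ _).trans (mul_le_mul hN h1' p4 hD0)
          gcongr
      _ = D * C * D * 10 * Real.exp (-(c' * n)) * Real.exp (-(c' * ‖z‖)) := by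
          rw [hE]; ring
  · rw [(Wtot_zero (α := α) (n := n) (m := m) hδ hδ' hy hy8 hz (not_outer ho hδ)).2.2, nm_zero]
    positivity

theorem Aset_meas (δ : ℝ) : MeasurableSet (Aset δ) := by
  have c1 : Continuous fun w : ℂ => ‖w - 1‖ := by fun_prop
  have c2 : Continuous fun w : ℂ => ‖w + 1‖ := by fun_prop
  unfold Aset
  refine (isOpen_UH.measurableSet).inter (MeasurableSet.union ?_ ?_)
  · exact (measurableSet_le measurable_const c1.measurable).inter
      (measurableSet_le c1.measurable measurable_const)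
  · exact (measurableSet_le measurable_const c2.measurable).inter
      (measurableSet_le c2.measurable measurable_const)

theorem Aset_loc (hδ : 0 < δ) (hδ' : δ < 1 / 2) {z : ℂ} (hz : z ∈ Aset δ) :
    1 / 2 ≤ ‖z‖ ∧ ‖z‖ ≤ 2 := by
  rcases hz.2 with h | h
  · have h1 := norm_ge_of_near_one h.2
    have h2 : ‖z‖ ≤ ‖z - 1‖ + 1 := by
      have : z = (z - 1) + 1 := by ring
      conv_lhs => rw [this]
      refine (norm_add_le _ _).trans ?_
      simp
    constructor <;> linarith [h.2]
  · have h1 := norm_ge_of_near_neg_one h.2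
    have h2 : ‖z‖ ≤ ‖z + 1‖ + 1 := by
      have : z = (z + 1) - 1 := by ring
      conv_lhs => rw [this]
      refine (norm_sub_le _ _).trans ?_
      simp
    constructor <;> linarith [h.2]

theorem Aset_im (hδ' : δ < 1 / 2) {z : ℂ} (hz : z ∈ Aset δ) : z.im < 1 := by
  rcases hz.2 with h | h
  · have := Complex.abs_im_le_norm (z - 1)
    have h2 := le_abs_self (z - 1).im
    simp at this h2
    linarith [h.2]
  · have := Complex.abs_im_le_norm (z + 1)
    have h2 := le_abs_self (z + 1).im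
    simp at this h2
    linarith [h.2]

theorem Wtot_zero_of_im (hδ' : δ < 1 / 2) (hy : 0 < y0) (hy1 : y0 ≤ 1)
    {z : ℂ} (him : 1 ≤ z.im) : Wtot α y0 δ m n z = 0 := by
  have h1 : Wann α y0 δ m n z = 0 := by
    unfold Wann
    rw [if_neg]
    intro h
    have := Aset_im hδ' h
    linarith
  have h2 : W0 α n y0 z = 0 := by
    unfold W0
    rw [qfun_zero_of_im hy (by linarith)]
    have : (!![0, 0; -Complex.I * 0, 0] : Mat2) = 0 := by
      ext i j
      fin_cases i <;> fin_cases j <;> simp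
    rw [this]
    simp
  have h3 : Wrem α y0 δ m n z = 0 := by
    unfold Wrem
    rw [dGx_zero_of_im hy (by linarith)]
    simp
  unfold Wtot
  rw [h1, h2, h3]
  simp

end

end Pool.Agent.Freud
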