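import Pool.Agent.Freud.Defs2

/-!
Definitions for the assembly (part R of BLUEPRINT.md).
-/

set_option autoImplicit false

open MeasureTheory Filter Topology Asymptotics

namespace Pool.Agent.Freud

/-- The support of the annular source term. -/
def Aset (δ : ℝ) : Set ℂ :=
  {z | z ∈ UH ∧ ((δ / 2 ≤ ‖z - 1‖ ∧ ‖z - 1‖ ≤ 3 * δ / 4) ∨
    (δ / 2 ≤ ‖z + 1‖ ∧ ‖z + 1‖ ≤ 3 * δ / 4))}

/-- The cut-off correction near `1`. -/
noncomputable def X1 (α : ℝ) (n : ℕ) (y0 δ : ℝ) (m : ℂ → ℂ) (z : ℂ) : Mat2 :=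
  (eta δ z : ℂ) • (Xrat α n y0 m z - 1)

/-- The leading part of its dbar derivative. -/
noncomputable def dX1 (α : ℝ) (n : ℕ) (y0 δ : ℝ) (m : ℂ → ℂ) (z : ℂ) : Mat2 :=
  deta δ z • (Xrat α n y0 m z - 1)

/-- The correction matrix: the global parametrix is `Ymat z * Nmat z`. -/
noncomputable def Ymat (α : ℝ) (n : ℕ) (y0 δ : ℝ) (m : ℂ → ℂ) (z : ℂ) : Mat2 :=
  1 + X1 α n y0 δ m z + refl (X1 α n y0 δ m) z

/-- The annular part of `W`. -/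
noncomputable def Wann (α : ℝ) (y0 δ : ℝ) (m : ℂ → ℂ) (n : ℕ) (z : ℂ) : Mat2 :=
  open Classical in
  if z ∈ Aset δ then
    (refl (dX1 α n y0 δ m) z - dX1 α n y0 δ m z) * (Ymat α n y0 δ m z)⁻¹ else 0

/-- The boundary factor of `T` and of the local parametrices. -/
noncomputable def Jmat (α : ℝ) (n : ℕ) (x : ℝ) (b : ℂ) : Mat2 :=
  !![1, -(Complex.I / 2) * (wt α n x : ℂ); 0, 1] *
    !![Complex.exp (-(n * b)), 0; 0, Complex.exp (n * b - n * ell α)]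

/-- `F` has a boundary value `A * Jmat` at `x` with real `A`. -/
def HasJ (α : ℝ) (n : ℕ) (F : ℂ → Mat2) (x : ℝ) (A : Matrix (Fin 2) (Fin 2) ℝ) : Prop :=
  ∃ b : ℂ, Tendsto (fun ε : ℝ => gfun α (x + ε * Complex.I)) (𝓝[>] 0) (𝓝 b) ∧
    Tendsto (fun ε : ℝ => F (x + ε * Complex.I)) (𝓝[>] 0)
      (𝓝 (A.map (fun t : ℝ => (t : ℂ)) * Jmat α n x b))

/-- `F` has a real boundary value at `x`. -/
def HasR (F : ℂ → Mat2) (x : ℝ) : Prop :=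
  ∃ A : Matrix (Fin 2) (Fin 2) ℝ, Tendsto (fun ε : ℝ => F (x + ε * Complex.I)) (𝓝[>] 0)
      (𝓝 (A.map (fun t : ℝ => (t : ℂ))))

end Pool.Agent.Freud
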