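import Pool.Agent.Freud.AiryAsymp
import Pool.Agent.Freud.Airy1

set_option autoImplicit false

open MeasureTheory Filter Topology Asymptotics

namespace Pool.Agent.Freud

/-! The determinant of the Airy model solution. -/

lemma psiDet_om6 : om ^ 6 = 1 := by
  unfold om
  rw [← Complex.exp_nat_mul]
  rw [show ((6 : ℕ) : ℂ) * (2 * Real.pi * Complex.I / 3) = 2 * (2 * Real.pi * Complex.I) by
    push_cast; ring]
  exact_mod_cast Complex.exp_nat_mul_two_pi_mul_I 2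

/-- The Wronskian. -/
noncomputable def psiW (ζ : ℂ) : ℂ :=
  om ^ 2 * (Airy ζ * Airy' (om ^ 2 * ζ)) - Airy' ζ * Airy (om ^ 2 * ζ)

lemma psiW_hasDerivAt (ζ : ℂ) : HasDerivAt psiW 0 ζ := by
  have hl : HasDerivAt (fun z : ℂ => om ^ 2 * z) (om ^ 2) ζ := by
    simpa using (hasDerivAt_id ζ).const_mul (om ^ 2)
  have h1 : HasDerivAt (fun z => Airy (om ^ 2 * z)) (Airy' (om ^ 2 * ζ) * om ^ 2) ζ :=
    (Airy_hasDerivAt (om ^ 2 * ζ)).comp ζ hl
  have h2 : HasDerivAt (fun z => Airy' (om ^ 2 * z))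
      (om ^ 2 * ζ * Airy (om ^ 2 * ζ) * om ^ 2) ζ :=
    (Airy'_hasDerivAt (om ^ 2 * ζ)).comp ζ hl
  have h3 := (((Airy_hasDerivAt ζ).mul h2).const_mul (om ^ 2)).sub ((Airy'_hasDerivAt ζ).mul h1)
  refine h3.congr_deriv ?_
  have h6 := psiDet_om6
  linear_combination (ζ * Airy ζ * Airy (om ^ 2 * ζ)) * h6

lemma psiW_const (z w : ℂ) : psiW z = psiW w :=
  is_const_of_deriv_eq_zero (fun z => (psiW_hasDerivAt z).differentiableAt)
    (fun z => (psiW_hasDerivAt z).deriv) z w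

/-- The normalised Airy function. -/
noncomputable def psiS (ζ : ℂ) : ℂ :=
  2 * √Real.pi * ζ ^ (1 / 4 : ℂ) * Complex.exp (2 / 3 * ζ ^ (3 / 2 : ℂ)) * Airy ζ

/-- The normalised derivative. -/
noncomputable def psiS' (ζ : ℂ) : ℂ :=
  -(2 * √Real.pi * ζ ^ (-(1 / 4) : ℂ) * Complex.exp (2 / 3 * ζ ^ (3 / 2 : ℂ)) * Airy' ζ)

lemma psi_log (τ θ : ℝ) (h1 : -Real.pi < θ) (h2 : θ ≤ Real.pi) :
    Complex.log (Complex.exp ((τ : ℂ) + θ * Complex.I)) = (τ : ℂ) + θ * Complex.I := by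
  apply Complex.log_exp <;> simp [h1, h2]

lemma psi_tendsto (θ : ℝ) (h : |θ| ≤ 3 * Real.pi / 4) :
    Tendsto (fun τ : ℝ => psiS (Complex.exp ((τ : ℂ) + θ * Complex.I))) atTop (𝓝 1) ∧
    Tendsto (fun τ : ℝ => psiS' (Complex.exp ((τ : ℂ) + θ * Complex.I))) atTop (𝓝 1) := by
  obtain ⟨u, v, hu, hv, H⟩ := Airy_asymp
  obtain ⟨C, hC⟩ := H 0 (Real.pi / 4) (by positivity)
  have hθ := abs_le.mp h
  have hn : ∀ τ : ℝ, ‖Complex.exp ((τ : ℂ) + θ * Complex.I)‖ = Real.exp τ := by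
    intro τ
    rw [Complex.norm_exp]
    simp
  have harg : ∀ τ : ℝ, |(Complex.exp ((τ : ℂ) + θ * Complex.I)).arg| ≤ Real.pi - Real.pi / 4 := by
    intro τ
    rw [← Complex.log_im, psi_log τ θ (by linarith [Real.pi_pos, hθ.1])
      (by linarith [Real.pi_pos, hθ.2])]
    have : ((τ : ℂ) + θ * Complex.I).im = θ := by simp
    rw [this]
    linarith
  have hlim : Tendsto (fun τ : ℝ => C * Real.exp τ ^ (-(3 * ((0 : ℕ) + 1) / 2) : ℝ)) atTop
      (𝓝 0) := by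
    have h1 : Tendsto (fun τ : ℝ => Real.exp τ ^ (-(3 / 2) : ℝ)) atTop (𝓝 0) :=
      (tendsto_rpow_neg_atTop (by norm_num : (0 : ℝ) < 3 / 2)).comp Real.tendsto_exp_atTop
    have h2 := h1.const_mul C
    rw [mul_zero] at h2
    refine h2.congr fun τ => ?_
    norm_num
  constructor
  · rw [← tendsto_sub_nhds_zero_iff]
    refine squeeze_zero_norm' ?_ hlim
    filter_upwards [eventually_ge_atTop (0 : ℝ)] with τ hτ
    have h3 := (hC (Complex.exp ((τ : ℂ) + θ * Complex.I)) (by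
      rw [hn]; exact Real.one_le_exp hτ) (harg τ)).1
    rw [zero_add, Finset.sum_range_one, pow_zero, inv_one, mul_one, hu, hn] at h3
    exact h3
  · rw [← tendsto_sub_nhds_zero_iff]
    refine squeeze_zero_norm' ?_ hlim
    filter_upwards [eventually_ge_atTop (0 : ℝ)] with τ hτ
    have h3 := (hC (Complex.exp ((τ : ℂ) + θ * Complex.I)) (by
      rw [hn]; exact Real.one_le_exp hτ) (harg τ)).2
    rw [zero_add, Finset.sum_range_one, pow_zero, inv_one, mul_one, hv, hn] at h3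
    exact h3

theorem Psi_det (ζ : ℂ) : (Psi ζ).det = -1 := by
  set Z : ℝ → ℂ := fun τ => Complex.exp ((τ : ℂ) + (Real.pi / 2 : ℝ) * Complex.I) with hZ
  set H : ℝ → ℂ := fun τ => Complex.exp ((τ : ℂ) + (-(Real.pi / 6) : ℝ) * Complex.I) with hH
  have hZl : ∀ τ, Complex.log (Z τ) = (τ : ℂ) + (Real.pi / 2 : ℝ) * Complex.I := fun τ =>
    psi_log τ _ (by linarith [Real.pi_pos]) (by linarith [Real.pi_pos])
  have hHl : ∀ τ, Complex.log (H τ) = (τ : ℂ) + (-(Real.pi / 6) : ℝ) * Complex.I := fun τ =>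
    psi_log τ _ (by linarith [Real.pi_pos]) (by linarith [Real.pi_pos])
  have hZ0 : ∀ τ, Z τ ≠ 0 := fun τ => Complex.exp_ne_zero _
  have hH0 : ∀ τ, H τ ≠ 0 := fun τ => Complex.exp_ne_zero _
  have hZH : ∀ τ, om ^ 2 * Z τ = H τ := by
    intro τ
    rw [hZ, hH]
    simp only
    unfold om
    rw [← Complex.exp_nat_mul, ← Complex.exp_add]
    rw [show ((2 : ℕ) : ℂ) * (2 * Real.pi * Complex.I / 3) +
      ((τ : ℂ) + ((Real.pi / 2 : ℝ) : ℂ) * Complex.I) =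
      ((τ : ℂ) + ((-(Real.pi / 6) : ℝ) : ℂ) * Complex.I) + 2 * Real.pi * Complex.I by
      push_cast; ring]
    rw [Complex.exp_add, Complex.exp_two_pi_mul_I, mul_one]
  set q : ℂ := Complex.exp (-(Real.pi / 6) * Complex.I) with hq
  have hq0 : q ≠ 0 := Complex.exp_ne_zero _
  have hZH14 : ∀ τ, H τ ^ (1 / 4 : ℂ) = q * Z τ ^ (1 / 4 : ℂ) := by
    intro τ
    rw [Complex.cpow_def_of_ne_zero (hH0 τ), Complex.cpow_def_of_ne_zero (hZ0 τ), hZl, hHl, hq,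
      ← Complex.exp_add]
    congr 1
    push_cast
    ring
  have hexp : ∀ τ, Complex.exp (2 / 3 * Z τ ^ (3 / 2 : ℂ)) *
      Complex.exp (2 / 3 * H τ ^ (3 / 2 : ℂ)) = 1 := by
    intro τ
    have h1 : H τ ^ (3 / 2 : ℂ) = -(Z τ ^ (3 / 2 : ℂ)) := by
      rw [Complex.cpow_def_of_ne_zero (hH0 τ), Complex.cpow_def_of_ne_zero (hZ0 τ), hZl, hHl,
        show ((τ : ℂ) + ((-(Real.pi / 6) : ℝ) : ℂ) * Complex.I) * (3 / 2) =
          ((τ : ℂ) + ((Real.pi / 2 : ℝ) : ℂ) * Complex.I) * (3 / 2) - Real.pi * Complex.I by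
          push_cast; ring, Complex.exp_sub, Complex.exp_pi_mul_I]
      ring
    rw [h1, ← Complex.exp_add]
    simp
  have hsπ : ((√Real.pi : ℝ) : ℂ) * ((√Real.pi : ℝ) : ℂ) = (Real.pi : ℂ) := by
    rw [← Complex.ofReal_mul, Real.mul_self_sqrt Real.pi_pos.le]
  have hid : ∀ τ, 4 * Real.pi * psiW (Z τ) =
      -(om ^ 2 * q) * (psiS (Z τ) * psiS' (H τ)) + q⁻¹ * (psiS' (Z τ) * psiS (H τ)) := by
    intro τ
    have hz4 : Z τ ^ (1 / 4 : ℂ) ≠ 0 := by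
      rw [Ne, Complex.cpow_eq_zero_iff]
      exact fun h => hZ0 τ h.1
    unfold psiW psiS psiS'
    rw [hZH τ, Complex.cpow_neg (Z τ), Complex.cpow_neg (H τ), hZH14 τ, ← hsπ]
    have e := hexp τ
    have e1 : -(om ^ 2 * q) * (2 * ((√Real.pi : ℝ) : ℂ) * Z τ ^ (1 / 4 : ℂ) *
        Complex.exp (2 / 3 * Z τ ^ (3 / 2 : ℂ)) * Airy (Z τ) *
        -(2 * ((√Real.pi : ℝ) : ℂ) * (q * Z τ ^ (1 / 4 : ℂ))⁻¹ *
          Complex.exp (2 / 3 * H τ ^ (3 / 2 : ℂ)) * Airy' (H τ))) =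
        4 * (((√Real.pi : ℝ) : ℂ) * ((√Real.pi : ℝ) : ℂ)) * (om ^ 2 * (Airy (Z τ) * Airy' (H τ))) *
          (Complex.exp (2 / 3 * Z τ ^ (3 / 2 : ℂ)) * Complex.exp (2 / 3 * H τ ^ (3 / 2 : ℂ))) := by
      field_simp
      ring
    have e2 : q⁻¹ * (-(2 * ((√Real.pi : ℝ) : ℂ) * (Z τ ^ (1 / 4 : ℂ))⁻¹ *
        Complex.exp (2 / 3 * Z τ ^ (3 / 2 : ℂ)) * Airy' (Z τ)) *
        (2 * ((√Real.pi : ℝ) : ℂ) * (q * Z τ ^ (1 / 4 : ℂ)) *
          Complex.exp (2 / 3 * H τ ^ (3 / 2 : ℂ)) * Airy (H τ))) =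
        -(4 * (((√Real.pi : ℝ) : ℂ) * ((√Real.pi : ℝ) : ℂ)) * (Airy' (Z τ) * Airy (H τ))) *
          (Complex.exp (2 / 3 * Z τ ^ (3 / 2 : ℂ)) * Complex.exp (2 / 3 * H τ ^ (3 / 2 : ℂ))) := by
      field_simp
      ring
    rw [e1, e2, e]
    ring
  have hlimZ := psi_tendsto (Real.pi / 2) (by
    rw [abs_of_pos (by positivity)]
    linarith [Real.pi_pos])
  have hlimH := psi_tendsto (-(Real.pi / 6)) (by
    rw [abs_neg, abs_of_pos (by positivity)]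
    linarith [Real.pi_pos])
  have hlim : Tendsto (fun τ : ℝ => -(om ^ 2 * q) * (psiS (Z τ) * psiS' (H τ)) +
      q⁻¹ * (psiS' (Z τ) * psiS (H τ))) atTop
      (𝓝 (-(om ^ 2 * q) * (1 * 1) + q⁻¹ * (1 * 1))) :=
    ((hlimZ.1.mul hlimH.2).const_mul _).add ((hlimZ.2.mul hlimH.1).const_mul _)
  have hconst : Tendsto (fun τ : ℝ => -(om ^ 2 * q) * (psiS (Z τ) * psiS' (H τ)) +
      q⁻¹ * (psiS' (Z τ) * psiS (H τ))) atTop (𝓝 (4 * Real.pi * psiW ζ)) := by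
    refine tendsto_const_nhds.congr fun τ => ?_
    rw [← hid τ, psiW_const ζ (Z τ)]
  have hval := tendsto_nhds_unique hconst hlim
  have homq : om ^ 2 * q = -q⁻¹ := by
    rw [hq, ← Complex.exp_neg]
    unfold om
    rw [← Complex.exp_nat_mul, ← Complex.exp_add,
      show ((2 : ℕ) : ℂ) * (2 * Real.pi * Complex.I / 3) + -(Real.pi / 6) * Complex.I =
        -(-(Real.pi / 6) * Complex.I) + Real.pi * Complex.I by push_cast; ring, Complex.exp_add,
      Complex.exp_pi_mul_I]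
    ring
  have hq2 : q⁻¹ * (Complex.I * om ^ 2) = 1 := by
    rw [hq, ← Complex.exp_neg]
    unfold om
    rw [← Complex.exp_nat_mul, show Complex.exp (-(-(Real.pi / 6) * Complex.I)) * (Complex.I *
      Complex.exp ((2 : ℕ) * (2 * Real.pi * Complex.I / 3))) =
      Complex.exp (-(-(Real.pi / 6) * Complex.I)) *
      Complex.exp ((2 : ℕ) * (2 * Real.pi * Complex.I / 3)) * Complex.I by ring]
    rw [← Complex.exp_add]
    have hI : Complex.I = Complex.exp (Real.pi / 2 * Complex.I) := Complex.exp_pi_div_two_mul_I.symm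
    rw [show -(-((Real.pi : ℂ) / 6) * Complex.I) + ((2 : ℕ) : ℂ) * (2 * Real.pi * Complex.I / 3) =
      2 * Real.pi * Complex.I - Real.pi / 2 * Complex.I by push_cast; ring, Complex.exp_sub,
      Complex.exp_two_pi_mul_I, Complex.exp_pi_div_two_mul_I]
    exact one_div_mul_cancel Complex.I_ne_zero
  have hdet : (Psi ζ).det = -(Complex.I * om ^ 2) * (4 * Real.pi * psiW ζ) / 2 := by
    have h2π : ((√(2 * Real.pi) : ℝ) : ℂ) * ((√(2 * Real.pi) : ℝ) : ℂ) = 2 * (Real.pi : ℂ) := by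
      rw [← Complex.ofReal_mul, Real.mul_self_sqrt (by positivity)]
      push_cast
      ring
    unfold Psi psiW
    rw [Matrix.det_fin_two]
    simp only [Matrix.smul_apply, smul_eq_mul, Matrix.of_apply, Matrix.cons_val', Matrix.cons_val_zero,
      Matrix.cons_val_one, Matrix.cons_val_fin_one]
    linear_combination (-(Complex.I * om ^ 4 * (Airy ζ * Airy' (om ^ 2 * ζ))) +
      Complex.I * om ^ 2 * (Airy' ζ * Airy (om ^ 2 * ζ))) * h2π
  rw [hdet, hval, homq]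
  linear_combination (-1) * hq2

end Pool.Agent.Freud
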