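import Pool.Agent.Freud.Defs2
import Pool.Agent.Freud.Airy1
import Pool.Agent.Freud.PsiDet
import Pool.Agent.Freud.GBasic

/-!
# The local parametrix at 1: determinant, analyticity and boundary values
-/

set_option autoImplicit false

open MeasureTheory Filter Topology Asymptotics

namespace Pool.Agent.Freud

namespace PlocAux

variable {α δ m1 : ℝ} {m : ℂ → ℂ}

lemma base_re (hL : LocMap α δ m1 m) {z : ℂ} (hz : z ∈ Metric.ball (1 : ℂ) δ) :
    0 < (m z * (z + 1)).re := by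
  have h1 := hL.close z hz
  have h2 : ‖z - 1‖ < 1 / 2 := by
    have := hL.δ_lt
    rw [Metric.mem_ball, dist_eq_norm] at hz
    linarith
  have hm := hL.m1_pos
  have a1 := Complex.abs_re_le_norm (m z - m1)
  have a2 := Complex.abs_im_le_norm (m z - m1)
  have b1 := Complex.abs_re_le_norm (z - 1)
  have b2 := Complex.abs_im_le_norm (z - 1)
  simp only [Complex.sub_re, Complex.sub_im, Complex.ofReal_re, Complex.ofReal_im,
    Complex.one_re, Complex.one_im, sub_zero] at a1 a2 b1 b2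
  simp only [Complex.mul_re, Complex.add_re, Complex.add_im, Complex.one_re, Complex.one_im,
    add_zero]
  have a1' := abs_le.1 (a1.trans h1)
  have a2' := (a2.trans h1)
  have b1' := abs_lt.1 (b1.trans_lt h2)
  have b2' := (b2.trans_lt h2)
  have h3 : (m z).im * z.im ≤ m1 / 10 * (1 / 2) := by
    calc (m z).im * z.im ≤ |(m z).im * z.im| := le_abs_self _
      _ = |(m z).im| * |z.im| := abs_mul _ _
      _ ≤ m1 / 10 * (1 / 2) := by
        apply mul_le_mul a2' b2'.le (abs_nonneg _) (by positivity)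
  have h4 : (9 / 10 * m1) * (3 / 2) ≤ (m z).re * (z.re + 1) := by
    apply mul_le_mul (by linarith [a1'.1]) (by linarith [b1'.1]) (by norm_num)
    linarith [a1'.1]
  linarith

lemma base_slit (hL : LocMap α δ m1 m) {z : ℂ} (hz : z ∈ Metric.ball (1 : ℂ) δ) :
    m z * (z + 1) ∈ Complex.slitPlane := Or.inl (base_re hL hz)

lemma epre_ne (hL : LocMap α δ m1 m) {n : ℕ} (hn : 1 ≤ n) {z : ℂ}
    (hz : z ∈ Metric.ball (1 : ℂ) δ) : epre n m z ≠ 0 := by
  have h0 : m z * (z + 1) ≠ 0 := Complex.slitPlane_ne_zero (base_slit hL hz)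
  have hn' : (0 : ℝ) < n := by exact_mod_cast hn
  unfold epre
  refine mul_ne_zero ?_ ?_
  · exact_mod_cast (Real.rpow_pos_of_pos hn' _).ne'
  · intro h
    rw [Complex.cpow_eq_zero_iff] at h
    exact h0 h.1

lemma det_QQ : QQ.det = -1 := by
  have h : (√2 : ℝ) * √2 = 2 := Real.mul_self_sqrt (by norm_num)
  have h' : ((√2 : ℝ) : ℂ) * ((√2 : ℝ) : ℂ) = 2 := by exact_mod_cast h
  have h0 : ((√2 : ℝ) : ℂ) ≠ 0 := by
    intro h1
    rw [h1] at h'
    norm_num at h'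
  unfold QQ
  rw [Matrix.det_fin_two_of]
  push_cast
  field_simp
  rw [pow_two, h']
  norm_num

/-- The entire part of the local parametrix. -/
noncomputable def MM (n : ℕ) (m : ℂ → ℂ) (z : ℂ) : Mat2 :=
  QQ * !![epre n m z, 0; 0, (epre n m z)⁻¹] * Psi (zet n m z)

lemma Ploc_eq (α : ℝ) (n : ℕ) (m : ℂ → ℂ) (z : ℂ) : Ploc α n m z = MM n m z *
    !![Complex.exp (-(n * xiR α z)), 0; 0, Complex.exp (n * xiR α z)] := rfl

lemma Ploc_mul (α : ℝ) (n : ℕ) (m : ℂ → ℂ) (z : ℂ) : Ploc α n m z *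
    !![Complex.exp (n * xiR α z), 0; 0, Complex.exp (-(n * xiR α z))] = MM n m z := by
  rw [Ploc_eq, Matrix.mul_assoc]
  have h : (!![Complex.exp (-(n * xiR α z)), 0; 0, Complex.exp (n * xiR α z)] : Mat2) *
      !![Complex.exp (n * xiR α z), 0; 0, Complex.exp (-(n * xiR α z))] = 1 := by
    have h1 : Complex.exp (-(n * xiR α z)) * Complex.exp (n * xiR α z) = 1 := by
      rw [← Complex.exp_add, neg_add_cancel, Complex.exp_zero]
    have h2 : Complex.exp (n * xiR α z) * Complex.exp (-(n * xiR α z)) = 1 := by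
      rw [← Complex.exp_add, add_neg_cancel, Complex.exp_zero]
    ext i j
    fin_cases i <;> fin_cases j <;> simp [Matrix.mul_apply, Fin.sum_univ_two, h1, h2]
  rw [h, Matrix.mul_one]

lemma MM_det (hPsi : ∀ ζ, (Psi ζ).det = -1) (hL : LocMap α δ m1 m) {n : ℕ} (hn : 1 ≤ n) {z : ℂ}
    (hz : z ∈ Metric.ball (1 : ℂ) δ) : (MM n m z).det = 1 := by
  unfold MM
  rw [Matrix.det_mul, Matrix.det_mul, hPsi, det_QQ, Matrix.det_fin_two_of]
  rw [mul_inv_cancel₀ (epre_ne hL hn hz)]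
  ring

theorem det_of (hPsi : ∀ ζ, (Psi ζ).det = -1) (hL : LocMap α δ m1 m) (n : ℕ)
    (hn : 1 ≤ n) : ∀ z ∈ Metric.ball (1 : ℂ) δ, z ∈ UH → (Ploc α n m z).det = 1 := by
  intro z hz _
  rw [Ploc_eq, Matrix.det_mul, MM_det hPsi hL hn hz, Matrix.det_fin_two_of, ← Complex.exp_add]
  simp

/-- Entrywise differentiability. -/
def DM (F : ℂ → Mat2) (z : ℂ) : Prop := ∀ i j, DifferentiableAt ℂ (fun w => F w i j) z

lemma DM.mul {F G : ℂ → Mat2} {z : ℂ} (hF : DM F z) (hG : DM G z) :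
    DM (fun w => F w * G w) z := by
  intro i j
  simp only [Matrix.mul_apply, Fin.sum_univ_two]
  exact ((hF i 0).mul (hG 0 j)).add ((hF i 1).mul (hG 1 j))

lemma DM.const (A : Mat2) (z : ℂ) : DM (fun _ => A) z := fun i j => differentiableAt_const _

lemma DM.of {a b c d : ℂ → ℂ} {z : ℂ} (ha : DifferentiableAt ℂ a z) (hb : DifferentiableAt ℂ b z)
    (hc : DifferentiableAt ℂ c z) (hd : DifferentiableAt ℂ d z) :
    DM (fun w => !![a w, b w; c w, d w]) z := by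
  intro i j
  fin_cases i <;> fin_cases j
  · exact ha
  · exact hb
  · exact hc
  · exact hd

lemma m_diff (hL : LocMap α δ m1 m) {z : ℂ} (hz : z ∈ Metric.ball (1 : ℂ) δ) :
    DifferentiableAt ℂ m z :=
  (hL.diff z hz).differentiableAt (Metric.isOpen_ball.mem_nhds hz)

lemma epre_diff (hL : LocMap α δ m1 m) (n : ℕ) {z : ℂ} (hz : z ∈ Metric.ball (1 : ℂ) δ) :
    DifferentiableAt ℂ (epre n m) z := by
  have h1 : DifferentiableAt ℂ (fun w => m w * (w + 1)) z :=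
    (m_diff hL hz).mul (differentiableAt_id.add_const 1)
  have h2 : DifferentiableAt ℂ (fun w => (m w * (w + 1)) ^ (1 / 4 : ℂ)) z :=
    h1.cpow_const (base_slit hL hz)
  exact (differentiableAt_const _).mul h2

lemma zet_diff (hL : LocMap α δ m1 m) (n : ℕ) {z : ℂ} (hz : z ∈ Metric.ball (1 : ℂ) δ) :
    DifferentiableAt ℂ (zet n m) z := by
  have h1 : DifferentiableAt ℂ (fun w => (w - 1) * m w) z :=
    (differentiableAt_id.sub_const 1).mul (m_diff hL hz)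
  exact (differentiableAt_const _).mul h1

lemma Psi_diff (h1 : ∀ ζ, HasDerivAt Airy (Airy' ζ) ζ) (h2 : ∀ ζ, HasDerivAt Airy' (ζ * Airy ζ) ζ)
    (ζ : ℂ) : DM Psi ζ := by
  have ha : ∀ w, DifferentiableAt ℂ Airy w := fun w => (h1 w).differentiableAt
  have ha' : ∀ w, DifferentiableAt ℂ Airy' w := fun w => (h2 w).differentiableAt
  have hw : DifferentiableAt ℂ (fun w : ℂ => om ^ 2 * w) ζ :=
    (differentiableAt_const _).mul differentiableAt_id
  have hb : DifferentiableAt ℂ (fun w => Airy (om ^ 2 * w)) ζ :=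
    (ha (om ^ 2 * ζ)).comp ζ hw
  have hb' : DifferentiableAt ℂ (fun w => Airy' (om ^ 2 * w)) ζ :=
    (ha' (om ^ 2 * ζ)).comp ζ hw
  have hM : DM (fun ζ => !![Airy ζ, Complex.I * om ^ 2 * Airy (om ^ 2 * ζ);
       -Airy' ζ, -(Complex.I * om ^ 4 * Airy' (om ^ 2 * ζ))]) ζ :=
    DM.of (ha ζ) ((differentiableAt_const _).mul hb) (ha' ζ).neg
      ((differentiableAt_const _).mul hb').neg
  intro i j
  have := (hM i j).const_mul ((√(2 * Real.pi) : ℝ) : ℂ)
  exact this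

lemma DM.comp {F : ℂ → Mat2} {g : ℂ → ℂ} {z : ℂ} (hF : DM F (g z))
    (hg : DifferentiableAt ℂ g z) : DM (fun w => F (g w)) z := fun i j =>
  DifferentiableAt.comp z (hF i j) hg

lemma MM_diff (h1 : ∀ ζ, HasDerivAt Airy (Airy' ζ) ζ) (h2 : ∀ ζ, HasDerivAt Airy' (ζ * Airy ζ) ζ)
    (hL : LocMap α δ m1 m) {n : ℕ} (hn : 1 ≤ n) {z : ℂ} (hz : z ∈ Metric.ball (1 : ℂ) δ) :
    DM (MM n m) z := by
  have he := epre_diff hL n hz
  have he' : DifferentiableAt ℂ (fun w => (epre n m w)⁻¹) z := he.inv (epre_ne hL hn hz)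
  exact ((DM.const QQ z).mul (DM.of he (differentiableAt_const _) (differentiableAt_const _)
    he')).mul ((Psi_diff h1 h2 _).comp (zet_diff hL n hz))

theorem diff_of (h1 : ∀ ζ, HasDerivAt Airy (Airy' ζ) ζ)
    (h2 : ∀ ζ, HasDerivAt Airy' (ζ * Airy ζ) ζ)
    (hg : ∀ z ∈ UH, HasDerivAt (gfun α) (dgfun α z) z) (hL : LocMap α δ m1 m) (n : ℕ)
    (hn : 1 ≤ n) : ∀ z ∈ Metric.ball (1 : ℂ) δ, z ∈ UH → ∀ i j,
      DifferentiableAt ℂ (fun w => Ploc α n m w i j) z := by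
  intro z hz hzU
  have hzs : z ∈ Complex.slitPlane := Or.inr (ne_of_gt hzU)
  have hxi : DifferentiableAt ℂ (xiR α) z := by
    have e1 : DifferentiableAt ℂ (fun w : ℂ => w ^ (α : ℂ)) z :=
      differentiableAt_id.cpow_const hzs
    exact (((hg z hzU).differentiableAt.sub ((e1.const_mul _).div_const 2)).sub
      (differentiableAt_const _))
  have e1 : DifferentiableAt ℂ (fun w => Complex.exp (-(n * xiR α w))) z :=
    (hxi.const_mul _).neg.cexp
  have e2 : DifferentiableAt ℂ (fun w => Complex.exp (n * xiR α w)) z :=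
    (hxi.const_mul _).cexp
  exact (MM_diff h1 h2 hL hn hz).mul
    (DM.of e1 (differentiableAt_const _) (differentiableAt_const _) e2)

/-- Continuity of the entire part. -/
lemma MM_cont (h1 : ∀ ζ, HasDerivAt Airy (Airy' ζ) ζ) (h2 : ∀ ζ, HasDerivAt Airy' (ζ * Airy ζ) ζ)
    (hL : LocMap α δ m1 m) {n : ℕ} (hn : 1 ≤ n) {z : ℂ} (hz : z ∈ Metric.ball (1 : ℂ) δ) :
    ContinuousAt (MM n m) z := by
  refine continuousAt_pi.2 fun i => continuousAt_pi.2 fun j => ?_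
  exact (MM_diff h1 h2 hL hn hz i j).continuousAt

lemma nm_cont : Continuous nm := by
  unfold nm
  fun_prop

lemma om_cube : om ^ 3 = 1 := by
  unfold om
  rw [← Complex.exp_nat_mul]
  have : ((3 : ℕ) : ℂ) * (2 * Real.pi * Complex.I / 3) = 2 * Real.pi * Complex.I := by
    push_cast
    ring
  rw [this, Complex.exp_two_pi_mul_I]

lemma om_conj : starRingEnd ℂ om = om ^ 2 := by
  have h1 : om ≠ 0 := Complex.exp_ne_zero _
  have h2 : starRingEnd ℂ om * om = 1 := by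
    unfold om
    rw [← Complex.exp_conj, ← Complex.exp_add]
    have : starRingEnd ℂ (2 * Real.pi * Complex.I / 3) + 2 * Real.pi * Complex.I / 3 = 0 := by
      simp only [map_div₀, map_mul, Complex.conj_ofReal, Complex.conj_I, map_ofNat]
      ring
    rw [this, Complex.exp_zero]
  apply mul_right_cancel₀ h1
  rw [h2, ← pow_succ, om_cube]

lemma om_conj_sq : starRingEnd ℂ (om ^ 2) = om := by
  rw [map_pow, om_conj, ← pow_mul]
  calc om ^ (2 * 2) = om ^ 3 * om := by ring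
    _ = om := by rw [om_cube, one_mul]

lemma om_four : om ^ 4 = om := by
  calc om ^ 4 = om ^ 3 * om := by ring
    _ = om := by rw [om_cube, one_mul]

/-- The second column of the model solution on the real axis. -/
lemma real_col (h3 : ∀ ζ, Airy (starRingEnd ℂ ζ) = starRingEnd ℂ (Airy ζ))
    (h4 : ∀ ζ, Airy' (starRingEnd ℂ ζ) = starRingEnd ℂ (Airy' ζ))
    (h5 : ∀ ζ, Airy ζ + om * Airy (om * ζ) + om ^ 2 * Airy (om ^ 2 * ζ) = 0)
    (h6 : ∀ ζ, Airy' ζ + om ^ 2 * Airy' (om * ζ) + om ^ 4 * Airy' (om ^ 2 * ζ) = 0) (t : ℝ) :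
    ∃ a b c d : ℝ, Airy t = a ∧ Airy' t = c ∧
      Complex.I * om ^ 2 * Airy (om ^ 2 * t) = b - Complex.I / 2 * a ∧
      -(Complex.I * om ^ 4 * Airy' (om ^ 2 * t)) = d + Complex.I / 2 * c := by
  have ht : starRingEnd ℂ (t : ℂ) = t := Complex.conj_ofReal t
  have hc1 : starRingEnd ℂ (Airy t) = Airy t := by rw [← h3, ht]
  have hc2 : starRingEnd ℂ (Airy' t) = Airy' t := by rw [← h4, ht]
  have hc3 : starRingEnd ℂ (Airy (om ^ 2 * t)) = Airy (om * t) := by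
    rw [← h3, map_mul, ht, om_conj_sq]
  have hc4 : starRingEnd ℂ (Airy' (om ^ 2 * t)) = Airy' (om * t) := by
    rw [← h4, map_mul, ht, om_conj_sq]
  obtain ⟨a, ha⟩ := Complex.conj_eq_iff_real.1 hc1
  obtain ⟨c, hc⟩ := Complex.conj_eq_iff_real.1 hc2
  have hX : starRingEnd ℂ (Complex.I * om ^ 2 * Airy (om ^ 2 * t) + Complex.I / 2 * Airy t) =
      Complex.I * om ^ 2 * Airy (om ^ 2 * t) + Complex.I / 2 * Airy t := by
    rw [map_add, map_mul, map_mul, om_conj_sq, hc3, map_mul, hc1, map_div₀, Complex.conj_I,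
      map_ofNat]
    linear_combination (-Complex.I) * h5 t
  have hY : starRingEnd ℂ (-(Complex.I * om ^ 4 * Airy' (om ^ 2 * t)) - Complex.I / 2 * Airy' t) =
      -(Complex.I * om ^ 4 * Airy' (om ^ 2 * t)) - Complex.I / 2 * Airy' t := by
    rw [map_sub, map_neg, map_mul, map_mul, om_four, om_conj, hc4, map_mul, hc2, map_div₀,
      Complex.conj_I, map_ofNat]
    have := h6 t
    rw [om_four] at this
    linear_combination (Complex.I) * this
  obtain ⟨b, hb⟩ := Complex.conj_eq_iff_real.1 hX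
  obtain ⟨d, hd⟩ := Complex.conj_eq_iff_real.1 hY
  refine ⟨a, b, c, d, ha, hc, ?_, ?_⟩
  · rw [← ha, ← hb]; ring
  · rw [← hc, ← hd]; ring

lemma real_Psi (h3 : ∀ ζ, Airy (starRingEnd ℂ ζ) = starRingEnd ℂ (Airy ζ))
    (h4 : ∀ ζ, Airy' (starRingEnd ℂ ζ) = starRingEnd ℂ (Airy' ζ))
    (h5 : ∀ ζ, Airy ζ + om * Airy (om * ζ) + om ^ 2 * Airy (om ^ 2 * ζ) = 0)
    (h6 : ∀ ζ, Airy' ζ + om ^ 2 * Airy' (om * ζ) + om ^ 4 * Airy' (om ^ 2 * ζ) = 0) (t : ℝ) :
    ∃ B : Matrix (Fin 2) (Fin 2) ℝ,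
      Psi t = B.map (fun t : ℝ => (t : ℂ)) * !![1, -(Complex.I / 2); 0, 1] := by
  obtain ⟨a, b, c, d, ha, hc, hb, hd⟩ := real_col h3 h4 h5 h6 t
  refine ⟨!![√(2 * Real.pi) * a, √(2 * Real.pi) * b; -(√(2 * Real.pi) * c), √(2 * Real.pi) * d], ?_⟩
  unfold Psi
  rw [hb, hd, ha, hc]
  ext i j
  fin_cases i <;> fin_cases j
  · simp [Matrix.mul_apply, Fin.sum_univ_two]
  · simp [Matrix.mul_apply, Fin.sum_univ_two]; ring
  · simp [Matrix.mul_apply, Fin.sum_univ_two]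
  · simp [Matrix.mul_apply, Fin.sum_univ_two]; ring

lemma map_mul' (M N : Matrix (Fin 2) (Fin 2) ℝ) :
    (M * N).map (fun t : ℝ => (t : ℂ)) =
      M.map (fun t : ℝ => (t : ℂ)) * N.map (fun t : ℝ => (t : ℂ)) := by
  ext i j
  simp [Matrix.mul_apply, Fin.sum_univ_two]

lemma map_det' (M : Matrix (Fin 2) (Fin 2) ℝ) :
    (M.map (fun t : ℝ => (t : ℂ))).det = ((M.det : ℝ) : ℂ) := by
  rw [Matrix.det_fin_two, Matrix.det_fin_two]
  simp

lemma real_MM (hPsi : ∀ ζ, (Psi ζ).det = -1)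
    (h3 : ∀ ζ, Airy (starRingEnd ℂ ζ) = starRingEnd ℂ (Airy ζ))
    (h4 : ∀ ζ, Airy' (starRingEnd ℂ ζ) = starRingEnd ℂ (Airy' ζ))
    (h5 : ∀ ζ, Airy ζ + om * Airy (om * ζ) + om ^ 2 * Airy (om ^ 2 * ζ) = 0)
    (h6 : ∀ ζ, Airy' ζ + om ^ 2 * Airy' (om * ζ) + om ^ 4 * Airy' (om ^ 2 * ζ) = 0)
    (hL : LocMap α δ m1 m) {n : ℕ} (hn : 1 ≤ n) {x : ℝ} (hx : |x - 1| < δ) :
    ∃ A : Matrix (Fin 2) (Fin 2) ℝ, A.det = 1 ∧
      MM n m x = A.map (fun t : ℝ => (t : ℂ)) * !![1, -(Complex.I / 2); 0, 1] := by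
  have hz : (x : ℂ) ∈ Metric.ball (1 : ℂ) δ := by
    rw [Metric.mem_ball, dist_eq_norm]
    have : ((x : ℂ) - 1) = ((x - 1 : ℝ) : ℂ) := by push_cast; ring
    rw [this, Complex.norm_real]
    exact hx
  have hm := hL.conj x hz
  rw [Complex.conj_ofReal] at hm
  obtain ⟨r, hr⟩ := Complex.conj_eq_iff_real.1 hm.symm
  have hbase := base_re hL hz
  have hbase' : (0 : ℝ) < r * (x + 1) := by
    rw [hr] at hbase
    have : ((r : ℂ) * ((x : ℂ) + 1)) = ((r * (x + 1) : ℝ) : ℂ) := by push_cast; ring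
    rw [this, Complex.ofReal_re] at hbase
    exact hbase
  obtain ⟨e, he⟩ : ∃ e : ℝ, epre n m x = e := by
    refine ⟨(n : ℝ) ^ (1 / 6 : ℝ) * (r * (x + 1)) ^ (1 / 4 : ℝ), ?_⟩
    unfold epre
    rw [hr, Complex.ofReal_mul, Complex.ofReal_cpow hbase'.le]
    push_cast
    rfl
  obtain ⟨t, ht⟩ : ∃ t : ℝ, zet n m x = t := by
    refine ⟨(n : ℝ) ^ (2 / 3 : ℝ) * ((x - 1) * r), ?_⟩
    unfold zet
    rw [hr]
    push_cast
    ring
  obtain ⟨B, hB⟩ := real_Psi h3 h4 h5 h6 t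
  let Q : Matrix (Fin 2) (Fin 2) ℝ := !![1 / √2, 1 / √2; 1 / √2, -(1 / √2)]
  have hQ : QQ = Q.map (fun t : ℝ => (t : ℂ)) := by
    unfold QQ
    ext i j
    fin_cases i <;> fin_cases j <;> simp [Q]
  let D : Matrix (Fin 2) (Fin 2) ℝ := !![e, 0; 0, e⁻¹]
  have hD : (!![epre n m x, 0; 0, (epre n m x)⁻¹] : Mat2) = D.map (fun t : ℝ => (t : ℂ)) := by
    rw [he]
    ext i j
    fin_cases i <;> fin_cases j <;> simp [D]
  have hM : MM n m x = (Q * D * B).map (fun t : ℝ => (t : ℂ)) *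
      !![1, -(Complex.I / 2); 0, 1] := by
    unfold MM
    rw [ht, hB, hD, hQ, map_mul', map_mul']
    simp only [Matrix.mul_assoc]
  refine ⟨Q * D * B, ?_, hM⟩
  have hdet := MM_det hPsi hL hn hz
  rw [hM, Matrix.det_mul, map_det', Matrix.det_fin_two_of] at hdet
  have h7 : (((Q * D * B).det : ℝ) : ℂ) = ((1 : ℝ) : ℂ) := by
    rw [← mul_one (((Q * D * B).det : ℝ) : ℂ)]
    convert hdet using 2
    · ring
    · norm_num
  exact_mod_cast h7

theorem bdry_of (hPsi : ∀ ζ, (Psi ζ).det = -1)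
    (h1 : ∀ ζ, HasDerivAt Airy (Airy' ζ) ζ) (h2 : ∀ ζ, HasDerivAt Airy' (ζ * Airy ζ) ζ)
    (h3 : ∀ ζ, Airy (starRingEnd ℂ ζ) = starRingEnd ℂ (Airy ζ))
    (h4 : ∀ ζ, Airy' (starRingEnd ℂ ζ) = starRingEnd ℂ (Airy' ζ))
    (h5 : ∀ ζ, Airy ζ + om * Airy (om * ζ) + om ^ 2 * Airy (om ^ 2 * ζ) = 0)
    (h6 : ∀ ζ, Airy' ζ + om ^ 2 * Airy' (om * ζ) + om ^ 4 * Airy' (om ^ 2 * ζ) = 0)
    (hL : LocMap α δ m1 m) (n : ℕ) (hn : 1 ≤ n) :
    (∃ C : ℝ, ∀ z ∈ UH, ‖z - 1‖ ≤ 3 * δ / 4 →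
      nm (Ploc α n m z * !![Complex.exp (n * xiR α z), 0; 0, Complex.exp (-(n * xiR α z))]) ≤ C) ∧
    ∀ x : ℝ, |x - 1| < δ → x ≠ 1 → ∃ A : Matrix (Fin 2) (Fin 2) ℝ, A.det = 1 ∧
      Tendsto (fun ε : ℝ => Ploc α n m (x + ε * Complex.I) *
        !![Complex.exp (n * xiR α (x + ε * Complex.I)), 0;
          0, Complex.exp (-(n * xiR α (x + ε * Complex.I)))]) (𝓝[>] 0)
        (𝓝 (A.map (fun t : ℝ => (t : ℂ)) * !![1, -(Complex.I / 2); 0, 1])) := by
  have hδ := hL.δ_pos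
  constructor
  · have hc : ContinuousOn (fun z => nm (MM n m z)) (Metric.closedBall (1 : ℂ) (3 * δ / 4)) := by
      intro z hz
      have hz' : z ∈ Metric.ball (1 : ℂ) δ := by
        rw [Metric.mem_closedBall] at hz
        rw [Metric.mem_ball]
        linarith
      exact (nm_cont.continuousAt.comp (MM_cont h1 h2 hL hn hz')).continuousWithinAt
    obtain ⟨C, hC⟩ := (isCompact_closedBall (1 : ℂ) (3 * δ / 4)).exists_bound_of_continuousOn hc
    refine ⟨C, fun z _ hz => ?_⟩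
    rw [Ploc_mul]
    have := hC z (by rw [Metric.mem_closedBall, dist_eq_norm]; exact hz)
    exact (le_abs_self _).trans this
  · intro x hx _
    obtain ⟨A, hA, hMA⟩ := real_MM hPsi h3 h4 h5 h6 hL hn hx
    refine ⟨A, hA, ?_⟩
    rw [← hMA]
    simp only [Ploc_mul]
    have hz : (x : ℂ) ∈ Metric.ball (1 : ℂ) δ := by
      rw [Metric.mem_ball, dist_eq_norm]
      have : ((x : ℂ) - 1) = ((x - 1 : ℝ) : ℂ) := by push_cast; ring
      rw [this, Complex.norm_real]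
      exact hx
    have hcont := MM_cont h1 h2 hL hn hz
    refine hcont.tendsto.comp ?_
    have h7 : Continuous (fun ε : ℝ => (x : ℂ) + ε * Complex.I) := by fun_prop
    have h8 := h7.tendsto 0
    simp only [Complex.ofReal_zero, zero_mul, add_zero] at h8
    exact h8.mono_left nhdsWithin_le_nhds

end PlocAux

theorem Ploc_det (α δ m1 : ℝ) (hα : 1 < α) (m : ℂ → ℂ) (hL : LocMap α δ m1 m) (n : ℕ)
    (hn : 1 ≤ n) : ∀ z ∈ Metric.ball (1 : ℂ) δ, z ∈ UH → (Ploc α n m z).det = 1 :=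
  PlocAux.det_of Psi_det hL n hn

theorem Ploc_diff (α δ m1 : ℝ) (hα : 1 < α) (m : ℂ → ℂ) (hL : LocMap α δ m1 m) (n : ℕ)
    (hn : 1 ≤ n) : ∀ z ∈ Metric.ball (1 : ℂ) δ, z ∈ UH → ∀ i j,
      DifferentiableAt ℂ (fun w => Ploc α n m w i j) z :=
  PlocAux.diff_of Airy_hasDerivAt Airy'_hasDerivAt (gfun_hasDerivAt α hα) hL n hn

/-- The Airy factor of the local parametrix is bounded and has real structure on the axis. -/
theorem Ploc_bdry (α δ m1 : ℝ) (hα : 1 < α) (m : ℂ → ℂ) (hL : LocMap α δ m1 m) (n : ℕ)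
    (hn : 1 ≤ n) :
    (∃ C : ℝ, ∀ z ∈ UH, ‖z - 1‖ ≤ 3 * δ / 4 →
      nm (Ploc α n m z * !![Complex.exp (n * xiR α z), 0; 0, Complex.exp (-(n * xiR α z))]) ≤ C) ∧
    ∀ x : ℝ, |x - 1| < δ → x ≠ 1 → ∃ A : Matrix (Fin 2) (Fin 2) ℝ, A.det = 1 ∧
      Tendsto (fun ε : ℝ => Ploc α n m (x + ε * Complex.I) *
        !![Complex.exp (n * xiR α (x + ε * Complex.I)), 0;
          0, Complex.exp (-(n * xiR α (x + ε * Complex.I)))]) (𝓝[>] 0)
        (𝓝 (A.map (fun t : ℝ => (t : ℂ)) * !![1, -(Complex.I / 2); 0, 1])) :=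
  PlocAux.bdry_of Psi_det Airy_hasDerivAt Airy'_hasDerivAt Airy_conj Airy'_conj Airy_connect
    Airy'_connect hL n hn

end Pool.Agent.Freud
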