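import Pool.Agent.Freud.LensG
import Pool.Agent.Freud.AsmDefs
import Pool.Agent.Freud.Ploc

/-!
Local analysis of the global parametrix (part R of BLUEPRINT.md).
-/

set_option autoImplicit false

open MeasureTheory Filter Topology Asymptotics

namespace Pool.Agent.Freud

/-! ### Cut-off facts -/

theorem eta_one {δ : ℝ} (hδ : 0 < δ) {z : ℂ} (hz : ‖z - 1‖ ≤ 13 * δ / 25) : eta δ z = 1 := by
  unfold eta
  apply rho_one
  rw [div_le_iff₀ (by positivity)]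
  have h0 := norm_nonneg (z - 1)
  have : ‖z - 1‖ ^ 2 ≤ (13 * δ / 25) ^ 2 := by gcongr
  nlinarith [sq_nonneg δ]

theorem deta_zero {δ : ℝ} (hδ : 0 < δ) {z : ℂ} (hz : ‖z - 1‖ ≤ 13 * δ / 25) : deta δ z = 0 := by
  unfold deta
  rw [drho_zero']
  · simp
  rw [div_le_iff₀ (by positivity)]
  have h0 := norm_nonneg (z - 1)
  have : ‖z - 1‖ ^ 2 ≤ (13 * δ / 25) ^ 2 := by gcongr
  nlinarith [sq_nonneg δ]

theorem eta_zero {δ : ℝ} (hδ : 0 < δ) {z : ℂ} (hz : 3 * δ / 4 ≤ ‖z - 1‖) : eta δ z = 0 := by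
  unfold eta
  apply rho_zero
  rw [le_div_iff₀ (by positivity), one_mul]
  gcongr

theorem deta_zero' {δ : ℝ} (hδ : 0 < δ) {z : ℂ} (hz : 3 * δ / 4 ≤ ‖z - 1‖) : deta δ z = 0 := by
  unfold deta
  rw [drho_zero]
  · simp
  rw [le_div_iff₀ (by positivity), one_mul]
  gcongr

theorem eta_nonneg (δ : ℝ) (z : ℂ) : 0 ≤ eta δ z := (rho_facts.2.1 _).1

theorem eta_le_one (δ : ℝ) (z : ℂ) : eta δ z ≤ 1 := (rho_facts.2.1 _).2

theorem norm_add_one_ge (z : ℂ) : 2 - ‖z - 1‖ ≤ ‖z + 1‖ := by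
  have h : (2 : ℂ) = (z + 1) - (z - 1) := by ring
  have h2 : ‖(2 : ℂ)‖ ≤ ‖z + 1‖ + ‖z - 1‖ := by
    rw [h]
    exact norm_sub_le _ _
  have : ‖(2 : ℂ)‖ = 2 := by simp
  linarith

theorem norm_sub_one_ge (z : ℂ) : 2 - ‖z + 1‖ ≤ ‖z - 1‖ := by
  have := norm_add_one_ge z
  linarith

theorem deta_cont (δ : ℝ) : Continuous (deta δ) := by
  unfold deta
  have h : Continuous (deriv rho) := rho_facts.1.continuous_deriv le_rfl
  fun_prop

theorem eta_cont (δ : ℝ) : Continuous (eta δ) := by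
  unfold eta
  have h : Continuous rho := rho_facts.1.continuous
  fun_prop

section

variable {α δ y0 c m1 : ℝ} {m : ℂ → ℂ} {n : ℕ}

theorem X1_zero (hδ : 0 < δ) {z : ℂ} (hz : 3 * δ / 4 ≤ ‖z - 1‖) : X1 α n y0 δ m z = 0 := by
  unfold X1
  rw [eta_zero hδ hz]
  simp

theorem dX1_zero (hδ : 0 < δ) {z : ℂ} (hz : 3 * δ / 4 ≤ ‖z - 1‖ ∨ ‖z - 1‖ ≤ 13 * δ / 25) :
    dX1 α n y0 δ m z = 0 := by
  unfold dX1
  rcases hz with h | h
  · rw [deta_zero' hδ h]; simp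
  · rw [deta_zero hδ h]; simp

theorem refl_zero_of {X : ℂ → Mat2} {z : ℂ} (h : X (mc z) = 0) : refl X z = 0 := by
  rw [refl_apply, h]
  ext i j
  fin_cases i <;> fin_cases j <;> simp

theorem rX1_zero (hδ : 0 < δ) {z : ℂ} (hz : 3 * δ / 4 ≤ ‖z + 1‖) :
    refl (X1 α n y0 δ m) z = 0 :=
  refl_zero_of (X1_zero hδ (by rwa [norm_mc_sub_one]))

theorem rdX1_zero (hδ : 0 < δ) {z : ℂ} (hz : 3 * δ / 4 ≤ ‖z + 1‖ ∨ ‖z + 1‖ ≤ 13 * δ / 25) :
    refl (dX1 α n y0 δ m) z = 0 :=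
  refl_zero_of (dX1_zero hδ (by rwa [norm_mc_sub_one]))

/-- The conjugated source of the lens. -/
noncomputable def Smat (α : ℝ) (n : ℕ) (y0 : ℝ) (z : ℂ) : Mat2 :=
  Nmat z * dG α n y0 z * Ninv z

theorem Ninv_hasDbar {z : ℂ} (hz : z ∈ UH) : HasDbarM Ninv 0 z := fun i j =>
  HasDbar.of_hasDerivAt (Ninv_diff hz i j).hasDerivAt

theorem Nmat_hasDbar {z : ℂ} (hz : z ∈ UH) : HasDbarM Nmat 0 z := fun i j =>
  HasDbar.of_hasDerivAt (Nmat_diff hz i j).hasDerivAt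

theorem HasDbarM.of_eq {F : ℂ → Mat2} {B C : Mat2} {z : ℂ} (hF : HasDbarM F B z) (h : B = C) :
    HasDbarM F C z := h ▸ hF

theorem HasDbarM.const (A : Mat2) (z : ℂ) : HasDbarM (fun _ => A) 0 z := fun _ _ =>
  HasDbar.const _ z

theorem HasDbarM.sub {F G : ℂ → Mat2} {B C : Mat2} {z : ℂ} (hF : HasDbarM F B z)
    (hG : HasDbarM G C z) : HasDbarM (fun w => F w - G w) (B - C) z := fun i j =>
  (hF i j).sub (hG i j)

theorem Xrat_hasDbar (hα : 1 < α) (hL : LocMap α δ m1 m) (hn : 1 ≤ n) (hy : 0 < y0)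
    (hy1 : y0 ≤ 1) {z : ℂ} (hz : z ∈ UH) (hzb : ‖z - 1‖ < δ) (h : |z.re| ≠ 1 ∨ y0 < z.im) :
    HasDbarM (Xrat α n y0 m) (Xrat α n y0 m z * Smat α n y0 z) z := by
  have hzb' : z ∈ Metric.ball (1 : ℂ) δ := by rwa [Metric.mem_ball, dist_eq_norm]
  have hP : HasDbarM (Ploc α n m) 0 z := fun i j =>
    HasDbar.of_hasDerivAt (Ploc_diff α δ m1 hα m hL n hn z hzb' hz i j).hasDerivAt
  have hG := Gmat_hasDbar hα n hy hy1 hz h
  have h1 := (hP.mul hG).mul (Ninv_hasDbar hz)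
  refine HasDbarM.of_eq h1 ?_
  unfold Xrat Smat
  have e1 : Ploc α n m z * Gmat α n y0 z * Ninv z * (Nmat z * dG α n y0 z * Ninv z) =
      Ploc α n m z * (Gmat α n y0 z * ((Ninv z * Nmat z) * dG α n y0 z)) * Ninv z := by
    simp only [mul_assoc]
  rw [e1, Ninv_mul_Nmat, one_mul, Gmat_inv_mul_dG n hy hy1 hz]
  simp

theorem X1_hasDbar (hα : 1 < α) (hδ : 0 < δ) (hL : LocMap α δ m1 m) (hn : 1 ≤ n) (hy : 0 < y0)
    (hy1 : y0 ≤ 1) {z : ℂ} (hz : z ∈ UH) (h : |z.re| ≠ 1 ∨ y0 < z.im) :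
    HasDbarM (X1 α n y0 δ m)
      (dX1 α n y0 δ m z + (eta δ z : ℂ) • (Xrat α n y0 m z * Smat α n y0 z)) z := by
  by_cases hzb : ‖z - 1‖ < δ
  · have h1 := Xrat_hasDbar hα hL hn hy hy1 hz hzb h
    have h2 := (hasDbar_eta δ hδ z)
    have h3 := HasDbarM.smul h2 (h1.sub (HasDbarM.const 1 z))
    refine HasDbarM.of_eq h3 ?_
    unfold dX1
    rw [sub_zero]
  · push Not at hzb
    have h1 : 3 * δ / 4 ≤ ‖z - 1‖ := by linarith
    rw [dX1_zero hδ (Or.inl h1), eta_zero hδ h1]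
    have h2 : ∀ᶠ w in 𝓝 z, 3 * δ / 4 < ‖w - 1‖ := by
      have : Continuous fun w : ℂ => ‖w - 1‖ := by fun_prop
      exact (isOpen_lt continuous_const this).mem_nhds (by
        show 3 * δ / 4 < ‖z - 1‖
        linarith)
    refine HasDbarM.of_eq ((HasDbarM.const 0 z).congr ?_) (by simp)
    filter_upwards [h2] with w hw
    exact X1_zero hδ hw.le

theorem refl_Smat (hα : 1 < α) (hy : 0 < y0) (hy1 : y0 ≤ 1) {z : ℂ} (hz : z ∈ UH)
    (h : |z.re| ≠ 1 ∨ y0 < z.im) : refl (Smat α n y0) z = -Smat α n y0 z := by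
  have h1 : refl (Smat α n y0) z = refl Nmat z * refl (dG α n y0) z * refl Ninv z := by
    rw [← refl_mul, ← refl_mul]
    rfl
  rw [h1, refl_Nmat hz, refl_Ninv hz, refl_dG hα n hy hy1 hz h]
  unfold Smat
  simp

/-- The reflected ratio. -/
theorem rX1_hasDbar (hα : 1 < α) (hδ : 0 < δ) (hL : LocMap α δ m1 m) (hn : 1 ≤ n) (hy : 0 < y0)
    (hy1 : y0 ≤ 1) {z : ℂ} (hz : z ∈ UH) (h : |z.re| ≠ 1 ∨ y0 < z.im) :
    HasDbarM (refl (X1 α n y0 δ m))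
      (-refl (dX1 α n y0 δ m) z +
        (eta δ (mc z) : ℂ) • (refl (Xrat α n y0 m) z * Smat α n y0 z)) z := by
  have hm : mc z ∈ UH := mc_mem hz
  have h' : |(mc z).re| ≠ 1 ∨ y0 < (mc z).im := by rwa [mc_re, mc_im, abs_neg]
  have h1 := HasDbarM.refl (X1_hasDbar hα hδ hL hn hy hy1 hm h')
  refine HasDbarM.of_eq h1 ?_
  have e1 : sig3 * cj (dX1 α n y0 δ m (mc z) +
      (eta δ (mc z) : ℂ) • (Xrat α n y0 m (mc z) * Smat α n y0 (mc z))) * sig3 =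
      refl (fun w => dX1 α n y0 δ m w +
        (eta δ w : ℂ) • (Xrat α n y0 m w * Smat α n y0 w)) z := rfl
  change -(sig3 * cj (dX1 α n y0 δ m (mc z) +
      (eta δ (mc z) : ℂ) • (Xrat α n y0 m (mc z) * Smat α n y0 (mc z))) * sig3) = _
  rw [e1, refl_add, refl_smul, refl_mul, refl_Smat hα hy hy1 hz h, Complex.conj_ofReal]
  simp only [mul_neg, smul_neg, neg_add, neg_neg]

theorem Ymat_hasDbar (hα : 1 < α) (hδ : 0 < δ) (hL : LocMap α δ m1 m) (hn : 1 ≤ n) (hy : 0 < y0)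
    (hy1 : y0 ≤ 1) {z : ℂ} (hz : z ∈ UH) (h : |z.re| ≠ 1 ∨ y0 < z.im) :
    HasDbarM (Ymat α n y0 δ m)
      (Ymat α n y0 δ m z * Smat α n y0 z
        - ((((1 - eta δ z - eta δ (mc z) : ℝ) : ℂ)) • Smat α n y0 z
        + (refl (dX1 α n y0 δ m) z - dX1 α n y0 δ m z))) z := by
  have h1 := ((HasDbarM.const 1 z).add (X1_hasDbar hα hδ hL hn hy hy1 hz h)).add
    (rX1_hasDbar hα hδ hL hn hy hy1 hz h)
  refine HasDbarM.of_eq h1 ?_
  have e1 : Ymat α n y0 δ m z = 1 + (eta δ z : ℂ) • (Xrat α n y0 m z - 1) +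
      (eta δ (mc z) : ℂ) • (refl (Xrat α n y0 m) z - 1) := by
    unfold Ymat
    congr 1
    have : X1 α n y0 δ m = fun w => (eta δ w : ℂ) • (Xrat α n y0 m w - 1) := rfl
    rw [this, refl_smul, Complex.conj_ofReal, refl_sub, refl_one]
  rw [e1]
  push_cast
  simp only [add_mul, smul_mul_assoc, sub_mul, one_mul, smul_sub, sub_smul, one_smul]
  abel

/-! ### Invertibility of matrices close to the identity -/

theorem det_near_one {A : Mat2} (h : nm (A - 1) ≤ 1 / 2) : 1 / 4 ≤ ‖A.det‖ := by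
  have e : A.det = 1 + ((A - 1) 0 0 + (A - 1) 1 1 + (A - 1) 0 0 * (A - 1) 1 1 -
      (A - 1) 0 1 * (A - 1) 1 0) := by
    rw [Matrix.det_fin_two]
    simp
    ring
  set a := (A - 1) 0 0
  set b := (A - 1) 0 1
  set c := (A - 1) 1 0
  set d := (A - 1) 1 1
  have hs : ‖a‖ + ‖b‖ + ‖c‖ + ‖d‖ ≤ 1 / 2 := h
  have ha := norm_nonneg a
  have hb := norm_nonneg b
  have hc := norm_nonneg c
  have hd := norm_nonneg d
  have h1 : ‖a + d + a * d - b * c‖ ≤ ‖a‖ + ‖d‖ + ‖a‖ * ‖d‖ + ‖b‖ * ‖c‖ := by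
    refine (norm_sub_le _ _).trans ?_
    rw [norm_mul b c]
    have := norm_add_le (a + d) (a * d)
    rw [norm_mul] at this
    have := norm_add_le a d
    linarith
  have h2 : ‖a‖ + ‖d‖ + ‖a‖ * ‖d‖ + ‖b‖ * ‖c‖ ≤ 3 / 4 := by nlinarith
  have h3 : ‖(1 : ℂ)‖ - ‖a + d + a * d - b * c‖ ≤ ‖1 + (a + d + a * d - b * c)‖ := by
    have := norm_sub_norm_le (1 : ℂ) (-(a + d + a * d - b * c))
    rw [norm_neg, sub_neg_eq_add] at this
    exact this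
  rw [norm_one] at h3
  rw [e]
  linarith

theorem inv_near_one {A : Mat2} (h : nm (A - 1) ≤ 1 / 2) : nm A⁻¹ ≤ 10 := by
  have h1 := det_near_one h
  have h0 : 0 < ‖A.det‖ := by linarith
  have h2 : nm A ≤ 5 / 2 := by
    have : A = (A - 1) + 1 := by simp
    rw [this]
    refine (nm_add _ _).trans ?_
    rw [nm_one]
    linarith
  rw [Matrix.inv_def, Matrix.adjugate_fin_two, Ring.inverse_eq_inv']
  rw [nm_smul, norm_inv]
  have h3 : nm !![A 1 1, -A 0 1; -A 1 0, A 0 0] = nm A := by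
    simp [nm]
    ring
  rw [h3]
  have h4 : ‖A.det‖⁻¹ ≤ 4 := by
    rw [inv_le_comm₀ h0 (by norm_num)]
    linarith
  calc ‖A.det‖⁻¹ * nm A ≤ 4 * (5 / 2) := mul_le_mul h4 h2 (nm_nonneg _) (by norm_num)
    _ = 10 := by norm_num

theorem det_ne_of_near {A : Mat2} (h : nm (A - 1) ≤ 1 / 2) : A.det ≠ 0 := by
  have := det_near_one h
  intro h0
  rw [h0] at this
  norm_num at this

/-- Points outside the open inner discs. -/
def Outer (δ : ℝ) (z : ℂ) : Prop := δ / 2 ≤ ‖z - 1‖ ∧ δ / 2 ≤ ‖z + 1‖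

theorem Ymat_near (hδ : 0 < δ) (hδ' : δ < 1 / 2)
    (hX : ∀ z ∈ ann δ, nm (Xrat α n y0 m z - 1) ≤ 1 / 4) {z : ℂ} (hz : z ∈ UH)
    (ho : Outer δ z) : nm (Ymat α n y0 δ m z - 1) ≤ 1 / 4 := by
  have hb : ∀ w ∈ UH, δ / 2 ≤ ‖w - 1‖ → nm (X1 α n y0 δ m w) ≤ 1 / 4 := by
    intro w hw h
    by_cases h2 : ‖w - 1‖ ≤ 3 * δ / 4
    · unfold X1
      rw [nm_smul, Complex.norm_real, Real.norm_eq_abs, abs_of_nonneg (eta_nonneg _ _)]
      have := hX w ⟨hw, h, h2⟩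
      calc eta δ w * nm (Xrat α n y0 m w - 1) ≤ 1 * (1 / 4) :=
            mul_le_mul (eta_le_one _ _) this (nm_nonneg _) zero_le_one
        _ = 1 / 4 := by norm_num
    · push Not at h2
      rw [X1_zero hδ h2.le, nm_zero]
      norm_num
  by_cases h1 : 3 * δ / 4 ≤ ‖z + 1‖
  · unfold Ymat
    rw [rX1_zero hδ h1]
    have : 1 + X1 α n y0 δ m z + 0 - 1 = X1 α n y0 δ m z := by abel
    rw [this]
    exact hb z hz ho.1
  · push Not at h1
    have h2 : 3 * δ / 4 ≤ ‖z - 1‖ := by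
      have := norm_sub_one_ge z
      linarith
    unfold Ymat
    rw [X1_zero hδ h2]
    have : 1 + 0 + refl (X1 α n y0 δ m) z - 1 = refl (X1 α n y0 δ m) z := by abel
    rw [this, nm_refl]
    exact hb _ (mc_mem hz) (by rw [norm_mc_sub_one]; exact ho.2)

theorem Ymat_one (hδ : 0 < δ) {z : ℂ} (h1 : 3 * δ / 4 ≤ ‖z - 1‖) (h2 : 3 * δ / 4 ≤ ‖z + 1‖) :
    Ymat α n y0 δ m z = 1 := by
  unfold Ymat
  rw [X1_zero hδ h1, rX1_zero hδ h2]
  simp

/-- The remainder part of `W`. -/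
noncomputable def Wrem (α : ℝ) (y0 δ : ℝ) (m : ℂ → ℂ) (n : ℕ) (z : ℂ) : Mat2 :=
  ((1 - eta δ z - eta δ (mc z) : ℝ) : ℂ) •
    (Nmat z * dGx α n y0 z * Ninv z * (Ymat α n y0 δ m z)⁻¹)

/-- The total `W`. -/
noncomputable def Wtot (α : ℝ) (y0 δ : ℝ) (m : ℂ → ℂ) (n : ℕ) (z : ℂ) : Mat2 :=
  Wann α y0 δ m n z + W0 α n y0 z + Wrem α y0 δ m n z

/-- The error matrix. -/
noncomputable def Rmat (α : ℝ) (y0 δ : ℝ) (m : ℂ → ℂ) (n : ℕ) (T : ℂ → Mat2) (z : ℂ) : Mat2 :=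
  open Classical in
  if ‖z - 1‖ < δ / 2 then T z * (Ploc α n m z)⁻¹
  else if ‖z + 1‖ < δ / 2 then T z * (refl (Ploc α n m) z)⁻¹
  else T z * Gmat α n y0 z * Ninv z * (Ymat α n y0 δ m z)⁻¹

theorem qfun_zero_big (hy : 0 < y0) {z : ℂ} (hz : z ∈ UH) (h : 2 * y0 ≤ ‖z‖) :
    qfun α n y0 z = 0 := by
  have hz' : 0 < z.im := hz
  by_cases h1 : y0 ≤ z.im
  · exact qfun_zero_of_im hy h1
  push Not at h1
  apply qfun_zero_of_re hy hz
  have := Complex.norm_le_abs_re_add_abs_im z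
  rw [abs_of_pos hz'] at this
  linarith

theorem W0_zero_big (hy : 0 < y0) {z : ℂ} (hz : z ∈ UH) (h : 2 * y0 ≤ ‖z‖) :
    W0 α n y0 z = 0 := by
  unfold W0
  rw [qfun_zero_big hy hz h]
  have : (!![0, 0; -Complex.I * 0, 0] : Mat2) = 0 := by
    ext i j
    fin_cases i <;> fin_cases j <;> simp
  rw [this]
  simp

theorem norm_ge_of_near_one {z : ℂ} {r : ℝ} (h : ‖z - 1‖ ≤ r) : 1 - r ≤ ‖z‖ := by
  have h1 : (1 : ℂ) = z - (z - 1) := by ring
  have h2 : ‖(1 : ℂ)‖ ≤ ‖z‖ + ‖z - 1‖ := by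
    conv_lhs => rw [h1]
    exact norm_sub_le _ _
  rw [norm_one] at h2
  linarith

theorem norm_ge_of_near_neg_one {z : ℂ} {r : ℝ} (h : ‖z + 1‖ ≤ r) : 1 - r ≤ ‖z‖ := by
  have h1 : (1 : ℂ) = (z + 1) - z := by ring
  have h2 : ‖(1 : ℂ)‖ ≤ ‖z + 1‖ + ‖z‖ := by
    conv_lhs => rw [h1]
    exact norm_sub_le _ _
  rw [norm_one] at h2
  linarith

theorem norm_sub_one_ge' (z : ℂ) : 1 - ‖z‖ ≤ ‖z - 1‖ := by
  have h1 : (1 : ℂ) = z - (z - 1) := by ring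
  have h2 : ‖(1 : ℂ)‖ ≤ ‖z‖ + ‖z - 1‖ := by
    conv_lhs => rw [h1]
    exact norm_sub_le _ _
  rw [norm_one] at h2
  linarith

theorem norm_add_one_ge' (z : ℂ) : 1 - ‖z‖ ≤ ‖z + 1‖ := by
  have h1 : (1 : ℂ) = (z + 1) - z := by ring
  have h2 : ‖(1 : ℂ)‖ ≤ ‖z + 1‖ + ‖z‖ := by
    conv_lhs => rw [h1]
    exact norm_sub_le _ _
  rw [norm_one] at h2
  linarith

/-- Near the inner discs `W` vanishes. -/
theorem Wtot_zero (hδ : 0 < δ) (hδ' : δ < 1 / 2) (hy : 0 < y0) (hy8 : y0 ≤ δ / 8) {z : ℂ}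
    (hz : z ∈ UH) (h : ‖z - 1‖ ≤ 13 * δ / 25 ∨ ‖z + 1‖ ≤ 13 * δ / 25) :
    Wann α y0 δ m n z = 0 ∧ W0 α n y0 z = 0 ∧ Wrem α y0 δ m n z = 0 := by
  have hbig : 2 * y0 ≤ ‖z‖ := by
    rcases h with h | h
    · have := norm_ge_of_near_one h; linarith
    · have := norm_ge_of_near_neg_one h; linarith
  refine ⟨?_, W0_zero_big hy hz hbig, ?_⟩
  · unfold Wann
    split_ifs
    · rcases h with h | h
      · have h2 : 3 * δ / 4 ≤ ‖z + 1‖ := by
          have := norm_add_one_ge z; linarith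
        rw [dX1_zero hδ (Or.inr h), rdX1_zero hδ (Or.inl h2)]
        simp
      · have h2 : 3 * δ / 4 ≤ ‖z - 1‖ := by
          have := norm_sub_one_ge z; linarith
        rw [dX1_zero hδ (Or.inl h2), rdX1_zero hδ (Or.inr h)]
        simp
    · rfl
  · unfold Wrem
    have : (1 - eta δ z - eta δ (mc z) : ℝ) = 0 := by
      rcases h with h | h
      · have h2 : 3 * δ / 4 ≤ ‖z + 1‖ := by
          have := norm_add_one_ge z; linarith
        rw [eta_one hδ h, eta_zero hδ (by rwa [norm_mc_sub_one])]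
        ring
      · have h2 : 3 * δ / 4 ≤ ‖z - 1‖ := by
          have := norm_sub_one_ge z; linarith
        rw [eta_zero hδ h2, eta_one hδ (by rwa [norm_mc_sub_one])]
        ring
    rw [this]
    simp

/-- Outside the inner discs, `W` is given by the general formula. -/
theorem Wtot_eq (hδ : 0 < δ) (hδ' : δ < 1 / 2) (hy : 0 < y0) (hy8 : y0 ≤ δ / 8) {z : ℂ}
    (hz : z ∈ UH) (ho : Outer δ z) :
    Wtot α y0 δ m n z = ((((1 - eta δ z - eta δ (mc z) : ℝ) : ℂ)) • Smat α n y0 z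
        + (refl (dX1 α n y0 δ m) z - dX1 α n y0 δ m z)) * (Ymat α n y0 δ m z)⁻¹ := by
  have h1 : Wann α y0 δ m n z =
      (refl (dX1 α n y0 δ m) z - dX1 α n y0 δ m z) * (Ymat α n y0 δ m z)⁻¹ := by
    unfold Wann
    split_ifs with h
    · rfl
    · have h2 : 3 * δ / 4 ≤ ‖z - 1‖ := by
        by_contra hc
        push Not at hc
        exact h ⟨hz, Or.inl ⟨ho.1, hc.le⟩⟩
      have h3 : 3 * δ / 4 ≤ ‖z + 1‖ := by
        by_contra hc
        push Not at hc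
        exact h ⟨hz, Or.inr ⟨ho.2, hc.le⟩⟩
      rw [dX1_zero hδ (Or.inl h2), rdX1_zero hδ (Or.inl h3)]
      simp
  have h2 : Smat α n y0 z = Nmat z * dGx α n y0 z * Ninv z + W0 α n y0 z := by
    unfold Smat dG W0
    rw [mul_add, add_mul]
  have h3 : W0 α n y0 z = (((1 - eta δ z - eta δ (mc z) : ℝ) : ℂ)) •
      (W0 α n y0 z * (Ymat α n y0 δ m z)⁻¹) := by
    by_cases hb : 2 * y0 ≤ ‖z‖
    · rw [W0_zero_big hy hz hb]
      simp
    · push Not at hb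
      have e1 : 3 * δ / 4 ≤ ‖z - 1‖ := by
        have := norm_sub_one_ge' z; linarith
      have e2 : 3 * δ / 4 ≤ ‖z + 1‖ := by
        have := norm_add_one_ge' z; linarith
      rw [Ymat_one hδ e1 e2, eta_zero hδ e1, eta_zero hδ (by rwa [norm_mc_sub_one])]
      simp
  unfold Wtot Wrem
  rw [h1, h2]
  conv_lhs => rw [h3]
  rw [add_mul, smul_add, add_mul, smul_mul_assoc, smul_mul_assoc]
  abel

theorem outer_re {z : ℂ} (_hδ : 0 < δ) (hy8 : y0 ≤ δ / 8) (ho : Outer δ z)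
    (him : 0 < z.im) : |z.re| ≠ 1 ∨ y0 < z.im := by
  by_cases h : |z.re| = 1
  · right
    have key : ∀ w : ℂ, w.re = 0 → w.im = z.im → δ / 2 ≤ ‖w‖ → y0 < z.im := by
      intro w h1 h2 h3
      have h4 := Complex.norm_le_abs_re_add_abs_im w
      rw [h1, h2, abs_zero, abs_of_pos him] at h4
      linarith
    rcases abs_eq (zero_le_one) |>.mp h with h1 | h1
    · exact key (z - 1) (by simp [h1]) (by simp) ho.1
    · exact key (z + 1) (by simp [h1]) (by simp) ho.2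
  · left
    exact h

theorem Rmat_hasDbar_outer (hα : 1 < α) (hδ : 0 < δ) (hδ' : δ < 1 / 2) (hL : LocMap α δ m1 m)
    (hn : 1 ≤ n) (hy : 0 < y0) (hy8 : y0 ≤ δ / 8)
    (hX : ∀ z ∈ ann δ, nm (Xrat α n y0 m z - 1) ≤ 1 / 4) {T : ℂ → Mat2}
    {z : ℂ} (hz : z ∈ UH) (hT : HasDbarM T 0 z) (h1 : δ / 2 < ‖z - 1‖) (h2 : δ / 2 < ‖z + 1‖) :
    HasDbarM (Rmat α y0 δ m n T) (Rmat α y0 δ m n T z * Wtot α y0 δ m n z) z := by
  have hy1 : y0 ≤ 1 := by linarith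
  have ho : Outer δ z := ⟨h1.le, h2.le⟩
  have hre := outer_re hδ hy8 ho (show 0 < z.im from hz)
  have hYn := Ymat_near hδ hδ' hX hz ho
  have hYd : (Ymat α n y0 δ m z).det ≠ 0 := det_ne_of_near (by linarith)
  have hY := (Ymat_hasDbar hα hδ hL hn hy hy1 hz hre).inv hYd
  have hG := Gmat_hasDbar hα n hy hy1 hz hre
  have hR := ((hT.mul hG).mul (Ninv_hasDbar hz)).mul hY
  have hev : ∀ᶠ w in 𝓝 z, δ / 2 < ‖w - 1‖ ∧ δ / 2 < ‖w + 1‖ := by
    have c1 : Continuous fun w : ℂ => ‖w - 1‖ := by fun_prop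
    have c2 : Continuous fun w : ℂ => ‖w + 1‖ := by fun_prop
    exact Filter.Eventually.and ((isOpen_lt continuous_const c1).mem_nhds h1)
      ((isOpen_lt continuous_const c2).mem_nhds h2)
  have hRz : Rmat α y0 δ m n T z =
      T z * Gmat α n y0 z * Ninv z * (Ymat α n y0 δ m z)⁻¹ := by
    unfold Rmat
    rw [if_neg (by linarith), if_neg (by linarith)]
  have hcongr : Rmat α y0 δ m n T =ᶠ[𝓝 z]
      fun w => T w * Gmat α n y0 w * Ninv w * (Ymat α n y0 δ m w)⁻¹ := by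
    filter_upwards [hev] with w hw
    unfold Rmat
    rw [if_neg (by linarith [hw.1]), if_neg (by linarith [hw.2])]
  refine HasDbarM.of_eq (hR.congr hcongr) ?_
  rw [Wtot_eq hδ hδ' hy hy8 hz ho, hRz]
  have hYY : Ymat α n y0 δ m z * (Ymat α n y0 δ m z)⁻¹ = 1 :=
    Matrix.mul_nonsing_inv _ (isUnit_iff_ne_zero.mpr hYd)
  have hYY' : (Ymat α n y0 δ m z)⁻¹ * Ymat α n y0 δ m z = 1 :=
    Matrix.nonsing_inv_mul _ (isUnit_iff_ne_zero.mpr hYd)
  set Y := Ymat α n y0 δ m z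
  set Yi := Y⁻¹
  set S := Smat α n y0 z with hS
  set V := (((1 - eta δ z - eta δ (mc z) : ℝ) : ℂ)) • S +
    (refl (dX1 α n y0 δ m) z - dX1 α n y0 δ m z) with hV
  -- T dG Ninv = T G Ninv S
  have e1 : Gmat α n y0 z * Ninv z * S = dG α n y0 z * Ninv z := by
    rw [hS]
    unfold Smat
    calc Gmat α n y0 z * Ninv z * (Nmat z * dG α n y0 z * Ninv z)
        = Gmat α n y0 z * (Ninv z * Nmat z) * dG α n y0 z * Ninv z := by simp only [mul_assoc]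
      _ = _ := by rw [Ninv_mul_Nmat, mul_one, Gmat_inv_mul_dG n hy hy1 hz]
  have e2 : (((0 : Mat2) * Gmat α n y0 z + T z * dG α n y0 z) * Ninv z +
      T z * Gmat α n y0 z * 0) * Yi = T z * Gmat α n y0 z * Ninv z * (Yi * Y) * S * Yi := by
    rw [hYY', mul_one, zero_mul, zero_add, mul_zero, add_zero]
    calc T z * dG α n y0 z * Ninv z * Yi = T z * (dG α n y0 z * Ninv z) * Yi := by
          simp only [mul_assoc]
      _ = T z * (Gmat α n y0 z * Ninv z * S) * Yi := by rw [e1]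
      _ = _ := by simp only [mul_assoc]
  rw [e2]
  rw [mul_neg]
  have e3 : T z * Gmat α n y0 z * Ninv z * (Yi * (Y * S - V) * Yi) =
      T z * Gmat α n y0 z * Ninv z * (Yi * Y) * S * Yi -
        T z * Gmat α n y0 z * Ninv z * Yi * (V * Yi) := by
    rw [mul_sub, sub_mul, mul_sub]
    simp only [mul_assoc]
  rw [e3]
  abel

theorem Rmat_eq_in (hδ : 0 < δ) (hδ' : δ < 1 / 2) {T : ℂ → Mat2} {z : ℂ}
    (h1 : ‖z - 1‖ ≤ 13 * δ / 25) :
    Rmat α y0 δ m n T z = T z * (Ploc α n m z)⁻¹ := by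
  unfold Rmat
  split_ifs with h h'
  · rfl
  · have := norm_add_one_ge z
    linarith
  · have h2 : 3 * δ / 4 ≤ ‖z + 1‖ := by
      have := norm_add_one_ge z; linarith
    have hY : Ymat α n y0 δ m z = Ploc α n m z * Gmat α n y0 z * Ninv z := by
      unfold Ymat
      rw [rX1_zero hδ h2]
      unfold X1
      rw [eta_one hδ h1]
      unfold Xrat
      simp
    rw [hY, Matrix.mul_inv_rev, Matrix.mul_inv_rev]
    have hN : (Ninv z)⁻¹ = Nmat z := Matrix.inv_eq_right_inv (Ninv_mul_Nmat z)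
    rw [hN]
    have hGG : Gmat α n y0 z * (Gmat α n y0 z)⁻¹ = 1 :=
      Matrix.mul_nonsing_inv _ (by rw [Gmat_det]; exact isUnit_one)
    calc T z * Gmat α n y0 z * Ninv z * (Nmat z * ((Gmat α n y0 z)⁻¹ * (Ploc α n m z)⁻¹))
        = T z * (Gmat α n y0 z * ((Ninv z * Nmat z) * (Gmat α n y0 z)⁻¹)) *
          (Ploc α n m z)⁻¹ := by simp only [mul_assoc]
      _ = _ := by rw [Ninv_mul_Nmat, one_mul, hGG, mul_one]

theorem Rmat_eq_in' (hα : 1 < α) (hδ : 0 < δ) (hδ' : δ < 1 / 2) {T : ℂ → Mat2} {z : ℂ}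
    (hz : z ∈ UH) (h1 : ‖z + 1‖ ≤ 13 * δ / 25) :
    Rmat α y0 δ m n T z = T z * (refl (Ploc α n m) z)⁻¹ := by
  unfold Rmat
  split_ifs with h h'
  · have := norm_add_one_ge z
    linarith
  · rfl
  · have h2 : 3 * δ / 4 ≤ ‖z - 1‖ := by
      have := norm_sub_one_ge z; linarith
    have hY : Ymat α n y0 δ m z = refl (Ploc α n m) z * Gmat α n y0 z * Ninv z := by
      unfold Ymat
      rw [X1_zero hδ h2]
      have e1 : X1 α n y0 δ m = fun w => (eta δ w : ℂ) • (Xrat α n y0 m w - 1) := rfl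
      have e2 : Xrat α n y0 m = fun w => Ploc α n m w * Gmat α n y0 w * Ninv w := rfl
      rw [e1, refl_smul, refl_sub, refl_one, eta_one hδ (by rwa [norm_mc_sub_one]), e2, refl_mul,
        refl_mul, refl_Gmat hα n y0 hz, refl_Ninv hz]
      simp
    rw [hY, Matrix.mul_inv_rev, Matrix.mul_inv_rev]
    have hN : (Ninv z)⁻¹ = Nmat z := Matrix.inv_eq_right_inv (Ninv_mul_Nmat z)
    rw [hN]
    have hGG : Gmat α n y0 z * (Gmat α n y0 z)⁻¹ = 1 :=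
      Matrix.mul_nonsing_inv _ (by rw [Gmat_det]; exact isUnit_one)
    calc T z * Gmat α n y0 z * Ninv z * (Nmat z *
        ((Gmat α n y0 z)⁻¹ * (refl (Ploc α n m) z)⁻¹))
        = T z * (Gmat α n y0 z * ((Ninv z * Nmat z) * (Gmat α n y0 z)⁻¹)) *
          (refl (Ploc α n m) z)⁻¹ := by simp only [mul_assoc]
      _ = _ := by rw [Ninv_mul_Nmat, one_mul, hGG, mul_one]

theorem Ploc_hasDbar (hα : 1 < α) (hL : LocMap α δ m1 m) (hn : 1 ≤ n) {z : ℂ} (hz : z ∈ UH)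
    (hzb : ‖z - 1‖ < δ) : HasDbarM (Ploc α n m) 0 z := by
  have hzb' : z ∈ Metric.ball (1 : ℂ) δ := by rwa [Metric.mem_ball, dist_eq_norm]
  exact fun i j => HasDbar.of_hasDerivAt
    (Ploc_diff α δ m1 hα m hL n hn z hzb' hz i j).hasDerivAt

theorem Rmat_hasDbar_in (hα : 1 < α) (hδ : 0 < δ) (hδ' : δ < 1 / 2) (hL : LocMap α δ m1 m)
    (hn : 1 ≤ n) {T : ℂ → Mat2} {z : ℂ} (hz : z ∈ UH) (hT : HasDbarM T 0 z)
    (h1 : ‖z - 1‖ < 13 * δ / 25) : HasDbarM (Rmat α y0 δ m n T) 0 z := by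
  have hdet : ∀ w ∈ UH, ‖w - 1‖ < 13 * δ / 25 → (Ploc α n m w).det = 1 := by
    intro w hw h
    refine Ploc_det α δ m1 hα m hL n hn w ?_ hw
    rw [Metric.mem_ball, dist_eq_norm]
    linarith
  have hP := (Ploc_hasDbar hα hL hn hz (by linarith)).inv (by rw [hdet z hz h1]; exact one_ne_zero)
  have hR := hT.mul hP
  have hev : ∀ᶠ w in 𝓝 z, ‖w - 1‖ < 13 * δ / 25 ∧ w ∈ UH := by
    have c1 : Continuous fun w : ℂ => ‖w - 1‖ := by fun_prop
    exact Filter.Eventually.and ((isOpen_lt c1 continuous_const).mem_nhds h1)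
      (isOpen_UH.mem_nhds hz)
  refine HasDbarM.of_eq (hR.congr ?_) (by simp)
  filter_upwards [hev] with w hw
  exact Rmat_eq_in hδ hδ' hw.1.le

theorem Rmat_hasDbar_in' (hα : 1 < α) (hδ : 0 < δ) (hδ' : δ < 1 / 2) (hL : LocMap α δ m1 m)
    (hn : 1 ≤ n) {T : ℂ → Mat2} {z : ℂ} (hz : z ∈ UH) (hT : HasDbarM T 0 z)
    (h1 : ‖z + 1‖ < 13 * δ / 25) : HasDbarM (Rmat α y0 δ m n T) 0 z := by
  have hdet : ∀ w ∈ UH, ‖w - 1‖ < 13 * δ / 25 → (Ploc α n m w).det = 1 := by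
    intro w hw h
    refine Ploc_det α δ m1 hα m hL n hn w ?_ hw
    rw [Metric.mem_ball, dist_eq_norm]
    linarith
  have hm : mc z ∈ UH := mc_mem hz
  have h1' : ‖mc z - 1‖ < 13 * δ / 25 := by rwa [norm_mc_sub_one]
  have hmz : ‖mc z - 1‖ < δ := by linarith
  have hP0 := HasDbarM.refl (z := z) (Ploc_hasDbar hα hL hn hm hmz)
  have hd0 : (refl (Ploc α n m) z).det ≠ 0 := by
    rw [refl_det, hdet _ hm h1']
    simp
  have hP := hP0.inv hd0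
  have hR := hT.mul hP
  have hev : ∀ᶠ w in 𝓝 z, ‖w + 1‖ < 13 * δ / 25 ∧ w ∈ UH := by
    have c1 : Continuous fun w : ℂ => ‖w + 1‖ := by fun_prop
    exact Filter.Eventually.and ((isOpen_lt c1 continuous_const).mem_nhds h1)
      (isOpen_UH.mem_nhds hz)
  have hz0 : sig3 * cj (0 : Mat2) * sig3 = 0 := by
    have : cj (0 : Mat2) = 0 := by ext i j; simp [cj]
    rw [this]; simp
  refine HasDbarM.of_eq (hR.congr ?_) (by rw [hz0]; simp)
  filter_upwards [hev] with w hw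
  exact Rmat_eq_in' hα hδ hδ' hw.2 hw.1.le

theorem Rmat_hasDbar (hα : 1 < α) (hδ : 0 < δ) (hδ' : δ < 1 / 2) (hL : LocMap α δ m1 m)
    (hn : 1 ≤ n) (hy : 0 < y0) (hy8 : y0 ≤ δ / 8)
    (hX : ∀ z ∈ ann δ, nm (Xrat α n y0 m z - 1) ≤ 1 / 4) {T : ℂ → Mat2}
    {z : ℂ} (hz : z ∈ UH) (hT : HasDbarM T 0 z) :
    HasDbarM (Rmat α y0 δ m n T) (Rmat α y0 δ m n T z * Wtot α y0 δ m n z) z := by
  by_cases h1 : ‖z - 1‖ < 13 * δ / 25
  · have hW := Wtot_zero (α := α) (n := n) (m := m) hδ hδ' hy hy8 hz (Or.inl h1.le)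
    refine HasDbarM.of_eq (Rmat_hasDbar_in hα hδ hδ' hL hn hz hT h1) ?_
    unfold Wtot
    rw [hW.1, hW.2.1, hW.2.2]
    simp
  by_cases h2 : ‖z + 1‖ < 13 * δ / 25
  · have hW := Wtot_zero (α := α) (n := n) (m := m) hδ hδ' hy hy8 hz (Or.inr h2.le)
    refine HasDbarM.of_eq (Rmat_hasDbar_in' hα hδ hδ' hL hn hz hT h2) ?_
    unfold Wtot
    rw [hW.1, hW.2.1, hW.2.2]
    simp
  push Not at h1 h2
  exact Rmat_hasDbar_outer hα hδ hδ' hL hn hy hy8 hX hz hT (by linarith) (by linarith)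

end

end Pool.Agent.Freud
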