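import Pool.Agent.Freud.Defs2

/-!
Boundary values of the g-function (job FR-D2).
-/

set_option autoImplicit false

open MeasureTheory Filter Topology Set

namespace Pool.Agent.Freud

/-! ### The square root -/

theorem gbdry_sqrt_sq (w : ℂ) : (w ^ (1 / 2 : ℂ)) ^ 2 = w := by
  have := Complex.cpow_nat_inv_pow w (two_ne_zero)
  rw [← this]
  congr 2
  norm_num

theorem gbdry_sqrt_re_pos {w : ℂ} (hw : w ∈ Complex.slitPlane) : 0 < (w ^ (1 / 2 : ℂ)).re := by
  have h0 : w ≠ 0 := Complex.slitPlane_ne_zero hw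
  rw [Complex.cpow_def_of_ne_zero h0, Complex.exp_re]
  have h1 : (Complex.log w * (1 / 2)).im = w.arg / 2 := by
    have : (1 / 2 : ℂ) = ((1 / 2 : ℝ) : ℂ) := by norm_num
    rw [this, Complex.im_mul_ofReal, Complex.log_im]; ring
  rw [h1]
  refine mul_pos (Real.exp_pos _) (Real.cos_pos_of_mem_Ioo ⟨?_, ?_⟩)
  · have := Complex.neg_pi_lt_arg w; linarith
  · have := (Complex.mem_slitPlane_iff_arg.mp hw).1
    have h2 := Complex.arg_le_pi w
    have : w.arg < Real.pi := lt_of_le_of_ne h2 this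
    linarith

theorem gbdry_mem_slit {z : ℂ} (hz : 0 < z.im) (s : ℝ) :
    (s : ℂ) ^ 2 - z ^ 2 ∈ Complex.slitPlane := by
  rw [Complex.mem_slitPlane_iff]
  by_cases hx : z.re = 0
  · left
    simp [pow_two, hx]
    nlinarith [sq_nonneg s, mul_pos hz hz]
  · right
    simp [pow_two]
    intro h
    have : z.re * z.im ≠ 0 := mul_ne_zero hx hz.ne'
    apply this; linarith

/-- Two square roots in the upper half plane are equal. -/
theorem gbdry_sqrt_unique {p q : ℂ} (hp : 0 < p.im) (hq : 0 < q.im) (h : p ^ 2 = q ^ 2) :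
    p = q := by
  rcases sq_eq_sq_iff_eq_or_eq_neg.mp h with h | h
  · exact h
  · rw [h, Complex.neg_im] at hp; linarith

/-- The function under the logarithm. -/
noncomputable def gbdryQ (z : ℂ) (s : ℝ) : ℂ :=
  z + Complex.I * ((s : ℂ) ^ 2 - z ^ 2) ^ (1 / 2 : ℂ)

theorem gbdryQ_im {z : ℂ} (hz : 0 < z.im) (s : ℝ) : z.im < (gbdryQ z s).im := by
  have := gbdry_sqrt_re_pos (gbdry_mem_slit hz s)
  unfold gbdryQ
  rw [Complex.add_im, Complex.I_mul_im]
  linarith

theorem gbdryQ_norm_ge {z : ℂ} (hz : 0 < z.im) (s : ℝ) : s ≤ ‖gbdryQ z s‖ := by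
  set u := ((s : ℂ) ^ 2 - z ^ 2) ^ (1 / 2 : ℂ) with hu
  have h1 : 0 < u.re := gbdry_sqrt_re_pos (gbdry_mem_slit hz s)
  have h2 : u ^ 2 = (s : ℂ) ^ 2 - z ^ 2 := gbdry_sqrt_sq _
  have h3 : gbdryQ z s = z + Complex.I * u := rfl
  have h4 : (z + Complex.I * u) * (z - Complex.I * u) = (s : ℂ) ^ 2 := by
    have : (z + Complex.I * u) * (z - Complex.I * u) = z ^ 2 - Complex.I ^ 2 * u ^ 2 := by ring
    rw [this, h2, Complex.I_sq]; ring
  have h5 : u.re * u.im = -(z.re * z.im) := by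
    have := congrArg Complex.im h2
    simp [pow_two] at this
    linarith
  have h6 : ‖z - Complex.I * u‖ ^ 2 ≤ ‖z + Complex.I * u‖ ^ 2 := by
    rw [← Complex.normSq_eq_norm_sq, ← Complex.normSq_eq_norm_sq, Complex.normSq_apply,
      Complex.normSq_apply]
    simp
    have h7 : 0 ≤ z.im * u.re - z.re * u.im := by
      have : 0 ≤ (z.im * u.re - z.re * u.im) * u.re := by
        have : (z.im * u.re - z.re * u.im) * u.re = z.im * (u.re ^ 2 + z.re ^ 2) := by
          have : z.re * (u.re * u.im) = z.re * (-(z.re * z.im)) := by rw [h5]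
          linear_combination -this
        rw [this]; positivity
      exact nonneg_of_mul_nonneg_left this h1
    nlinarith
  have h7 : ‖z - Complex.I * u‖ ≤ ‖z + Complex.I * u‖ := by
    exact (sq_le_sq₀ (norm_nonneg _) (norm_nonneg _)).mp h6
  have h8 : ‖z + Complex.I * u‖ * ‖z - Complex.I * u‖ = s ^ 2 := by
    rw [← norm_mul, h4, norm_pow, Complex.norm_real, Real.norm_eq_abs, sq_abs]
  rw [h3]
  by_contra hlt
  push Not at hlt
  nlinarith [norm_nonneg (z + Complex.I * u), norm_nonneg (z - Complex.I * u)]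

theorem gbdryQ_norm_le (z : ℂ) {s : ℝ} (hs : 0 ≤ s) : ‖gbdryQ z s‖ ≤ 2 * ‖z‖ + s := by
  set u := ((s : ℂ) ^ 2 - z ^ 2) ^ (1 / 2 : ℂ) with hu
  have h2 : u ^ 2 = (s : ℂ) ^ 2 - z ^ 2 := gbdry_sqrt_sq _
  have h3 : ‖u‖ ^ 2 ≤ (s + ‖z‖) ^ 2 := by
    rw [← norm_pow, h2]
    calc ‖(s : ℂ) ^ 2 - z ^ 2‖ ≤ ‖(s : ℂ) ^ 2‖ + ‖z ^ 2‖ := norm_sub_le _ _
      _ = s ^ 2 + ‖z‖ ^ 2 := by
          rw [norm_pow, norm_pow, Complex.norm_real, Real.norm_eq_abs, sq_abs]
      _ ≤ _ := by nlinarith [norm_nonneg z]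
  have h4 : ‖u‖ ≤ s + ‖z‖ := (sq_le_sq₀ (norm_nonneg _) (by positivity)).mp h3
  calc ‖gbdryQ z s‖ ≤ ‖z‖ + ‖Complex.I * u‖ := norm_add_le _ _
    _ = ‖z‖ + ‖u‖ := by rw [norm_mul, Complex.norm_I, one_mul]
    _ ≤ _ := by linarith

/-- For `x > 0` the function under the logarithm is `z + (z² - s²)^{1/2}`. -/
theorem gbdryQ_pos {z : ℂ} (hz : 0 < z.im) (hx : 0 < z.re) (s : ℝ) :
    gbdryQ z s = z + (z ^ 2 - (s : ℂ) ^ 2) ^ (1 / 2 : ℂ) := by
  unfold gbdryQ
  congr 1
  have him : 0 < (z ^ 2 - (s : ℂ) ^ 2).im := by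
    simp [pow_two]; nlinarith [mul_pos hz hx]
  have hslit : z ^ 2 - (s : ℂ) ^ 2 ∈ Complex.slitPlane := Or.inr him.ne'
  refine gbdry_sqrt_unique ?_ ?_ ?_
  · rw [Complex.I_mul_im]; exact gbdry_sqrt_re_pos (gbdry_mem_slit hz s)
  · have h1 := gbdry_sqrt_re_pos hslit
    have h2 := congrArg Complex.im (gbdry_sqrt_sq (z ^ 2 - (s : ℂ) ^ 2))
    set v := (z ^ 2 - (s : ℂ) ^ 2) ^ (1 / 2 : ℂ)
    rw [pow_two, Complex.mul_im] at h2
    have : 0 < v.re * v.im := by nlinarith
    exact (pos_iff_pos_of_mul_pos this).mp h1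
  · rw [mul_pow, Complex.I_sq, gbdry_sqrt_sq, gbdry_sqrt_sq]; ring

/-- For `x < 0` the function under the logarithm is `z - (z² - s²)^{1/2}`. -/
theorem gbdryQ_neg {z : ℂ} (hz : 0 < z.im) (hx : z.re < 0) (s : ℝ) :
    gbdryQ z s = z - (z ^ 2 - (s : ℂ) ^ 2) ^ (1 / 2 : ℂ) := by
  unfold gbdryQ
  have him : (z ^ 2 - (s : ℂ) ^ 2).im < 0 := by
    simp [pow_two]; nlinarith [mul_neg_of_pos_of_neg hz hx]
  have hslit : z ^ 2 - (s : ℂ) ^ 2 ∈ Complex.slitPlane := Or.inr him.ne
  have key : Complex.I * ((s : ℂ) ^ 2 - z ^ 2) ^ (1 / 2 : ℂ) =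
      -((z ^ 2 - (s : ℂ) ^ 2) ^ (1 / 2 : ℂ)) := by
    refine gbdry_sqrt_unique ?_ ?_ ?_
    · rw [Complex.I_mul_im]; exact gbdry_sqrt_re_pos (gbdry_mem_slit hz s)
    · have h1 := gbdry_sqrt_re_pos hslit
      have h2 := congrArg Complex.im (gbdry_sqrt_sq (z ^ 2 - (s : ℂ) ^ 2))
      set v := (z ^ 2 - (s : ℂ) ^ 2) ^ (1 / 2 : ℂ)
      rw [pow_two, Complex.mul_im] at h2
      have : v.re * v.im < 0 := by nlinarith
      rw [Complex.neg_im]
      have : v.im < 0 := by
        by_contra h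
        push Not at h
        nlinarith [mul_nonneg h1.le h]
      linarith
    · rw [mul_pow, Complex.I_sq, gbdry_sqrt_sq, neg_sq, gbdry_sqrt_sq]; ring
  rw [key]; ring

/-- The boundary values of the logarithm. -/
noncomputable def gbdryL (x s : ℝ) : ℂ :=
  if |x| < s then Complex.log ((x + Complex.I * (√(s ^ 2 - x ^ 2) : ℝ)) / 2)
  else if 0 < x then Complex.log ((x + √(x ^ 2 - s ^ 2) : ℝ) / 2)
  else Complex.log ((x - √(x ^ 2 - s ^ 2) : ℝ) / 2)

theorem gbdry_tendsto_z (x : ℝ) :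
    Tendsto (fun ε : ℝ => (x : ℂ) + ε * Complex.I) (𝓝[>] 0) (𝓝 x) := by
  have : Tendsto (fun ε : ℝ => (x : ℂ) + ε * Complex.I) (𝓝 0) (𝓝 ((x : ℂ) + (0 : ℝ) * Complex.I)) := by
    apply Continuous.tendsto; fun_prop
  simp only [Complex.ofReal_zero, zero_mul, add_zero] at this
  exact this.mono_left nhdsWithin_le_nhds

theorem gbdry_sqrt_ofReal {t : ℝ} (ht : 0 ≤ t) : (t : ℂ) ^ (1 / 2 : ℂ) = (√t : ℝ) := by
  rw [Real.sqrt_eq_rpow, Complex.ofReal_cpow ht]
  norm_num

theorem gbdry_pointwise {x s : ℝ} (hs : 0 ≤ s) (hxs : s ≠ |x|) :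
    Tendsto (fun ε : ℝ => Complex.log (gbdryQ (x + ε * Complex.I) s / 2)) (𝓝[>] 0)
      (𝓝 (gbdryL x s)) := by
  have hz := gbdry_tendsto_z x
  have him : ∀ ε : ℝ, ((x : ℂ) + ε * Complex.I).im = ε := by intro ε; simp
  have hre : ∀ ε : ℝ, ((x : ℂ) + ε * Complex.I).re = x := by intro ε; simp
  unfold gbdryL
  by_cases h1 : |x| < s
  · rw [if_pos h1]
    have hpos : 0 < s ^ 2 - x ^ 2 := by
      have := sq_lt_sq' (by linarith [abs_nonneg x] : -s < |x|) h1
      rw [sq_abs] at this; linarith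
    have hw : (s : ℂ) ^ 2 - (x : ℂ) ^ 2 = ((s ^ 2 - x ^ 2 : ℝ) : ℂ) := by push_cast; ring
    have hslit : (s : ℂ) ^ 2 - (x : ℂ) ^ 2 ∈ Complex.slitPlane := by
      rw [hw]; exact Complex.ofReal_mem_slitPlane.mpr hpos
    have h2 : Tendsto (fun ε : ℝ => gbdryQ (x + ε * Complex.I) s / 2) (𝓝[>] 0)
        (𝓝 (((x : ℂ) + Complex.I * (√(s ^ 2 - x ^ 2) : ℝ)) / 2)) := by
      rw [← gbdry_sqrt_ofReal hpos.le, ← hw]
      unfold gbdryQ
      refine Tendsto.div_const (hz.add (Tendsto.const_mul _ ?_)) _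
      have hc : ContinuousAt (fun w : ℂ => w ^ (1 / 2 : ℂ)) ((s : ℂ) ^ 2 - (x : ℂ) ^ 2) :=
        continuousAt_cpow_const hslit
      exact hc.tendsto.comp (tendsto_const_nhds.sub (hz.pow 2))
    refine (continuousAt_clog ?_).tendsto.comp h2
    rw [Complex.mem_slitPlane_iff]
    right
    have : (((x : ℂ) + Complex.I * (√(s ^ 2 - x ^ 2) : ℝ)) / 2).im = √(s ^ 2 - x ^ 2) / 2 := by
      simp
    rw [this]
    have := Real.sqrt_pos.mpr hpos
    linarith
  · rw [if_neg h1]
    have h1' : s < |x| := lt_of_le_of_ne (not_lt.mp h1) hxs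
    have hpos : 0 < x ^ 2 - s ^ 2 := by
      have := sq_lt_sq' (by linarith : -|x| < s) h1'
      rw [sq_abs] at this; linarith
    have hw : (x : ℂ) ^ 2 - (s : ℂ) ^ 2 = ((x ^ 2 - s ^ 2 : ℝ) : ℂ) := by push_cast; ring
    have hslit : (x : ℂ) ^ 2 - (s : ℂ) ^ 2 ∈ Complex.slitPlane := by
      rw [hw]; exact Complex.ofReal_mem_slitPlane.mpr hpos
    have hc : ContinuousAt (fun w : ℂ => w ^ (1 / 2 : ℂ)) ((x : ℂ) ^ 2 - (s : ℂ) ^ 2) :=
      continuousAt_cpow_const hslit
    have hlim : Tendsto (fun ε : ℝ => (((x : ℂ) + ε * Complex.I) ^ 2 - (s : ℂ) ^ 2) ^ (1 / 2 : ℂ))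
        (𝓝[>] 0) (𝓝 ((√(x ^ 2 - s ^ 2) : ℝ) : ℂ)) := by
      rw [← gbdry_sqrt_ofReal hpos.le, ← hw]
      exact hc.tendsto.comp ((hz.pow 2).sub tendsto_const_nhds)
    have hsq := Real.sqrt_pos.mpr hpos
    by_cases h2 : 0 < x
    · rw [if_pos h2]
      have h3 : Tendsto (fun ε : ℝ => gbdryQ (x + ε * Complex.I) s / 2) (𝓝[>] 0)
          (𝓝 (((x + √(x ^ 2 - s ^ 2) : ℝ) : ℂ) / 2)) := by
        have h4 : Tendsto (fun ε : ℝ => (((x : ℂ) + ε * Complex.I) +
            (((x : ℂ) + ε * Complex.I) ^ 2 - (s : ℂ) ^ 2) ^ (1 / 2 : ℂ)) / 2) (𝓝[>] 0)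
            (𝓝 (((x + √(x ^ 2 - s ^ 2) : ℝ) : ℂ) / 2)) := by
          push_cast
          exact (hz.add hlim).div_const 2
        refine h4.congr' ?_
        filter_upwards [self_mem_nhdsWithin] with ε hε
        rw [gbdryQ_pos (by rw [him]; exact hε) (by rw [hre]; exact h2)]
      refine (continuousAt_clog ?_).tendsto.comp h3
      rw [Complex.mem_slitPlane_iff]
      left
      simp
      linarith
    · rw [if_neg h2]
      have hx : x < 0 := by
        rcases lt_trichotomy x 0 with h | h | h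
        · exact h
        · subst h; simp at h1'; linarith
        · exact absurd h h2
      have h3 : Tendsto (fun ε : ℝ => gbdryQ (x + ε * Complex.I) s / 2) (𝓝[>] 0)
          (𝓝 (((x - √(x ^ 2 - s ^ 2) : ℝ) : ℂ) / 2)) := by
        have h4 : Tendsto (fun ε : ℝ => (((x : ℂ) + ε * Complex.I) -
            (((x : ℂ) + ε * Complex.I) ^ 2 - (s : ℂ) ^ 2) ^ (1 / 2 : ℂ)) / 2) (𝓝[>] 0)
            (𝓝 (((x - √(x ^ 2 - s ^ 2) : ℝ) : ℂ) / 2)) := by
          push_cast
          exact (hz.sub hlim).div_const 2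
        refine h4.congr' ?_
        filter_upwards [self_mem_nhdsWithin] with ε hε
        rw [gbdryQ_neg (by rw [him]; exact hε) (by rw [hre]; exact hx)]
      have hc2 := Complex.continuousWithinAt_log_of_re_neg_of_im_zero
        (z := ((x - √(x ^ 2 - s ^ 2) : ℝ) / 2 : ℂ)) (by simp; linarith) (by simp)
      refine hc2.tendsto.comp (tendsto_nhdsWithin_iff.mpr ⟨h3, ?_⟩)
      filter_upwards [self_mem_nhdsWithin] with ε hε
      have := gbdryQ_im (z := (x : ℂ) + ε * Complex.I) (by rw [him]; exact hε) s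
      rw [him] at this
      have hε' : (0 : ℝ) < ε := hε
      show 0 ≤ (gbdryQ (↑x + ↑ε * Complex.I) s / 2).im
      have e : (gbdryQ (↑x + ↑ε * Complex.I) s / 2).im = (gbdryQ (↑x + ↑ε * Complex.I) s).im / 2 := by
        simp
      rw [e]; linarith

theorem gbdryL_re_gt {x s : ℝ} (h : |x| < s) : (gbdryL x s).re = Real.log (s / 2) := by
  have hs : 0 < s := lt_of_le_of_lt (abs_nonneg x) h
  have hpos : 0 < s ^ 2 - x ^ 2 := by
    have := sq_lt_sq' (by linarith [abs_nonneg x] : -s < |x|) h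
    rw [sq_abs] at this; linarith
  unfold gbdryL
  rw [if_pos h, Complex.log_re]
  congr 1
  rw [norm_div]
  have h1 : ‖(x : ℂ) + Complex.I * (√(s ^ 2 - x ^ 2) : ℝ)‖ = s := by
    rw [← sq_eq_sq₀ (norm_nonneg _) hs.le, ← Complex.normSq_eq_norm_sq, Complex.normSq_apply]
    simp
    rw [Real.mul_self_sqrt hpos.le]; ring
  rw [h1]; simp

theorem gbdryL_re_lt {x s : ℝ} (h : s < |x|) :
    (gbdryL x s).re = Real.log ((|x| + √(x ^ 2 - s ^ 2)) / 2) := by
  unfold gbdryL
  rw [if_neg (not_lt.mpr h.le)]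
  have hsq := Real.sqrt_nonneg (x ^ 2 - s ^ 2)
  split_ifs with h2
  · rw [Complex.log_re]
    congr 1
    rw [norm_div, Complex.norm_real, abs_of_pos h2, Real.norm_eq_abs, abs_of_nonneg (by linarith)]
    simp
  · have h3 : x ≤ 0 := not_lt.mp h2
    rw [Complex.log_re]
    congr 1
    rw [norm_div, Complex.norm_real, abs_of_nonpos h3, Real.norm_eq_abs,
      abs_of_nonpos (by linarith)]
    simp
    ring

theorem gbdryL_im_right {x s : ℝ} (hx : 1 ≤ x) (hs : s < 1) : (gbdryL x s).im = 0 := by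
  unfold gbdryL
  rw [abs_of_pos (by linarith), if_neg (not_lt.mpr (by linarith)), if_pos (by linarith)]
  rw [show ((x + √(x ^ 2 - s ^ 2) : ℝ) / 2 : ℂ) = (((x + √(x ^ 2 - s ^ 2)) / 2 : ℝ) : ℂ) by
    push_cast; ring]
  rw [Complex.log_im, Complex.arg_ofReal_of_nonneg]
  have := Real.sqrt_nonneg (x ^ 2 - s ^ 2)
  linarith

theorem gbdryL_im_left {x s : ℝ} (hx : x ≤ -1) (hs : s < 1) :
    (gbdryL x s).im = Real.pi := by
  unfold gbdryL
  rw [abs_of_neg (by linarith), if_neg (not_lt.mpr (by linarith)), if_neg (by linarith)]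
  rw [show ((x - √(x ^ 2 - s ^ 2) : ℝ) / 2 : ℂ) = (((x - √(x ^ 2 - s ^ 2)) / 2 : ℝ) : ℂ) by
    push_cast; ring]
  rw [Complex.log_im, Complex.arg_ofReal_of_neg]
  have := Real.sqrt_nonneg (x ^ 2 - s ^ 2)
  linarith

theorem gbdry_log_bound {z : ℂ} (hz : 0 < z.im) {x s : ℝ} (hs : 0 < s) (hs1 : s ≤ 1)
    (hzx : ‖z‖ ≤ |x| + 1) :
    ‖Complex.log (gbdryQ z s / 2)‖ ≤ |Real.log s| + (Real.log 2 + Real.log (|x| + 2) + Real.pi) := by
  have h1 := gbdryQ_norm_ge hz s
  have h2 := gbdryQ_norm_le z hs.le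
  have h3 : ‖gbdryQ z s / 2‖ = ‖gbdryQ z s‖ / 2 := by rw [norm_div]; simp
  have h4 : |Real.log ‖gbdryQ z s / 2‖| ≤ |Real.log s| + (Real.log 2 + Real.log (|x| + 2)) := by
    rw [h3, abs_le]
    have hl2 : 0 ≤ Real.log 2 := Real.log_nonneg (by norm_num)
    have hlx : 0 ≤ Real.log (|x| + 2) := Real.log_nonneg (by linarith [abs_nonneg x])
    constructor
    · have : Real.log (s / 2) ≤ Real.log (‖gbdryQ z s‖ / 2) :=
        Real.log_le_log (by linarith) (by linarith)
      rw [Real.log_div hs.ne' (by norm_num)] at this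
      have := neg_abs_le (Real.log s)
      linarith
    · have : Real.log (‖gbdryQ z s‖ / 2) ≤ Real.log (|x| + 2) :=
        Real.log_le_log (by linarith) (by linarith)
      have := abs_nonneg (Real.log s)
      linarith
  calc ‖Complex.log (gbdryQ z s / 2)‖
      ≤ |(Complex.log (gbdryQ z s / 2)).re| + |(Complex.log (gbdryQ z s / 2)).im| :=
        Complex.norm_le_abs_re_add_abs_im _
    _ ≤ (|Real.log s| + (Real.log 2 + Real.log (|x| + 2))) + Real.pi := by
        rw [Complex.log_re, Complex.log_im]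
        exact add_le_add h4 (Complex.abs_arg_le_pi _)
    _ = _ := by ring

/-- Half of a Beta integral. -/
theorem gbdry_beta (α : ℝ) (hα : 0 < α) :
    ∫ t in (0 : ℝ)..1, t ^ (α - 1) / √(1 - t ^ 2) = kap α / 2 := by
  have h1 : ∫ w in (0 : ℝ)..1, w ^ (α / 2 - 1) * (1 - w) ^ (1 / 2 - 1 : ℝ) =
      √Real.pi * Real.Gamma (α / 2) / Real.Gamma ((α + 1) / 2) := by
    have h2 := ProbabilityTheory.beta_eq_betaIntegralReal (α / 2) (1 / 2) (by linarith)
      (by norm_num)
    unfold ProbabilityTheory.beta at h2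
    rw [Real.Gamma_one_half_eq] at h2
    rw [show (α + 1) / 2 = α / 2 + 1 / 2 by ring, mul_comm (√Real.pi), h2]
    unfold Complex.betaIntegral
    have h3 : ∫ x in (0 : ℝ)..1, (x : ℂ) ^ (((α / 2 : ℝ) : ℂ) - 1) *
        (1 - (x : ℂ)) ^ (((1 / 2 : ℝ) : ℂ) - 1) =
        ∫ x in (0 : ℝ)..1, ((x ^ (α / 2 - 1) * (1 - x) ^ (1 / 2 - 1 : ℝ) : ℝ) : ℂ) := by
      refine intervalIntegral.integral_congr_ae (Filter.Eventually.of_forall fun x hx => ?_)
      rw [uIoc_of_le zero_le_one] at hx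
      rw [Complex.ofReal_mul, Complex.ofReal_cpow hx.1.le, Complex.ofReal_cpow (by linarith [hx.2])]
      push_cast
      ring_nf
    rw [h3, intervalIntegral.integral_ofReal, Complex.ofReal_re]
  have h4 : ∫ w in (0 : ℝ)..1, w ^ (α / 2 - 1) * (1 - w) ^ (1 / 2 - 1 : ℝ) =
      2 * ∫ t in (0 : ℝ)..1, t ^ (α - 1) / √(1 - t ^ 2) := by
    have himg : (fun t : ℝ => t ^ 2) '' Ioo 0 1 = Ioo 0 1 := by
      ext w
      constructor
      · rintro ⟨t, ht, rfl⟩
        exact ⟨by have := ht.1; positivity, by nlinarith [ht.1, ht.2]⟩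
      · intro hw
        refine ⟨√w, ⟨Real.sqrt_pos.mpr hw.1, ?_⟩, Real.sq_sqrt hw.1.le⟩
        rw [Real.sqrt_lt' one_pos]; linarith [hw.2]
    have h5 := MeasureTheory.integral_image_eq_integral_abs_deriv_smul (s := Ioo (0 : ℝ) 1)
      (f := fun t => t ^ 2) (f' := fun t => 2 * t) measurableSet_Ioo
      (fun x _ => by simpa using (hasDerivAt_pow 2 x).hasDerivWithinAt)
      (fun a ha b hb hab => by
        have : a ^ 2 = b ^ 2 := hab
        exact (sq_eq_sq₀ ha.1.le hb.1.le).mp this)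
      (fun w => w ^ (α / 2 - 1) * (1 - w) ^ (1 / 2 - 1 : ℝ))
    rw [himg] at h5
    rw [intervalIntegral.integral_of_le zero_le_one, integral_Ioc_eq_integral_Ioo, h5,
      intervalIntegral.integral_of_le zero_le_one, integral_Ioc_eq_integral_Ioo,
      ← MeasureTheory.integral_const_mul]
    refine MeasureTheory.setIntegral_congr_fun measurableSet_Ioo fun t ht => ?_
    have ht0 : 0 < t := ht.1
    have ht1 : 0 < 1 - t ^ 2 := by nlinarith [ht.1, ht.2]
    simp only [smul_eq_mul]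
    rw [abs_of_pos (by linarith : 0 < 2 * t), ← Real.rpow_natCast, ← Real.rpow_mul ht0.le,
      Real.rpow_natCast, show (1 / 2 - 1 : ℝ) = -(1 / 2) by norm_num, Real.rpow_neg ht1.le,
      ← Real.sqrt_eq_rpow]
    have : t * t ^ (((2 : ℕ) : ℝ) * (α / 2 - 1)) = t ^ (α - 1) := by
      nth_rewrite 1 [← Real.rpow_one t]
      rw [← Real.rpow_add ht0]
      congr 1
      push_cast
      ring
    rw [← this]
    ring
  unfold kap
  rw [← h1, h4]
  ring

theorem gbdry_rpow_cont {a : ℝ} (ha : 0 ≤ a) : Continuous (fun t : ℝ => t ^ a) :=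
  Real.continuous_rpow_const ha

theorem gbdry_int_log (α : ℝ) (hα : 1 < α) (g : ℝ → ℝ) (hg : Continuous g) (a b : ℝ) :
    IntervalIntegrable (fun s => α * s ^ (α - 1) * (g s - Real.log s)) volume a b := by
  have h1 : IntervalIntegrable (fun s => g s - Real.log s) volume a b :=
    (hg.intervalIntegrable a b).sub intervalIntegral.intervalIntegrable_log'
  exact h1.continuousOn_mul ((continuous_const.mul (gbdry_rpow_cont (by linarith))).continuousOn)

/-- The Euler-Lagrange constant as an integral. -/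
theorem gbdry_ell (α : ℝ) (hα : 1 < α) :
    ∫ s in (0 : ℝ)..1, α * s ^ (α - 1) * Real.log (s / 2) = ell α / 2 := by
  have hF : Continuous (fun s : ℝ => s ^ (α - 1) * (s * Real.log s) - s ^ α / α -
      s ^ α * Real.log 2) := by
    have h1 := gbdry_rpow_cont (a := α - 1) (by linarith)
    have h2 := gbdry_rpow_cont (a := α) (by linarith)
    exact ((h1.mul Real.continuous_mul_log).sub (h2.div_const _)).sub (h2.mul_const _)
  have hd : ∀ s ∈ Ioo (0 : ℝ) 1, HasDerivAt (fun s : ℝ => s ^ (α - 1) * (s * Real.log s) -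
      s ^ α / α - s ^ α * Real.log 2) (α * s ^ (α - 1) * (Real.log s - Real.log 2)) s := by
    intro s hs
    have hs0 : s ≠ 0 := hs.1.ne'
    have h1 := Real.hasDerivAt_rpow_const (x := s) (p := α - 1) (Or.inl hs0)
    have h2 := Real.hasDerivAt_rpow_const (x := s) (p := α) (Or.inl hs0)
    have h3 := (hasDerivAt_id s).mul (Real.hasDerivAt_log hs0)
    have h4 := ((h1.mul h3).sub (h2.div_const α)).sub (h2.mul_const (Real.log 2))
    refine h4.congr_deriv ?_
    have hα0 : α ≠ 0 := by linarith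
    have e1 : s ^ (α - 1) = s ^ (α - 1 - 1) * s := by
      rw [← Real.rpow_add_one hs0]; congr 1; ring
    simp only [Pi.mul_apply, id_eq]
    rw [e1]
    field_simp
    ring
  have hi : IntervalIntegrable (fun s => α * s ^ (α - 1) * (Real.log s - Real.log 2)) volume
      0 1 := by
    have := (gbdry_int_log α hα (fun _ => Real.log 2) continuous_const 0 1).neg
    refine this.congr ?_
    intro s _
    simp only [Pi.neg_apply]
    ring
  have h5 := intervalIntegral.integral_eq_sub_of_hasDerivAt_of_le zero_le_one hF.continuousOn hd hi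
  have h6 : ∫ s in (0 : ℝ)..1, α * s ^ (α - 1) * Real.log (s / 2) =
      ∫ s in (0 : ℝ)..1, α * s ^ (α - 1) * (Real.log s - Real.log 2) := by
    refine intervalIntegral.integral_congr_ae (Filter.Eventually.of_forall fun s hs => ?_)
    rw [uIoc_of_le zero_le_one] at hs
    rw [Real.log_div hs.1.ne' (by norm_num)]
  rw [h6, h5]
  unfold ell
  simp [Real.zero_rpow (by linarith : α ≠ 0)]
  ring

/-- The integral of the inverse hyperbolic cosine. -/
theorem gbdry_arcosh (α : ℝ) (hα : 1 < α) :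
    ∫ t in (0 : ℝ)..1, α * t ^ (α - 1) * (Real.log (1 + √(1 - t ^ 2)) - Real.log t) =
      kap α / 2 := by
  rw [← gbdry_beta α (by linarith)]
  have hc : Continuous (fun t : ℝ => Real.log (1 + √(1 - t ^ 2))) := by
    refine Continuous.log (by fun_prop) (fun t => ?_)
    have := Real.sqrt_nonneg (1 - t ^ 2)
    linarith
  have hi1 := gbdry_int_log α hα _ hc 0 1
  have hi2 : IntervalIntegrable (fun t : ℝ => t ^ (α - 1) / √(1 - t ^ 2)) volume 0 1 := by
    have h1 : IntervalIntegrable (fun t : ℝ => (1 - t) ^ (-(1 / 2) : ℝ)) volume 0 1 := by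
      have := (intervalIntegral.intervalIntegrable_rpow' (a := 0) (b := 1)
        (r := -(1 / 2)) (by norm_num)).comp_sub_left 1
      simpa using this.symm
    have h2 : ContinuousOn (fun t : ℝ => t ^ (α - 1) / √(1 + t)) (uIcc 0 1) := by
      rw [uIcc_of_le zero_le_one]
      refine ContinuousOn.div (gbdry_rpow_cont (by linarith)).continuousOn (by fun_prop) ?_
      intro t ht
      exact (Real.sqrt_pos.mpr (by linarith [ht.1])).ne'
    refine (h1.continuousOn_mul h2).congr_ae ?_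
    rw [uIoc_of_le zero_le_one]
    refine (ae_restrict_iff' measurableSet_Ioc).mpr ?_
    have : ∀ᵐ t : ℝ, t ≠ 1 := by
      have := (measure_singleton (1 : ℝ) : volume {(1 : ℝ)} = 0)
      exact compl_mem_ae_iff.mpr this
    filter_upwards [this] with t ht1 ht
    have h3 : 0 < 1 - t := by
      have := lt_of_le_of_ne ht.2 ht1; linarith
    rw [Real.rpow_neg h3.le, ← Real.sqrt_eq_rpow, show 1 - t ^ 2 = (1 + t) * (1 - t) by ring,
      Real.sqrt_mul (by linarith [ht.1])]
    have := (Real.sqrt_pos.mpr h3).ne'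
    have := (Real.sqrt_pos.mpr (by linarith [ht.1] : 0 < 1 + t)).ne'
    field_simp
  have hF : Continuous (fun t : ℝ => t ^ (α - 1) *
      (t * Real.log (1 + √(1 - t ^ 2)) - t * Real.log t)) :=
    (gbdry_rpow_cont (by linarith)).mul ((continuous_id.mul hc).sub Real.continuous_mul_log)
  have hd : ∀ t ∈ Ioo (0 : ℝ) 1, HasDerivAt (fun t : ℝ => t ^ (α - 1) *
      (t * Real.log (1 + √(1 - t ^ 2)) - t * Real.log t))
      (α * t ^ (α - 1) * (Real.log (1 + √(1 - t ^ 2)) - Real.log t) -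
        t ^ (α - 1) / √(1 - t ^ 2)) t := by
    intro t ht
    have ht0 : t ≠ 0 := ht.1.ne'
    have hp : 0 < 1 - t ^ 2 := by nlinarith [ht.1, ht.2]
    have hs := Real.sqrt_pos.mpr hp
    have h1 := Real.hasDerivAt_rpow_const (x := t) (p := α - 1) (Or.inl ht0)
    have h2 : HasDerivAt (fun t : ℝ => 1 - t ^ 2) (-(2 * t)) t := by
      have := (hasDerivAt_pow 2 t).const_sub 1
      simpa using this
    have h3 := (h2.sqrt hp.ne').const_add 1
    have h4 := h3.log (by linarith)
    have h5 := ((hasDerivAt_id t).mul h4).sub ((hasDerivAt_id t).mul (Real.hasDerivAt_log ht0))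
    have h6 := h1.mul h5
    refine h6.congr_deriv ?_
    have e1 : t ^ (α - 1) = t ^ (α - 1 - 1) * t := by
      rw [← Real.rpow_add_one ht0]; congr 1; ring
    simp only [Pi.mul_apply, Pi.sub_apply, id_eq]
    rw [e1]
    have hsq : √(1 - t ^ 2) ^ 2 = 1 - t ^ 2 := Real.sq_sqrt hp.le
    set q := √(1 - t ^ 2)
    have hq : q ≠ 0 := hs.ne'
    have hq1 : 1 + q ≠ 0 := by positivity
    field_simp
    linear_combination (-(t ^ (α - 1 - 1))) * hsq
  have h7 := intervalIntegral.integral_eq_sub_of_hasDerivAt_of_le zero_le_one hF.continuousOn hd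
    (hi1.sub hi2)
  rw [intervalIntegral.integral_sub hi1 hi2] at h7
  simp at h7
  linarith


/-- The real part of the boundary value. -/
theorem gbdry_re (α : ℝ) (hα : 1 < α) (x : ℝ) (hx : |x| ≤ 1) :
    ∫ s in (0 : ℝ)..1, α * s ^ (α - 1) * (gbdryL x s).re = (kap α * |x| ^ α + ell α) / 2 := by
  set r := |x| with hr
  have hr0 : 0 ≤ r := abs_nonneg x
  have hc : Continuous (fun t : ℝ => Real.log (1 + √(1 - t ^ 2))) := by
    refine Continuous.log (by fun_prop) (fun t => ?_)
    have := Real.sqrt_nonneg (1 - t ^ 2)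
    linarith
  have hi0 : ∀ a b, IntervalIntegrable (fun s => α * s ^ (α - 1) * Real.log (s / 2)) volume
      a b := by
    intro a b
    have := (gbdry_int_log α hα (fun _ => Real.log 2) continuous_const a b).neg
    refine this.congr_ae ?_
    have h0 : ∀ᵐ t : ℝ, t ≠ 0 := compl_mem_ae_iff.mpr (measure_singleton (0 : ℝ))
    filter_upwards [ae_restrict_of_ae h0] with s hs
    simp only [Pi.neg_apply]
    rw [Real.log_div hs (by norm_num)]
    ring
  -- the second integrand
  set f : ℝ → ℝ := fun s => α * s ^ (α - 1) * Real.log ((r + √(r ^ 2 - s ^ 2)) / s) with hf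
  have hscale : ∫ s in (0 : ℝ)..r, f s = r ^ α * (kap α / 2) ∧ IntervalIntegrable f volume 0 r := by
    rcases hr0.eq_or_lt with h0 | h0
    · rw [← h0]
      simp [Real.zero_rpow (by linarith : α ≠ 0)]
    · have e : ∀ t ∈ Ioc (0 : ℝ) 1, f (r * t) = r ^ (α - 1) *
          (α * t ^ (α - 1) * (Real.log (1 + √(1 - t ^ 2)) - Real.log t)) := by
        intro t ht
        have h1 : √(r ^ 2 - (r * t) ^ 2) = r * √(1 - t ^ 2) := by
          rw [show r ^ 2 - (r * t) ^ 2 = r ^ 2 * (1 - t ^ 2) by ring, Real.sqrt_mul (by positivity),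
            Real.sqrt_sq hr0]
        have h2 : (r + r * √(1 - t ^ 2)) / (r * t) = (1 + √(1 - t ^ 2)) / t := by
          rw [show r + r * √(1 - t ^ 2) = r * (1 + √(1 - t ^ 2)) by ring]
          exact mul_div_mul_left _ _ h0.ne'
        have h3 := Real.sqrt_nonneg (1 - t ^ 2)
        rw [hf]
        simp only
        rw [h1, h2, Real.mul_rpow hr0 ht.1.le, Real.log_div (by positivity) ht.1.ne']
        ring
      have hI := gbdry_int_log α hα _ hc 0 1
      have hI2 : IntervalIntegrable (fun t => f (r * t)) volume 0 1 := by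
        refine (hI.const_mul (r ^ (α - 1))).congr ?_
        intro t ht
        rw [uIoc_of_le zero_le_one] at ht
        exact (e t ht).symm
      constructor
      · have h1 := intervalIntegral.mul_integral_comp_mul_left (a := 0) (b := 1) (f := f) r
        rw [mul_zero, mul_one] at h1
        rw [← h1]
        have h2 : ∫ t in (0 : ℝ)..1, f (r * t) = r ^ (α - 1) * (kap α / 2) := by
          rw [← gbdry_arcosh α hα, ← intervalIntegral.integral_const_mul]
          refine intervalIntegral.integral_congr_ae (Filter.Eventually.of_forall fun t ht => ?_)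
          rw [uIoc_of_le zero_le_one] at ht
          exact e t ht
        rw [h2, ← mul_assoc]
        congr 1
        nth_rewrite 1 [← Real.rpow_one r]
        rw [← Real.rpow_add h0]
        congr 1; ring
      · have := hI2.comp_mul_left (c := r⁻¹)
        simp only [← mul_assoc, mul_inv_cancel₀ h0.ne', one_mul] at this
        simpa using this
  have h1 : ∫ s in (0 : ℝ)..1, α * s ^ (α - 1) * (gbdryL x s).re =
      (∫ s in (0 : ℝ)..1, α * s ^ (α - 1) * Real.log (s / 2)) + ∫ s in (0 : ℝ)..r, f s := by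
    have e1 : ∀ s ∈ Ioo (0 : ℝ) r, α * s ^ (α - 1) * (gbdryL x s).re =
        α * s ^ (α - 1) * Real.log (s / 2) + f s := by
      intro s hs
      rw [gbdryL_re_lt hs.2, hf]
      simp only
      have h3 := Real.sqrt_nonneg (r ^ 2 - s ^ 2)
      rw [← mul_add, ← Real.log_mul (by have := hs.1; positivity)
        (by have := hs.1; have := hs.1.trans hs.2; positivity)]
      congr 2
      have hs0 : s ≠ 0 := hs.1.ne'
      rw [hr, sq_abs]
      field_simp
    have hr1 : ∀ᵐ t : ℝ, t ≠ r := compl_mem_ae_iff.mpr (measure_singleton r)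
    have e2 : ∫ s in (0 : ℝ)..r, α * s ^ (α - 1) * (gbdryL x s).re =
        ∫ s in (0 : ℝ)..r, (α * s ^ (α - 1) * Real.log (s / 2) + f s) := by
      refine intervalIntegral.integral_congr_ae ?_
      filter_upwards [hr1] with s hs hs'
      rw [uIoc_of_le hr0] at hs'
      exact e1 s ⟨hs'.1, lt_of_le_of_ne hs'.2 hs⟩
    have i2 : IntervalIntegrable (fun s => α * s ^ (α - 1) * (gbdryL x s).re) volume 0 r := by
      refine ((hi0 0 r).add hscale.2).congr_ae ?_
      rw [uIoc_of_le hr0]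
      refine (ae_restrict_iff' measurableSet_Ioc).mpr ?_
      filter_upwards [hr1] with s hs hs'
      exact (e1 s ⟨hs'.1, lt_of_le_of_ne hs'.2 hs⟩).symm
    have e3 : ∀ s ∈ Ioc r 1, α * s ^ (α - 1) * (gbdryL x s).re =
        α * s ^ (α - 1) * Real.log (s / 2) := by
      intro s hs
      rw [gbdryL_re_gt hs.1]
    have e4 : ∫ s in r..1, α * s ^ (α - 1) * (gbdryL x s).re =
        ∫ s in r..1, α * s ^ (α - 1) * Real.log (s / 2) := by
      refine intervalIntegral.integral_congr_ae (Filter.Eventually.of_forall fun s hs => ?_)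
      rw [uIoc_of_le hx] at hs
      exact e3 s hs
    have i3 : IntervalIntegrable (fun s => α * s ^ (α - 1) * (gbdryL x s).re) volume r 1 := by
      refine (hi0 r 1).congr ?_
      intro s hs
      rw [uIoc_of_le hx] at hs
      exact (e3 s hs).symm
    rw [← intervalIntegral.integral_add_adjacent_intervals i2 i3, e2, e4,
      intervalIntegral.integral_add (hi0 0 r) hscale.2,
      ← intervalIntegral.integral_add_adjacent_intervals (hi0 0 r) (hi0 r 1)]
    ring
  rw [h1, hscale.1, gbdry_ell α hα]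
  ring

/-- Boundary values of the g-function. -/
theorem gfun_bdry (α : ℝ) (hα : 1 < α) (x : ℝ) :
    ∃ b : ℂ, Tendsto (fun ε : ℝ => gfun α (x + ε * Complex.I)) (𝓝[>] 0) (𝓝 b) ∧
      (|x| ≤ 1 → b.re = (kap α * |x| ^ α + ell α) / 2) ∧ (1 ≤ x → b.im = 0) ∧
      (x ≤ -1 → b.im = Real.pi) := by
  set C := Real.log 2 + Real.log (|x| + 2) + Real.pi with hC
  set bd : ℝ → ℝ := fun s => α * (|Real.log s| + C) with hbd
  have hbdi : IntervalIntegrable bd volume 0 1 :=
    ((intervalIntegral.intervalIntegrable_log'.abs).add intervalIntegrable_const).const_mul α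
  have hz0 : ∀ᶠ ε : ℝ in 𝓝[>] 0, 0 < ε ∧ ‖(x : ℂ) + ε * Complex.I‖ ≤ |x| + 1 := by
    have h1 : ∀ᶠ ε : ℝ in 𝓝[>] 0, ε < 1 := by
      exact nhdsWithin_le_nhds (gt_mem_nhds one_pos)
    filter_upwards [self_mem_nhdsWithin, h1] with ε hε hε1
    have hε0 : (0 : ℝ) < ε := hε
    refine ⟨hε, ?_⟩
    calc ‖(x : ℂ) + ε * Complex.I‖ ≤ ‖(x : ℂ)‖ + ‖(ε : ℂ) * Complex.I‖ := norm_add_le _ _
      _ = |x| + ε := by
          rw [norm_mul, Complex.norm_I, mul_one, Complex.norm_real, Complex.norm_real,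
            Real.norm_eq_abs, Real.norm_eq_abs, abs_of_pos hε0]
      _ ≤ _ := by linarith
  have hnorm : ∀ z : ℂ, 0 < z.im → ‖z‖ ≤ |x| + 1 → ∀ s ∈ Ioc (0 : ℝ) 1,
      ‖((α * s ^ (α - 1) : ℝ) : ℂ) * Complex.log (gbdryQ z s / 2)‖ ≤ bd s := by
    intro z hz hzn s hs
    rw [norm_mul, Complex.norm_real, Real.norm_eq_abs, abs_of_nonneg (by
      have := Real.rpow_nonneg hs.1.le (α - 1)
      positivity)]
    have h1 : s ^ (α - 1) ≤ 1 := Real.rpow_le_one hs.1.le hs.2 (by linarith)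
    have h2 := gbdry_log_bound hz hs.1 hs.2 hzn
    have h3 : 0 ≤ s ^ (α - 1) := Real.rpow_nonneg hs.1.le _
    calc α * s ^ (α - 1) * ‖Complex.log (gbdryQ z s / 2)‖
        ≤ α * 1 * (|Real.log s| + C) := by gcongr
      _ = bd s := by rw [hbd]; ring
  have hmeas : ∀ z : ℂ, Measurable (fun s : ℝ => ((α * s ^ (α - 1) : ℝ) : ℂ) *
      Complex.log (gbdryQ z s / 2)) := by
    intro z
    unfold gbdryQ
    refine Measurable.mul (by fun_prop) (Complex.measurable_log.comp ?_)
    refine Measurable.div_const (Measurable.const_add (Measurable.const_mul ?_ _) _) _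
    exact Measurable.pow_const (by fun_prop) _
  have hlim : ∀ᵐ s : ℝ, s ∈ uIoc (0 : ℝ) 1 → Tendsto (fun ε : ℝ => ((α * s ^ (α - 1) : ℝ) : ℂ) *
      Complex.log (gbdryQ (x + ε * Complex.I) s / 2)) (𝓝[>] 0)
      (𝓝 (((α * s ^ (α - 1) : ℝ) : ℂ) * gbdryL x s)) := by
    have h1 : ∀ᵐ t : ℝ, t ≠ |x| := compl_mem_ae_iff.mpr (measure_singleton |x|)
    filter_upwards [h1] with s hs hs'
    rw [uIoc_of_le zero_le_one] at hs'
    exact (gbdry_pointwise hs'.1.le hs).const_mul _
  have hT := intervalIntegral.tendsto_integral_filter_of_dominated_convergence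
    (μ := volume) (a := 0) (b := 1) (l := 𝓝[>] (0 : ℝ))
    (F := fun ε s => ((α * s ^ (α - 1) : ℝ) : ℂ) *
      Complex.log (gbdryQ (x + ε * Complex.I) s / 2))
    (f := fun s => ((α * s ^ (α - 1) : ℝ) : ℂ) * gbdryL x s) bd
    (Filter.Eventually.of_forall fun ε => (hmeas _).aestronglyMeasurable)
    (by
      filter_upwards [hz0] with ε hε
      refine Filter.Eventually.of_forall fun s hs => ?_
      rw [uIoc_of_le zero_le_one] at hs
      exact hnorm _ (by simpa using hε.1) hε.2 s hs)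
    hbdi hlim
  have hint : IntervalIntegrable (fun s => ((α * s ^ (α - 1) : ℝ) : ℂ) * gbdryL x s) volume
      0 1 := by
    have hm : Measurable (fun s => ((α * s ^ (α - 1) : ℝ) : ℂ) * gbdryL x s) := by
      refine Measurable.mul (by fun_prop) ?_
      unfold gbdryL
      refine Measurable.ite (measurableSet_lt measurable_const measurable_id) ?_ ?_
      · exact Complex.measurable_log.comp (by fun_prop)
      · split_ifs
        · exact Complex.measurable_log.comp (by fun_prop)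
        · exact Complex.measurable_log.comp (by fun_prop)
    rw [intervalIntegrable_iff, uIoc_of_le zero_le_one]
    have hb := hbdi
    rw [intervalIntegrable_iff, uIoc_of_le zero_le_one] at hb
    refine Integrable.mono' hb hm.aestronglyMeasurable ?_
    refine (ae_restrict_iff' measurableSet_Ioc).mpr ?_
    filter_upwards [hlim] with s hs hs'
    have h1 := hs (by rw [uIoc_of_le zero_le_one]; exact hs')
    refine le_of_tendsto h1.norm ?_
    filter_upwards [hz0] with ε hε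
    exact hnorm _ (by simpa using hε.1) hε.2 s hs'
  refine ⟨∫ s in (0 : ℝ)..1, ((α * s ^ (α - 1) : ℝ) : ℂ) * gbdryL x s, hT, ?_, ?_, ?_⟩
  · intro hx
    rw [← gbdry_re α hα x hx]
    have := (Complex.reCLM.intervalIntegral_comp_comm hint).symm
    simp only [Complex.reCLM_apply, Complex.re_ofReal_mul] at this
    exact this
  · intro hx
    have := (Complex.imCLM.intervalIntegral_comp_comm hint).symm
    simp only [Complex.imCLM_apply, Complex.im_ofReal_mul] at this
    rw [this]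
    have h0 : ∀ᵐ t : ℝ, t ≠ 1 := compl_mem_ae_iff.mpr (measure_singleton 1)
    rw [intervalIntegral.integral_congr_ae (g := fun _ => (0 : ℝ))]
    · simp
    · filter_upwards [h0] with s hs hs'
      rw [uIoc_of_le zero_le_one] at hs'
      rw [gbdryL_im_right hx (lt_of_le_of_ne hs'.2 hs), mul_zero]
  · intro hx
    have := (Complex.imCLM.intervalIntegral_comp_comm hint).symm
    simp only [Complex.imCLM_apply, Complex.im_ofReal_mul] at this
    rw [this]
    have h0 : ∀ᵐ t : ℝ, t ≠ 1 := compl_mem_ae_iff.mpr (measure_singleton 1)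
    rw [intervalIntegral.integral_congr_ae (g := fun s => α * s ^ (α - 1) * Real.pi)]
    · rw [intervalIntegral.integral_mul_const, intervalIntegral.integral_const_mul,
        integral_rpow (Or.inl (by linarith))]
      have : α ≠ 0 := by linarith
      simp [this]
    · filter_upwards [h0] with s hs hs'
      rw [uIoc_of_le zero_le_one] at hs'
      rw [gbdryL_im_left hx (lt_of_le_of_ne hs'.2 hs)]

end Pool.Agent.Freud
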