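import Pool.Agent.Freud.Defs2

/-!
Facts on the outer parametrix `Nmat` (part R of BLUEPRINT.md).
-/

set_option autoImplicit false

open MeasureTheory Filter Topology Asymptotics

namespace Pool.Agent.Freud

theorem tendsto_mat {ι : Type*} {F : ι → Mat2} {l : Filter ι} {A : Mat2} :
    Tendsto F l (𝓝 A) ↔ ∀ i j, Tendsto (fun x => F x i j) l (𝓝 (A i j)) := by
  constructor
  · intro h i j
    have h2 : Continuous (fun M : Mat2 => M i j) := continuous_id.matrix_elem i j
    exact (h2.tendsto A).comp h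
  · intro h
    exact tendsto_pi_nhds.mpr fun i => tendsto_pi_nhds.mpr fun j => h i j

theorem isOpen_UH : IsOpen UH := isOpen_lt continuous_const Complex.continuous_im

theorem mob_im {z : ℂ} (hz : z ∈ UH) : 0 < ((z - 1) / (z + 1)).im := by
  have h : 0 < z.im := hz
  have hz1 : z + 1 ≠ 0 := by
    intro h0
    have := congrArg Complex.im h0
    simp at this
    linarith
  have : ((z - 1) / (z + 1)).im = 2 * z.im / Complex.normSq (z + 1) := by
    rw [Complex.div_im]
    simp only [Complex.sub_im, Complex.one_im, Complex.sub_re, Complex.one_re, Complex.add_im,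
      Complex.add_re]
    field_simp
    ring
  rw [this]
  have : 0 < Complex.normSq (z + 1) := Complex.normSq_pos.mpr hz1
  positivity

theorem mob_slit {z : ℂ} (hz : z ∈ UH) : (z - 1) / (z + 1) ∈ Complex.slitPlane := by
  rw [Complex.mem_slitPlane_iff]
  right
  exact (mob_im hz).ne'

theorem UH_add_one_ne {z : ℂ} (hz : z ∈ UH) : z + 1 ≠ 0 := by
  have h : 0 < z.im := hz
  intro h0
  have := congrArg Complex.im h0
  simp at this
  linarith

theorem UH_sub_one_ne {z : ℂ} (hz : z ∈ UH) : z - 1 ≠ 0 := by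
  have h : 0 < z.im := hz
  intro h0
  have := congrArg Complex.im h0
  simp at this
  linarith

theorem bfun_diff {z : ℂ} (hz : z ∈ UH) : DifferentiableAt ℂ bfun z := by
  unfold bfun
  apply DifferentiableAt.div_const
  apply DifferentiableAt.clog
  · exact (differentiableAt_id.sub_const 1).div (differentiableAt_id.add_const 1) (UH_add_one_ne hz)
  · exact mob_slit hz

theorem Nmat_mul_Ninv (z : ℂ) : Nmat z * Ninv z = 1 := by
  unfold Nmat Ninv
  rw [Matrix.mul_fin_two, Matrix.one_fin_two]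
  have h := Complex.cosh_sq_sub_sinh_sq (bfun z)
  ext i j
  fin_cases i <;> fin_cases j <;> simp
  · linear_combination h
  · ring
  · ring
  · linear_combination h

theorem Ninv_mul_Nmat (z : ℂ) : Ninv z * Nmat z = 1 := by
  exact mul_eq_one_comm.mp (Nmat_mul_Ninv z)

theorem Nmat_det (z : ℂ) : (Nmat z).det = 1 := by
  unfold Nmat
  rw [Matrix.det_fin_two_of]
  have h := Complex.cosh_sq_sub_sinh_sq (bfun z)
  linear_combination h

theorem Ninv_det (z : ℂ) : (Ninv z).det = 1 := by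
  unfold Ninv
  rw [Matrix.det_fin_two_of]
  have h := Complex.cosh_sq_sub_sinh_sq (bfun z)
  linear_combination h

theorem Nmat_diff {z : ℂ} (hz : z ∈ UH) (i j : Fin 2) :
    DifferentiableAt ℂ (fun w => Nmat w i j) z := by
  have h := bfun_diff hz
  fin_cases i <;> fin_cases j <;> simp [Nmat]
  · exact h.ccosh
  · exact h.csinh
  · exact h.csinh
  · exact h.ccosh

theorem Ninv_diff {z : ℂ} (hz : z ∈ UH) (i j : Fin 2) :
    DifferentiableAt ℂ (fun w => Ninv w i j) z := by
  have h := bfun_diff hz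
  fin_cases i <;> fin_cases j <;> simp [Ninv]
  · exact h.ccosh
  · exact h.csinh
  · exact h.csinh
  · exact h.ccosh

theorem bfun_re_abs {d : ℝ} (hd : 0 < d) {z : ℂ} (h1 : d ≤ ‖z - 1‖) (h2 : d ≤ ‖z + 1‖) :
    |(bfun z).re| ≤ Real.log (1 + 2 / d) := by
  have hb : (bfun z).re = Real.log (‖z - 1‖ / ‖z + 1‖) / 4 := by
    unfold bfun
    have : (Complex.log ((z - 1) / (z + 1)) / 4).re = (Complex.log ((z - 1) / (z + 1))).re / 4 := by
      have : (4 : ℂ) = ((4 : ℝ) : ℂ) := by norm_num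
      rw [this, Complex.div_ofReal_re]
    rw [this, Complex.log_re, norm_div]
  have p1 : 0 < ‖z - 1‖ := lt_of_lt_of_le hd h1
  have p2 : 0 < ‖z + 1‖ := lt_of_lt_of_le hd h2
  have t1 : ‖z - 1‖ ≤ ‖z + 1‖ + 2 := by
    have : z - 1 = (z + 1) - 2 := by ring
    rw [this]
    refine (norm_sub_le _ _).trans ?_
    simp
  have t2 : ‖z + 1‖ ≤ ‖z - 1‖ + 2 := by
    have : z + 1 = (z - 1) + 2 := by ring
    rw [this]
    refine (norm_add_le _ _).trans ?_
    simp
  have u1 : ‖z - 1‖ / ‖z + 1‖ ≤ 1 + 2 / d := by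
    rw [div_le_iff₀ p2]
    have : 2 / d * d ≤ 2 / d * ‖z + 1‖ := by gcongr
    rw [div_mul_cancel₀ _ hd.ne'] at this
    linarith
  have u2 : ‖z + 1‖ / ‖z - 1‖ ≤ 1 + 2 / d := by
    rw [div_le_iff₀ p1]
    have : 2 / d * d ≤ 2 / d * ‖z - 1‖ := by gcongr
    rw [div_mul_cancel₀ _ hd.ne'] at this
    linarith
  have hl : 0 ≤ Real.log (1 + 2 / d) := Real.log_nonneg (by
    have : 0 < 2 / d := by positivity
    linarith)
  have v1 : Real.log (‖z - 1‖ / ‖z + 1‖) ≤ Real.log (1 + 2 / d) :=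
    Real.log_le_log (by positivity) u1
  have v2 : -Real.log (‖z - 1‖ / ‖z + 1‖) ≤ Real.log (1 + 2 / d) := by
    rw [← Real.log_inv, inv_div]
    exact Real.log_le_log (by positivity) u2
  rw [hb, abs_le]
  constructor <;> linarith

theorem norm_cosh_le (b : ℂ) : ‖Complex.cosh b‖ ≤ Real.exp |b.re| := by
  rw [Complex.cosh, norm_div]
  have h2 : ‖(2 : ℂ)‖ = 2 := by simp
  rw [h2, div_le_iff₀ (by norm_num)]
  refine (norm_add_le _ _).trans ?_
  rw [Complex.norm_exp, Complex.norm_exp]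
  have a1 : Real.exp b.re ≤ Real.exp |b.re| := Real.exp_le_exp.mpr (le_abs_self _)
  have a2 : Real.exp (-b).re ≤ Real.exp |b.re| := Real.exp_le_exp.mpr (by
    rw [Complex.neg_re]; exact neg_le_abs _)
  linarith

theorem norm_sinh_le (b : ℂ) : ‖Complex.sinh b‖ ≤ Real.exp |b.re| := by
  rw [Complex.sinh, norm_div]
  have h2 : ‖(2 : ℂ)‖ = 2 := by simp
  rw [h2, div_le_iff₀ (by norm_num)]
  refine (norm_sub_le _ _).trans ?_
  rw [Complex.norm_exp, Complex.norm_exp]
  have a1 : Real.exp b.re ≤ Real.exp |b.re| := Real.exp_le_exp.mpr (le_abs_self _)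
  have a2 : Real.exp (-b).re ≤ Real.exp |b.re| := Real.exp_le_exp.mpr (by
    rw [Complex.neg_re]; exact neg_le_abs _)
  linarith

theorem Nmat_bound {d : ℝ} (hd : 0 < d) {z : ℂ} (h1 : d ≤ ‖z - 1‖) (h2 : d ≤ ‖z + 1‖) :
    nm (Nmat z) ≤ 4 * (1 + 2 / d) := by
  have hb := bfun_re_abs hd h1 h2
  have hpos : 0 < 1 + 2 / d := by positivity
  have he : Real.exp |(bfun z).re| ≤ 1 + 2 / d := by
    calc Real.exp |(bfun z).re| ≤ Real.exp (Real.log (1 + 2 / d)) := Real.exp_le_exp.mpr hb
      _ = _ := Real.exp_log hpos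
  have c := (norm_cosh_le (bfun z)).trans he
  have s := (norm_sinh_le (bfun z)).trans he
  simp only [nm, Nmat, Matrix.of_apply, Matrix.cons_val', Matrix.cons_val_zero,
    Matrix.cons_val_one, Matrix.cons_val_fin_one, norm_neg]
  linarith

theorem Ninv_bound {d : ℝ} (hd : 0 < d) {z : ℂ} (h1 : d ≤ ‖z - 1‖) (h2 : d ≤ ‖z + 1‖) :
    nm (Ninv z) ≤ 4 * (1 + 2 / d) := by
  have := Nmat_bound hd h1 h2
  simp only [nm, Nmat, Ninv, Matrix.of_apply, Matrix.cons_val', Matrix.cons_val_zero,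
    Matrix.cons_val_one, Matrix.cons_val_fin_one, norm_neg] at this ⊢
  exact this

/-- The filter of points of the upper half plane tending to infinity. -/
theorem tendsto_norm_inf : Tendsto (fun z : ℂ => ‖z‖) (cocompact ℂ ⊓ 𝓟 UH) atTop :=
  (tendsto_norm_cocompact_atTop).mono_left inf_le_left

theorem tendsto_inv_inf : Tendsto (fun z : ℂ => z⁻¹) (cocompact ℂ ⊓ 𝓟 UH) (𝓝 0) := by
  have h : Tendsto (fun z : ℂ => z⁻¹) (Bornology.cobounded ℂ) (𝓝 0) :=
    Filter.tendsto_inv₀_cobounded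
  rw [Metric.cobounded_eq_cocompact] at h
  exact h.mono_left inf_le_left

theorem tendsto_mob_inf :
    Tendsto (fun z : ℂ => (z - 1) / (z + 1)) (cocompact ℂ ⊓ 𝓟 UH) (𝓝 1) := by
  have h : Tendsto (fun z : ℂ => (1 - z⁻¹) / (1 + z⁻¹)) (cocompact ℂ ⊓ 𝓟 UH)
      (𝓝 ((1 - 0) / (1 + 0))) :=
    (tendsto_const_nhds.sub tendsto_inv_inf).div (tendsto_const_nhds.add tendsto_inv_inf) (by simp)
  rw [sub_zero, add_zero, div_one] at h
  refine h.congr' ?_
  have : ∀ᶠ z in cocompact ℂ ⊓ 𝓟 UH, z ∈ UH := by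
    rw [eventually_inf_principal]
    exact Eventually.of_forall fun z hz => hz
  filter_upwards [this] with z hz
  have hz0 : z ≠ 0 := by
    rintro rfl
    simp [UH] at hz
  have := UH_add_one_ne hz
  have h3 : 1 + z⁻¹ ≠ 0 := by
    intro h0
    apply this
    field_simp at h0
    simpa using h0
  field_simp

theorem eventually_UH : ∀ᶠ z in cocompact ℂ ⊓ 𝓟 UH, z ∈ UH := by
  rw [eventually_inf_principal]
  exact Eventually.of_forall fun z hz => hz

theorem tendsto_bfun_inf : Tendsto bfun (cocompact ℂ ⊓ 𝓟 UH) (𝓝 0) := by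
  have h : Tendsto (fun z : ℂ => Complex.log ((z - 1) / (z + 1)) / 4) (cocompact ℂ ⊓ 𝓟 UH)
      (𝓝 (Complex.log 1 / 4)) :=
    (((Complex.hasDerivAt_log Complex.one_mem_slitPlane).continuousAt.tendsto).comp
      tendsto_mob_inf).div_const 4
  rw [Complex.log_one, zero_div] at h
  exact h

theorem tendsto_mul_bfun_inf :
    Tendsto (fun z => z * bfun z) (cocompact ℂ ⊓ 𝓟 UH) (𝓝 (-(1 / 2))) := by
  -- the slope of log at 1
  have hlog : Tendsto (fun w : ℂ => if w = 1 then 1 else Complex.log w / (w - 1)) (𝓝 1) (𝓝 1) := by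
    have h := Complex.hasDerivAt_log Complex.one_mem_slitPlane
    have h2 := hasDerivAt_iff_tendsto_slope.mp h
    have h3 : Tendsto (fun w : ℂ => if w = 1 then 1 else Complex.log w / (w - 1)) (𝓝[≠] 1)
        (𝓝 1) := by
      have : (1 : ℂ)⁻¹ = 1 := inv_one
      rw [this] at h2
      refine h2.congr' ?_
      filter_upwards [self_mem_nhdsWithin] with w hw
      have hw' : w ≠ 1 := hw
      rw [if_neg hw', slope_def_field, Complex.log_one, sub_zero]
    have h4 : Tendsto (fun w : ℂ => if w = 1 then 1 else Complex.log w / (w - 1)) (pure 1)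
        (𝓝 1) := by
      rw [tendsto_pure_left]
      intro s hs
      simp
      exact mem_of_mem_nhds hs
    have h5 := h3.sup h4
    rwa [nhdsNE_sup_pure] at h5
  have h1 := hlog.comp tendsto_mob_inf
  have h2 : Tendsto (fun z : ℂ => -(1 / 2) * (1 / (1 + z⁻¹))) (cocompact ℂ ⊓ 𝓟 UH)
      (𝓝 (-(1 / 2) * (1 / (1 + 0)))) :=
    tendsto_const_nhds.mul (tendsto_const_nhds.div (tendsto_const_nhds.add tendsto_inv_inf)
      (by simp))
  have h3 := h2.mul h1
  have e : (-(1 / 2) * (1 / (1 + 0)) * 1 : ℂ) = -(1 / 2) := by norm_num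
  rw [e] at h3
  refine h3.congr' ?_
  filter_upwards [eventually_UH] with z hz
  have hz0 : z ≠ 0 := by
    rintro rfl
    simp [UH] at hz
  have hz1 := UH_add_one_ne hz
  have h3 : 1 + z⁻¹ ≠ 0 := by
    intro h0
    apply hz1
    field_simp at h0
    simpa using h0
  have hne : (z - 1) / (z + 1) ≠ 1 := by
    rw [Ne, div_eq_one_iff_eq hz1]
    intro h0
    have : (2 : ℂ) = 0 := by linear_combination -h0
    norm_num at this
  simp only [Function.comp, if_neg hne, bfun]
  have e2 : (z - 1) / (z + 1) - 1 = -2 / (z + 1) := by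
    field_simp
    ring
  rw [e2]
  field_simp
  ring

theorem tendsto_Nmat_inf : Tendsto Nmat (cocompact ℂ ⊓ 𝓟 UH) (𝓝 1) := by
  have hb := tendsto_bfun_inf
  have hc : Tendsto (fun z => Complex.cosh (bfun z)) (cocompact ℂ ⊓ 𝓟 UH) (𝓝 1) := by
    have := (Complex.continuous_cosh.tendsto 0).comp hb
    rw [Complex.cosh_zero] at this
    exact this
  have hs : Tendsto (fun z => Complex.sinh (bfun z)) (cocompact ℂ ⊓ 𝓟 UH) (𝓝 0) := by
    have := (Complex.continuous_sinh.tendsto 0).comp hb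
    rw [Complex.sinh_zero] at this
    exact this
  rw [tendsto_mat]
  intro i j
  fin_cases i <;> fin_cases j <;> simp [Nmat]
  · exact hc
  · simpa using hs.neg
  · simpa using hs.neg
  · exact hc

theorem tendsto_Ninv_inf : Tendsto Ninv (cocompact ℂ ⊓ 𝓟 UH) (𝓝 1) := by
  have hb := tendsto_bfun_inf
  have hc : Tendsto (fun z => Complex.cosh (bfun z)) (cocompact ℂ ⊓ 𝓟 UH) (𝓝 1) := by
    have := (Complex.continuous_cosh.tendsto 0).comp hb
    rw [Complex.cosh_zero] at this
    exact this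
  have hs : Tendsto (fun z => Complex.sinh (bfun z)) (cocompact ℂ ⊓ 𝓟 UH) (𝓝 0) := by
    have := (Complex.continuous_sinh.tendsto 0).comp hb
    rw [Complex.sinh_zero] at this
    exact this
  rw [tendsto_mat]
  intro i j
  fin_cases i <;> fin_cases j <;> simp [Ninv]
  · exact hc
  · exact hs
  · exact hs
  · exact hc

theorem tendsto_mul_sinh_inf :
    Tendsto (fun z => z * Complex.sinh (bfun z)) (cocompact ℂ ⊓ 𝓟 UH) (𝓝 (-(1 / 2))) := by
  have hs : Tendsto (fun w : ℂ => if w = 0 then 1 else Complex.sinh w / w) (𝓝 0) (𝓝 1) := by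
    have h : HasDerivAt Complex.sinh (Complex.cosh 0) 0 := Complex.hasDerivAt_sinh 0
    have h2 := hasDerivAt_iff_tendsto_slope.mp h
    have h3 : Tendsto (fun w : ℂ => if w = 0 then 1 else Complex.sinh w / w) (𝓝[≠] 0)
        (𝓝 1) := by
      rw [Complex.cosh_zero] at h2
      refine h2.congr' ?_
      filter_upwards [self_mem_nhdsWithin] with w hw
      have hw' : w ≠ 0 := hw
      rw [if_neg hw', slope_def_field, Complex.sinh_zero, sub_zero, sub_zero]
    have h4 : Tendsto (fun w : ℂ => if w = 0 then 1 else Complex.sinh w / w) (pure 0)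
        (𝓝 1) := by
      rw [tendsto_pure_left]
      intro s hs
      simp
      exact mem_of_mem_nhds hs
    have h5 := h3.sup h4
    rwa [nhdsNE_sup_pure] at h5
  have h1 := hs.comp tendsto_bfun_inf
  have h3 := tendsto_mul_bfun_inf.mul h1
  rw [mul_one] at h3
  refine h3.congr' ?_
  filter_upwards [eventually_UH] with z hz
  simp only [Function.comp]
  split_ifs with h
  · rw [h]; simp
  · field_simp

theorem tendsto_mul_Nmat01_inf :
    Tendsto (fun z => z * Nmat z 0 1) (cocompact ℂ ⊓ 𝓟 UH) (𝓝 (1 / 2)) := by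
  have h := tendsto_mul_sinh_inf.neg
  rw [neg_neg] at h
  refine h.congr fun z => ?_
  simp [Nmat]

theorem tendsto_mul_Nmat10_inf :
    Tendsto (fun z => z * Nmat z 1 0) (cocompact ℂ ⊓ 𝓟 UH) (𝓝 (1 / 2)) := by
  have h := tendsto_mul_sinh_inf.neg
  rw [neg_neg] at h
  refine h.congr fun z => ?_
  simp [Nmat]

end Pool.Agent.Freud
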