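import Pool.Agent.Freud.OuterN

/-!
Reflection symmetry and boundary values of the outer parametrix.
-/

set_option autoImplicit false

open MeasureTheory Filter Topology Asymptotics

namespace Pool.Agent.Freud

/-- minus conjugate. -/
noncomputable def mc (z : ℂ) : ℂ := -(starRingEnd ℂ z)

theorem mc_mc (z : ℂ) : mc (mc z) = z := by simp [mc]

theorem mc_re (z : ℂ) : (mc z).re = -z.re := by simp [mc]

theorem mc_im (z : ℂ) : (mc z).im = z.im := by simp [mc]

theorem mc_mem {z : ℂ} (hz : z ∈ UH) : mc z ∈ UH := by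
  show 0 < (mc z).im
  rw [mc_im]
  exact hz

theorem mc_continuous : Continuous mc := (Complex.continuous_conj).neg

theorem norm_mc (z : ℂ) : ‖mc z‖ = ‖z‖ := by simp [mc]

theorem norm_mc_sub_one (z : ℂ) : ‖mc z - 1‖ = ‖z + 1‖ := by
  have : mc z - 1 = -(starRingEnd ℂ (z + 1)) := by simp [mc]; ring
  rw [this, norm_neg, Complex.norm_conj]

theorem norm_mc_add_one (z : ℂ) : ‖mc z + 1‖ = ‖z - 1‖ := by
  have : mc z + 1 = -(starRingEnd ℂ (z - 1)) := by simp [mc]; ring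
  rw [this, norm_neg, Complex.norm_conj]

theorem refl_apply (X : ℂ → Mat2) (z : ℂ) :
    refl X z = !![starRingEnd ℂ (X (mc z) 0 0), -(starRingEnd ℂ (X (mc z) 0 1));
      -(starRingEnd ℂ (X (mc z) 1 0)), starRingEnd ℂ (X (mc z) 1 1)] := by
  unfold refl sig3 cj mc
  ext i j
  fin_cases i <;> fin_cases j <;>
    simp [Matrix.mul_apply, Fin.sum_univ_two, Matrix.vecMul, dotProduct]

theorem sig3_mul_sig3 : sig3 * sig3 = 1 := by
  unfold sig3
  ext i j
  fin_cases i <;> fin_cases j <;> simp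

theorem cj_mul (A B : Mat2) : cj (A * B) = cj A * cj B := by
  unfold cj
  exact Matrix.map_mul

theorem cj_add (A B : Mat2) : cj (A + B) = cj A + cj B := by
  ext i j
  simp [cj]

theorem cj_sub (A B : Mat2) : cj (A - B) = cj A - cj B := by
  ext i j
  simp [cj]

theorem cj_one : cj 1 = 1 := by
  unfold cj
  exact Matrix.map_one _ (map_zero _) (map_one _)

theorem cj_cj (A : Mat2) : cj (cj A) = A := by
  ext i j
  simp [cj]

theorem cj_smul (c : ℂ) (A : Mat2) : cj (c • A) = (starRingEnd ℂ c) • cj A := by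
  ext i j
  simp [cj]

theorem refl_mul (X Y : ℂ → Mat2) (z : ℂ) :
    refl (fun w => X w * Y w) z = refl X z * refl Y z := by
  unfold refl
  rw [cj_mul]
  calc sig3 * (cj (X (-(starRingEnd ℂ) z)) * cj (Y (-(starRingEnd ℂ) z))) * sig3
      = sig3 * cj (X (-(starRingEnd ℂ) z)) * 1 * cj (Y (-(starRingEnd ℂ) z)) * sig3 := by
        simp only [mul_one, mul_assoc]
    _ = _ := by rw [← sig3_mul_sig3]; simp only [mul_assoc]

theorem refl_add (X Y : ℂ → Mat2) (z : ℂ) :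
    refl (fun w => X w + Y w) z = refl X z + refl Y z := by
  unfold refl
  rw [cj_add, mul_add, add_mul]

theorem refl_sub (X Y : ℂ → Mat2) (z : ℂ) :
    refl (fun w => X w - Y w) z = refl X z - refl Y z := by
  unfold refl
  rw [cj_sub, mul_sub, sub_mul]

theorem refl_one (z : ℂ) : refl (fun _ => 1) z = 1 := by
  unfold refl
  rw [cj_one, mul_one, sig3_mul_sig3]

theorem refl_smul (r : ℂ → ℂ) (X : ℂ → Mat2) (z : ℂ) :
    refl (fun w => r w • X w) z = (starRingEnd ℂ (r (mc z))) • refl X z := by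
  unfold refl mc
  rw [cj_smul, mul_smul_comm, smul_mul_assoc]

theorem refl_refl (X : ℂ → Mat2) (z : ℂ) : refl (refl X) z = X z := by
  rw [refl_apply, refl_apply, mc_mc]
  ext i j
  fin_cases i <;> fin_cases j <;> simp

theorem refl_det (X : ℂ → Mat2) (z : ℂ) : (refl X z).det = starRingEnd ℂ ((X (mc z)).det) := by
  rw [refl_apply, Matrix.det_fin_two_of, Matrix.det_fin_two]
  simp

theorem nm_refl (X : ℂ → Mat2) (z : ℂ) : nm (refl X z) = nm (X (mc z)) := by
  rw [refl_apply]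
  simp [nm]

theorem bfun_mc {z : ℂ} (hz : z ∈ UH) : bfun (mc z) = -(starRingEnd ℂ (bfun z)) := by
  have h1 : (mc z - 1) / (mc z + 1) = starRingEnd ℂ (((z - 1) / (z + 1))⁻¹) := by
    simp only [mc, inv_div, map_div₀, map_add, map_sub, map_one]
    have e1 : -(starRingEnd ℂ) z - 1 = -((starRingEnd ℂ) z + 1) := by ring
    have e2 : -(starRingEnd ℂ) z + 1 = -((starRingEnd ℂ) z - 1) := by ring
    rw [e1, e2, neg_div_neg_eq]
  have h2 := mob_slit hz
  have h3 : ((z - 1) / (z + 1)).arg ≠ Real.pi := Complex.slitPlane_arg_ne_pi h2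
  have h4 : (((z - 1) / (z + 1))⁻¹).arg ≠ Real.pi := by
    rw [Complex.arg_inv, if_neg h3]
    have := mob_im hz
    have h5 : 0 ≤ ((z - 1) / (z + 1)).arg := Complex.arg_nonneg_iff.mpr this.le
    have := Real.pi_pos
    linarith
  unfold bfun
  rw [h1, Complex.log_conj _ h4, Complex.log_inv _ h3]
  have h5 : (starRingEnd ℂ) (4 : ℂ) = 4 := Complex.conj_ofNat 4
  rw [map_neg, map_div₀, h5]
  ring

theorem refl_Nmat {z : ℂ} (hz : z ∈ UH) : refl Nmat z = Nmat z := by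
  rw [refl_apply]
  unfold Nmat
  rw [bfun_mc hz]
  ext i j
  fin_cases i <;> fin_cases j <;>
    simp [Complex.cosh_neg, Complex.sinh_neg, ← Complex.cosh_conj, ← Complex.sinh_conj]

theorem refl_Ninv {z : ℂ} (hz : z ∈ UH) : refl Ninv z = Ninv z := by
  rw [refl_apply]
  unfold Ninv
  rw [bfun_mc hz]
  ext i j
  fin_cases i <;> fin_cases j <;>
    simp [Complex.cosh_neg, Complex.sinh_neg, ← Complex.cosh_conj, ← Complex.sinh_conj]

/-- approach to a boundary point. -/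
theorem tendsto_vert (x : ℝ) :
    Tendsto (fun ε : ℝ => (x : ℂ) + ε * Complex.I) (𝓝[>] 0) (𝓝 (x : ℂ)) := by
  have : Tendsto (fun ε : ℝ => (x : ℂ) + ε * Complex.I) (𝓝 0) (𝓝 ((x : ℂ) + (0 : ℝ) * Complex.I)) :=
    Continuous.tendsto (by fun_prop) 0
  rw [Complex.ofReal_zero, zero_mul, add_zero] at this
  exact this.mono_left nhdsWithin_le_nhds

theorem vert_mem (x : ℝ) {ε : ℝ} (hε : 0 < ε) : (x : ℂ) + ε * Complex.I ∈ UH := by
  show 0 < ((x : ℂ) + ε * Complex.I).im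
  simp [hε]

theorem eventually_vert_mem (x : ℝ) : ∀ᶠ ε : ℝ in 𝓝[>] 0, (x : ℂ) + ε * Complex.I ∈ UH := by
  filter_upwards [self_mem_nhdsWithin] with ε hε
  exact vert_mem x hε

theorem mc_vert (x ε : ℝ) : mc ((x : ℂ) + ε * Complex.I) = ((-x : ℝ) : ℂ) + ε * Complex.I := by
  simp [mc]
  ring

theorem bfun_bdry_out {x : ℝ} (hx : 1 < |x|) : ∃ β : ℝ,
    Tendsto (fun ε : ℝ => bfun (x + ε * Complex.I)) (𝓝[>] 0) (𝓝 (β : ℂ)) := by
  have hx1 : x + 1 ≠ 0 := by
    rintro h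
    have : x = -1 := by linarith
    rw [this] at hx
    norm_num at hx
  have hx1' : (x : ℂ) + 1 ≠ 0 := by exact_mod_cast hx1
  have hpos : 0 < (x - 1) / (x + 1) := by
    rcases lt_abs.mp hx with h | h
    · have : 0 < x - 1 := by linarith
      have : 0 < x + 1 := by linarith
      positivity
    · have : x - 1 < 0 := by linarith
      have : x + 1 < 0 := by linarith
      exact div_pos_of_neg_of_neg (by linarith) (by linarith)
  have h1 : Tendsto (fun ε : ℝ => ((x + ε * Complex.I : ℂ) - 1) / ((x + ε * Complex.I : ℂ) + 1))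
      (𝓝[>] 0) (𝓝 (((x : ℂ) - 1) / ((x : ℂ) + 1))) :=
    ((tendsto_vert x).sub_const 1).div ((tendsto_vert x).add_const 1) hx1'
  refine ⟨Real.log ((x - 1) / (x + 1)) / 4, ?_⟩
  have h2 : ((x : ℂ) - 1) / ((x : ℂ) + 1) = (((x - 1) / (x + 1) : ℝ) : ℂ) := by push_cast; ring
  have h3 : ((x : ℂ) - 1) / ((x : ℂ) + 1) ∈ Complex.slitPlane := by
    rw [h2]
    exact Complex.ofReal_mem_slitPlane.mpr hpos
  have h4 := (((Complex.hasDerivAt_log h3).continuousAt.tendsto).comp h1).div_const 4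
  have h5 : Complex.log (((x : ℂ) - 1) / ((x : ℂ) + 1)) / 4 =
      ((Real.log ((x - 1) / (x + 1)) / 4 : ℝ) : ℂ) := by
    rw [h2, ← Complex.ofReal_log hpos.le]
    push_cast
    ring
  rw [h5] at h4
  exact h4

theorem bfun_bdry_in {x : ℝ} (hx : |x| < 1) : ∃ β : ℝ,
    Tendsto (fun ε : ℝ => bfun (x + ε * Complex.I)) (𝓝[>] 0)
      (𝓝 ((β : ℂ) + Real.pi / 4 * Complex.I)) := by
  rw [abs_lt] at hx
  have hx1 : x + 1 ≠ 0 := by linarith
  have hx1' : (x : ℂ) + 1 ≠ 0 := by exact_mod_cast hx1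
  have hneg : (x - 1) / (x + 1) < 0 := div_neg_of_neg_of_pos (by linarith) (by linarith)
  have h1 : Tendsto (fun ε : ℝ => ((x + ε * Complex.I : ℂ) - 1) / ((x + ε * Complex.I : ℂ) + 1))
      (𝓝[>] 0) (𝓝 (((x : ℂ) - 1) / ((x : ℂ) + 1))) :=
    ((tendsto_vert x).sub_const 1).div ((tendsto_vert x).add_const 1) hx1'
  have h2 : ((x : ℂ) - 1) / ((x : ℂ) + 1) = (((x - 1) / (x + 1) : ℝ) : ℂ) := by push_cast; ring
  have h3 : Tendsto (fun ε : ℝ => ((x + ε * Complex.I : ℂ) - 1) / ((x + ε * Complex.I : ℂ) + 1))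
      (𝓝[>] 0) (𝓝[{z | 0 ≤ z.im}] (((x : ℂ) - 1) / ((x : ℂ) + 1))) := by
    rw [tendsto_nhdsWithin_iff]
    refine ⟨h1, ?_⟩
    filter_upwards [eventually_vert_mem x] with ε hε
    exact (mob_im hε).le
  have h4 := Complex.tendsto_log_nhdsWithin_im_nonneg_of_re_neg_of_im_zero
    (z := ((x : ℂ) - 1) / ((x : ℂ) + 1)) (by rw [h2, Complex.ofReal_re]; exact hneg)
    (by rw [h2]; exact Complex.ofReal_im _)
  refine ⟨Real.log ‖((x : ℂ) - 1) / ((x : ℂ) + 1)‖ / 4, ?_⟩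
  have h5 := (h4.comp h3).div_const 4
  have h6 : (((Real.log ‖((x : ℂ) - 1) / ((x : ℂ) + 1)‖ : ℝ) : ℂ) + Real.pi * Complex.I) / 4 =
      ((Real.log ‖((x : ℂ) - 1) / ((x : ℂ) + 1)‖ / 4 : ℝ) : ℂ) + Real.pi / 4 * Complex.I := by
    push_cast
    ring
  rw [h6] at h5
  exact h5

end Pool.Agent.Freud
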