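import Pool.Agent.Freud.AsmDefs
import Pool.Agent.Freud.OuterN
import Pool.Agent.Freud.ReflN
import Pool.Agent.Freud.LensG
import Pool.Agent.Freud.GBdry
import Pool.Agent.Freud.Ploc

/-!
FR-R1: reality of boundary values.
-/

set_option autoImplicit false

open MeasureTheory Filter Topology Asymptotics

namespace Pool.Agent.Freud

namespace BdryR

/-- real matrices as complex matrices -/
noncomputable abbrev rm (A : Matrix (Fin 2) (Fin 2) ℝ) : Mat2 := A.map (fun t : ℝ => (t : ℂ))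

lemma rm_mul (M N : Matrix (Fin 2) (Fin 2) ℝ) : rm (M * N) = rm M * rm N := by
  ext i j
  simp [Matrix.mul_apply, Fin.sum_univ_two]

lemma rm_det (M : Matrix (Fin 2) (Fin 2) ℝ) : (rm M).det = ((M.det : ℝ) : ℂ) := by
  rw [Matrix.det_fin_two, Matrix.det_fin_two]
  simp

lemma rm_one : rm 1 = 1 := by
  ext i j
  fin_cases i <;> fin_cases j <;> simp

lemma rm_inv {M : Matrix (Fin 2) (Fin 2) ℝ} (h : M.det ≠ 0) : (rm M)⁻¹ = rm M⁻¹ := by
  apply Matrix.inv_eq_right_inv
  rw [← rm_mul, Matrix.mul_nonsing_inv _ (isUnit_iff_ne_zero.2 h), rm_one]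

lemma tendsto_inv_mat {ι : Type*} {F : ι → Mat2} {l : Filter ι} {A : Mat2}
    (h : Tendsto F l (𝓝 A)) (hA : A.det ≠ 0) : Tendsto (fun x => (F x)⁻¹) l (𝓝 A⁻¹) := by
  have h1 : Tendsto (fun x => (F x).det) l (𝓝 A.det) :=
    ((continuous_id.matrix_det).tendsto A).comp h
  have h2 : Tendsto (fun x => (F x).adjugate) l (𝓝 A.adjugate) :=
    ((continuous_id.matrix_adjugate).tendsto A).comp h
  have h3 := (h1.inv₀ hA).smul h2
  have e : ∀ M : Mat2, M⁻¹ = (M.det)⁻¹ • M.adjugate := by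
    intro M
    rw [Matrix.inv_def, Ring.inverse_eq_inv']
  simp only [e]
  exact h3

lemma rm_mul_tri (A : Matrix (Fin 2) (Fin 2) ℝ) (p q r : ℂ) : rm A * !![p, q; 0, r] =
    !![(A 0 0 : ℂ) * p, (A 0 0 : ℂ) * q + (A 0 1 : ℂ) * r;
      (A 1 0 : ℂ) * p, (A 1 0 : ℂ) * q + (A 1 1 : ℂ) * r] := by
  ext i j
  fin_cases i <;> fin_cases j <;> simp [Matrix.mul_apply, Fin.sum_univ_two]

lemma Jmat_eq (α : ℝ) (n : ℕ) (x : ℝ) (b : ℂ) : Jmat α n x b =
    !![Complex.exp (-(n * b)), -(Complex.I / 2) * (wt α n x : ℂ) * Complex.exp (n * b - n * ell α);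
      0, Complex.exp (n * b - n * ell α)] := by
  unfold Jmat
  ext i j
  fin_cases i <;> fin_cases j <;> simp [Matrix.mul_apply, Fin.sum_univ_two]

lemma Jmat_det (α : ℝ) (n : ℕ) (x : ℝ) (b : ℂ) : (Jmat α n x b).det ≠ 0 := by
  rw [Jmat_eq, Matrix.det_fin_two_of, mul_zero, sub_zero]
  exact mul_ne_zero (Complex.exp_ne_zero _) (Complex.exp_ne_zero _)

lemma wt_eq (α : ℝ) (n : ℕ) (x : ℝ) : ((wt α n x : ℝ) : ℂ) =
    Complex.exp (-(n * kap α * ((|x| ^ α : ℝ) : ℂ))) := by
  unfold wt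
  push_cast
  rfl

end BdryR

open BdryR

theorem HasR.mul {F F' : ℂ → Mat2} {x : ℝ} (h : HasR F x) (h' : HasR F' x) :
    HasR (fun z => F z * F' z) x := by
  obtain ⟨A, hA⟩ := h
  obtain ⟨B, hB⟩ := h'
  refine ⟨A * B, ?_⟩
  have := hA.mul hB
  change Tendsto _ _ (𝓝 (rm (A * B)))
  rw [rm_mul]
  exact this

theorem HasR.inv {F : ℂ → Mat2} {x : ℝ} (h : HasR F x)
    (hF : ∀ᶠ ε : ℝ in 𝓝[>] 0, nm (F (x + ε * Complex.I) - 1) ≤ 1 / 2) :
    HasR (fun z => (F z)⁻¹) x := by
  obtain ⟨A, hA⟩ := h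
  have h1 : Tendsto (fun ε : ℝ => nm (F (x + ε * Complex.I) - 1)) (𝓝[>] 0)
      (𝓝 (nm (rm A - 1))) := by
    have h2 : Tendsto (fun ε : ℝ => F (x + ε * Complex.I) - 1) (𝓝[>] 0) (𝓝 (rm A - 1)) :=
      hA.sub_const 1
    exact (PlocAux.nm_cont.tendsto _).comp h2
  have h2 : nm (rm A - 1) ≤ 1 / 2 := le_of_tendsto h1 hF
  have h3 : |A 0 0 - 1| + |A 0 1| + |A 1 0| + |A 1 1 - 1| ≤ 1 / 2 := by
    have e : nm (rm A - 1) = |A 0 0 - 1| + |A 0 1| + |A 1 0| + |A 1 1 - 1| := by
      unfold nm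
      have e1 : (rm A - 1) 0 0 = ((A 0 0 - 1 : ℝ) : ℂ) := by simp
      have e2 : (rm A - 1) 0 1 = ((A 0 1 : ℝ) : ℂ) := by simp
      have e3 : (rm A - 1) 1 0 = ((A 1 0 : ℝ) : ℂ) := by simp
      have e4 : (rm A - 1) 1 1 = ((A 1 1 - 1 : ℝ) : ℂ) := by simp
      rw [e1, e2, e3, e4]
      simp only [Complex.norm_real, Real.norm_eq_abs]
    rw [← e]
    exact h2
  have hdet : A.det ≠ 0 := by
    rw [Matrix.det_fin_two]
    have p0 := abs_nonneg (A 0 0 - 1)
    have p1 := abs_nonneg (A 0 1)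
    have p2 := abs_nonneg (A 1 0)
    have p3 := abs_nonneg (A 1 1 - 1)
    have q0 : 1 / 2 ≤ A 0 0 := by
      have := (abs_le.1 (show |A 0 0 - 1| ≤ 1 / 2 by linarith)).1
      linarith
    have q3 : 1 - |A 1 1 - 1| ≤ A 1 1 := by
      have := neg_abs_le (A 1 1 - 1)
      linarith
    have q0' : 1 - |A 0 0 - 1| ≤ A 0 0 := by
      have := neg_abs_le (A 0 0 - 1)
      linarith
    have q4 : A 0 1 * A 1 0 ≤ |A 0 1| * |A 1 0| := by
      rw [← abs_mul]; exact le_abs_self _
    have q5 : (1 - |A 0 0 - 1|) * (1 - |A 1 1 - 1|) ≤ A 0 0 * A 1 1 := by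
      apply mul_le_mul q0' q3
      · linarith
      · linarith
    have q6 : |A 0 1| * |A 1 0| ≤ 1 / 4 := by nlinarith
    nlinarith [mul_nonneg p0 p3]
  refine ⟨A⁻¹, ?_⟩
  have h4 := tendsto_inv_mat (A := rm A) hA (by rw [rm_det]; exact_mod_cast hdet)
  rw [rm_inv hdet] at h4
  exact h4

theorem HasR.refl {F : ℂ → Mat2} {x : ℝ} (h : HasR F (-x)) : HasR (Freud.refl F) x := by
  obtain ⟨A, hA⟩ := h
  refine ⟨!![A 0 0, -A 0 1; -A 1 0, A 1 1], ?_⟩
  have e : ∀ ε : ℝ, Freud.refl F (x + ε * Complex.I) =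
      !![starRingEnd ℂ (F (((-x : ℝ) : ℂ) + ε * Complex.I) 0 0),
        -(starRingEnd ℂ (F (((-x : ℝ) : ℂ) + ε * Complex.I) 0 1));
        -(starRingEnd ℂ (F (((-x : ℝ) : ℂ) + ε * Complex.I) 1 0)),
        starRingEnd ℂ (F (((-x : ℝ) : ℂ) + ε * Complex.I) 1 1)] := by
    intro ε
    rw [refl_apply, mc_vert]
  simp only [e]
  rw [tendsto_mat] at hA ⊢
  intro i j
  have hc : ∀ i j, Tendsto (fun ε : ℝ => starRingEnd ℂ (F (((-x : ℝ) : ℂ) + ε * Complex.I) i j))
      (𝓝[>] 0) (𝓝 ((A i j : ℝ) : ℂ)) := by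
    intro i j
    have := (Complex.continuous_conj.tendsto _).comp (hA i j)
    rw [Matrix.map_apply, Complex.conj_ofReal] at this
    exact this
  have hc' : ∀ i j, Tendsto (fun ε : ℝ => -(starRingEnd ℂ (F (((-x : ℝ) : ℂ) + ε * Complex.I) i j)))
      (𝓝[>] 0) (𝓝 (-((A i j : ℝ) : ℂ))) := fun i j => (hc i j).neg
  fin_cases i <;> fin_cases j
  · simpa using hc 0 0
  · simpa using hc' 0 1
  · simpa using hc' 1 0
  · simpa using hc 1 1

theorem HasJ.div {α : ℝ} {n : ℕ} {F F' : ℂ → Mat2} {x : ℝ}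
    {A A' : Matrix (Fin 2) (Fin 2) ℝ} (h : HasJ α n F x A) (h' : HasJ α n F' x A')
    (hA : A'.det ≠ 0) : HasR (fun z => F z * (F' z)⁻¹) x := by
  obtain ⟨b, hb, hF⟩ := h
  obtain ⟨b', hb', hF'⟩ := h'
  have hbb : b' = b := tendsto_nhds_unique hb' hb
  subst hbb
  refine ⟨A * A'⁻¹, ?_⟩
  have hJ := Jmat_det α n x b'
  have hA' : (rm A').det ≠ 0 := by rw [rm_det]; exact_mod_cast hA
  have hdet : (rm A' * Jmat α n x b').det ≠ 0 := by
    rw [Matrix.det_mul]
    exact mul_ne_zero hA' hJ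
  have h1 := tendsto_inv_mat hF' hdet
  have h2 := hF.mul h1
  have e : A.map (fun t : ℝ => (t : ℂ)) * Jmat α n x b' * (rm A' * Jmat α n x b')⁻¹ =
      rm (A * A'⁻¹) := by
    rw [Matrix.mul_inv_rev, rm_mul, rm_inv hA]
    calc _ = rm A * (Jmat α n x b' * (Jmat α n x b')⁻¹) * rm A'⁻¹ := by
          simp only [mul_assoc]
      _ = _ := by
          rw [Matrix.mul_nonsing_inv _ (isUnit_iff_ne_zero.2 hJ), mul_one]
  rw [e] at h2
  exact h2


theorem HasJ.refl {α : ℝ} (hα : 1 < α) {n : ℕ} {F : ℂ → Mat2} {x : ℝ}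
    {A : Matrix (Fin 2) (Fin 2) ℝ} (h : HasJ α n F (-x) A) :
    ∃ A' : Matrix (Fin 2) (Fin 2) ℝ, A'.det = A.det ∧ HasJ α n (Freud.refl F) x A' := by
  obtain ⟨b, hb, hF⟩ := h
  refine ⟨!![(-1) ^ n * A 0 0, -((-1) ^ n * A 0 1); -((-1) ^ n * A 1 0), (-1) ^ n * A 1 1],
    ?_, starRingEnd ℂ b + Real.pi * Complex.I, ?_, ?_⟩
  · rw [Matrix.det_fin_two_of, Matrix.det_fin_two]
    have : ((-1 : ℝ) ^ n) * (-1) ^ n = 1 := by
      rw [← mul_pow]; norm_num
    linear_combination (A 0 0 * A 1 1 - A 0 1 * A 1 0) * this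
  · have h1 := ((Complex.continuous_conj.tendsto _).comp hb).add_const
      ((Real.pi : ℂ) * Complex.I)
    refine h1.congr' ?_
    filter_upwards [eventually_vert_mem (-x)] with ε hε
    have h2 := gfun_mc hα hε
    rw [mc_vert, neg_neg] at h2
    rw [h2]
    rfl
  · have e : ∀ ε : ℝ, Freud.refl F (x + ε * Complex.I) =
      !![starRingEnd ℂ (F (((-x : ℝ) : ℂ) + ε * Complex.I) 0 0),
        -(starRingEnd ℂ (F (((-x : ℝ) : ℂ) + ε * Complex.I) 0 1));
        -(starRingEnd ℂ (F (((-x : ℝ) : ℂ) + ε * Complex.I) 1 0)),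
        starRingEnd ℂ (F (((-x : ℝ) : ℂ) + ε * Complex.I) 1 1)] := by
      intro ε
      rw [refl_apply, mc_vert]
    simp only [e]
    rw [tendsto_mat] at hF ⊢
    have hw : wt α n (-x) = wt α n x := by unfold wt; rw [abs_neg]
    have hpi : Complex.exp (n * (Real.pi * Complex.I)) = (-1) ^ n := by
      rw [Complex.exp_nat_mul, Complex.exp_pi_mul_I]
    have hpi' : Complex.exp (-(n * (Real.pi * Complex.I))) = (-1) ^ n := by
      rw [Complex.exp_neg, hpi, ← inv_pow]; norm_num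
    have hsq : ((-1 : ℂ) ^ n) * (-1) ^ n = 1 := by
      rw [← mul_pow]; norm_num
    have e1 : Complex.exp (-(n * (starRingEnd ℂ b + Real.pi * Complex.I))) =
        (-1) ^ n * starRingEnd ℂ (Complex.exp (-(n * b))) := by
      rw [← exp_conj', ← hpi', ← Complex.exp_add]
      congr 1
      simp only [map_neg, map_mul, Complex.conj_natCast]
      ring
    have e2 : Complex.exp (n * (starRingEnd ℂ b + Real.pi * Complex.I) - n * ell α) =
        (-1) ^ n * starRingEnd ℂ (Complex.exp (n * b - n * ell α)) := by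
      rw [← exp_conj', ← hpi, ← Complex.exp_add]
      congr 1
      simp only [map_sub, map_mul, Complex.conj_natCast, Complex.conj_ofReal]
      ring
    have hc : ∀ i j, Tendsto (fun ε : ℝ => starRingEnd ℂ (F (((-x : ℝ) : ℂ) + ε * Complex.I) i j))
        (𝓝[>] 0) (𝓝 (starRingEnd ℂ ((rm A * Jmat α n (-x) b) i j))) := by
      intro i j
      exact (Complex.continuous_conj.tendsto _).comp (hF i j)
    have hc' : ∀ i j, Tendsto
        (fun ε : ℝ => -(starRingEnd ℂ (F (((-x : ℝ) : ℂ) + ε * Complex.I) i j)))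
        (𝓝[>] 0) (𝓝 (-(starRingEnd ℂ ((rm A * Jmat α n (-x) b) i j)))) := fun i j => (hc i j).neg
    have hM : rm A * Jmat α n (-x) b =
        !![(A 0 0 : ℂ) * Complex.exp (-(n * b)),
          (A 0 0 : ℂ) * (-(Complex.I / 2) * (wt α n x : ℂ) * Complex.exp (n * b - n * ell α)) +
            (A 0 1 : ℂ) * Complex.exp (n * b - n * ell α);
          (A 1 0 : ℂ) * Complex.exp (-(n * b)),
          (A 1 0 : ℂ) * (-(Complex.I / 2) * (wt α n x : ℂ) * Complex.exp (n * b - n * ell α)) +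
            (A 1 1 : ℂ) * Complex.exp (n * b - n * ell α)] := by
      rw [Jmat_eq, hw, rm_mul_tri]
    rw [hM] at hc hc'
    rw [Jmat_eq, e1, e2]
    have hN : (!![(-1) ^ n * A 0 0, -((-1) ^ n * A 0 1); -((-1) ^ n * A 1 0), (-1) ^ n * A 1 1] :
        Matrix (Fin 2) (Fin 2) ℝ).map (fun t : ℝ => (t : ℂ)) *
        !![(-1) ^ n * starRingEnd ℂ (Complex.exp (-(n * b))),
          -(Complex.I / 2) * (wt α n x : ℂ) * ((-1) ^ n * starRingEnd ℂ (Complex.exp (n * b - n * ell α)));
          0, (-1) ^ n * starRingEnd ℂ (Complex.exp (n * b - n * ell α))] =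
        !![starRingEnd ℂ ((A 0 0 : ℂ) * Complex.exp (-(n * b))),
          -(starRingEnd ℂ ((A 0 0 : ℂ) * (-(Complex.I / 2) * (wt α n x : ℂ) *
            Complex.exp (n * b - n * ell α)) + (A 0 1 : ℂ) * Complex.exp (n * b - n * ell α)));
          -(starRingEnd ℂ ((A 1 0 : ℂ) * Complex.exp (-(n * b)))),
          starRingEnd ℂ ((A 1 0 : ℂ) * (-(Complex.I / 2) * (wt α n x : ℂ) *
            Complex.exp (n * b - n * ell α)) + (A 1 1 : ℂ) * Complex.exp (n * b - n * ell α))] := by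
      have := rm_mul_tri (!![(-1) ^ n * A 0 0, -((-1) ^ n * A 0 1); -((-1) ^ n * A 1 0),
        (-1) ^ n * A 1 1] : Matrix (Fin 2) (Fin 2) ℝ)
      rw [show (!![(-1) ^ n * A 0 0, -((-1) ^ n * A 0 1); -((-1) ^ n * A 1 0), (-1) ^ n * A 1 1] :
        Matrix (Fin 2) (Fin 2) ℝ).map (fun t : ℝ => (t : ℂ)) = rm _ from rfl, this]
      simp only [map_add, map_mul, map_neg, map_div₀, Complex.conj_I, Complex.conj_ofReal,
        Complex.conj_ofNat]
      generalize starRingEnd ℂ (Complex.exp (-(n * b))) = u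
      generalize starRingEnd ℂ (Complex.exp (n * b - n * ell α)) = v
      simp only [Matrix.of_apply, Matrix.cons_val', Matrix.cons_val_zero, Matrix.cons_val_one,
        Matrix.cons_val_fin_one]
      push_cast
      congr 1
      ext i j
      fin_cases i <;> fin_cases j
      · show (-1) ^ n * (A 0 0 : ℂ) * ((-1) ^ n * u) = (A 0 0 : ℂ) * u
        linear_combination (A 0 0 : ℂ) * u * hsq
      · show (-1) ^ n * (A 0 0 : ℂ) * (-(Complex.I / 2) * (wt α n x : ℂ) * ((-1) ^ n * v)) +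
            -((-1) ^ n * (A 0 1 : ℂ)) * ((-1) ^ n * v) =
          -((A 0 0 : ℂ) * (-(-Complex.I / 2) * (wt α n x : ℂ) * v) + (A 0 1 : ℂ) * v)
        linear_combination ((A 0 0 : ℂ) * (-(Complex.I / 2) * (wt α n x : ℂ)) * v
          - (A 0 1 : ℂ) * v) * hsq
      · show -((-1) ^ n * (A 1 0 : ℂ)) * ((-1) ^ n * u) = -((A 1 0 : ℂ) * u)
        linear_combination -(A 1 0 : ℂ) * u * hsq
      · show -((-1) ^ n * (A 1 0 : ℂ)) * (-(Complex.I / 2) * (wt α n x : ℂ) * ((-1) ^ n * v)) +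
            (-1) ^ n * (A 1 1 : ℂ) * ((-1) ^ n * v) =
          (A 1 0 : ℂ) * (-(-Complex.I / 2) * (wt α n x : ℂ) * v) + (A 1 1 : ℂ) * v
        linear_combination (-(A 1 0 : ℂ) * (-(Complex.I / 2) * (wt α n x : ℂ)) * v
          + (A 1 1 : ℂ) * v) * hsq
    rw [hN]
    intro i j
    fin_cases i <;> fin_cases j
    · exact hc 0 0
    · exact hc' 0 1
    · exact hc' 1 0
    · exact hc 1 1

namespace BdryR

/-- boundary value of `z ^ α` at a positive point -/
lemma tendsto_cpow {α x : ℝ} (hx : 0 < x) :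
    Tendsto (fun ε : ℝ => ((x : ℂ) + ε * Complex.I) ^ (α : ℂ)) (𝓝[>] 0)
      (𝓝 (((|x| ^ α : ℝ) : ℂ))) := by
  have h1 : ContinuousAt (fun z : ℂ => z ^ (α : ℂ)) (x : ℂ) :=
    continuousAt_cpow_const (Complex.ofReal_mem_slitPlane.2 hx)
  have h2 := h1.tendsto.comp (tendsto_vert x)
  have e : ((x : ℂ)) ^ (α : ℂ) = ((|x| ^ α : ℝ) : ℂ) := by
    rw [abs_of_pos hx, Complex.ofReal_cpow hx.le]
  rw [e] at h2
  exact h2

lemma tendsto_cpow_neg {α x : ℝ} (hx : x < 0) :
    Tendsto (fun ε : ℝ => (-((x : ℂ) + ε * Complex.I)) ^ (α : ℂ)) (𝓝[>] 0)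
      (𝓝 (((|x| ^ α : ℝ) : ℂ))) := by
  have h0 : ((-x : ℝ) : ℂ) = -(x : ℂ) := by push_cast; rfl
  have h1 : ContinuousAt (fun z : ℂ => z ^ (α : ℂ)) (-(x : ℂ)) := by
    rw [← h0]
    exact continuousAt_cpow_const (Complex.ofReal_mem_slitPlane.2 (by linarith))
  have h2 := h1.tendsto.comp (tendsto_vert x).neg
  have e : (-(x : ℂ)) ^ (α : ℂ) = ((|x| ^ α : ℝ) : ℂ) := by
    rw [abs_of_neg hx, Complex.ofReal_cpow (by linarith), h0]
  rw [e] at h2
  exact h2

end BdryR

theorem Ploc_HasJ {α δ m1 : ℝ} (hα : 1 < α) {m : ℂ → ℂ} (hL : LocMap α δ m1 m) {n : ℕ}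
    (hn : 1 ≤ n) {x : ℝ} (hx : |x - 1| < δ) (hx1 : x ≠ 1) :
    ∃ A : Matrix (Fin 2) (Fin 2) ℝ, A.det ≠ 0 ∧ HasJ α n (Ploc α n m) x A := by
  obtain ⟨A, hA, hP⟩ := (Ploc_bdry α δ m1 hα m hL n hn).2 x hx hx1
  obtain ⟨b, hb, -⟩ := gfun_bdry α hα x
  have hx0 : 0 < x := by
    have h1 := (abs_lt.1 hx).1
    have h2 := hL.δ_lt
    linarith
  have hxi : Tendsto (fun ε : ℝ => xiR α (x + ε * Complex.I)) (𝓝[>] 0)
      (𝓝 (b - kap α * (((|x| ^ α : ℝ) : ℂ)) / 2 - ell α / 2)) :=
    (hb.sub (((tendsto_cpow hx0).const_mul _).div_const 2)).sub_const _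
  set X : ℂ := (((|x| ^ α : ℝ) : ℂ)) with hX
  set c : ℝ := Real.exp (n * kap α * |x| ^ α / 2 + n * ell α / 2) with hc
  have hc0 : 0 < c := Real.exp_pos _
  have hcc : (c : ℂ) = Complex.exp (n * kap α * X / 2 + n * ell α / 2) := by
    rw [hc, hX]; push_cast; rfl
  set D : Matrix (Fin 2) (Fin 2) ℝ := !![c, 0; 0, c⁻¹ * Real.exp (n * ell α)] with hD
  refine ⟨A * D, ?_, b, hb, ?_⟩
  · rw [Matrix.det_mul, hA, hD, Matrix.det_fin_two_of, mul_zero, sub_zero, one_mul]
    have := Real.exp_pos (n * ell α)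
    positivity
  · have h1 : Tendsto (fun ε : ℝ => !![Complex.exp (-(n * xiR α (x + ε * Complex.I))), 0;
          0, Complex.exp (n * xiR α (x + ε * Complex.I))]) (𝓝[>] 0)
        (𝓝 (!![Complex.exp (-(n * (b - kap α * X / 2 - ell α / 2))), 0;
          0, Complex.exp (n * (b - kap α * X / 2 - ell α / 2))] : Mat2)) := by
      have g1 := (Complex.continuous_exp.tendsto _).comp ((hxi.const_mul (n : ℂ)).neg)
      have g2 := (Complex.continuous_exp.tendsto _).comp ((hxi.const_mul (n : ℂ)))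
      rw [tendsto_mat]
      intro i j
      fin_cases i <;> fin_cases j
      · exact g1
      · exact tendsto_const_nhds
      · exact tendsto_const_nhds
      · exact g2
    have h2 := hP.mul h1
    have e : rm (A * D) * Jmat α n x b = rm A * !![1, -(Complex.I / 2); 0, 1] *
        (!![Complex.exp (-(n * (b - kap α * X / 2 - ell α / 2))), 0;
          0, Complex.exp (n * (b - kap α * X / 2 - ell α / 2))] : Mat2) := by
      rw [rm_mul, mul_assoc, mul_assoc]
      congr 1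
      rw [Jmat_eq, wt_eq]
      have k1 : (c : ℂ) * Complex.exp (-(n * b)) =
          Complex.exp (-(n * (b - kap α * X / 2 - ell α / 2))) := by
        rw [hcc, ← Complex.exp_add]; congr 1; ring
      have k2 : (c : ℂ) * (Complex.exp (-(n * kap α * X)) * Complex.exp (n * b - n * ell α)) =
          Complex.exp (n * (b - kap α * X / 2 - ell α / 2)) := by
        rw [hcc, ← Complex.exp_add, ← Complex.exp_add]; congr 1; ring
      have k3 : (c : ℂ)⁻¹ * Complex.exp (n * ell α) * Complex.exp (n * b - n * ell α) =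
          Complex.exp (n * (b - kap α * X / 2 - ell α / 2)) := by
        rw [hcc, ← Complex.exp_neg, ← Complex.exp_add, ← Complex.exp_add]; congr 1; ring
      ext i j
      fin_cases i <;> fin_cases j
      · simp [hD, Matrix.mul_apply, Fin.sum_univ_two]
        rw [k1]
      · simp [hD, Matrix.mul_apply, Fin.sum_univ_two]
        rw [← k2]; ring
      · simp [hD, Matrix.mul_apply, Fin.sum_univ_two]
      · simp [hD, Matrix.mul_apply, Fin.sum_univ_two]
        rw [← k3]
    have e' : ∀ ε : ℝ, Ploc α n m (x + ε * Complex.I) *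
        !![Complex.exp (n * xiR α (x + ε * Complex.I)), 0;
          0, Complex.exp (-(n * xiR α (x + ε * Complex.I)))] *
        !![Complex.exp (-(n * xiR α (x + ε * Complex.I))), 0;
          0, Complex.exp (n * xiR α (x + ε * Complex.I))] = Ploc α n m (x + ε * Complex.I) := by
      intro ε
      rw [mul_assoc]
      have : (!![Complex.exp (n * xiR α (x + ε * Complex.I)), 0;
          0, Complex.exp (-(n * xiR α (x + ε * Complex.I)))] : Mat2) *
        !![Complex.exp (-(n * xiR α (x + ε * Complex.I))), 0;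
          0, Complex.exp (n * xiR α (x + ε * Complex.I))] = 1 := by
        ext i j
        fin_cases i <;> fin_cases j
        · simp [Matrix.mul_apply, Fin.sum_univ_two, ← Complex.exp_add]
        · simp [Matrix.mul_apply, Fin.sum_univ_two]
        · simp [Matrix.mul_apply, Fin.sum_univ_two]
        · simp [Matrix.mul_apply, Fin.sum_univ_two, ← Complex.exp_add]
      rw [this, mul_one]
    simp only [e'] at h2
    change Tendsto _ _ (𝓝 (rm (A * D) * Jmat α n x b))
    rw [e]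
    exact h2

namespace BdryR

lemma tendsto_of4 {ι : Type*} {l : Filter ι} {a b c d : ι → ℂ} {a' b' c' d' : ℂ}
    (ha : Tendsto a l (𝓝 a')) (hb : Tendsto b l (𝓝 b')) (hc : Tendsto c l (𝓝 c'))
    (hd : Tendsto d l (𝓝 d')) :
    Tendsto (fun x => (!![a x, b x; c x, d x] : Mat2)) l (𝓝 !![a', b'; c', d']) := by
  rw [tendsto_mat]
  intro i j
  fin_cases i <;> fin_cases j
  · exact ha
  · exact hb
  · exact hc
  · exact hd

lemma vert_re (x ε : ℝ) : ((x : ℂ) + ε * Complex.I).re = x := by simp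

lemma vert_im (x ε : ℝ) : ((x : ℂ) + ε * Complex.I).im = ε := by simp

lemma eventually_rho {y0 : ℝ} (hy : 0 < y0) (x : ℝ) :
    ∀ᶠ ε : ℝ in 𝓝[>] 0, rho (((x : ℂ) + ε * Complex.I).im / y0) = 1 := by
  have h1 : ∀ᶠ ε : ℝ in 𝓝[>] 0, ε < y0 / 2 :=
    nhdsWithin_le_nhds (gt_mem_nhds (by positivity))
  filter_upwards [h1] with ε hε
  apply rho_one
  rw [vert_im, div_le_iff₀ hy]
  linarith

/-- boundary values of the lens factor inside -/
lemma tendsto_Gmat_in {α : ℝ} {n : ℕ} {y0 : ℝ} (hy : 0 < y0) {x : ℝ} {b : ℂ}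
    (hb : Tendsto (fun ε : ℝ => gfun α (x + ε * Complex.I)) (𝓝[>] 0) (𝓝 b))
    (hx0 : x ≠ 0) (hx : |x| < 1) :
    Tendsto (fun ε : ℝ => Gmat α n y0 (x + ε * Complex.I)) (𝓝[>] 0)
      (𝓝 !![1, 0; -Complex.I * Complex.exp (-(2 * n * b) + n * ell α +
        n * kap α * ((|x| ^ α : ℝ) : ℂ)), 1]) := by
  set X : ℂ := ((|x| ^ α : ℝ) : ℂ) with hX
  have h1 : Tendsto (fun ε : ℝ => Complex.exp (-(2 * n * gfun α (x + ε * Complex.I)) + n * ell α))
      (𝓝[>] 0) (𝓝 (Complex.exp (-(2 * n * b) + n * ell α))) :=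
    (Complex.continuous_exp.tendsto _).comp ((hb.const_mul (2 * (n : ℂ))).neg.add_const _)
  have h2 : Tendsto (fun ε : ℝ => Ecen α n (x + ε * Complex.I)) (𝓝[>] 0)
      (𝓝 (Complex.exp (-(2 * n * b) + n * ell α + n * kap α * X))) := by
    rw [Complex.exp_add (-(2 * n * b) + n * ell α)]
    rcases lt_or_gt_of_ne hx0 with hneg | hpos
    · have h3 : Tendsto (fun ε : ℝ => Complex.exp (n * kap α *
          (-((x : ℂ) + ε * Complex.I)) ^ (α : ℂ))) (𝓝[>] 0) (𝓝 (Complex.exp (n * kap α * X))) :=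
        (Complex.continuous_exp.tendsto _).comp ((tendsto_cpow_neg hneg).const_mul _)
      refine (h1.mul h3).congr' ?_
      have h4 : ∀ᶠ ε : ℝ in 𝓝[>] 0, ε < -x := nhdsWithin_le_nhds (gt_mem_nhds (by linarith))
      filter_upwards [h4, self_mem_nhdsWithin] with ε hε hε0
      have hε0' : (0 : ℝ) < ε := hε0
      have ht : tau (((x : ℂ) + ε * Complex.I).re / ((x : ℂ) + ε * Complex.I).im) = 0 := by
        rw [vert_re, vert_im]
        apply tau_facts.2.2.1
        rw [div_le_iff₀ hε0']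
        linarith
      unfold Ecen
      rw [ht]
      simp
    · have h3 : Tendsto (fun ε : ℝ => Complex.exp (n * kap α *
          ((x : ℂ) + ε * Complex.I) ^ (α : ℂ))) (𝓝[>] 0) (𝓝 (Complex.exp (n * kap α * X))) :=
        (Complex.continuous_exp.tendsto _).comp ((tendsto_cpow hpos).const_mul _)
      refine (h1.mul h3).congr' ?_
      have h4 : ∀ᶠ ε : ℝ in 𝓝[>] 0, ε < x := nhdsWithin_le_nhds (gt_mem_nhds hpos)
      filter_upwards [h4, self_mem_nhdsWithin] with ε hε hε0
      have hε0' : (0 : ℝ) < ε := hε0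
      have ht : tau (((x : ℂ) + ε * Complex.I).re / ((x : ℂ) + ε * Complex.I).im) = 1 := by
        rw [vert_re, vert_im]
        apply tau_facts.2.2.2.1
        rw [le_div_iff₀ hε0']
        linarith
      unfold Ecen
      rw [ht]
      simp
  have h5 := tendsto_of4 (tendsto_const_nhds (x := (1 : ℂ)) (f := 𝓝[>] (0 : ℝ)))
    (tendsto_const_nhds (x := (0 : ℂ))) (h2.const_mul (-Complex.I)) (tendsto_const_nhds (x := (1 : ℂ)))
  refine h5.congr' ?_
  filter_upwards [eventually_rho hy x] with ε hε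
  unfold Gmat
  rw [hε, vert_re, if_pos hx]
  simp

/-- boundary values of the lens factor outside -/
lemma tendsto_Gmat_out {α : ℝ} {n : ℕ} {y0 : ℝ} (hy : 0 < y0) {x : ℝ} {b : ℂ}
    (hb : Tendsto (fun ε : ℝ => gfun α (x + ε * Complex.I)) (𝓝[>] 0) (𝓝 b))
    (hx : 1 < |x|) :
    Tendsto (fun ε : ℝ => Gmat α n y0 (x + ε * Complex.I)) (𝓝[>] 0)
      (𝓝 !![1, Complex.I / 2 * Complex.exp (2 * n * b - n * kap α * ((|x| ^ α : ℝ) : ℂ) -
        n * ell α); 0, 1]) := by
  set X : ℂ := ((|x| ^ α : ℝ) : ℂ) with hX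
  rcases lt_abs.1 hx with h | h
  · have h2 : Tendsto (fun ε : ℝ => Complex.exp (2 * n * xiR α (x + ε * Complex.I))) (𝓝[>] 0)
        (𝓝 (Complex.exp (2 * n * b - n * kap α * X - n * ell α))) := by
      have h3 : Tendsto (fun ε : ℝ => xiR α (x + ε * Complex.I)) (𝓝[>] 0)
          (𝓝 (b - kap α * X / 2 - ell α / 2)) :=
        (hb.sub (((tendsto_cpow (by linarith)).const_mul _).div_const 2)).sub_const _
      have h4 := (Complex.continuous_exp.tendsto _).comp (h3.const_mul (2 * (n : ℂ)))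
      have e : 2 * (n : ℂ) * (b - kap α * X / 2 - ell α / 2) =
        2 * n * b - n * kap α * X - n * ell α := by ring
      rw [e] at h4
      exact h4
    have h5 := tendsto_of4 (tendsto_const_nhds (x := (1 : ℂ)) (f := 𝓝[>] (0 : ℝ)))
      (h2.const_mul (Complex.I / 2)) (tendsto_const_nhds (x := (0 : ℂ)))
      (tendsto_const_nhds (x := (1 : ℂ)))
    refine h5.congr' ?_
    filter_upwards [eventually_rho hy x] with ε hε
    unfold Gmat
    rw [hε, vert_re, if_neg (by linarith), if_pos (by linarith)]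
    simp
  · have h2 : Tendsto (fun ε : ℝ => Complex.exp (2 * n * xiL α (x + ε * Complex.I))) (𝓝[>] 0)
        (𝓝 (Complex.exp (2 * n * b - n * kap α * X - n * ell α))) := by
      have h3 : Tendsto (fun ε : ℝ => xiL α (x + ε * Complex.I)) (𝓝[>] 0)
          (𝓝 (b - kap α * X / 2 - ell α / 2)) :=
        (hb.sub (((tendsto_cpow_neg (by linarith)).const_mul _).div_const 2)).sub_const _
      have h4 := (Complex.continuous_exp.tendsto _).comp (h3.const_mul (2 * (n : ℂ)))
      have e : 2 * (n : ℂ) * (b - kap α * X / 2 - ell α / 2) =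
        2 * n * b - n * kap α * X - n * ell α := by ring
      rw [e] at h4
      exact h4
    have h5 := tendsto_of4 (tendsto_const_nhds (x := (1 : ℂ)) (f := 𝓝[>] (0 : ℝ)))
      (h2.const_mul (Complex.I / 2)) (tendsto_const_nhds (x := (0 : ℂ)))
      (tendsto_const_nhds (x := (1 : ℂ)))
    refine h5.congr' ?_
    filter_upwards [eventually_rho hy x] with ε hε
    unfold Gmat
    rw [hε, vert_re, if_neg (by linarith), if_neg (by linarith)]
    simp

lemma tendsto_Ninv {x : ℝ} {β : ℂ}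
    (h : Tendsto (fun ε : ℝ => bfun (x + ε * Complex.I)) (𝓝[>] 0) (𝓝 β)) :
    Tendsto (fun ε : ℝ => Ninv (x + ε * Complex.I)) (𝓝[>] 0)
      (𝓝 !![Complex.cosh β, Complex.sinh β; Complex.sinh β, Complex.cosh β]) := by
  have h1 := (Complex.continuous_cosh.tendsto _).comp h
  have h2 := (Complex.continuous_sinh.tendsto _).comp h
  exact tendsto_of4 h1 h2 h2 h1

lemma cosh_quarter (β : ℝ) : Complex.cosh ((β : ℂ) + Real.pi / 4 * Complex.I) =
    ((√2 / 2 : ℝ) : ℂ) * ((Real.cosh β : ℂ) + Complex.I * Real.sinh β) := by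
  rw [Complex.cosh_add, Complex.cosh_mul_I, Complex.sinh_mul_I]
  have h1 : Complex.cos (Real.pi / 4 : ℂ) = ((√2 / 2 : ℝ) : ℂ) := by
    rw [← Real.cos_pi_div_four]; push_cast; rfl
  have h2 : Complex.sin (Real.pi / 4 : ℂ) = ((√2 / 2 : ℝ) : ℂ) := by
    rw [← Real.sin_pi_div_four]; push_cast; rfl
  rw [h1, h2]
  push_cast
  ring

lemma sinh_quarter (β : ℝ) : Complex.sinh ((β : ℂ) + Real.pi / 4 * Complex.I) =
    ((√2 / 2 : ℝ) : ℂ) * ((Real.sinh β : ℂ) + Complex.I * Real.cosh β) := by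
  rw [Complex.sinh_add, Complex.cosh_mul_I, Complex.sinh_mul_I]
  have h1 : Complex.cos (Real.pi / 4 : ℂ) = ((√2 / 2 : ℝ) : ℂ) := by
    rw [← Real.cos_pi_div_four]; push_cast; rfl
  have h2 : Complex.sin (Real.pi / 4 : ℂ) = ((√2 / 2 : ℝ) : ℂ) := by
    rw [← Real.sin_pi_div_four]; push_cast; rfl
  rw [h1, h2]
  push_cast
  ring

lemma exp_split (n : ℕ) (b : ℂ) : Complex.exp (n * b) =
    ((Real.exp (n * b.re) : ℝ) : ℂ) * (((Real.cos (n * b.im) : ℝ) : ℂ) +
      Complex.I * ((Real.sin (n * b.im) : ℝ) : ℂ)) := by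
  have : (n : ℂ) * b = ((n * b.re : ℝ) : ℂ) + ((n * b.im : ℝ) : ℂ) * Complex.I := by
    apply Complex.ext <;> simp
  rw [this, Complex.exp_add, Complex.exp_mul_I]
  push_cast
  ring

lemma exp_split_neg (n : ℕ) (b : ℂ) : Complex.exp (-(n * b)) =
    ((Real.exp (-(n * b.re)) : ℝ) : ℂ) * (((Real.cos (n * b.im) : ℝ) : ℂ) -
      Complex.I * ((Real.sin (n * b.im) : ℝ) : ℂ)) := by
  have : -((n : ℂ) * b) = ((-(n * b.re) : ℝ) : ℂ) + ((-(n * b.im) : ℝ) : ℂ) * Complex.I := by
    apply Complex.ext <;> simp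
  rw [this, Complex.exp_add, Complex.exp_mul_I]
  push_cast
  rw [Complex.cos_neg, Complex.sin_neg]
  ring

end BdryR

theorem HasJ.lens {α : ℝ} (hα : 1 < α) {n : ℕ} {y0 : ℝ} (hy : 0 < y0) {F : ℂ → Mat2} {x : ℝ}
    {A : Matrix (Fin 2) (Fin 2) ℝ} (h : HasJ α n F x A) (hx0 : x ≠ 0) (hx1 : |x| ≠ 1) :
    HasR (fun z => F z * Gmat α n y0 z * Ninv z) x := by
  obtain ⟨b, hb, hF⟩ := h
  obtain ⟨b', hb', hre, him, him'⟩ := gfun_bdry α hα x
  have hbb : b' = b := tendsto_nhds_unique hb' hb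
  subst hbb
  rcases lt_or_gt_of_ne hx1 with hx | hx
  · -- inside
    obtain ⟨β, hβ⟩ := bfun_bdry_in hx
    have hG := tendsto_Gmat_in (n := n) hy hb hx0 hx
    have hN := tendsto_Ninv hβ
    have hlim := (hF.mul hG).mul hN
    rw [cosh_quarter, sinh_quarter] at hlim
    have hre' := hre hx.le
    set r : ℝ := Real.exp (-(n * b'.re)) with hr
    set w : ℝ := wt α n x with hw
    have hw0 : w ≠ 0 := (Real.exp_pos _).ne'
    set c : ℝ := Real.cos (n * b'.im) with hc
    set s : ℝ := Real.sin (n * b'.im) with hs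
    set q : ℝ := √2 / 2 with hq
    have k1 : Complex.exp (-(n * b')) = (r : ℂ) * ((c : ℂ) - Complex.I * s) := exp_split_neg n b'
    have kw : w = Real.exp (-(2 * n * b'.re) + n * ell α) := by
      rw [hw, hre']
      unfold wt
      congr 1
      ring
    have k2 : Complex.exp (n * b' - n * ell α) = ((r / w : ℝ) : ℂ) * ((c : ℂ) + Complex.I * s) := by
      have hsp := exp_split n b'
      rw [← hc, ← hs] at hsp
      rw [sub_eq_add_neg, Complex.exp_add, hsp]
      have : r / w = Real.exp (n * b'.re) * Real.exp (-(n * ell α)) := by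
        rw [hr, kw, ← Real.exp_sub, ← Real.exp_add]
        congr 1
        ring
      rw [this]
      push_cast
      ring
    have k3 : Complex.exp (-(2 * n * b') + n * ell α + n * kap α * ((|x| ^ α : ℝ) : ℂ)) *
        Complex.exp (n * b' - n * ell α) = ((r / w : ℝ) : ℂ) * ((c : ℂ) - Complex.I * s) := by
      rw [← Complex.exp_add]
      have e : -(2 * n * b') + n * ell α + n * kap α * ((|x| ^ α : ℝ) : ℂ) + (n * b' - n * ell α) =
        -(n * b') + n * kap α * ((|x| ^ α : ℝ) : ℂ) := by ring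
      rw [e, Complex.exp_add, k1]
      have e2 : Complex.exp (n * kap α * ((|x| ^ α : ℝ) : ℂ)) = ((w⁻¹ : ℝ) : ℂ) := by
        rw [hw]
        unfold wt
        rw [← Real.exp_neg]
        push_cast
        congr 1
        ring
      rw [e2]
      push_cast
      field_simp
    refine ⟨A * !![r * q * (c * Real.cosh β + s * Real.sinh β),
      r * q * (c * Real.sinh β + s * Real.cosh β);
      2 * (r / w) * q * (c * Real.sinh β - s * Real.cosh β),
      2 * (r / w) * q * (c * Real.cosh β - s * Real.sinh β)], ?_⟩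
    have key : rm (A * !![r * q * (c * Real.cosh β + s * Real.sinh β),
      r * q * (c * Real.sinh β + s * Real.cosh β);
      2 * (r / w) * q * (c * Real.sinh β - s * Real.cosh β),
      2 * (r / w) * q * (c * Real.cosh β - s * Real.sinh β)]) =
        (A.map (fun t : ℝ => (t : ℂ))) * Jmat α n x b' *
        !![1, 0; -Complex.I * Complex.exp (-(2 * n * b') + n * ell α +
          n * kap α * ((|x| ^ α : ℝ) : ℂ)), 1] *
        !![((q : ℝ) : ℂ) * ((Real.cosh β : ℂ) + Complex.I * Real.sinh β),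
          ((q : ℝ) : ℂ) * ((Real.sinh β : ℂ) + Complex.I * Real.cosh β);
          ((q : ℝ) : ℂ) * ((Real.sinh β : ℂ) + Complex.I * Real.cosh β),
          ((q : ℝ) : ℂ) * ((Real.cosh β : ℂ) + Complex.I * Real.sinh β)] := by
      rw [rm_mul, Matrix.mul_assoc, Matrix.mul_assoc]
      congr 1
      rw [← Matrix.mul_assoc, Jmat_eq, k1]
      set E := Complex.exp (-(2 * n * b') + n * ell α + n * kap α * ((|x| ^ α : ℝ) : ℂ)) with hE
      set E2 := Complex.exp (n * b' - n * ell α) with hE2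
      have hI := Complex.I_mul_I
      have hmul : (!![(r : ℂ) * ((c : ℂ) - Complex.I * s), -(Complex.I / 2) * (w : ℂ) * E2;
          0, E2] : Mat2) * !![1, 0; -Complex.I * E, 1] =
          !![(r : ℂ) / 2 * ((c : ℂ) - Complex.I * s),
            -Complex.I * ((r : ℂ) / 2 * ((c : ℂ) + Complex.I * s));
            -Complex.I * (((r / w : ℝ) : ℂ) * ((c : ℂ) - Complex.I * s)),
            ((r / w : ℝ) : ℂ) * ((c : ℂ) + Complex.I * s)] := by
        have hwc : (w : ℂ) ≠ 0 := by exact_mod_cast hw0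
        rw [← k2, ← k3]
        have k3' : (w : ℂ) * (E * E2) = (r : ℂ) * ((c : ℂ) - Complex.I * s) := by
          rw [k3]; push_cast; field_simp
        have k2' : (w : ℂ) * E2 = (r : ℂ) * ((c : ℂ) + Complex.I * s) := by
          rw [k2]; push_cast; field_simp
        ext i j
        fin_cases i <;> fin_cases j
        · simp [Matrix.mul_apply, Fin.sum_univ_two]
          linear_combination (1 / 2 * (w : ℂ) * E2 * E) * hI - 1 / 2 * k3'
        · simp [Matrix.mul_apply, Fin.sum_univ_two]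
          linear_combination (Complex.I / 2) * k2'
        · simp [Matrix.mul_apply, Fin.sum_univ_two]
          ring
        · simp [Matrix.mul_apply, Fin.sum_univ_two]
      rw [hmul]
      ext i j
      fin_cases i <;> fin_cases j
      · simp [Matrix.mul_apply, Fin.sum_univ_two]
        linear_combination ((r : ℂ) * q / 2 * (c * Complex.cosh β + 2 * s * Complex.sinh β
          + Complex.I * s * Complex.cosh β)) * hI
      · simp [Matrix.mul_apply, Fin.sum_univ_two]
        linear_combination ((r : ℂ) * q / 2 * (c * Complex.sinh β + 2 * s * Complex.cosh β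
          + Complex.I * s * Complex.sinh β)) * hI
      · simp [Matrix.mul_apply, Fin.sum_univ_two]
        linear_combination ((r : ℂ) / w * q * (c * Complex.sinh β - 2 * s * Complex.cosh β
          - Complex.I * s * Complex.sinh β)) * hI
      · simp [Matrix.mul_apply, Fin.sum_univ_two]
        linear_combination ((r : ℂ) / w * q * (c * Complex.cosh β - 2 * s * Complex.sinh β
          - Complex.I * s * Complex.cosh β)) * hI
    change Tendsto _ _ (𝓝 (rm _))
    rw [key]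
    exact hlim
  · -- outside
    obtain ⟨β, hβ⟩ := bfun_bdry_out hx
    have hG := tendsto_Gmat_out (n := n) hy hb hx
    have hN := tendsto_Ninv hβ
    have hlim := (hF.mul hG).mul hN
    have hw := wt_eq α n x
    -- the product is diagonal
    have hJG : Jmat α n x b' * !![1, Complex.I / 2 * Complex.exp (2 * n * b' -
        n * kap α * ((|x| ^ α : ℝ) : ℂ) - n * ell α); 0, 1] =
        !![Complex.exp (-(n * b')), 0; 0, Complex.exp (n * b' - n * ell α)] := by
      rw [Jmat_eq]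
      have k : Complex.exp (-(n * b')) * Complex.exp (2 * n * b' -
          n * kap α * ((|x| ^ α : ℝ) : ℂ) - n * ell α) =
          (wt α n x : ℂ) * Complex.exp (n * b' - n * ell α) := by
        rw [hw, ← Complex.exp_add, ← Complex.exp_add]
        congr 1
        ring
      ext i j
      fin_cases i <;> fin_cases j
      · simp [Matrix.mul_apply, Fin.sum_univ_two]
      · simp [Matrix.mul_apply, Fin.sum_univ_two]
        linear_combination (Complex.I / 2) * k
      · simp [Matrix.mul_apply, Fin.sum_univ_two]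
      · simp [Matrix.mul_apply, Fin.sum_univ_two]
    -- the exponentials are real
    have hsin : Real.sin (n * b'.im) = 0 := by
      rcases lt_abs.1 hx with h | h
      · rw [him h.le]; simp
      · rw [him' (by linarith)]
        exact Real.sin_nat_mul_pi n
    have g1 : Complex.exp (-(n * b')) = ((Real.exp (-(n * b'.re)) * Real.cos (n * b'.im) : ℝ) : ℂ) := by
      have := exp_split_neg n b'
      rw [hsin] at this
      rw [this]
      push_cast
      ring
    have g2 : Complex.exp (n * b' - n * ell α) =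
        ((Real.exp (n * b'.re) * Real.cos (n * b'.im) * Real.exp (-(n * ell α)) : ℝ) : ℂ) := by
      have := exp_split n b'
      rw [hsin] at this
      rw [sub_eq_add_neg, Complex.exp_add, this]
      push_cast
      ring
    set u : ℝ := Real.exp (-(n * b'.re)) * Real.cos (n * b'.im)
    set v : ℝ := Real.exp (n * b'.re) * Real.cos (n * b'.im) * Real.exp (-(n * ell α))
    refine ⟨A * !![u * Real.cosh β, u * Real.sinh β; v * Real.sinh β, v * Real.cosh β], ?_⟩
    have key : rm (A * !![u * Real.cosh β, u * Real.sinh β; v * Real.sinh β, v * Real.cosh β]) =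
        (A.map (fun t : ℝ => (t : ℂ))) * Jmat α n x b' *
        !![1, Complex.I / 2 * Complex.exp (2 * n * b' -
          n * kap α * ((|x| ^ α : ℝ) : ℂ) - n * ell α); 0, 1] *
        !![Complex.cosh β, Complex.sinh β; Complex.sinh β, Complex.cosh β] := by
      rw [rm_mul, Matrix.mul_assoc, Matrix.mul_assoc]
      congr 1
      rw [← Matrix.mul_assoc, hJG, g1, g2]
      ext i j
      fin_cases i <;> fin_cases j <;> simp [Matrix.mul_apply, Fin.sum_univ_two]
    change Tendsto _ _ (𝓝 (rm _))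
    rw [key]
    exact hlim

end Pool.Agent.Freud
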