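import Pool.Agent.Freud.Defs2

/-!
Real analysis bounds for the kernel `1 / |s - z|` in the plane against the weights occurring in the
perturbation theory: bounded weights supported in `|s| ≤ 2`, the weights
`n |s| ^ a exp (-c n |s|)` and `exp (-c |s|)`.
-/

set_option autoImplicit false

open MeasureTheory Filter Topology Set

namespace Pool.Agent.Freud.Ker

/-- Polar coordinates for radial functions. -/
theorem polar (f : ℝ → ℝ) :
    ∫ s : ℂ, f ‖s‖ = 2 * Real.pi * ∫ y in Ioi (0 : ℝ), y * f y := by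
  have h := integral_fun_norm_addHaar (volume : Measure ℂ) f
  rw [h]
  simp [Complex.finrank_real_complex, Measure.real, Complex.volume_ball]
  ring

theorem polar_int (f : ℝ → ℝ) :
    Integrable (fun s : ℂ => f ‖s‖) ↔ IntegrableOn (fun y => y * f y) (Ioi 0) := by
  have h := integrable_fun_norm_addHaar (volume : Measure ℂ) (f := f)
  rw [h]
  simp [Complex.finrank_real_complex]

/-- The truncated kernel. -/
noncomputable def tk (ρ : ℝ) (s : ℂ) : ℝ := (Iio ρ).indicator (fun y => 1 / y) ‖s‖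

theorem tk_int (ρ : ℝ) (hρ : 0 < ρ) : Integrable (tk ρ) ∧ ∫ s, tk ρ s = 2 * Real.pi * ρ := by
  have e : EqOn (fun y : ℝ => y * (Iio ρ).indicator (fun y => 1 / y) y)
      ((Iio ρ).indicator fun _ => 1) (Ioi 0) := by
    intro y hy
    have hy' : y ≠ 0 := ne_of_gt hy
    by_cases hr : y ∈ Iio ρ
    · simp [hr, hy']
    · simp [hr]
  constructor
  · unfold tk
    rw [polar_int, integrableOn_congr_fun e measurableSet_Ioi]
    unfold IntegrableOn
    rw [integrable_indicator_iff measurableSet_Iio, IntegrableOn,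
      Measure.restrict_restrict measurableSet_Iio, inter_comm, Ioi_inter_Iio]
    exact integrable_const _
  · unfold tk
    rw [polar, setIntegral_congr_fun measurableSet_Ioi e, setIntegral_indicator measurableSet_Iio]
    simp [Ioi_inter_Iio, hρ.le]

/-- Splitting of an integral against the kernel `1 / |s - z|`. -/
theorem split_int (ω : ℂ → ℝ) (M : ℝ) (h0 : ∀ s, 0 ≤ ω s)
    (hM : ∀ s, ω s ≤ M) (hi : Integrable ω) (z : ℂ) (ρ : ℝ) (hρ : 0 < ρ) :
    Integrable (fun s => ω s / ‖s - z‖) ∧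
      ∫ s, ω s / ‖s - z‖ ≤ 2 * Real.pi * ρ * M + 1 / ρ * ∫ s, ω s := by
  have hM0 : 0 ≤ M := (h0 0).trans (hM 0)
  have htk := tk_int ρ hρ
  have hle : ∀ s, ω s / ‖s - z‖ ≤ M * tk ρ (s - z) + 1 / ρ * ω s := by
    intro s
    unfold tk
    by_cases hr : ‖s - z‖ < ρ
    · rw [indicator_of_mem (by exact hr)]
      have h1 : ω s / ‖s - z‖ ≤ M * (1 / ‖s - z‖) := by
        rw [mul_one_div]
        exact div_le_div_of_nonneg_right (hM s) (norm_nonneg _)
      have h2 : 0 ≤ 1 / ρ * ω s := mul_nonneg (by positivity) (h0 s)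
      linarith
    · rw [indicator_of_notMem (by exact hr), mul_zero, zero_add, one_div_mul_eq_div]
      exact div_le_div_of_nonneg_left (h0 s) hρ (not_lt.1 hr)
  have hint : Integrable (fun s => M * tk ρ (s - z) + 1 / ρ * ω s) :=
    ((htk.1.comp_sub_right z).const_mul M).add (hi.const_mul _)
  have hmeas : AEStronglyMeasurable (fun s => ω s / ‖s - z‖) := by
    refine hi.aestronglyMeasurable.mul (Measurable.aestronglyMeasurable ?_)
    fun_prop
  have hint2 : Integrable (fun s => ω s / ‖s - z‖) := by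
    refine hint.mono' hmeas (Eventually.of_forall fun s => ?_)
    rw [Real.norm_eq_abs, abs_of_nonneg (div_nonneg (h0 s) (norm_nonneg _))]
    exact hle s
  refine ⟨hint2, ?_⟩
  refine (integral_mono hint2 hint hle).trans (le_of_eq ?_)
  rw [integral_add ((htk.1.comp_sub_right z).const_mul M) (hi.const_mul _), integral_const_mul,
    integral_const_mul, integral_sub_right_eq_self (tk ρ) z, htk.2]
  ring

/-- Bounded weights supported in the disc of radius two. -/
theorem ker_disc (ω : ℂ → ℝ) (hm : AEStronglyMeasurable ω) (b : ℝ) (h0 : ∀ s, 0 ≤ ω s)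
    (hb : ∀ s, ω s ≤ b) (hs : ∀ s, 2 < ‖s‖ → ω s = 0) (z : ℂ) :
    Integrable ω ∧ ∫ s, ω s ≤ 4 * Real.pi * b ∧
    Integrable (fun s => ω s / ‖s - z‖) ∧ ∫ s, ω s / ‖s - z‖ ≤ 6 * Real.pi * b := by
  have hvol : (volume : Measure ℂ).real (Metric.closedBall 0 2) = 4 * Real.pi := by
    simp [Measure.real, Complex.volume_closedBall]
    norm_num
  have hg : Integrable ((Metric.closedBall (0 : ℂ) 2).indicator fun _ => b) := by
    rw [integrable_indicator_iff Metric.isClosed_closedBall.measurableSet]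
    exact integrableOn_const (by rw [Complex.volume_closedBall]; finiteness) (by finiteness)
  have hle : ∀ s, ω s ≤ (Metric.closedBall (0 : ℂ) 2).indicator (fun _ => b) s := by
    intro s
    by_cases h : s ∈ Metric.closedBall (0 : ℂ) 2
    · rw [indicator_of_mem h]
      exact hb s
    · rw [indicator_of_notMem h]
      refine (hs s ?_).le
      simpa using h
  have hi : Integrable ω := by
    refine hg.mono' hm (Eventually.of_forall fun s => ?_)
    rw [Real.norm_eq_abs, abs_of_nonneg (h0 s)]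
    exact hle s
  have hI : ∫ s, ω s ≤ 4 * Real.pi * b := by
    refine (integral_mono hi hg hle).trans (le_of_eq ?_)
    rw [integral_indicator Metric.isClosed_closedBall.measurableSet, setIntegral_const, hvol,
      smul_eq_mul]
  obtain ⟨h1, h2⟩ := split_int ω b h0 hb hi z 1 one_pos
  exact ⟨hi, hI, h1, by linarith⟩

/-- Moments of the weights near the origin. -/
theorem mom (a : ℝ) (ha : 0 ≤ a) (c : ℝ) (hc : 0 < c) :
    Integrable (fun s : ℂ => ‖s‖ ^ a * Real.exp (-(c * ‖s‖))) ∧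
    ∫ s : ℂ, ‖s‖ ^ a * Real.exp (-(c * ‖s‖)) =
      2 * Real.pi * ((1 / c) ^ (a + 2) * Real.Gamma (a + 2)) := by
  have e : EqOn (fun y : ℝ => y * (y ^ a * Real.exp (-(c * y))))
      (fun y : ℝ => y ^ (a + 2 - 1) * Real.exp (-(c * y))) (Ioi 0) := by
    intro y hy
    have hy' : (0 : ℝ) < y := hy
    have : a + 2 - 1 = 1 + a := by ring
    simp only [this, Real.rpow_add hy', Real.rpow_one, mul_assoc]
  constructor
  · rw [polar_int (fun y => y ^ a * Real.exp (-(c * y))), integrableOn_congr_fun e measurableSet_Ioi]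
    have h := integrableOn_rpow_mul_exp_neg_mul_rpow (p := 1) (s := a + 2 - 1) (b := c)
      (by linarith) one_pos hc
    simpa [neg_mul] using h
  · rw [polar (fun y => y ^ a * Real.exp (-(c * y))), setIntegral_congr_fun measurableSet_Ioi e,
      Real.integral_rpow_mul_exp_neg_mul_Ioi (by linarith) hc]

theorem sup_bd (a : ℝ) (ha : 0 ≤ a) (c : ℝ) (hc : 0 < c) :
    ∃ C : ℝ, 0 ≤ C ∧ ∀ t : ℝ, 0 ≤ t → t ^ a * Real.exp (-(c * t)) ≤ C := by
  obtain ⟨m, hm⟩ := exists_nat_ge a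
  refine ⟨1 + m.factorial / c ^ m, by positivity, fun t ht => ?_⟩
  have h1 : t ^ a ≤ 1 + t ^ m := by
    rcases le_total t 1 with h | h
    · have := Real.rpow_le_one ht h ha
      have h2 : 0 ≤ t ^ m := by positivity
      linarith
    · have h2 : t ^ a ≤ t ^ (m : ℝ) := Real.rpow_le_rpow_of_exponent_le h hm
      rw [Real.rpow_natCast] at h2
      linarith
  have h3 : (c * t) ^ m / m.factorial ≤ Real.exp (c * t) :=
    Real.pow_div_factorial_le_exp _ (by positivity) m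
  have h4 : t ^ m * Real.exp (-(c * t)) ≤ m.factorial / c ^ m := by
    rw [Real.exp_neg, ← div_eq_mul_inv, div_le_div_iff₀ (Real.exp_pos _) (by positivity)]
    rw [div_le_iff₀ (by positivity), mul_pow] at h3
    linarith
  have h5 : Real.exp (-(c * t)) ≤ 1 := by
    rw [Real.exp_le_one_iff]
    have : 0 ≤ c * t := by positivity
    linarith
  calc t ^ a * Real.exp (-(c * t)) ≤ (1 + t ^ m) * Real.exp (-(c * t)) :=
        mul_le_mul_of_nonneg_right h1 (Real.exp_nonneg _)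
    _ = Real.exp (-(c * t)) + t ^ m * Real.exp (-(c * t)) := by ring
    _ ≤ 1 + m.factorial / c ^ m := add_le_add h5 h4

/-- The weight near the origin. -/
noncomputable def wz (a c : ℝ) (n : ℕ) (s : ℂ) : ℝ := n * ‖s‖ ^ a * Real.exp (-(c * n * ‖s‖))

theorem wz_nonneg (a c : ℝ) (n : ℕ) (s : ℂ) : 0 ≤ wz a c n s := by
  unfold wz
  positivity

/-- Integral and kernel bound for the weight near the origin. -/
theorem ker_zero (a : ℝ) (ha : 0 ≤ a) (c : ℝ) (hc : 0 < c) :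
    ∃ C : ℝ, 0 ≤ C ∧ ∀ n : ℕ, 1 ≤ n →
      (∀ s, wz a c n s ≤ C * (n : ℝ) ^ (1 - a)) ∧
      Integrable (wz a c n) ∧ ∫ s, wz a c n s ≤ C * (n : ℝ) ^ (-a - 1) ∧
      ∀ z, Integrable (fun s => wz a c n s / ‖s - z‖) ∧
        ∫ s, wz a c n s / ‖s - z‖ ≤ C * (n : ℝ) ^ (-a) := by
  obtain ⟨C₁, hC₁, hsup⟩ := sup_bd a ha c hc
  set C₂ : ℝ := 2 * Real.pi * ((1 / c) ^ (a + 2) * Real.Gamma (a + 2)) with hC₂d
  have hC₂ : 0 ≤ C₂ := by
    have : 0 < Real.Gamma (a + 2) := Real.Gamma_pos_of_pos (by linarith)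
    positivity
  refine ⟨2 * Real.pi * C₁ + C₂ + C₁, by positivity, fun n hn => ?_⟩
  have hn0 : (0 : ℝ) < n := by exact_mod_cast hn
  have h1 : ∀ s, wz a c n s ≤ C₁ * (n : ℝ) ^ (1 - a) := by
    intro s
    have h2 := hsup (n * ‖s‖) (by positivity)
    rw [Real.mul_rpow hn0.le (norm_nonneg _)] at h2
    have h3 : (n : ℝ) ^ (1 - a) * (n : ℝ) ^ a = n := by
      rw [← Real.rpow_add hn0]
      simp
    calc wz a c n s = (n : ℝ) ^ (1 - a) * ((n : ℝ) ^ a * ‖s‖ ^ a *
          Real.exp (-(c * (n * ‖s‖)))) := by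
          unfold wz
          rw [← mul_assoc, ← mul_assoc, h3]
          congr 2
          ring_nf
      _ ≤ (n : ℝ) ^ (1 - a) * C₁ := mul_le_mul_of_nonneg_left h2 (by positivity)
      _ = C₁ * (n : ℝ) ^ (1 - a) := mul_comm _ _
  have hm := mom a ha (c * n) (by positivity)
  have e1 : wz a c n = fun s : ℂ => (n : ℝ) * (‖s‖ ^ a * Real.exp (-(c * n * ‖s‖))) := by
    funext s
    unfold wz
    ring
  have hi : Integrable (wz a c n) := by
    rw [e1]
    exact hm.1.const_mul _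
  have e2 : ∫ s, wz a c n s = C₂ * (n : ℝ) ^ (-a - 1) := by
    rw [e1, integral_const_mul, hm.2]
    have h3 : (1 / (c * (n : ℝ))) ^ (a + 2) = (1 / c) ^ (a + 2) * (n : ℝ) ^ (-(a + 2)) := by
      rw [one_div, mul_inv, Real.mul_rpow (by positivity) (by positivity), one_div,
        Real.rpow_neg hn0.le, Real.inv_rpow hn0.le]
    have h4 : (n : ℝ) * (n : ℝ) ^ (-(a + 2)) = (n : ℝ) ^ (-a - 1) := by
      nth_rewrite 1 [← Real.rpow_one (n : ℝ)]
      rw [← Real.rpow_add hn0]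
      congr 1
      ring
    rw [h3, hC₂d, ← h4]
    ring
  have hn1 : 0 < (n : ℝ) ^ (-a - 1) := Real.rpow_pos_of_pos hn0 _
  have hn2 : 0 < (n : ℝ) ^ (1 - a) := Real.rpow_pos_of_pos hn0 _
  have hn3 : 0 < (n : ℝ) ^ (-a) := Real.rpow_pos_of_pos hn0 _
  refine ⟨fun s => (h1 s).trans ?_, hi, ?_, fun z => ?_⟩
  · refine mul_le_mul_of_nonneg_right ?_ hn2.le
    have : 0 ≤ 2 * Real.pi * C₁ := by positivity
    linarith
  · rw [e2]
    refine mul_le_mul_of_nonneg_right ?_ hn1.le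
    have : 0 ≤ 2 * Real.pi * C₁ := by positivity
    linarith
  · obtain ⟨h5, h6⟩ := split_int (wz a c n) _ (wz_nonneg a c n) h1 hi z (1 / n) (by positivity)
    refine ⟨h5, h6.trans ?_⟩
    rw [e2]
    have h7 : 1 / (n : ℝ) * (n : ℝ) ^ (1 - a) = (n : ℝ) ^ (-a) := by
      rw [one_div, ← Real.rpow_neg_one, ← Real.rpow_add hn0]
      congr 1
      ring
    have h8 : 1 / (1 / (n : ℝ)) * (n : ℝ) ^ (-a - 1) = (n : ℝ) ^ (-a) := by
      rw [one_div_one_div]
      nth_rewrite 1 [← Real.rpow_one (n : ℝ)]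
      rw [← Real.rpow_add hn0]
      congr 1
      ring
    calc 2 * Real.pi * (1 / (n : ℝ)) * (C₁ * (n : ℝ) ^ (1 - a)) +
          1 / (1 / (n : ℝ)) * (C₂ * (n : ℝ) ^ (-a - 1))
        = 2 * Real.pi * C₁ * (1 / (n : ℝ) * (n : ℝ) ^ (1 - a)) +
          C₂ * (1 / (1 / (n : ℝ)) * (n : ℝ) ^ (-a - 1)) := by ring
      _ = (2 * Real.pi * C₁ + C₂) * (n : ℝ) ^ (-a) := by
          rw [h7, h8]
          ring
      _ ≤ (2 * Real.pi * C₁ + C₂ + C₁) * (n : ℝ) ^ (-a) := by
          refine mul_le_mul_of_nonneg_right ?_ hn3.le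
          linarith

/-- Kernel bound away from the origin: one more power of `n`. -/
theorem ker_zero_far (a : ℝ) (ha : 0 ≤ a) (c : ℝ) (hc : 0 < c) (r : ℝ) (hr : 0 < r) :
    ∃ C : ℝ, 0 ≤ C ∧ ∀ n : ℕ, 1 ≤ n → ∀ z : ℂ, r ≤ ‖z‖ →
        ∫ s, wz a c n s / ‖s - z‖ ≤ C * (n : ℝ) ^ (-a - 1) := by
  obtain ⟨C₁, hC₁, h1⟩ := ker_zero a ha c hc
  obtain ⟨C₂, hC₂, h2⟩ := ker_zero (a + 1) (by linarith) c hc
  refine ⟨(C₁ + C₂) / r, by positivity, fun n hn z hz => ?_⟩
  obtain ⟨-, g2, g3, g4⟩ := h1 n hn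
  obtain ⟨-, -, -, k4⟩ := h2 n hn
  obtain ⟨g5, -⟩ := g4 z
  obtain ⟨k5, k6⟩ := k4 z
  have hz0 : 0 < ‖z‖ := hr.trans_le hz
  have hle : ∀ s, s ≠ z → wz a c n s / ‖s - z‖ ≤
      1 / r * (wz a c n s + wz (a + 1) c n s / ‖s - z‖) := by
    intro s hs
    have hsz : 0 < ‖s - z‖ := norm_pos_iff.2 (sub_ne_zero.2 hs)
    have e : wz (a + 1) c n s = wz a c n s * ‖s‖ := by
      unfold wz
      rw [Real.rpow_add_one' (norm_nonneg _) (by linarith)]
      ring
    rw [e, one_div_mul_eq_div, div_le_div_iff₀ hsz hr, add_mul, div_mul_cancel₀ _ hsz.ne', ← mul_add]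
    refine mul_le_mul_of_nonneg_left ?_ (wz_nonneg a c n s)
    have : ‖z‖ ≤ ‖s - z‖ + ‖s‖ := by
      have h := norm_sub_le s (s - z)
      have e2 : s - (s - z) = z := by ring
      rw [e2] at h
      linarith
    linarith
  have hle' : (fun s => wz a c n s / ‖s - z‖) ≤ᵐ[volume]
      fun s => 1 / r * (wz a c n s + wz (a + 1) c n s / ‖s - z‖) := by
    have h0 : ∀ᵐ s : ℂ, s ≠ z := by
      rw [ae_iff]
      simp
    filter_upwards [h0] with s hs
    exact hle s hs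
  refine (integral_mono_ae g5 ((g2.add k5).const_mul _) hle').trans ?_
  have e3 : ∫ s, 1 / r * (wz a c n s + wz (a + 1) c n s / ‖s - z‖) =
      1 / r * ((∫ s, wz a c n s) + ∫ s, wz (a + 1) c n s / ‖s - z‖) := by
    rw [integral_const_mul, integral_add g2 k5]
  have e4 : (n : ℝ) ^ (-(a + 1)) = (n : ℝ) ^ (-a - 1) := by
    congr 1
    ring
  rw [e4] at k6
  simp only [Pi.add_apply]
  rw [e3]
  calc 1 / r * ((∫ s, wz a c n s) + ∫ s, wz (a + 1) c n s / ‖s - z‖)
      ≤ 1 / r * (C₁ * (n : ℝ) ^ (-a - 1) + C₂ * (n : ℝ) ^ (-a - 1)) :=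
        mul_le_mul_of_nonneg_left (add_le_add g3 k6) (by positivity)
    _ = (C₁ + C₂) / r * (n : ℝ) ^ (-a - 1) := by ring

/-- Kernel bound for `exp (-c |s|)`. -/
theorem ker_exp (c : ℝ) (hc : 0 < c) :
    ∃ C : ℝ, 0 ≤ C ∧ Integrable (fun s : ℂ => Real.exp (-(c * ‖s‖))) ∧
      ∫ s : ℂ, Real.exp (-(c * ‖s‖)) ≤ C ∧
      ∀ z : ℂ, Integrable (fun s : ℂ => Real.exp (-(c * ‖s‖)) / ‖s - z‖) ∧
        ∫ s : ℂ, Real.exp (-(c * ‖s‖)) / ‖s - z‖ ≤ C := by
  obtain ⟨C, hC, h⟩ := ker_zero 0 le_rfl c hc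
  obtain ⟨-, h2, h3, h4⟩ := h 1 le_rfl
  have e : wz 0 c 1 = fun s : ℂ => Real.exp (-(c * ‖s‖)) := by
    funext s
    simp [wz]
  rw [e] at h2
  simp only [e, Nat.cast_one, Real.one_rpow, mul_one] at h3 h4
  exact ⟨C, hC, h2, h3, h4⟩

end Pool.Agent.Freud.Ker
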