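import Pool.Agent.Freud.AsmDefs
import Pool.Agent.Freud.PertKer

/-!
Integrability and the behaviour at infinity of the Cauchy transform (FR-R3).
-/

set_option autoImplicit false

open MeasureTheory Filter Topology Asymptotics

namespace Pool.Agent.Freud

theorem integrable_exp_div (c : ℝ) (hc : 0 < c) (z : ℂ) :
    IntegrableOn (fun s : ℂ => Real.exp (-(c * ‖s‖)) / ‖s - z‖) UH := by
  obtain ⟨C, -, -, -, hC⟩ := Ker.ker_exp c hc
  exact (hC z).1.integrableOn

theorem KK_infinity (B : ℂ → ℂ) (hB : ContinuousOn B UH) (c C Y : ℝ) (hc : 0 < c)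
    (hbd : ∀ s ∈ UH, ‖B s‖ ≤ C * Real.exp (-(c * ‖s‖))) (hY : ∀ s ∈ UH, Y ≤ s.im → B s = 0) :
    Tendsto (fun y : ℝ => (y * Complex.I) * KS B (y * Complex.I)) atTop
      (𝓝 (((2 / Real.pi) * (∫ s in UH, B s).re : ℝ) : ℂ)) := by
  have hUH : MeasurableSet UH :=
    (isOpen_lt continuous_const Complex.continuous_im).measurableSet
  have hexp : Integrable (fun s : ℂ => Real.exp (-(c * ‖s‖))) := by
    have := (Ker.mom 0 le_rfl c hc).1
    simpa using this
  have hBm : AEStronglyMeasurable B (volume.restrict UH) := hB.aestronglyMeasurable hUH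
  have hBi : IntegrableOn B UH := by
    refine Integrable.mono' (hexp.const_mul C).integrableOn hBm ?_
    exact (ae_restrict_iff' hUH).2 (Eventually.of_forall hbd)
  set F : ℝ → ℂ → ℂ := fun y s => -((y * Complex.I) * (B s / (s - y * Complex.I) +
    starRingEnd ℂ (B s) / (starRingEnd ℂ s - y * Complex.I))) with hF
  have key : Tendsto (fun y : ℝ => ∫ s in UH, F y s) atTop
      (𝓝 (∫ s in UH, (B s + starRingEnd ℂ (B s)))) := by
    refine tendsto_integral_filter_of_dominated_convergence
      (fun s => 3 * (C * Real.exp (-(c * ‖s‖)))) ?_ ?_ ?_ ?_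
    · refine Eventually.of_forall fun y => ?_
      have m1 : AEStronglyMeasurable (fun s : ℂ => (s - y * Complex.I)⁻¹) (volume.restrict UH) :=
        (Measurable.inv (by fun_prop)).aestronglyMeasurable
      have m2 : AEStronglyMeasurable (fun s : ℂ => (starRingEnd ℂ s - y * Complex.I)⁻¹)
          (volume.restrict UH) :=
        (Measurable.inv ((Complex.continuous_conj.measurable).sub_const _)).aestronglyMeasurable
      have m3 : AEStronglyMeasurable (fun s : ℂ => starRingEnd ℂ (B s)) (volume.restrict UH) :=
        Complex.continuous_conj.comp_aestronglyMeasurable hBm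
      simp only [hF, div_eq_mul_inv]
      exact (((hBm.mul m1).add (m3.mul m2)).const_mul _).neg
    · filter_upwards [eventually_ge_atTop (max (2 * Y) 1)] with y hy
      have hy1 : 1 ≤ y := le_trans (le_max_right _ _) hy
      have hy2 : 2 * Y ≤ y := le_trans (le_max_left _ _) hy
      refine (ae_restrict_iff' hUH).2 (Eventually.of_forall fun s hs => ?_)
      have hs0 : 0 < s.im := hs
      have hyI : ‖(y : ℂ) * Complex.I‖ = y := by
        rw [norm_mul, Complex.norm_I, mul_one, Complex.norm_real, Real.norm_of_nonneg (by linarith)]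
      have hnn : 0 ≤ C * Real.exp (-(c * ‖s‖)) := (norm_nonneg _).trans (hbd s hs)
      by_cases hsY : Y ≤ s.im
      · simp only [hF, hY s hs hsY]
        simpa using hnn
      · have hsY' : s.im < Y := not_le.1 hsY
        have d1 : y / 2 ≤ ‖s - y * Complex.I‖ := by
          have := Complex.abs_im_le_norm (s - y * Complex.I)
          have e : (s - y * Complex.I).im = s.im - y := by simp
          rw [e, abs_of_neg (by linarith)] at this
          linarith
        have d2 : y ≤ ‖starRingEnd ℂ s - y * Complex.I‖ := by
          have := Complex.abs_im_le_norm (starRingEnd ℂ s - y * Complex.I)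
          have e : (starRingEnd ℂ s - y * Complex.I).im = -s.im - y := by simp
          rw [e, abs_of_neg (by linarith)] at this
          linarith
        have hb := hbd s hs
        simp only [hF, norm_neg, norm_mul (_ : ℂ) (_ + _), hyI]
        calc y * ‖B s / (s - y * Complex.I) +
            starRingEnd ℂ (B s) / (starRingEnd ℂ s - y * Complex.I)‖
            ≤ y * (‖B s‖ / ‖s - y * Complex.I‖ + ‖B s‖ / ‖starRingEnd ℂ s - y * Complex.I‖) := by
              refine mul_le_mul_of_nonneg_left ((norm_add_le _ _).trans ?_) (by linarith)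
              rw [norm_div, norm_div, RCLike.norm_conj]
          _ ≤ y * (‖B s‖ / (y / 2) + ‖B s‖ / y) := by
              refine mul_le_mul_of_nonneg_left (add_le_add ?_ ?_) (by linarith)
              · exact div_le_div_of_nonneg_left (norm_nonneg _) (by linarith) d1
              · exact div_le_div_of_nonneg_left (norm_nonneg _) (by linarith) d2
          _ = 3 * ‖B s‖ := by
              field_simp
              ring
          _ ≤ 3 * (C * Real.exp (-(c * ‖s‖))) := by linarith
    · exact ((hexp.const_mul C).const_mul 3).integrableOn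
    · refine Eventually.of_forall fun s => ?_
      have t0 : Tendsto (fun y : ℝ => ((y : ℂ) * Complex.I)⁻¹) atTop (𝓝 0) := by
        have h1 : Tendsto (fun y : ℝ => ‖((y : ℂ) * Complex.I)‖) atTop atTop := by
          refine (tendsto_abs_atTop_atTop).congr fun y => ?_
          rw [norm_mul, Complex.norm_I, mul_one, Complex.norm_real, Real.norm_eq_abs]
        exact tendsto_inv₀_cobounded.comp (tendsto_norm_atTop_iff_cobounded.1 h1)
      have t1 : ∀ (b w : ℂ), Tendsto (fun y : ℝ => -((y : ℂ) * Complex.I * (b / (w - y * Complex.I))))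
          atTop (𝓝 b) := by
        intro b w
        have h2 : Tendsto (fun y : ℝ => b / (1 - w * ((y : ℂ) * Complex.I)⁻¹)) atTop
            (𝓝 (b / (1 - w * 0))) := by
          refine Tendsto.div tendsto_const_nhds (tendsto_const_nhds.sub (t0.const_mul w)) ?_
          simp
        rw [mul_zero, sub_zero, div_one] at h2
        refine h2.congr' ?_
        filter_upwards [eventually_gt_atTop (0 : ℝ)] with y hy
        have hy0 : (y : ℂ) * Complex.I ≠ 0 := by
          simp [hy.ne']
        by_cases hw : w - y * Complex.I = 0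
        · have : 1 - w * ((y : ℂ) * Complex.I)⁻¹ = 0 := by
            rw [sub_eq_zero.1 hw, mul_inv_cancel₀ hy0, sub_self]
          rw [this, hw]
          simp
        · have h3 : 1 - w * ((y : ℂ) * Complex.I)⁻¹ = -((w - y * Complex.I) * ((y : ℂ) * Complex.I)⁻¹) := by
            rw [sub_mul, mul_inv_cancel₀ hy0]
            ring
          rw [h3]
          field_simp
      have h4 := (t1 (B s) s).add (t1 (starRingEnd ℂ (B s)) (starRingEnd ℂ s))
      refine h4.congr fun y => ?_
      simp only [hF]
      ring
  have e1 : ∀ y : ℝ, (y * Complex.I) * KS B (y * Complex.I) =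
      (1 / (Real.pi : ℂ)) * ∫ s in UH, F y s := by
    intro y
    simp only [hF, KS]
    rw [integral_neg, integral_const_mul]
    ring
  have e2 : (((2 / Real.pi) * (∫ s in UH, B s).re : ℝ) : ℂ) =
      (1 / (Real.pi : ℂ)) * ∫ s in UH, (B s + starRingEnd ℂ (B s)) := by
    have h5 : ∫ s in UH, (B s + starRingEnd ℂ (B s)) = (∫ s in UH, B s) +
        starRingEnd ℂ (∫ s in UH, B s) := by
      rw [integral_add hBi, integral_conj]
      exact (LinearIsometryEquiv.integrable_comp_iff Complex.conjLIE).2 hBi
    rw [h5, Complex.add_conj]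
    push_cast
    ring
  rw [e2]
  simp only [e1]
  exact key.const_mul _

end Pool.Agent.Freud
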