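import Pool.Agent.Freud.Defs

/-!
# The Cauchy-Pompeiu formula on the upper half plane with reflection
-/

set_option autoImplicit false

open MeasureTheory Filter Topology

namespace Pool.Agent.Freud

namespace Pompeiu

/-- The regularised Cauchy kernel. -/
noncomputable def ker (δ : ℝ) (c s : ℂ) : ℂ :=
  starRingEnd ℂ (s - c) / ((s - c) * starRingEnd ℂ (s - c) + δ)

/-- The dbar derivative of the regularised Cauchy kernel. -/
noncomputable def bker (δ : ℝ) (c s : ℂ) : ℂ :=
  δ / ((s - c) * starRingEnd ℂ (s - c) + δ) ^ 2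

theorem den_eq (δ : ℝ) (c s : ℂ) :
    (s - c) * starRingEnd ℂ (s - c) + δ = ((‖s - c‖ ^ 2 + δ : ℝ) : ℂ) := by
  rw [Complex.mul_conj, Complex.normSq_eq_norm_sq]
  push_cast
  ring

theorem den_ne {δ : ℝ} (hδ : 0 < δ) (c s : ℂ) : (s - c) * starRingEnd ℂ (s - c) + δ ≠ 0 := by
  rw [den_eq]
  exact_mod_cast (by positivity : ‖s - c‖ ^ 2 + δ ≠ 0)

theorem norm_ker {δ : ℝ} (hδ : 0 < δ) (c s : ℂ) : ‖ker δ c s‖ = ‖s - c‖ / (‖s - c‖ ^ 2 + δ) := by
  unfold ker
  rw [den_eq, norm_div, Complex.norm_conj, Complex.norm_real, Real.norm_of_nonneg (by positivity)]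

theorem norm_bker {δ : ℝ} (hδ : 0 < δ) (c s : ℂ) :
    ‖bker δ c s‖ = δ / (‖s - c‖ ^ 2 + δ) ^ 2 := by
  unfold bker
  rw [den_eq, norm_div, norm_pow, Complex.norm_real, Complex.norm_real,
    Real.norm_of_nonneg (by positivity), Real.norm_of_nonneg (by positivity)]

theorem norm_ker_le {δ : ℝ} (hδ : 0 < δ) (c s : ℂ) : ‖ker δ c s‖ ≤ 1 / ‖s - c‖ := by
  rw [norm_ker hδ]
  by_cases h : ‖s - c‖ = 0
  · rw [h]; simp
  · have h' : 0 < ‖s - c‖ := lt_of_le_of_ne (norm_nonneg _) (Ne.symm h)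
    rw [div_le_div_iff₀ (by positivity) h']
    nlinarith

theorem norm_ker_le' {δ : ℝ} (hδ : 0 < δ) (c s : ℂ) : ‖ker δ c s‖ ≤ 1 + 1 / δ := by
  rw [norm_ker hδ, div_le_iff₀ (by positivity)]
  have h1 : (1 + 1 / δ) * (‖s - c‖ ^ 2 + δ) = ‖s - c‖ ^ 2 + δ + ‖s - c‖ ^ 2 / δ + 1 := by
    field_simp
    ring
  rw [h1]
  have h2 : 0 ≤ ‖s - c‖ ^ 2 / δ := by positivity
  nlinarith [sq_nonneg (‖s - c‖ - 1)]

theorem continuous_ker {δ : ℝ} (hδ : 0 < δ) (c : ℂ) : Continuous (ker δ c) := by
  unfold ker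
  exact Continuous.div (by fun_prop) (by fun_prop) (fun s => den_ne hδ c s)

theorem continuous_bker {δ : ℝ} (hδ : 0 < δ) (c : ℂ) : Continuous (bker δ c) := by
  unfold bker
  exact Continuous.div (by fun_prop) (by fun_prop) (fun s => pow_ne_zero 2 (den_ne hδ c s))

theorem conj_ker (δ : ℝ) (c s : ℂ) :
    starRingEnd ℂ (ker δ (starRingEnd ℂ c) s) = ker δ c (starRingEnd ℂ s) := by
  unfold ker
  simp only [map_div₀, map_sub, map_add, map_mul, Complex.conj_conj, Complex.conj_ofReal]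

theorem dbar_mul {f g : ℂ → ℂ} {b c z : ℂ} (hf : HasDbar f b z) (hg : HasDbar g c z) :
    HasDbar (fun w => f w * g w) (b * g z + f z * c) z := by
  obtain ⟨L, hL, hL'⟩ := hf
  obtain ⟨M, hM, hM'⟩ := hg
  refine ⟨f z • M + g z • L, hL.mul hM, ?_⟩
  simp only [add_apply, smul_apply, smul_eq_mul]
  linear_combination f z * hM' + g z * hL'

theorem dbar_ker {δ : ℝ} (hδ : 0 < δ) (c s : ℂ) : HasDbar (ker δ c) (bker δ c s) s := by
  have h1 : HasFDerivAt (fun w : ℂ => w - c) (ContinuousLinearMap.id ℝ ℂ) s :=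
    (hasFDerivAt_id s).sub_const c
  have h2 : HasFDerivAt (fun w : ℂ => starRingEnd ℂ (w - c))
      ((Complex.conjCLE : ℂ →L[ℝ] ℂ).comp (ContinuousLinearMap.id ℝ ℂ)) s :=
    (Complex.conjCLE : ℂ →L[ℝ] ℂ).hasFDerivAt.comp s h1
  have h3 := (h1.mul h2).add_const (δ : ℂ)
  have h4 := (hasDerivAt_inv (den_ne hδ c s)).comp_hasFDerivAt s h3
  have h5 := h2.mul h4
  refine ⟨_, h5.congr_of_eventuallyEq (Eventually.of_forall fun w => ?_), ?_⟩
  · simp only [ker, Function.comp, Pi.mul_apply, div_eq_mul_inv]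
  · have hne := den_ne hδ c s
    simp only [add_apply, smul_apply, smul_eq_mul,
      ContinuousLinearMap.comp_apply, ContinuousLinearMap.id_apply, ContinuousLinearEquiv.coe_coe,
      Complex.conjCLE_apply, map_one, Complex.conj_I, bker, Function.comp, Pi.mul_apply]
    field_simp
    ring_nf
    rw [Complex.I_sq]
    ring

theorem continuousOn_of_dbar {F b : ℂ → ℂ} (hF : ∀ s ∈ UH, HasDbar F (b s) s) :
    ContinuousOn F UH := by
  intro s hs
  obtain ⟨L, hL, -⟩ := hF s hs
  exact hL.continuousAt.continuousWithinAt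

theorem isOpen_UH : IsOpen UH := isOpen_lt continuous_const Complex.continuous_im

/-- A closed rectangle. -/
def rect (X ε Y : ℝ) : Set ℂ := Set.Icc (-X) X ×ℂ Set.Icc ε Y

theorem rect_subset {X ε Y : ℝ} (hε : 0 < ε) : rect X ε Y ⊆ UH := by
  intro s hs
  rw [rect, Complex.mem_reProdIm] at hs
  exact lt_of_lt_of_le hε hs.2.1

theorem isCompact_rect (X ε Y : ℝ) : IsCompact (rect X ε Y) := isCompact_Icc.reProdIm isCompact_Icc

theorem setIntegral_rect (g : ℂ → ℂ) (X ε Y : ℝ) (hX : 0 ≤ X) (hY : ε ≤ Y)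
    (hg : IntegrableOn g (rect X ε Y)) :
    ∫ s in rect X ε Y, g s = ∫ x : ℝ in (-X)..X, ∫ y : ℝ in ε..Y, g (x + y * Complex.I) := by
  have h1 := (Complex.volume_preserving_equiv_real_prod.symm
    Complex.measurableEquivRealProd).setIntegral_preimage_emb
      Complex.measurableEquivRealProd.symm.measurableEmbedding g (rect X ε Y)
  rw [← h1]
  have h2 : Complex.measurableEquivRealProd.symm ⁻¹' (rect X ε Y) =
      Set.Icc (-X) X ×ˢ Set.Icc ε Y := by
    ext p
    simp only [rect, Set.mem_preimage, Complex.mem_reProdIm,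
      Complex.measurableEquivRealProd_symm_apply, Set.mem_prod]
  rw [h2]
  have h3 : IntegrableOn (fun p : ℝ × ℝ => g (Complex.measurableEquivRealProd.symm p))
      (Set.Icc (-X) X ×ˢ Set.Icc ε Y) := by
    rw [← h2]
    exact ((Complex.volume_preserving_equiv_real_prod.symm
      Complex.measurableEquivRealProd).integrableOn_comp_preimage
      Complex.measurableEquivRealProd.symm.measurableEmbedding).mpr hg
  rw [Measure.volume_eq_prod, setIntegral_prod _ h3]
  rw [intervalIntegral.integral_of_le (by linarith), ← integral_Icc_eq_integral_Ioc]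
  refine setIntegral_congr_fun measurableSet_Icc (fun x _ => ?_)
  rw [intervalIntegral.integral_of_le hY, ← integral_Icc_eq_integral_Ioc]
  refine setIntegral_congr_fun measurableSet_Icc (fun y _ => ?_)
  simp only [Complex.measurableEquivRealProd_symm_apply]
  congr 1
  apply Complex.ext <;> simp

/-! ### The approximate identity -/

theorem phi_integral : ∫ u : ℂ, ((1 + ‖u‖ ^ 2) ^ 2)⁻¹ = Real.pi := by
  have h1 := MeasureTheory.integral_fun_norm_addHaar (volume : Measure ℂ)
    (fun x : ℝ => ((1 + x ^ 2) ^ 2)⁻¹)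
  rw [h1]
  simp only [Complex.finrank_real_complex, Measure.real, Complex.volume_ball, nsmul_eq_mul,
    smul_eq_mul]
  have h2 : ∫ y in Set.Ioi (0 : ℝ), y ^ (2 - 1) * ((1 + y ^ 2) ^ 2)⁻¹ = 1 / 2 := by
    have h3 := integral_Ioi_of_hasDerivAt_of_nonneg' (a := (0 : ℝ))
      (g := fun y => -(1 / 2) * (1 + y ^ 2)⁻¹)
      (g' := fun y => y ^ (2 - 1) * ((1 + y ^ 2) ^ 2)⁻¹) (l := 0) ?_ ?_ ?_
    · rw [h3]; norm_num
    · intro y _
      have h5 : (1 + y ^ 2) ≠ 0 := by positivity
      have h4 : HasDerivAt (fun y : ℝ => -(1 / 2) * (1 + y ^ 2)⁻¹)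
        (-(1 / 2) * (-((2 : ℕ) * y ^ (2 - 1) * 1) / (1 + y ^ 2) ^ 2)) y :=
        ((((hasDerivAt_id y).pow 2).const_add 1).inv h5).const_mul (-(1 / 2) : ℝ)
      refine h4.congr_deriv ?_
      push_cast
      field_simp
    · intro y hy
      have : (0 : ℝ) < y := hy
      positivity
    · have h6 : Tendsto (fun y : ℝ => (1 + y ^ 2)) atTop atTop :=
        tendsto_atTop_add_const_left _ _ (tendsto_pow_atTop (by norm_num))
      have := (tendsto_inv_atTop_zero.comp h6).const_mul (-(1 / 2) : ℝ)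
      simpa using this
  rw [h2]
  simp
  ring

theorem phi_integrable : Integrable (fun u : ℂ => ((1 + ‖u‖ ^ 2) ^ 2)⁻¹) := by
  have h := integrable_rpow_neg_one_add_norm_sq (E := ℂ) (μ := volume) (r := 4)
    (by norm_num [Complex.finrank_real_complex])
  refine h.congr (Eventually.of_forall fun u => ?_)
  simp only
  rw [show (-4 / 2 : ℝ) = -((2 : ℕ) : ℝ) by norm_num, Real.rpow_neg (by positivity),
    Real.rpow_natCast]

theorem bker_eq {t : ℝ} (ht : 0 < t) (c s : ℂ) : bker (t⁻¹ ^ 2) c s =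
    (((t ^ 2 * ((1 + ‖t • (s - c)‖ ^ 2) ^ 2)⁻¹ : ℝ)) : ℂ) := by
  unfold bker
  rw [den_eq, norm_smul, Real.norm_of_nonneg ht.le]
  norm_cast
  field_simp
  ring

theorem bker_integrable {t : ℝ} (ht : 0 < t) (c : ℂ) :
    Integrable (fun s => bker (t⁻¹ ^ 2) c s) := by
  have h1 : Integrable (fun s : ℂ => t ^ 2 * ((1 + ‖t • (s - c)‖ ^ 2) ^ 2)⁻¹) := by
    refine Integrable.const_mul ?_ _
    have h2 := (phi_integrable.comp_smul ht.ne').comp_sub_right c
    exact h2
  refine (h1.ofReal (𝕜 := ℂ)).congr (Eventually.of_forall fun s => ?_)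
  simp only
  rw [bker_eq ht]
  rfl

theorem peak {g : ℂ → ℂ} (hg : Measurable g) {C : ℝ} (hC : ∀ s, ‖g s‖ ≤ C) {c : ℂ}
    (hc : ContinuousAt g c) :
    Tendsto (fun n : ℕ => ∫ s, g s * bker (((n : ℝ) + 1)⁻¹ ^ 2) c s) atTop
      (𝓝 (g c * Real.pi)) := by
  have h1 : ∀ n : ℕ, ∫ s, g s * bker (((n : ℝ) + 1)⁻¹ ^ 2) c s =
      ∫ u : ℂ, g (c + ((n : ℝ) + 1)⁻¹ • u) * (((1 + ‖u‖ ^ 2) ^ 2)⁻¹ : ℝ) := by
    intro n
    have ht : (0 : ℝ) < (n : ℝ) + 1 := by positivity
    set t : ℝ := (n : ℝ) + 1 with htdef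
    have e1 : ∫ s, g s * bker (t⁻¹ ^ 2) c s =
        ∫ w, g (w + c) * (((t ^ 2 * ((1 + ‖t • w‖ ^ 2) ^ 2)⁻¹ : ℝ)) : ℂ) := by
      rw [← integral_add_right_eq_self _ c]
      refine integral_congr_ae (Eventually.of_forall fun w => ?_)
      simp only
      rw [bker_eq ht, add_sub_cancel_right]
    rw [e1]
    have e2 := Measure.integral_comp_smul (volume : Measure ℂ)
      (fun u : ℂ => g (c + t⁻¹ • u) * (((1 + ‖u‖ ^ 2) ^ 2)⁻¹ : ℝ)) t
    rw [Complex.finrank_real_complex] at e2
    have e3 : ∫ u : ℂ, g (c + t⁻¹ • u) * (((1 + ‖u‖ ^ 2) ^ 2)⁻¹ : ℝ) =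
        (t ^ 2) • ∫ x : ℂ, g (c + t⁻¹ • (t • x)) * (((1 + ‖t • x‖ ^ 2) ^ 2)⁻¹ : ℝ) := by
      rw [e2, abs_of_pos (by positivity), smul_smul, mul_inv_cancel₀ (by positivity), one_smul]
    rw [e3, ← integral_smul]
    refine integral_congr_ae (Eventually.of_forall fun w => ?_)
    simp only
    rw [smul_smul, inv_mul_cancel₀ ht.ne', one_smul, add_comm c w, Complex.real_smul (x := t ^ 2)]
    push_cast
    ring
  simp_rw [h1]
  have h2 : g c * Real.pi = ∫ u : ℂ, g c * (((1 + ‖u‖ ^ 2) ^ 2)⁻¹ : ℝ) := by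
    rw [integral_const_mul, integral_complex_ofReal, phi_integral]
  rw [h2]
  refine tendsto_integral_of_dominated_convergence (fun u => C * ((1 + ‖u‖ ^ 2) ^ 2)⁻¹) ?_
    (phi_integrable.const_mul C) ?_ ?_
  · intro n
    refine ((hg.comp (by fun_prop)).mul ?_).aestronglyMeasurable
    exact Complex.measurable_ofReal.comp (by fun_prop)
  · intro n
    refine Eventually.of_forall fun u => ?_
    rw [norm_mul, Complex.norm_real, Real.norm_of_nonneg (by positivity)]
    exact mul_le_mul_of_nonneg_right (hC _) (by positivity)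
  · refine Eventually.of_forall fun u => ?_
    refine Tendsto.mul_const _ ?_
    refine hc.tendsto.comp ?_
    have h3 : Tendsto (fun n : ℕ => ((n : ℝ) + 1)⁻¹) atTop (𝓝 0) :=
      tendsto_inv_atTop_zero.comp
        (tendsto_atTop_add_const_right _ _ tendsto_natCast_atTop_atTop)
    have h4 := (h3.smul_const u).const_add c
    simpa using h4

/-! ### Green's formula -/

/-- Green's formula on a rectangle. -/
theorem green {F b : ℂ → ℂ} (hF : ∀ s ∈ UH, HasDbar F (b s) s) (hb : ContinuousOn b UH)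
    {X ε Y : ℝ} (hX : 0 < X) (hε : 0 < ε) (hY : ε ≤ Y) :
    (∫ x : ℝ in (-X)..X, F (x + ε * Complex.I)) - (∫ x : ℝ in (-X)..X, F (x + Y * Complex.I)) +
      Complex.I * (∫ y : ℝ in ε..Y, F (X + y * Complex.I)) -
      Complex.I * (∫ y : ℝ in ε..Y, F (-X + y * Complex.I)) =
      2 * Complex.I * ∫ s in rect X ε Y, b s := by
  have hc := continuousOn_of_dbar hF
  choose! L hL hL' using hF
  have hr : (Set.uIcc (-X) X ×ℂ Set.uIcc ε Y) = rect X ε Y := by
    rw [rect, Set.uIcc_of_le (by linarith), Set.uIcc_of_le hY]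
  have hval : ∀ s ∈ rect X ε Y, Complex.I • L s 1 - L s Complex.I = 2 * Complex.I * b s := by
    intro s hs
    have h1 := hL' s (rect_subset hε hs)
    rw [smul_eq_mul]
    linear_combination Complex.I * h1 - L s Complex.I * Complex.I_mul_I
  have hi : IntegrableOn (fun s => 2 * Complex.I * b s) (rect X ε Y) :=
    ((hb.mono (rect_subset hε)).const_smul (2 * Complex.I)).integrableOn_compact
      (isCompact_rect X ε Y)
  have hi' : IntegrableOn (fun s => Complex.I • L s 1 - L s Complex.I) (rect X ε Y) :=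
    hi.congr_fun (fun s hs => (hval s hs).symm) (isCompact_rect X ε Y).measurableSet
  have key := Complex.integral_boundary_rect_of_hasFDerivAt_real_off_countable F L
    (⟨-X, ε⟩ : ℂ) ⟨X, Y⟩ ∅ Set.countable_empty (by
      rw [hr]; exact hc.mono (rect_subset hε)) (by
      rintro s ⟨hs, -⟩
      refine hL s ?_
      rw [Complex.mem_reProdIm] at hs
      simp only [min_eq_left hY] at hs
      exact lt_trans hε hs.2.1) (by rw [hr]; exact hi')
  simp only [smul_eq_mul] at key
  push_cast at key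
  rw [key]
  simp only [smul_eq_mul] at hval hi'
  rw [← setIntegral_rect (fun s => Complex.I * L s 1 - L s Complex.I) X ε Y hX.le hY hi',
    setIntegral_congr_fun (isCompact_rect X ε Y).measurableSet hval, integral_const_mul]

/-! ### The sides of the rectangle -/

/-- The lower side. -/
noncomputable def low (F : ℂ → ℂ) (X ε : ℝ) : ℂ := ∫ x : ℝ in (-X)..X, F (x + ε * Complex.I)

/-- The other sides. -/
noncomputable def outer (F : ℂ → ℂ) (X ε Y : ℝ) : ℂ :=
  -(∫ x : ℝ in (-X)..X, F (x + Y * Complex.I)) +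
      Complex.I * (∫ y : ℝ in ε..Y, F (X + y * Complex.I)) -
      Complex.I * (∫ y : ℝ in ε..Y, F (-X + y * Complex.I))

theorem green' {F b : ℂ → ℂ} (hF : ∀ s ∈ UH, HasDbar F (b s) s) (hb : ContinuousOn b UH)
    {X ε Y : ℝ} (hX : 0 < X) (hε : 0 < ε) (hY : ε ≤ Y) :
    low F X ε + outer F X ε Y = 2 * Complex.I * ∫ s in rect X ε Y, b s := by
  rw [← green hF hb hX hε hY, low, outer]
  ring

theorem norm_outer_le {F : ℂ → ℂ} {X ε : ℝ} (hX : 0 < X) (hε : 0 < ε) (hY : ε ≤ X) {m : ℝ}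
    (hm : 0 ≤ m) (hF : ∀ s ∈ UH, X ≤ ‖s‖ → ‖F s‖ ≤ m) : ‖outer F X ε X‖ ≤ 4 * X * m := by
  have h1 : ‖∫ x : ℝ in (-X)..X, F (x + X * Complex.I)‖ ≤ m * |X - -X| := by
    refine intervalIntegral.norm_integral_le_of_norm_le_const (fun x _ => hF _ ?_ ?_)
    · simp [UH, hX]
    · have := Complex.abs_im_le_norm (x + X * Complex.I)
      simp only [Complex.add_im, Complex.ofReal_im, Complex.mul_im, Complex.ofReal_re,
        Complex.I_im, mul_one, Complex.I_re, mul_zero, add_zero, zero_add] at this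
      rwa [abs_of_pos hX] at this
  have h2 : ∀ a : ℝ, |a| = X → ‖∫ y : ℝ in ε..X, F (a + y * Complex.I)‖ ≤ m * |X - ε| := by
    intro a ha
    refine intervalIntegral.norm_integral_le_of_norm_le_const (fun y hy => hF _ ?_ ?_)
    · rw [Set.uIoc_of_le hY] at hy
      simp only [UH, Set.mem_ofPred_eq, Complex.add_im, Complex.ofReal_im, Complex.mul_im,
        Complex.ofReal_re, Complex.I_im, mul_one, Complex.I_re, mul_zero, add_zero, zero_add]
      exact hε.trans hy.1
    · have := Complex.abs_re_le_norm (a + y * Complex.I)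
      simp only [Complex.add_re, Complex.ofReal_re, Complex.mul_re, Complex.ofReal_im,
        Complex.I_im, mul_one, Complex.I_re, mul_zero, sub_zero, add_zero] at this
      rwa [ha] at this
  have h3 := h2 X (abs_of_pos hX)
  have h4 := h2 (-X) (by rw [abs_neg, abs_of_pos hX])
  push_cast at h4
  have h5 : |X - -X| = 2 * X := by rw [abs_of_pos (by linarith)]; ring
  have h6 : |X - ε| ≤ X := by rw [abs_of_nonneg (by linarith)]; linarith
  rw [outer]
  calc _ ≤ ‖-(∫ x : ℝ in (-X)..X, F (x + X * Complex.I)) +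
      Complex.I * (∫ y : ℝ in ε..X, F (X + y * Complex.I))‖ +
      ‖Complex.I * (∫ y : ℝ in ε..X, F (-X + y * Complex.I))‖ := norm_sub_le _ _
    _ ≤ (‖-(∫ x : ℝ in (-X)..X, F (x + X * Complex.I))‖ +
      ‖Complex.I * (∫ y : ℝ in ε..X, F (X + y * Complex.I))‖) +
      ‖Complex.I * (∫ y : ℝ in ε..X, F (-X + y * Complex.I))‖ := by
        gcongr
        exact norm_add_le _ _
    _ ≤ (m * (2 * X) + m * X) + m * X := by
        rw [norm_neg, norm_mul, norm_mul, Complex.norm_I, one_mul, one_mul]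
        rw [h5] at h1
        gcongr
        · exact h3.trans (by gcongr)
        · exact h4.trans (by gcongr)
    _ = 4 * X * m := by ring

theorem conj_intervalIntegral (F : ℝ → ℂ) (a b : ℝ) :
    starRingEnd ℂ (∫ x in a..b, F x) = ∫ x in a..b, starRingEnd ℂ (F x) := by
  unfold intervalIntegral
  rw [map_sub, ← integral_conj, ← integral_conj]

/-- The lower sides cancel in the limit. -/
theorem low_tendsto {f : ℂ → ℂ} (hf : ContinuousOn f UH) {C : ℝ} (hC : ∀ z ∈ UH, ‖f z‖ ≤ C)
    (hbdry : ∀ᵐ x : ℝ, Tendsto (fun ε : ℝ => (f (x + ε * Complex.I)).im) (𝓝[>] 0) (𝓝 0))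
    {δ : ℝ} (hδ : 0 < δ) (c : ℂ) (X : ℝ) :
    Tendsto (fun ε : ℝ => low (fun s => f s * ker δ c s) X ε -
      starRingEnd ℂ (low (fun s => f s * ker δ (starRingEnd ℂ c) s) X ε)) (𝓝[>] 0) (𝓝 0) := by
  have hmem : ∀ ε : ℝ, 0 < ε → ∀ x : ℝ, ((x : ℂ) + ε * Complex.I) ∈ UH := by
    intro ε hε x
    simp [UH, hε]
  have hcont : ∀ ε : ℝ, 0 < ε → Continuous (fun x : ℝ => f (x + ε * Complex.I)) := by
    intro ε hε
    exact hf.comp_continuous (by fun_prop) (hmem ε hε)
  have hk := continuous_ker hδ c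
  have hk' := continuous_ker hδ (starRingEnd ℂ c)
  have heq : ∀ᶠ ε : ℝ in 𝓝[>] 0, low (fun s => f s * ker δ c s) X ε -
      starRingEnd ℂ (low (fun s => f s * ker δ (starRingEnd ℂ c) s) X ε) =
      ∫ x : ℝ in (-X)..X, (2 * Complex.I * ((f (x + ε * Complex.I)).im : ℂ) *
        ker δ c (x + ε * Complex.I) + starRingEnd ℂ (f (x + ε * Complex.I)) *
        (ker δ c (x + ε * Complex.I) - ker δ c (x + (-ε : ℝ) * Complex.I))) := by
    filter_upwards [self_mem_nhdsWithin] with ε hε
    have hε' : 0 < ε := hε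
    rw [low, low, conj_intervalIntegral, ← intervalIntegral.integral_sub]
    · refine intervalIntegral.integral_congr (fun x _ => ?_)
      simp only [map_mul]
      have e1 : starRingEnd ℂ ((x : ℂ) + ε * Complex.I) = x + (-ε : ℝ) * Complex.I := by
        simp
      rw [conj_ker, e1]
      have e2 : 2 * Complex.I * ((f (x + ε * Complex.I)).im : ℂ) =
          f (x + ε * Complex.I) - starRingEnd ℂ (f (x + ε * Complex.I)) := by
        rw [Complex.sub_conj]
        push_cast
        ring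
      rw [e2]
      ring
    · apply Continuous.intervalIntegrable
      exact (hcont ε hε').mul (hk.comp (by fun_prop))
    · apply Continuous.intervalIntegrable
      exact Complex.continuous_conj.comp ((hcont ε hε').mul (hk'.comp (by fun_prop)))
  refine (tendsto_congr' heq).mpr ?_
  have hC0 : 0 ≤ C := (norm_nonneg _).trans (hC Complex.I (by simp [UH]))
  have hlim : (0 : ℂ) = ∫ x : ℝ in (-X)..X, (0 : ℂ) := by simp
  rw [hlim]
  refine intervalIntegral.tendsto_integral_filter_of_dominated_convergence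
    (fun _ => 2 * C * (1 + 1 / δ) + C * ((1 + 1 / δ) + (1 + 1 / δ))) ?_ ?_ ?_ ?_
  · filter_upwards [self_mem_nhdsWithin] with ε hε
    have hε' : 0 < ε := hε
    refine Continuous.aestronglyMeasurable ?_
    have c1 := hcont ε hε'
    have c2 : Continuous (fun x : ℝ => ker δ c (x + ε * Complex.I)) := hk.comp (by fun_prop)
    have c3 : Continuous (fun x : ℝ => ker δ c (x + (-ε : ℝ) * Complex.I)) :=
      hk.comp (by fun_prop)
    have c4 : Continuous (fun x : ℝ => (((f (x + ε * Complex.I)).im : ℝ) : ℂ)) :=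
      Complex.continuous_ofReal.comp (Complex.continuous_im.comp c1)
    have c5 : Continuous (fun x : ℝ => starRingEnd ℂ (f (x + ε * Complex.I))) :=
      Complex.continuous_conj.comp c1
    exact ((continuous_const.mul c4).mul c2).add (c5.mul (c2.sub c3))
  · filter_upwards [self_mem_nhdsWithin] with ε hε
    have hε' : 0 < ε := hε
    refine Eventually.of_forall fun x _ => ?_
    have b1 := hC _ (hmem ε hε' x)
    have b2 := norm_ker_le' hδ c (x + ε * Complex.I)
    have b3 := norm_ker_le' hδ c (x + (-ε : ℝ) * Complex.I)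
    have b4 : ‖(((f (x + ε * Complex.I)).im : ℝ) : ℂ)‖ ≤ C := by
      rw [Complex.norm_real, Real.norm_eq_abs]
      exact (Complex.abs_im_le_norm _).trans b1
    refine (norm_add_le _ _).trans (add_le_add ?_ ?_)
    · rw [norm_mul, norm_mul, norm_mul, Complex.norm_I, Complex.norm_ofNat, mul_one]
      gcongr
    · rw [norm_mul, Complex.norm_conj]
      exact mul_le_mul b1 ((norm_sub_le _ _).trans (add_le_add b2 b3)) (norm_nonneg _) hC0
  · exact intervalIntegrable_const
  · filter_upwards [hbdry] with x hx _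
    have t1 : Tendsto (fun ε : ℝ => (((f (x + ε * Complex.I)).im : ℝ) : ℂ)) (𝓝[>] 0) (𝓝 0) := by
      have := (Complex.continuous_ofReal.tendsto 0).comp hx
      simpa [Function.comp_def] using this
    have t2 : Tendsto (fun ε : ℝ => ker δ c (x + ε * Complex.I)) (𝓝[>] 0) (𝓝 (ker δ c x)) := by
      have hcc : Continuous (fun ε : ℝ => ker δ c (x + ε * Complex.I)) := hk.comp (by fun_prop)
      have := hcc.tendsto 0
      simp only [Complex.ofReal_zero, zero_mul, add_zero] at this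
      exact this.mono_left nhdsWithin_le_nhds
    have t3 : Tendsto (fun ε : ℝ => ker δ c (x + (-ε : ℝ) * Complex.I)) (𝓝[>] 0)
        (𝓝 (ker δ c x)) := by
      have hcc : Continuous (fun ε : ℝ => ker δ c (x + (-ε : ℝ) * Complex.I)) :=
        hk.comp (by fun_prop)
      have := hcc.tendsto 0
      simp only [neg_zero, Complex.ofReal_zero, zero_mul, add_zero] at this
      exact this.mono_left nhdsWithin_le_nhds
    have t4 : Tendsto (fun ε : ℝ => 2 * Complex.I * ((f (x + ε * Complex.I)).im : ℂ) *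
        ker δ c (x + ε * Complex.I)) (𝓝[>] 0) (𝓝 0) := by
      have := (t1.const_mul (2 * Complex.I)).mul t2
      simpa using this
    have t5 : Tendsto (fun ε : ℝ => starRingEnd ℂ (f (x + ε * Complex.I)) *
        (ker δ c (x + ε * Complex.I) - ker δ c (x + (-ε : ℝ) * Complex.I))) (𝓝[>] 0) (𝓝 0) := by
      have t6 : Tendsto (fun ε : ℝ => C * ‖ker δ c (x + ε * Complex.I) -
          ker δ c (x + (-ε : ℝ) * Complex.I)‖) (𝓝[>] 0) (𝓝 0) := by
        have := ((t2.sub t3).norm).const_mul C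
        simpa using this
      refine squeeze_zero_norm' ?_ t6
      filter_upwards [self_mem_nhdsWithin] with ε hε
      rw [norm_mul, Complex.norm_conj]
      exact mul_le_mul_of_nonneg_right (hC _ (hmem ε hε x)) (norm_nonneg _)
    have := t4.add t5
    simpa using this

/-! ### The whole half plane -/

theorem measurable_indicator {f : ℂ → ℂ} (hf : ContinuousOn f UH) :
    Measurable (UH.indicator f) := by
  classical
  have h := hf.measurable_piecewise (g := fun _ => (0 : ℂ)) continuousOn_const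
    isOpen_UH.measurableSet
  convert h using 1
  ext s
  by_cases hs : s ∈ UH <;> simp [hs]

theorem dist_conj_le {z s : ℂ} (hz : z ∈ UH) (hs : s ∈ UH) :
    ‖s - z‖ ≤ ‖s - starRingEnd ℂ z‖ := by
  have hz' : 0 < z.im := hz
  have hs' : 0 < s.im := hs
  rw [Complex.norm_def, Complex.norm_def]
  apply Real.sqrt_le_sqrt
  rw [Complex.normSq_apply, Complex.normSq_apply]
  simp only [Complex.sub_re, Complex.sub_im, Complex.conj_re, Complex.conj_im]
  nlinarith [mul_pos hz' hs']

theorem int_conj {B : ℂ → ℂ} {z : ℂ} (hz : z ∈ UH) (hB : ContinuousOn B UH)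
    (hint : IntegrableOn (fun s => ‖B s‖ / ‖s - z‖) UH) :
    IntegrableOn (fun s => ‖B s‖ / ‖s - starRingEnd ℂ z‖) UH := by
  refine Integrable.mono' hint ?_ ?_
  · refine ContinuousOn.aestronglyMeasurable ?_ isOpen_UH.measurableSet
    refine ContinuousOn.div hB.norm (by fun_prop) (fun s hs => ?_)
    rw [norm_ne_zero_iff, sub_ne_zero]
    rintro rfl
    have h1 : 0 < z.im := hz
    have h2 : 0 < (starRingEnd ℂ z).im := hs
    rw [Complex.conj_im] at h2
    linarith
  · have hne : ∀ᵐ s : ℂ ∂volume.restrict UH, s ≠ z :=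
      ae_restrict_of_ae (by
        rw [ae_iff]
        simp)
    filter_upwards [hne, ae_restrict_mem isOpen_UH.measurableSet] with s h1 h2
    rw [Real.norm_of_nonneg (by positivity)]
    have h3 : 0 < ‖s - z‖ := by
      rw [norm_pos_iff, sub_ne_zero]; exact h1
    exact div_le_div_of_nonneg_left (norm_nonneg _) h3 (dist_conj_le hz h2)

theorem int_ker {B : ℂ → ℂ} (hB : ContinuousOn B UH) {c : ℂ}
    (hint : IntegrableOn (fun s => ‖B s‖ / ‖s - c‖) UH) {δ : ℝ} (hδ : 0 < δ) :
    IntegrableOn (fun s => B s * ker δ c s) UH := by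
  refine Integrable.mono' hint ?_ ?_
  · exact (hB.mul (continuous_ker hδ c).continuousOn).aestronglyMeasurable
      isOpen_UH.measurableSet
  · refine Eventually.of_forall fun s => ?_
    rw [norm_mul, div_eq_mul_one_div]
    exact mul_le_mul_of_nonneg_left (norm_ker_le hδ c s) (norm_nonneg _)

theorem int_bker {f : ℂ → ℂ} (hf : ContinuousOn f UH) {C : ℝ} (hC : ∀ z ∈ UH, ‖f z‖ ≤ C)
    (c : ℂ) {t : ℝ} (ht : 0 < t) : IntegrableOn (fun s => f s * bker (t⁻¹ ^ 2) c s) UH := by
  have hδ : 0 < t⁻¹ ^ 2 := by positivity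
  refine Integrable.mono' (((bker_integrable ht c).norm.const_mul C).integrableOn) ?_ ?_
  · exact (hf.mul (continuous_bker hδ c).continuousOn).aestronglyMeasurable
      isOpen_UH.measurableSet
  · filter_upwards [ae_restrict_mem isOpen_UH.measurableSet] with s hs
    rw [norm_mul]
    exact mul_le_mul_of_nonneg_right (hC s hs) (norm_nonneg _)

/-- The formula with the regularised kernel. -/
theorem regularised {f B : ℂ → ℂ} (hf : ∀ z ∈ UH, HasDbar f (B z) z) (hB : ContinuousOn B UH)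
    {C : ℝ} (hC : ∀ z ∈ UH, ‖f z‖ ≤ C)
    (hinf : Tendsto f (cocompact ℂ ⊓ 𝓟 UH) (𝓝 0))
    (hbdry : ∀ᵐ x : ℝ, Tendsto (fun ε : ℝ => (f (x + ε * Complex.I)).im) (𝓝[>] 0) (𝓝 0))
    {z : ℂ} (hz : z ∈ UH) (hint : IntegrableOn (fun s => ‖B s‖ / ‖s - z‖) UH)
    {t : ℝ} (ht : 0 < t) :
    (∫ s in UH, (B s * ker (t⁻¹ ^ 2) z s + f s * bker (t⁻¹ ^ 2) z s)) +
      starRingEnd ℂ (∫ s in UH, (B s * ker (t⁻¹ ^ 2) (starRingEnd ℂ z) s +
        f s * bker (t⁻¹ ^ 2) (starRingEnd ℂ z) s)) = 0 := by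
  have hδ : 0 < t⁻¹ ^ 2 := by positivity
  have hfc := continuousOn_of_dbar hf
  have hint' := int_conj hz hB hint
  -- the sequence of rectangles
  have hseq : ∀ n : ℕ, ∃ ε : ℝ, 0 < ε ∧ ε < 1 / ((n : ℝ) + 1) ∧
      ‖low (fun s => f s * ker (t⁻¹ ^ 2) z s) (n + 1) ε -
      starRingEnd ℂ (low (fun s => f s * ker (t⁻¹ ^ 2) (starRingEnd ℂ z) s) (n + 1) ε)‖ <
        1 / ((n : ℝ) + 1) := by
    intro n
    have h1 := low_tendsto hfc hC hbdry hδ z ((n : ℝ) + 1)
    have h2 : (0 : ℝ) < 1 / ((n : ℝ) + 1) := by positivity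
    have h3 := h1.norm
    rw [norm_zero] at h3
    have h4 := (h3.eventually (gt_mem_nhds h2)).and (Ioo_mem_nhdsGT h2)
    obtain ⟨ε, h5, h6⟩ := h4.exists
    exact ⟨ε, h6.1, h6.2, h5⟩
  choose ε hε0 hε1 hε2 using hseq
  have hX : ∀ n : ℕ, (0 : ℝ) < (n : ℝ) + 1 := fun n => by positivity
  have hεX : ∀ n : ℕ, ε n ≤ (n : ℝ) + 1 := by
    intro n
    refine (hε1 n).le.trans ?_
    rw [div_le_iff₀ (hX n)]
    have := hX n
    nlinarith [(Nat.cast_nonneg n : (0 : ℝ) ≤ n)]
  have hcover : AECover (volume.restrict UH) atTop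
      (fun n : ℕ => rect ((n : ℝ) + 1) (ε n) ((n : ℝ) + 1)) := by
    refine ⟨?_, fun n => (isCompact_rect _ _ _).measurableSet⟩
    filter_upwards [ae_restrict_mem isOpen_UH.measurableSet] with s hs
    have hs' : 0 < s.im := hs
    obtain ⟨N, hN⟩ := exists_nat_gt (max ‖s‖ (1 / s.im))
    filter_upwards [eventually_ge_atTop N] with n hn
    have hn' : (N : ℝ) ≤ n := by exact_mod_cast hn
    have h1 : ‖s‖ < n := lt_of_le_of_lt (le_max_left _ _) (hN.trans_le hn')
    have h2 : 1 / s.im < n := lt_of_le_of_lt (le_max_right _ _) (hN.trans_le hn')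
    rw [rect, Complex.mem_reProdIm]
    have h3 := Complex.abs_re_le_norm s
    have h4 := Complex.abs_im_le_norm s
    rw [abs_le] at h3 h4
    refine ⟨⟨by linarith, by linarith⟩, ?_, by linarith⟩
    refine (hε1 n).le.trans ?_
    rw [div_le_iff₀ (hX n)]
    rw [div_lt_iff₀ hs'] at h2
    nlinarith
  -- the two area integrals
  have hA : ∀ c : ℂ, IntegrableOn (fun s => ‖B s‖ / ‖s - c‖) UH →
      Tendsto (fun n : ℕ => ∫ s in rect ((n : ℝ) + 1) (ε n) ((n : ℝ) + 1),
        (B s * ker (t⁻¹ ^ 2) c s + f s * bker (t⁻¹ ^ 2) c s)) atTop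
        (𝓝 (∫ s in UH, (B s * ker (t⁻¹ ^ 2) c s + f s * bker (t⁻¹ ^ 2) c s))) := by
    intro c hc
    have h1 := hcover.integral_tendsto_of_countably_generated
      ((int_ker hB hc hδ).add (int_bker hfc hC c ht))
    refine h1.congr fun n => ?_
    rw [Measure.restrict_restrict (isCompact_rect _ _ _).measurableSet,
      Set.inter_eq_left.mpr (rect_subset (hε0 n))]
    rfl
  have hG : ∀ (c : ℂ) (n : ℕ),
      low (fun s => f s * ker (t⁻¹ ^ 2) c s) (n + 1) (ε n) +
      outer (fun s => f s * ker (t⁻¹ ^ 2) c s) (n + 1) (ε n) (n + 1) =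
      2 * Complex.I * ∫ s in rect ((n : ℝ) + 1) (ε n) ((n : ℝ) + 1),
        (B s * ker (t⁻¹ ^ 2) c s + f s * bker (t⁻¹ ^ 2) c s) := by
    intro c n
    refine green' (fun s hs => dbar_mul (hf s hs) (dbar_ker hδ c s)) ?_ (hX n) (hε0 n) (hεX n)
    exact (hB.mul (continuous_ker hδ c).continuousOn).add
      (hfc.mul (continuous_bker hδ c).continuousOn)
  -- the outer sides tend to zero
  have hout : ∀ c : ℂ, Tendsto (fun n : ℕ =>
      outer (fun s => f s * ker (t⁻¹ ^ 2) c s) (n + 1) (ε n) (n + 1)) atTop (𝓝 0) := by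
    intro c
    rw [Metric.tendsto_atTop]
    intro η hη
    have h1 : ∀ᶠ s in cocompact ℂ ⊓ 𝓟 UH, ‖f s‖ < η / 16 := by
      have := hinf.norm
      rw [norm_zero] at this
      exact this.eventually (gt_mem_nhds (by positivity))
    rw [eventually_inf_principal, ← Metric.cobounded_eq_cocompact] at h1
    obtain ⟨r, hr⟩ := (hasBasis_cobounded_norm.eventually_iff).mp h1
    obtain ⟨N, hN⟩ := exists_nat_gt (max r (2 * ‖c‖))
    refine ⟨N, fun n hn => ?_⟩
    have hn' : (N : ℝ) ≤ n := by exact_mod_cast hn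
    have hr1 : r < (n : ℝ) + 1 := by
      have := le_max_left r (2 * ‖c‖); linarith
    have hc1 : 2 * ‖c‖ < (n : ℝ) + 1 := by
      have := le_max_right r (2 * ‖c‖); linarith
    rw [dist_zero_right]
    have hb := norm_outer_le (F := fun s => f s * ker (t⁻¹ ^ 2) c s) (hX n) (hε0 n) (hεX n)
      (m := η / 16 * (2 / ((n : ℝ) + 1))) (by positivity) (by
        intro s hs hs'
        rw [norm_mul]
        refine mul_le_mul (hr.2 (x := s) ?_ hs).le ?_ (norm_nonneg _) (by positivity)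
        · exact hr1.le.trans hs'
        · refine (norm_ker_le hδ c s).trans ?_
          have h2 : ((n : ℝ) + 1) / 2 ≤ ‖s - c‖ := by
            have := norm_sub_norm_le s c
            linarith
          have h3 : (0 : ℝ) < ((n : ℝ) + 1) / 2 := by have := hX n; linarith
          calc 1 / ‖s - c‖ ≤ 1 / (((n : ℝ) + 1) / 2) := one_div_le_one_div_of_le h3 h2
            _ = 2 / ((n : ℝ) + 1) := by rw [one_div_div])
    refine hb.trans_lt ?_
    have h4 : 4 * ((n : ℝ) + 1) * (η / 16 * (2 / ((n : ℝ) + 1))) = η / 2 := by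
      have := hX n
      field_simp
      ring
    rw [h4]
    linarith
  -- combine
  have hlow : Tendsto (fun n : ℕ => low (fun s => f s * ker (t⁻¹ ^ 2) z s) (n + 1) (ε n) -
      starRingEnd ℂ (low (fun s => f s * ker (t⁻¹ ^ 2) (starRingEnd ℂ z) s) (n + 1) (ε n)))
      atTop (𝓝 0) := by
    refine squeeze_zero_norm (fun n => (hε2 n).le) ?_
    exact tendsto_one_div_add_atTop_nhds_zero_nat
  have hconj : ∀ u : ℕ → ℂ, ∀ a : ℂ, Tendsto u atTop (𝓝 a) →
      Tendsto (fun n => starRingEnd ℂ (u n)) atTop (𝓝 (starRingEnd ℂ a)) :=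
    fun u a hu => (Complex.continuous_conj.tendsto a).comp hu
  have hL := (hlow.add (hout z)).sub (hconj _ _ (hout (starRingEnd ℂ z)))
  have hR := ((hA z hint).const_mul (2 * Complex.I)).sub
    (hconj _ _ ((hA (starRingEnd ℂ z) hint').const_mul (2 * Complex.I)))
  have heq : ∀ n : ℕ, (low (fun s => f s * ker (t⁻¹ ^ 2) z s) (n + 1) (ε n) -
      starRingEnd ℂ (low (fun s => f s * ker (t⁻¹ ^ 2) (starRingEnd ℂ z) s) (n + 1) (ε n))) +
      outer (fun s => f s * ker (t⁻¹ ^ 2) z s) (n + 1) (ε n) (n + 1) -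
      starRingEnd ℂ (outer (fun s => f s * ker (t⁻¹ ^ 2) (starRingEnd ℂ z) s) (n + 1) (ε n)
        (n + 1)) =
      2 * Complex.I * (∫ s in rect ((n : ℝ) + 1) (ε n) ((n : ℝ) + 1),
        (B s * ker (t⁻¹ ^ 2) z s + f s * bker (t⁻¹ ^ 2) z s)) -
      starRingEnd ℂ (2 * Complex.I * ∫ s in rect ((n : ℝ) + 1) (ε n) ((n : ℝ) + 1),
        (B s * ker (t⁻¹ ^ 2) (starRingEnd ℂ z) s +
          f s * bker (t⁻¹ ^ 2) (starRingEnd ℂ z) s)) := by
    intro n
    rw [← hG z n, ← hG (starRingEnd ℂ z) n, map_add]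
    ring
  have hfin := tendsto_nhds_unique (hR.congr (fun n => (heq n).symm)) hL
  simp only [map_mul, map_zero, add_zero, sub_zero, Complex.conj_I, Complex.conj_ofNat] at hfin
  have h2I : (2 * Complex.I : ℂ) ≠ 0 := by simp
  apply mul_left_cancel₀ h2I
  rw [mul_zero, ← hfin]
  ring

theorem ker_limit {B : ℂ → ℂ} (hB : ContinuousOn B UH) {c : ℂ}
    (hint : IntegrableOn (fun s => ‖B s‖ / ‖s - c‖) UH) :
    Tendsto (fun n : ℕ => ∫ s in UH, B s * ker (((n : ℝ) + 1)⁻¹ ^ 2) c s) atTop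
      (𝓝 (∫ s in UH, B s / (s - c))) := by
  refine tendsto_integral_of_dominated_convergence (fun s => ‖B s‖ / ‖s - c‖) ?_ hint ?_ ?_
  · intro n
    exact (hB.mul (continuous_ker (by positivity) c).continuousOn).aestronglyMeasurable
      isOpen_UH.measurableSet
  · intro n
    refine Eventually.of_forall fun s => ?_
    rw [norm_mul, div_eq_mul_one_div]
    exact mul_le_mul_of_nonneg_left (norm_ker_le (by positivity) c s) (norm_nonneg _)
  · have hne : ∀ᵐ s : ℂ ∂volume.restrict UH, s ≠ c :=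
      ae_restrict_of_ae (by
        rw [ae_iff]
        simp)
    filter_upwards [hne] with s hs
    have h1 : s - c ≠ 0 := sub_ne_zero.mpr hs
    have h2 : starRingEnd ℂ (s - c) ≠ 0 := (map_ne_zero _).mpr h1
    have h3 : B s / (s - c) = B s * (starRingEnd ℂ (s - c) /
        ((s - c) * starRingEnd ℂ (s - c) + ((0 : ℝ) : ℂ))) := by
      rw [Complex.ofReal_zero, add_zero]
      field_simp
    rw [h3]
    refine Tendsto.const_mul _ (Tendsto.div tendsto_const_nhds ?_ ?_)
    · refine Tendsto.const_add _ ?_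
      have h4 : Tendsto (fun n : ℕ => ((n : ℝ) + 1)⁻¹ ^ 2) atTop (𝓝 (0 : ℝ)) := by
        have h5 : Tendsto (fun n : ℕ => ((n : ℝ) + 1)⁻¹) atTop (𝓝 0) :=
          tendsto_inv_atTop_zero.comp
            (tendsto_atTop_add_const_right _ _ tendsto_natCast_atTop_atTop)
        have := h5.pow 2
        simpa using this
      exact (Complex.continuous_ofReal.tendsto 0).comp h4
    · rw [Complex.ofReal_zero, add_zero]
      exact mul_ne_zero h1 h2

theorem bker_limit {f : ℂ → ℂ} (hf : ContinuousOn f UH) {C : ℝ} (hC : ∀ z ∈ UH, ‖f z‖ ≤ C)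
    {c : ℂ} (hc : ContinuousAt (UH.indicator f) c) :
    Tendsto (fun n : ℕ => ∫ s in UH, f s * bker (((n : ℝ) + 1)⁻¹ ^ 2) c s) atTop
      (𝓝 (UH.indicator f c * Real.pi)) := by
  have hC0 : 0 ≤ C := (norm_nonneg _).trans (hC Complex.I (by simp [UH]))
  have h := peak (measurable_indicator hf) (C := C) (fun s => by
    by_cases hs : s ∈ UH
    · rw [Set.indicator_of_mem hs]; exact hC s hs
    · rw [Set.indicator_of_notMem hs, norm_zero]; exact hC0) hc
  refine h.congr fun n => ?_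
  rw [← integral_indicator isOpen_UH.measurableSet]
  refine integral_congr_ae (Eventually.of_forall fun s => ?_)
  by_cases hs : s ∈ UH <;> simp [hs]

end Pompeiu

open Pompeiu in
/-- The Cauchy-Pompeiu formula on the upper half plane, for functions with real boundary
values. -/
theorem pompeiu (f : ℂ → ℂ) (B : ℂ → ℂ)
    (hf : ∀ z ∈ UH, HasDbar f (B z) z) (hB : ContinuousOn B UH)
    (hbd : ∃ C : ℝ, ∀ z ∈ UH, ‖f z‖ ≤ C)
    (hinf : Tendsto f (cocompact ℂ ⊓ 𝓟 UH) (𝓝 0))
    (hbdry : ∀ᵐ x : ℝ, Tendsto (fun ε : ℝ => (f (x + ε * Complex.I)).im) (𝓝[>] 0) (𝓝 0))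
    (z : ℂ) (hz : z ∈ UH) (hint : IntegrableOn (fun s => ‖B s‖ / ‖s - z‖) UH) :
    f z = KS B z := by
  obtain ⟨C, hC⟩ := hbd
  have hfc := continuousOn_of_dbar hf
  have hint' := int_conj hz hB hint
  have hzc : starRingEnd ℂ z ∉ UH := by
    intro h
    have h1 : 0 < z.im := hz
    have h2 : 0 < (starRingEnd ℂ z).im := h
    rw [Complex.conj_im] at h2
    linarith
  have c1 : ContinuousAt (UH.indicator f) z := by
    refine (hfc.continuousAt (isOpen_UH.mem_nhds hz)).congr ?_
    filter_upwards [isOpen_UH.mem_nhds hz] with s hs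
    rw [Set.indicator_of_mem hs]
  have c2 : ContinuousAt (UH.indicator f) (starRingEnd ℂ z) := by
    have hopen : IsOpen {s : ℂ | s.im < 0} := isOpen_lt Complex.continuous_im continuous_const
    have hmem : starRingEnd ℂ z ∈ {s : ℂ | s.im < 0} := by
      have h1 : 0 < z.im := hz
      simp only [Set.mem_ofPred_eq, Complex.conj_im]
      linarith
    refine (continuousAt_const (y := (0 : ℂ))).congr ?_
    filter_upwards [hopen.mem_nhds hmem] with s hs
    rw [Set.indicator_of_notMem]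
    intro h
    have h1 : 0 < s.im := h
    have h2 : s.im < 0 := hs
    linarith
  have l1 := ker_limit hB hint
  have l2 := bker_limit hfc hC c1
  have l3 := ker_limit hB hint'
  have l4 := bker_limit hfc hC c2
  rw [Set.indicator_of_mem hz] at l2
  rw [Set.indicator_of_notMem hzc, zero_mul] at l4
  have l5 := (l1.add l2).add ((Complex.continuous_conj.tendsto _).comp (l3.add l4))
  have hfin : Tendsto (fun _ : ℕ => (0 : ℂ)) atTop (𝓝 ((∫ s in UH, B s / (s - z)) +
      f z * Real.pi + starRingEnd ℂ ((∫ s in UH, B s / (s - starRingEnd ℂ z)) + 0))) := by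
    refine l5.congr fun n => ?_
    have ht : (0 : ℝ) < (n : ℝ) + 1 := by positivity
    have hδ : (0 : ℝ) < ((n : ℝ) + 1)⁻¹ ^ 2 := by positivity
    rw [← regularised hf hB hC hinf hbdry hz hint ht, integral_add (int_ker hB hint hδ)
      (int_bker hfc hC _ ht), integral_add (int_ker hB hint' hδ) (int_bker hfc hC _ ht)]
    rfl
  have h0 := tendsto_nhds_unique hfin tendsto_const_nhds
  have hi1 : IntegrableOn (fun s => B s / (s - z)) UH := by
    refine Integrable.mono' hint ?_ (Eventually.of_forall fun s => by rw [norm_div])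
    have hm : Measurable (fun s : ℂ => (s - z)⁻¹) := (measurable_id.sub_const z).inv
    have := (hB.aestronglyMeasurable isOpen_UH.measurableSet).mul
      (hm.aestronglyMeasurable (μ := volume.restrict UH))
    refine this.congr (Eventually.of_forall fun s => ?_)
    simp [div_eq_mul_inv]
  have hi2 : IntegrableOn (fun s => starRingEnd ℂ (B s) / (starRingEnd ℂ s - z)) UH := by
    refine Integrable.mono' hint' ?_ (Eventually.of_forall fun s => ?_)
    · have hm : Measurable (fun s : ℂ => (starRingEnd ℂ s - z)⁻¹) :=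
        (Complex.continuous_conj.measurable.sub_const z).inv
      have := ((Complex.continuous_conj.comp_continuousOn hB).aestronglyMeasurable
        isOpen_UH.measurableSet).mul (hm.aestronglyMeasurable (μ := volume.restrict UH))
      refine this.congr (Eventually.of_forall fun s => ?_)
      simp [div_eq_mul_inv]
    · rw [norm_div, Complex.norm_conj]
      have h1 : starRingEnd ℂ s - z = starRingEnd ℂ (s - starRingEnd ℂ z) := by simp
      rw [h1, Complex.norm_conj]
  have h2 : starRingEnd ℂ (∫ s in UH, B s / (s - starRingEnd ℂ z)) =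
      ∫ s in UH, starRingEnd ℂ (B s) / (starRingEnd ℂ s - z) := by
    rw [← integral_conj]
    refine integral_congr_ae (Eventually.of_forall fun s => ?_)
    simp
  have hpi : (Real.pi : ℂ) ≠ 0 := by exact_mod_cast Real.pi_ne_zero
  rw [add_zero, h2] at h0
  unfold KS
  rw [integral_add hi1 hi2]
  field_simp
  linear_combination h0

end Pool.Agent.Freud
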