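import Pool.Agent.Freud.Stieltjes
import Pool.Agent.Freud.DecPoly
import Pool.Agent.Freud.GBasic

/-!
Facts on the matrix `Tmat` (job FR-T).
-/

set_option autoImplicit false

open MeasureTheory Filter Topology Asymptotics

namespace Pool.Agent.Freud

namespace TF

theorem tendsto_mat' {ι : Type*} {F : ι → Mat2} {l : Filter ι} {A : Mat2}
    (h : ∀ i j, Tendsto (fun x => F x i j) l (𝓝 (A i j))) : Tendsto F l (𝓝 A) :=
  tendsto_pi_nhds.mpr fun i => tendsto_pi_nhds.mpr fun j => h i j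

theorem ev_UH : ∀ᶠ z in cocompact ℂ ⊓ 𝓟 UH, z ∈ UH := by
  rw [eventually_inf_principal]
  exact Eventually.of_forall fun z hz => hz

theorem UH_ne {z : ℂ} (hz : z ∈ UH) : z ≠ 0 := by
  rintro rfl
  simp [UH] at hz

theorem norm_inf : Tendsto (fun z : ℂ => ‖z‖) (cocompact ℂ ⊓ 𝓟 UH) atTop :=
  (tendsto_norm_cocompact_atTop).mono_left inf_le_left

theorem inv_inf : Tendsto (fun z : ℂ => z⁻¹) (cocompact ℂ ⊓ 𝓟 UH) (𝓝 0) := by
  have h : Tendsto (fun z : ℂ => z⁻¹) (Bornology.cobounded ℂ) (𝓝 0) :=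
    Filter.tendsto_inv₀_cobounded
  rw [Metric.cobounded_eq_cocompact] at h
  exact h.mono_left inf_le_left

/-- A monic polynomial divided by its leading power tends to `1`. -/
theorem poly_inf (P : Polynomial ℝ) (hP : P.Monic) :
    Tendsto (fun z : ℂ => Polynomial.aeval z P * (z⁻¹) ^ P.natDegree) (cocompact ℂ ⊓ 𝓟 UH)
      (𝓝 1) := by
  have h1 : Tendsto (fun z : ℂ => Polynomial.aeval (z⁻¹) P.reverse) (cocompact ℂ ⊓ 𝓟 UH)
      (𝓝 (Polynomial.aeval (0 : ℂ) P.reverse)) :=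
    ((Polynomial.continuous_aeval P.reverse).tendsto 0).comp inv_inf
  have h2 : Polynomial.aeval (0 : ℂ) P.reverse = 1 := by
    rw [Polynomial.aeval_def, Polynomial.eval₂_at_zero, Polynomial.coeff_zero_reverse,
      hP.leadingCoeff]
    simp
  rw [h2] at h1
  refine h1.congr' ?_
  filter_upwards [ev_UH] with z hz
  have hz0 := UH_ne hz
  let _ : Invertible z := invertibleOfNonzero hz0
  have h3 := Polynomial.eval₂_reverse_mul_pow (algebraMap ℝ ℂ) z P
  rw [Polynomial.aeval_def, Polynomial.aeval_def, ← h3, invOf_eq_inv, mul_assoc, ← mul_pow,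
    mul_inv_cancel₀ hz0, one_pow, mul_one]

theorem exp_inf (α : ℝ) (hα : 1 < α) (n : ℕ) :
    Tendsto (fun z : ℂ => Complex.exp (n * gfun α z) * (z⁻¹) ^ n) (cocompact ℂ ⊓ 𝓟 UH)
      (𝓝 1) := by
  obtain ⟨C, hC⟩ := gfun_inf α hα
  have h1 : Tendsto (fun z : ℂ => gfun α z - Complex.log z) (cocompact ℂ ⊓ 𝓟 UH) (𝓝 0) := by
    have h2 : Tendsto (fun z : ℂ => C / ‖z‖ ^ 2) (cocompact ℂ ⊓ 𝓟 UH) (𝓝 0) := by
      apply Tendsto.div_atTop tendsto_const_nhds
      exact (tendsto_pow_atTop (by norm_num)).comp norm_inf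
    apply squeeze_zero_norm' _ h2
    filter_upwards [ev_UH, norm_inf.eventually_ge_atTop 2] with z hz hz2
    exact hC z hz hz2
  have h3 : Tendsto (fun z : ℂ => Complex.exp (n * (gfun α z - Complex.log z)))
      (cocompact ℂ ⊓ 𝓟 UH) (𝓝 1) := by
    have := (Complex.continuous_exp.tendsto _).comp (h1.const_mul (n : ℂ))
    rw [mul_zero, Complex.exp_zero] at this
    exact this
  refine h3.congr' ?_
  filter_upwards [ev_UH] with z hz
  have hz0 := UH_ne hz
  rw [mul_sub, Complex.exp_sub, Complex.exp_nat_mul _ n, Complex.exp_nat_mul _ n,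
    Complex.exp_log hz0, inv_pow, div_eq_mul_inv]

theorem exp_inf' (α : ℝ) (hα : 1 < α) (n : ℕ) :
    Tendsto (fun z : ℂ => Complex.exp (-(n * gfun α z)) * z ^ n) (cocompact ℂ ⊓ 𝓟 UH)
      (𝓝 1) := by
  have h := (exp_inf α hα n).inv₀ one_ne_zero
  rw [inv_one] at h
  refine h.congr' ?_
  filter_upwards [ev_UH] with z hz
  rw [mul_inv, ← inv_pow, inv_inv, Complex.exp_neg]

end TF

theorem T_diff (α : ℝ) (hα : 1 < α) (n : ℕ) (P Q : Polynomial ℝ) (hP hQ : ℝ)
    (h : OPData α n P Q hP hQ) : ∀ z ∈ UH, ∀ i j,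
      DifferentiableAt ℂ (fun w => Tmat α n P Q hQ w i j) z := by
  intro z hz i j
  obtain ⟨fP, hfP⟩ := dec_poly α hα n h.n_pos P
  obtain ⟨fQ, hfQ⟩ := dec_poly α hα n h.n_pos Q
  have h1 := Hst_differentiableAt hfP z hz
  have h2 := Hst_differentiableAt hfQ z hz
  have hg : DifferentiableAt ℂ (gfun α) z := (gfun_hasDerivAt α hα z hz).differentiableAt
  have hPd : DifferentiableAt ℂ (fun w : ℂ => Polynomial.aeval w P) z :=
    P.differentiable_aeval.differentiableAt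
  have hQd : DifferentiableAt ℂ (fun w : ℂ => Polynomial.aeval w Q) z :=
    Q.differentiable_aeval.differentiableAt
  fin_cases i <;> fin_cases j <;> simp [Tmat]
  · exact hPd.mul ((hg.const_mul _).neg.cexp)
  · exact h1.mul (((hg.const_mul _).sub_const _).cexp)
  · exact (hQd.const_mul _).mul ((hg.const_mul _).neg.cexp)
  · exact (h2.const_mul _).mul ((hg.const_mul _).cexp)

theorem T_inf (α : ℝ) (hα : 1 < α) (n : ℕ) (P Q : Polynomial ℝ) (hP hQ : ℝ)
    (h : OPData α n P Q hP hQ) :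
    Tendsto (fun z => Tmat α n P Q hQ z) (cocompact ℂ ⊓ 𝓟 UH) (𝓝 1) ∧
    Tendsto (fun z => z * Tmat α n P Q hQ z 0 1) (cocompact ℂ ⊓ 𝓟 UH)
      (𝓝 (Complex.exp (-(n * ell α)) * hP)) ∧
    Tendsto (fun z => z * Tmat α n P Q hQ z 1 0) (cocompact ℂ ⊓ 𝓟 UH)
      (𝓝 (Complex.exp (n * ell α) / hQ)) := by
  obtain ⟨fP, hfP⟩ := dec_poly α hα n h.n_pos (P * Polynomial.X ^ n)
  obtain ⟨fQ, hfQ⟩ := dec_poly α hα n h.n_pos (Q * Polynomial.X ^ (n - 1))
  have hHP := Hst_inf hfP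
  have hHQ := Hst_inf hfQ
  have eP : (fun x : ℝ => (P * Polynomial.X ^ n).eval x * wt α n x) =
      fun x => P.eval x * x ^ n * wt α n x := by
    funext x; simp
  have eQ : (fun x : ℝ => (Q * Polynomial.X ^ (n - 1)).eval x * wt α n x) =
      fun x => Q.eval x * x ^ (n - 1) * wt α n x := by
    funext x; simp
  rw [eP, ← h.hP_eq] at hHP
  rw [eQ, ← h.hQ_eq] at hHQ
  have hE := TF.exp_inf α hα n
  have hE' := TF.exp_inf' α hα n
  have hPi := TF.poly_inf P h.P_monic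
  have hQi := TF.poly_inf Q h.Q_monic
  rw [h.P_deg] at hPi
  rw [h.Q_deg] at hQi
  have hinv := TF.inv_inf
  have hn := h.n_pos
  have hpow : ∀ z : ℂ, z ≠ 0 → z ^ n = z ^ (n - 1) * z := by
    intro z _
    rw [← pow_succ]
    congr 1
    omega
  have hQne : (hQ : ℂ) ≠ 0 := by exact_mod_cast h.hQ_pos.ne'
  -- the entries
  have k00 : Tendsto (fun z => Tmat α n P Q hQ z 0 0) (cocompact ℂ ⊓ 𝓟 UH) (𝓝 1) := by
    have := hPi.mul hE'
    rw [mul_one] at this
    refine this.congr' ?_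
    filter_upwards [TF.ev_UH] with z hz
    have hz0 := TF.UH_ne hz
    simp only [Tmat, Matrix.of_apply, Matrix.cons_val', Matrix.cons_val_zero,
      Matrix.cons_val_fin_one]
    have : (z⁻¹) ^ n * z ^ n = 1 := by rw [← mul_pow, inv_mul_cancel₀ hz0, one_pow]
    linear_combination (Polynomial.aeval z P) * Complex.exp (-(n * gfun α z)) * this
  have m01 : Tendsto (fun z => z * Tmat α n P Q hQ z 0 1) (cocompact ℂ ⊓ 𝓟 UH)
      (𝓝 (Complex.exp (-(n * ell α)) * hP)) := by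
    have := (hHP.mul hE).const_mul (Complex.exp (-(n * ell α)))
    rw [mul_one] at this
    refine this.congr' ?_
    filter_upwards [TF.ev_UH] with z hz
    have hz0 := TF.UH_ne hz
    have ho := Hst_orth α hα n hn P n h.P_orth z hz
    simp only [Tmat, Matrix.of_apply, Matrix.cons_val', Matrix.cons_val_zero,
      Matrix.cons_val_one, Matrix.cons_val_fin_one]
    rw [← ho]
    have e2 : Complex.exp (n * gfun α z - n * ell α) =
        Complex.exp (n * gfun α z) * Complex.exp (-(n * ell α)) := by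
      rw [← Complex.exp_add]; congr 1
    rw [e2]
    have : (z⁻¹) ^ n * z ^ n = 1 := by rw [← mul_pow, inv_mul_cancel₀ hz0, one_pow]
    linear_combination Complex.exp (-(n * ell α)) * z *
      Hst (fun x => P.eval x * wt α n x) z * Complex.exp (n * gfun α z) * this
  have m10 : Tendsto (fun z => z * Tmat α n P Q hQ z 1 0) (cocompact ℂ ⊓ 𝓟 UH)
      (𝓝 (Complex.exp (n * ell α) / hQ)) := by
    have := (hQi.mul hE').const_mul (Complex.exp (n * ell α) / hQ)
    rw [mul_one, mul_one] at this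
    refine this.congr' ?_
    filter_upwards [TF.ev_UH] with z hz
    have hz0 := TF.UH_ne hz
    simp only [Tmat, Matrix.of_apply, Matrix.cons_val', Matrix.cons_val_zero,
      Matrix.cons_val_one, Matrix.cons_val_fin_one]
    rw [hpow z hz0]
    have : (z⁻¹) ^ (n - 1) * z ^ (n - 1) = 1 := by rw [← mul_pow, inv_mul_cancel₀ hz0, one_pow]
    linear_combination (Complex.exp (n * ell α) / hQ) * (Polynomial.aeval z Q) *
      Complex.exp (-(n * gfun α z)) * z * this
  have k11 : Tendsto (fun z => Tmat α n P Q hQ z 1 1) (cocompact ℂ ⊓ 𝓟 UH) (𝓝 1) := by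
    have := (hHQ.mul hE).const_mul (1 / (hQ : ℂ))
    have e1 : 1 / (hQ : ℂ) * ((hQ : ℂ) * 1) = 1 := by field_simp
    rw [e1] at this
    refine this.congr' ?_
    filter_upwards [TF.ev_UH] with z hz
    have hz0 := TF.UH_ne hz
    have ho := Hst_orth α hα n hn Q (n - 1) h.Q_orth z hz
    simp only [Tmat, Matrix.of_apply, Matrix.cons_val', 
      Matrix.cons_val_one, Matrix.cons_val_fin_one]
    rw [← ho]
    have h2 : z * (z ^ (n - 1)) * (z⁻¹) ^ n = 1 := by
      rw [mul_comm z, ← hpow z hz0, ← mul_pow, mul_inv_cancel₀ hz0, one_pow]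
    linear_combination (1 / (hQ : ℂ)) * Hst (fun x => Q.eval x * wt α n x) z *
      Complex.exp (n * gfun α z) * h2
  have k01 : Tendsto (fun z => Tmat α n P Q hQ z 0 1) (cocompact ℂ ⊓ 𝓟 UH) (𝓝 0) := by
    have := hinv.mul m01
    rw [zero_mul] at this
    refine this.congr' ?_
    filter_upwards [TF.ev_UH] with z hz
    rw [← mul_assoc, inv_mul_cancel₀ (TF.UH_ne hz), one_mul]
  have k10 : Tendsto (fun z => Tmat α n P Q hQ z 1 0) (cocompact ℂ ⊓ 𝓟 UH) (𝓝 0) := by
    have := hinv.mul m10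
    rw [zero_mul] at this
    refine this.congr' ?_
    filter_upwards [TF.ev_UH] with z hz
    rw [← mul_assoc, inv_mul_cancel₀ (TF.UH_ne hz), one_mul]
  refine ⟨TF.tendsto_mat' fun i j => ?_, m01, m10⟩
  fin_cases i <;> fin_cases j
  · exact k00
  · exact k01
  · exact k10
  · exact k11

theorem T_locbdd (α : ℝ) (hα : 1 < α) (n : ℕ) (P Q : Polynomial ℝ) (hP hQ : ℝ)
    (h : OPData α n P Q hP hQ) (B : ℝ) :
    ∃ C : ℝ, ∀ z ∈ UH, ‖z‖ ≤ B → nm (Tmat α n P Q hQ z) ≤ C := by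
  obtain ⟨fP, hfP⟩ := dec_poly α hα n h.n_pos P
  obtain ⟨fQ, hfQ⟩ := dec_poly α hα n h.n_pos Q
  obtain ⟨CP, hCP⟩ := Hst_bound hfP
  obtain ⟨CQ, hCQ⟩ := Hst_bound hfQ
  obtain ⟨Cg, hCg⟩ := gfun_locbdd α hα B
  obtain ⟨DP, hDP⟩ := (isCompact_closedBall (0 : ℂ) B).exists_bound_of_continuousOn
    (P.continuous_aeval (A := ℂ)).continuousOn
  obtain ⟨DQ, hDQ⟩ := (isCompact_closedBall (0 : ℂ) B).exists_bound_of_continuousOn
    (Q.continuous_aeval (A := ℂ)).continuousOn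
  set E : ℝ := Real.exp (n * |Cg| + n * |ell α|) with hE
  refine ⟨|DP| * E + |CP| * E + (Real.exp (n * ell α) / hQ) * |DQ| * E + (1 / hQ) * |CQ| * E,
    fun z hz hzB => ?_⟩
  have hzb : z ∈ Metric.closedBall (0 : ℂ) B := by simpa using hzB
  have p1 : ‖Polynomial.aeval z P‖ ≤ |DP| := (hDP z hzb).trans (le_abs_self _)
  have p2 : ‖Polynomial.aeval z Q‖ ≤ |DQ| := (hDQ z hzb).trans (le_abs_self _)
  have dv : ∀ C : ℝ, C / (1 + ‖z‖) ≤ |C| := by
    intro C
    have h1 : 1 ≤ 1 + ‖z‖ := by linarith [norm_nonneg z]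
    calc C / (1 + ‖z‖) ≤ |C| / (1 + ‖z‖) := by gcongr; exact le_abs_self C
      _ ≤ |C| / 1 := by gcongr
      _ = |C| := div_one _
  have q1 := (hCP z hz).trans (dv CP)
  have q2 := (hCQ z hz).trans (dv CQ)
  have hg : |(gfun α z).re| ≤ |Cg| :=
    (Complex.abs_re_le_norm _).trans ((hCg z hz hzB).trans (le_abs_self _))
  have hg1 := abs_le.mp hg
  have hl := abs_le.mp (le_refl |ell α|)
  have hn0 : (0 : ℝ) ≤ n := by positivity
  have e1 : ‖Complex.exp (-(n * gfun α z))‖ ≤ E := by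
    rw [Complex.norm_exp, hE]
    apply Real.exp_le_exp.mpr
    simp
    nlinarith [hg1.1, abs_nonneg (ell α), mul_nonneg hn0 (abs_nonneg (ell α)),
      mul_le_mul_of_nonneg_left hg1.1 hn0]
  have e2 : ‖Complex.exp (n * gfun α z - n * ell α)‖ ≤ E := by
    rw [Complex.norm_exp, hE]
    apply Real.exp_le_exp.mpr
    simp
    nlinarith [mul_le_mul_of_nonneg_left hg1.2 hn0, mul_le_mul_of_nonneg_left hl.1 hn0]
  have e3 : ‖Complex.exp (n * gfun α z)‖ ≤ E := by
    rw [Complex.norm_exp, hE]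
    apply Real.exp_le_exp.mpr
    simp
    nlinarith [mul_le_mul_of_nonneg_left hg1.2 hn0, mul_nonneg hn0 (abs_nonneg (ell α))]
  have hQp := h.hQ_pos
  have c1 : ‖Complex.exp (n * ell α) / (hQ : ℂ)‖ = Real.exp (n * ell α) / hQ := by
    rw [norm_div, Complex.norm_exp, Complex.norm_real, Real.norm_eq_abs, abs_of_pos hQp]
    simp
  have c2 : ‖1 / (hQ : ℂ)‖ = 1 / hQ := by
    rw [norm_div, norm_one, Complex.norm_real, Real.norm_eq_abs, abs_of_pos hQp]
  simp only [nm, Tmat, Matrix.of_apply, Matrix.cons_val', Matrix.cons_val_zero,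
    Matrix.cons_val_one, Matrix.cons_val_fin_one, norm_mul, c1, c2]
  have hE0 : 0 ≤ E := (Real.exp_pos _).le
  gcongr

theorem T_bdry (α : ℝ) (hα : 1 < α) (n : ℕ) (P Q : Polynomial ℝ) (hP hQ : ℝ)
    (h : OPData α n P Q hP hQ) (x : ℝ) (b : ℂ)
    (hb : Tendsto (fun ε : ℝ => gfun α (x + ε * Complex.I)) (𝓝[>] 0) (𝓝 b)) :
    ∃ A : Matrix (Fin 2) (Fin 2) ℝ,
      Tendsto (fun ε : ℝ => Tmat α n P Q hQ (x + ε * Complex.I)) (𝓝[>] 0)
        (𝓝 (A.map (fun t : ℝ => (t : ℂ)) * !![1, -(Complex.I / 2) * (wt α n x : ℂ); 0, 1] *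
          !![Complex.exp (-(n * b)), 0; 0, Complex.exp (n * b - n * ell α)])) := by
  obtain ⟨fP, hfP⟩ := dec_poly α hα n h.n_pos P
  obtain ⟨fQ, hfQ⟩ := dec_poly α hα n h.n_pos Q
  obtain ⟨LP, hLP⟩ := Hst_bdry hfP x
  obtain ⟨LQ, hLQ⟩ := Hst_bdry hfQ x
  refine ⟨!![P.eval x, LP; Real.exp (n * ell α) / hQ * Q.eval x,
    Real.exp (n * ell α) / hQ * LQ], ?_⟩
  have hv : Tendsto (fun ε : ℝ => (x : ℂ) + ε * Complex.I) (𝓝[>] 0) (𝓝 (x : ℂ)) := by
    have : Tendsto (fun ε : ℝ => (x : ℂ) + ε * Complex.I) (𝓝 0)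
        (𝓝 ((x : ℂ) + (0 : ℝ) * Complex.I)) :=
      Continuous.tendsto (by fun_prop) 0
    rw [Complex.ofReal_zero, zero_mul, add_zero] at this
    exact this.mono_left nhdsWithin_le_nhds
  have hPc : Tendsto (fun ε : ℝ => Polynomial.aeval ((x : ℂ) + ε * Complex.I) P) (𝓝[>] 0)
      (𝓝 ((P.eval x : ℝ) : ℂ)) := by
    have := ((P.continuous_aeval (A := ℂ)).tendsto (x : ℂ)).comp hv
    have e : Polynomial.aeval (x : ℂ) P = ((P.eval x : ℝ) : ℂ) := by
      have := Polynomial.aeval_algebraMap_apply ℂ x P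
      simpa using this
    rw [e] at this
    exact this
  have hQc : Tendsto (fun ε : ℝ => Polynomial.aeval ((x : ℂ) + ε * Complex.I) Q) (𝓝[>] 0)
      (𝓝 ((Q.eval x : ℝ) : ℂ)) := by
    have := ((Q.continuous_aeval (A := ℂ)).tendsto (x : ℂ)).comp hv
    have e : Polynomial.aeval (x : ℂ) Q = ((Q.eval x : ℝ) : ℂ) := by
      have := Polynomial.aeval_algebraMap_apply ℂ x Q
      simpa using this
    rw [e] at this
    exact this
  have he1 : Tendsto (fun ε : ℝ => Complex.exp (-(n * gfun α (x + ε * Complex.I)))) (𝓝[>] 0)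
      (𝓝 (Complex.exp (-(n * b)))) :=
    (Complex.continuous_exp.tendsto _).comp ((hb.const_mul (n : ℂ)).neg)
  have he2 : Tendsto (fun ε : ℝ => Complex.exp (n * gfun α (x + ε * Complex.I) - n * ell α))
      (𝓝[>] 0) (𝓝 (Complex.exp (n * b - n * ell α))) :=
    (Complex.continuous_exp.tendsto _).comp ((hb.const_mul (n : ℂ)).sub_const _)
  have he3 : Tendsto (fun ε : ℝ => Complex.exp (n * gfun α (x + ε * Complex.I)))
      (𝓝[>] 0) (𝓝 (Complex.exp (n * b))) :=
    (Complex.continuous_exp.tendsto _).comp (hb.const_mul (n : ℂ))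
  have hQne : (hQ : ℂ) ≠ 0 := by exact_mod_cast h.hQ_pos.ne'
  have e3 : Complex.exp (n * b) = Complex.exp (n * ell α) * Complex.exp (n * b - n * ell α) := by
    rw [← Complex.exp_add]; congr 1; ring
  apply TF.tendsto_mat'
  intro i j
  fin_cases i <;> fin_cases j
  · simp only [Tmat, Matrix.of_apply, Matrix.cons_val', Matrix.cons_val_zero,
      Matrix.cons_val_fin_one, Fin.zero_eta]
    convert hPc.mul he1 using 2
    simp [Matrix.mul_apply, Fin.sum_univ_two]
  · simp only [Tmat, Matrix.of_apply, Matrix.cons_val', Matrix.cons_val_zero,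
      Matrix.cons_val_one, Matrix.cons_val_fin_one, Fin.zero_eta, Fin.mk_one]
    convert hLP.mul he2 using 2
    simp [Matrix.mul_apply, Fin.sum_univ_two]
    ring
  · simp only [Tmat, Matrix.of_apply, Matrix.cons_val', Matrix.cons_val_zero,
      Matrix.cons_val_one, Matrix.cons_val_fin_one, Fin.zero_eta, Fin.mk_one]
    convert (hQc.const_mul (Complex.exp (n * ell α) / hQ)).mul he1 using 2
    simp [Matrix.mul_apply, Fin.sum_univ_two]
  · simp only [Tmat, Matrix.of_apply, Matrix.cons_val', 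
      Matrix.cons_val_one, Matrix.cons_val_fin_one, Fin.mk_one]
    convert (hLQ.const_mul (1 / (hQ : ℂ))).mul he3 using 2
    rw [e3]
    simp [Matrix.mul_apply, Fin.sum_univ_two]
    ring

end Pool.Agent.Freud
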