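import Pool.Agent.Freud.AsmCont
import Pool.Agent.Freud.BdryReal
import Pool.Agent.Freud.KSInf
import Pool.Agent.Freud.TFacts
import Pool.Agent.Freud.Pompeiu

/-!
The error matrix solves the integral equation (part R of BLUEPRINT.md).
-/

set_option autoImplicit false

open MeasureTheory Filter Topology Asymptotics

namespace Pool.Agent.Freud

theorem HasR.add {F F' : ℂ → Mat2} {x : ℝ} (h : HasR F x) (h' : HasR F' x) :
    HasR (fun z => F z + F' z) x := by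
  obtain ⟨A, hA⟩ := h
  obtain ⟨A', hA'⟩ := h'
  refine ⟨A + A', ?_⟩
  have e : (A + A').map (fun t : ℝ => (t : ℂ)) =
      A.map (fun t : ℝ => (t : ℂ)) + A'.map (fun t : ℝ => (t : ℂ)) := by
    ext i j
    simp
  rw [e]
  exact hA.add hA'

theorem HasR.const (A : Matrix (Fin 2) (Fin 2) ℝ) (x : ℝ) :
    HasR (fun _ => A.map (fun t : ℝ => (t : ℂ))) x := ⟨A, tendsto_const_nhds⟩

theorem HasR.one (x : ℝ) : HasR (fun _ => (1 : Mat2)) x := by
  refine ⟨1, ?_⟩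
  have e : (1 : Matrix (Fin 2) (Fin 2) ℝ).map (fun t : ℝ => (t : ℂ)) = (1 : Mat2) :=
    Matrix.map_one _ Complex.ofReal_zero Complex.ofReal_one
  rw [e]
  exact tendsto_const_nhds

theorem HasR.zero (x : ℝ) : HasR (fun _ => (0 : Mat2)) x := by
  refine ⟨0, ?_⟩
  have e : (0 : Matrix (Fin 2) (Fin 2) ℝ).map (fun t : ℝ => (t : ℂ)) = (0 : Mat2) :=
    Matrix.map_zero _ Complex.ofReal_zero
  rw [e]
  exact tendsto_const_nhds

theorem HasR.smul {r : ℂ → ℝ} (hr : Continuous r) {F : ℂ → Mat2} {x : ℝ} (h : HasR F x) :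
    HasR (fun z => (r z : ℂ) • F z) x := by
  obtain ⟨A, hA⟩ := h
  refine ⟨r x • A, ?_⟩
  have e : (r x • A).map (fun t : ℝ => (t : ℂ)) = (r x : ℂ) • A.map (fun t : ℝ => (t : ℂ)) := by
    ext i j
    simp
  rw [e]
  have h1 : Tendsto (fun ε : ℝ => ((r (x + ε * Complex.I) : ℝ) : ℂ)) (𝓝[>] 0) (𝓝 (r x : ℂ)) :=
    (Complex.continuous_ofReal.tendsto _).comp ((hr.tendsto _).comp (tendsto_vert x))
  exact h1.smul hA

theorem HasR.sub_one {F : ℂ → Mat2} {x : ℝ} (h : HasR F x) : HasR (fun z => F z - 1) x := by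
  obtain ⟨A, hA⟩ := h
  refine ⟨A - 1, ?_⟩
  have e : (A - 1).map (fun t : ℝ => (t : ℂ)) = A.map (fun t : ℝ => (t : ℂ)) - 1 := by
    ext i j
    fin_cases i <;> fin_cases j <;> simp
  rw [e]
  exact hA.sub tendsto_const_nhds

theorem HasR.congr {F F' : ℂ → Mat2} {x : ℝ} (h : HasR F x)
    (h' : ∀ᶠ ε : ℝ in 𝓝[>] 0, F' (x + ε * Complex.I) = F (x + ε * Complex.I)) :
    HasR F' x := by
  obtain ⟨A, hA⟩ := h
  refine ⟨A, hA.congr' ?_⟩
  filter_upwards [h'] with ε hε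
  rw [hε]

section

variable {α δ y0 c m1 : ℝ} {m : ℂ → ℂ} {n : ℕ}

theorem vert_norm_sub (x ε : ℝ) : |x - 1| ≤ ‖(x : ℂ) + ε * Complex.I - 1‖ := by
  have := Complex.abs_re_le_norm ((x : ℂ) + ε * Complex.I - 1)
  simpa using this

theorem vert_norm_add (x ε : ℝ) : |x + 1| ≤ ‖(x : ℂ) + ε * Complex.I + 1‖ := by
  have := Complex.abs_re_le_norm ((x : ℂ) + ε * Complex.I + 1)
  simpa using this

theorem vert_sub_lt {x r : ℝ} (h : |x - 1| < r) :
    ∀ᶠ ε : ℝ in 𝓝[>] 0, ‖(x : ℂ) + ε * Complex.I - 1‖ < r := by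
  have h1 : Tendsto (fun ε : ℝ => ‖(x : ℂ) + ε * Complex.I - 1‖) (𝓝[>] 0) (𝓝 ‖(x : ℂ) - 1‖) :=
    ((tendsto_vert x).sub_const 1).norm
  have h2 : ‖(x : ℂ) - 1‖ = |x - 1| := by
    have : (x : ℂ) - 1 = ((x - 1 : ℝ) : ℂ) := by push_cast; ring
    rw [this, Complex.norm_real, Real.norm_eq_abs]
  rw [h2] at h1
  exact h1.eventually (gt_mem_nhds h)

theorem vert_add_lt {x r : ℝ} (h : |x + 1| < r) :
    ∀ᶠ ε : ℝ in 𝓝[>] 0, ‖(x : ℂ) + ε * Complex.I + 1‖ < r := by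
  have h1 : Tendsto (fun ε : ℝ => ‖(x : ℂ) + ε * Complex.I + 1‖) (𝓝[>] 0) (𝓝 ‖(x : ℂ) + 1‖) :=
    ((tendsto_vert x).add_const 1).norm
  have h2 : ‖(x : ℂ) + 1‖ = |x + 1| := by
    have : (x : ℂ) + 1 = ((x + 1 : ℝ) : ℂ) := by push_cast; ring
    rw [this, Complex.norm_real, Real.norm_eq_abs]
  rw [h2] at h1
  exact h1.eventually (gt_mem_nhds h)

theorem X1_HasR (hα : 1 < α) (hδ : 0 < δ) (hδ' : δ < 1 / 2) (hL : LocMap α δ m1 m)
    (hn : 1 ≤ n) (hy : 0 < y0) {x : ℝ} (hx1 : x ≠ 1) : HasR (X1 α n y0 δ m) x := by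
  by_cases h : |x - 1| < δ
  · obtain ⟨A, _, hA⟩ := Ploc_HasJ hα hL hn h hx1
    have hx0 : x ≠ 0 := by
      rintro rfl
      simp at h
      linarith
    have hx2 : |x| ≠ 1 := by
      intro h0
      rw [abs_lt] at h
      rcases abs_eq (zero_le_one) |>.mp h0 with h1 | h1
      · exact hx1 h1
      · linarith
    have h1 := hA.lens hα hy hx0 hx2
    exact HasR.smul (eta_cont δ) h1.sub_one
  · push Not at h
    refine (HasR.zero x).congr ?_
    refine Eventually.of_forall fun ε => ?_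
    apply X1_zero hδ
    have := vert_norm_sub x ε
    linarith

theorem Ymat_HasR (hα : 1 < α) (hδ : 0 < δ) (hδ' : δ < 1 / 2) (hL : LocMap α δ m1 m)
    (hn : 1 ≤ n) (hy : 0 < y0) {x : ℝ} (hx1 : x ≠ 1) (hx2 : x ≠ -1) :
    HasR (Ymat α n y0 δ m) x := by
  have h1 := X1_HasR hα hδ hδ' hL hn hy hx1
  have h2 : HasR (X1 α n y0 δ m) (-x) :=
    X1_HasR hα hδ hδ' hL hn hy (fun h => hx2 (by linarith))
  exact ((HasR.one x).add h1).add h2.refl

theorem T_HasJ (hα : 1 < α) {P Q : Polynomial ℝ} {hP hQ : ℝ} (h : OPData α n P Q hP hQ) (x : ℝ) :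
    ∃ A, HasJ α n (Tmat α n P Q hQ) x A := by
  obtain ⟨b, hb, _⟩ := gfun_bdry α hα x
  obtain ⟨A, hA⟩ := T_bdry α hα n P Q hP hQ h x b hb
  refine ⟨A, b, hb, ?_⟩
  unfold Jmat
  rw [← mul_assoc]
  exact hA

theorem Rmat_HasR (hα : 1 < α) (hδ : 0 < δ) (hδ' : δ < 1 / 2) (hL : LocMap α δ m1 m)
    (hn : 1 ≤ n) (hy : 0 < y0)
    (hX : ∀ z ∈ ann δ, nm (Xrat α n y0 m z - 1) ≤ 1 / 4)
    {P Q : Polynomial ℝ} {hP hQ : ℝ} (h : OPData α n P Q hP hQ) {x : ℝ}
    (hx0 : x ≠ 0) (hx1 : x ≠ 1) (hx2 : x ≠ -1) :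
    HasR (Rmat α y0 δ m n (Tmat α n P Q hQ)) x := by
  obtain ⟨A, hA⟩ := T_HasJ hα h x
  have habs : |x| ≠ 1 := by
    intro h0
    rcases abs_eq (zero_le_one) |>.mp h0 with h1 | h1
    · exact hx1 h1
    · exact hx2 h1
  by_cases h1 : |x - 1| < δ / 2
  · obtain ⟨A', hd, hA'⟩ := Ploc_HasJ hα hL hn (by linarith : |x - 1| < δ) hx1
    refine (hA.div hA' hd).congr ?_
    filter_upwards [vert_sub_lt h1] with ε hε
    unfold Rmat
    rw [if_pos hε]
  by_cases h2 : |x + 1| < δ / 2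
  · have h3 : |(-x) - 1| < δ := by
      have : |(-x) - 1| = |x + 1| := by rw [← abs_neg]; congr 1; ring
      rw [this]; linarith
    obtain ⟨A', hd, hA'⟩ := Ploc_HasJ hα hL hn h3 (fun h => hx2 (by linarith))
    obtain ⟨A'', hd', hA''⟩ := hA'.refl hα
    refine (hA.div hA'' (by rw [hd']; exact hd)).congr ?_
    filter_upwards [vert_add_lt h2] with ε hε
    unfold Rmat
    rw [if_neg, if_pos hε]
    have := norm_sub_one_ge ((x : ℂ) + ε * Complex.I)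
    linarith
  push Not at h1 h2
  have h3 := hA.lens hα hy hx0 habs
  have h4 := Ymat_HasR hα hδ hδ' hL hn hy hx1 hx2
  have h5 : HasR (fun z => (Ymat α n y0 δ m z)⁻¹) x := by
    refine h4.inv ?_
    filter_upwards [self_mem_nhdsWithin] with ε hε
    have := Ymat_near hδ hδ' hX (vert_mem x hε)
      ⟨h1.trans (vert_norm_sub x ε), h2.trans (vert_norm_add x ε)⟩
    linarith
  refine (h3.mul h5).congr ?_
  refine Eventually.of_forall fun ε => ?_
  unfold Rmat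
  rw [if_neg, if_neg]
  · have := vert_norm_add x ε
    linarith
  · have := vert_norm_sub x ε
    linarith

/-! ### Behaviour at infinity -/

theorem eventually_norm_ge (r : ℝ) : ∀ᶠ z in cocompact ℂ ⊓ 𝓟 UH, r ≤ ‖z‖ :=
  tendsto_norm_inf.eventually_ge_atTop r

theorem tendsto_Gmat_inf (hG : Geo α δ y0 c) (hδ' : δ < 1 / 2) (hn : 1 ≤ n) :
    Tendsto (Gmat α n y0) (cocompact ℂ ⊓ 𝓟 UH) (𝓝 1) := by
  have hc := hG.c_pos
  have hn' : (0 : ℝ) < n := by exact_mod_cast hn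
  have h1 : Tendsto (fun z : ℂ => Real.exp (-(2 * n * (c * (‖z‖ - 1))))) (cocompact ℂ ⊓ 𝓟 UH)
      (𝓝 0) := by
    apply Real.tendsto_exp_neg_atTop_nhds_zero.comp
    apply Tendsto.const_mul_atTop (by positivity)
    apply Tendsto.const_mul_atTop hc
    exact tendsto_atTop_add_const_right _ _ tendsto_norm_inf
  rw [tendsto_mat]
  intro i j
  have h2 : Tendsto (fun z : ℂ => Gmat α n y0 z i j - (1 : Mat2) i j) (cocompact ℂ ⊓ 𝓟 UH)
      (𝓝 0) := by
    apply squeeze_zero_norm' _ h1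
    filter_upwards [eventually_UH, eventually_norm_ge 3] with z hz hz3
    exact (norm_le_nm (Gmat α n y0 z - 1) i j).trans
      (Gmat_sub_one_bound hG hδ' n hz hz3)
  have h3 := h2.add_const ((1 : Mat2) i j)
  simpa using h3

theorem Rmat_far (hδ : 0 < δ) (hδ' : δ < 1 / 2) {T : ℂ → Mat2} {z : ℂ} (hz : 3 ≤ ‖z‖) :
    Rmat α y0 δ m n T z = T z * Gmat α n y0 z * Ninv z := by
  have h1 : 2 ≤ ‖z - 1‖ := by
    have h : ‖z‖ ≤ ‖z - 1‖ + 1 := by
      have : z = (z - 1) + 1 := by ring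
      conv_lhs => rw [this]
      refine (norm_add_le _ _).trans ?_
      simp
    linarith
  have h2 : 2 ≤ ‖z + 1‖ := by
    have h : ‖z‖ ≤ ‖z + 1‖ + 1 := by
      have : z = (z + 1) - 1 := by ring
      conv_lhs => rw [this]
      refine (norm_sub_le _ _).trans ?_
      simp
    linarith
  unfold Rmat
  rw [if_neg (by linarith), if_neg (by linarith), Ymat_one hδ (by linarith) (by linarith)]
  simp

theorem Rmat_inf (hG : Geo α δ y0 c) (hδ : 0 < δ) (hδ' : δ < 1 / 2) (hn : 1 ≤ n)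
    {T : ℂ → Mat2} (hT : Tendsto T (cocompact ℂ ⊓ 𝓟 UH) (𝓝 1)) :
    Tendsto (Rmat α y0 δ m n T) (cocompact ℂ ⊓ 𝓟 UH) (𝓝 1) := by
  have h1 := (hT.mul (tendsto_Gmat_inf hG hδ' hn)).mul tendsto_Ninv_inf
  rw [mul_one, mul_one] at h1
  refine h1.congr' ?_
  filter_upwards [eventually_norm_ge 3] with z hz
  exact (Rmat_far hδ hδ' hz).symm

theorem nm_continuous : Continuous nm := by
  unfold nm
  have h : ∀ i j : Fin 2, Continuous fun A : Mat2 => ‖A i j‖ := fun i j =>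
    (continuous_id.matrix_elem i j).norm
  exact (((h 0 0).add (h 0 1)).add (h 1 0)).add (h 1 1)

/-- A function with a limit at infinity is bounded there. -/
theorem bdd_of_tendsto {F : ℂ → Mat2} {A : Mat2}
    (h : Tendsto F (cocompact ℂ ⊓ 𝓟 UH) (𝓝 A)) :
    ∃ r : ℝ, ∀ z ∈ UH, r ≤ ‖z‖ → nm (F z) ≤ nm A + 1 := by
  have h1 : Tendsto (fun z => nm (F z)) (cocompact ℂ ⊓ 𝓟 UH) (𝓝 (nm A)) :=
    (nm_continuous.tendsto A).comp h
  have h2 : ∀ᶠ z in cocompact ℂ ⊓ 𝓟 UH, nm (F z) ≤ nm A + 1 :=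
    (h1.eventually (gt_mem_nhds (by linarith : nm A < nm A + 1))).mono fun z hz => hz.le
  rw [eventually_inf_principal, ← Metric.cobounded_eq_cocompact] at h2
  rw [(Filter.hasBasis_cobounded_norm (E := ℂ)).eventually_iff] at h2
  obtain ⟨r, _, hr⟩ := h2
  exact ⟨r, fun z hz hzr => hr hzr hz⟩

theorem Ploc_bdd (hα : 1 < α) (hδ' : δ < 1 / 2) (hL : LocMap α δ m1 m) (hn : 1 ≤ n) :
    ∃ C : ℝ, ∀ z ∈ UH, ‖z - 1‖ ≤ 3 * δ / 4 → nm (Ploc α n m z) ≤ C := by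
  obtain ⟨⟨C1, hC1⟩, _⟩ := Ploc_bdry α δ m1 hα m hL n hn
  obtain ⟨C2, hC2⟩ := gfun_locbdd α hα 2
  set K : ℝ := C2 + |kap α| * 2 ^ α / 2 + |ell α| / 2 with hK
  have hδ := hL.δ_pos
  refine ⟨|C1| * (2 * Real.exp (n * K)), fun z hz hz1 => ?_⟩
  have hz2 : ‖z‖ ≤ 2 := by
    have : z = (z - 1) + 1 := by ring
    rw [this]
    refine (norm_add_le _ _).trans ?_
    rw [norm_one]
    linarith
  have hz0 : z ≠ 0 := by
    rintro rfl
    simp [UH] at hz
  have hxi : ‖xiR α z‖ ≤ K := by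
    unfold xiR
    have e1 : ‖(kap α : ℂ) * z ^ (α : ℂ) / 2‖ ≤ |kap α| * 2 ^ α / 2 := by
      rw [norm_div, norm_mul, Complex.norm_real, Real.norm_eq_abs,
        Complex.norm_cpow_of_ne_zero hz0]
      have h2 : ‖(2 : ℂ)‖ = 2 := by simp
      rw [h2, Complex.ofReal_re, Complex.ofReal_im, mul_zero, Real.exp_zero, div_one]
      have : ‖z‖ ^ α ≤ 2 ^ α := Real.rpow_le_rpow (norm_nonneg _) hz2 (by linarith)
      gcongr
    have e2 : ‖(ell α : ℂ) / 2‖ ≤ |ell α| / 2 := by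
      rw [norm_div, Complex.norm_real, Real.norm_eq_abs]
      simp
    refine (norm_sub_le _ _).trans ?_
    have := norm_sub_le (gfun α z) ((kap α : ℂ) * z ^ (α : ℂ) / 2)
    have := hC2 z hz hz2
    linarith
  have hexp : ∀ w : ℂ, ‖w‖ ≤ n * K → ‖Complex.exp w‖ ≤ Real.exp (n * K) := by
    intro w hw
    rw [Complex.norm_exp]
    exact Real.exp_le_exp.mpr ((Complex.re_le_norm w).trans hw)
  have hnx : ‖(n : ℂ) * xiR α z‖ ≤ n * K := by
    rw [norm_mul, Complex.norm_natCast]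
    gcongr
  have hb1 := hexp _ hnx
  have hb2 := hexp (-(n * xiR α z)) (by rwa [norm_neg])
  have hPe : Ploc α n m z = (Ploc α n m z *
      !![Complex.exp (n * xiR α z), 0; 0, Complex.exp (-(n * xiR α z))]) *
      !![Complex.exp (-(n * xiR α z)), 0; 0, Complex.exp (n * xiR α z)] := by
    rw [mul_assoc]
    have : (!![Complex.exp (n * xiR α z), 0; 0, Complex.exp (-(n * xiR α z))] : Mat2) *
      !![Complex.exp (-(n * xiR α z)), 0; 0, Complex.exp (n * xiR α z)] = 1 := by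
      rw [Matrix.mul_fin_two, ← Complex.exp_add, ← Complex.exp_add]
      simp [Matrix.one_fin_two]
    rw [this, mul_one]
  rw [hPe]
  refine (nm_mul _ _).trans ?_
  have h1 := hC1 z hz hz1
  have h2 : nm (!![Complex.exp (-(n * xiR α z)), 0; 0, Complex.exp (n * xiR α z)] : Mat2) ≤
      2 * Real.exp (n * K) := by
    simp only [nm, Matrix.of_apply, Matrix.cons_val', Matrix.cons_val_zero,
      Matrix.cons_val_one, Matrix.cons_val_fin_one, norm_zero]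
    linarith
  exact mul_le_mul (h1.trans (le_abs_self _)) h2 (nm_nonneg _) (abs_nonneg _)

theorem nm_inv_of_det {A : Mat2} (h : A.det = 1) : nm A⁻¹ = nm A := by
  rw [Matrix.inv_def, Matrix.adjugate_fin_two, h]
  simp [nm]
  ring

theorem Rmat_bdd (hα : 1 < α) (hδ : 0 < δ) (hδ' : δ < 1 / 2) (hG : Geo α δ y0 c)
    (hL : LocMap α δ m1 m) (hn : 1 ≤ n)
    (hX : ∀ z ∈ ann δ, nm (Xrat α n y0 m z - 1) ≤ 1 / 4) {T : ℂ → Mat2} {CT : ℝ}
    (hT : ∀ z ∈ UH, nm (T z) ≤ CT) :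
    ∃ C : ℝ, ∀ z ∈ UH, nm (Rmat α y0 δ m n T z) ≤ C := by
  obtain ⟨CP, hCP⟩ := Ploc_bdd hα hδ' hL hn
  have hy8 := hG.y0_le
  set D : ℝ := 4 * (1 + 2 / (δ / 2)) with hD
  have hD0 : 0 ≤ D := by positivity
  have hdet : ∀ w ∈ UH, ‖w - 1‖ < δ → (Ploc α n m w).det = 1 := by
    intro w hw h
    refine Ploc_det α δ m1 hα m hL n hn w ?_ hw
    rwa [Metric.mem_ball, dist_eq_norm]
  refine ⟨|CT| * |CP| + |CT| * 3 * D * 10, fun z hz => ?_⟩
  have hTz := (hT z hz).trans (le_abs_self CT)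
  have a1 : 0 ≤ |CT| * |CP| := by positivity
  have a2 : 0 ≤ |CT| * 3 * D * 10 := by positivity
  unfold Rmat
  split_ifs with h1 h2
  · refine (nm_mul _ _).trans ?_
    rw [nm_inv_of_det (hdet z hz (by linarith))]
    have := (hCP z hz (by linarith)).trans (le_abs_self CP)
    have := mul_le_mul hTz this (nm_nonneg _) (abs_nonneg CT)
    linarith
  · refine (nm_mul _ _).trans ?_
    have hmz : ‖mc z - 1‖ < δ := by rw [norm_mc_sub_one]; linarith
    have hd : (refl (Ploc α n m) z).det = 1 := by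
      rw [refl_det, hdet _ (mc_mem hz) hmz]
      simp
    rw [nm_inv_of_det hd, nm_refl]
    have := (hCP _ (mc_mem hz) (by rw [norm_mc_sub_one]; linarith)).trans (le_abs_self CP)
    have := mul_le_mul hTz this (nm_nonneg _) (abs_nonneg CT)
    linarith
  · push Not at h1 h2
    have ho : Outer δ z := ⟨h1, h2⟩
    have g1 := Gmat_bound hG n hz (outer_good hy8 hz ho)
    have g2 := Ninv_bound (by positivity : 0 < δ / 2) ho.1 ho.2
    have hYn := Ymat_near hδ hδ' hX hz ho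
    have g3 := inv_near_one (A := Ymat α n y0 δ m z) (by linarith)
    have b1 := (nm_mul (T z) (Gmat α n y0 z)).trans
      (mul_le_mul hTz g1 (nm_nonneg _) (abs_nonneg CT))
    have b2 := (nm_mul (T z * Gmat α n y0 z) (Ninv z)).trans
      (mul_le_mul b1 g2 (nm_nonneg _) (by positivity))
    have b3 := (nm_mul (T z * Gmat α n y0 z * Ninv z) ((Ymat α n y0 δ m z)⁻¹)).trans
      (mul_le_mul b2 g3 (nm_nonneg _) (by positivity))
    rw [← hD] at b3
    linarith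

theorem T_bdd (hα : 1 < α) {P Q : Polynomial ℝ} {hP hQ : ℝ} (h : OPData α n P Q hP hQ) :
    ∃ C : ℝ, ∀ z ∈ UH, nm (Tmat α n P Q hQ z) ≤ C := by
  obtain ⟨r, hr⟩ := bdd_of_tendsto (T_inf α hα n P Q hP hQ h).1
  obtain ⟨C, hC⟩ := T_locbdd α hα n P Q hP hQ h r
  refine ⟨max C (nm 1 + 1), fun z hz => ?_⟩
  rcases le_total r ‖z‖ with h1 | h1
  · exact (hr z hz h1).trans (le_max_right _ _)
  · exact (hC z hz h1).trans (le_max_left _ _)

end

end Pool.Agent.Freud
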