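import Pool.Agent.Freud.AsmSol
import Pool.Agent.Freud.AnnExp

/-!
The assembly: the integral equation for the error matrix (part R of BLUEPRINT.md).
-/

set_option autoImplicit false

open MeasureTheory Filter Topology Asymptotics

namespace Pool.Agent.Freud

section

variable {α δ y0 c m1 : ℝ} {m : ℂ → ℂ} {n : ℕ}

/-- Exponential bound for `Wtot` (constants may depend on `n`). -/
theorem Wtot_bound (hα : 1 < α) (hδ : 0 < δ) (hδ' : δ < 1 / 2) (hG : Geo α δ y0 c)
    (hn : 1 ≤ n) (hX : ∀ z ∈ ann δ, nm (Xrat α n y0 m z - 1) ≤ 1 / 4)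
    {B : ℝ} (hB : ∀ s ∈ Aset δ, nm (Wann α y0 δ m n s) ≤ B) :
    ∃ C c' : ℝ, 0 < c' ∧ ∀ z ∈ UH, nm (Wtot α y0 δ m n z) ≤ C * Real.exp (-(c' * ‖z‖)) := by
  obtain ⟨C1, c1, hc1, hC1, h1⟩ := Wrem_bound (m := m) hδ hδ' hG
  obtain ⟨c2, C2, hc2, h2⟩ := W0_bound α δ y0 c hα hδ hδ' hG
  have hy := hG.y0_pos
  have hy8 := hG.y0_le
  have hn' : (1 : ℝ) ≤ n := by exact_mod_cast hn
  refine ⟨|B| * Real.exp (c1 * 2) + |C2| * n * Real.exp (c1 * 1) + C1, c1, hc1, fun z hz => ?_⟩
  have e1 : nm (Wann α y0 δ m n z) ≤ |B| * Real.exp (c1 * 2) * Real.exp (-(c1 * ‖z‖)) := by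
    by_cases hA : z ∈ Aset δ
    · have hz2 := (Aset_loc hδ hδ' hA).2
      have : 1 ≤ Real.exp (c1 * 2) * Real.exp (-(c1 * ‖z‖)) := by
        rw [← Real.exp_add]
        apply Real.one_le_exp
        nlinarith
      calc nm (Wann α y0 δ m n z) ≤ |B| * 1 := by
            rw [mul_one]; exact (hB z hA).trans (le_abs_self B)
        _ ≤ |B| * (Real.exp (c1 * 2) * Real.exp (-(c1 * ‖z‖))) := by
            gcongr
        _ = _ := by ring
    · have : Wann α y0 δ m n z = 0 := by
        unfold Wann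
        rw [if_neg hA]
      rw [this, nm_zero]
      positivity
  have e2 : nm (W0 α n y0 z) ≤ |C2| * n * Real.exp (c1 * 1) * Real.exp (-(c1 * ‖z‖)) := by
    by_cases hb : 2 * y0 ≤ ‖z‖
    · rw [W0_zero_big hy hz hb, nm_zero]
      positivity
    · push Not at hb
      have hz1 : ‖z‖ ≤ 1 := by linarith
      have h3 := (h2 n hn z hz).1
      have h4 : ‖z‖ ^ (α - 1) ≤ 1 := Real.rpow_le_one (norm_nonneg _) hz1 (by linarith)
      have h5 : Real.exp (-(c2 * n * ‖z‖)) ≤ 1 := by
        apply Real.exp_le_one_iff.mpr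
        have : 0 ≤ c2 * n * ‖z‖ := by positivity
        linarith
      have h6 : 1 ≤ Real.exp (c1 * 1) * Real.exp (-(c1 * ‖z‖)) := by
        rw [← Real.exp_add]
        apply Real.one_le_exp
        nlinarith
      have h7 : 0 ≤ ‖z‖ ^ (α - 1) := Real.rpow_nonneg (norm_nonneg _) _
      calc nm (W0 α n y0 z) ≤ C2 * n * ‖z‖ ^ (α - 1) * Real.exp (-(c2 * n * ‖z‖)) := h3
        _ ≤ |C2| * n * 1 * 1 := by
            gcongr
            exact le_abs_self C2
        _ = |C2| * n * 1 := by ring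
        _ ≤ |C2| * n * (Real.exp (c1 * 1) * Real.exp (-(c1 * ‖z‖))) := by gcongr
        _ = _ := by ring
  have e3 : nm (Wrem α y0 δ m n z) ≤ C1 * Real.exp (-(c1 * ‖z‖)) := by
    refine (h1 n hn hX z hz).trans ?_
    have : Real.exp (-(c1 * n)) ≤ 1 := by
      apply Real.exp_le_one_iff.mpr
      have : 0 ≤ c1 * n := by positivity
      linarith
    calc C1 * Real.exp (-(c1 * n)) * Real.exp (-(c1 * ‖z‖))
        ≤ C1 * 1 * Real.exp (-(c1 * ‖z‖)) := by gcongr
      _ = _ := by ring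
  unfold Wtot
  have t1 := nm_add (Wann α y0 δ m n z + W0 α n y0 z) (Wrem α y0 δ m n z)
  have t2 := nm_add (Wann α y0 δ m n z) (W0 α n y0 z)
  calc nm (Wann α y0 δ m n z + W0 α n y0 z + Wrem α y0 δ m n z)
      ≤ |B| * Real.exp (c1 * 2) * Real.exp (-(c1 * ‖z‖)) +
        |C2| * n * Real.exp (c1 * 1) * Real.exp (-(c1 * ‖z‖)) +
        C1 * Real.exp (-(c1 * ‖z‖)) := by linarith
    _ = _ := by ring

theorem T_hasDbar (hα : 1 < α) {P Q : Polynomial ℝ} {hP hQ : ℝ} (h : OPData α n P Q hP hQ)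
    {z : ℂ} (hz : z ∈ UH) : HasDbarM (Tmat α n P Q hQ) 0 z := fun i j =>
  HasDbar.of_hasDerivAt (T_diff α hα n P Q hP hQ h z hz i j).hasDerivAt

/-- The integral equation and the formula for `hP / hQ`. -/
theorem Rmat_solution (hα : 1 < α) (hδ : 0 < δ) (hδ' : δ < 1 / 2) (hG : Geo α δ y0 c)
    (hL : LocMap α δ m1 m) (hn : 1 ≤ n)
    (hX : ∀ z ∈ ann δ, nm (Xrat α n y0 m z - 1) ≤ 1 / 4)
    {B : ℝ} (hB : ∀ s ∈ Aset δ, nm (Wann α y0 δ m n s) ≤ B)
    {P Q : Polynomial ℝ} {hP hQ : ℝ} (h : OPData α n P Q hP hQ) :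
    ∃ R : ℂ → Mat2, ContinuousOn R UH ∧ (∃ B : ℝ, ∀ z ∈ UH, nm (R z) ≤ B) ∧
      (∀ z ∈ UH, R z = 1 + KK (fun s => R s * Wtot α y0 δ m n s) z) ∧
      hP / hQ =
        (1 / 2 + (2 / Real.pi) * (IU (fun s => R s * Wtot α y0 δ m n s) 0 1).re) *
        (1 / 2 + (2 / Real.pi) * (IU (fun s => R s * Wtot α y0 δ m n s) 1 0).re) := by
  have hy := hG.y0_pos
  have hy8 := hG.y0_le
  have hy1 : y0 ≤ 1 := by linarith
  set T := Tmat α n P Q hQ with hTdef
  set R := Rmat α y0 δ m n T with hR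
  set W := Wtot α y0 δ m n with hW
  have hD : ∀ z ∈ UH, HasDbarM R (R z * W z) z := fun z hz =>
    Rmat_hasDbar hα hδ hδ' hL hn hy hy8 hX hz (T_hasDbar hα h hz)
  have hRc : ContinuousOn R UH := fun z hz => (hD z hz).continuousAt.continuousWithinAt
  obtain ⟨CT, hCT⟩ := T_bdd hα h
  obtain ⟨CR, hCR⟩ := Rmat_bdd hα hδ hδ' hG hL hn hX hCT
  have hRinf : Tendsto R (cocompact ℂ ⊓ 𝓟 UH) (𝓝 1) :=
    Rmat_inf hG hδ hδ' hn (T_inf α hα n P Q hP hQ h).1
  obtain ⟨CW, cW, hcW, hCW⟩ := Wtot_bound (m := m) hα hδ hδ' hG hn hX hB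
  have hWc : ContinuousOn W UH := by
    have a1 := Wann_cont hα hδ hδ' hL hn hy hy8 hX
    have a2 := W0_cont hα n y0
    have a3 := Wrem_cont hα hδ hδ' hL hn hy hy8 hX
    exact (a1.add a2).add a3
  have hRWc : ContinuousOn (fun s => R s * W s) UH := hRc.mul hWc
  have hBc : ∀ i j, ContinuousOn (fun s => (R s * W s) i j) UH := by
    intro i j
    have hc2 : Continuous (fun M : Mat2 => M i j) := continuous_id.matrix_elem i j
    exact hc2.comp_continuousOn hRWc
  have hRW : ∀ s ∈ UH, nm (R s * W s) ≤ |CR| * |CW| * Real.exp (-(cW * ‖s‖)) := by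
    intro s hs
    refine (nm_mul _ _).trans ?_
    have b1 := (hCR s hs).trans (le_abs_self CR)
    have b2 : nm (W s) ≤ |CW| * Real.exp (-(cW * ‖s‖)) :=
      (hCW s hs).trans (mul_le_mul_of_nonneg_right (le_abs_self CW) (Real.exp_pos _).le)
    have := mul_le_mul b1 b2 (nm_nonneg _) (abs_nonneg _)
    linarith
  have hBb : ∀ i j, ∀ s ∈ UH, ‖(R s * W s) i j‖ ≤ |CR| * |CW| * Real.exp (-(cW * ‖s‖)) :=
    fun i j s hs => (norm_le_nm _ i j).trans (hRW s hs)
  -- the integral equation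
  have hpomp : ∀ i j, ∀ z ∈ UH, (R z - 1) i j = KS (fun s => (R s * W s) i j) z := by
    intro i j z hz
    apply pompeiu (fun z => (R z - 1) i j) (fun s => (R s * W s) i j)
    · intro w hw
      have := (hD w hw) i j
      have h2 := this.sub (HasDbar.const ((1 : Mat2) i j) w)
      exact HasDbar.of_eq h2 (by simp)
    · exact hBc i j
    · refine ⟨|CR| + 2, fun w hw => ?_⟩
      refine (norm_le_nm _ i j).trans ((nm_sub _ _).trans ?_)
      rw [nm_one]
      have := (hCR w hw).trans (le_abs_self CR)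
      linarith
    · have h1 := (tendsto_mat.mp hRinf) i j
      have h2 := h1.sub_const ((1 : Mat2) i j)
      rw [sub_self] at h2
      exact h2
    · have hae : ∀ᵐ x : ℝ, x ∉ ({0, 1, -1} : Set ℝ) := by
        have : (volume : Measure ℝ) ({0, 1, -1} : Set ℝ) = 0 :=
          (Set.toFinite _).measure_zero _
        exact measure_eq_zero_iff_ae_notMem.mp this
      filter_upwards [hae] with x hx
      simp only [Set.mem_insert_iff, Set.mem_singleton_iff, not_or] at hx
      obtain ⟨A, hA⟩ := Rmat_HasR hα hδ hδ' hL hn hy hX h hx.1 hx.2.1 hx.2.2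
      have h1 := (tendsto_mat.mp hA) i j
      have h2 := h1.sub_const ((1 : Mat2) i j)
      have h3 := (Complex.continuous_im.tendsto _).comp h2
      have h4 : ((A.map (fun t : ℝ => (t : ℂ))) i j - (1 : Mat2) i j).im = 0 := by
        fin_cases i <;> fin_cases j <;> simp
      rw [h4] at h3
      exact h3
    · exact hz
    · have hint := integrable_exp_div cW hcW z
      refine Integrable.mono' (hint.const_mul (|CR| * |CW|)) ?_ ?_
      · have m1' : AEMeasurable (fun s => (R s * W s) i j) (volume.restrict UH) :=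
          (hBc i j).aemeasurable isOpen_UH.measurableSet
        have m2' : Measurable (fun s : ℂ => ‖s - z‖) := (measurable_id.sub_const z).norm
        exact (m1'.norm.div m2'.aemeasurable).aestronglyMeasurable
      · filter_upwards [ae_restrict_mem isOpen_UH.measurableSet] with s hs
        rw [norm_div, norm_norm, norm_norm, ← mul_div_assoc]
        exact div_le_div_of_nonneg_right (hBb i j s hs) (norm_nonneg _)
  refine ⟨R, hRc, ⟨CR, hCR⟩, ?_, ?_⟩
  · intro z hz
    ext i j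
    have := hpomp i j z hz
    have h2 : R z i j = (1 : Mat2) i j + (R z - 1) i j := by simp
    rw [h2, this]
    rfl
  · -- behaviour along the imaginary axis
    have hvert : Tendsto (fun y : ℝ => (y : ℂ) * Complex.I) atTop (cocompact ℂ ⊓ 𝓟 UH) := by
      rw [tendsto_inf]
      constructor
      · rw [← Metric.cobounded_eq_cocompact, ← tendsto_norm_atTop_iff_cobounded]
        refine tendsto_abs_atTop_atTop.congr fun y => ?_
        simp
      · rw [tendsto_principal]
        filter_upwards [eventually_gt_atTop 0] with y hy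
        show 0 < ((y : ℂ) * Complex.I).im
        simpa using hy
    have hinfB : ∀ i j, Tendsto (fun y : ℝ => ((y : ℂ) * Complex.I) *
        ((R ((y : ℂ) * Complex.I) - 1) i j)) atTop
        (𝓝 (((2 / Real.pi) * (∫ s in UH, (R s * W s) i j).re : ℝ) : ℂ)) := by
      intro i j
      have h1 := KK_infinity (fun s => (R s * W s) i j) (hBc i j) cW (|CR| * |CW|) 1 hcW
        (hBb i j) (by
          intro s _ him
          show (R s * W s) i j = 0
          rw [hW, Wtot_zero_of_im hδ' hy hy1 him]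
          simp)
      refine h1.congr' ?_
      filter_upwards [eventually_gt_atTop 0] with y hy
      have hyU : (y : ℂ) * Complex.I ∈ UH := by
        show 0 < ((y : ℂ) * Complex.I).im
        simpa using hy
      rw [hpomp i j _ hyU]
    have hfac : ∀ᶠ y : ℝ in atTop, T ((y : ℂ) * Complex.I) =
        R ((y : ℂ) * Complex.I) * Nmat ((y : ℂ) * Complex.I) := by
      filter_upwards [eventually_ge_atTop 3] with y hy3
      have hn3 : 3 ≤ ‖(y : ℂ) * Complex.I‖ := by
        simp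
        exact hy3.trans (le_abs_self y)
      have hG1 : Gmat α n y0 ((y : ℂ) * Complex.I) = 1 := by
        apply Gmat_eq_one hy
        simp
        linarith
      rw [hR, Rmat_far hδ hδ' hn3, hG1, mul_one, mul_assoc, Ninv_mul_Nmat, mul_one]
    have hR1 : ∀ i j, Tendsto (fun y : ℝ => R ((y : ℂ) * Complex.I) i j) atTop
        (𝓝 ((1 : Mat2) i j)) := fun i j => ((tendsto_mat.mp hRinf) i j).comp hvert
    have hN1 : ∀ i j, Tendsto (fun y : ℝ => Nmat ((y : ℂ) * Complex.I) i j) atTop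
        (𝓝 ((1 : Mat2) i j)) := fun i j => ((tendsto_mat.mp tendsto_Nmat_inf) i j).comp hvert
    have hN01 := tendsto_mul_Nmat01_inf.comp hvert
    have hN10 := tendsto_mul_Nmat10_inf.comp hvert
    obtain ⟨_, hT01, hT10⟩ := T_inf α hα n P Q hP hQ h
    have hT01' := hT01.comp hvert
    have hT10' := hT10.comp hvert
    -- the (0,1) entry
    have k01 : Tendsto (fun y : ℝ => ((y : ℂ) * Complex.I) * T ((y : ℂ) * Complex.I) 0 1) atTop
        (𝓝 (1 * (1 / 2) + (((2 / Real.pi) * (∫ s in UH, (R s * W s) 0 1).re : ℝ) : ℂ) * 1)) := by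
      have a1 := (hR1 0 0).mul hN01
      have a2 := (hinfB 0 1).mul (hN1 1 1)
      have a3 := a1.add a2
      simp only [Matrix.one_apply_eq] at a3
      refine a3.congr' ?_
      filter_upwards [hfac] with y hy
      rw [hy, Matrix.mul_apply, Fin.sum_univ_two]
      simp only [Function.comp, Matrix.sub_apply, Matrix.one_apply_ne (by decide : (0 : Fin 2) ≠ 1)]
      ring
    have k10 : Tendsto (fun y : ℝ => ((y : ℂ) * Complex.I) * T ((y : ℂ) * Complex.I) 1 0) atTop
        (𝓝 ((((2 / Real.pi) * (∫ s in UH, (R s * W s) 1 0).re : ℝ) : ℂ) * 1 + 1 * (1 / 2))) := by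
      have a1 := (hR1 1 1).mul hN10
      have a2 := (hinfB 1 0).mul (hN1 0 0)
      have a3 := a2.add a1
      simp only [Matrix.one_apply_eq] at a3
      refine a3.congr' ?_
      filter_upwards [hfac] with y hy
      rw [hy, Matrix.mul_apply, Fin.sum_univ_two]
      simp only [Function.comp, Matrix.sub_apply, Matrix.one_apply_ne (by decide : (1 : Fin 2) ≠ 0)]
      ring
    have u01 := tendsto_nhds_unique hT01' k01
    have u10 := tendsto_nhds_unique hT10' k10
    have hprod : ((hP / hQ : ℝ) : ℂ) =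
        (((1 / 2 + (2 / Real.pi) * (∫ s in UH, (R s * W s) 0 1).re) *
        (1 / 2 + (2 / Real.pi) * (∫ s in UH, (R s * W s) 1 0).re) : ℝ) : ℂ) := by
      have e1 : ((hP / hQ : ℝ) : ℂ) = (Complex.exp (-(n * ell α)) * hP) *
          (Complex.exp (n * ell α) / hQ) := by
        rw [Complex.exp_neg]
        have := Complex.exp_ne_zero (n * ell α)
        push_cast
        field_simp
      rw [e1, u01, u10]
      push_cast
      ring
    exact_mod_cast hprod

/-- The assembly theorem. -/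
theorem assembly (α δ y0 c : ℝ) (hα : 1 < α) (hδ : 0 < δ) (hδ' : δ < 1 / 2) (m1 : ℝ)
    (m : ℂ → ℂ) (hL : LocMap α δ m1 m) (hG : Geo α δ y0 c)
    (x : ℕ → ℂ → Mat2)
    (hx : ∀ k, ContinuousOn (x k) (ann δ)) (hx' : ∀ k, ∃ C : ℝ, ∀ z ∈ ann δ, nm (x k z) ≤ C)
    (hX : ∀ K : ℕ, ∃ C : ℝ, ∀ n : ℕ, 1 ≤ n → ∀ z ∈ ann δ,
          nm (Xrat α n y0 m z - 1 - ∑ k ∈ Finset.range K, (((n : ℂ) ^ (k + 1))⁻¹) • x k z)
            ≤ C / n ^ (K + 1)) :
    ∃ (r c' C : ℝ) (n0 : ℕ) (A : Set ℂ) (w We Wx : ℕ → ℂ → Mat2),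
      Asm α y0 r c' C n0 A w We Wx := by
  obtain ⟨n0, w, hn0, hX4, hwm, hws, hwb, hexp⟩ :=
    Wann_expansion α δ y0 c m1 m hδ hδ' hG hL x hx hx' hX
  obtain ⟨C1, c1, hc1, hC1, h1⟩ := Wrem_bound (m := m) hδ hδ' hG
  obtain ⟨c2, C2, hc2, h2⟩ := W0_bound α δ y0 c hα hδ hδ' hG
  have hy := hG.y0_pos
  have hy8 := hG.y0_le
  refine ⟨1 / 2, min c1 c2, max C1 |C2|, n0, Aset δ, w, Wann α y0 δ m, Wrem α y0 δ m, ?_⟩
  have hsol : ∀ n, n0 ≤ n → ∀ (P Q : Polynomial ℝ) (hP hQ : ℝ), OPData α n P Q hP hQ →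
      ∃ R : ℂ → Mat2, ContinuousOn R UH ∧ (∃ B : ℝ, ∀ z ∈ UH, nm (R z) ≤ B) ∧
      (∀ z ∈ UH, R z = 1 + KK (fun s => R s * Wtot α y0 δ m n s) z) ∧
      hP / hQ =
        (1 / 2 + (2 / Real.pi) * (IU (fun s => R s * Wtot α y0 δ m n s) 0 1).re) *
        (1 / 2 + (2 / Real.pi) * (IU (fun s => R s * Wtot α y0 δ m n s) 1 0).re) := by
    intro n hn P Q hP hQ hOP
    obtain ⟨B, hB⟩ := hexp 0
    refine Rmat_solution hα hδ hδ' hG hL (hn0.trans hn) (hX4 n hn) (B := B / (n : ℝ) ^ (0 + 1))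
      ?_ hOP
    intro s hs
    have := hB n hn s hs
    simpa using this
  exact
    { y0_pos := hy
      r_pos := by norm_num
      c_pos := lt_min hc1 hc2
      n0_pos := hn0
      A_meas := Aset_meas δ
      A_sub := fun s hs => hs.1
      A_loc := fun s hs => Aset_loc hδ hδ' hs
      w_meas := hwm
      w_supp := hws
      w_bd := hwb
      We_cont := fun n hn => Wann_cont hα hδ hδ' hL (hn0.trans hn) hy hy8 (hX4 n hn)
      We_supp := fun n s hs => by
        unfold Wann
        rw [if_neg hs]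
      We_exp := hexp
      Wx_cont := fun n hn => Wrem_cont hα hδ hδ' hL (hn0.trans hn) hy hy8 (hX4 n hn)
      Wx_bd := fun n hn s hs => by
        refine (h1 n (hn0.trans hn) (hX4 n hn) s hs).trans ?_
        have e1 : Real.exp (-(c1 * n)) ≤ Real.exp (-(min c1 c2 * n)) := by
          apply Real.exp_le_exp.mpr
          have : min c1 c2 * n ≤ c1 * n := by
            gcongr
            exact min_le_left _ _
          linarith
        have e2 : Real.exp (-(c1 * ‖s‖)) ≤ Real.exp (-(min c1 c2 * ‖s‖)) := by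
          apply Real.exp_le_exp.mpr
          have : min c1 c2 * ‖s‖ ≤ c1 * ‖s‖ := by
            gcongr
            exact min_le_left _ _
          linarith
        have e3 : C1 ≤ max C1 |C2| := le_max_left _ _
        have e4 : 0 ≤ max C1 |C2| := hC1.trans e3
        gcongr
      W0_cont := fun n => W0_cont hα n y0
      W0_bd := fun n hn s hs => by
        refine (h2 n hn s hs).1.trans ?_
        have e2 : Real.exp (-(c2 * n * ‖s‖)) ≤ Real.exp (-(min c1 c2 * n * ‖s‖)) := by
          apply Real.exp_le_exp.mpr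
          have : min c1 c2 * n * ‖s‖ ≤ c2 * n * ‖s‖ := by
            gcongr
            exact min_le_right _ _
          linarith
        have e3 : C2 ≤ max C1 |C2| := (le_abs_self C2).trans (le_max_right _ _)
        have e4 : 0 ≤ max C1 |C2| := hC1.trans (le_max_left _ _)
        have e5 : 0 ≤ ‖s‖ ^ (α - 1) := Real.rpow_nonneg (norm_nonneg _) _
        gcongr
      sol := hsol }

end

end Pool.Agent.Freud
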