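import Mathlib

/-!
Definitions for the analysis of the recurrence coefficients of the weights exp (-|x|^α).
Everything lives on the open upper half plane `UH`; see BLUEPRINT.md.
-/

set_option autoImplicit false

open MeasureTheory Filter Topology

namespace Pool.Agent.Freud

/-- Complex two by two matrices. -/
abbrev Mat2 := Matrix (Fin 2) (Fin 2) ℂ

/-- The open upper half plane. -/
def UH : Set ℂ := {z | 0 < z.im}

/-- Entrywise complex conjugation. -/
noncomputable def cj (A : Mat2) : Mat2 := A.map (starRingEnd ℂ)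

/-- The sum norm of a matrix (submultiplicative). -/
noncomputable def nm (A : Mat2) : ℝ := ‖A 0 0‖ + ‖A 0 1‖ + ‖A 1 0‖ + ‖A 1 1‖

/-- Entrywise real part, as a complex matrix. -/
noncomputable def reM (A : Mat2) : Mat2 := A.map (fun z => ((z.re : ℝ) : ℂ))

/-- The third Pauli matrix. -/
def sig3 : Mat2 := !![1, 0; 0, -1]

/-- The reflection z to minus conjugate z acting on matrix valued functions. -/
noncomputable def refl (X : ℂ → Mat2) : ℂ → Mat2 :=
  fun z => sig3 * cj (X (-(starRingEnd ℂ z))) * sig3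

/-- A real differentiable function with dbar derivative `b` at `z`. -/
def HasDbar (f : ℂ → ℂ) (b : ℂ) (z : ℂ) : Prop :=
  ∃ L : ℂ →L[ℝ] ℂ, HasFDerivAt f L z ∧ L 1 + Complex.I * L Complex.I = 2 * b

/-- Entrywise version of `HasDbar`. -/
def HasDbarM (F : ℂ → Mat2) (B : Mat2) (z : ℂ) : Prop :=
  ∀ i j, HasDbar (fun w => F w i j) (B i j) z

/-- The solid Cauchy operator on the upper half plane with reflection (scalar version). -/
noncomputable def KS (B : ℂ → ℂ) (z : ℂ) : ℂ :=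
  -(1 / (Real.pi : ℂ)) * ∫ s in UH, (B s / (s - z) + starRingEnd ℂ (B s) / (starRingEnd ℂ s - z))

/-- The solid Cauchy operator on the upper half plane with reflection (matrix version). -/
noncomputable def KK (X : ℂ → Mat2) (z : ℂ) : Mat2 := fun i j => KS (fun s => X s i j) z

/-- Entrywise integral over the upper half plane. -/
noncomputable def IU (X : ℂ → Mat2) : Mat2 := fun i j => ∫ s in UH, X s i j

/-- The Stieltjes transform of `f dx / (2 π)`. -/
noncomputable def Hst (f : ℝ → ℝ) (z : ℂ) : ℂ :=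
  (1 / (2 * (Real.pi : ℂ))) * ∫ x : ℝ, (f x : ℂ) / (z - x)

/-- The constant κ: the scaled external field is `κ |x|^α`. -/
noncomputable def kap (α : ℝ) : ℝ :=
  √Real.pi * Real.Gamma (α / 2) / Real.Gamma ((α + 1) / 2)

/-- The Euler-Lagrange constant. -/
noncomputable def ell (α : ℝ) : ℝ := -2 * Real.log 2 - 2 / α

/-- The complex logarithmic potential of the equilibrium measure (on the upper half plane). -/
noncomputable def gfun (α : ℝ) (z : ℂ) : ℂ :=
  ∫ s in (0 : ℝ)..1, ((α * s ^ (α - 1) : ℝ) : ℂ) *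
    Complex.log ((z + Complex.I * ((s : ℂ) ^ 2 - z ^ 2) ^ (1 / 2 : ℂ)) / 2)

/-- The derivative of `gfun`. -/
noncomputable def dgfun (α : ℝ) (z : ℂ) : ℂ :=
  -Complex.I * ∫ s in (0 : ℝ)..1, ((α * s ^ (α - 1) : ℝ) : ℂ) *
    ((s : ℂ) ^ 2 - z ^ 2) ^ (-(1 / 2) : ℂ)

/-- The phase function attached to the right half of the field. -/
noncomputable def xiR (α : ℝ) (z : ℂ) : ℂ :=
  gfun α z - kap α * z ^ (α : ℂ) / 2 - ell α / 2

/-- The phase function attached to the left half of the field. -/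
noncomputable def xiL (α : ℝ) (z : ℂ) : ℂ :=
  gfun α z - kap α * (-z) ^ (α : ℂ) / 2 - ell α / 2

/-- The scaled weight. -/
noncomputable def wt (α : ℝ) (n : ℕ) (x : ℝ) : ℝ := Real.exp (-(n * kap α * |x| ^ α))

/-- Orthogonality data: `P`, `Q` are the monic orthogonal polynomials of degree `n`, `n - 1`
for the weight `wt α n`, and `hP`, `hQ` their squared norms divided by `2 π`. -/
structure OPData (α : ℝ) (n : ℕ) (P Q : Polynomial ℝ) (hP hQ : ℝ) : Prop where
  n_pos : 1 ≤ n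
  P_monic : P.Monic
  Q_monic : Q.Monic
  P_deg : P.natDegree = n
  Q_deg : Q.natDegree = n - 1
  P_orth : ∀ j : ℕ, j < n → ∫ x : ℝ, P.eval x * x ^ j * wt α n x = 0
  Q_orth : ∀ j : ℕ, j < n - 1 → ∫ x : ℝ, Q.eval x * x ^ j * wt α n x = 0
  hP_eq : hP = (1 / (2 * Real.pi)) * ∫ x : ℝ, P.eval x * x ^ n * wt α n x
  hQ_eq : hQ = (1 / (2 * Real.pi)) * ∫ x : ℝ, Q.eval x * x ^ (n - 1) * wt α n x
  hP_pos : 0 < hP
  hQ_pos : 0 < hQ

/-- The matrix `T`: orthogonal polynomials and their Stieltjes transforms, normalised by `g`. -/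
noncomputable def Tmat (α : ℝ) (n : ℕ) (P Q : Polynomial ℝ) (hQ : ℝ) (z : ℂ) : Mat2 :=
  !![Polynomial.aeval z P * Complex.exp (-(n * gfun α z)),
     Hst (fun x => P.eval x * wt α n x) z * Complex.exp (n * gfun α z - n * ell α);
     Complex.exp (n * ell α) / hQ * Polynomial.aeval z Q *
       Complex.exp (-(n * gfun α z)),
     1 / hQ * Hst (fun x => Q.eval x * wt α n x) z * Complex.exp (n * gfun α z)]

/-- The exponent of the outer parametrix. -/
noncomputable def bfun (z : ℂ) : ℂ := Complex.log ((z - 1) / (z + 1)) / 4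

/-- The outer parametrix (on the upper half plane). -/
noncomputable def Nmat (z : ℂ) : Mat2 :=
  !![Complex.cosh (bfun z), -Complex.sinh (bfun z); -Complex.sinh (bfun z), Complex.cosh (bfun z)]

/-- The inverse of the outer parametrix. -/
noncomputable def Ninv (z : ℂ) : Mat2 :=
  !![Complex.cosh (bfun z), Complex.sinh (bfun z); Complex.sinh (bfun z), Complex.cosh (bfun z)]

/-- Decreasing smooth cut-off: `1` on `t ≤ 1/2`, `0` on `t ≥ 1`. -/
noncomputable def rho (t : ℝ) : ℝ := Real.smoothTransition (2 - 2 * t)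

/-- Increasing smooth cut-off: `0` on `t ≤ -1`, `1` on `t ≥ 1`, `tau (-t) = 1 - tau t`. -/
noncomputable def tau (t : ℝ) : ℝ := Real.smoothTransition ((t + 1) / 2)

/-- Interpolated exponential `exp (-2 n ξ)` in the strip over `|x| < 1`. -/
noncomputable def Ecen (α : ℝ) (n : ℕ) (z : ℂ) : ℂ :=
  Complex.exp (-(2 * n * gfun α z) + n * ell α) *
    ((tau (z.re / z.im) : ℂ) * Complex.exp (n * kap α * z ^ (α : ℂ)) +
      (1 - (tau (z.re / z.im) : ℂ)) * Complex.exp (n * kap α * (-z) ^ (α : ℂ)))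

/-- The smooth lens opening factor (on the upper half plane). -/
noncomputable def Gmat (α : ℝ) (n : ℕ) (y0 : ℝ) (z : ℂ) : Mat2 :=
  if |z.re| < 1 then !![1, 0; -Complex.I * (rho (z.im / y0) : ℂ) * Ecen α n z, 1]
  else if 0 < z.re then
    !![1, Complex.I / 2 * (rho (z.im / y0) : ℂ) * Complex.exp (2 * n * xiR α z); 0, 1]
  else !![1, Complex.I / 2 * (rho (z.im / y0) : ℂ) * Complex.exp (2 * n * xiL α z); 0, 1]

/-- The scalar source term near the origin. -/
noncomputable def qfun (α : ℝ) (n : ℕ) (y0 : ℝ) (z : ℂ) : ℂ :=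
  (rho (z.im / y0) : ℂ) * Complex.exp (-(2 * n * gfun α z) + n * ell α) *
    (-(Complex.I / 2) * ((deriv tau (z.re / z.im) : ℝ) : ℂ) * z / (z.im : ℂ) ^ 2) *
    (Complex.exp (n * kap α * z ^ (α : ℂ)) - Complex.exp (n * kap α * (-z) ^ (α : ℂ)))

/-- The part of `W` near the origin. -/
noncomputable def W0 (α : ℝ) (n : ℕ) (y0 : ℝ) (z : ℂ) : Mat2 :=
  Nmat z * !![0, 0; -Complex.I * qfun α n y0 z, 0] * Ninv z

/-- The Airy function. -/
noncomputable def Airy (ζ : ℂ) : ℂ :=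
  (1 / (2 * (Real.pi : ℂ))) * ∫ s : ℝ,
    Complex.exp ((1 + Complex.I * s) ^ 3 / 3 - ζ * (1 + Complex.I * s))

/-- The derivative of the Airy function. -/
noncomputable def Airy' (ζ : ℂ) : ℂ :=
  -(1 / (2 * (Real.pi : ℂ))) * ∫ s : ℝ, (1 + Complex.I * s) *
    Complex.exp ((1 + Complex.I * s) ^ 3 / 3 - ζ * (1 + Complex.I * s))

/-- The primitive cube root of unity `exp (2 π i / 3)`. -/
noncomputable def om : ℂ := Complex.exp (2 * Real.pi * Complex.I / 3)

/-- The Airy model solution on the upper half plane. -/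
noncomputable def Psi (ζ : ℂ) : Mat2 :=
  (√(2 * Real.pi) : ℂ) •
    !![Airy ζ, Complex.I * om ^ 2 * Airy (om ^ 2 * ζ);
       -Airy' ζ, -(Complex.I * om ^ 4 * Airy' (om ^ 2 * ζ))]

/-- The matrix diagonalising the first Pauli matrix. -/
noncomputable def QQ : Mat2 :=
  !![(1 / √2 : ℝ), (1 / √2 : ℝ); (1 / √2 : ℝ), (-(1 / √2) : ℝ)]

/-- The prefactor of the local parametrix. -/
noncomputable def epre (n : ℕ) (m : ℂ → ℂ) (z : ℂ) : ℂ :=
  (((n : ℝ) ^ (1 / 6 : ℝ) : ℝ) : ℂ) * (m z * (z + 1)) ^ (1 / 4 : ℂ)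

/-- The conformal variable of the local parametrix. -/
noncomputable def zet (n : ℕ) (m : ℂ → ℂ) (z : ℂ) : ℂ :=
  (((n : ℝ) ^ (2 / 3 : ℝ) : ℝ) : ℂ) * ((z - 1) * m z)

/-- The local parametrix at `1`, where `(z - 1) * m z` is the conformal map of `LocMap`. -/
noncomputable def Ploc (α : ℝ) (n : ℕ) (m : ℂ → ℂ) (z : ℂ) : Mat2 :=
  QQ * !![epre n m z, 0; 0, (epre n m z)⁻¹] * Psi (zet n m z) *
    !![Complex.exp (-(n * xiR α z)), 0; 0, Complex.exp (n * xiR α z)]

/-- The data of the local conformal map `z ↦ (z - 1) * m z` at `1`. -/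
structure LocMap (α δ m1 : ℝ) (m : ℂ → ℂ) : Prop where
  δ_pos : 0 < δ
  δ_lt : δ < 1 / 2
  m1_pos : 0 < m1
  diff : DifferentiableOn ℂ m (Metric.ball 1 δ)
  conj : ∀ z ∈ Metric.ball (1 : ℂ) δ, m (starRingEnd ℂ z) = starRingEnd ℂ (m z)
  close : ∀ z ∈ Metric.ball (1 : ℂ) δ, ‖m z - m1‖ ≤ m1 / 10
  upper : ∀ z ∈ Metric.ball (1 : ℂ) δ, z ∈ UH → (z - 1) * m z ∈ UH
  eqn : ∀ z ∈ Metric.ball (1 : ℂ) δ, z ∈ UH →
    (2 / 3 : ℂ) * ((z - 1) * m z) ^ (3 / 2 : ℂ) = -xiR α z

/-- The closed annulus around `1` used for the interpolation (upper half). -/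
def ann (δ : ℝ) : Set ℂ := {z | z ∈ UH ∧ δ / 2 ≤ ‖z - 1‖ ∧ ‖z - 1‖ ≤ 3 * δ / 4}

/-- The ratio of local (lens opened) and outer parametrix. -/
noncomputable def Xrat (α : ℝ) (n : ℕ) (y0 : ℝ) (m : ℂ → ℂ) (z : ℂ) : Mat2 :=
  Ploc α n m z * Gmat α n y0 z * Ninv z

/-- The radial cut-off at `1`: equal to `1` for `|z-1| ≤ δ/2`, to `0` for `|z-1| ≥ 3δ/4`. -/
noncomputable def eta (δ : ℝ) (z : ℂ) : ℝ := rho (‖z - 1‖ ^ 2 / (3 * δ / 4) ^ 2)

/-- The dbar derivative of `eta`. -/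
noncomputable def deta (δ : ℝ) (z : ℂ) : ℂ :=
  ((deriv rho (‖z - 1‖ ^ 2 / (3 * δ / 4) ^ 2) : ℝ) : ℂ) * (z - 1) / ((3 * δ / 4 : ℝ) : ℂ) ^ 2

end Pool.Agent.Freud
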