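import Pool.Agent.Freud.Defs2

/-!
Existence of the orthonormal polynomials for the weights `exp (-|x|^α)`, their three-term recurrence,
and the scaling to the weights `wt α n`.
-/

set_option autoImplicit false

open MeasureTheory Filter Topology Polynomial

namespace Pool.Agent.Freud

/-! ### Algebra: monic orthogonal polynomials of an even positive functional -/

/-- Monic orthogonal polynomials of the functional `L`, by the three-term recurrence. -/
noncomputable def freudOP_mono (L : ℝ[X] →ₗ[ℝ] ℝ) : ℕ → ℝ[X]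
  | 0 => 1
  | 1 => X
  | n + 2 => X * freudOP_mono L (n + 1) -
      C (L (freudOP_mono L (n + 1) * freudOP_mono L (n + 1)) /
        L (freudOP_mono L n * freudOP_mono L n)) * freudOP_mono L n

theorem freudOP_mono_succ (L : ℝ[X] →ₗ[ℝ] ℝ) (n : ℕ) :
    freudOP_mono L (n + 2) = X * freudOP_mono L (n + 1) -
      C (L (freudOP_mono L (n + 1) * freudOP_mono L (n + 1)) /
        L (freudOP_mono L n * freudOP_mono L n)) * freudOP_mono L n := by
  rw [freudOP_mono]

/-- What we know about the monic polynomial number `n`. -/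
structure FreudOPGood (L : ℝ[X] →ₗ[ℝ] ℝ) (n : ℕ) : Prop where
  monic : (freudOP_mono L n).Monic
  deg : (freudOP_mono L n).degree = n
  par : (freudOP_mono L n).comp (-X) = (-1) ^ n * freudOP_mono L n
  orth : ∀ q : ℝ[X], q.degree < n → L (freudOP_mono L n * q) = 0

theorem freudOP_C_mul (L : ℝ[X] →ₗ[ℝ] ℝ) (c : ℝ) (f : ℝ[X]) : L (C c * f) = c * L f := by
  rw [← smul_eq_C_mul, map_smul, smul_eq_mul]

theorem freudOP_reduce {P : ℝ[X]} {m : ℕ} (hP : P.Monic) (hd : P.degree = m) (q : ℝ[X])
    (hq : q.degree < (m + 1 : ℕ)) : (q - C (q.coeff m) * P).degree < m := by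
  rw [degree_lt_iff_coeff_zero]
  intro k hk
  rw [coeff_sub, coeff_C_mul]
  rcases hk.eq_or_lt with rfl | hk
  · have h1 : P.coeff m = 1 := by
      have h2 := hP.coeff_natDegree
      rwa [natDegree_eq_of_degree_eq_some hd] at h2
    rw [h1, mul_one, sub_self]
  · rw [coeff_eq_zero_of_degree_lt (lt_of_lt_of_le hq (by exact_mod_cast hk)),
      coeff_eq_zero_of_degree_lt (n := k) (p := P) (by rw [hd]; exact_mod_cast hk), mul_zero,
      sub_zero]

theorem freudOP_odd {L : ℝ[X] →ₗ[ℝ] ℝ} (heven : ∀ f : ℝ[X], L (f.comp (-X)) = L f) {n : ℕ}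
    (h1 : FreudOPGood L n) (h2par : (freudOP_mono L (n + 1)).comp (-X) =
      (-1) ^ (n + 1) * freudOP_mono L (n + 1)) :
    L (freudOP_mono L (n + 1) * freudOP_mono L n) = 0 := by
  have h := heven (freudOP_mono L (n + 1) * freudOP_mono L n)
  rw [mul_comp, h1.par, h2par] at h
  have e : (-1 : ℝ[X]) ^ (n + 1) * freudOP_mono L (n + 1) * ((-1) ^ n * freudOP_mono L n) =
      -(freudOP_mono L (n + 1) * freudOP_mono L n) := by
    have h3 : (-1 : ℝ[X]) ^ n * (-1) ^ n = 1 := by
      rw [← mul_pow]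
      norm_num
    calc (-1 : ℝ[X]) ^ (n + 1) * freudOP_mono L (n + 1) * ((-1) ^ n * freudOP_mono L n)
        = ((-1 : ℝ[X]) ^ n * (-1) ^ n) * (-(freudOP_mono L (n + 1) * freudOP_mono L n)) := by
          ring
      _ = _ := by rw [h3, one_mul]
  rw [e, map_neg] at h
  linarith

theorem freudOP_good (L : ℝ[X] →ₗ[ℝ] ℝ) (hpos : ∀ f : ℝ[X], f ≠ 0 → 0 < L (f * f))
    (heven : ∀ f : ℝ[X], L (f.comp (-X)) = L f) (n : ℕ) :
    FreudOPGood L n ∧ FreudOPGood L (n + 1) := by
  induction n with
  | zero =>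
    have g0 : FreudOPGood L 0 := by
      refine ⟨?_, ?_, ?_, fun q hq => ?_⟩
      · rw [freudOP_mono]; exact monic_one
      · rw [freudOP_mono]; exact degree_one
      · rw [freudOP_mono]; simp
      · have : q = 0 := by
          rw [Nat.cast_zero] at hq
          have h1 := Nat.WithBot.lt_zero_iff.1 hq
          exact degree_eq_bot.1 h1
        rw [this, mul_zero, map_zero]
    have e1 : freudOP_mono L 1 = X := by rw [freudOP_mono]
    have p1 : (freudOP_mono L (0 + 1)).comp (-X) = (-1) ^ (0 + 1) * freudOP_mono L (0 + 1) := by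
      rw [zero_add, e1]; simp
    refine ⟨g0, ⟨?_, ?_, p1, fun q hq => ?_⟩⟩
    · rw [zero_add, e1]; exact monic_X
    · rw [zero_add, e1]; simp
    · have h1 : q = C (q.coeff 0) := by
        apply eq_C_of_degree_le_zero
        exact Nat.WithBot.lt_one_iff_le_zero.1 (by simpa using hq)
      have h2 := freudOP_odd heven g0 p1
      have e0 : freudOP_mono L 0 = 1 := by rw [freudOP_mono]
      rw [e0, mul_one] at h2
      rw [h1, mul_comm, freudOP_C_mul, h2, mul_zero]
  | succ n ih =>
    obtain ⟨g0, g1⟩ := ih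
    refine ⟨g1, ?_⟩
    have hb := freudOP_mono_succ L n
    set b : ℝ := L (freudOP_mono L (n + 1) * freudOP_mono L (n + 1)) /
        L (freudOP_mono L n * freudOP_mono L n) with hbdef
    have hdX : (X * freudOP_mono L (n + 1)).degree = ((n + 2 : ℕ) : WithBot ℕ) := by
      rw [degree_mul, g1.deg, degree_X]
      push_cast
      ring
    have hdC : (C b * freudOP_mono L n).degree < ((n + 2 : ℕ) : WithBot ℕ) := by
      have hle : (C b * freudOP_mono L n).degree ≤ (n : WithBot ℕ) := by
        refine le_trans (degree_mul_le _ _) ?_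
        rw [g0.deg]
        calc (C b).degree + (n : WithBot ℕ) ≤ 0 + (n : WithBot ℕ) := by
              gcongr
              exact degree_C_le
          _ = (n : WithBot ℕ) := zero_add _
      refine lt_of_le_of_lt hle ?_
      exact_mod_cast (by omega : n < n + 2)
    have hmon : (freudOP_mono L (n + 2)).Monic := by
      rw [hb]
      exact (monic_X.mul g1.monic).sub_of_left (by rw [hdX]; exact hdC)
    have hdeg : (freudOP_mono L (n + 2)).degree = ((n + 2 : ℕ) : WithBot ℕ) := by
      rw [hb, degree_sub_eq_left_of_degree_lt (by rw [hdX]; exact hdC), hdX]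
    have hpar : (freudOP_mono L (n + 2)).comp (-X) = (-1) ^ (n + 2) * freudOP_mono L (n + 2) := by
      rw [hb, sub_comp, mul_comp, mul_comp, X_comp, C_comp, g0.par, g1.par]
      ring
    have hodd : L (freudOP_mono L (n + 2) * freudOP_mono L (n + 1)) = 0 :=
      freudOP_odd heven g1 hpar
    have hn0 : freudOP_mono L n ≠ 0 := g0.monic.ne_zero
    -- orthogonality to low degree
    have hlow : ∀ q : ℝ[X], q.degree < n → L (freudOP_mono L (n + 2) * q) = 0 := by
      intro q hq
      have e : freudOP_mono L (n + 2) * q = freudOP_mono L (n + 1) * (X * q) -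
          C b * (freudOP_mono L n * q) := by
        rw [hb]; ring
      rw [e, map_sub, freudOP_C_mul, g0.orth q hq, g1.orth (X * q) ?_]
      · ring
      · rw [degree_mul, degree_X, Nat.cast_add, Nat.cast_one, add_comm]
        exact WithBot.add_lt_add_right (by simp) hq
    have hmid : L (freudOP_mono L (n + 2) * freudOP_mono L n) = 0 := by
      have e : freudOP_mono L (n + 2) * freudOP_mono L n =
          freudOP_mono L (n + 1) * freudOP_mono L (n + 1) +
          freudOP_mono L (n + 1) * (X * freudOP_mono L n - freudOP_mono L (n + 1)) -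
          C b * (freudOP_mono L n * freudOP_mono L n) := by
        rw [hb]; ring
      have hr : (X * freudOP_mono L n - freudOP_mono L (n + 1)).degree < ((n + 1 : ℕ) : WithBot ℕ) := by
        have hd1 : (X * freudOP_mono L n).degree = ((n + 1 : ℕ) : WithBot ℕ) := by
          rw [degree_mul, g0.deg, degree_X]
          push_cast
          ring
        have := degree_sub_lt (p := X * freudOP_mono L n) (q := freudOP_mono L (n + 1))
          (by rw [hd1, g1.deg]) (monic_X.mul g0.monic).ne_zero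
          (by rw [(monic_X.mul g0.monic).leadingCoeff, g1.monic.leadingCoeff])
        rwa [hd1] at this
      rw [e, map_sub, map_add, freudOP_C_mul, g1.orth _ hr, add_zero, hbdef,
        div_mul_cancel₀ _ (hpos _ hn0).ne', sub_self]
    refine ⟨hmon, hdeg, hpar, fun q hq => ?_⟩
    have e : freudOP_mono L (n + 2) * q =
        freudOP_mono L (n + 2) * (q - C (q.coeff (n + 1)) * freudOP_mono L (n + 1) -
          C ((q - C (q.coeff (n + 1)) * freudOP_mono L (n + 1)).coeff n) * freudOP_mono L n) +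
        C (q.coeff (n + 1)) * (freudOP_mono L (n + 2) * freudOP_mono L (n + 1)) +
        C ((q - C (q.coeff (n + 1)) * freudOP_mono L (n + 1)).coeff n) *
          (freudOP_mono L (n + 2) * freudOP_mono L n) := by ring
    have hq1 := freudOP_reduce g1.monic g1.deg q hq
    have hq2 := freudOP_reduce g0.monic g0.deg _ hq1
    rw [e, map_add, map_add, freudOP_C_mul, freudOP_C_mul, hodd, hmid, hlow _ hq2]
    ring

/-! ### The functional -/

/-- The weight. -/
noncomputable def freudOP_w (α x : ℝ) : ℝ := Real.exp (-(|x| ^ α))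

theorem freudOP_w_pos (α x : ℝ) : 0 < freudOP_w α x := Real.exp_pos _

theorem freudOP_w_cont (α : ℝ) (hα : 0 < α) : Continuous (freudOP_w α) := by
  refine Real.continuous_exp.comp (Continuous.neg ?_)
  exact continuous_abs.rpow_const fun x => Or.inr hα.le

theorem freudOP_int_abs (f : ℝ → ℝ) (hf : IntegrableOn f (Set.Ioi 0)) :
    Integrable fun x => f |x| := by
  have h1 : IntegrableOn (fun x => f |x|) (Set.Ioi 0) := by
    refine hf.congr_fun (fun x hx => ?_) measurableSet_Ioi
    change f x = f |x|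
    rw [abs_of_pos hx]
  have h2 : IntegrableOn (fun x ↦ f |x|) (Set.Iic 0) := by
    rw [← Measure.map_neg_eq_self (volume : Measure ℝ)]
    let m : MeasurableEmbedding fun x : ℝ => -x := (Homeomorph.neg ℝ).measurableEmbedding
    rw [m.integrableOn_map_iff]
    simp_rw [Function.comp_def, abs_neg, Set.neg_preimage, Set.neg_Iic, neg_zero]
    exact Iff.mpr integrableOn_Ici_iff_integrableOn_Ioi h1
  rw [← integrableOn_univ, ← Set.Iic_union_Ioi (a := (0 : ℝ))]
  exact h2.union h1

theorem freudOP_int_pow (α : ℝ) (hα : 0 < α) (k : ℕ) :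
    Integrable fun x : ℝ => x ^ k * freudOP_w α x := by
  have h1 : IntegrableOn (fun x : ℝ => x ^ (k : ℝ) * Real.exp (-x ^ α)) (Set.Ioi 0) :=
    integrableOn_rpow_mul_exp_neg_rpow (by have : (0 : ℝ) ≤ k := Nat.cast_nonneg k; linarith) hα
  refine (freudOP_int_abs _ h1).mono' ?_ (Filter.Eventually.of_forall fun x => ?_)
  · exact ((continuous_pow k).mul (freudOP_w_cont α hα)).aestronglyMeasurable
  · rw [norm_mul, norm_pow, Real.norm_eq_abs, Real.norm_eq_abs, abs_of_pos (freudOP_w_pos α x),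
      Real.rpow_natCast]
    exact le_refl _

theorem freudOP_int (α : ℝ) (hα : 0 < α) (f : ℝ[X]) :
    Integrable fun x : ℝ => f.eval x * freudOP_w α x := by
  induction f using Polynomial.induction_on' with
  | add p q hp hq =>
    have e : (fun x : ℝ => (p + q).eval x * freudOP_w α x) =
        fun x => p.eval x * freudOP_w α x + q.eval x * freudOP_w α x := by
      funext x
      rw [eval_add, add_mul]
    rw [e]
    exact hp.add hq
  | monomial n a =>
    have e : (fun x : ℝ => (monomial n a).eval x * freudOP_w α x) =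
        fun x => a * (x ^ n * freudOP_w α x) := by
      funext x
      rw [eval_monomial, mul_assoc]
    rw [e]
    exact (freudOP_int_pow α hα n).const_mul a

/-- The functional of integration against the weight. -/
noncomputable def freudOP_L (α : ℝ) (hα : 0 < α) : ℝ[X] →ₗ[ℝ] ℝ where
  toFun f := ∫ x : ℝ, f.eval x * freudOP_w α x
  map_add' f g := by
    rw [← integral_add (freudOP_int α hα f) (freudOP_int α hα g)]
    refine integral_congr_ae (Filter.Eventually.of_forall fun x => ?_)
    change (f + g).eval x * freudOP_w α x = f.eval x * freudOP_w α x + g.eval x * freudOP_w α x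
    rw [eval_add, add_mul]
  map_smul' c f := by
    rw [RingHom.id_apply, smul_eq_mul, ← integral_const_mul]
    refine integral_congr_ae (Filter.Eventually.of_forall fun x => ?_)
    change (c • f).eval x * freudOP_w α x = c * (f.eval x * freudOP_w α x)
    rw [eval_smul, smul_eq_mul, mul_assoc]

theorem freudOP_L_apply (α : ℝ) (hα : 0 < α) (f : ℝ[X]) :
    freudOP_L α hα f = ∫ x : ℝ, f.eval x * freudOP_w α x := rfl

theorem freudOP_L_even (α : ℝ) (hα : 0 < α) (f : ℝ[X]) :
    freudOP_L α hα (f.comp (-X)) = freudOP_L α hα f := by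
  rw [freudOP_L_apply, freudOP_L_apply]
  have h := integral_neg_eq_self (fun x : ℝ => f.eval x * freudOP_w α x) volume
  rw [← h]
  refine integral_congr_ae (Filter.Eventually.of_forall fun x => ?_)
  change (f.comp (-X)).eval x * freudOP_w α x = f.eval (-x) * freudOP_w α (-x)
  rw [eval_comp, eval_neg, eval_X]
  unfold freudOP_w
  rw [abs_neg]

theorem freudOP_L_pos (α : ℝ) (hα : 0 < α) (f : ℝ[X]) (hf : f ≠ 0) :
    0 < freudOP_L α hα (f * f) := by
  rw [freudOP_L_apply, integral_pos_iff_support_of_nonneg]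
  · have hsub : (f.rootSet ℝ)ᶜ ⊆ Function.support fun x : ℝ => (f * f).eval x * freudOP_w α x := by
      intro x hx
      rw [Function.mem_support]
      have h1 : f.eval x ≠ 0 := by
        intro h0
        apply hx
        rw [mem_rootSet]
        exact ⟨hf, by rw [coe_aeval_eq_eval]; exact h0⟩
      rw [eval_mul]
      exact mul_ne_zero (mul_ne_zero h1 h1) (freudOP_w_pos α x).ne'
    refine lt_of_lt_of_le ?_ (measure_mono hsub)
    have h0 : volume (f.rootSet ℝ) = 0 := (f.rootSet_finite ℝ).measure_zero volume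
    rw [measure_compl (f.rootSet_finite ℝ).measurableSet (by rw [h0]; exact ENNReal.zero_ne_top), h0,
      tsub_zero, Real.volume_univ]
    exact ENNReal.zero_lt_top
  · intro x
    change 0 ≤ (f * f).eval x * freudOP_w α x
    rw [eval_mul]
    exact mul_nonneg (mul_self_nonneg _) (freudOP_w_pos α x).le
  · exact freudOP_int α hα _

theorem freudOP_L_mul (α : ℝ) (hα : 0 < α) (f g : ℝ[X]) :
    ∫ x : ℝ, f.eval x * g.eval x * Real.exp (-(|x| ^ α)) = freudOP_L α hα (f * g) := by
  rw [freudOP_L_apply]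
  refine integral_congr_ae (Filter.Eventually.of_forall fun x => ?_)
  change f.eval x * g.eval x * Real.exp (-(|x| ^ α)) = (f * g).eval x * freudOP_w α x
  rw [eval_mul]
  rfl

theorem exists_freud (α : ℝ) (hα : 0 < α) : ∃ (p : ℕ → Polynomial ℝ) (a : ℕ → ℝ),
    IsFreud α p a := by
  set L := freudOP_L α hα with hL
  have hpos := freudOP_L_pos α hα
  have hg : ∀ n, FreudOPGood L n := fun n =>
    (freudOP_good L hpos (freudOP_L_even α hα) n).1
  let P : ℕ → ℝ[X] := freudOP_mono L
  let h : ℕ → ℝ := fun n => L (P n * P n)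
  have hh : ∀ n, 0 < h n := fun n => hpos _ (hg n).monic.ne_zero
  have hs : ∀ n, 0 < √(h n) := fun n => Real.sqrt_pos.2 (hh n)
  have hss : ∀ n, √(h n) * √(h n) = h n := fun n => Real.mul_self_sqrt (hh n).le
  have hP0 : P 0 = 1 := by change freudOP_mono L 0 = 1; rw [freudOP_mono]
  have hP1 : P 1 = X := by change freudOP_mono L 1 = X; rw [freudOP_mono]
  have hPs : ∀ n, P (n + 2) = X * P (n + 1) - C (h (n + 1) / h n) * P n := fun n =>
    freudOP_mono_succ L n
  have horth : ∀ m n, m < n → L (P n * P m) = 0 := fun m n hmn =>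
    (hg n).orth _ (by rw [(hg m).deg]; exact_mod_cast hmn)
  refine ⟨fun n => C (1 / √(h n)) * P n, fun n => √(h n) / √(h (n - 1)), ?_, ?_, ?_, ?_, ?_⟩
  · intro n
    change (C (1 / √(h n)) * P n).natDegree = n
    rw [natDegree_C_mul (one_div_pos.2 (hs n)).ne']
    exact natDegree_eq_of_degree_eq_some (hg n).deg
  · intro n
    change 0 < (C (1 / √(h n)) * P n).leadingCoeff
    rw [leadingCoeff_mul, leadingCoeff_C, (hg n).monic.leadingCoeff, mul_one]
    exact one_div_pos.2 (hs n)
  · intro m n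
    change ∫ x : ℝ, (C (1 / √(h m)) * P m).eval x * (C (1 / √(h n)) * P n).eval x *
      Real.exp (-(|x| ^ α)) = if m = n then 1 else 0
    rw [freudOP_L_mul α hα]
    have e : C (1 / √(h m)) * P m * (C (1 / √(h n)) * P n) =
        C (1 / √(h m)) * (C (1 / √(h n)) * (P m * P n)) := by ring
    rw [e, ← hL, freudOP_C_mul, freudOP_C_mul]
    by_cases hmn : m = n
    · subst hmn
      rw [if_pos rfl]
      change 1 / √(h m) * (1 / √(h m) * h m) = 1
      have hne := (hs m).ne'
      have e1 : 1 / √(h m) * (1 / √(h m) * h m) = h m / (√(h m) * √(h m)) := by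
        rw [div_mul_eq_mul_div, one_mul, div_mul_eq_mul_div, one_mul, div_div]
      rw [e1, hss m, div_self (hh m).ne']
    · rw [if_neg hmn]
      have h0 : L (P m * P n) = 0 := by
        rcases Nat.lt_or_gt_of_ne hmn with hlt | hlt
        · rw [mul_comm]
          exact horth m n hlt
        · exact horth n m hlt
      rw [h0, mul_zero, mul_zero]
  · change X * (C (1 / √(h 0)) * P 0) = C (√(h 1) / √(h (1 - 1))) * (C (1 / √(h 1)) * P 1)
    rw [hP0, hP1, ← mul_assoc (C _) (C _), ← C_mul]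
    have e : √(h 1) / √(h (1 - 1)) * (1 / √(h 1)) = 1 / √(h 0) := by
      rw [Nat.sub_self]
      field_simp [(hs 0).ne', (hs 1).ne']
    rw [e]
    ring
  · intro n hn
    obtain ⟨k, rfl⟩ := Nat.exists_eq_add_of_le hn
    rw [add_comm 1 k]
    change X * (C (1 / √(h (k + 1))) * P (k + 1)) =
      C (√(h (k + 1 + 1)) / √(h (k + 1 + 1 - 1))) * (C (1 / √(h (k + 1 + 1))) * P (k + 1 + 1)) +
      C (√(h (k + 1)) / √(h (k + 1 - 1))) * (C (1 / √(h (k + 1 - 1))) * P (k + 1 - 1))
    rw [Nat.add_sub_cancel, Nat.add_sub_cancel, ← mul_assoc (C _) (C _), ← C_mul,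
      ← mul_assoc (C _) (C _), ← C_mul]
    have e1 : √(h (k + 1 + 1)) / √(h (k + 1)) * (1 / √(h (k + 1 + 1))) = 1 / √(h (k + 1)) := by
      field_simp [(hs (k + 1)).ne', (hs (k + 1 + 1)).ne']
    have e2 : √(h (k + 1)) / √(h k) * (1 / √(h k)) = 1 / √(h (k + 1)) * (h (k + 1) / h k) := by
      rw [← hss k, ← hss (k + 1)]
      have hs1 := (hs (k + 1)).ne'
      have hs0 := (hs k).ne'
      rw [Real.sqrt_mul_self (hs (k + 1)).le, Real.sqrt_mul_self (hs k).le]
      field_simp
    rw [e1, e2, C_mul, hPs k]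
    ring

/-! ### Scaling -/

theorem freudOP_kap_pos (α : ℝ) (hα : 0 < α) : 0 < kap α := by
  unfold kap
  have h1 : 0 < Real.Gamma (α / 2) := Real.Gamma_pos_of_pos (by linarith)
  have h2 : 0 < Real.Gamma ((α + 1) / 2) := Real.Gamma_pos_of_pos (by linarith)
  have h3 : 0 < √Real.pi := Real.sqrt_pos.2 Real.pi_pos
  positivity

theorem freudOP_lead_ne {α : ℝ} {p : ℕ → ℝ[X]} {a : ℕ → ℝ} (h : IsFreud α p a) (n : ℕ) :
    p n ≠ 0 := by
  intro h0
  have := h.lead n
  rw [h0, leadingCoeff_zero] at this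
  exact lt_irrefl _ this

theorem freudOP_degree {α : ℝ} {p : ℕ → ℝ[X]} {a : ℕ → ℝ} (h : IsFreud α p a) (n : ℕ) :
    (p n).degree = n := by
  rw [degree_eq_natDegree (freudOP_lead_ne h n), h.deg]

theorem freudOP_orth {α : ℝ} (hα : 0 < α) {p : ℕ → ℝ[X]} {a : ℕ → ℝ} (h : IsFreud α p a)
    (n : ℕ) : ∀ m : ℕ, m ≤ n → ∀ q : ℝ[X], q.degree < m → freudOP_L α hα (p n * q) = 0 := by
  intro m
  induction m with
  | zero =>
    intro _ q hq
    have : q = 0 := by
      rw [Nat.cast_zero] at hq
      exact degree_eq_bot.1 (Nat.WithBot.lt_zero_iff.1 hq)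
    rw [this, mul_zero, map_zero]
  | succ m ih =>
    intro hm q hq
    have hγ : (p m).leadingCoeff ≠ 0 := (h.lead m).ne'
    have hmon : (C (p m).leadingCoeff⁻¹ * p m).Monic := by
      rw [Monic, leadingCoeff_mul, leadingCoeff_C, inv_mul_cancel₀ hγ]
    have hdeg : (C (p m).leadingCoeff⁻¹ * p m).degree = m := by
      rw [degree_C_mul (inv_ne_zero hγ), freudOP_degree h]
    have hr := freudOP_reduce hmon hdeg q hq
    have e : p n * q = p n * (q - C (q.coeff m) * (C (p m).leadingCoeff⁻¹ * p m)) +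
        C (q.coeff m) * (C (p m).leadingCoeff⁻¹ * (p n * p m)) := by ring
    have h0 : freudOP_L α hα (p n * p m) = 0 := by
      rw [← freudOP_L_mul α hα, h.orth n m, if_neg (by omega)]
    rw [e, map_add, ih (by omega) _ hr, freudOP_C_mul, freudOP_C_mul, h0]
    ring

theorem freudOP_top {α : ℝ} (hα : 0 < α) {p : ℕ → ℝ[X]} {a : ℕ → ℝ} (h : IsFreud α p a)
    (n : ℕ) : freudOP_L α hα (p n * X ^ n) = 1 / (p n).leadingCoeff := by
  have hγ : (p n).leadingCoeff ≠ 0 := (h.lead n).ne'
  have hmon : (C (p n).leadingCoeff⁻¹ * p n).Monic := by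
    rw [Monic, leadingCoeff_mul, leadingCoeff_C, inv_mul_cancel₀ hγ]
  have hdeg : (C (p n).leadingCoeff⁻¹ * p n).degree = n := by
    rw [degree_C_mul (inv_ne_zero hγ), freudOP_degree h]
  have hr := freudOP_reduce hmon hdeg (X ^ n : ℝ[X]) (by
    rw [degree_X_pow]
    exact_mod_cast Nat.lt_succ_self n)
  have e : p n * X ^ n = p n * (X ^ n - C ((X ^ n : ℝ[X]).coeff n) *
      (C (p n).leadingCoeff⁻¹ * p n)) +
      C ((X ^ n : ℝ[X]).coeff n) * (C (p n).leadingCoeff⁻¹ * (p n * p n)) := by ring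
  have h1 : freudOP_L α hα (p n * p n) = 1 := by
    rw [← freudOP_L_mul α hα, h.orth n n, if_pos rfl]
  rw [e, map_add, freudOP_orth hα h n n le_rfl _ hr, freudOP_C_mul, freudOP_C_mul, h1,
    coeff_X_pow_self]
  ring

theorem freudOP_a {α : ℝ} {p : ℕ → ℝ[X]} {a : ℕ → ℝ} (h : IsFreud α p a) (n : ℕ) (hn : 1 ≤ n) :
    (p (n - 1)).leadingCoeff = a n * (p n).leadingCoeff := by
  obtain ⟨k, rfl⟩ := Nat.exists_eq_add_of_le hn
  rw [Nat.add_sub_cancel_left, add_comm 1 k]
  have hl : ∀ m, (p m).leadingCoeff = (p m).coeff m := fun m => by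
    rw [leadingCoeff, h.deg]
  rw [hl k, hl (k + 1)]
  cases k with
  | zero =>
    have := congrArg (fun f : ℝ[X] => f.coeff 1) h.rec0
    simp only [coeff_C_mul] at this
    rw [← this, coeff_X_mul]
  | succ k =>
    have := congrArg (fun f : ℝ[X] => f.coeff (k + 2)) (h.rec1 (k + 1) (by omega))
    simp only [coeff_add, coeff_C_mul, coeff_X_mul] at this
    rw [this, coeff_eq_zero_of_natDegree_lt (p := p (k + 1 - 1)) (by rw [h.deg]; omega)]
    ring

/-- The scaled monic polynomial. -/
noncomputable def freudOP_S (p : ℕ → ℝ[X]) (c : ℝ) (k : ℕ) : ℝ[X] :=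
  C (1 / ((p k).leadingCoeff * c ^ k)) * (p k).comp (C c * X)

theorem freudOP_S_deg {α : ℝ} {p : ℕ → ℝ[X]} {a : ℕ → ℝ} (h : IsFreud α p a) {c : ℝ}
    (hc : 0 < c) (k : ℕ) : (freudOP_S p c k).Monic ∧ (freudOP_S p c k).natDegree = k := by
  have hγ : 0 < (p k).leadingCoeff := h.lead k
  have hd : (C c * X : ℝ[X]).natDegree = 1 := natDegree_C_mul_X c hc.ne'
  have hne : (1 / ((p k).leadingCoeff * c ^ k)) ≠ 0 := by positivity
  constructor
  · rw [Monic, freudOP_S, leadingCoeff_mul, leadingCoeff_C,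
      leadingCoeff_comp (by rw [hd]; exact one_ne_zero), leadingCoeff_mul, leadingCoeff_C,
      leadingCoeff_X, mul_one, h.deg]
    field_simp
  · rw [freudOP_S, natDegree_C_mul hne, natDegree_comp, hd, mul_one, h.deg]

theorem freudOP_S_int {α : ℝ} (hα : 0 < α) {p : ℕ → ℝ[X]} {a : ℕ → ℝ} (h : IsFreud α p a)
    {n : ℕ} {c : ℝ} (hc : 0 < c) (hcα : c ^ α = n * kap α) (k j : ℕ) :
    ∫ x : ℝ, (freudOP_S p c k).eval x * x ^ j * wt α n x =
      1 / ((p k).leadingCoeff * c ^ k) * (c ^ (j + 1))⁻¹ * freudOP_L α hα (p k * X ^ j) := by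
  have hw : ∀ x : ℝ, wt α n x = freudOP_w α (c * x) := by
    intro x
    unfold wt freudOP_w
    rw [abs_mul, abs_of_pos hc, Real.mul_rpow hc.le (abs_nonneg x), hcα]
  have e : (fun x : ℝ => (freudOP_S p c k).eval x * x ^ j * wt α n x) = fun x =>
      1 / ((p k).leadingCoeff * c ^ k) * (c ^ j)⁻¹ *
        ((fun y : ℝ => (p k * X ^ j).eval y * freudOP_w α y) (c * x)) := by
    funext x
    change (freudOP_S p c k).eval x * x ^ j * wt α n x = 1 / ((p k).leadingCoeff * c ^ k) *
      (c ^ j)⁻¹ * ((p k * X ^ j).eval (c * x) * freudOP_w α (c * x))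
    rw [freudOP_S, eval_mul, eval_C, eval_comp, eval_mul, eval_C, eval_X, hw, eval_mul, eval_pow,
      eval_X, mul_pow]
    have hcj : c ^ j ≠ 0 := (pow_pos hc j).ne'
    field_simp
  have e3 := Measure.integral_comp_mul_left
    (fun y : ℝ => (p k * X ^ j).eval y * freudOP_w α y) c
  rw [e, integral_const_mul, e3, freudOP_L_apply, smul_eq_mul,
    abs_of_pos (inv_pos.2 hc), pow_succ, mul_inv]
  ring

theorem opdata_of_freud (α : ℝ) (hα : 1 < α) (p : ℕ → Polynomial ℝ) (a : ℕ → ℝ)
    (h : IsFreud α p a) (n : ℕ) (hn : 1 ≤ n) :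
    0 < a n ∧ ∃ (P Q : Polynomial ℝ) (hP hQ : ℝ), OPData α n P Q hP hQ ∧
      (rfreud α a n) ^ 2 = 4 * (hP / hQ) := by
  have hα0 : 0 < α := by linarith
  have hγ : ∀ m, 0 < (p m).leadingCoeff := h.lead
  have ha : a n = (p (n - 1)).leadingCoeff / (p n).leadingCoeff := by
    rw [freudOP_a h n hn, mul_div_assoc, div_self (hγ n).ne', mul_one]
  have hapos : 0 < a n := by
    rw [ha]
    exact div_pos (hγ _) (hγ _)
  refine ⟨hapos, ?_⟩
  have hn0 : (0 : ℝ) < n := by exact_mod_cast hn
  have hk : 0 < kap α := freudOP_kap_pos α hα0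
  have hnk : 0 < (n : ℝ) * kap α := mul_pos hn0 hk
  set c : ℝ := (n * kap α) ^ (1 / α) with hcdef
  have hc : 0 < c := Real.rpow_pos_of_pos hnk _
  have hcα : c ^ α = n * kap α := by
    rw [hcdef, ← Real.rpow_mul hnk.le, one_div_mul_cancel hα0.ne', Real.rpow_one]
  have hval : ∀ k : ℕ, ∫ x : ℝ, (freudOP_S p c k).eval x * x ^ k * wt α n x =
      1 / ((p k).leadingCoeff * c ^ k) * (c ^ (k + 1))⁻¹ * (1 / (p k).leadingCoeff) := fun k => by
    rw [freudOP_S_int hα0 h hc hcα, freudOP_top hα0 h]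
  have hzero : ∀ k j : ℕ, j < k → ∫ x : ℝ, (freudOP_S p c k).eval x * x ^ j * wt α n x = 0 := by
    intro k j hj
    rw [freudOP_S_int hα0 h hc hcα, freudOP_orth hα0 h k k le_rfl _ (by
      rw [degree_X_pow]; exact_mod_cast hj), mul_zero]
  have hvpos : ∀ k : ℕ, 0 < 1 / ((p k).leadingCoeff * c ^ k) * (c ^ (k + 1))⁻¹ *
      (1 / (p k).leadingCoeff) := fun k => by
    have := hγ k
    positivity
  refine ⟨freudOP_S p c n, freudOP_S p c (n - 1),
    (1 / (2 * Real.pi)) * ∫ x : ℝ, (freudOP_S p c n).eval x * x ^ n * wt α n x,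
    (1 / (2 * Real.pi)) * ∫ x : ℝ, (freudOP_S p c (n - 1)).eval x * x ^ (n - 1) * wt α n x,
    ⟨hn, (freudOP_S_deg h hc n).1, (freudOP_S_deg h hc (n - 1)).1, (freudOP_S_deg h hc n).2,
      (freudOP_S_deg h hc (n - 1)).2, hzero n, hzero (n - 1), rfl, rfl, ?_, ?_⟩, ?_⟩
  · rw [hval]
    exact mul_pos (by have := Real.pi_pos; positivity) (hvpos n)
  · rw [hval]
    exact mul_pos (by have := Real.pi_pos; positivity) (hvpos (n - 1))
  · rw [hval, hval]
    have hC : (Cfreud α / n) ^ (1 / α) = 2 / c := by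
      have h1 : Cfreud α / n = (2 / c) ^ α := by
        rw [Real.div_rpow (by norm_num) hc.le, hcα]
        unfold Cfreud kap
        have h1 : 0 < Real.Gamma (α / 2) := Real.Gamma_pos_of_pos (by linarith)
        have h2 : 0 < Real.Gamma ((α + 1) / 2) := Real.Gamma_pos_of_pos (by linarith)
        have h3 : 0 < √Real.pi := Real.sqrt_pos.2 Real.pi_pos
        field_simp
      rw [h1, ← Real.rpow_mul (by positivity), mul_one_div_cancel hα0.ne', Real.rpow_one]
    rw [rfreud, hC, ha]
    obtain ⟨k, rfl⟩ := Nat.exists_eq_add_of_le hn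
    rw [Nat.add_sub_cancel_left, add_comm 1 k]
    have h1 := (hγ k).ne'
    have h2 := (hγ (k + 1)).ne'
    have h3 := Real.pi_pos.ne'
    have h4 : c ≠ 0 := hc.ne'
    field_simp
    ring

end Pool.Agent.Freud
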