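import Pool.Agent.Freud.GBasic
import Pool.Agent.Freud.GBdry

/-!
Sign estimates of the phase functions.
-/

set_option autoImplicit false

open MeasureTheory Filter Topology

namespace Pool.Agent.Freud

/-! ### Elementary facts on the square roots -/

private lemma geo_slit {z : ℂ} (hz : 0 < z.im) (s : ℝ) :
    (s : ℂ) ^ 2 - z ^ 2 ∈ Complex.slitPlane := by
  rw [Complex.mem_slitPlane_iff]
  have h1 : ((s : ℂ) ^ 2 - z ^ 2).re = s ^ 2 - (z.re ^ 2 - z.im ^ 2) := by
    simp [pow_two]
  have h2 : ((s : ℂ) ^ 2 - z ^ 2).im = -(2 * z.re * z.im) := by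
    simp [pow_two]
    ring
  by_cases hx : z.re = 0
  · left
    rw [h1, hx]
    have := pow_pos hz 2
    nlinarith [sq_nonneg s]
  · right
    rw [h2]
    have := hz.ne'
    simp [hx, this]

private lemma geo_re_pos {w : ℂ} (hw : w ∈ Complex.slitPlane) {r : ℝ} (h1 : -(1 / 2) ≤ r)
    (h2 : r ≤ 1 / 2) : 0 < (w ^ (r : ℂ)).re := by
  rw [Complex.cpow_ofReal_re]
  have hw0 : w ≠ 0 := Complex.slitPlane_ne_zero hw
  have hn : 0 < ‖w‖ := norm_pos_iff.2 hw0
  apply mul_pos (Real.rpow_pos_of_pos hn _)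
  apply Real.cos_pos_of_mem_Ioo
  have ha1 : -Real.pi < w.arg := Complex.neg_pi_lt_arg w
  have ha2 : w.arg < Real.pi :=
    lt_of_le_of_ne (Complex.arg_le_pi w) (Complex.mem_slitPlane_iff_arg.1 hw).1
  have hpi := Real.pi_pos
  constructor
  · rcases le_total 0 w.arg with h | h
    · nlinarith
    · nlinarith
  · rcases le_total 0 w.arg with h | h
    · nlinarith
    · nlinarith

private lemma geo_sq (w : ℂ) : (w ^ (1 / 2 : ℂ)) ^ 2 = w := by
  have := Complex.cpow_nat_inv_pow w (two_ne_zero)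
  rw [one_div]
  exact_mod_cast this

private lemma geo_half {w : ℂ} (hw : w ∈ Complex.slitPlane) : 0 < (w ^ (1 / 2 : ℂ)).re := by
  have := geo_re_pos hw (r := 1 / 2) (by norm_num) (le_refl _)
  simpa using this

private lemma geo_neghalf {w : ℂ} (hw : w ∈ Complex.slitPlane) :
    0 < (w ^ (-(1 / 2) : ℂ)).re := by
  have := geo_re_pos hw (r := -(1 / 2)) (by norm_num) (by norm_num)
  simpa using this

/-- The real part of `u` is at least the imaginary part of `z`. -/
private lemma geo_u_ge {z : ℂ} (hz : 0 < z.im) (s : ℝ) :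
    z.im ≤ (((s : ℂ) ^ 2 - z ^ 2) ^ (1 / 2 : ℂ)).re := by
  set u := ((s : ℂ) ^ 2 - z ^ 2) ^ (1 / 2 : ℂ) with hu
  have h0 : 0 < u.re := geo_half (geo_slit hz s)
  have h1 : u ^ 2 = (s : ℂ) ^ 2 - z ^ 2 := geo_sq _
  have h2 : u.re ^ 2 - u.im ^ 2 = s ^ 2 - (z.re ^ 2 - z.im ^ 2) := by
    have := congrArg Complex.re h1
    simpa [pow_two] using this
  have h3 : u.re * u.im = -(z.re * z.im) := by
    have := congrArg Complex.im h1
    simp [pow_two] at this
    linarith
  by_contra hcon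
  push Not at hcon
  have h4 : (u.re ^ 2 - z.im ^ 2) * (u.re ^ 2 + z.re ^ 2) = s ^ 2 * u.re ^ 2 := by
    have h5 : (u.re * u.im) ^ 2 = (z.re * z.im) ^ 2 := by rw [h3]; ring
    nlinarith
  have h6 : u.re ^ 2 < z.im ^ 2 := by nlinarith
  have h7 : 0 < u.re ^ 2 + z.re ^ 2 := by positivity
  have h8 : 0 ≤ s ^ 2 * u.re ^ 2 := by positivity
  nlinarith

private lemma geo_im_pos {z : ℂ} (hz : 0 < z.im) (s : ℝ) :
    0 < (z + Complex.I * ((s : ℂ) ^ 2 - z ^ 2) ^ (1 / 2 : ℂ)).im := by
  have := geo_u_ge hz s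
  simp only [Complex.add_im, Complex.mul_im, Complex.I_re, Complex.I_im]
  linarith

private lemma geo_cont_w (z : ℂ) : Continuous (fun s : ℝ => (s : ℂ) ^ 2 - z ^ 2) := by
  fun_prop

private lemma geo_cont_a {α : ℝ} (hα : 1 < α) : Continuous (fun s : ℝ => α * s ^ (α - 1)) :=
  continuous_const.mul (Real.continuous_rpow_const (by linarith))

private lemma geo_cont_pow {z : ℂ} (hz : 0 < z.im) (c : ℂ) :
    Continuous (fun s : ℝ => ((s : ℂ) ^ 2 - z ^ 2) ^ c) := by
  rw [continuous_iff_continuousAt]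
  intro s
  exact ContinuousAt.cpow (geo_cont_w z).continuousAt continuousAt_const (geo_slit hz s)

/-- `z + i u`. -/
private noncomputable def geoq (z : ℂ) (s : ℝ) : ℂ :=
  z + Complex.I * ((s : ℂ) ^ 2 - z ^ 2) ^ (1 / 2 : ℂ)

private lemma geo_cont_q {z : ℂ} (hz : 0 < z.im) : Continuous (geoq z) :=
  continuous_const.add (continuous_const.mul (geo_cont_pow hz _))

private lemma geo_gre {α : ℝ} (hα : 1 < α) {z : ℂ} (hz : 0 < z.im) :
    (gfun α z).re = ∫ s in (0 : ℝ)..1, α * s ^ (α - 1) * Real.log (‖geoq z s‖ / 2) := by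
  have hcont : Continuous (fun s : ℝ => ((α * s ^ (α - 1) : ℝ) : ℂ) *
      Complex.log (geoq z s / 2)) := by
    apply (Complex.continuous_ofReal.comp (geo_cont_a hα)).mul
    rw [continuous_iff_continuousAt]
    intro s
    apply ((geo_cont_q hz).div_const 2).continuousAt.clog
    rw [Complex.mem_slitPlane_iff]
    right
    have := geo_im_pos hz s
    have h2 : (geoq z s / 2).im = (geoq z s).im / 2 := by
      simp
    rw [h2]
    have h3 : 0 < (geoq z s).im := this
    linarith [half_pos h3]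
  have h := Complex.reCLM.intervalIntegral_comp_comm (a := 0) (b := 1) (μ := volume)
    (hcont.intervalIntegrable 0 1)
  have h1 : (gfun α z).re = Complex.reCLM (∫ s in (0 : ℝ)..1, ((α * s ^ (α - 1) : ℝ) : ℂ) *
      Complex.log (geoq z s / 2)) := rfl
  rw [h1, ← h]
  apply intervalIntegral.integral_congr
  intro s _
  simp only [Complex.reCLM_apply]
  rw [Complex.re_ofReal_mul, Complex.log_re, norm_div]
  simp

private lemma geo_dre {α : ℝ} (hα : 1 < α) {z : ℂ} (hz : 0 < z.im) :
    (dgfun α z * Complex.I).re =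
      ∫ s in (0 : ℝ)..1, α * s ^ (α - 1) * (((s : ℂ) ^ 2 - z ^ 2) ^ (-(1 / 2) : ℂ)).re := by
  have hcont : Continuous (fun s : ℝ => ((α * s ^ (α - 1) : ℝ) : ℂ) *
      ((s : ℂ) ^ 2 - z ^ 2) ^ (-(1 / 2) : ℂ)) :=
    (Complex.continuous_ofReal.comp (geo_cont_a hα)).mul (geo_cont_pow hz _)
  have h := Complex.reCLM.intervalIntegral_comp_comm (a := 0) (b := 1) (μ := volume)
    (hcont.intervalIntegrable 0 1)
  have h1 : dgfun α z * Complex.I = ∫ s in (0 : ℝ)..1, ((α * s ^ (α - 1) : ℝ) : ℂ) *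
      ((s : ℂ) ^ 2 - z ^ 2) ^ (-(1 / 2) : ℂ) := by
    unfold dgfun
    rw [mul_comm, ← mul_assoc]
    simp
  rw [h1]
  have h2 := h.symm
  simp only [Complex.reCLM_apply] at h2
  rw [h2]
  apply intervalIntegral.integral_congr
  intro s _
  simp only
  rw [Complex.re_ofReal_mul]

/-- Lower bound for the vertical derivative. -/
private lemma geo_dlow {α δ : ℝ} (hα : 1 < α) (hδ : 0 < δ) (hδ' : δ < 1 / 2) {z : ℂ}
    (hz : 0 < z.im) (hz1 : z.im ≤ 1) (hx : |z.re| ≤ 1 - δ / 4) :
    (1 / √6) * (1 - (1 - δ / 8) ^ α) ≤ (dgfun α z * Complex.I).re := by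
  rw [geo_dre hα hz]
  set a : ℝ := 1 - δ / 8 with ha
  have ha0 : 0 < a := by rw [ha]; linarith
  have ha1 : a < 1 := by rw [ha]; linarith
  have hcont : Continuous (fun s : ℝ => α * s ^ (α - 1) *
      (((s : ℂ) ^ 2 - z ^ 2) ^ (-(1 / 2) : ℂ)).re) :=
    (geo_cont_a hα).mul (Complex.continuous_re.comp (geo_cont_pow hz _))
  rw [← intervalIntegral.integral_add_adjacent_intervals (b := a)
    (hcont.intervalIntegrable 0 a) (hcont.intervalIntegrable a 1)]
  have h1 : 0 ≤ ∫ s in (0 : ℝ)..a, α * s ^ (α - 1) *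
      (((s : ℂ) ^ 2 - z ^ 2) ^ (-(1 / 2) : ℂ)).re := by
    apply intervalIntegral.integral_nonneg ha0.le
    intro s hs
    apply mul_nonneg
    · exact mul_nonneg (by linarith) (Real.rpow_nonneg hs.1 _)
    · exact (geo_neghalf (geo_slit hz s)).le
  have h2 : (∫ s in a..1, α * s ^ (α - 1) * (1 / √6)) ≤ ∫ s in a..1, α * s ^ (α - 1) *
      (((s : ℂ) ^ 2 - z ^ 2) ^ (-(1 / 2) : ℂ)).re := by
    apply intervalIntegral.integral_mono_on ha1.le
    · exact (((geo_cont_a hα).mul continuous_const).intervalIntegrable a 1)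
    · exact hcont.intervalIntegrable a 1
    · intro s hs
      apply mul_le_mul_of_nonneg_left _
        (mul_nonneg (by linarith) (Real.rpow_nonneg (le_trans ha0.le hs.1) _))
      set w : ℂ := (s : ℂ) ^ 2 - z ^ 2 with hw
      have hws : w ∈ Complex.slitPlane := geo_slit hz s
      set v : ℂ := w ^ (-(1 / 2) : ℂ) with hv
      have hvp : 0 < v.re := geo_neghalf hws
      have hw0 : w ≠ 0 := Complex.slitPlane_ne_zero hws
      have hv2 : v ^ 2 * w = 1 := by
        rw [hv, Complex.cpow_neg]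
        have := geo_sq w
        rw [inv_pow, this]
        exact inv_mul_cancel₀ hw0
      have hwre : 0 < w.re := by
        have h3 : w.re = s ^ 2 - (z.re ^ 2 - z.im ^ 2) := by
          rw [hw]
          simp [pow_two]
        rw [h3]
        have h4 : z.re ^ 2 ≤ (1 - δ / 4) ^ 2 := by
          rw [← sq_abs]
          exact pow_le_pow_left₀ (abs_nonneg _) hx 2
        have h5 : a ^ 2 ≤ s ^ 2 := pow_le_pow_left₀ ha0.le hs.1 2
        rw [ha] at h5
        nlinarith [sq_nonneg z.im]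
      have hwn : ‖w‖ ≤ 3 := by
        have h3 : ‖w‖ ≤ ‖(s : ℂ) ^ 2‖ + ‖z ^ 2‖ := norm_sub_le _ _
        rw [norm_pow, norm_pow, Complex.norm_real, Real.norm_eq_abs, sq_abs] at h3
        have h4 : ‖z‖ ^ 2 = z.re ^ 2 + z.im ^ 2 := by
          rw [Complex.sq_norm, Complex.normSq_apply]
          ring
        have h5 : z.re ^ 2 ≤ 1 := by
          rw [← sq_abs]
          have := pow_le_pow_left₀ (abs_nonneg _) (le_trans hx (by linarith : 1 - δ / 4 ≤ 1)) 2
          simpa using this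
        have h6 : z.im ^ 2 ≤ 1 := by
          have := pow_le_pow_left₀ hz.le hz1 2
          simpa using this
        have h7 : s ^ 2 ≤ 1 := by
          have := pow_le_pow_left₀ (le_trans ha0.le hs.1) hs.2 2
          simpa using this
        linarith
      have hwn0 : 0 < ‖w‖ := norm_pos_iff.2 hw0
      -- the real part of `v ^ 2` is positive
      have hvn : ‖v‖ ^ 2 * ‖w‖ = 1 := by
        rw [← norm_pow, ← norm_mul, hv2, norm_one]
      have hv3 : v ^ 2 = (starRingEnd ℂ w) * ((‖w‖ ^ 2 : ℝ) : ℂ)⁻¹ := by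
        have h3 : w * starRingEnd ℂ w = ((‖w‖ ^ 2 : ℝ) : ℂ) := by
          rw [Complex.mul_conj, Complex.normSq_eq_norm_sq]
        have h4 : v ^ 2 = w⁻¹ := eq_inv_of_mul_eq_one_left hv2
        rw [h4, ← h3, mul_inv]
        have h5 : starRingEnd ℂ w ≠ 0 := by simpa using hw0
        field_simp
      have hv4 : 0 < v.re ^ 2 - v.im ^ 2 := by
        have h3 := congrArg Complex.re hv3
        have h4 : (v ^ 2).re = v.re ^ 2 - v.im ^ 2 := by simp [pow_two]
        rw [h4, ← Complex.ofReal_inv, Complex.re_mul_ofReal, Complex.conj_re] at h3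
        rw [h3]
        positivity
      have hv5 : ‖v‖ ^ 2 = v.re ^ 2 + v.im ^ 2 := by
        rw [Complex.sq_norm, Complex.normSq_apply]
        ring
      have hv6 : 1 / 6 ≤ v.re ^ 2 := by
        have h3 : 1 / 3 ≤ ‖v‖ ^ 2 := by
          rw [div_le_iff₀ (by norm_num)]
          calc (1 : ℝ) = ‖v‖ ^ 2 * ‖w‖ := hvn.symm
            _ ≤ ‖v‖ ^ 2 * 3 := mul_le_mul_of_nonneg_left hwn (by positivity)
        linarith
      have h9 : 1 / √6 = √(1 / 6) := by
        rw [Real.sqrt_div (by norm_num), Real.sqrt_one]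
      rw [h9]
      exact Real.sqrt_le_iff.2 ⟨hvp.le, hv6⟩
  have h3 : (∫ s in a..1, α * s ^ (α - 1) * (1 / √6)) = (1 / √6) * (1 - a ^ α) := by
    rw [intervalIntegral.integral_mul_const, intervalIntegral.integral_const_mul,
      integral_rpow (Or.inl (by linarith)), sub_add_cancel, Real.one_rpow]
    field_simp
  linarith

private lemma geo_hasDerivAt_vert {α : ℝ} (hα : 1 < α) {x t : ℝ} (ht : 0 < t) :
    HasDerivAt (fun t : ℝ => (gfun α (x + t * Complex.I)).re)
      ((dgfun α (x + t * Complex.I) * Complex.I).re) t := by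
  have hz : ((x : ℂ) + t * Complex.I) ∈ UH := by
    show 0 < ((x : ℂ) + t * Complex.I).im
    simpa using ht
  have h1 : HasDerivAt (fun t : ℂ => (x : ℂ) + t * Complex.I) Complex.I (t : ℂ) := by
    simpa using ((hasDerivAt_id (t : ℂ)).mul_const Complex.I).const_add (x : ℂ)
  have h3 : HasDerivAt (gfun α) (dgfun α (x + t * Complex.I))
      ((fun t : ℂ => (x : ℂ) + t * Complex.I) (t : ℂ)) := gfun_hasDerivAt α hα _ hz
  have h4 := HasDerivAt.comp (t : ℂ) h3 h1
  have h2 : HasDerivAt (fun t : ℂ => gfun α ((x : ℂ) + t * Complex.I))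
      (dgfun α (x + t * Complex.I) * Complex.I) (t : ℂ) := h4
  exact h2.real_of_complex

/-- Main lower bound near the middle. -/
private lemma geo_mid {α δ : ℝ} (hα : 1 < α) (hδ : 0 < δ) (hδ' : δ < 1 / 2) {z : ℂ}
    (hz : 0 < z.im) (hz1 : z.im ≤ 1) (hx : |z.re| ≤ 1 - δ / 4) :
    (kap α * |z.re| ^ α + ell α) / 2 + (1 / √6) * (1 - (1 - δ / 8) ^ α) * z.im ≤
      (gfun α z).re := by
  set c1 : ℝ := (1 / √6) * (1 - (1 - δ / 8) ^ α) with hc1
  obtain ⟨b, hb, hb1, -, -⟩ := gfun_bdry α hα z.re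
  have hbre := hb1 (by linarith)
  have hzz : ((z.re : ℂ) + z.im * Complex.I) = z := Complex.re_add_im z
  have hmono : ∀ ε : ℝ, 0 < ε → ε ≤ z.im →
      (gfun α (z.re + ε * Complex.I)).re + c1 * (z.im - ε) ≤ (gfun α z).re := by
    intro ε hε hεz
    have hm : MonotoneOn (fun t : ℝ => (gfun α (z.re + t * Complex.I)).re - c1 * t)
        (Set.Icc ε z.im) := by
      have hd : ∀ t ∈ Set.Icc ε z.im, HasDerivAt
          (fun t : ℝ => (gfun α (z.re + t * Complex.I)).re - c1 * t)
          ((dgfun α (z.re + t * Complex.I) * Complex.I).re - c1) t := by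
        intro t ht
        have h1 := geo_hasDerivAt_vert hα (x := z.re) (lt_of_lt_of_le hε ht.1)
        have h2 : HasDerivAt (fun t : ℝ => c1 * t) c1 t := by
          simpa using (hasDerivAt_id t).const_mul c1
        exact h1.sub h2
      apply monotoneOn_of_deriv_nonneg (convex_Icc _ _)
      · intro t ht
        exact (hd t ht).continuousAt.continuousWithinAt
      · intro t ht
        rw [interior_Icc] at ht
        exact (hd t ⟨ht.1.le, ht.2.le⟩).differentiableAt.differentiableWithinAt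
      · intro t ht
        rw [interior_Icc] at ht
        rw [(hd t ⟨ht.1.le, ht.2.le⟩).deriv]
        have h3 := geo_dlow (z := (z.re : ℂ) + t * Complex.I) hα hδ hδ'
          (by simpa using lt_trans hε ht.1) (by simpa using le_trans ht.2.le hz1)
          (by simpa using hx)
        linarith
    have h1 := hm ⟨le_refl _, hεz⟩ ⟨hεz, le_refl _⟩ hεz
    simp only [hzz] at h1
    linarith
  have hlim : Tendsto (fun ε : ℝ => (gfun α (z.re + ε * Complex.I)).re + c1 * (z.im - ε))
      (𝓝[>] 0) (𝓝 (b.re + c1 * (z.im - 0))) := by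
    apply Tendsto.add
    · exact (Complex.continuous_re.tendsto b).comp hb
    · apply Tendsto.mul tendsto_const_nhds
      apply Tendsto.sub tendsto_const_nhds
      exact tendsto_nhdsWithin_of_tendsto_nhds tendsto_id
  have hle : b.re + c1 * (z.im - 0) ≤ (gfun α z).re := by
    apply le_of_tendsto hlim
    have h1 : Set.Ioc 0 z.im ∈ 𝓝[>] (0 : ℝ) := Ioc_mem_nhdsGT hz
    filter_upwards [h1] with ε hε
    exact hmono ε hε.1 hε.2
  rw [hbre] at hle
  linarith

private lemma geo_kap_pos {α : ℝ} (hα : 1 < α) : 0 < kap α := by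
  unfold kap
  have h1 : 0 < Real.Gamma (α / 2) := Real.Gamma_pos_of_pos (by linarith)
  have h2 : 0 < Real.Gamma ((α + 1) / 2) := Real.Gamma_pos_of_pos (by linarith)
  have h3 : 0 < √Real.pi := Real.sqrt_pos.2 Real.pi_pos
  positivity

private lemma geo_xiR_re (α : ℝ) (z : ℂ) :
    (xiR α z).re = (gfun α z).re - kap α * (z ^ (α : ℂ)).re / 2 - ell α / 2 := by
  unfold xiR
  have h1 : ((kap α : ℂ) * z ^ (α : ℂ) / 2).re = kap α * (z ^ (α : ℂ)).re / 2 := by
    have : (kap α : ℂ) * z ^ (α : ℂ) / 2 = ((kap α / 2 : ℝ) : ℂ) * z ^ (α : ℂ) := by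
      push_cast
      ring
    rw [this, Complex.re_ofReal_mul]
    ring
  have h2 : ((ell α : ℂ) / 2).re = ell α / 2 := by
    have : (ell α : ℂ) / 2 = ((ell α / 2 : ℝ) : ℂ) := by push_cast; ring
    rw [this, Complex.ofReal_re]
  rw [Complex.sub_re, Complex.sub_re, h1, h2]

private lemma geo_xiL_re (α : ℝ) (z : ℂ) :
    (xiL α z).re = (gfun α z).re - kap α * ((-z) ^ (α : ℂ)).re / 2 - ell α / 2 := by
  unfold xiL
  have h1 : ((kap α : ℂ) * (-z) ^ (α : ℂ) / 2).re = kap α * ((-z) ^ (α : ℂ)).re / 2 := by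
    have : (kap α : ℂ) * (-z) ^ (α : ℂ) / 2 = ((kap α / 2 : ℝ) : ℂ) * (-z) ^ (α : ℂ) := by
      push_cast
      ring
    rw [this, Complex.re_ofReal_mul]
    ring
  have h2 : ((ell α : ℂ) / 2).re = ell α / 2 := by
    have : (ell α : ℂ) / 2 = ((ell α / 2 : ℝ) : ℂ) := by push_cast; ring
    rw [this, Complex.ofReal_re]
  rw [Complex.sub_re, Complex.sub_re, h1, h2]

/-- Symmetry. -/
private lemma geo_symm {α : ℝ} (hα : 1 < α) {z : ℂ} (hz : z ∈ UH) :
    (xiR α (-(starRingEnd ℂ z))).re = (xiL α z).re := by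
  rw [geo_xiR_re, geo_xiL_re, gfun_symm α hα z hz]
  have h1 : (starRingEnd ℂ (gfun α z) + Real.pi * Complex.I).re = (gfun α z).re := by
    simp
  have h2 : (-(starRingEnd ℂ z)) ^ (α : ℂ) = starRingEnd ℂ ((-z) ^ (α : ℂ)) := by
    rw [← map_neg]
    have h3 : (-z).arg ≠ Real.pi := by
      intro h
      rw [Complex.arg_eq_pi_iff] at h
      have h4 : z.im = 0 := by simpa using h.2
      have h5 : 0 < z.im := hz
      linarith
    have h4 := Complex.conj_cpow (-z) (α : ℂ) h3
    rw [h4]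
    simp
  rw [h1, h2, Complex.conj_re]

/-- The real part of a power at most the power of the real part, in a sector. -/
private lemma geo_pow_le {α x y : ℝ} (hα : 1 < α) (hy : 0 < y) (hxy : α * y ≤ x) :
    (((x : ℂ) + y * Complex.I) ^ (α : ℂ)).re ≤ x ^ α := by
  have hx : 0 < x := lt_of_lt_of_le (mul_pos (by linarith) hy) hxy
  have hd : ∀ t ∈ Set.Icc 0 y, HasDerivAt (fun t : ℝ => (((x : ℂ) + t * Complex.I) ^ (α : ℂ)).re)
      ((α * ((x : ℂ) + t * Complex.I) ^ ((α : ℂ) - 1) * Complex.I).re) t := by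
    intro t ht
    have h1 : HasDerivAt (fun t : ℂ => (x : ℂ) + t * Complex.I) Complex.I (t : ℂ) := by
      simpa using ((hasDerivAt_id (t : ℂ)).mul_const Complex.I).const_add (x : ℂ)
    have h2 : (x : ℂ) + (t : ℂ) * Complex.I ∈ Complex.slitPlane := by
      rw [Complex.mem_slitPlane_iff]
      left
      simpa using hx
    exact (h1.cpow_const h2).real_of_complex
  have hanti : AntitoneOn (fun t : ℝ => (((x : ℂ) + t * Complex.I) ^ (α : ℂ)).re)
      (Set.Icc 0 y) := by
    apply antitoneOn_of_deriv_nonpos (convex_Icc _ _)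
    · intro t ht
      exact (hd t ht).continuousAt.continuousWithinAt
    · intro t ht
      rw [interior_Icc] at ht
      exact (hd t ⟨ht.1.le, ht.2.le⟩).differentiableAt.differentiableWithinAt
    · intro t ht
      rw [interior_Icc] at ht
      rw [(hd t ⟨ht.1.le, ht.2.le⟩).deriv]
      set w : ℂ := (x : ℂ) + t * Complex.I with hw
      have hwre : w.re = x := by rw [hw]; simp
      have hwim : w.im = t := by rw [hw]; simp
      have h3 : ((α : ℂ) * w ^ ((α : ℂ) - 1) * Complex.I).re =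
          -(α * (w ^ (((α - 1 : ℝ)) : ℂ)).im) := by
        have : (α : ℂ) - 1 = ((α - 1 : ℝ) : ℂ) := by push_cast; ring
        rw [this, Complex.mul_I_re, Complex.im_ofReal_mul]
      rw [h3, Complex.cpow_ofReal_im]
      have hw0 : 0 < ‖w‖ := by
        rw [norm_pos_iff]
        intro h
        rw [h] at hwre
        simp at hwre
        linarith
      have ha0 : 0 ≤ w.arg := Complex.arg_nonneg_iff.2 (by rw [hwim]; exact ht.1.le)
      have ha1 : w.arg ≤ Real.pi / 2 :=
        (abs_le.1 (Complex.abs_arg_le_pi_div_two_iff.2 (by rw [hwre]; exact hx.le))).2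
      have ha2 := Real.mul_le_sin ha0 ha1
      rw [Complex.sin_arg, hwim] at ha2
      have ha3 : t / ‖w‖ ≤ 1 / α := by
        have h4 : x ≤ ‖w‖ := by
          rw [← hwre]
          exact le_trans (le_abs_self _) (Complex.abs_re_le_norm w)
        rw [div_le_div_iff₀ hw0 (by linarith)]
        have : α * t ≤ α * y := mul_le_mul_of_nonneg_left ht.2.le (by linarith)
        linarith
      have hpi := Real.pi_pos
      have ha4 : w.arg * (α - 1) ≤ Real.pi := by
        have h5 : 2 / Real.pi * w.arg ≤ 1 / α := le_trans ha2 ha3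
        have h6 : w.arg ≤ Real.pi / (2 * α) := by
          rw [le_div_iff₀ (by linarith)]
          have h7 : 2 / Real.pi * w.arg * (Real.pi * α) ≤ 1 / α * (Real.pi * α) :=
            mul_le_mul_of_nonneg_right h5 (by nlinarith)
          have h8 : 2 / Real.pi * w.arg * (Real.pi * α) = w.arg * (2 * α) := by
            field_simp
          have h9 : 1 / α * (Real.pi * α) = Real.pi := by
            field_simp
          linarith
        calc w.arg * (α - 1) ≤ Real.pi / (2 * α) * (α - 1) :=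
              mul_le_mul_of_nonneg_right h6 (by linarith)
          _ = Real.pi * ((α - 1) / (2 * α)) := by ring
          _ ≤ Real.pi * 1 := by
              apply mul_le_mul_of_nonneg_left _ hpi.le
              rw [div_le_one (by linarith)]
              linarith
          _ = Real.pi := mul_one _
      have ha5 : 0 ≤ Real.sin (w.arg * (α - 1)) :=
        Real.sin_nonneg_of_nonneg_of_le_pi (mul_nonneg ha0 (by linarith)) ha4
      have ha6 : 0 ≤ α * (‖w‖ ^ (α - 1) * Real.sin (w.arg * (α - 1))) := by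
        have : 0 ≤ ‖w‖ ^ (α - 1) := Real.rpow_nonneg hw0.le _
        have h0 : 0 ≤ α := by linarith
        positivity
      linarith
  have h1 := hanti (Set.left_mem_Icc.2 hy.le) (Set.right_mem_Icc.2 hy.le) hy.le
  simp only [Complex.ofReal_zero, zero_mul, add_zero] at h1
  have h2 : (((x : ℂ)) ^ (α : ℂ)).re = x ^ α := by
    rw [← Complex.ofReal_cpow hx.le, Complex.ofReal_re]
  rw [h2] at h1
  exact h1

/-! ### The region to the right of 1 -/

/-- Norms of `z + i u` and `z - i u`. -/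
private lemma geo_norms {z : ℂ} (hz : 0 < z.im) (s : ℝ) :
    ∃ r' : ℝ, 0 ≤ r' ∧ r' ≤ ‖geoq z s‖ ∧ ‖geoq z s‖ * r' = s ^ 2 ∧
      ‖geoq z s‖ + r' = ‖z - s‖ + ‖z + s‖ := by
  set u : ℂ := ((s : ℂ) ^ 2 - z ^ 2) ^ (1 / 2 : ℂ) with hu
  have hq : geoq z s = z + Complex.I * u := rfl
  have hu2 : u ^ 2 = (s : ℂ) ^ 2 - z ^ 2 := geo_sq _
  have hure : z.im ≤ u.re := geo_u_ge hz s
  have hprod : (z + Complex.I * u) * (z - Complex.I * u) = (s : ℂ) ^ 2 := by
    have : (z + Complex.I * u) * (z - Complex.I * u) = z ^ 2 - Complex.I ^ 2 * u ^ 2 := by ring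
    rw [this, hu2, Complex.I_sq]
    ring
  have hpn : ‖z + Complex.I * u‖ * ‖z - Complex.I * u‖ = s ^ 2 := by
    rw [← norm_mul, hprod, norm_pow, Complex.norm_real, Real.norm_eq_abs, sq_abs]
  have h3 : u.re * u.im = -(z.re * z.im) := by
    have := congrArg Complex.im hu2
    simp [pow_two] at this
    linarith
  have hle : ‖z - Complex.I * u‖ ≤ ‖z + Complex.I * u‖ := by
    have e1 : ‖z - Complex.I * u‖ ^ 2 = (z.re + u.im) ^ 2 + (z.im - u.re) ^ 2 := by
      rw [Complex.sq_norm, Complex.normSq_apply]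
      simp
      ring
    have e2 : ‖z + Complex.I * u‖ ^ 2 = (z.re - u.im) ^ 2 + (z.im + u.re) ^ 2 := by
      rw [Complex.sq_norm, Complex.normSq_apply]
      simp
      ring
    have e3 : 0 ≤ z.im * u.re - z.re * u.im := by
      have hup : 0 < u.re := lt_of_lt_of_le hz hure
      have e4 : (z.im * u.re - z.re * u.im) * u.re = z.im * (u.re ^ 2 + z.re ^ 2) := by
        have : (z.im * u.re - z.re * u.im) * u.re = z.im * u.re ^ 2 - z.re * (u.re * u.im) := by
          ring
        rw [this, h3]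
        ring
      by_contra hcon
      push Not at hcon
      have e5 : (z.im * u.re - z.re * u.im) * u.re < 0 := mul_neg_of_neg_of_pos hcon hup
      rw [e4] at e5
      have e6 : 0 ≤ z.im * (u.re ^ 2 + z.re ^ 2) := by positivity
      linarith
    have e7 : ‖z - Complex.I * u‖ ^ 2 ≤ ‖z + Complex.I * u‖ ^ 2 := by
      rw [e1, e2]
      nlinarith
    exact (pow_le_pow_iff_left₀ (norm_nonneg _) (norm_nonneg _) two_ne_zero).1 e7
  refine ⟨‖z - Complex.I * u‖, norm_nonneg _, by rw [hq]; exact hle, by rw [hq]; exact hpn, ?_⟩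
  rw [hq]
  have e1 : (‖z + Complex.I * u‖ + ‖z - Complex.I * u‖) ^ 2 = (‖z - s‖ + ‖z + s‖) ^ 2 := by
    have p1 : ‖z + Complex.I * u‖ ^ 2 + ‖z - Complex.I * u‖ ^ 2 = 2 * ‖z‖ ^ 2 + 2 * ‖u‖ ^ 2 := by
      simp only [Complex.sq_norm, Complex.normSq_apply, Complex.add_re, Complex.add_im,
        Complex.sub_re, Complex.sub_im, Complex.mul_re, Complex.mul_im, Complex.I_re, Complex.I_im]
      ring
    have p2 : ‖z - s‖ ^ 2 + ‖z + s‖ ^ 2 = 2 * ‖z‖ ^ 2 + 2 * s ^ 2 := by
      simp only [Complex.sq_norm, Complex.normSq_apply, Complex.add_re, Complex.add_im,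
        Complex.sub_re, Complex.sub_im, Complex.ofReal_re, Complex.ofReal_im]
      ring
    have p3 : ‖u‖ ^ 2 = ‖z - s‖ * ‖z + s‖ := by
      rw [← norm_pow, ← norm_mul, hu2, ← norm_neg]
      congr 1
      ring
    nlinarith
  have := (pow_left_inj₀ (add_nonneg (norm_nonneg _) (norm_nonneg _))
    (add_nonneg (norm_nonneg _) (norm_nonneg _)) two_ne_zero).1 e1
  exact this

private lemma geo_norm_upper {z : ℂ} (hz : 0 < z.im) {s : ℝ} (hs0 : 0 ≤ s) (hs : s ≤ z.re) :
    ‖geoq z s‖ ≤ (z.re + z.im) + √((z.re + z.im) ^ 2 - s ^ 2) := by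
  obtain ⟨r', h0, h1, h2, h3⟩ := geo_norms hz s
  set r := ‖geoq z s‖ with hr
  have a1 : ‖z - s‖ ≤ |z.re - s| + |z.im| := by
    have := Complex.norm_le_abs_re_add_abs_im (z - s)
    simpa using this
  have a2 : ‖z + s‖ ≤ |z.re + s| + |z.im| := by
    have := Complex.norm_le_abs_re_add_abs_im (z + s)
    simpa using this
  rw [abs_of_nonneg (by linarith), abs_of_pos hz] at a1 a2
  have h4 : r + r' ≤ 2 * (z.re + z.im) := by linarith
  have h5 : (r - (z.re + z.im)) ^ 2 ≤ (z.re + z.im) ^ 2 - s ^ 2 := by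
    have h6 : r * (r + r') ≤ r * (2 * (z.re + z.im)) :=
      mul_le_mul_of_nonneg_left h4 (norm_nonneg _)
    nlinarith
  have h7 := Real.le_sqrt_of_sq_le h5
  linarith

private lemma geo_norm_lower {z : ℂ} (hz : 0 < z.im) (s : ℝ) :
    z.re + √(z.re ^ 2 - s ^ 2) ≤ ‖geoq z s‖ := by
  obtain ⟨r', h0, h1, h2, h3⟩ := geo_norms hz s
  set r := ‖geoq z s‖ with hr
  have a1 : z.re - s ≤ ‖z - s‖ := by
    have := Complex.re_le_norm (z - s)
    simpa using this
  have a2 : z.re + s ≤ ‖z + s‖ := by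
    have := Complex.re_le_norm (z + s)
    simpa using this
  have h4 : 2 * z.re ≤ r + r' := by linarith
  have h5 : z.re ≤ r := by linarith
  have h6 : z.re ^ 2 - s ^ 2 ≤ (r - z.re) ^ 2 := by
    have h6 : r * (2 * z.re) ≤ r * (r + r') :=
      mul_le_mul_of_nonneg_left h4 (norm_nonneg _)
    nlinarith
  have h7 : √(z.re ^ 2 - s ^ 2) ≤ r - z.re := Real.sqrt_le_iff.2 ⟨by linarith, h6⟩
  linarith

/-- The values of `g` on the real axis to the right of `1`. -/
private noncomputable def geoF (α X : ℝ) : ℝ :=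
  ∫ s in (0 : ℝ)..1, α * s ^ (α - 1) * Real.log ((X + √(X ^ 2 - s ^ 2)) / 2)

private lemma geo_cont_f {α X : ℝ} (hα : 1 < α) (hX : 0 < X) :
    Continuous (fun s : ℝ => α * s ^ (α - 1) * Real.log ((X + √(X ^ 2 - s ^ 2)) / 2)) := by
  apply (geo_cont_a hα).mul
  apply Continuous.log
  · fun_prop
  · intro s
    have := Real.sqrt_nonneg (X ^ 2 - s ^ 2)
    positivity

private lemma geo_cont_g {α : ℝ} (hα : 1 < α) {z : ℂ} (hz : 0 < z.im) :
    Continuous (fun s : ℝ => α * s ^ (α - 1) * Real.log (‖geoq z s‖ / 2)) := by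
  apply (geo_cont_a hα).mul
  apply Continuous.log
  · exact (continuous_norm.comp (geo_cont_q hz)).div_const 2
  · intro s
    have h : geoq z s ≠ 0 := by
      intro h
      have h2 := geo_im_pos hz s
      have h3 : (geoq z s).im = 0 := by rw [h]; simp
      have h4 : 0 < (geoq z s).im := h2
      linarith
    have : 0 < ‖geoq z s‖ := norm_pos_iff.2 h
    positivity

private lemma geo_upper {α : ℝ} (hα : 1 < α) {z : ℂ} (hz : 0 < z.im) (hx : 1 ≤ z.re) :
    (gfun α z).re ≤ geoF α (z.re + z.im) := by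
  rw [geo_gre hα hz]
  unfold geoF
  apply intervalIntegral.integral_mono_on zero_le_one
  · exact (geo_cont_g hα hz).intervalIntegrable 0 1
  · exact (geo_cont_f hα (by linarith)).intervalIntegrable 0 1
  · intro s hs
    apply mul_le_mul_of_nonneg_left _ (mul_nonneg (by linarith) (Real.rpow_nonneg hs.1 _))
    have h1 := geo_norm_upper hz hs.1 (le_trans hs.2 hx)
    have h0 : 0 < ‖geoq z s‖ := by
      have := geo_norm_lower hz s
      have h2 := Real.sqrt_nonneg (z.re ^ 2 - s ^ 2)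
      linarith
    apply Real.log_le_log (by positivity)
    linarith

private lemma geo_lower {α : ℝ} (hα : 1 < α) {z : ℂ} (hz : 0 < z.im) (hx : 1 ≤ z.re) :
    geoF α z.re ≤ (gfun α z).re := by
  rw [geo_gre hα hz]
  unfold geoF
  apply intervalIntegral.integral_mono_on zero_le_one
  · exact (geo_cont_f hα (by linarith)).intervalIntegrable 0 1
  · exact (geo_cont_g hα hz).intervalIntegrable 0 1
  · intro s hs
    apply mul_le_mul_of_nonneg_left _ (mul_nonneg (by linarith) (Real.rpow_nonneg hs.1 _))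
    have h1 := geo_norm_lower hz s
    have h2 := Real.sqrt_nonneg (z.re ^ 2 - s ^ 2)
    apply Real.log_le_log (by linarith)
    linarith

private lemma geo_F_one {α : ℝ} (hα : 1 < α) : geoF α 1 ≤ (kap α + ell α) / 2 := by
  obtain ⟨b, hb, hb1, -, -⟩ := gfun_bdry α hα 1
  have hbre := hb1 (by simp)
  simp only [abs_one, Real.one_rpow, mul_one] at hbre
  rw [← hbre]
  have hlim : Tendsto (fun ε : ℝ => (gfun α ((1 : ℝ) + ε * Complex.I)).re) (𝓝[>] 0) (𝓝 b.re) :=
    (Complex.continuous_re.tendsto b).comp hb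
  apply ge_of_tendsto hlim
  filter_upwards [self_mem_nhdsWithin] with ε hε
  have h := geo_lower (z := (1 : ℝ) + ε * Complex.I) hα (by simpa using hε) (by simp)
  simpa using h

private lemma geo_int_a {α a b : ℝ} (hα : 1 < α) :
    (∫ s in a..b, α * s ^ (α - 1)) = b ^ α - a ^ α := by
  rw [intervalIntegral.integral_const_mul, integral_rpow (Or.inl (by linarith)), sub_add_cancel]
  field_simp

/-- Scaling. -/
private lemma geo_scale {α X : ℝ} (hα : 1 < α) (hX : 0 < X) :
    (∫ s in (0 : ℝ)..X, α * s ^ (α - 1) * Real.log ((X + √(X ^ 2 - s ^ 2)) / 2)) =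
      X ^ α * (Real.log X + geoF α 1) := by
  have h1 := intervalIntegral.integral_comp_mul_left (a := 0) (b := 1)
    (fun s : ℝ => α * s ^ (α - 1) * Real.log ((X + √(X ^ 2 - s ^ 2)) / 2)) hX.ne'
  rw [mul_zero, mul_one, smul_eq_mul] at h1
  have h2 : (∫ s in (0 : ℝ)..X, α * s ^ (α - 1) * Real.log ((X + √(X ^ 2 - s ^ 2)) / 2)) =
      X * ∫ t in (0 : ℝ)..1, α * (X * t) ^ (α - 1) *
        Real.log ((X + √(X ^ 2 - (X * t) ^ 2)) / 2) := by
    rw [h1, ← mul_assoc, mul_inv_cancel₀ hX.ne', one_mul]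
  rw [h2]
  have h3 : (∫ t in (0 : ℝ)..1, α * (X * t) ^ (α - 1) *
        Real.log ((X + √(X ^ 2 - (X * t) ^ 2)) / 2)) =
      ∫ t in (0 : ℝ)..1, (X ^ (α - 1) * Real.log X * (α * t ^ (α - 1)) + X ^ (α - 1) *
        (α * t ^ (α - 1) * Real.log ((1 + √(1 ^ 2 - t ^ 2)) / 2))) := by
    apply intervalIntegral.integral_congr
    intro t ht
    rw [Set.uIcc_of_le zero_le_one] at ht
    simp only
    have e1 : √(X ^ 2 - (X * t) ^ 2) = X * √(1 ^ 2 - t ^ 2) := by
      have : X ^ 2 - (X * t) ^ 2 = X ^ 2 * (1 ^ 2 - t ^ 2) := by ring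
      rw [this, Real.sqrt_mul (by positivity), Real.sqrt_sq hX.le]
    have e2 : (X + X * √(1 ^ 2 - t ^ 2)) / 2 = X * ((1 + √(1 ^ 2 - t ^ 2)) / 2) := by ring
    have e3 : 0 < (1 + √(1 ^ 2 - t ^ 2)) / 2 := by positivity
    rw [e1, e2, Real.log_mul hX.ne' e3.ne', Real.mul_rpow hX.le ht.1]
    ring
  have c1 : IntervalIntegrable (fun t : ℝ => X ^ (α - 1) * Real.log X * (α * t ^ (α - 1)))
      volume 0 1 := (continuous_const.mul (geo_cont_a hα)).intervalIntegrable 0 1
  have c2 : IntervalIntegrable (fun t : ℝ => X ^ (α - 1) *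
      (α * t ^ (α - 1) * Real.log ((1 + √(1 ^ 2 - t ^ 2)) / 2))) volume 0 1 :=
    (continuous_const.mul (geo_cont_f hα one_pos)).intervalIntegrable 0 1
  have e5 : (∫ t in (0 : ℝ)..1, X ^ (α - 1) * Real.log X * (α * t ^ (α - 1))) =
      X ^ (α - 1) * Real.log X := by
    rw [intervalIntegral.integral_const_mul, geo_int_a hα, Real.one_rpow,
      Real.zero_rpow (by linarith)]
    ring
  have e6 : (∫ t in (0 : ℝ)..1, X ^ (α - 1) *
      (α * t ^ (α - 1) * Real.log ((1 + √(1 ^ 2 - t ^ 2)) / 2))) = X ^ (α - 1) * geoF α 1 :=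
    intervalIntegral.integral_const_mul _ _
  rw [h3, intervalIntegral.integral_add c1 c2, e5, e6]
  have e4 : X ^ α = X * X ^ (α - 1) := by
    rw [Real.rpow_sub_one hX.ne']
    field_simp
  rw [e4]
  ring

private lemma geo_log_deriv {α s : ℝ} (hα : 1 < α) (hs : 0 < s) :
    HasDerivAt (fun s : ℝ => s ^ α * Real.log (s / 2) - s ^ α / α)
      (α * s ^ (α - 1) * Real.log (s / 2)) s := by
  have h1 : HasDerivAt (fun s : ℝ => s ^ α) (α * s ^ (α - 1)) s :=
    Real.hasDerivAt_rpow_const (Or.inl hs.ne')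
  have h2 : HasDerivAt (fun s : ℝ => Real.log (s / 2)) ((1 / 2) / (s / 2)) s := by
    have h3 : HasDerivAt (fun s : ℝ => s / 2) (1 / 2) s := (hasDerivAt_id s).div_const 2
    exact h3.log (by positivity)
  have h4 := (h1.mul h2).sub (h1.div_const α)
  have h5 : α * s ^ (α - 1) * Real.log (s / 2) + s ^ α * ((1 / 2) / (s / 2)) -
      α * s ^ (α - 1) / α = α * s ^ (α - 1) * Real.log (s / 2) := by
    have e1 : s ^ α * ((1 / 2) / (s / 2)) = s ^ (α - 1) := by
      rw [Real.rpow_sub_one hs.ne']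
      field_simp
    rw [e1]
    field_simp
    ring
  rw [h5] at h4
  exact h4

private lemma geo_cont_log {α a b : ℝ} (hα : 1 < α) (ha : 0 < a) (hab : a ≤ b) :
    IntervalIntegrable (fun s : ℝ => α * s ^ (α - 1) * Real.log (s / 2)) volume a b := by
  apply ContinuousOn.intervalIntegrable
  rw [Set.uIcc_of_le hab]
  apply (geo_cont_a hα).continuousOn.mul
  apply ContinuousOn.log
  · fun_prop
  · intro s hs
    have : 0 < s := lt_of_lt_of_le ha hs.1
    positivity

private lemma geo_F_bound {α δ X : ℝ} (hα : 1 < α) (hδ : 0 < δ) (hX : 1 + δ / 4 ≤ X) :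
    geoF α X ≤ kap α * X ^ α / 2 + ell α / 2 - Real.log ((2 + δ / 2) / (2 + δ / 4)) *
      ((1 / 2) ^ α * (1 - (1 + δ / 8) ^ (-α))) * X ^ α := by
  set lam : ℝ := Real.log ((2 + δ / 2) / (2 + δ / 4)) with hlam
  set f : ℝ → ℝ := fun s => α * s ^ (α - 1) * Real.log ((X + √(X ^ 2 - s ^ 2)) / 2) with hf
  have hX1 : 1 < X := by linarith
  have hX0 : 0 < X := by linarith
  have hlam0 : 0 < lam := by
    apply Real.log_pos
    rw [lt_div_iff₀ (by linarith)]
    linarith
  set m : ℝ := (1 + X) / 2 with hm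
  have hm1 : 1 ≤ m := by rw [hm]; linarith
  have hmX : m ≤ X := by rw [hm]; linarith
  have hfc : Continuous f := geo_cont_f hα hX0
  have i1 : (∫ s in (0 : ℝ)..X, f s) = X ^ α * (Real.log X + geoF α 1) := geo_scale hα hX0
  have i2 : (∫ s in (0 : ℝ)..X, f s) = geoF α X + ∫ s in (1 : ℝ)..X, f s := by
    rw [← intervalIntegral.integral_add_adjacent_intervals (b := 1)
      (hfc.intervalIntegrable 0 1) (hfc.intervalIntegrable 1 X)]
    rfl
  have i3 : (∫ s in (1 : ℝ)..X, f s) = (∫ s in (1 : ℝ)..m, f s) + ∫ s in m..X, f s := by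
    rw [← intervalIntegral.integral_add_adjacent_intervals (b := m)
      (hfc.intervalIntegrable 1 m) (hfc.intervalIntegrable m X)]
  have i4 : (∫ s in (1 : ℝ)..X, α * s ^ (α - 1) * Real.log (s / 2)) =
      (∫ s in (1 : ℝ)..m, α * s ^ (α - 1) * Real.log (s / 2)) +
        ∫ s in m..X, α * s ^ (α - 1) * Real.log (s / 2) := by
    rw [← intervalIntegral.integral_add_adjacent_intervals (b := m)
      (geo_cont_log hα one_pos hm1) (geo_cont_log hα (by linarith) hmX)]
  have i5 : (∫ s in (1 : ℝ)..X, α * s ^ (α - 1) * Real.log (s / 2)) =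
      X ^ α * Real.log (X / 2) - X ^ α / α - (Real.log (1 / 2) - 1 / α) := by
    rw [intervalIntegral.integral_eq_sub_of_hasDerivAt
      (f := fun s : ℝ => s ^ α * Real.log (s / 2) - s ^ α / α)
      (fun s hs => geo_log_deriv hα (by
        rw [Set.uIcc_of_le hX1.le] at hs
        linarith [hs.1])) (geo_cont_log hα one_pos hX1.le)]
    simp
  have i6 : (∫ s in m..X, α * s ^ (α - 1) * Real.log (s / 2)) ≤ ∫ s in m..X, f s := by
    apply intervalIntegral.integral_mono_on hmX
    · exact geo_cont_log hα (by linarith) hmX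
    · exact hfc.intervalIntegrable m X
    · intro s hs
      have hs0 : 0 < s := by linarith [hs.1]
      apply mul_le_mul_of_nonneg_left _ (mul_nonneg (by linarith) (Real.rpow_nonneg hs0.le _))
      have := Real.sqrt_nonneg (X ^ 2 - s ^ 2)
      apply Real.log_le_log (by positivity)
      linarith [hs.2]
  have i7 : (∫ s in (1 : ℝ)..m, (α * s ^ (α - 1) * Real.log (s / 2) + α * s ^ (α - 1) * lam)) ≤
      ∫ s in (1 : ℝ)..m, f s := by
    apply intervalIntegral.integral_mono_on hm1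
    · exact (geo_cont_log hα one_pos hm1).add
        (((geo_cont_a hα).mul continuous_const).intervalIntegrable 1 m)
    · exact hfc.intervalIntegrable 1 m
    · intro s hs
      have hs0 : 0 < s := by linarith [hs.1]
      rw [← mul_add]
      apply mul_le_mul_of_nonneg_left _ (mul_nonneg (by linarith) (Real.rpow_nonneg hs0.le _))
      rw [hlam, ← Real.log_mul (by positivity) (by positivity)]
      have h0 := Real.sqrt_nonneg (X ^ 2 - s ^ 2)
      apply Real.log_le_log (by positivity)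
      have h1 : s / 2 * ((2 + δ / 2) / (2 + δ / 4)) ≤ X / 2 := by
        have h2 : s * (2 + δ / 2) ≤ X * (2 + δ / 4) := by
          have h3 : s ≤ (1 + X) / 2 := hs.2
          have h4 : s * (2 + δ / 2) ≤ (1 + X) / 2 * (2 + δ / 2) :=
            mul_le_mul_of_nonneg_right h3 (by linarith)
          nlinarith
        have h5 : s * ((2 + δ / 2) / (2 + δ / 4)) ≤ X := by
          rw [mul_div_assoc', div_le_iff₀ (by linarith)]
          exact h2
        linarith
      linarith
  have i8 : (∫ s in (1 : ℝ)..m, (α * s ^ (α - 1) * Real.log (s / 2) + α * s ^ (α - 1) * lam)) =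
      (∫ s in (1 : ℝ)..m, α * s ^ (α - 1) * Real.log (s / 2)) + (m ^ α - 1) * lam := by
    have c2 : IntervalIntegrable (fun s : ℝ => α * s ^ (α - 1) * lam) volume 1 m :=
      ((geo_cont_a hα).mul continuous_const).intervalIntegrable 1 m
    have e6 : (∫ s in (1 : ℝ)..m, α * s ^ (α - 1) * lam) = (m ^ α - 1) * lam := by
      rw [intervalIntegral.integral_mul_const, geo_int_a hα, Real.one_rpow]
    rw [intervalIntegral.integral_add (geo_cont_log hα one_pos hm1) c2, e6]
  have i9 : (1 / 2) ^ α * (1 - (1 + δ / 8) ^ (-α)) * X ^ α ≤ m ^ α - 1 := by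
    have h1 : (1 / 2) ^ α * X ^ α ≤ m ^ α := by
      rw [← Real.mul_rpow (by norm_num) hX0.le]
      apply Real.rpow_le_rpow (by positivity) _ (by linarith)
      rw [hm]
      linarith
    have h2 : 1 ≤ (1 + δ / 8) ^ (-α) * m ^ α := by
      have h3 : (1 + δ / 8) ^ α ≤ m ^ α := by
        apply Real.rpow_le_rpow (by positivity) _ (by linarith)
        rw [hm]
        linarith
      have h4 : (1 + δ / 8) ^ (-α) * (1 + δ / 8) ^ α = 1 := by
        rw [← Real.rpow_add (by positivity)]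
        simp
      calc (1 : ℝ) = (1 + δ / 8) ^ (-α) * (1 + δ / 8) ^ α := h4.symm
        _ ≤ (1 + δ / 8) ^ (-α) * m ^ α :=
            mul_le_mul_of_nonneg_left h3 (Real.rpow_nonneg (by positivity) _)
    have h5 : 0 ≤ 1 - (1 + δ / 8) ^ (-α) := by
      have : (1 + δ / 8) ^ (-α) ≤ 1 := by
        apply Real.rpow_le_one_of_one_le_of_nonpos (by linarith) (by linarith)
      linarith
    calc (1 / 2) ^ α * (1 - (1 + δ / 8) ^ (-α)) * X ^ α
        = (1 - (1 + δ / 8) ^ (-α)) * ((1 / 2) ^ α * X ^ α) := by ring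
      _ ≤ (1 - (1 + δ / 8) ^ (-α)) * m ^ α := mul_le_mul_of_nonneg_left h1 h5
      _ = m ^ α - (1 + δ / 8) ^ (-α) * m ^ α := by ring
      _ ≤ m ^ α - 1 := by linarith
  have i10 : X ^ α * geoF α 1 ≤ X ^ α * ((kap α + ell α) / 2) :=
    mul_le_mul_of_nonneg_left (geo_F_one hα) (Real.rpow_nonneg hX0.le _)
  have i11 : (1 / 2) ^ α * (1 - (1 + δ / 8) ^ (-α)) * X ^ α * lam ≤ (m ^ α - 1) * lam :=
    mul_le_mul_of_nonneg_right i9 hlam0.le
  have hell : ell α = -2 * Real.log 2 - 2 / α := rfl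
  have hlogX : Real.log (X / 2) = Real.log X - Real.log 2 := Real.log_div hX0.ne' two_ne_zero
  have hlog2 : Real.log (1 / 2) = -Real.log 2 := by
    rw [one_div, Real.log_inv]
  rw [hlogX, hlog2] at i5
  have e1 : X ^ α * ((kap α + ell α) / 2) = kap α * X ^ α / 2 - X ^ α * Real.log 2 - X ^ α / α := by
    rw [hell]
    ring
  have e2 : ell α / 2 = -Real.log 2 - 1 / α := by
    rw [hell]
    ring
  rw [e1] at i10
  rw [e2]
  have e3 : lam * ((1 / 2) ^ α * (1 - (1 + δ / 8) ^ (-α))) * X ^ α =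
      (1 / 2) ^ α * (1 - (1 + δ / 8) ^ (-α)) * X ^ α * lam := by ring
  rw [e3]
  have e4 : X ^ α * (Real.log X + geoF α 1) = X ^ α * Real.log X + X ^ α * geoF α 1 := by ring
  rw [e4] at i1
  have e5 : X ^ α * (Real.log X - Real.log 2) = X ^ α * Real.log X - X ^ α * Real.log 2 := by
    ring
  rw [e5] at i5
  linarith

/-- Comparison of powers. -/
private lemma geo_pow_diff {α x y : ℝ} (hα : 1 < α) (hx : 1 ≤ x) (hy : 0 < y) (hy1 : y ≤ 1) :
    (x + y) ^ α - (((x : ℂ) + y * Complex.I) ^ (α : ℂ)).re ≤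
      α * (2 * x) ^ (α - 1) * (2 * y) := by
  set S : Set ℂ := {w : ℂ | 0 < w.re} ∩ Metric.closedBall 0 (2 * x) with hS
  have hconv : Convex ℝ S := by
    apply Convex.inter _ (convex_closedBall _ _)
    exact convex_halfSpace_re_gt 0
  have hd : ∀ w ∈ S, HasDerivWithinAt (fun w : ℂ => w ^ (α : ℂ)) (α * w ^ ((α : ℂ) - 1)) S w := by
    intro w hw
    have h1 : w ∈ Complex.slitPlane := by
      rw [Complex.mem_slitPlane_iff]
      exact Or.inl hw.1
    have h2 := (hasDerivAt_id w).cpow_const (c := (α : ℂ)) h1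
    simp only [id, mul_one] at h2
    exact h2.hasDerivWithinAt
  have hb : ∀ w ∈ S, ‖(α : ℂ) * w ^ ((α : ℂ) - 1)‖ ≤ α * (2 * x) ^ (α - 1) := by
    intro w hw
    have e1 : (α : ℂ) - 1 = ((α - 1 : ℝ) : ℂ) := by push_cast; ring
    rw [norm_mul, e1, Complex.norm_cpow_real, Complex.norm_real, Real.norm_eq_abs,
      abs_of_pos (by linarith)]
    apply mul_le_mul_of_nonneg_left _ (by linarith)
    apply Real.rpow_le_rpow (norm_nonneg _) _ (by linarith)
    have := hw.2
    rw [mem_closedBall_zero_iff] at this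
    exact this
  have h1 : (x : ℂ) + y * Complex.I ∈ S := by
    refine ⟨?_, ?_⟩
    · show 0 < ((x : ℂ) + y * Complex.I).re
      simp
      linarith
    · rw [mem_closedBall_zero_iff]
      have := Complex.norm_le_abs_re_add_abs_im ((x : ℂ) + y * Complex.I)
      simp at this
      rw [abs_of_pos (by linarith), abs_of_pos hy] at this
      linarith
  have h2 : ((x + y : ℝ) : ℂ) ∈ S := by
    refine ⟨?_, ?_⟩
    · show 0 < ((x + y : ℝ) : ℂ).re
      rw [Complex.ofReal_re]
      linarith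
    · rw [mem_closedBall_zero_iff, Complex.norm_real, Real.norm_eq_abs, abs_of_pos (by linarith)]
      linarith
  have h3 := Convex.norm_image_sub_le_of_norm_hasDerivWithin_le hd hb hconv h1 h2
  have h4 : ‖((x + y : ℝ) : ℂ) - ((x : ℂ) + y * Complex.I)‖ ≤ 2 * y := by
    have e1 : ((x + y : ℝ) : ℂ) - ((x : ℂ) + y * Complex.I) = (y : ℂ) - y * Complex.I := by
      push_cast
      ring
    rw [e1]
    refine le_trans (norm_sub_le _ _) ?_
    rw [norm_mul, Complex.norm_I, Complex.norm_real, Real.norm_eq_abs, abs_of_pos hy]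
    linarith
  have h5 : (x + y) ^ α - (((x : ℂ) + y * Complex.I) ^ (α : ℂ)).re =
      ((((x + y : ℝ) : ℂ)) ^ (α : ℂ) - ((x : ℂ) + y * Complex.I) ^ (α : ℂ)).re := by
    rw [Complex.sub_re, ← Complex.ofReal_cpow (by linarith), Complex.ofReal_re]
  rw [h5]
  refine le_trans (Complex.re_le_norm _) (le_trans h3 ?_)
  apply mul_le_mul_of_nonneg_left h4
  have : 0 ≤ (2 * x) ^ (α - 1) := Real.rpow_nonneg (by linarith) _
  have h0 : 0 ≤ α := by linarith
  positivity

theorem exists_geo (α δ : ℝ) (hα : 1 < α) (hδ : 0 < δ) (hδ' : δ < 1 / 2) :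
    ∃ y1 : ℝ, 0 < y1 ∧ ∀ y0 : ℝ, 0 < y0 → y0 ≤ y1 → ∃ c : ℝ, Geo α δ y0 c := by
  have hk := geo_kap_pos hα
  set c1 : ℝ := (1 / √6) * (1 - (1 - δ / 8) ^ α) with hc1
  set cD : ℝ := Real.log ((2 + δ / 2) / (2 + δ / 4)) *
      ((1 / 2) ^ α * (1 - (1 + δ / 8) ^ (-α))) with hcD
  have hc1p : 0 < c1 := by
    have h1 : (1 - δ / 8) ^ α < 1 := Real.rpow_lt_one (by linarith) (by linarith) (by linarith)
    have h2 : 0 < 1 / √6 := by positivity
    apply mul_pos h2
    linarith
  have hcDp : 0 < cD := by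
    have h1 : 0 < Real.log ((2 + δ / 2) / (2 + δ / 4)) := by
      apply Real.log_pos
      rw [lt_div_iff₀ (by linarith)]
      linarith
    have h2 : (1 + δ / 8) ^ (-α) < 1 :=
      Real.rpow_lt_one_of_one_lt_of_neg (by linarith) (by linarith)
    have h3 : (0 : ℝ) < (1 / 2) ^ α := Real.rpow_pos_of_pos (by norm_num) _
    apply mul_pos h1 (mul_pos h3 (by linarith))
  set t1 : ℝ := c1 / (kap α * (α + 1) ^ α) with ht1
  have hα1p : 0 < (α + 1) ^ α := Real.rpow_pos_of_pos (by linarith) _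
  have ht1p : 0 < t1 := by positivity
  set t2 : ℝ := cD / (2 * (kap α * α * 2 ^ (α - 1))) with ht2
  have h2p : (0 : ℝ) < 2 ^ (α - 1) := Real.rpow_pos_of_pos (by norm_num) _
  have hα0 : 0 < α := by linarith
  have ht2p : 0 < t2 := by positivity
  refine ⟨min (δ / 8) (min (t1 ^ (1 / (α - 1))) t2), ?_, ?_⟩
  · apply lt_min (by linarith) (lt_min (Real.rpow_pos_of_pos ht1p _) ht2p)
  intro y0 hy0 hy01
  have hy0a : y0 ≤ δ / 8 := le_trans hy01 (min_le_left _ _)
  have hy0b : y0 ≤ t1 ^ (1 / (α - 1)) :=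
    le_trans hy01 (le_trans (min_le_right _ _) (min_le_left _ _))
  have hy0c : y0 ≤ t2 := le_trans hy01 (le_trans (min_le_right _ _) (min_le_right _ _))
  have hy0b' : y0 ^ (α - 1) ≤ t1 := by
    have h1 : y0 ^ (α - 1) ≤ (t1 ^ (1 / (α - 1))) ^ (α - 1) :=
      Real.rpow_le_rpow hy0.le hy0b (by linarith)
    rw [← Real.rpow_mul ht1p.le, one_div_mul_cancel (by linarith), Real.rpow_one] at h1
    exact h1
  have hright : ∀ z ∈ UH, z.im ≤ y0 → -z.im ≤ z.re → z.re ≤ 1 - δ / 4 →
      c1 / 2 * z.im ≤ (xiR α z).re := by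
    intro z hz hzy hzl hzr
    have hz0 : 0 < z.im := hz
    have hzabs : |z.re| ≤ 1 - δ / 4 := by
      rw [abs_le]
      constructor
      · linarith
      · exact hzr
    have hm := geo_mid hα hδ hδ' hz0 (by linarith) hzabs
    rw [geo_xiR_re]
    have hzz : ((z.re : ℂ) + z.im * Complex.I) = z := Complex.re_add_im z
    rcases le_total (α * z.im) z.re with hc | hc
    · have h1 := geo_pow_le hα hz0 hc
      rw [hzz] at h1
      have h2 : |z.re| = z.re := abs_of_nonneg (le_trans (mul_pos hα0 hz0).le hc)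
      rw [h2] at hm
      have h3 : kap α * (z ^ (α : ℂ)).re ≤ kap α * z.re ^ α :=
        mul_le_mul_of_nonneg_left h1 hk.le
      have h4 : 0 < c1 * z.im := mul_pos hc1p hz0
      linarith
    · have h1 : ‖z‖ ≤ (α + 1) * z.im := by
        have h2 := Complex.norm_le_abs_re_add_abs_im z
        rw [abs_of_pos hz0] at h2
        have h3 : |z.re| ≤ α * z.im := by
          rw [abs_le]
          constructor
          · nlinarith
          · exact hc
        linarith
      have h2 : (z ^ (α : ℂ)).re ≤ ((α + 1) * z.im) ^ α := by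
        refine le_trans (Complex.re_le_norm _) ?_
        rw [Complex.norm_cpow_real]
        exact Real.rpow_le_rpow (norm_nonneg _) h1 hα0.le
      have h3 : ((α + 1) * z.im) ^ α = (α + 1) ^ α * (z.im ^ (α - 1) * z.im) := by
        rw [Real.mul_rpow (by linarith) hz0.le, Real.rpow_sub_one hz0.ne']
        field_simp
      have h4 : z.im ^ (α - 1) ≤ t1 :=
        le_trans (Real.rpow_le_rpow hz0.le hzy (by linarith)) hy0b'
      have h5 : kap α * (z ^ (α : ℂ)).re ≤ c1 * z.im := by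
        calc kap α * (z ^ (α : ℂ)).re ≤ kap α * ((α + 1) ^ α * (z.im ^ (α - 1) * z.im)) := by
              rw [← h3]
              exact mul_le_mul_of_nonneg_left h2 hk.le
          _ ≤ kap α * ((α + 1) ^ α * (t1 * z.im)) := by
              apply mul_le_mul_of_nonneg_left _ hk.le
              apply mul_le_mul_of_nonneg_left _ hα1p.le
              exact mul_le_mul_of_nonneg_right h4 hz0.le
          _ = c1 * z.im := by
              rw [ht1]
              field_simp
      have h6 : 0 ≤ kap α * |z.re| ^ α := mul_nonneg hk.le (Real.rpow_nonneg (abs_nonneg _) _)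
      linarith
  have hout : ∀ z ∈ UH, z.im ≤ y0 → 1 + δ / 4 ≤ z.re → (xiR α z).re ≤ -(cD / 2 * z.re) := by
    intro z hz hzy hzr
    have hz0 : 0 < z.im := hz
    have hx1 : 1 ≤ z.re := by linarith
    have hx0 : 0 < z.re := by linarith
    have hzz : ((z.re : ℂ) + z.im * Complex.I) = z := Complex.re_add_im z
    rw [geo_xiR_re]
    have h1 := geo_upper hα hz0 hx1
    have h2 := geo_F_bound (X := z.re + z.im) hα hδ (by linarith)
    rw [← hcD] at h2
    have h3 := geo_pow_diff hα hx1 hz0 (by linarith : z.im ≤ 1)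
    rw [hzz] at h3
    have h4 : z.re ^ α ≤ (z.re + z.im) ^ α := Real.rpow_le_rpow hx0.le (by linarith) hα0.le
    have h5 : cD * z.re ^ α ≤ cD * (z.re + z.im) ^ α := mul_le_mul_of_nonneg_left h4 hcDp.le
    have h6 : kap α * ((z.re + z.im) ^ α - (z ^ (α : ℂ)).re) ≤
        kap α * (α * (2 * z.re) ^ (α - 1) * (2 * z.im)) := mul_le_mul_of_nonneg_left h3 hk.le
    have h7 : z.re ^ (α - 1) ≤ z.re ^ α := Real.rpow_le_rpow_of_exponent_le hx1 (by linarith)
    have h8 : kap α * (α * (2 * z.re) ^ (α - 1) * (2 * z.im)) ≤ cD * z.re ^ α := by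
      rw [Real.mul_rpow (by norm_num) hx0.le]
      calc kap α * (α * (2 ^ (α - 1) * z.re ^ (α - 1)) * (2 * z.im))
          = 2 * (kap α * α * 2 ^ (α - 1)) * (z.im * z.re ^ (α - 1)) := by ring
        _ ≤ 2 * (kap α * α * 2 ^ (α - 1)) * (t2 * z.re ^ α) := by
            apply mul_le_mul_of_nonneg_left _ (by positivity)
            exact mul_le_mul (le_trans hzy hy0c) h7 (Real.rpow_nonneg hx0.le _) ht2p.le
        _ = cD * z.re ^ α := by
            rw [ht2]
            field_simp
    have h9 : z.re ≤ z.re ^ α := by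
      calc z.re = z.re ^ (1 : ℝ) := (Real.rpow_one _).symm
        _ ≤ z.re ^ α := Real.rpow_le_rpow_of_exponent_le hx1 hα.le
    have h10 : cD * z.re ≤ cD * z.re ^ α := mul_le_mul_of_nonneg_left h9 hcDp.le
    linarith
  have hsy : ∀ z ∈ UH, -(starRingEnd ℂ z) ∈ UH := by
    intro z hz
    show 0 < (-(starRingEnd ℂ z)).im
    have : 0 < z.im := hz
    simpa using this
  have him : ∀ z : ℂ, (-(starRingEnd ℂ z)).im = z.im := by
    intro z
    simp
  have hre : ∀ z : ℂ, (-(starRingEnd ℂ z)).re = -z.re := by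
    intro z
    simp
  refine ⟨min (c1 / 2) (cD / 2), hy0, hy0a, lt_min (by linarith) (by linarith), ?_, ?_, ?_, ?_, ?_⟩
  · intro z hz hzy hzr
    have hz0 : 0 < z.im := hz
    have hm := geo_mid hα hδ hδ' hz0 (by linarith) hzr
    have h6 : 0 ≤ kap α * |z.re| ^ α := mul_nonneg hk.le (Real.rpow_nonneg (abs_nonneg _) _)
    have h7 : min (c1 / 2) (cD / 2) * z.im ≤ c1 * z.im :=
      mul_le_mul_of_nonneg_right (le_trans (min_le_left _ _) (by linarith)) hz0.le
    linarith
  · intro z hz hzy hzl hzr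
    have hz0 : 0 < z.im := hz
    exact le_trans (mul_le_mul_of_nonneg_right (min_le_left _ _) hz0.le) (hright z hz hzy hzl hzr)
  · intro z hz hzy hzl hzr
    have hz0 : 0 < z.im := hz
    have h1 := hright _ (hsy z hz) (by rw [him]; exact hzy) (by rw [him, hre]; linarith)
      (by rw [hre]; linarith)
    rw [geo_symm hα hz, him] at h1
    exact le_trans (mul_le_mul_of_nonneg_right (min_le_left _ _) hz0.le) h1
  · intro z hz hzy hzr
    have h1 := hout z hz hzy hzr
    have h2 : min (c1 / 2) (cD / 2) * z.re ≤ cD / 2 * z.re :=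
      mul_le_mul_of_nonneg_right (min_le_right _ _) (by linarith)
    linarith
  · intro z hz hzy hzr
    have h1 := hout _ (hsy z hz) (by rw [him]; exact hzy) (by rw [hre]; linarith)
    rw [geo_symm hα hz, hre] at h1
    have h2 : min (c1 / 2) (cD / 2) * (-z.re) ≤ cD / 2 * (-z.re) :=
      mul_le_mul_of_nonneg_right (min_le_right _ _) (by linarith)
    linarith

end Pool.Agent.Freud
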