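import Pool.Agent.Freud.GBasic
import Pool.Agent.Freud.GBdry

/-!
# Job FR-F: the local conformal map at 1
-/

set_option autoImplicit false

open MeasureTheory Filter Topology Asymptotics Set
open scoped Interval ComplexConjugate

namespace Pool.Agent.Freud

namespace LM

/-- Parameter integrals of jointly continuous functions, holomorphic in the parameter. -/
theorem diff_param {U : Set ℂ} (hU : IsOpen U) {F : ℂ → ℝ → ℂ}
    (hc : ContinuousOn (fun p : ℂ × ℝ => F p.1 p.2) (U ×ˢ Icc (0 : ℝ) 1))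
    (hd : ∀ t ∈ Icc (0 : ℝ) 1, DifferentiableOn ℂ (fun z => F z t) U) :
    DifferentiableOn ℂ (fun z => ∫ t in (0 : ℝ)..1, F z t) U := by
  intro z₀ hz₀
  obtain ⟨r, hr, hball⟩ := Metric.isOpen_iff.1 hU z₀ hz₀
  set ρ := r / 3 with hρ
  have hρ0 : 0 < ρ := by positivity
  have hsub : Metric.closedBall z₀ (2 * ρ) ⊆ U := by
    refine (Metric.closedBall_subset_ball ?_).trans hball
    rw [hρ]; linarith
  have hcomp : IsCompact (Metric.closedBall z₀ (2 * ρ) ×ˢ Icc (0 : ℝ) 1) :=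
    (isCompact_closedBall _ _).prod isCompact_Icc
  obtain ⟨C, hC⟩ := hcomp.exists_bound_of_continuousOn (hc.mono (prod_mono_left hsub))
  have hslice : ∀ z ∈ U, ContinuousOn (fun t => F z t) (Icc (0 : ℝ) 1) := by
    intro z hz
    exact hc.comp (f := fun t : ℝ => (z, t)) (by fun_prop) (fun t ht => ⟨hz, ht⟩)
  have hmeas : ∀ z ∈ U, AEStronglyMeasurable (fun t => F z t)
      (volume.restrict (Ι (0 : ℝ) 1)) := by
    intro z hz
    rw [uIoc_of_le zero_le_one]
    exact ((hslice z hz).aestronglyMeasurable measurableSet_Icc).mono_measure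
      (Measure.restrict_mono Ioc_subset_Icc_self le_rfl)
  have hderiv : ∀ t ∈ Icc (0 : ℝ) 1, ∀ z ∈ Metric.ball z₀ ρ,
      HasDerivAt (fun z => F z t) (deriv (fun z => F z t) z) z ∧
        ‖deriv (fun z => F z t) z‖ ≤ C / ρ := by
    intro t ht z hz
    have hzU : z ∈ U := by
      apply hsub
      exact Metric.ball_subset_closedBall (Metric.ball_subset_ball (by linarith) hz)
    refine ⟨((hd t ht).differentiableAt (hU.mem_nhds hzU)).hasDerivAt, ?_⟩
    have hsub2 : Metric.closedBall z ρ ⊆ Metric.closedBall z₀ (2 * ρ) := by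
      apply Metric.closedBall_subset_closedBall'
      rw [Metric.mem_ball] at hz
      linarith
    apply Complex.norm_deriv_le_of_forall_mem_sphere_norm_le hρ0
    · apply DifferentiableOn.diffContOnCl
      rw [closure_ball z hρ0.ne']
      exact (hd t ht).mono (hsub2.trans hsub)
    · intro w hw
      exact hC (w, t) ⟨hsub2 (Metric.sphere_subset_closedBall hw), ht⟩
  have hz₀b : z₀ ∈ Metric.ball z₀ ρ := Metric.mem_ball_self hρ0
  have hF'meas : AEStronglyMeasurable (fun t => deriv (fun z => F z t) z₀)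
      (volume.restrict (Ι (0 : ℝ) 1)) := by
    have hseq : Tendsto (fun n : ℕ => (((1 : ℝ) / (n + 1) : ℝ) : ℂ)) atTop (𝓝 0) := by
      have := (Complex.continuous_ofReal.tendsto 0).comp
        (tendsto_one_div_add_atTop_nhds_zero_nat (𝕜 := ℝ))
      rw [Complex.ofReal_zero] at this
      exact this
    have hne : ∀ n : ℕ, (((1 : ℝ) / (n + 1) : ℝ) : ℂ) ≠ 0 := by
      intro n
      have : (0 : ℝ) < 1 / (n + 1) := by positivity
      exact_mod_cast this.ne'
    have hU' : ∀ᶠ n : ℕ in atTop, z₀ + (((1 : ℝ) / (n + 1) : ℝ) : ℂ) ∈ U := by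
      have h1 : Tendsto (fun n : ℕ => z₀ + (((1 : ℝ) / (n + 1) : ℝ) : ℂ)) atTop (𝓝 z₀) := by
        simpa using hseq.const_add z₀
      exact h1 (hU.mem_nhds hz₀)
    obtain ⟨n₀, hn₀⟩ := eventually_atTop.1 hU'
    apply aestronglyMeasurable_of_tendsto_ae (u := atTop)
      (f := fun (n : ℕ) t => (((1 : ℝ) / ((n + n₀ : ℕ) + 1) : ℝ) : ℂ)⁻¹ •
        (F (z₀ + (((1 : ℝ) / ((n + n₀ : ℕ) + 1) : ℝ) : ℂ)) t - F z₀ t))
    · intro n
      have h3 := (hmeas _ (hn₀ (n + n₀) (by omega))).sub (hmeas z₀ hz₀)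
      exact h3.const_smul ((((1 : ℝ) / ((n + n₀ : ℕ) + 1) : ℝ) : ℂ)⁻¹)
    · rw [uIoc_of_le zero_le_one]
      filter_upwards [ae_restrict_mem measurableSet_Ioc] with t ht
      have h1 := (hderiv t (Ioc_subset_Icc_self ht) z₀ hz₀b).1
      rw [hasDerivAt_iff_tendsto_slope_zero] at h1
      have h2 : Tendsto (fun n : ℕ => (((1 : ℝ) / ((n + n₀ : ℕ) + 1) : ℝ) : ℂ)) atTop (𝓝[≠] 0) := by
        rw [tendsto_nhdsWithin_iff]
        refine ⟨hseq.comp (tendsto_add_atTop_nat n₀), ?_⟩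
        filter_upwards with n
        exact hne (n + n₀)
      exact h1.comp h2
  have key := intervalIntegral.hasDerivAt_integral_of_dominated_loc_of_deriv_le (μ := volume)
    (F := F) (F' := fun z t => deriv (fun z => F z t) z) (x₀ := z₀) (a := (0 : ℝ)) (b := 1)
    (s := Metric.ball z₀ ρ) (bound := fun _ => C / ρ)
    (Metric.ball_mem_nhds _ hρ0) ?_ ?_ hF'meas ?_ ?_ ?_
  · exact key.2.differentiableAt.differentiableWithinAt
  · filter_upwards [hU.mem_nhds hz₀] with z hz using hmeas z hz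
  · apply ContinuousOn.intervalIntegrable
    rw [uIcc_of_le zero_le_one]
    exact hslice z₀ hz₀
  · refine Eventually.of_forall fun t ht z hz => ?_
    rw [uIoc_of_le zero_le_one] at ht
    exact (hderiv t (Ioc_subset_Icc_self ht) z hz).2
  · exact intervalIntegrable_const
  · refine Eventually.of_forall fun t ht z hz => ?_
    rw [uIoc_of_le zero_le_one] at ht
    exact (hderiv t (Ioc_subset_Icc_self ht) z hz).1

theorem beta_half {a : ℝ} (ha : 0 < a) :
    IntegrableOn (fun u : ℝ => u ^ (a / 2 - 1) * (1 - u) ^ (-(1 / 2) : ℝ)) (Ioo 0 1) ∧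
    ∫ u in Ioo (0 : ℝ) 1, u ^ (a / 2 - 1) * (1 - u) ^ (-(1 / 2) : ℝ) = kap a := by
  have hc := Complex.betaIntegral_convergent (u := ((a / 2 : ℝ) : ℂ)) (v := ((1 / 2 : ℝ) : ℂ))
    (by simp only [Complex.ofReal_re]; positivity) (by simp only [Complex.ofReal_re]; norm_num)
  have heq : ∀ u ∈ Ioo (0 : ℝ) 1, (u : ℂ) ^ (((a / 2 : ℝ) : ℂ) - 1) *
      (1 - (u : ℂ)) ^ (((1 / 2 : ℝ) : ℂ) - 1) =
      ((u ^ (a / 2 - 1) * (1 - u) ^ (-(1 / 2) : ℝ) : ℝ) : ℂ) := by
    intro u hu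
    rw [Complex.ofReal_mul, Complex.ofReal_cpow hu.1.le, Complex.ofReal_cpow (by linarith [hu.2])]
    congr 2
    · push_cast; ring
    · push_cast; ring
    · push_cast; ring
  rw [intervalIntegrable_iff_integrableOn_Ioo_of_le zero_le_one] at hc
  have hc2 : IntegrableOn (fun u : ℝ => ((u ^ (a / 2 - 1) * (1 - u) ^ (-(1 / 2) : ℝ) : ℝ) : ℂ))
      (Ioo 0 1) := hc.congr_fun heq measurableSet_Ioo
  have hr : IntegrableOn (fun u : ℝ => u ^ (a / 2 - 1) * (1 - u) ^ (-(1 / 2) : ℝ)) (Ioo 0 1) := by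
    have := hc2.re
    rw [IntegrableOn]
    simpa using this
  refine ⟨hr, ?_⟩
  have hG := Complex.Gamma_mul_Gamma_eq_betaIntegral (s := ((a / 2 : ℝ) : ℂ))
    (t := ((1 / 2 : ℝ) : ℂ))
    (by simp only [Complex.ofReal_re]; positivity) (by simp only [Complex.ofReal_re]; norm_num)
  have hB : Complex.betaIntegral ((a / 2 : ℝ) : ℂ) ((1 / 2 : ℝ) : ℂ) =
      ((∫ u in Ioo (0 : ℝ) 1, u ^ (a / 2 - 1) * (1 - u) ^ (-(1 / 2) : ℝ) : ℝ) : ℂ) := by
    rw [Complex.betaIntegral, intervalIntegral.integral_of_le zero_le_one,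
      integral_Ioc_eq_integral_Ioo, ← integral_complex_ofReal]
    exact setIntegral_congr_fun measurableSet_Ioo heq
  rw [hB, ← Complex.ofReal_add, Complex.Gamma_ofReal, Complex.Gamma_ofReal, Complex.Gamma_ofReal,
    ← Complex.ofReal_mul, ← Complex.ofReal_mul] at hG
  have hG' := Complex.ofReal_injective hG
  rw [Real.Gamma_one_half_eq, show a / 2 + 1 / 2 = (a + 1) / 2 by ring] at hG'
  have hpos : 0 < Real.Gamma ((a + 1) / 2) := Real.Gamma_pos_of_pos (by positivity)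
  rw [kap, eq_div_iff hpos.ne', mul_comm, ← hG']
  ring

theorem sq_half {a : ℝ} (ha : 0 < a) :
    IntegrableOn (fun t : ℝ => t ^ (a - 1) * (1 - t ^ 2) ^ (-(1 / 2) : ℝ)) (Ioo 0 1) ∧
    ∫ t in Ioo (0 : ℝ) 1, t ^ (a - 1) * (1 - t ^ 2) ^ (-(1 / 2) : ℝ) = kap a / 2 := by
  obtain ⟨h1, h2⟩ := beta_half ha
  have himg : (fun t : ℝ => t ^ 2) '' Ioo 0 1 = Ioo 0 1 := by
    ext u
    constructor
    · rintro ⟨t, ht, rfl⟩
      have := ht.1; have := ht.2
      constructor
      · positivity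
      · nlinarith
    · intro hu
      refine ⟨√u, ⟨Real.sqrt_pos.2 hu.1, ?_⟩, Real.sq_sqrt hu.1.le⟩
      rw [Real.sqrt_lt' one_pos]; simpa using hu.2
  have hder : ∀ t ∈ Ioo (0 : ℝ) 1, HasDerivWithinAt (fun t : ℝ => t ^ 2) (2 * t) (Ioo 0 1) t := by
    intro t _
    have := (hasDerivAt_pow 2 t).hasDerivWithinAt (s := Ioo (0 : ℝ) 1)
    simpa using this
  have hinj : InjOn (fun t : ℝ => t ^ 2) (Ioo 0 1) := by
    intro t ht s hs h
    exact (pow_left_inj₀ ht.1.le hs.1.le two_ne_zero).1 h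
  have hval : ∀ t ∈ Ioo (0 : ℝ) 1, |2 * t| • ((t ^ 2) ^ (a / 2 - 1) *
      (1 - t ^ 2) ^ (-(1 / 2) : ℝ)) = 2 * (t ^ (a - 1) * (1 - t ^ 2) ^ (-(1 / 2) : ℝ)) := by
    intro t ht
    have ht0 := ht.1
    rw [abs_of_pos (by linarith), smul_eq_mul, ← Real.rpow_natCast, ← Real.rpow_mul ht0.le]
    have : t * t ^ (((2 : ℕ) : ℝ) * (a / 2 - 1)) = t ^ (a - 1) := by
      nth_rewrite 1 [← Real.rpow_one t]
      rw [← Real.rpow_add ht0]
      congr 1
      push_cast; ring
    rw [← this]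
    ring
  constructor
  · have h3 := (integrableOn_image_iff_integrableOn_abs_deriv_smul measurableSet_Ioo hder hinj
      (fun u : ℝ => u ^ (a / 2 - 1) * (1 - u) ^ (-(1 / 2) : ℝ))).1 (by rw [himg]; exact h1)
    have h4 := (h3.congr_fun hval measurableSet_Ioo).const_mul (1 / 2)
    refine h4.congr (Eventually.of_forall fun t => ?_)
    simp
  · have h3 := integral_image_eq_integral_abs_deriv_smul measurableSet_Ioo hder hinj
      (fun u : ℝ => u ^ (a / 2 - 1) * (1 - u) ^ (-(1 / 2) : ℝ))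
    rw [himg, h2, setIntegral_congr_fun measurableSet_Ioo hval, integral_const_mul] at h3
    linarith

theorem scaled_int {a x : ℝ} (ha : 0 < a) (hx : 0 < x) :
    IntegrableOn (fun s : ℝ => a * s ^ (a - 1) * (x ^ 2 - s ^ 2) ^ (-(1 / 2) : ℝ)) (Ioo 0 x) ∧
    ∫ s in Ioo (0 : ℝ) x, a * s ^ (a - 1) * (x ^ 2 - s ^ 2) ^ (-(1 / 2) : ℝ) =
      kap a * a * x ^ (a - 1) / 2 := by
  obtain ⟨h1, h2⟩ := sq_half ha
  have himg : (fun t : ℝ => t * x) '' Ioo 0 1 = Ioo 0 x := by
    ext u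
    constructor
    · rintro ⟨t, ht, rfl⟩
      have := ht.1; have := ht.2
      constructor
      · positivity
      · change t * x < x
        nlinarith
    · intro hu
      refine ⟨u / x, ⟨div_pos hu.1 hx, ?_⟩, ?_⟩
      · rw [div_lt_one hx]; exact hu.2
      · change u / x * x = u
        field_simp
  have hder : ∀ t ∈ Ioo (0 : ℝ) 1, HasDerivWithinAt (fun t : ℝ => t * x) x (Ioo 0 1) t := by
    intro t _
    have := ((hasDerivAt_id t).mul_const x).hasDerivWithinAt (s := Ioo (0 : ℝ) 1)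
    simpa using this
  have hinj : InjOn (fun t : ℝ => t * x) (Ioo 0 1) := by
    intro t ht s hs h
    exact mul_right_cancel₀ hx.ne' h
  have hval : ∀ t ∈ Ioo (0 : ℝ) 1, |x| • (a * (t * x) ^ (a - 1) *
      (x ^ 2 - (t * x) ^ 2) ^ (-(1 / 2) : ℝ)) =
      a * x ^ (a - 1) * (t ^ (a - 1) * (1 - t ^ 2) ^ (-(1 / 2) : ℝ)) := by
    intro t ht
    have ht0 := ht.1
    have ht1 : 0 < 1 - t ^ 2 := by have := ht.2; nlinarith
    rw [abs_of_pos hx, smul_eq_mul, Real.mul_rpow ht0.le hx.le,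
      show x ^ 2 - (t * x) ^ 2 = x ^ 2 * (1 - t ^ 2) by ring,
      Real.mul_rpow (by positivity) ht1.le]
    have : x * (x ^ 2) ^ (-(1 / 2) : ℝ) = 1 := by
      rw [← Real.rpow_natCast x 2, ← Real.rpow_mul hx.le,
        show ((2 : ℕ) : ℝ) * (-(1 / 2)) = -1 by norm_num, Real.rpow_neg_one, mul_inv_cancel₀ hx.ne']
    calc x * (a * (t ^ (a - 1) * x ^ (a - 1)) * ((x ^ 2) ^ (-(1 / 2) : ℝ) *
          (1 - t ^ 2) ^ (-(1 / 2) : ℝ)))
        = (x * (x ^ 2) ^ (-(1 / 2) : ℝ)) * (a * x ^ (a - 1) * (t ^ (a - 1) *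
          (1 - t ^ 2) ^ (-(1 / 2) : ℝ))) := by ring
      _ = _ := by rw [this, one_mul]
  constructor
  · rw [← himg, integrableOn_image_iff_integrableOn_abs_deriv_smul measurableSet_Ioo hder hinj]
    have h3 : IntegrableOn (fun t : ℝ => a * x ^ (a - 1) * (t ^ (a - 1) *
        (1 - t ^ 2) ^ (-(1 / 2) : ℝ))) (Ioo 0 1) := h1.const_mul _
    exact h3.congr_fun (fun t ht => (hval t ht).symm) measurableSet_Ioo
  · rw [← himg, integral_image_eq_integral_abs_deriv_smul measurableSet_Ioo hder hinj,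
      setIntegral_congr_fun measurableSet_Ioo hval, integral_const_mul, h2]
    ring

theorem outer_int {a x : ℝ} (hx : 1 < x) :
    ∫ s in Ioo (1 : ℝ) x, a * s ^ (a - 1) * (x ^ 2 - s ^ 2) ^ (-(1 / 2) : ℝ) =
      (x - 1) ^ (1 / 2 : ℝ) * (2 * ∫ v in (0 : ℝ)..1, a * (1 + (1 - v ^ 2) * (x - 1)) ^ (a - 1) *
        (x + 1 + (1 - v ^ 2) * (x - 1)) ^ (-(1 / 2) : ℝ)) := by
  have hx1 : 0 < x - 1 := by linarith
  have himg : (fun v : ℝ => 1 + (1 - v ^ 2) * (x - 1)) '' Ioo 0 1 = Ioo 1 x := by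
    ext u
    constructor
    · rintro ⟨v, hv, rfl⟩
      have h1 := hv.1
      have h2 := hv.2
      have h3 : 0 < 1 - v ^ 2 := by nlinarith
      have h4 : 0 < v ^ 2 := by positivity
      constructor
      · change 1 < 1 + (1 - v ^ 2) * (x - 1)
        have := mul_pos h3 hx1
        linarith
      · change 1 + (1 - v ^ 2) * (x - 1) < x
        nlinarith [mul_pos h4 hx1]
    · intro hu
      have h1 : 0 < (x - u) / (x - 1) := div_pos (by linarith [hu.2]) hx1
      refine ⟨√((x - u) / (x - 1)), ⟨Real.sqrt_pos.2 h1, ?_⟩, ?_⟩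
      · rw [Real.sqrt_lt' one_pos, one_pow, div_lt_one hx1]
        linarith [hu.1]
      · change 1 + (1 - √((x - u) / (x - 1)) ^ 2) * (x - 1) = u
        rw [Real.sq_sqrt h1.le]
        field_simp
        ring
  have hder : ∀ v ∈ Ioo (0 : ℝ) 1, HasDerivWithinAt (fun v : ℝ => 1 + (1 - v ^ 2) * (x - 1))
      (-(2 * v) * (x - 1)) (Ioo 0 1) v := by
    intro v _
    have h1 : HasDerivAt (fun v : ℝ => 1 - v ^ 2) (-(2 * v)) v := by
      have := (hasDerivAt_pow 2 v).const_sub 1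
      simpa using this
    exact ((h1.mul_const (x - 1)).const_add 1).hasDerivWithinAt
  have hinj : InjOn (fun v : ℝ => 1 + (1 - v ^ 2) * (x - 1)) (Ioo 0 1) := by
    intro t ht s hs h
    have h1 : t ^ 2 = s ^ 2 := by
      have h2 : (1 - t ^ 2) * (x - 1) = (1 - s ^ 2) * (x - 1) := by
        have h3 : 1 + (1 - t ^ 2) * (x - 1) = 1 + (1 - s ^ 2) * (x - 1) := h
        linarith
      have := mul_right_cancel₀ hx1.ne' h2
      linarith
    exact (pow_left_inj₀ ht.1.le hs.1.le two_ne_zero).1 h1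
  have hval : ∀ v ∈ Ioo (0 : ℝ) 1, |(-(2 * v) * (x - 1))| •
      (a * (1 + (1 - v ^ 2) * (x - 1)) ^ (a - 1) *
        (x ^ 2 - (1 + (1 - v ^ 2) * (x - 1)) ^ 2) ^ (-(1 / 2) : ℝ)) =
      ((x - 1) ^ (1 / 2 : ℝ) * 2) * (a * (1 + (1 - v ^ 2) * (x - 1)) ^ (a - 1) *
        (x + 1 + (1 - v ^ 2) * (x - 1)) ^ (-(1 / 2) : ℝ)) := by
    intro v hv
    have h1 := hv.1
    have h2 := hv.2
    have h3 : 0 < 1 - v ^ 2 := by nlinarith
    have h4 : 0 < x + 1 + (1 - v ^ 2) * (x - 1) := by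
      have := mul_pos h3 hx1
      linarith
    rw [abs_of_neg (by nlinarith), smul_eq_mul,
      show x ^ 2 - (1 + (1 - v ^ 2) * (x - 1)) ^ 2 =
        (v ^ 2 * (x - 1)) * (x + 1 + (1 - v ^ 2) * (x - 1)) by ring,
      Real.mul_rpow (by positivity) h4.le, Real.mul_rpow (by positivity) hx1.le]
    have h5 : v * (v ^ 2) ^ (-(1 / 2) : ℝ) = 1 := by
      rw [← Real.rpow_natCast v 2, ← Real.rpow_mul h1.le,
        show ((2 : ℕ) : ℝ) * (-(1 / 2)) = -1 by norm_num, Real.rpow_neg_one, mul_inv_cancel₀ h1.ne']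
    have h6 : (x - 1) * (x - 1) ^ (-(1 / 2) : ℝ) = (x - 1) ^ (1 / 2 : ℝ) := by
      nth_rewrite 1 [← Real.rpow_one (x - 1)]
      rw [← Real.rpow_add hx1]
      norm_num
    calc _ = (v * (v ^ 2) ^ (-(1 / 2) : ℝ)) * ((x - 1) * (x - 1) ^ (-(1 / 2) : ℝ)) * 2 *
          (a * (1 + (1 - v ^ 2) * (x - 1)) ^ (a - 1) *
          (x + 1 + (1 - v ^ 2) * (x - 1)) ^ (-(1 / 2) : ℝ)) := by ring
      _ = _ := by rw [h5, h6]; ring
  rw [← himg, integral_image_eq_integral_abs_deriv_smul measurableSet_Ioo hder hinj,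
    setIntegral_congr_fun measurableSet_Ioo hval, integral_const_mul,
    intervalIntegral.integral_of_le zero_le_one, integral_Ioc_eq_integral_Ioo]
  ring

theorem real_id {a x : ℝ} (ha : 0 < a) (hx : 1 < x) :
    (∫ s in (0 : ℝ)..1, a * s ^ (a - 1) * (x ^ 2 - s ^ 2) ^ (-(1 / 2) : ℝ)) +
      (x - 1) ^ (1 / 2 : ℝ) * (2 * ∫ v in (0 : ℝ)..1, a * (1 + (1 - v ^ 2) * (x - 1)) ^ (a - 1) *
        (x + 1 + (1 - v ^ 2) * (x - 1)) ^ (-(1 / 2) : ℝ)) = kap a * a * x ^ (a - 1) / 2 := by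
  obtain ⟨h1, h2⟩ := scaled_int ha (by linarith : 0 < x)
  rw [← h2, ← outer_int hx, intervalIntegral.integral_of_le zero_le_one]
  have hun : Ioo (0 : ℝ) x = Ioc 0 1 ∪ Ioo 1 x := by
    rw [Ioc_union_Ioo_eq_Ioo zero_le_one hx]
  rw [hun, setIntegral_union]
  · rw [Set.disjoint_left]
    intro t ht ht'
    exact absurd ht.2 (not_le.2 ht'.1)
  · exact measurableSet_Ioo
  · exact h1.mono_set (by rw [hun]; exact subset_union_left)
  · exact h1.mono_set (by rw [hun]; exact subset_union_right)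

/-- The half disc type domain on which everything is holomorphic. -/
def dom : Set ℂ := {z | z - 1 ∈ Complex.slitPlane} ∩ Metric.ball 1 (1 / 2)

theorem dom_open : IsOpen dom := by
  apply IsOpen.inter _ Metric.isOpen_ball
  exact Complex.isOpen_slitPlane.preimage (by fun_prop)

theorem dom_preconn : IsPreconnected dom := by
  have h1 : StarConvex ℝ ((1 / 4 : ℝ) : ℂ) (Complex.slitPlane ∩ Metric.ball 0 (1 / 2)) := by
    apply StarConvex.inter
    · apply Complex.starConvex_slitPlane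
      rw [Complex.zero_lt_real]
      norm_num
    · apply (convex_ball (0 : ℂ) (1 / 2)).starConvex
      rw [mem_ball_zero_iff, Complex.norm_real]
      norm_num
  have h2 : IsPreconnected (Complex.slitPlane ∩ Metric.ball (0 : ℂ) (1 / 2)) := by
    have h0 : ((1 / 4 : ℝ) : ℂ) ∈ Complex.slitPlane ∩ Metric.ball (0 : ℂ) (1 / 2) := by
      constructor
      · rw [Complex.mem_slitPlane_iff]
        left
        rw [Complex.ofReal_re]
        norm_num
      · rw [mem_ball_zero_iff, Complex.norm_real]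
        norm_num
    have h3 := StarConvex.isPathConnected h1 h0
    exact h3.isConnected.isPreconnected
  have h3 : dom = (fun w : ℂ => w + 1) '' (Complex.slitPlane ∩ Metric.ball (0 : ℂ) (1 / 2)) := by
    ext z
    constructor
    · rintro ⟨h4, h5⟩
      refine ⟨z - 1, ⟨h4, ?_⟩, by simp⟩
      rw [mem_ball_zero_iff]
      rwa [Metric.mem_ball, dist_eq_norm] at h5
    · rintro ⟨w, ⟨h4, h5⟩, rfl⟩
      constructor
      · change w + 1 - 1 ∈ Complex.slitPlane
        rwa [add_sub_cancel_right]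
      · rw [mem_ball_zero_iff] at h5
        rw [Metric.mem_ball, dist_eq_norm]
        change ‖w + 1 - 1‖ < 1 / 2
        rwa [add_sub_cancel_right]
  rw [h3]
  exact h2.image _ (by fun_prop)

theorem re_of_ball {z : ℂ} (hz : z ∈ Metric.ball (1 : ℂ) (1 / 2)) : 1 / 2 < z.re := by
  rw [Metric.mem_ball, dist_eq_norm] at hz
  have h1 := Complex.abs_re_le_norm (z - 1)
  rw [Complex.sub_re, Complex.one_re] at h1
  have := abs_le.1 h1
  linarith [this.1]

theorem re_sub_of_ball {z : ℂ} (hz : z ∈ Metric.ball (1 : ℂ) (1 / 2)) :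
    -(1 / 2) < (z - 1).re := by
  have := re_of_ball hz
  rw [Complex.sub_re, Complex.one_re]
  linarith

/-- `z ^ 2 - s ^ 2` avoids the cut. -/
theorem sq_slit {z : ℂ} (hz : z ∈ dom) {s : ℝ} (hs : s ∈ Icc (0 : ℝ) 1) :
    z ^ 2 - (s : ℂ) ^ 2 ∈ Complex.slitPlane := by
  have h1 := re_of_ball hz.2
  have h2 : z - 1 ∈ Complex.slitPlane := hz.1
  rw [Complex.mem_slitPlane_iff] at h2 ⊢
  have e1 : (z ^ 2 - (s : ℂ) ^ 2).re = z.re ^ 2 - z.im ^ 2 - s ^ 2 := by
    simp [pow_two]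
  have e2 : (z ^ 2 - (s : ℂ) ^ 2).im = 2 * z.re * z.im := by
    simp [pow_two]; ring
  rw [e1, e2]
  by_cases h3 : z.im = 0
  · left
    rcases h2 with h2 | h2
    · rw [Complex.sub_re, Complex.one_re] at h2
      rw [h3]
      have := hs.1; have := hs.2
      nlinarith
    · rw [Complex.sub_im, Complex.one_im, sub_zero] at h2
      exact absurd h3 h2
  · right
    have : z.re ≠ 0 := by linarith
    positivity

/-- The integral over `[0, 1]`. -/
noncomputable def F1 (α : ℝ) (z : ℂ) : ℂ :=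
  ∫ s in (0 : ℝ)..1, ((α * s ^ (α - 1) : ℝ) : ℂ) * (z ^ 2 - (s : ℂ) ^ 2) ^ (-(1 / 2) : ℂ)

/-- The analytic factor. -/
noncomputable def hf (α : ℝ) (z : ℂ) : ℂ :=
  2 * ∫ v in (0 : ℝ)..1, (α : ℂ) * (1 + ((1 - v ^ 2 : ℝ) : ℂ) * (z - 1)) ^ ((α - 1 : ℝ) : ℂ) *
    (z + 1 + ((1 - v ^ 2 : ℝ) : ℂ) * (z - 1)) ^ (-(1 / 2) : ℂ)

theorem base1 {z : ℂ} (hz : z ∈ Metric.ball (1 : ℂ) (1 / 2)) {v : ℝ} (hv : v ∈ Icc (0 : ℝ) 1) :
    1 + ((1 - v ^ 2 : ℝ) : ℂ) * (z - 1) ∈ Complex.slitPlane := by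
  rw [Complex.mem_slitPlane_iff]
  left
  have h1 := re_sub_of_ball hz
  have h2 : 0 ≤ 1 - v ^ 2 := by nlinarith [hv.1, hv.2]
  have h3 : 1 - v ^ 2 ≤ 1 := by nlinarith [hv.1, hv.2]
  rw [Complex.add_re, Complex.one_re, Complex.re_ofReal_mul]
  nlinarith

theorem base2 {z : ℂ} (hz : z ∈ Metric.ball (1 : ℂ) (1 / 2)) {v : ℝ} (hv : v ∈ Icc (0 : ℝ) 1) :
    z + 1 + ((1 - v ^ 2 : ℝ) : ℂ) * (z - 1) ∈ Complex.slitPlane := by
  rw [Complex.mem_slitPlane_iff]
  left
  have h0 := re_of_ball hz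
  have h1 := re_sub_of_ball hz
  have h2 : 0 ≤ 1 - v ^ 2 := by nlinarith [hv.1, hv.2]
  have h3 : 1 - v ^ 2 ≤ 1 := by nlinarith [hv.1, hv.2]
  rw [Complex.add_re, Complex.add_re, Complex.one_re, Complex.re_ofReal_mul]
  nlinarith

theorem hf_diff (α : ℝ) : DifferentiableOn ℂ (hf α) (Metric.ball 1 (1 / 2)) := by
  apply DifferentiableOn.const_mul
  apply diff_param Metric.isOpen_ball
  · apply ContinuousOn.mul
    · apply ContinuousOn.mul continuousOn_const
      apply ContinuousOn.cpow (by fun_prop) continuousOn_const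
      rintro ⟨z, v⟩ ⟨hz, hv⟩
      exact base1 hz hv
    · apply ContinuousOn.cpow (by fun_prop) continuousOn_const
      rintro ⟨z, v⟩ ⟨hz, hv⟩
      exact base2 hz hv
  · intro v hv
    apply DifferentiableOn.mul
    · apply DifferentiableOn.const_mul
      apply DifferentiableOn.cpow_const (by fun_prop)
      intro z hz
      exact base1 hz hv
    · apply DifferentiableOn.cpow_const (by fun_prop)
      intro z hz
      exact base2 hz hv

theorem F1_diff {α : ℝ} (hα : 1 < α) : DifferentiableOn ℂ (F1 α) dom := by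
  apply diff_param dom_open
  · apply ContinuousOn.mul
    · apply Continuous.continuousOn
      apply Complex.continuous_ofReal.comp
      apply Continuous.mul continuous_const
      exact (Real.continuous_rpow_const (by linarith)).comp continuous_snd
    · apply ContinuousOn.cpow (by fun_prop) continuousOn_const
      rintro ⟨z, v⟩ ⟨hz, hv⟩
      exact sq_slit hz hv
  · intro v hv
    apply DifferentiableOn.const_mul
    apply DifferentiableOn.cpow_const (by fun_prop)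
    intro z hz
    exact sq_slit hz hv

theorem real_F1 {α x : ℝ} (hx : 1 < x) :
    F1 α (x : ℂ) = ((∫ s in (0 : ℝ)..1, α * s ^ (α - 1) * (x ^ 2 - s ^ 2) ^ (-(1 / 2) : ℝ) : ℝ) :
      ℂ) := by
  unfold F1
  rw [← intervalIntegral.integral_ofReal]
  apply intervalIntegral.integral_congr
  intro s hs
  rw [uIcc_of_le zero_le_one] at hs
  have h1 : 0 ≤ x ^ 2 - s ^ 2 := by nlinarith [hs.1, hs.2]
  simp only
  rw [Complex.ofReal_mul (α * s ^ (α - 1)), Complex.ofReal_cpow h1]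
  push_cast
  rfl

theorem real_hf {α x : ℝ} (hx : 1 < x) (hx2 : x < 3 / 2) :
    hf α (x : ℂ) = ((2 * ∫ v in (0 : ℝ)..1, α * (1 + (1 - v ^ 2) * (x - 1)) ^ (α - 1) *
        (x + 1 + (1 - v ^ 2) * (x - 1)) ^ (-(1 / 2) : ℝ) : ℝ) : ℂ) := by
  unfold hf
  rw [Complex.ofReal_mul, ← intervalIntegral.integral_ofReal, Complex.ofReal_ofNat]
  congr 1
  apply intervalIntegral.integral_congr
  intro v hv
  rw [uIcc_of_le zero_le_one] at hv
  have h2 : 0 ≤ 1 - v ^ 2 := by nlinarith [hv.1, hv.2]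
  have h3 : 0 ≤ (1 - v ^ 2) * (x - 1) := mul_nonneg h2 (by linarith)
  simp only
  rw [Complex.ofReal_mul, Complex.ofReal_mul, Complex.ofReal_cpow (by linarith),
    Complex.ofReal_cpow (by linarith)]
  push_cast
  rfl

/-- The analytic identity. -/
theorem main_id {α : ℝ} (hα : 1 < α) {z : ℂ} (hz : z ∈ dom) :
    F1 α z + (z - 1) ^ (1 / 2 : ℂ) * hf α z = kap α * α * z ^ ((α - 1 : ℝ) : ℂ) / 2 := by
  set Φ : ℂ → ℂ := fun z => F1 α z + (z - 1) ^ (1 / 2 : ℂ) * hf α z -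
    kap α * α * z ^ ((α - 1 : ℝ) : ℂ) / 2 with hΦ
  have hd : DifferentiableOn ℂ Φ dom := by
    apply DifferentiableOn.sub
    · apply DifferentiableOn.add (F1_diff hα)
      apply DifferentiableOn.mul
      · apply DifferentiableOn.cpow_const (by fun_prop)
        intro w hw
        exact hw.1
      · exact (hf_diff α).mono inter_subset_right
    · apply DifferentiableOn.div_const
      apply DifferentiableOn.const_mul
      apply DifferentiableOn.cpow_const (by fun_prop)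
      intro w hw
      rw [Complex.mem_slitPlane_iff]
      left
      have := re_of_ball hw.2
      linarith
  have ha : AnalyticOnNhd ℂ Φ dom := hd.analyticOnNhd dom_open
  have h0 : ((5 / 4 : ℝ) : ℂ) ∈ dom := by
    constructor
    · change ((5 / 4 : ℝ) : ℂ) - 1 ∈ Complex.slitPlane
      rw [Complex.mem_slitPlane_iff]
      left
      rw [Complex.sub_re, Complex.ofReal_re, Complex.one_re]
      norm_num
    · rw [Metric.mem_ball, dist_eq_norm, ← Complex.ofReal_one, ← Complex.ofReal_sub,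
        Complex.norm_real]
      norm_num
  have hreal : ∀ x : ℝ, 1 < x → x < 3 / 2 → Φ (x : ℂ) = 0 := by
    intro x hx hx2
    have h1 := real_id (a := α) (by linarith) hx
    simp only [hΦ]
    rw [real_F1 hx, real_hf hx hx2, sub_eq_zero]
    have h2 : ((x : ℂ) - 1) ^ (1 / 2 : ℂ) = (((x - 1) ^ (1 / 2 : ℝ) : ℝ) : ℂ) := by
      rw [Complex.ofReal_cpow (by linarith)]
      push_cast
      rfl
    have h3 : (x : ℂ) ^ ((α - 1 : ℝ) : ℂ) = ((x ^ (α - 1) : ℝ) : ℂ) := by
      rw [Complex.ofReal_cpow (by linarith)]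
    rw [h2, h3]
    exact_mod_cast h1
  have hfreq : ∃ᶠ w in 𝓝[≠] ((5 / 4 : ℝ) : ℂ), Φ w = 0 := by
    have ht : Tendsto (fun x : ℝ => (x : ℂ)) (𝓝[≠] (5 / 4 : ℝ)) (𝓝[≠] ((5 / 4 : ℝ) : ℂ)) := by
      rw [tendsto_nhdsWithin_iff]
      refine ⟨(Complex.continuous_ofReal.tendsto _).mono_left nhdsWithin_le_nhds, ?_⟩
      filter_upwards [self_mem_nhdsWithin] with x hx
      intro h
      exact hx (Complex.ofReal_injective h)
    apply ht.frequently
    apply Eventually.frequently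
    have : Ioo (1 : ℝ) (3 / 2) ∈ 𝓝 (5 / 4 : ℝ) := Ioo_mem_nhds (by norm_num) (by norm_num)
    filter_upwards [nhdsWithin_le_nhds this] with x hx
    exact hreal x hx.1 hx.2
  have := ha.eqOn_zero_of_preconnected_of_frequently_eq_zero dom_preconn h0 hfreq hz
  have h5 : Φ z = 0 := this
  simp only [hΦ] at h5
  exact sub_eq_zero.1 h5

theorem half_dom {z : ℂ} (hz : z ∈ Metric.ball (1 : ℂ) (1 / 2)) (hU : z ∈ UH) : z ∈ dom := by
  refine ⟨?_, hz⟩
  change z - 1 ∈ Complex.slitPlane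
  rw [Complex.mem_slitPlane_iff]
  right
  have h1 : 0 < z.im := hU
  rw [Complex.sub_im, Complex.one_im, sub_zero]
  exact h1.ne'

theorem neg_half {w : ℂ} (hw : 0 < w.im) :
    (-w) ^ (-(1 / 2) : ℂ) = Complex.I * w ^ (-(1 / 2) : ℂ) := by
  have h0 : w ≠ 0 := by
    rintro rfl
    simp at hw
  have hlog : Complex.log (-w) = Complex.log w - Real.pi * Complex.I := by
    unfold Complex.log
    rw [norm_neg, Complex.arg_neg_eq_arg_sub_pi_of_im_pos hw]
    push_cast
    ring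
  rw [Complex.cpow_def_of_ne_zero (neg_ne_zero.2 h0), Complex.cpow_def_of_ne_zero h0, hlog,
    show (Complex.log w - Real.pi * Complex.I) * (-(1 / 2) : ℂ) =
      (Real.pi / 2 : ℂ) * Complex.I + Complex.log w * (-(1 / 2)) by ring, Complex.exp_add]
  congr 1
  rw [Complex.exp_mul_I, Complex.cos_pi_div_two, Complex.sin_pi_div_two]
  ring

theorem dgfun_eq_F1 {α : ℝ} {z : ℂ} (hz : z ∈ Metric.ball (1 : ℂ) (1 / 2)) (hU : z ∈ UH) :
    dgfun α z = F1 α z := by
  unfold dgfun F1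
  rw [← intervalIntegral.integral_const_mul]
  apply intervalIntegral.integral_congr
  intro s _
  have h1 : 0 < (z ^ 2 - (s : ℂ) ^ 2).im := by
    have e2 : (z ^ 2 - (s : ℂ) ^ 2).im = 2 * z.re * z.im := by
      simp [pow_two]; ring
    rw [e2]
    have h2 := re_of_ball hz
    have h3 : 0 < z.im := hU
    have : 0 < z.re := by linarith
    positivity
  have h2 := neg_half h1
  rw [neg_sub] at h2
  simp only
  rw [h2]
  linear_combination (-((α * s ^ (α - 1) : ℝ) : ℂ) * (z ^ 2 - (s : ℂ) ^ 2) ^ (-(1 / 2) : ℂ)) *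
    Complex.I_sq

theorem xiR_hasDerivAt {α : ℝ} (hα : 1 < α) {z : ℂ} (hz : z ∈ Metric.ball (1 : ℂ) (1 / 2))
    (hU : z ∈ UH) : HasDerivAt (xiR α) (-((z - 1) ^ (1 / 2 : ℂ) * hf α z)) z := by
  have h1 := gfun_hasDerivAt α hα z hU
  have hsl : z ∈ Complex.slitPlane := by
    rw [Complex.mem_slitPlane_iff]
    left
    have := re_of_ball hz
    linarith
  have h2 : HasDerivAt (fun w : ℂ => w ^ (α : ℂ)) ((α : ℂ) * z ^ ((α : ℂ) - 1) * 1) z :=
    (hasDerivAt_id z).cpow_const hsl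
  have h3 : HasDerivAt (fun w : ℂ => gfun α w - kap α * w ^ (α : ℂ) / 2 - ell α / 2)
      (dgfun α z - kap α * ((α : ℂ) * z ^ ((α : ℂ) - 1) * 1) / 2) z :=
    (h1.sub ((h2.const_mul (kap α : ℂ)).div_const 2)).sub_const _
  have h4 : dgfun α z - kap α * ((α : ℂ) * z ^ ((α : ℂ) - 1) * 1) / 2 =
      -((z - 1) ^ (1 / 2 : ℂ) * hf α z) := by
    have h5 := main_id hα (half_dom hz hU)
    rw [dgfun_eq_F1 hz hU]
    push_cast at h5
    linear_combination h5
  rw [← h4]
  exact h3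

/-- The second analytic factor. -/
noncomputable def kf (α : ℝ) (z : ℂ) : ℂ :=
  ∫ t in (0 : ℝ)..1, ((√t : ℝ) : ℂ) * hf α (1 + (t : ℂ) * (z - 1))

theorem seg_ball {r : ℝ} {z : ℂ} (hz : z ∈ Metric.ball (1 : ℂ) r) {t : ℝ}
    (ht : t ∈ Icc (0 : ℝ) 1) : 1 + (t : ℂ) * (z - 1) ∈ Metric.ball (1 : ℂ) r := by
  rw [Metric.mem_ball, dist_eq_norm] at hz ⊢
  rw [add_sub_cancel_left, norm_mul, Complex.norm_real, Real.norm_of_nonneg ht.1]
  have := norm_nonneg (z - 1)
  nlinarith [ht.1, ht.2]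

theorem kf_diff (α : ℝ) : DifferentiableOn ℂ (kf α) (Metric.ball 1 (1 / 2)) := by
  apply diff_param Metric.isOpen_ball
  · apply ContinuousOn.mul
    · apply Continuous.continuousOn
      exact Complex.continuous_ofReal.comp (Real.continuous_sqrt.comp continuous_snd)
    · apply (hf_diff α).continuousOn.comp (by fun_prop)
      rintro ⟨z, t⟩ ⟨hz, ht⟩
      exact seg_ball hz ht
  · intro t ht
    apply DifferentiableOn.const_mul
    apply (hf_diff α).comp (by fun_prop)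
    intro z hz
    exact seg_ball hz ht

theorem scale_half {t : ℝ} (ht : 0 < t) {w : ℂ} (hw : w ≠ 0) :
    ((t : ℂ) * w) ^ (1 / 2 : ℂ) = ((√t : ℝ) : ℂ) * w ^ (1 / 2 : ℂ) := by
  have htc : (t : ℂ) ≠ 0 := by exact_mod_cast ht.ne'
  rw [Complex.cpow_def_of_ne_zero (mul_ne_zero htc hw), Complex.cpow_def_of_ne_zero hw,
    Complex.log_ofReal_mul ht hw, add_mul, Complex.exp_add]
  congr 1
  rw [Real.sqrt_eq_rpow, Complex.ofReal_cpow ht.le, Complex.cpow_def_of_ne_zero htc,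
    ← Complex.ofReal_log ht.le]
  push_cast
  rfl

theorem half_bound (α : ℝ) : ∃ L : ℝ, ∀ z ∈ UH ∩ Metric.ball (1 : ℂ) (1 / 4),
    ‖-((z - 1) ^ (1 / 2 : ℂ) * hf α z)‖ ≤ L := by
  obtain ⟨C, hC⟩ := (isCompact_closedBall (1 : ℂ) (1 / 4)).exists_bound_of_continuousOn
    ((hf_diff α).continuousOn.mono (Metric.closedBall_subset_ball (by norm_num)))
  refine ⟨C, ?_⟩
  rintro z ⟨_, hz⟩
  have h1 := hC z (Metric.ball_subset_closedBall hz)
  have h2 : ‖(z - 1) ^ (1 / 2 : ℂ)‖ ≤ 1 := by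
    have h3 := Complex.norm_cpow_real (z - 1) (1 / 2)
    have h4 : (((1 / 2 : ℝ)) : ℂ) = (1 / 2 : ℂ) := by push_cast; rfl
    rw [h4] at h3
    rw [h3]
    rw [Metric.mem_ball, dist_eq_norm] at hz
    exact Real.rpow_le_one (norm_nonneg _) (by linarith) (by norm_num)
  rw [norm_neg, norm_mul]
  have h5 : 0 ≤ C := (norm_nonneg _).trans h1
  calc ‖(z - 1) ^ (1 / 2 : ℂ)‖ * ‖hf α z‖ ≤ 1 * C := by gcongr
    _ = C := one_mul C

theorem UH_convex : Convex ℝ UH := by
  have : UH = Complex.imLm ⁻¹' (Ioi 0) := by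
    ext z; simp [UH]
  rw [this]
  exact (convex_Ioi (0 : ℝ)).linear_preimage Complex.imLm

/-- All radial limits at `1` vanish. -/
theorem limit_zero {α : ℝ} (hα : 1 < α)
    (hB : Tendsto (fun ε : ℝ => gfun α (1 + ε * Complex.I)) (𝓝[>] 0)
      (𝓝 (((kap α + ell α) / 2 : ℝ) : ℂ))) {z : ℂ} (hz : z ∈ Metric.ball (1 : ℂ) (1 / 2))
    (hU : z ∈ UH) :
    Tendsto (fun t : ℝ => xiR α (1 + (t : ℂ) * (z - 1))) (𝓝[>] 0) (𝓝 0) := by
  -- vertical limit
  have hv : Tendsto (fun t : ℝ => xiR α (1 + (t : ℂ) * Complex.I)) (𝓝[>] 0) (𝓝 0) := by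
    have h1 : Tendsto (fun t : ℝ => (1 : ℂ) + (t : ℂ) * Complex.I) (𝓝[>] 0) (𝓝 1) := by
      have : Continuous (fun t : ℝ => (1 : ℂ) + (t : ℂ) * Complex.I) := by fun_prop
      have h2 := this.tendsto 0
      simp only [Complex.ofReal_zero, zero_mul, add_zero] at h2
      exact h2.mono_left nhdsWithin_le_nhds
    have h2 : ContinuousAt (fun w : ℂ => w ^ (α : ℂ)) 1 := by
      apply ContinuousAt.cpow continuousAt_id continuousAt_const
      rw [id, Complex.mem_slitPlane_iff]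
      left
      norm_num
    have h3 : Tendsto (fun t : ℝ => ((1 : ℂ) + (t : ℂ) * Complex.I) ^ (α : ℂ)) (𝓝[>] 0)
        (𝓝 (1 ^ (α : ℂ))) := h2.tendsto.comp h1
    rw [Complex.one_cpow] at h3
    have h4 := (hB.sub ((h3.const_mul (kap α : ℂ)).div_const 2)).sub_const ((ell α : ℂ) / 2)
    have h5 : (((kap α + ell α) / 2 : ℝ) : ℂ) - (kap α : ℂ) * 1 / 2 - (ell α : ℂ) / 2 = 0 := by
      push_cast; ring
    rw [h5] at h4
    exact h4
  obtain ⟨L, hL⟩ := half_bound α
  -- both points are close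
  have hzn : ‖z - 1‖ < 1 / 2 := by rwa [Metric.mem_ball, dist_eq_norm] at hz
  have himz : 0 < z.im := hU
  have hclose : ∀ᶠ t : ℝ in 𝓝[>] 0, ‖xiR α (1 + (t : ℂ) * (z - 1)) -
      xiR α (1 + (t : ℂ) * Complex.I)‖ ≤ L * (t * 2) := by
    have h1 : Ioo (0 : ℝ) (1 / 4) ∈ 𝓝[>] (0 : ℝ) := Ioo_mem_nhdsGT (by norm_num)
    filter_upwards [h1] with t ht
    have hp : 1 + (t : ℂ) * (z - 1) ∈ UH ∩ Metric.ball (1 : ℂ) (1 / 4) := by
      constructor
      · change 0 < (1 + (t : ℂ) * (z - 1)).im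
        rw [Complex.add_im, Complex.one_im, Complex.im_ofReal_mul, Complex.sub_im, Complex.one_im]
        have := mul_pos ht.1 himz
        linarith
      · rw [Metric.mem_ball, dist_eq_norm, add_sub_cancel_left, norm_mul, Complex.norm_real,
          Real.norm_of_nonneg ht.1.le]
        nlinarith [ht.1, ht.2, norm_nonneg (z - 1)]
    have hq : 1 + (t : ℂ) * Complex.I ∈ UH ∩ Metric.ball (1 : ℂ) (1 / 4) := by
      constructor
      · change 0 < (1 + (t : ℂ) * Complex.I).im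
        simp
        exact ht.1
      · rw [Metric.mem_ball, dist_eq_norm, add_sub_cancel_left, norm_mul, Complex.norm_real,
          Real.norm_of_nonneg ht.1.le, Complex.norm_I, mul_one]
        exact ht.2
    have hconv : Convex ℝ (UH ∩ Metric.ball (1 : ℂ) (1 / 4)) :=
      UH_convex.inter (convex_ball _ _)
    have h2 := Convex.norm_image_sub_le_of_norm_hasDerivWithin_le (𝕜 := ℂ)
      (f := xiR α) (f' := fun w => -((w - 1) ^ (1 / 2 : ℂ) * hf α w)) (C := L)
      (fun w hw => (xiR_hasDerivAt hα (Metric.ball_subset_ball (by norm_num) hw.2)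
        hw.1).hasDerivWithinAt) hL hconv hq hp
    refine h2.trans ?_
    have h3 : 0 ≤ L := (norm_nonneg _).trans (hL _ hq)
    gcongr
    have h4 : 1 + (t : ℂ) * (z - 1) - (1 + (t : ℂ) * Complex.I) = (t : ℂ) * (z - 1 - Complex.I) := by
      ring
    rw [h4, norm_mul, Complex.norm_real, Real.norm_of_nonneg ht.1.le]
    have h5 : ‖z - 1 - Complex.I‖ ≤ 2 := by
      refine (norm_sub_le _ _).trans ?_
      rw [Complex.norm_I]
      linarith
    exact mul_le_mul_of_nonneg_left h5 ht.1.le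
  have hdiff : Tendsto (fun t : ℝ => xiR α (1 + (t : ℂ) * (z - 1)) -
      xiR α (1 + (t : ℂ) * Complex.I)) (𝓝[>] 0) (𝓝 0) := by
    apply squeeze_zero_norm' hclose
    have : Continuous (fun t : ℝ => L * (t * 2)) := by fun_prop
    have h2 := this.tendsto 0
    simp only [zero_mul, mul_zero] at h2
    exact h2.mono_left nhdsWithin_le_nhds
  have := hdiff.add hv
  simpa using this

theorem xiR_eq {α : ℝ} (hα : 1 < α)
    (hB : Tendsto (fun ε : ℝ => gfun α (1 + ε * Complex.I)) (𝓝[>] 0)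
      (𝓝 (((kap α + ell α) / 2 : ℝ) : ℂ))) {z : ℂ} (hz : z ∈ Metric.ball (1 : ℂ) (1 / 2))
    (hU : z ∈ UH) : xiR α z = -((z - 1) ^ (3 / 2 : ℂ) * kf α z) := by
  have himz : 0 < z.im := hU
  have hz1 : z - 1 ≠ 0 := by
    intro h
    have : (z - 1).im = 0 := by rw [h]; rfl
    rw [Complex.sub_im, Complex.one_im] at this
    linarith
  have hmem : ∀ t ∈ Ioc (0 : ℝ) 1, 1 + (t : ℂ) * (z - 1) ∈ UH ∩ Metric.ball (1 : ℂ) (1 / 2) := by
    intro t ht
    refine ⟨?_, seg_ball hz (Ioc_subset_Icc_self ht)⟩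
    change 0 < (1 + (t : ℂ) * (z - 1)).im
    rw [Complex.add_im, Complex.one_im, Complex.im_ofReal_mul, Complex.sub_im, Complex.one_im]
    have := mul_pos ht.1 himz
    linarith
  have hder : ∀ t ∈ Ioc (0 : ℝ) 1, HasDerivAt (fun t : ℝ => xiR α (1 + (t : ℂ) * (z - 1)))
      (-(z - 1) ^ (3 / 2 : ℂ) * (((√t : ℝ) : ℂ) * hf α (1 + (t : ℂ) * (z - 1)))) t := by
    intro t ht
    have h1 : HasDerivAt (fun t : ℝ => 1 + (t : ℂ) * (z - 1)) (1 * (z - 1)) t :=
      (((hasDerivAt_id t).ofReal_comp).mul_const (z - 1)).const_add 1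
    have h2 := (xiR_hasDerivAt hα (hmem t ht).2 (hmem t ht).1).scomp t h1
    have h3 : (1 * (z - 1)) • -((1 + (t : ℂ) * (z - 1) - 1) ^ (1 / 2 : ℂ) *
        hf α (1 + (t : ℂ) * (z - 1))) =
        -(z - 1) ^ (3 / 2 : ℂ) * (((√t : ℝ) : ℂ) * hf α (1 + (t : ℂ) * (z - 1))) := by
      rw [add_sub_cancel_left, scale_half ht.1 hz1, smul_eq_mul]
      have h4 : (z - 1) ^ (3 / 2 : ℂ) = (z - 1) * (z - 1) ^ (1 / 2 : ℂ) := by
        rw [show (3 / 2 : ℂ) = 1 + 1 / 2 by norm_num, Complex.cpow_add _ _ hz1, Complex.cpow_one]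
      rw [h4]
      ring
    rw [h3] at h2
    exact h2
  have hcont : ContinuousOn (fun t : ℝ => -(z - 1) ^ (3 / 2 : ℂ) *
      (((√t : ℝ) : ℂ) * hf α (1 + (t : ℂ) * (z - 1)))) (Icc 0 1) := by
    apply ContinuousOn.mul continuousOn_const
    apply ContinuousOn.mul
    · exact (Complex.continuous_ofReal.comp Real.continuous_sqrt).continuousOn
    · apply (hf_diff α).continuousOn.comp (by fun_prop)
      intro t ht
      exact seg_ball hz ht
  have hint : IntervalIntegrable (fun t : ℝ => -(z - 1) ^ (3 / 2 : ℂ) *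
      (((√t : ℝ) : ℂ) * hf α (1 + (t : ℂ) * (z - 1)))) volume 0 1 := by
    apply ContinuousOn.intervalIntegrable
    rwa [uIcc_of_le zero_le_one]
  have hone : Tendsto (fun t : ℝ => xiR α (1 + (t : ℂ) * (z - 1))) (𝓝[<] 1) (𝓝 (xiR α z)) := by
    have h1 := (hder 1 ⟨one_pos, le_rfl⟩).continuousAt.tendsto
    rw [Complex.ofReal_one, one_mul, add_sub_cancel] at h1
    exact h1.mono_left nhdsWithin_le_nhds
  have := intervalIntegral.integral_eq_sub_of_hasDerivAt_of_tendsto one_pos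
    (fun t ht => hder t ⟨ht.1, ht.2.le⟩) hint (limit_zero hα hB hz hU) hone
  rw [sub_zero, intervalIntegral.integral_const_mul] at this
  rw [← this, kf]
  ring

theorem conj_ball {r : ℝ} {z : ℂ} (hz : z ∈ Metric.ball (1 : ℂ) r) :
    conj z ∈ Metric.ball (1 : ℂ) r := by
  rw [Metric.mem_ball, dist_eq_norm] at hz ⊢
  have : conj z - 1 = conj (z - 1) := by simp
  rw [this, Complex.norm_conj]
  exact hz

theorem conj_pow {x : ℂ} (hx : x ∈ Complex.slitPlane) (r : ℝ) :
    conj (x ^ (r : ℂ)) = (conj x) ^ (r : ℂ) := by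
  rw [Complex.conj_cpow x r (Complex.slitPlane_arg_ne_pi hx), Complex.conj_ofReal]

theorem conj_pow_half {x : ℂ} (hx : x ∈ Complex.slitPlane) :
    conj (x ^ (-(1 / 2) : ℂ)) = (conj x) ^ (-(1 / 2) : ℂ) := by
  have := conj_pow hx (-(1 / 2))
  push_cast at this
  exact this

theorem conj_pow_third {x : ℂ} (hx : x ∈ Complex.slitPlane) :
    conj (x ^ (2 / 3 : ℂ)) = (conj x) ^ (2 / 3 : ℂ) := by
  have := conj_pow hx (2 / 3)
  push_cast at this
  exact this

theorem hf_conj (α : ℝ) {z : ℂ} (hz : z ∈ Metric.ball (1 : ℂ) (1 / 2)) :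
    hf α (conj z) = conj (hf α z) := by
  unfold hf
  rw [intervalIntegral.integral_of_le zero_le_one, intervalIntegral.integral_of_le zero_le_one,
    map_mul, ← integral_conj, Complex.conj_ofNat]
  congr 1
  apply setIntegral_congr_fun measurableSet_Ioc
  intro v hv
  have hv' := Ioc_subset_Icc_self hv
  simp only [map_mul, Complex.conj_ofReal]
  rw [conj_pow (base1 hz hv'), conj_pow_half (base2 hz hv')]
  simp only [map_add, map_mul, map_sub, map_one, Complex.conj_ofReal]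

theorem kf_conj (α : ℝ) {z : ℂ} (hz : z ∈ Metric.ball (1 : ℂ) (1 / 2)) :
    kf α (conj z) = conj (kf α z) := by
  unfold kf
  rw [intervalIntegral.integral_of_le zero_le_one, intervalIntegral.integral_of_le zero_le_one,
    ← integral_conj]
  apply setIntegral_congr_fun measurableSet_Ioc
  intro t ht
  simp only [map_mul, Complex.conj_ofReal]
  rw [← hf_conj α (seg_ball hz (Ioc_subset_Icc_self ht))]
  simp

theorem hf_one (α : ℝ) : hf α 1 = ((2 * (α * 2 ^ (-(1 / 2) : ℝ)) : ℝ) : ℂ) := by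
  unfold hf
  have : ∀ v : ℝ, (α : ℂ) * (1 + ((1 - v ^ 2 : ℝ) : ℂ) * (1 - 1)) ^ ((α - 1 : ℝ) : ℂ) *
      (1 + 1 + ((1 - v ^ 2 : ℝ) : ℂ) * (1 - 1)) ^ (-(1 / 2) : ℂ) =
      ((α * 2 ^ (-(1 / 2) : ℝ) : ℝ) : ℂ) := by
    intro v
    rw [sub_self, mul_zero, add_zero, add_zero, Complex.one_cpow, mul_one, Complex.ofReal_mul,
      Complex.ofReal_cpow (by norm_num)]
    congr 2
    · norm_num
    · push_cast; rfl
  simp only [this, intervalIntegral.integral_const]
  push_cast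
  simp

theorem kf_one {α : ℝ} (hα : 1 < α) : ∃ k1 : ℝ, 0 < k1 ∧ kf α 1 = (k1 : ℂ) := by
  have hpos : 0 < ∫ t in (0 : ℝ)..1, √t := by
    apply intervalIntegral.intervalIntegral_pos_of_pos_on
    · exact Real.continuous_sqrt.intervalIntegrable _ _
    · intro t ht
      exact Real.sqrt_pos.2 ht.1
    · exact one_pos
  refine ⟨(∫ t in (0 : ℝ)..1, √t) * (2 * (α * 2 ^ (-(1 / 2) : ℝ))), by positivity, ?_⟩
  unfold kf
  rw [Complex.ofReal_mul, ← intervalIntegral.integral_ofReal, ← hf_one,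
    ← intervalIntegral.integral_mul_const]
  simp

/-- The product of `w ^ (2/3)` with a point of the upper half plane. -/
theorem cpow_three_half {w v : ℂ} (hw : 0 < w.re) (hv : 0 < v.im)
    (h : 0 < (v * w ^ (2 / 3 : ℂ)).im) :
    (v * w ^ (2 / 3 : ℂ)) ^ (3 / 2 : ℂ) = v ^ (3 / 2 : ℂ) * w := by
  have hw0 : w ≠ 0 := by
    rintro rfl
    simp at hw
  have hv0 : v ≠ 0 := by
    rintro rfl
    simp at hv
  set m : ℂ := w ^ (2 / 3 : ℂ) with hm
  have harg : |w.arg| < Real.pi / 2 := Complex.abs_arg_lt_pi_div_two_iff.2 (Or.inl hw)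
  have harg' := abs_lt.1 harg
  have him : (Complex.log w * (2 / 3)).im = w.arg * (2 / 3) := by
    rw [show (2 / 3 : ℂ) = ((2 / 3 : ℝ) : ℂ) by push_cast; rfl, Complex.im_mul_ofReal,
      Complex.log_im]
  have hpi := Real.pi_pos
  have hlogm : Complex.log m = Complex.log w * (2 / 3) := by
    rw [hm, Complex.cpow_def_of_ne_zero hw0, Complex.log_exp]
    · rw [him]; nlinarith
    · rw [him]; nlinarith
  have hm0 : m ≠ 0 := by
    rw [hm, Complex.cpow_def_of_ne_zero hw0]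
    exact Complex.exp_ne_zero _
  have hmarg : m.arg = w.arg * (2 / 3) := by
    rw [← Complex.log_im, hlogm, him]
  have hvarg0 : 0 ≤ v.arg := Complex.arg_nonneg_iff.2 hv.le
  have hvargpi : v.arg ≤ Real.pi := Complex.arg_le_pi v
  -- the sum of the arguments
  have hsum : v.arg + m.arg ≤ Real.pi := by
    by_contra hcon
    push Not at hcon
    have h1 : (v * m) = ((‖v‖ * ‖m‖ : ℝ) : ℂ) * Complex.exp (((v.arg + m.arg : ℝ) : ℂ) *
        Complex.I) := by
      conv_lhs => rw [← Complex.norm_mul_exp_arg_mul_I v, ← Complex.norm_mul_exp_arg_mul_I m]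
      push_cast
      rw [add_mul, Complex.exp_add]
      ring
    rw [h1, Complex.im_ofReal_mul, Complex.exp_ofReal_mul_I_im] at h
    have h2 : Real.sin (v.arg + m.arg) < 0 := by
      have h3 : v.arg + m.arg - Real.pi < Real.pi := by
        rw [hmarg]
        nlinarith
      have h4 := Real.sin_pos_of_pos_of_lt_pi (by linarith : 0 < v.arg + m.arg - Real.pi) h3
      rw [Real.sin_sub_pi] at h4
      linarith
    have h3 : 0 < ‖v‖ * ‖m‖ := by positivity
    nlinarith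
  have hlog : Complex.log (v * m) = Complex.log v + Complex.log m := by
    apply (Complex.log_mul_eq_add_log_iff hv0 hm0).2
    constructor
    · rw [hmarg]
      nlinarith
    · exact hsum
  rw [Complex.cpow_def_of_ne_zero (mul_ne_zero hv0 hm0), Complex.cpow_def_of_ne_zero hv0, hlog,
    hlogm, add_mul, Complex.exp_add]
  congr 1
  rw [show Complex.log w * (2 / 3) * (3 / 2) = Complex.log w by ring, Complex.exp_log hw0]

/-- The local conformal map, from the boundary value of `gfun` at `1`. -/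
theorem exists_of_bdry {α : ℝ} (hα : 1 < α)
    (hB : Tendsto (fun ε : ℝ => gfun α (1 + ε * Complex.I)) (𝓝[>] 0)
      (𝓝 (((kap α + ell α) / 2 : ℝ) : ℂ))) : ∃ (δ m1 : ℝ) (m : ℂ → ℂ), LocMap α δ m1 m := by
  obtain ⟨k1, hk1, hk⟩ := kf_one hα
  set m : ℂ → ℂ := fun z => ((3 / 2 : ℂ) * kf α z) ^ (2 / 3 : ℂ) with hm
  set m1 : ℝ := (3 / 2 * k1) ^ (2 / 3 : ℝ) with hm1
  have hm1pos : 0 < m1 := by positivity
  have hm_one : m 1 = (m1 : ℂ) := by
    simp only [hm]
    rw [hk, hm1, Complex.ofReal_cpow (by positivity)]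
    push_cast
    rfl
  have hball : Metric.ball (1 : ℂ) (1 / 2) ∈ 𝓝 (1 : ℂ) := Metric.ball_mem_nhds _ (by norm_num)
  have hkcont : ContinuousAt (kf α) 1 := ((kf_diff α).differentiableAt hball).continuousAt
  -- the open set where everything is fine
  have hre : ∀ᶠ z in 𝓝 (1 : ℂ), 0 < ((3 / 2 : ℂ) * kf α z).re := by
    have h1 : ContinuousAt (fun z => ((3 / 2 : ℂ) * kf α z).re) 1 :=
      Complex.continuous_re.continuousAt.comp (continuousAt_const.mul hkcont)
    have h2 : 0 < ((3 / 2 : ℂ) * kf α 1).re := by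
      rw [hk, show (3 / 2 : ℂ) = ((3 / 2 : ℝ) : ℂ) by push_cast; rfl, ← Complex.ofReal_mul,
        Complex.ofReal_re]
      positivity
    exact h1.eventually (lt_mem_nhds h2)
  obtain ⟨r₀, hr₀, hr₀b⟩ := Metric.eventually_nhds_iff_ball.1 (hre.and hball)
  have hmdiff : DifferentiableOn ℂ m (Metric.ball 1 r₀) := by
    apply DifferentiableOn.cpow_const
    · apply DifferentiableOn.const_mul
      apply (kf_diff α).mono
      intro z hz
      exact (hr₀b z hz).2
    · intro z hz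
      rw [Complex.mem_slitPlane_iff]
      left
      exact (hr₀b z hz).1
  have h1mem : (1 : ℂ) ∈ Metric.ball (1 : ℂ) r₀ := Metric.mem_ball_self hr₀
  set φ : ℂ → ℂ := fun z => (z - 1) * m z with hφ
  have hφdiff : DifferentiableOn ℂ φ (Metric.ball 1 r₀) :=
    DifferentiableOn.mul (by fun_prop) hmdiff
  have hφan : AnalyticOnNhd ℂ φ (Metric.ball 1 r₀) := hφdiff.analyticOnNhd Metric.isOpen_ball
  have hdφ : ContinuousAt (deriv φ) 1 := (hφan 1 h1mem).deriv.continuousAt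
  have hdφ1 : deriv φ 1 = (m1 : ℂ) := by
    have h1 : HasDerivAt m (deriv m 1) 1 :=
      (hmdiff.differentiableAt (Metric.isOpen_ball.mem_nhds h1mem)).hasDerivAt
    have h2 : HasDerivAt (fun z : ℂ => z - 1) 1 1 := (hasDerivAt_id 1).sub_const 1
    have h3 : HasDerivAt φ (1 * m 1 + (1 - 1) * deriv m 1) 1 := h2.mul h1
    rw [h3.deriv, hm_one]
    ring
  have hder : ∀ᶠ z in 𝓝 (1 : ℂ), 0 < (deriv φ z).re := by
    have h1 : ContinuousAt (fun z => (deriv φ z).re) 1 :=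
      Complex.continuous_re.continuousAt.comp hdφ
    have h2 : 0 < (deriv φ 1).re := by
      rw [hdφ1, Complex.ofReal_re]
      exact hm1pos
    exact h1.eventually (lt_mem_nhds h2)
  have hclose : ∀ᶠ z in 𝓝 (1 : ℂ), ‖m z - m1‖ < m1 / 10 := by
    have h1 : ContinuousAt m 1 :=
      (hmdiff.differentiableAt (Metric.isOpen_ball.mem_nhds h1mem)).continuousAt
    have h2 := Metric.continuousAt_iff'.1 h1 (m1 / 10) (by positivity)
    filter_upwards [h2] with z hz
    rwa [dist_eq_norm, hm_one] at hz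
  obtain ⟨r₁, hr₁, hr₁b⟩ := Metric.eventually_nhds_iff_ball.1 (hder.and hclose)
  set δ : ℝ := min (min r₀ r₁) (1 / 3) with hδ
  have hδ0 : 0 < δ := by positivity
  have hδr₀ : Metric.ball (1 : ℂ) δ ⊆ Metric.ball 1 r₀ :=
    Metric.ball_subset_ball ((min_le_left _ _).trans (min_le_left _ _))
  have hδr₁ : Metric.ball (1 : ℂ) δ ⊆ Metric.ball 1 r₁ :=
    Metric.ball_subset_ball ((min_le_left _ _).trans (min_le_right _ _))
  have hδ3 : δ ≤ 1 / 3 := min_le_right _ _
  have hconj : ∀ z ∈ Metric.ball (1 : ℂ) δ, m (conj z) = conj (m z) := by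
    intro z hz
    have h1 := hr₀b z (hδr₀ hz)
    simp only [hm]
    rw [kf_conj α h1.2, conj_pow_third]
    · congr 1
      rw [map_mul]
      congr 1
      rw [map_div₀, Complex.conj_ofNat, Complex.conj_ofNat]
    · rw [Complex.mem_slitPlane_iff]
      left
      exact h1.1
  have hupper : ∀ z ∈ Metric.ball (1 : ℂ) δ, z ∈ UH → (z - 1) * m z ∈ UH := by
    intro z hz hU
    have hy : 0 < z.im := hU
    set x := z.re with hx
    set y := z.im with hyy
    have hpt : ∀ t ∈ Icc (0 : ℝ) y, ((x : ℂ) + (t : ℂ) * Complex.I) ∈ Metric.ball (1 : ℂ) δ := by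
      intro t ht
      rw [Metric.mem_ball, dist_eq_norm] at hz ⊢
      refine lt_of_le_of_lt ?_ hz
      have e1 : ‖(x : ℂ) + (t : ℂ) * Complex.I - 1‖ ^ 2 = (x - 1) ^ 2 + t ^ 2 := by
        rw [Complex.sq_norm, Complex.normSq_apply]
        simp
        ring
      have e2 : ‖z - 1‖ ^ 2 = (x - 1) ^ 2 + y ^ 2 := by
        rw [Complex.sq_norm, Complex.normSq_apply]
        simp
        ring
      apply le_of_sq_le_sq _ (norm_nonneg _)
      rw [e1, e2]
      nlinarith [ht.1, ht.2]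
    have hψ : ∀ t ∈ Icc (0 : ℝ) y, HasDerivAt
        (fun t : ℝ => (φ ((x : ℂ) + (t : ℂ) * Complex.I)).im)
        (deriv φ ((x : ℂ) + (t : ℂ) * Complex.I)).re t := by
      intro t ht
      have h1 : HasDerivAt φ (deriv φ ((x : ℂ) + (t : ℂ) * Complex.I))
          ((x : ℂ) + (t : ℂ) * Complex.I) :=
        (hφdiff.differentiableAt (Metric.isOpen_ball.mem_nhds (hδr₀ (hpt t ht)))).hasDerivAt
      have h2 : HasDerivAt (fun t : ℝ => (x : ℂ) + (t : ℂ) * Complex.I) (1 * Complex.I) t :=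
        (((hasDerivAt_id t).ofReal_comp).mul_const Complex.I).const_add (x : ℂ)
      have h3 := h1.scomp t h2
      have h4 := (Complex.imCLM.hasFDerivAt.comp_hasDerivAt t h3)
      have h5 : Complex.imCLM ((1 * Complex.I) • deriv φ ((x : ℂ) + (t : ℂ) * Complex.I)) =
          (deriv φ ((x : ℂ) + (t : ℂ) * Complex.I)).re := by
        rw [Complex.imCLM_apply, smul_eq_mul, one_mul, Complex.I_mul_im]
      rw [h5] at h4
      exact h4
    obtain ⟨c, hc, hceq⟩ := exists_hasDerivAt_eq_slope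
      (fun t : ℝ => (φ ((x : ℂ) + (t : ℂ) * Complex.I)).im)
      (fun t : ℝ => (deriv φ ((x : ℂ) + (t : ℂ) * Complex.I)).re) hy
      (fun t ht => (hψ t ht).continuousAt.continuousWithinAt)
      (fun t ht => hψ t (Ioo_subset_Icc_self ht))
    have hcpos := (hr₁b _ (hδr₁ (hpt c (Ioo_subset_Icc_self hc)))).1
    have hzero : (φ ((x : ℂ) + ((0 : ℝ) : ℂ) * Complex.I)).im = 0 := by
      have h1 := hpt 0 ⟨le_rfl, hy.le⟩
      have h2 := hconj _ h1
      have h3 : (x : ℂ) + ((0 : ℝ) : ℂ) * Complex.I = (x : ℂ) := by simp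
      rw [h3] at h2 ⊢
      rw [Complex.conj_ofReal] at h2
      have h4 : (m x).im = 0 := Complex.conj_eq_iff_im.1 h2.symm
      simp only [hφ]
      rw [Complex.mul_im, h4, Complex.sub_im, Complex.ofReal_im, Complex.one_im]
      ring
    have hzz : (x : ℂ) + (y : ℂ) * Complex.I = z := Complex.re_add_im z
    rw [hzero, hzz, sub_zero, sub_zero] at hceq
    rw [hceq] at hcpos
    have h6 : 0 < (φ z).im := by
      by_contra hcon
      push Not at hcon
      exact absurd hcpos (not_lt.2 (div_nonpos_of_nonpos_of_nonneg hcon hy.le))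
    exact h6
  refine ⟨δ, m1, m, hδ0, by linarith, hm1pos, hmdiff.mono hδr₀, hconj, ?_, hupper, ?_⟩
  · intro z hz
    exact (hr₁b z (hδr₁ hz)).2.le
  · intro z hz hU
    have h1 := hr₀b z (hδr₀ hz)
    have h2 := xiR_eq hα hB h1.2 hU
    have himz : 0 < z.im := hU
    have h3 : 0 < (z - 1).im := by
      rw [Complex.sub_im, Complex.one_im, sub_zero]
      exact himz
    have h4 := cpow_three_half h1.1 h3 (hupper z hz hU)
    have h5 : (z - 1) * m z = (z - 1) * ((3 / 2 : ℂ) * kf α z) ^ (2 / 3 : ℂ) := rfl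
    rw [h5, h4, h2]
    ring

end LM

/-- (FR-F) existence of the local conformal map -/
theorem exists_locMap (α : ℝ) (hα : 1 < α) : ∃ (δ m1 : ℝ) (m : ℂ → ℂ), LocMap α δ m1 m := by
  obtain ⟨b, hb, hre, him, _⟩ := gfun_bdry α hα 1
  apply LM.exists_of_bdry hα
  have hb2 : b = (((kap α + ell α) / 2 : ℝ) : ℂ) := by
    apply Complex.ext
    · rw [hre (by norm_num), abs_one, Real.one_rpow, mul_one, Complex.ofReal_re]
    · rw [him le_rfl, Complex.ofReal_im]
  rw [← hb2]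
  simpa using hb

end Pool.Agent.Freud
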