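import Pool.Agent.Freud.XratE
import Pool.Agent.Freud.Airy1
import Pool.Agent.Freud.AiryAsymp

/-!
Job FR-X2: expansion of the ratio of the parametrices on the annulus.
-/

set_option autoImplicit false

open MeasureTheory Filter Topology Asymptotics

namespace Pool.Agent.Freud

theorem Xrat_expansion (α δ m1 : ℝ) (hα : 1 < α) (m : ℂ → ℂ) (hL : LocMap α δ m1 m) :
    ∃ y1 : ℝ, 0 < y1 ∧ ∃ x : ℕ → ℂ → Mat2,
      (∀ k, ContinuousOn (x k) (ann δ)) ∧ (∀ k, ∃ C : ℝ, ∀ z ∈ ann δ, nm (x k z) ≤ C) ∧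
      ∀ y0 c : ℝ, y0 ≤ y1 → Geo α δ y0 c →
        ∀ K : ℕ, ∃ C : ℝ, ∀ n : ℕ, 1 ≤ n → ∀ z ∈ ann δ,
          nm (Xrat α n y0 m z - 1 - ∑ k ∈ Finset.range K, (((n : ℂ) ^ (k + 1))⁻¹) • x k z)
            ≤ C / n ^ (K + 1) := by
  have hconn : Xr.Conn := ⟨Airy_connect, Airy'_connect⟩
  have hcA : Continuous Airy :=
    continuous_iff_continuousAt.2 fun ζ => (Airy_hasDerivAt ζ).continuousAt
  have hcB : Continuous Airy' :=
    continuous_iff_continuousAt.2 fun ζ => (Airy'_hasDerivAt ζ).continuousAt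
  obtain ⟨x, hx1, hx2, hx3⟩ := Xr.expansion hconn (Xr.asy_of hcA hcB Airy_asymp) hL
  refine ⟨1, one_pos, x, hx1, hx2, ?_⟩
  intro y0 c _ hG
  exact hx3 y0 hG.y0_pos hG.y0_le

end Pool.Agent.Freud
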