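import Pool.Agent.Freud.Assembly
import Pool.Agent.Freud.LocMap
import Pool.Agent.Freud.Geo
import Pool.Agent.Freud.Xrat

/-!
Existence of the data `Asm` for every real `α > 1`.
-/

set_option autoImplicit false

open MeasureTheory Filter Topology Asymptotics

namespace Pool.Agent.Freud

theorem freud_asm (α : ℝ) (hα : 1 < α) : ∃ (δ y0 c r c' C : ℝ) (n0 : ℕ) (A : Set ℂ)
    (w We Wx : ℕ → ℂ → Mat2), 0 < δ ∧ δ < 1 / 2 ∧ Geo α δ y0 c ∧
      Asm α y0 r c' C n0 A w We Wx := by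
  obtain ⟨δ, m1, m, hL⟩ := exists_locMap α hα
  obtain ⟨y1, hy1, x, hx, hx', hX⟩ := Xrat_expansion α δ m1 hα m hL
  obtain ⟨y2, hy2, hgeo⟩ := exists_geo α δ hα hL.δ_pos hL.δ_lt
  obtain ⟨c, hG⟩ := hgeo (min y1 y2) (lt_min hy1 hy2) (min_le_right _ _)
  obtain ⟨r, c', C, n0, A, w, We, Wx, hA⟩ :=
    assembly α δ (min y1 y2) c hα hL.δ_pos hL.δ_lt m1 m hL hG x hx hx'
      (hX (min y1 y2) c (min_le_left _ _) hG)
  exact ⟨δ, min y1 y2, c, r, c', C, n0, A, w, We, Wx, hL.δ_pos, hL.δ_lt, hG, hA⟩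

end Pool.Agent.Freud
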