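import Pool.Agent.Freud.PertExp

/-!
Perturbation theory: the leading order theorem `perturb_a`.
-/

set_option autoImplicit false

open MeasureTheory Filter Topology Asymptotics Set

namespace Pool.Agent.Freud

namespace Pert

section

variable {α y0 r c C : ℝ} {n0 : ℕ} {A : Set ℂ} {w We Wx : ℕ → ℂ → Mat2}

lemma W0_adm (hα : 1 < α) (hA : Asm α y0 r c C n0 A w We Wx) (n : ℕ) (hn : 1 ≤ n) :
    Adm (W0 α n y0) := by
  obtain ⟨C0, _, h0⟩ := W0_prod hα hA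
  have h := (h0 n hn (fun _ => 1) (fun i j => aestronglyMeasurable_const) 2 (by norm_num)
    (fun s _ => nm_one.le)).1
  exact h.congr fun s _ => (one_mul _).symm

/-- Replacing the solution by one in the integral of `R * W0`. -/
lemma IU_W0_sub (hα : 1 < α) (hA : Asm α y0 r c C n0 A w We Wx) (R : ℕ → ℂ → Mat2)
    (hRc : ∀ n, n0 ≤ n → ContinuousOn (R n) UH)
    (hRb : ∀ n, n0 ≤ n → ∃ B : ℝ, ∀ z ∈ UH, nm (R n z) ≤ B)
    (hR : ∀ n, n0 ≤ n → ∀ z ∈ UH,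
      R n z = 1 + KK (fun s => R n s * (We n s + W0 α n y0 s + Wx n s)) z) :
    ∃ (n1 : ℕ) (B : ℝ), n0 ≤ n1 ∧ 0 ≤ B ∧ ∀ n, n1 ≤ n →
      nm (IU (fun s => R n s * W0 α n y0 s) - IU (W0 α n y0)) ≤
        B * ((n : ℝ)⁻¹ + (n : ℝ) ^ (1 - α)) * (n : ℝ) ^ (-α) := by
  obtain ⟨n1, B, hn1, hB, hb⟩ := base_sub_one hα hA R hRc hRb hR
  obtain ⟨C0, hC0, h0⟩ := W0_prod hα hA
  refine ⟨n1, C0 * B, hn1, by positivity, fun n hn => ?_⟩
  have hn0 : n0 ≤ n := hn1.trans hn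
  have h1n : 1 ≤ n := hA.n0_pos.trans hn0
  have hm := aemeas_of_cont (hRc n hn0)
  obtain ⟨-, a2, -, -, -⟩ := R_split hα hA R hRc hRb hR n hn0
  have hp : 0 ≤ (n : ℝ)⁻¹ + (n : ℝ) ^ (1 - α) := by positivity
  have h := (h0 n h1n (fun s => R n s - 1) (aemeas_sub hm fun i j => aestronglyMeasurable_const)
    (B * ((n : ℝ)⁻¹ + (n : ℝ) ^ (1 - α))) (by positivity) (hb n hn)).2.2.2
  have e : IU (fun s => (R n s - 1) * W0 α n y0 s) =
      IU (fun s => R n s * W0 α n y0 s) - IU (W0 α n y0) := by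
    rw [← IU_sub a2 (W0_adm hα hA n h1n)]
    congr 1
    funext s
    rw [sub_mul, one_mul]
  rw [← e]
  exact h.trans (le_of_eq (by ring))

/-- The far part is negligible. -/
lemma IU_Wx_small (hα : 1 < α) (hA : Asm α y0 r c C n0 A w We Wx) (R : ℕ → ℂ → Mat2)
    (hRc : ∀ n, n0 ≤ n → ContinuousOn (R n) UH)
    (hRb : ∀ n, n0 ≤ n → ∃ B : ℝ, ∀ z ∈ UH, nm (R n z) ≤ B)
    (hR : ∀ n, n0 ≤ n → ∀ z ∈ UH,
      R n z = 1 + KK (fun s => R n s * (We n s + W0 α n y0 s + Wx n s)) z) (q : ℝ)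
    (hq : 0 < q) :
    ∃ (n1 : ℕ) (B : ℝ), n0 ≤ n1 ∧ 0 ≤ B ∧ ∀ n, n1 ≤ n →
      nm (IU (fun s => R n s * Wx n s)) ≤ B * (n : ℝ) ^ (-q) := by
  obtain ⟨n1, hn1, hb⟩ := base_bound hα hA R hRc hRb hR
  obtain ⟨Cx, hCx, hx⟩ := Wx_prod hA
  obtain ⟨D, hD, hexp⟩ := exp_le_rpow c q hA.c_pos hq
  refine ⟨n1, Cx * 4 * D, hn1, by positivity, fun n hn => ?_⟩
  have hn0 : n0 ≤ n := hn1.trans hn
  have h1n : 1 ≤ n := hA.n0_pos.trans hn0
  have hm := aemeas_of_cont (hRc n hn0)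
  have b3 := (hx n hn0 (R n) hm 4 (by norm_num) (hb n hn)).2.2
  have b5 : Cx * 4 * Real.exp (-(c * n)) ≤ Cx * 4 * (D * (n : ℝ) ^ (-q)) :=
    mul_le_mul_of_nonneg_left (hexp n h1n) (by positivity)
  exact b3.trans (b5.trans (le_of_eq (by ring)))

end

end Pert

open Pert

theorem perturb_a (α y0 r c C : ℝ) (hα : 1 < α) (n0 : ℕ) (A : Set ℂ) (w : ℕ → ℂ → Mat2)
    (We Wx : ℕ → ℂ → Mat2) (hA : Asm α y0 r c C n0 A w We Wx) (R : ℕ → ℂ → Mat2)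
    (hRc : ∀ n, n0 ≤ n → ContinuousOn (R n) UH)
    (hRb : ∀ n, n0 ≤ n → ∃ B : ℝ, ∀ z ∈ UH, nm (R n z) ≤ B)
    (hR : ∀ n, n0 ≤ n → ∀ z ∈ UH,
      R n z = 1 + KK (fun s => R n s * (We n s + W0 α n y0 s + Wx n s)) z) :
    ∃ D : ℕ → Mat2, ∀ K : ℕ, α + 1 ≤ K → ∃ θ B : ℝ, 0 < θ ∧ ∃ n1 : ℕ, ∀ n, n1 ≤ n →
      nm ((2 / Real.pi : ℂ) • reM (IU (fun s => R n s * (We n s + W0 α n y0 s + Wx n s)))
        - ∑ k ∈ Finset.range K, (((n : ℂ) ^ (k + 1))⁻¹) • D k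
        - (2 / Real.pi : ℂ) • reM (IU (W0 α n y0))) ≤ B * (n : ℝ) ^ (-α - θ) := by
  refine ⟨fun k => (2 / Real.pi : ℂ) • reM (IU (Fw w k)), ?_⟩
  intro K hK
  obtain ⟨m1, hm1, hexp⟩ := base_exp hα hA R hRc hRb hR
  obtain ⟨B1, hB1, h1⟩ := hexp K
  obtain ⟨m2, B2, hm2, hB2, h2⟩ := IU_W0_sub hα hA R hRc hRb hR
  obtain ⟨m3, B3, hm3, hB3, h3⟩ := IU_Wx_small hα hA R hRc hRb hR (α + 1) (by linarith)
  set θ : ℝ := min 1 (α - 1) with hθ
  have hθ0 : 0 < θ := lt_min one_pos (by linarith)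
  have hθ1 : θ ≤ 1 := min_le_left _ _
  have hθ2 : θ ≤ α - 1 := min_le_right _ _
  refine ⟨θ, 2 * B1 + 2 * B2 + B3, hθ0, max m1 (max m2 m3), ?_⟩
  intro n hn
  have hn1 : m1 ≤ n := (le_max_left _ _).trans hn
  have hn2 : m2 ≤ n := ((le_max_left _ _).trans (le_max_right _ _)).trans hn
  have hn3 : m3 ≤ n := ((le_max_right _ _).trans (le_max_right _ _)).trans hn
  have hn0 : n0 ≤ n := hm1.trans hn1
  have h1n : 1 ≤ n := hA.n0_pos.trans hn0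
  have hn' : (1 : ℝ) ≤ n := by exact_mod_cast h1n
  have hnp : (0 : ℝ) < n := by linarith
  obtain ⟨a1, a2, a3, -, hIU⟩ := R_split hα hA R hRc hRb hR n hn0
  set P : ℝ := (n : ℝ) ^ (-α - θ) with hP
  have hP0 : 0 ≤ P := by positivity
  -- powers
  have p1 : (n : ℝ) ^ (-(α + 1)) ≤ P :=
    Real.rpow_le_rpow_of_exponent_le hn' (by linarith)
  have p2 : 1 / (n : ℝ) ^ (K + 1) ≤ P := by
    have : 1 / (n : ℝ) ^ (K + 1) = (n : ℝ) ^ (-((K : ℝ) + 1)) := by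
      rw [Real.rpow_neg hnp.le, one_div]
      congr 1
      rw [← Real.rpow_natCast]
      push_cast
      rfl
    rw [this]
    exact Real.rpow_le_rpow_of_exponent_le hn' (by linarith)
  have p3 : eps α K n / n ≤ 2 * P := by
    unfold eps
    rw [add_div, div_div, ← pow_succ]
    have : (n : ℝ) ^ (-α) / n = (n : ℝ) ^ (-(α + 1)) := by
      rw [show -(α + 1) = -α - 1 by ring, Real.rpow_sub_one hnp.ne']
    rw [this]
    linarith
  have p4 : ((n : ℝ)⁻¹ + (n : ℝ) ^ (1 - α)) * (n : ℝ) ^ (-α) ≤ 2 * P := by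
    have e1 : (n : ℝ)⁻¹ * (n : ℝ) ^ (-α) = (n : ℝ) ^ (-(α + 1)) := by
      rw [← Real.rpow_neg_one, ← Real.rpow_add hnp]
      congr 1
      ring
    have e2 : (n : ℝ) ^ (1 - α) * (n : ℝ) ^ (-α) = (n : ℝ) ^ (1 - 2 * α) := by
      rw [← Real.rpow_add hnp]
      congr 1
      ring
    have e3 : (n : ℝ) ^ (1 - 2 * α) ≤ P :=
      Real.rpow_le_rpow_of_exponent_le hn' (by linarith)
    rw [add_mul, e1, e2]
    linarith
  -- the decomposition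
  have hdec : (2 / Real.pi : ℂ) • reM (IU (fun s => R n s * (We n s + W0 α n y0 s + Wx n s)))
        - ∑ k ∈ Finset.range K, (((n : ℂ) ^ (k + 1))⁻¹) • ((2 / Real.pi : ℂ) • reM (IU (Fw w k)))
        - (2 / Real.pi : ℂ) • reM (IU (W0 α n y0)) =
      (2 / Real.pi : ℂ) • (reM (IU (fun s => R n s * We n s) -
          ∑ l ∈ Finset.range K, (((n : ℂ) ^ (l + 1))⁻¹) • IU (Fw w l)) +
        reM (IU (fun s => R n s * W0 α n y0 s) - IU (W0 α n y0)) +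
        reM (IU (fun s => R n s * Wx n s))) := by
    rw [hIU, reM_add, reM_add, reM_sub, reM_sub, reM_sum]
    have : ∑ l ∈ Finset.range K, reM ((((n : ℂ) ^ (l + 1))⁻¹) • IU (Fw w l)) =
        ∑ l ∈ Finset.range K, (((n : ℂ) ^ (l + 1))⁻¹) • reM (IU (Fw w l)) := by
      refine Finset.sum_congr rfl fun l _ => ?_
      rw [inv_pow_cast, reM_smul_real]
    rw [this]
    have h2 : ∑ k ∈ Finset.range K, (((n : ℂ) ^ (k + 1))⁻¹) •
        ((2 / Real.pi : ℂ) • reM (IU (Fw w k))) =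
        (2 / Real.pi : ℂ) • ∑ l ∈ Finset.range K, (((n : ℂ) ^ (l + 1))⁻¹) • reM (IU (Fw w l)) := by
      rw [Finset.smul_sum]
      refine Finset.sum_congr rfl fun l _ => ?_
      rw [smul_comm]
    rw [h2]
    simp only [smul_add, smul_sub]
    abel
  rw [hdec, nm_smul]
  have hc1 : ‖(2 / Real.pi : ℂ)‖ ≤ 1 := by
    rw [norm_div, Complex.norm_real, Real.norm_of_nonneg Real.pi_pos.le]
    rw [div_le_one Real.pi_pos]
    simp only [Complex.norm_ofNat]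
    linarith [Real.pi_gt_three]
  have q1 := (nm_reM _).trans (h1 n hn1).2.2.2
  have q2 := (nm_reM _).trans (h2 n hn2)
  have q3 := (nm_reM _).trans (h3 n hn3)
  have q4 := nm_add (reM (IU (fun s => R n s * We n s) -
          ∑ l ∈ Finset.range K, (((n : ℂ) ^ (l + 1))⁻¹) • IU (Fw w l)) +
        reM (IU (fun s => R n s * W0 α n y0 s) - IU (W0 α n y0)))
        (reM (IU (fun s => R n s * Wx n s)))
  have q5 := nm_add (reM (IU (fun s => R n s * We n s) -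
          ∑ l ∈ Finset.range K, (((n : ℂ) ^ (l + 1))⁻¹) • IU (Fw w l)))
        (reM (IU (fun s => R n s * W0 α n y0 s) - IU (W0 α n y0)))
  have r1 : B1 * (eps α K n / n) ≤ B1 * (2 * P) := mul_le_mul_of_nonneg_left p3 hB1
  have r2 : B2 * ((n : ℝ)⁻¹ + (n : ℝ) ^ (1 - α)) * (n : ℝ) ^ (-α) ≤ B2 * (2 * P) := by
    rw [mul_assoc]
    exact mul_le_mul_of_nonneg_left p4 hB2
  have r3 : B3 * (n : ℝ) ^ (-(α + 1)) ≤ B3 * P := mul_le_mul_of_nonneg_left p1 hB3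
  have tot : nm (reM (IU (fun s => R n s * We n s) -
          ∑ l ∈ Finset.range K, (((n : ℂ) ^ (l + 1))⁻¹) • IU (Fw w l)) +
        reM (IU (fun s => R n s * W0 α n y0 s) - IU (W0 α n y0)) +
        reM (IU (fun s => R n s * Wx n s))) ≤ (2 * B1 + 2 * B2 + B3) * P := by
    linarith
  calc _ ≤ 1 * ((2 * B1 + 2 * B2 + B3) * P) :=
        mul_le_mul hc1 tot (nm_nonneg _) zero_le_one
    _ = _ := one_mul _

end Pool.Agent.Freud
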