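import Pool.Agent.Freud.Defs2

/-!
Behaviour of the g-function at the origin.
-/

set_option autoImplicit false

open MeasureTheory Filter Topology Asymptotics Set

namespace Pool.Agent.Freud

/-! ### The square root -/

theorem nz_sq (w : ℂ) : (w ^ (1 / 2 : ℂ)) ^ 2 = w := by
  have h := Complex.cpow_nat_inv_pow w (n := 2) two_ne_zero
  have e : ((1 : ℂ) / 2) = ((2 : ℕ) : ℂ)⁻¹ := by norm_num
  rw [e]; exact h

theorem nz_re_pos {w : ℂ} (hw : w ∈ Complex.slitPlane) : 0 < (w ^ (1 / 2 : ℂ)).re := by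
  have h0 : w ≠ 0 := Complex.slitPlane_ne_zero hw
  rw [Complex.cpow_def_of_ne_zero h0, Complex.exp_re]
  apply mul_pos (Real.exp_pos _)
  apply Real.cos_pos_of_mem_Ioo
  have e : (Complex.log w * (1 / 2)).im = w.arg / 2 := by
    rw [Complex.mul_im]
    simp [Complex.log_im]
    ring
  rw [e]
  have h1 := Complex.arg_le_pi w
  have h2 := Complex.neg_pi_lt_arg w
  have h3 : w.arg ≠ Real.pi := (Complex.mem_slitPlane_iff_arg.1 hw).1
  have h4 : w.arg < Real.pi := lt_of_le_of_ne h1 h3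
  constructor <;> linarith

theorem nz_slit {q : ℂ} (hq : q ∈ UH) : 1 - q ^ 2 ∈ Complex.slitPlane := by
  have hy : 0 < q.im := hq
  rw [Complex.mem_slitPlane_iff]
  by_cases hx : q.re = 0
  · left
    simp only [Complex.sub_re, Complex.one_re, sq, Complex.mul_re, hx]
    nlinarith
  · right
    simp only [Complex.sub_im, Complex.one_im, sq, Complex.mul_im]
    intro h
    have : q.re * q.im = 0 := by linarith
    rcases mul_eq_zero.1 this with h | h
    · exact hx h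
    · exact hy.ne' h

theorem nz_re_sq {q : ℂ} (hq : ‖q‖ ≤ 1 / 2) : 3 / 4 ≤ (1 - q ^ 2).re := by
  have h1 : (q ^ 2).re ≤ ‖q ^ 2‖ := Complex.re_le_norm _
  rw [norm_pow] at h1
  have h2 : ‖q‖ ^ 2 ≤ 1 / 4 := by nlinarith [norm_nonneg q]
  simp only [Complex.sub_re, Complex.one_re]
  linarith

theorem nz_slit' {q : ℂ} (hq : ‖q‖ ≤ 1 / 2) : 1 - q ^ 2 ∈ Complex.slitPlane := by
  rw [Complex.mem_slitPlane_iff]
  left
  have := nz_re_sq hq
  linarith

/-- abbreviation for the root -/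
noncomputable def nzv (q : ℂ) : ℂ := (1 - q ^ 2) ^ (1 / 2 : ℂ)

theorem nzv_sq (q : ℂ) : nzv q ^ 2 = 1 - q ^ 2 := nz_sq _

theorem nzv_norm_sq (q : ℂ) : ‖nzv q‖ ^ 2 = ‖1 - q ^ 2‖ := by
  rw [← norm_pow, nzv_sq]

theorem nzv_norm_le (q : ℂ) : ‖nzv q‖ ≤ 1 + ‖q‖ := by
  have h1 : ‖1 - q ^ 2‖ ≤ 1 + ‖q‖ ^ 2 := by
    calc ‖1 - q ^ 2‖ ≤ ‖(1 : ℂ)‖ + ‖q ^ 2‖ := norm_sub_le _ _
      _ = 1 + ‖q‖ ^ 2 := by rw [norm_one, norm_pow]
  have h2 := nzv_norm_sq q
  have h3 := norm_nonneg q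
  have h4 := norm_nonneg (nzv q)
  by_contra h
  push Not at h
  nlinarith

theorem nzv_re_pos {q : ℂ} (hq : q ∈ UH) : 0 < (nzv q).re := nz_re_pos (nz_slit hq)

theorem nzv_re_pos' {q : ℂ} (hq : ‖q‖ ≤ 1 / 2) : 0 < (nzv q).re := nz_re_pos (nz_slit' hq)

theorem nzv_re_ge {q : ℂ} (hq : ‖q‖ ≤ 1 / 2) : 3 / 4 ≤ (nzv q).re := by
  have h1 := nz_re_sq hq
  have h2 := nzv_re_pos' hq
  rw [← nzv_sq q, sq, Complex.mul_re] at h1
  by_contra h
  push Not at h
  nlinarith [sq_nonneg (nzv q).im]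

theorem nzv_ne {q : ℂ} (hq : ‖q‖ ≤ 1 / 2) : nzv q ≠ 0 := by
  intro h
  have := nzv_re_ge hq
  rw [h] at this
  norm_num at this

/-- the imaginary part of `q + i v` is positive -/
theorem nz_im_pos {q : ℂ} (hq : q ∈ UH) : 0 < (q + Complex.I * nzv q).im := by
  have h1 := nzv_re_pos hq
  have hy : 0 < q.im := hq
  simp only [Complex.add_im, Complex.mul_im, Complex.I_re, Complex.I_im]
  linarith

theorem nz_im_pos' {q : ℂ} (hq : ‖q‖ ≤ 1 / 2) : 0 < (q + Complex.I * nzv q).im := by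
  have h1 := nzv_re_ge hq
  have h2 := Complex.abs_im_le_norm q
  have h3 := abs_le.1 (h2.trans hq)
  simp only [Complex.add_im, Complex.mul_im, Complex.I_re, Complex.I_im]
  linarith [h3.1]

theorem nz_one_le {q : ℂ} (hq : q ∈ UH) : 1 ≤ ‖q + Complex.I * nzv q‖ := by
  have hy : 0 < q.im := hq
  set x := q.re with hx
  set y := q.im with hyd
  set a := (nzv q).re with ha
  set b := (nzv q).im with hb
  have hapos : 0 < a := nzv_re_pos hq
  have hab : a * b = -(x * y) := by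
    have h1 := congrArg Complex.im (nzv_sq q)
    simp only [sq, Complex.mul_im, Complex.sub_im, Complex.one_im] at h1
    linarith
  have h1 : 0 ≤ y * a - x * b := by
    have h2 : a * (y * a - x * b) = y * (a ^ 2 + x ^ 2) := by
      have : a * (y * a - x * b) = y * a ^ 2 - x * (a * b) := by ring
      rw [this, hab]; ring
    have h3 : 0 ≤ a * (y * a - x * b) := by rw [h2]; positivity
    exact nonneg_of_mul_nonneg_right h3 hapos
  have h2 : ‖q + Complex.I * nzv q‖ ^ 2 - ‖q - Complex.I * nzv q‖ ^ 2 = 4 * (y * a - x * b) := by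
    rw [← Complex.normSq_eq_norm_sq, ← Complex.normSq_eq_norm_sq, Complex.normSq_apply,
      Complex.normSq_apply]
    simp only [Complex.add_re, Complex.add_im, Complex.sub_re, Complex.sub_im, Complex.mul_re,
      Complex.mul_im, Complex.I_re, Complex.I_im, ← hx, ← hyd, ← ha, ← hb]
    ring
  have h3 : ‖q + Complex.I * nzv q‖ * ‖q - Complex.I * nzv q‖ = 1 := by
    rw [← norm_mul]
    have h4 : (q + Complex.I * nzv q) * (q - Complex.I * nzv q) = 1 := by
      have h5 := nzv_sq q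
      have : (q + Complex.I * nzv q) * (q - Complex.I * nzv q)
          = q ^ 2 - Complex.I ^ 2 * nzv q ^ 2 := by ring
      rw [this, h5, Complex.I_sq]; ring
    rw [h4, norm_one]
  have h5 := norm_nonneg (q + Complex.I * nzv q)
  have h6 := norm_nonneg (q - Complex.I * nzv q)
  by_contra h
  push Not at h
  nlinarith

/-! ### The function `F` -/

/-- the remainder function -/
noncomputable def nzF (q : ℂ) : ℂ :=
  Complex.log (q + Complex.I * nzv q) - Real.pi / 2 * Complex.I + Complex.I * q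

theorem nzF_zero : nzF 0 = 0 := by
  unfold nzF nzv
  simp [Complex.log_I]

theorem nzv_hasDerivAt {q : ℂ} (h : 1 - q ^ 2 ∈ Complex.slitPlane) (h0 : nzv q ≠ 0) :
    HasDerivAt nzv (-q / nzv q) q := by
  have h1 : HasDerivAt (fun q : ℂ => 1 - q ^ 2) (-(2 * q)) q := by
    simpa using ((hasDerivAt_id q).fun_pow 2).const_sub 1
  have h2 := h1.cpow_const (c := (1 / 2 : ℂ)) h
  refine h2.congr_deriv ?_
  have h3 : (1 - q ^ 2) ^ ((1 / 2 : ℂ) - 1) = (nzv q)⁻¹ := by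
    have e : (1 / 2 : ℂ) - 1 = -(1 / 2) := by norm_num
    rw [e, Complex.cpow_neg]
    rfl
  rw [h3]
  field_simp

theorem nzF_hasDerivAt {q : ℂ} (hq : ‖q‖ ≤ 1 / 2) :
    HasDerivAt nzF (Complex.I * (1 - (nzv q)⁻¹)) q := by
  have h0 := nzv_ne hq
  have h1 := nzv_hasDerivAt (nz_slit' hq) h0
  have h2 : HasDerivAt (fun q : ℂ => q + Complex.I * nzv q) (1 + Complex.I * (-q / nzv q)) q :=
    (hasDerivAt_id q).add (h1.const_mul Complex.I)
  have hs : q + Complex.I * nzv q ∈ Complex.slitPlane :=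
    Complex.mem_slitPlane_iff.2 (Or.inr (nz_im_pos' hq).ne')
  have hne : q + Complex.I * nzv q ≠ 0 := Complex.slitPlane_ne_zero hs
  have h3 := ((h2.clog hs).sub_const (Real.pi / 2 * Complex.I)).add
    ((hasDerivAt_id q).const_mul Complex.I)
  refine h3.congr_deriv ?_
  have e1 : 1 + Complex.I * (-q / nzv q) = -Complex.I * (q + Complex.I * nzv q) / nzv q := by
    field_simp
    ring_nf
    rw [Complex.I_sq]
    ring
  rw [e1]
  field_simp
  ring

theorem nzF'_bound {q : ℂ} (hq : ‖q‖ ≤ 1 / 2) :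
    ‖Complex.I * (1 - (nzv q)⁻¹)‖ ≤ 2 * ‖q‖ ^ 2 ∧
      ‖Complex.I * (1 - (nzv q)⁻¹) + Complex.I * q ^ 2 / 2‖ ≤ 4 * ‖q‖ ^ 4 := by
  have h0 := nzv_ne hq
  have hre := nzv_re_ge hq
  have hv1 : 1 / 2 ≤ ‖nzv q‖ := by
    have := Complex.re_le_norm (nzv q)
    linarith
  have hv2 : ‖nzv q‖ ≤ 3 / 2 := by
    have := nzv_norm_le q
    linarith
  have hv3 : 1 ≤ ‖nzv q + 1‖ := by
    have := Complex.re_le_norm (nzv q + 1)
    simp only [Complex.add_re, Complex.one_re] at this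
    linarith
  have hne1 : nzv q + 1 ≠ 0 := by
    intro h
    rw [h, norm_zero] at hv3
    norm_num at hv3
  have hq2 : q ^ 2 = 1 - nzv q ^ 2 := by rw [nzv_sq]; ring
  have hq0 := norm_nonneg q
  constructor
  · have e1 : 1 - (nzv q)⁻¹ = -(q ^ 2) / (nzv q * (nzv q + 1)) := by
      rw [hq2]
      field_simp
      ring
    rw [norm_mul, Complex.norm_I, one_mul, e1, norm_div, norm_neg, norm_pow, norm_mul,
      div_le_iff₀ (by positivity)]
    have h1 : 1 / 2 ≤ ‖nzv q‖ * ‖nzv q + 1‖ := by nlinarith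
    nlinarith [sq_nonneg ‖q‖]
  · have e1 : Complex.I * (1 - (nzv q)⁻¹) + Complex.I * q ^ 2 / 2
        = Complex.I * (-(q ^ 4) * (nzv q + 2) / (2 * nzv q * (nzv q + 1) ^ 2)) := by
      have e2 : q ^ 4 = (1 - nzv q ^ 2) ^ 2 := by rw [← hq2]; ring
      rw [e2, hq2]
      field_simp
      ring
    have hp1 : 0 < ‖nzv q‖ := by linarith
    have hp2 : 0 < ‖nzv q + 1‖ := by linarith
    have h2 : ‖(2 : ℂ)‖ = 2 := by norm_num
    rw [e1, norm_mul, Complex.norm_I, one_mul, norm_div, norm_mul, norm_neg, norm_pow, norm_mul,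
      norm_mul, norm_pow, h2, div_le_iff₀ (by positivity)]
    have h1 : ‖nzv q + 2‖ ≤ 4 := by
      calc ‖nzv q + 2‖ ≤ ‖nzv q‖ + ‖(2 : ℂ)‖ := norm_add_le _ _
        _ ≤ 3 / 2 + 2 := by
          have : ‖(2 : ℂ)‖ = 2 := by norm_num
          linarith
        _ ≤ 4 := by norm_num
    have h3 : 1 ≤ ‖nzv q + 1‖ ^ 2 := one_le_pow₀ hv3
    have h4 : 1 ≤ 2 * ‖nzv q‖ * ‖nzv q + 1‖ ^ 2 := by nlinarith
    have h5 : 0 ≤ ‖q‖ ^ 4 := by positivity
    nlinarith

theorem nzF_small {q : ℂ} (hq : ‖q‖ ≤ 1 / 2) :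
    ‖nzF q‖ ≤ 2 * ‖q‖ ^ 3 ∧ ‖nzF q + Complex.I * q ^ 3 / 6‖ ≤ 4 * ‖q‖ ^ 5 := by
  have hconv : Convex ℝ (Metric.closedBall (0 : ℂ) ‖q‖) := convex_closedBall _ _
  have h0m : (0 : ℂ) ∈ Metric.closedBall (0 : ℂ) ‖q‖ := by simp
  have hqm : q ∈ Metric.closedBall (0 : ℂ) ‖q‖ := by simp
  have hball : ∀ w ∈ Metric.closedBall (0 : ℂ) ‖q‖, ‖w‖ ≤ ‖q‖ := by
    intro w hw
    simpa using hw
  constructor
  · have h1 := hconv.norm_image_sub_le_of_norm_hasDerivWithin_le (f := nzF)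
      (f' := fun w => Complex.I * (1 - (nzv w)⁻¹)) (C := 2 * ‖q‖ ^ 2)
      (fun w hw => (nzF_hasDerivAt ((hball w hw).trans hq)).hasDerivWithinAt)
      (fun w hw => ((nzF'_bound ((hball w hw).trans hq)).1).trans (by
        have := hball w hw
        have := norm_nonneg w
        gcongr)) h0m hqm
    rw [nzF_zero, sub_zero, sub_zero] at h1
    calc ‖nzF q‖ ≤ 2 * ‖q‖ ^ 2 * ‖q‖ := h1
      _ = 2 * ‖q‖ ^ 3 := by ring
  · have h1 := hconv.norm_image_sub_le_of_norm_hasDerivWithin_le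
      (f := fun w => nzF w + Complex.I * w ^ 3 / 6)
      (f' := fun w => Complex.I * (1 - (nzv w)⁻¹) + Complex.I * w ^ 2 / 2) (C := 4 * ‖q‖ ^ 4)
      (fun w hw => by
        have h2 : HasDerivAt (fun w : ℂ => Complex.I * w ^ 3 / 6) (Complex.I * w ^ 2 / 2) w := by
          have h3 := (((hasDerivAt_id w).fun_pow 3).const_mul Complex.I).div_const 6
          refine h3.congr_deriv ?_
          simp only [id]
          push_cast
          ring
        exact ((nzF_hasDerivAt ((hball w hw).trans hq)).add h2).hasDerivWithinAt)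
      (fun w hw => ((nzF'_bound ((hball w hw).trans hq)).2).trans (by
        have := hball w hw
        have := norm_nonneg w
        gcongr)) h0m hqm
    simp only [nzF_zero] at h1
    have e1 : nzF q + Complex.I * q ^ 3 / 6 - (0 + Complex.I * 0 ^ 3 / 6)
        = nzF q + Complex.I * q ^ 3 / 6 := by ring
    rw [e1, sub_zero] at h1
    calc ‖nzF q + Complex.I * q ^ 3 / 6‖ ≤ 4 * ‖q‖ ^ 4 * ‖q‖ := h1
      _ = 4 * ‖q‖ ^ 5 := by ring

theorem nzF_large {q : ℂ} (hq : q ∈ UH) (hq2 : 1 / 2 ≤ ‖q‖) : ‖nzF q‖ ≤ 13 * ‖q‖ := by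
  set w := q + Complex.I * nzv q with hw
  have h1 : 1 ≤ ‖w‖ := nz_one_le hq
  have h2 : ‖w‖ ≤ 1 + 2 * ‖q‖ := by
    calc ‖w‖ ≤ ‖q‖ + ‖Complex.I * nzv q‖ := norm_add_le _ _
      _ = ‖q‖ + ‖nzv q‖ := by rw [norm_mul, Complex.norm_I, one_mul]
      _ ≤ 1 + 2 * ‖q‖ := by linarith [nzv_norm_le q]
  have h3 : ‖Complex.log w‖ ≤ 2 * ‖q‖ + Real.pi := by
    have h4 : ‖Complex.log w‖ ≤ |(Complex.log w).re| + |(Complex.log w).im| :=
      Complex.norm_le_abs_re_add_abs_im _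
    rw [Complex.log_re, Complex.log_im, abs_of_nonneg (Real.log_nonneg h1)] at h4
    have h5 : Real.log ‖w‖ ≤ 2 * ‖q‖ := by
      have := Real.log_le_sub_one_of_pos (by linarith : 0 < ‖w‖)
      linarith
    have h6 := Complex.abs_arg_le_pi w
    linarith
  have h7 : ‖(Real.pi / 2 * Complex.I : ℂ)‖ = Real.pi / 2 := by
    rw [norm_mul, Complex.norm_I, mul_one, norm_div, Complex.norm_real]
    rw [Real.norm_of_nonneg Real.pi_pos.le]
    norm_num
  have h8 := Real.pi_lt_d2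
  calc ‖nzF q‖ ≤ ‖Complex.log w - Real.pi / 2 * Complex.I‖ + ‖Complex.I * q‖ := norm_add_le _ _
    _ ≤ ‖Complex.log w‖ + ‖(Real.pi / 2 * Complex.I : ℂ)‖ + ‖Complex.I * q‖ := by
        gcongr
        exact norm_sub_le _ _
    _ ≤ (2 * ‖q‖ + Real.pi) + Real.pi / 2 + ‖q‖ := by
        rw [h7, norm_mul, Complex.norm_I, one_mul]
        gcongr
    _ ≤ 13 * ‖q‖ := by nlinarith

theorem nzF_le {q : ℂ} (hq : q ∈ UH) : ‖nzF q‖ ≤ 13 * ‖q‖ := by
  rcases le_total (1 / 2) ‖q‖ with h | h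
  · exact nzF_large hq h
  · have h1 := (nzF_small h).1
    have h2 := norm_nonneg q
    have h3 : ‖q‖ ^ 3 ≤ ‖q‖ := by
      calc ‖q‖ ^ 3 = ‖q‖ * ‖q‖ ^ 2 := by ring
        _ ≤ ‖q‖ * 1 := by
          apply mul_le_mul_of_nonneg_left _ h2
          nlinarith
        _ = ‖q‖ := mul_one _
    linarith

theorem nzF_rpow {q : ℂ} (hq : q ∈ UH) {θ : ℝ} (h0 : 0 ≤ θ) (h2 : θ ≤ 2) :
    ‖nzF q‖ ≤ 52 * ‖q‖ ^ (1 + θ) := by
  have hq0 : 0 < ‖q‖ := by
    rw [norm_pos_iff]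
    rintro rfl
    have : (0 : ℝ) < (0 : ℂ).im := hq
    simp at this
  rcases le_total (1 / 2) ‖q‖ with h | h
  · refine (nzF_large hq h).trans ?_
    rw [Real.rpow_add hq0, Real.rpow_one]
    have h3 : (1 / 2 : ℝ) ^ θ ≤ ‖q‖ ^ θ := Real.rpow_le_rpow (by norm_num) h h0
    have h4 : (1 / 4 : ℝ) ≤ (1 / 2 : ℝ) ^ θ := by
      calc (1 / 4 : ℝ) = (1 / 2 : ℝ) ^ (2 : ℝ) := by norm_num
        _ ≤ (1 / 2 : ℝ) ^ θ := Real.rpow_le_rpow_of_exponent_ge (by norm_num) (by norm_num) h2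
    nlinarith
  · refine ((nzF_small h).1).trans ?_
    have h3 : ‖q‖ ^ 3 ≤ ‖q‖ ^ (1 + θ) := by
      rw [← Real.rpow_natCast]
      apply Real.rpow_le_rpow_of_exponent_ge hq0 (by linarith)
      push_cast
      linarith
    have h4 : 0 ≤ ‖q‖ ^ (1 + θ) := by positivity
    linarith

/-! ### The integral formula -/

theorem nzF_continuousOn : ContinuousOn nzF UH := by
  have h1 : ContinuousOn nzv UH := by
    intro q hq
    have h2 : ContinuousAt (fun q : ℂ => 1 - q ^ 2) q := by fun_prop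
    exact (h2.cpow continuousAt_const (nz_slit hq)).continuousWithinAt
  have h2 : ContinuousOn (fun q => q + Complex.I * nzv q) UH :=
    continuousOn_id.add (continuousOn_const.mul h1)
  have h3 : ContinuousOn (fun q => Complex.log (q + Complex.I * nzv q)) UH := by
    refine h2.clog fun q hq => ?_
    exact Complex.mem_slitPlane_iff.2 (Or.inr (nz_im_pos hq).ne')
  exact (h3.sub continuousOn_const).add (continuousOn_const.mul continuousOn_id)

theorem nz_div_mem {z : ℂ} (hz : z ∈ UH) {s : ℝ} (hs : 0 < s) : z / s ∈ UH := by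
  show 0 < (z / s).im
  rw [Complex.div_ofReal_im]
  exact div_pos hz hs

theorem nz_norm_div (z : ℂ) {s : ℝ} (hs : 0 < s) : ‖z / s‖ = ‖z‖ / s := by
  rw [norm_div, Complex.norm_real, Real.norm_of_nonneg hs.le]

theorem nz_root_unique {a b : ℂ} (h : a ^ 2 = b ^ 2) (ha : 0 < a.re) (hb : 0 < b.re) : a = b := by
  rcases sq_eq_sq_iff_eq_or_eq_neg.1 h with h | h
  · exact h
  · rw [h, Complex.neg_re] at ha
    linarith

theorem nz_root {z : ℂ} (hz : z ∈ UH) {s : ℝ} (hs : 0 < s) :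
    ((s : ℂ) ^ 2 - z ^ 2) ^ (1 / 2 : ℂ) = s * nzv (z / s) := by
  have hs0 : (s : ℂ) ≠ 0 := by exact_mod_cast hs.ne'
  have hw : (s : ℂ) ^ 2 - z ^ 2 = ((s ^ 2 : ℝ) : ℂ) * (1 - (z / s) ^ 2) := by
    push_cast
    field_simp
  have hsl : (s : ℂ) ^ 2 - z ^ 2 ∈ Complex.slitPlane := by
    have h1 := nz_slit (nz_div_mem hz hs)
    rw [hw, Complex.mem_slitPlane_iff] at *
    simp only [Complex.re_ofReal_mul, Complex.im_ofReal_mul]
    rcases h1 with h1 | h1
    · left; positivity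
    · right
      exact mul_ne_zero (by positivity) h1
  apply nz_root_unique
  · rw [nz_sq, mul_pow, nzv_sq, hw]
    push_cast
    ring
  · exact nz_re_pos hsl
  · rw [Complex.re_ofReal_mul]
    exact mul_pos hs (nzv_re_pos (nz_div_mem hz hs))

theorem nz_integrand {z : ℂ} (hz : z ∈ UH) {s : ℝ} (hs : 0 < s) :
    Complex.log ((z + Complex.I * ((s : ℂ) ^ 2 - z ^ 2) ^ (1 / 2 : ℂ)) / 2) =
      ((Real.log s - Real.log 2 : ℝ) : ℂ) + Real.pi / 2 * Complex.I - Complex.I * (z / s)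
        + nzF (z / s) := by
  have hs0 : (s : ℂ) ≠ 0 := by exact_mod_cast hs.ne'
  rw [nz_root hz hs]
  have e1 : (z + Complex.I * (s * nzv (z / s))) / 2
      = ((s / 2 : ℝ) : ℂ) * (z / s + Complex.I * nzv (z / s)) := by
    push_cast
    field_simp
  have hne : z / s + Complex.I * nzv (z / s) ≠ 0 := by
    intro h
    have := nz_im_pos (nz_div_mem hz hs)
    rw [h] at this
    simp at this
  rw [e1, Complex.log_ofReal_mul (by positivity) hne, Real.log_div hs.ne' two_ne_zero]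
  unfold nzF
  ring

/-- norm bound for the integrand of the remainder -/
theorem nz_bound {α : ℝ} (hα : 1 < α) {z : ℂ} (hz : z ∈ UH) {θ : ℝ} (h0 : 0 ≤ θ) (h2 : θ ≤ 2)
    {s : ℝ} (hs : 0 < s) :
    ‖((α * s ^ (α - 1) : ℝ) : ℂ) * nzF (z / s)‖ ≤
      52 * α * ‖z‖ ^ (1 + θ) * s ^ (α - 2 - θ) := by
  have h1 := nzF_rpow (nz_div_mem hz hs) h0 h2
  rw [nz_norm_div z hs, Real.div_rpow (norm_nonneg z) hs.le] at h1
  have h3 : 0 ≤ α * s ^ (α - 1) := by positivity
  rw [norm_mul, Complex.norm_real, Real.norm_of_nonneg h3]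
  have e1 : s ^ (α - 2 - θ) = s ^ (α - 1) / s ^ (1 + θ) := by
    rw [← Real.rpow_sub hs]
    congr 1
    ring
  rw [e1]
  calc α * s ^ (α - 1) * ‖nzF (z / s)‖
      ≤ α * s ^ (α - 1) * (52 * (‖z‖ ^ (1 + θ) / s ^ (1 + θ))) :=
        mul_le_mul_of_nonneg_left h1 h3
    _ = _ := by ring

theorem nz_contOn {α : ℝ} {z : ℂ} (hz : z ∈ UH) :
    ContinuousOn (fun s : ℝ => ((α * s ^ (α - 1) : ℝ) : ℂ) * nzF (z / s)) (Ioi 0) := by
  have h1 : ContinuousOn (fun s : ℝ => z / (s : ℂ)) (Ioi 0) := by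
    apply continuousOn_const.div Complex.continuous_ofReal.continuousOn
    intro s hs
    have : (s : ℝ) ≠ 0 := (ne_of_gt hs)
    exact_mod_cast this
  have h2 : ContinuousOn (fun s : ℝ => nzF (z / (s : ℂ))) (Ioi 0) :=
    nzF_continuousOn.comp h1 fun s hs => nz_div_mem hz hs
  have h3 : ContinuousOn (fun s : ℝ => ((α * s ^ (α - 1) : ℝ) : ℂ)) (Ioi 0) := by
    apply Complex.continuous_ofReal.comp_continuousOn
    apply continuousOn_const.mul
    intro s hs
    exact (Real.continuousAt_rpow_const s (α - 1) (Or.inl (ne_of_gt hs))).continuousWithinAt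
  exact h3.mul h2

theorem nz_integrable {α : ℝ} (hα : 1 < α) {z : ℂ} (hz : z ∈ UH) :
    IntervalIntegrable (fun s : ℝ => ((α * s ^ (α - 1) : ℝ) : ℂ) * nzF (z / s)) volume 0 1 := by
  rw [intervalIntegrable_iff_integrableOn_Ioc_of_le zero_le_one]
  have hb : IntegrableOn (fun s : ℝ => 52 * α * ‖z‖ ^ (1 + (0 : ℝ)) * s ^ (α - 2 - 0))
      (Ioc 0 1) := by
    have := (intervalIntegral.intervalIntegrable_rpow' (a := 0) (b := 1)
      (r := α - 2 - 0) (by linarith)).const_mul (52 * α * ‖z‖ ^ (1 + (0 : ℝ)))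
    rwa [intervalIntegrable_iff_integrableOn_Ioc_of_le zero_le_one] at this
  refine hb.mono' ?_ ?_
  · exact ((nz_contOn hz).mono Ioc_subset_Ioi_self).aestronglyMeasurable measurableSet_Ioc
  · rw [ae_restrict_iff' measurableSet_Ioc]
    filter_upwards with s hs
    exact nz_bound hα hz le_rfl (by norm_num) hs.1

theorem nz_main {α : ℝ} (hα : 1 < α) (z : ℂ) :
    IntervalIntegrable (fun s : ℝ => ((α * s ^ (α - 1) : ℝ) : ℂ) *
      (((Real.log s - Real.log 2 : ℝ) : ℂ) + Real.pi / 2 * Complex.I)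
        - ((α * s ^ (α - 2) : ℝ) : ℂ) * (Complex.I * z)) volume 0 1 ∧
    ∫ s in (0 : ℝ)..1, (((α * s ^ (α - 1) : ℝ) : ℂ) *
      (((Real.log s - Real.log 2 : ℝ) : ℂ) + Real.pi / 2 * Complex.I)
        - ((α * s ^ (α - 2) : ℝ) : ℂ) * (Complex.I * z)) =
      ell α / 2 + Real.pi / 2 * Complex.I - Complex.I * (α / (α - 1)) * z := by
  have hα0 : α ≠ 0 := by linarith
  have hα1 : α - 1 ≠ 0 := by linarith
  have hα0' : (α : ℂ) ≠ 0 := by exact_mod_cast hα0
  have hα1' : (α : ℂ) - 1 ≠ 0 := by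
    have : ((α - 1 : ℝ) : ℂ) ≠ 0 := by exact_mod_cast hα1
    simpa using this
  have hint : IntervalIntegrable (fun s : ℝ => ((α * s ^ (α - 1) : ℝ) : ℂ) *
      (((Real.log s - Real.log 2 : ℝ) : ℂ) + Real.pi / 2 * Complex.I)
        - ((α * s ^ (α - 2) : ℝ) : ℂ) * (Complex.I * z)) volume 0 1 := by
    have h1 : IntervalIntegrable (fun s : ℝ =>
        ((Real.log s - Real.log 2 : ℝ) : ℂ) + Real.pi / 2 * Complex.I) volume 0 1 := by
      have h2 : IntervalIntegrable (fun s : ℝ => Real.log s - Real.log 2) volume 0 1 :=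
        intervalIntegral.intervalIntegrable_log'.sub intervalIntegrable_const
      exact IntervalIntegrable.add ⟨h2.1.ofReal, h2.2.ofReal⟩ intervalIntegrable_const
    have h3 : ContinuousOn (fun s : ℝ => ((α * s ^ (α - 1) : ℝ) : ℂ)) (uIcc 0 1) := by
      apply Complex.continuous_ofReal.comp_continuousOn
      apply continuousOn_const.mul
      intro s _
      exact (Real.continuousAt_rpow_const s (α - 1) (Or.inr (by linarith))).continuousWithinAt
    have h4 : IntervalIntegrable (fun s : ℝ => ((α * s ^ (α - 2) : ℝ) : ℂ) * (Complex.I * z))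
        volume 0 1 := by
      have h5 := (intervalIntegral.intervalIntegrable_rpow' (a := 0) (b := 1)
        (r := α - 2) (by linarith)).const_mul α
      exact IntervalIntegrable.mul_const ⟨h5.1.ofReal, h5.2.ofReal⟩ _
    exact (h1.continuousOn_mul h3).sub h4
  refine ⟨hint, ?_⟩
  set Φ : ℝ → ℂ := fun s => ((s ^ α : ℝ) : ℂ) *
    (((Real.log s - Real.log 2 : ℝ) : ℂ) - 1 / α + Real.pi / 2 * Complex.I)
      - ((s ^ (α - 1) : ℝ) : ℂ) * (Complex.I * (α / (α - 1)) * z) with hΦ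
  have hder : ∀ s ∈ Ioo (0 : ℝ) 1, HasDerivAt Φ (((α * s ^ (α - 1) : ℝ) : ℂ) *
      (((Real.log s - Real.log 2 : ℝ) : ℂ) + Real.pi / 2 * Complex.I)
        - ((α * s ^ (α - 2) : ℝ) : ℂ) * (Complex.I * z)) s := by
    intro s hs
    have hs0 : s ≠ 0 := hs.1.ne'
    have d1 : HasDerivAt (fun s : ℝ => ((s ^ α : ℝ) : ℂ)) ((α * s ^ (α - 1) : ℝ) : ℂ) s :=
      (Real.hasDerivAt_rpow_const (Or.inl hs0)).ofReal_comp
    have d2 : HasDerivAt (fun s : ℝ => ((s ^ (α - 1) : ℝ) : ℂ))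
        (((α - 1) * s ^ (α - 1 - 1) : ℝ) : ℂ) s :=
      (Real.hasDerivAt_rpow_const (Or.inl hs0)).ofReal_comp
    have d3 : HasDerivAt (fun s : ℝ => ((Real.log s - Real.log 2 : ℝ) : ℂ)) ((s⁻¹ : ℝ) : ℂ) s :=
      ((Real.hasDerivAt_log hs0).sub_const _).ofReal_comp
    have d4 := (d1.mul ((d3.sub_const (1 / (α : ℂ))).add_const (Real.pi / 2 * Complex.I))).sub
      (d2.mul_const (Complex.I * (α / (α - 1)) * z))
    refine d4.congr_deriv ?_
    have e1 : ((s ^ α : ℝ) : ℂ) * ((s⁻¹ : ℝ) : ℂ) = ((s ^ (α - 1) : ℝ) : ℂ) := by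
      rw [← Complex.ofReal_mul]
      congr 1
      rw [Real.rpow_sub_one hs0]
      field_simp
    have e2 : α - 1 - 1 = α - 2 := by ring
    rw [e2]
    calc _ = ((α * s ^ (α - 1) : ℝ) : ℂ) * (((Real.log s - Real.log 2 : ℝ) : ℂ)
          + Real.pi / 2 * Complex.I) - ((α * s ^ (α - 1) : ℝ) : ℂ) * (1 / α)
          + ((s ^ α : ℝ) : ℂ) * ((s⁻¹ : ℝ) : ℂ)
          - (((α - 1) * s ^ (α - 2) : ℝ) : ℂ) * (Complex.I * (α / (α - 1)) * z) := by ring
      _ = _ := by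
          rw [e1]
          push_cast
          field_simp
          ring
  have h0 : Tendsto Φ (𝓝[>] 0) (𝓝 0) := by
    have t1 : Tendsto (fun s : ℝ => s ^ α) (𝓝[>] 0) (𝓝 0) := by
      have := (Real.continuousAt_rpow_const 0 α (Or.inr (by linarith))).tendsto
      rw [Real.zero_rpow hα0] at this
      exact this.mono_left nhdsWithin_le_nhds
    have t2 : Tendsto (fun s : ℝ => s ^ (α - 1)) (𝓝[>] 0) (𝓝 0) := by
      have := (Real.continuousAt_rpow_const 0 (α - 1) (Or.inr (by linarith))).tendsto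
      rw [Real.zero_rpow hα1] at this
      exact this.mono_left nhdsWithin_le_nhds
    have t3 : Tendsto (fun s : ℝ => Real.log s * s ^ α) (𝓝[>] 0) (𝓝 0) :=
      tendsto_log_mul_rpow_nhdsGT_zero (by linarith)
    have t1' : Tendsto (fun s : ℝ => ((s ^ α : ℝ) : ℂ)) (𝓝[>] 0) (𝓝 0) := by
      have h := (Complex.continuous_ofReal.tendsto 0).comp t1
      rw [Complex.ofReal_zero] at h
      exact h
    have t2' : Tendsto (fun s : ℝ => ((s ^ (α - 1) : ℝ) : ℂ)) (𝓝[>] 0) (𝓝 0) := by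
      have h := (Complex.continuous_ofReal.tendsto 0).comp t2
      rw [Complex.ofReal_zero] at h
      exact h
    have t3' : Tendsto (fun s : ℝ => ((Real.log s * s ^ α : ℝ) : ℂ)) (𝓝[>] 0) (𝓝 0) := by
      have h := (Complex.continuous_ofReal.tendsto 0).comp t3
      rw [Complex.ofReal_zero] at h
      exact h
    have t4 := (t3'.add (t1'.mul_const (-(Real.log 2 : ℂ) - 1 / α + Real.pi / 2 * Complex.I))).sub
      (t2'.mul_const (Complex.I * (α / (α - 1)) * z))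
    simp only [zero_mul, add_zero, sub_zero] at t4
    refine t4.congr fun s => ?_
    simp only [hΦ]
    push_cast
    ring
  have h1 : Tendsto Φ (𝓝[<] 1) (𝓝 (Φ 1)) := by
    have : ContinuousAt Φ 1 := by
      have c1 : ContinuousAt (fun s : ℝ => ((s ^ α : ℝ) : ℂ)) 1 :=
        Complex.continuous_ofReal.continuousAt.comp
          (Real.continuousAt_rpow_const 1 α (Or.inl one_ne_zero))
      have c2 : ContinuousAt (fun s : ℝ => ((s ^ (α - 1) : ℝ) : ℂ)) 1 :=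
        Complex.continuous_ofReal.continuousAt.comp
          (Real.continuousAt_rpow_const 1 (α - 1) (Or.inl one_ne_zero))
      have c3 : ContinuousAt (fun s : ℝ => ((Real.log s - Real.log 2 : ℝ) : ℂ)) 1 :=
        Complex.continuous_ofReal.continuousAt.comp
          ((Real.continuousAt_log one_ne_zero).sub continuousAt_const)
      exact (c1.mul ((c3.sub continuousAt_const).add continuousAt_const)).sub
        (c2.mul continuousAt_const)
    exact this.tendsto.mono_left nhdsWithin_le_nhds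
  rw [intervalIntegral.integral_eq_sub_of_hasDerivAt_of_tendsto zero_lt_one hder hint h0 h1]
  simp only [hΦ, Real.one_rpow, Real.log_one, ell]
  push_cast
  ring

theorem nz_integral {α : ℝ} (hα : 1 < α) {z : ℂ} (hz : z ∈ UH) :
    gfun α z = (ell α / 2 + Real.pi / 2 * Complex.I - Complex.I * (α / (α - 1)) * z) +
      ∫ s in (0 : ℝ)..1, ((α * s ^ (α - 1) : ℝ) : ℂ) * nzF (z / s) := by
  obtain ⟨h1, h2⟩ := nz_main hα z
  rw [← h2, ← intervalIntegral.integral_add h1 (nz_integrable hα hz)]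
  unfold gfun
  apply intervalIntegral.integral_congr_ae
  filter_upwards with s hs
  rw [uIoc_of_le zero_le_one] at hs
  have hs0 : 0 < s := hs.1
  rw [nz_integrand hz hs0]
  have e1 : s ^ (α - 2) = s ^ (α - 1) / s := by
    have : α - 2 = (α - 1) - 1 := by ring
    rw [this, Real.rpow_sub_one hs0.ne']
  rw [e1]
  have hs1 : (s : ℂ) ≠ 0 := by exact_mod_cast hs0.ne'
  push_cast
  field_simp

theorem near_zero (α : ℝ) (hα : 1 < α) :
    ∃ θ C r : ℝ, 0 < θ ∧ 0 < r ∧ ∀ z ∈ UH, ‖z‖ ≤ r →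
      ‖gfun α z - (ell α / 2 + Real.pi / 2 * Complex.I
        - Complex.I * (α / (α - 1)) * z)‖ ≤ C * ‖z‖ ^ (1 + θ) := by
  set θ : ℝ := min 1 ((α - 1) / 2) with hθ
  have hθ0 : 0 < θ := lt_min one_pos (by linarith)
  have hθ1 : θ ≤ 1 := min_le_left _ _
  have hθ2 : θ ≤ (α - 1) / 2 := min_le_right _ _
  have hpos : 0 < α - 1 - θ := by linarith
  refine ⟨θ, 52 * α / (α - 1 - θ), 1, hθ0, one_pos, ?_⟩
  intro z hz _
  rw [nz_integral hα hz, add_sub_cancel_left]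
  have hb : IntervalIntegrable (fun s : ℝ => 52 * α * ‖z‖ ^ (1 + θ) * s ^ (α - 2 - θ))
      volume 0 1 :=
    (intervalIntegral.intervalIntegrable_rpow' (by linarith)).const_mul _
  calc ‖∫ s in (0 : ℝ)..1, ((α * s ^ (α - 1) : ℝ) : ℂ) * nzF (z / s)‖
      ≤ ∫ s in (0 : ℝ)..1, 52 * α * ‖z‖ ^ (1 + θ) * s ^ (α - 2 - θ) := by
        apply intervalIntegral.norm_integral_le_of_norm_le zero_le_one _ hb
        filter_upwards with s hs
        exact nz_bound hα hz hθ0.le (by linarith) hs.1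
    _ = 52 * α / (α - 1 - θ) * ‖z‖ ^ (1 + θ) := by
        rw [intervalIntegral.integral_const_mul, integral_rpow (Or.inl (by linarith))]
        have e1 : α - 2 - θ + 1 = α - 1 - θ := by ring
        rw [e1, Real.one_rpow, Real.zero_rpow hpos.ne']
        field_simp
        ring

/-- the inner part of the remainder, for `α = 3` -/
theorem nz_three_inner {z : ℂ} (hz : z ∈ UH) :
    ‖∫ s in (0 : ℝ)..(2 * ‖z‖), (((3 : ℝ) * s ^ ((3 : ℝ) - 1) : ℝ) : ℂ) * nzF (z / s)‖ ≤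
      78 * ‖z‖ ^ 3 := by
  have h0 : (0 : ℝ) ≤ 2 * ‖z‖ := by positivity
  have hb : IntervalIntegrable (fun s : ℝ => 39 * ‖z‖ * s) volume 0 (2 * ‖z‖) :=
    (by fun_prop : Continuous fun s : ℝ => 39 * ‖z‖ * s).intervalIntegrable _ _
  calc ‖∫ s in (0 : ℝ)..(2 * ‖z‖), (((3 : ℝ) * s ^ ((3 : ℝ) - 1) : ℝ) : ℂ) * nzF (z / s)‖
      ≤ ∫ s in (0 : ℝ)..(2 * ‖z‖), 39 * ‖z‖ * s := by
        apply intervalIntegral.norm_integral_le_of_norm_le h0 _ hb
        filter_upwards with s hs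
        have hs0 : 0 < s := hs.1
        have h1 := nzF_le (nz_div_mem hz hs0)
        rw [nz_norm_div z hs0] at h1
        have e1 : s ^ ((3 : ℝ) - 1) = s ^ 2 := by
          rw [← Real.rpow_natCast]; norm_num
        rw [e1, norm_mul, Complex.norm_real, Real.norm_of_nonneg (by positivity)]
        calc 3 * s ^ 2 * ‖nzF (z / s)‖ ≤ 3 * s ^ 2 * (13 * (‖z‖ / s)) :=
              mul_le_mul_of_nonneg_left h1 (by positivity)
          _ = 39 * ‖z‖ * s := by field_simp; ring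
    _ = 78 * ‖z‖ ^ 3 := by
        rw [intervalIntegral.integral_const_mul, integral_id]
        ring

/-- the outer part of the remainder, for `α = 3` -/
theorem nz_three_outer {z : ℂ} (hz : z ∈ UH) (hr : ‖z‖ ≤ 1 / 2) :
    ‖(∫ s in (2 * ‖z‖)..(1 : ℝ), (((3 : ℝ) * s ^ ((3 : ℝ) - 1) : ℝ) : ℂ) * nzF (z / s))
      - Complex.I / 2 * z ^ 3 * (Real.log (2 * ‖z‖) : ℂ)‖ ≤ 3 * ‖z‖ ^ 3 := by
  have hz0 : 0 < ‖z‖ := by
    rw [norm_pos_iff]
    rintro rfl
    have : (0 : ℝ) < (0 : ℂ).im := hz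
    simp at this
  have h0 : 0 < 2 * ‖z‖ := by positivity
  have h1 : 2 * ‖z‖ ≤ 1 := by linarith
  have hsub : uIcc (2 * ‖z‖) 1 ⊆ Ioi 0 := by
    rw [uIcc_of_le h1]
    intro s hs
    exact lt_of_lt_of_le h0 hs.1
  have i1 : IntervalIntegrable (fun s : ℝ => (((3 : ℝ) * s ^ ((3 : ℝ) - 1) : ℝ) : ℂ) *
      nzF (z / s)) volume (2 * ‖z‖) 1 := ((nz_contOn hz).mono hsub).intervalIntegrable
  have i2 : IntervalIntegrable (fun s : ℝ => ((s⁻¹ : ℝ) : ℂ)) volume (2 * ‖z‖) 1 := by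
    apply ContinuousOn.intervalIntegrable
    apply Complex.continuous_ofReal.comp_continuousOn
    apply continuousOn_inv₀.mono
    intro s hs
    exact (hsub hs).ne'
  have e2 : Complex.I / 2 * z ^ 3 * (Real.log (2 * ‖z‖) : ℂ)
      = ∫ s in (2 * ‖z‖)..(1 : ℝ), -(Complex.I / 2 * z ^ 3) * ((s⁻¹ : ℝ) : ℂ) := by
    rw [intervalIntegral.integral_const_mul, intervalIntegral.integral_ofReal,
      integral_inv_of_pos h0 one_pos, Real.log_div one_ne_zero h0.ne', Real.log_one]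
    push_cast
    ring
  rw [e2, ← intervalIntegral.integral_sub i1 (i2.const_mul _)]
  have hb : IntervalIntegrable (fun s : ℝ => 6 * ‖z‖ ^ 4 * s ^ (-2 : ℝ)) volume (2 * ‖z‖) 1 := by
    apply ContinuousOn.intervalIntegrable
    apply continuousOn_const.mul
    intro s hs
    exact (Real.continuousAt_rpow_const s _ (Or.inl (hsub hs).ne')).continuousWithinAt
  calc ‖∫ s in (2 * ‖z‖)..(1 : ℝ), ((((3 : ℝ) * s ^ ((3 : ℝ) - 1) : ℝ) : ℂ) * nzF (z / s)
        - -(Complex.I / 2 * z ^ 3) * ((s⁻¹ : ℝ) : ℂ))‖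
      ≤ ∫ s in (2 * ‖z‖)..(1 : ℝ), 6 * ‖z‖ ^ 4 * s ^ (-2 : ℝ) := by
        apply intervalIntegral.norm_integral_le_of_norm_le h1 _ hb
        filter_upwards with s hs
        have hs0 : 0 < s := h0.trans hs.1
        have hsC : (s : ℂ) ≠ 0 := by exact_mod_cast hs0.ne'
        have hq : ‖z / s‖ ≤ 1 / 2 := by
          rw [nz_norm_div z hs0, div_le_iff₀ hs0]
          linarith [hs.1]
        have h2 := (nzF_small hq).2
        have e3 : s ^ ((3 : ℝ) - 1) = s ^ 2 := by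
          rw [← Real.rpow_natCast]; norm_num
        have e4 : (((3 : ℝ) * s ^ ((3 : ℝ) - 1) : ℝ) : ℂ) * nzF (z / s)
            - -(Complex.I / 2 * z ^ 3) * ((s⁻¹ : ℝ) : ℂ)
            = ((3 * s ^ 2 : ℝ) : ℂ) * (nzF (z / s) + Complex.I * (z / s) ^ 3 / 6) := by
          rw [e3]
          push_cast
          field_simp
          ring
        rw [e4, norm_mul, Complex.norm_real, Real.norm_of_nonneg (by positivity)]
        have e5 : s ^ (-2 : ℝ) = (s ^ 2)⁻¹ := by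
          rw [Real.rpow_neg hs0.le]
          norm_num
        rw [e5]
        calc 3 * s ^ 2 * ‖nzF (z / s) + Complex.I * (z / s) ^ 3 / 6‖
            ≤ 3 * s ^ 2 * (4 * ‖z / s‖ ^ 5) := mul_le_mul_of_nonneg_left h2 (by positivity)
          _ = 3 * s ^ 2 * (4 * ‖z / s‖ ^ 4) * ‖z / s‖ := by ring
          _ ≤ 3 * s ^ 2 * (4 * ‖z / s‖ ^ 4) * (1 / 2) :=
              mul_le_mul_of_nonneg_left hq (by positivity)
          _ = 6 * ‖z‖ ^ 4 * (s ^ 2)⁻¹ := by
              rw [nz_norm_div z hs0]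
              field_simp
              ring
    _ = 6 * ‖z‖ ^ 4 * ((2 * ‖z‖)⁻¹ - 1) := by
        rw [intervalIntegral.integral_const_mul, integral_rpow]
        · have e6 : (-2 : ℝ) + 1 = -1 := by norm_num
          rw [e6, Real.one_rpow, Real.rpow_neg_one]
          ring
        · right
          refine ⟨by norm_num, ?_⟩
          intro h
          exact lt_irrefl (0 : ℝ) (mem_Ioi.1 (hsub h))
    _ ≤ 3 * ‖z‖ ^ 3 := by
        have e7 : 6 * ‖z‖ ^ 4 * (2 * ‖z‖)⁻¹ = 3 * ‖z‖ ^ 3 := by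
          field_simp
          ring
        have : 0 ≤ 6 * ‖z‖ ^ 4 := by positivity
        linarith

theorem near_zero_three :
    ∃ C r : ℝ, 0 < r ∧ ∀ z ∈ UH, ‖z‖ ≤ r →
      ‖gfun 3 z - (ell 3 / 2 + Real.pi / 2 * Complex.I - Complex.I * (3 / 2) * z
        + Complex.I / 2 * z ^ 3 * Complex.log z)‖ ≤ C * ‖z‖ ^ 3 := by
  refine ⟨78 + 3 + 1 / 2 * (1 + Real.pi), 1 / 2, by norm_num, ?_⟩
  intro z hz hr
  have hz0 : 0 < ‖z‖ := by
    rw [norm_pos_iff]
    rintro rfl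
    have : (0 : ℝ) < (0 : ℂ).im := hz
    simp at this
  have h0 : 0 < 2 * ‖z‖ := by positivity
  have h1 : 2 * ‖z‖ ≤ 1 := by linarith
  have hI := nz_integral (α := 3) (by norm_num) hz
  have hint := nz_integrable (α := 3) (by norm_num) hz
  have hsplit := intervalIntegral.integral_add_adjacent_intervals
    (hint.mono_set (by
      rw [uIcc_of_le h0.le, uIcc_of_le zero_le_one]
      exact Icc_subset_Icc_right h1 : uIcc 0 (2 * ‖z‖) ⊆ uIcc 0 1))
    (hint.mono_set (by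
      rw [uIcc_of_le h1, uIcc_of_le zero_le_one]
      exact Icc_subset_Icc_left h0.le : uIcc (2 * ‖z‖) 1 ⊆ uIcc 0 1))
  have h3 := nz_three_inner hz
  have h4 := nz_three_outer hz hr
  have hlog : ‖(Real.log (2 * ‖z‖) : ℂ) - Complex.log z‖ ≤ 1 + Real.pi := by
    have e1 : (Real.log (2 * ‖z‖) : ℂ) - Complex.log z
        = (Real.log 2 : ℂ) - z.arg * Complex.I := by
      rw [Real.log_mul two_ne_zero hz0.ne', Complex.log]
      push_cast
      ring
    rw [e1]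
    calc ‖(Real.log 2 : ℂ) - z.arg * Complex.I‖ ≤ ‖(Real.log 2 : ℂ)‖ + ‖(z.arg : ℂ) * Complex.I‖ :=
          norm_sub_le _ _
      _ ≤ 1 + Real.pi := by
          rw [norm_mul, Complex.norm_I, mul_one, Complex.norm_real, Complex.norm_real,
            Real.norm_eq_abs, Real.norm_eq_abs, abs_of_nonneg (Real.log_nonneg (by norm_num))]
          have := Real.log_two_lt_d9
          have := Complex.abs_arg_le_pi z
          linarith
  set I1 := ∫ s in (0 : ℝ)..(2 * ‖z‖), (((3 : ℝ) * s ^ ((3 : ℝ) - 1) : ℝ) : ℂ) * nzF (z / s)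
    with hI1
  set I2 := ∫ s in (2 * ‖z‖)..(1 : ℝ), (((3 : ℝ) * s ^ ((3 : ℝ) - 1) : ℝ) : ℂ) * nzF (z / s)
    with hI2
  have e1 : gfun 3 z - (ell 3 / 2 + Real.pi / 2 * Complex.I - Complex.I * (3 / 2) * z
        + Complex.I / 2 * z ^ 3 * Complex.log z)
      = I1 + (I2 - Complex.I / 2 * z ^ 3 * (Real.log (2 * ‖z‖) : ℂ))
        + Complex.I / 2 * z ^ 3 * ((Real.log (2 * ‖z‖) : ℂ) - Complex.log z) := by
    rw [hI, ← hsplit]
    push_cast
    ring
  rw [e1]
  have h5 : ‖Complex.I / 2 * z ^ 3 * ((Real.log (2 * ‖z‖) : ℂ) - Complex.log z)‖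
      ≤ 1 / 2 * ‖z‖ ^ 3 * (1 + Real.pi) := by
    have e2 : ‖(2 : ℂ)‖ = 2 := by norm_num
    rw [norm_mul, norm_mul, norm_div, Complex.norm_I, norm_pow, e2]
    exact mul_le_mul_of_nonneg_left hlog (by positivity)
  calc ‖I1 + (I2 - Complex.I / 2 * z ^ 3 * (Real.log (2 * ‖z‖) : ℂ))
        + Complex.I / 2 * z ^ 3 * ((Real.log (2 * ‖z‖) : ℂ) - Complex.log z)‖
      ≤ ‖I1‖ + ‖I2 - Complex.I / 2 * z ^ 3 * (Real.log (2 * ‖z‖) : ℂ)‖
        + ‖Complex.I / 2 * z ^ 3 * ((Real.log (2 * ‖z‖) : ℂ) - Complex.log z)‖ :=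
        norm_add₃_le
    _ ≤ 78 * ‖z‖ ^ 3 + 3 * ‖z‖ ^ 3 + 1 / 2 * ‖z‖ ^ 3 * (1 + Real.pi) := by
        gcongr
    _ = _ := by ring

end Pool.Agent.Freud
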