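import Mathlib
import Pool.Agent.Freud.ZeroQ
import Pool.Agent.Freud.GBasic
import Pool.Agent.Freud.NearZero

/-!
FR-Z1 of MP_6cbd85_an: the leading order of the zero part (`zero_a`); `W0_bound` is in ZeroQ.lean.
-/

set_option autoImplicit false

open MeasureTheory Filter Topology Asymptotics Set

namespace Pool.Agent.Freud

theorem za_diff_bd {α δ y0 c : ℝ} (hα : 1 < α) (hδ : 0 < δ) (hδ' : δ < 1 / 2)
    (hG : Geo α δ y0 c) {θ C r : ℝ} (hN : ZNear α θ C r) :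
    ∃ θ' c0 M : ℝ, 0 < θ' ∧ θ' ≤ 1 ∧ 0 < c0 ∧ 0 ≤ M ∧ ∀ n : ℕ, 1 ≤ n → ∀ z ∈ UH, ∀ i j : Fin 2,
      ‖W0 α n y0 z i j - (-Complex.I * zQm α n z) * zM0 i j‖ ≤
        M * (n ^ 2 * ‖z‖ ^ (α + θ') * Real.exp (-(c0 * n) * ‖z‖) +
          n * ‖z‖ ^ α * Real.exp (-(c0 * n) * ‖z‖)) := by
  obtain ⟨Ct, hC0, hC⟩ := ztau_bd
  obtain ⟨θ', r', M, hθ', hθ1, hr', hr2, hM, hnear⟩ := za_q_near hα hG hN hC0 hC
  have hk := za_kap_pos hα
  have hα1 : 0 < α - 1 := by linarith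
  have hα0 : 0 < α := by linarith
  set l1 := α / (α - 1) with hl1
  have hl10 : 0 < l1 := by positivity
  have hc := hG.c_pos
  set c0 := min c (l1 / 2) with hc0
  have hc00 : 0 < c0 := lt_min hc (by positivity)
  have hc0c : c0 ≤ c := min_le_left _ _
  have hc0l : c0 ≤ l1 / 2 := min_le_right _ _
  set Q := 2 * Ct * kap α with hQ
  have hQ0 : 0 < Q := by positivity
  refine ⟨θ', c0, 3 * M + 3 * Q + 4 * Q * r' ^ (-(1 + θ')), hθ', hθ1, hc00, by positivity,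
    fun n hn1 z hz i j => ?_⟩
  have hn0 : (0 : ℝ) < n := by exact_mod_cast hn1
  have hn1' : (1 : ℝ) ≤ n := by exact_mod_cast hn1
  have hz0 : 0 < ‖z‖ := norm_pos_iff.mpr (zb_ne_zero hz)
  have hQm := zQm_bd hα hC0 hC hn1 hz
  rw [← hQ, ← hl1] at hQm
  have hE1 : Real.exp (-(l1 * n * ‖z‖)) ≤ Real.exp (-(c0 * n) * ‖z‖) := by
    rw [Real.exp_le_exp]
    have : c0 * (n * ‖z‖) ≤ l1 * (n * ‖z‖) := mul_le_mul_of_nonneg_right (by linarith) (by positivity)
    linarith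
  have hE2 : Real.exp (-(l1 / 2 * n * ‖z‖)) ≤ Real.exp (-(c0 * n) * ‖z‖) := by
    rw [Real.exp_le_exp]
    have : c0 * (n * ‖z‖) ≤ l1 / 2 * (n * ‖z‖) := mul_le_mul_of_nonneg_right hc0l (by positivity)
    linarith
  have hE3 : Real.exp (-(c * n * ‖z‖)) ≤ Real.exp (-(c0 * n) * ‖z‖) := by
    rw [Real.exp_le_exp]
    have : c0 * (n * ‖z‖) ≤ c * (n * ‖z‖) := mul_le_mul_of_nonneg_right hc0c (by positivity)
    linarith
  set X := n ^ 2 * ‖z‖ ^ (α + θ') * Real.exp (-(c0 * n) * ‖z‖) with hX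
  set Y := n * ‖z‖ ^ α * Real.exp (-(c0 * n) * ‖z‖) with hY
  have hX0 : 0 ≤ X := by positivity
  have hY0 : 0 ≤ Y := by positivity
  have hR0 : 0 ≤ r' ^ (-(1 + θ')) := by positivity
  rcases le_or_gt ‖z‖ r' with hzr | hzr
  · -- near
    have h1 := hnear n hn1 z hz hzr
    have hzh : ‖z‖ ≤ 1 / 2 := hzr.trans hr2
    have h2 := zM_bd hz hzh i j
    have h3 := zM_near hz hzh i j
    have e : W0 α n y0 z i j - (-Complex.I * zQm α n z) * zM0 i j =
        -Complex.I * ((qfun α n y0 z - zQm α n z) * zM z i j + zQm α n z * (zM z i j - zM0 i j)) := by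
      rw [W0_eq, Matrix.smul_apply, smul_eq_mul]; ring
    rw [e, norm_mul, norm_neg, Complex.norm_I, one_mul]
    refine (norm_add_le _ _).trans ?_
    rw [norm_mul, norm_mul]
    have h4 : ‖qfun α n y0 z - zQm α n z‖ * ‖zM z i j‖ ≤ M * X * 3 := by
      apply mul_le_mul _ h2 (norm_nonneg _) (by positivity)
      refine h1.trans ?_
      rw [hX]
      have := mul_le_mul_of_nonneg_left hE2 (show 0 ≤ M * n ^ 2 * ‖z‖ ^ (α + θ') by positivity)
      linarith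
    have h5 : ‖zQm α n z‖ * ‖zM z i j - zM0 i j‖ ≤ Q * n * ‖z‖ ^ (α - 1) *
        Real.exp (-(c0 * n) * ‖z‖) * (3 * ‖z‖) := by
      apply mul_le_mul _ h3 (norm_nonneg _) (by positivity)
      exact hQm.trans (mul_le_mul_of_nonneg_left hE1 (by positivity))
    have h6 : Q * n * ‖z‖ ^ (α - 1) * Real.exp (-(c0 * n) * ‖z‖) * (3 * ‖z‖) = 3 * Q * Y := by
      rw [hY, Real.rpow_sub hz0, Real.rpow_one]; field_simp
    rw [h6] at h5
    have h7 : 0 ≤ 4 * Q * r' ^ (-(1 + θ')) * (X + Y) := by positivity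
    have h8 : 0 ≤ M * Y := by positivity
    have h9 : 0 ≤ Q * X := by positivity
    linarith
  · -- far
    have h1 := za_W0_entry_bd hα hδ hδ' hG hC0 hC n hz i j
    rw [← hQ] at h1
    have h2 : ‖(-Complex.I * zQm α n z) * zM0 i j‖ ≤ ‖zQm α n z‖ * 1 := by
      rw [norm_mul, norm_mul, norm_neg, Complex.norm_I, one_mul]
      exact mul_le_mul_of_nonneg_left (zM0_bd i j) (norm_nonneg _)
    refine (norm_sub_le _ _).trans ?_
    have h3 : ‖z‖ ^ (α - 1) ≤ r' ^ (-(1 + θ')) * ‖z‖ ^ (α + θ') := by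
      have e : ‖z‖ ^ (α + θ') = ‖z‖ ^ (α - 1) * ‖z‖ ^ (1 + θ') := by
        rw [← Real.rpow_add hz0]; congr 1; ring
      have h4 : 1 ≤ r' ^ (-(1 + θ')) * ‖z‖ ^ (1 + θ') := by
        rw [Real.rpow_neg hr'.le, inv_mul_eq_div, one_le_div (by positivity)]
        exact Real.rpow_le_rpow hr'.le hzr.le (by linarith)
      rw [e]
      have h5 := mul_le_mul_of_nonneg_left h4 (show 0 ≤ ‖z‖ ^ (α - 1) by positivity)
      linarith
    have h4 : Q * n * ‖z‖ ^ (α - 1) * Real.exp (-(c0 * n) * ‖z‖) ≤ Q * r' ^ (-(1 + θ')) * X := by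
      have hnn : (n : ℝ) ≤ n ^ 2 := by nlinarith
      have h5 : Q * n * ‖z‖ ^ (α - 1) ≤ Q * n ^ 2 * (r' ^ (-(1 + θ')) * ‖z‖ ^ (α + θ')) := by
        apply mul_le_mul _ h3 (by positivity) (by positivity)
        exact mul_le_mul_of_nonneg_left hnn hQ0.le
      have h6 := mul_le_mul_of_nonneg_right h5 (Real.exp_pos (-(c0 * n) * ‖z‖)).le
      rw [hX]
      linarith
    have h5 : ‖W0 α n y0 z i j‖ ≤ 3 * (Q * r' ^ (-(1 + θ')) * X) := by
      refine h1.trans ?_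
      have := mul_le_mul_of_nonneg_left hE3 (show 0 ≤ Q * n * ‖z‖ ^ (α - 1) by positivity)
      linarith
    have h6 : ‖zQm α n z‖ ≤ Q * r' ^ (-(1 + θ')) * X := by
      refine hQm.trans ?_
      have := mul_le_mul_of_nonneg_left hE1 (show 0 ≤ Q * n * ‖z‖ ^ (α - 1) by positivity)
      linarith
    have h7 : 0 ≤ 4 * Q * r' ^ (-(1 + θ')) * Y := by positivity
    have h8 : 0 ≤ (3 * M + 3 * Q) * (X + Y) := by positivity
    linarith

theorem zQm_int {α : ℝ} (hα : 1 < α) {n : ℕ} (hn1 : 1 ≤ n) : IntegrableOn (zQm α n) UH := by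
  have hn0 : (0 : ℝ) < n := by exact_mod_cast hn1
  have hα1 : 0 < α - 1 := by linarith
  have hα0 : 0 < α := by linarith
  exact (zF_int hα0 (by positivity)).const_mul _

/-- exact value of the model integral -/
theorem zQm_integral {α : ℝ} (hα : 1 < α) {n : ℕ} (hn1 : 1 ≤ n) :
    ∫ z in UH, zQm α n z = (((-1) ^ n * (Real.pi * bco α * (n : ℝ) ^ (-α)) : ℝ) : ℂ) * Complex.I := by
  have hn0 : (0 : ℝ) < n := by exact_mod_cast hn1
  have hα1 : 0 < α - 1 := by linarith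
  have hα0 : 0 < α := by linarith
  have hpi := Real.pi_pos
  unfold zQm
  rw [integral_const_mul, zF_integral hα0 (by positivity)]
  have e1 : (2 * n * (α / (α - 1)) : ℝ) ^ (-(α + 1)) =
      (n : ℝ) ^ (-α) * (n : ℝ)⁻¹ * ((α - 1) / (2 * α)) ^ (α + 1) := by
    have h1 : (2 * n * (α / (α - 1)) : ℝ) = n * ((α - 1) / (2 * α))⁻¹ := by
      field_simp
    have h2 : (n : ℝ) ^ (-α) * (n : ℝ)⁻¹ = (n : ℝ) ^ (-(α + 1)) := by
      rw [show -(α + 1) = -α - 1 by ring, Real.rpow_sub hn0, Real.rpow_one]; rfl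
    have h3 : (((α - 1) / (2 * α))⁻¹) ^ (-(α + 1)) = ((α - 1) / (2 * α)) ^ (α + 1) := by
      rw [Real.inv_rpow (by positivity), Real.rpow_neg (by positivity), inv_inv]
    rw [h1, Real.mul_rpow hn0.le (by positivity), h2, h3]
  have e2 : (1 - Complex.exp (-(Complex.I * Real.pi * α))) *
      Complex.exp (Complex.I * (Real.pi / 2) * α) =
      2 * Complex.I * ((Real.sin (Real.pi * α / 2) : ℝ) : ℂ) := by
    have h1 : Complex.exp (-(Complex.I * Real.pi * α)) * Complex.exp (Complex.I * (Real.pi / 2) * α)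
        = Complex.exp (-(Complex.I * (Real.pi / 2) * α)) := by
      rw [← Complex.exp_add]; congr 1; ring
    rw [sub_mul, one_mul, h1, Complex.ofReal_sin, Complex.sin]
    push_cast
    have h2 : Complex.I * (Real.pi / 2) * α = Real.pi * α / 2 * Complex.I := by ring
    have h3 : -(Complex.I * (Real.pi / 2) * (α : ℂ)) = -(Real.pi * α / 2) * Complex.I := by ring
    rw [h3, h2]
    linear_combination (-(Complex.exp (-(Real.pi * α / 2) * Complex.I) -
      Complex.exp (Real.pi * α / 2 * Complex.I))) * Complex.I_mul_I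
  rw [e1]
  have e3 : (-1 : ℂ) ^ n * (n * kap α * (1 - Complex.exp (-(Complex.I * Real.pi * α)))) *
      (1 / 2 * Complex.exp (Complex.I * (Real.pi / 2) * α) *
        ((Real.Gamma (α + 1) * ((n : ℝ) ^ (-α) * (n : ℝ)⁻¹ * ((α - 1) / (2 * α)) ^ (α + 1)) : ℝ) : ℂ)) =
      (-1 : ℂ) ^ n * n * kap α * (1 / 2) * ((1 - Complex.exp (-(Complex.I * Real.pi * α))) *
      Complex.exp (Complex.I * (Real.pi / 2) * α)) *
      ((Real.Gamma (α + 1) * ((n : ℝ) ^ (-α) * (n : ℝ)⁻¹ * ((α - 1) / (2 * α)) ^ (α + 1)) : ℝ) : ℂ) := by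
    ring
  rw [e3, e2]
  unfold bco
  have hnc : (n : ℂ) ≠ 0 := by exact_mod_cast hn0.ne'
  have hpc : (Real.pi : ℂ) ≠ 0 := by exact_mod_cast hpi.ne'
  push_cast
  field_simp

theorem za_int_bd {q c0 : ℝ} (hq : 0 ≤ q) (hc : 0 < c0) {n : ℕ} (hn1 : 1 ≤ n) :
    ∫ z in UH, ‖z‖ ^ q * Real.exp (-(c0 * n) * ‖z‖) ≤
      (2 * Real.pi * Real.Gamma (q + 2) * c0 ^ (-(q + 2))) * (n : ℝ) ^ (-(q + 2)) := by
  have hn0 : (0 : ℝ) < n := by exact_mod_cast hn1
  refine (zb_int_UH (q := q) (b := c0 * n) (by linarith) (by positivity)).trans (le_of_eq ?_)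
  rw [Real.mul_rpow hc.le hn0.le]
  ring

theorem zero_a_of {α δ y0 c : ℝ} (hα : 1 < α) (hδ : 0 < δ) (hδ' : δ < 1 / 2)
    (hG : Geo α δ y0 c) (hg : ContinuousOn (gfun α) UH) {θ C r : ℝ} (hN : ZNear α θ C r) :
    ∃ θ C : ℝ, 0 < θ ∧ ∀ n : ℕ, 1 ≤ n →
      nm ((2 / Real.pi : ℂ) • reM (IU (W0 α n y0)) -
        (((-1) ^ n * bco α * (n : ℝ) ^ (-α) : ℝ) : ℂ) • (!![0, 1; 1, 0] : Mat2))
        ≤ C * (n : ℝ) ^ (-α - θ) := by
  obtain ⟨θ', c0, M, hθ', hθ1, hc0, hM, hd⟩ := za_diff_bd hα hδ hδ' hG hN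
  have hα0 : 0 < α := by linarith
  have hpi := Real.pi_pos
  set C1 := 2 * Real.pi * Real.Gamma (α + θ' + 2) * c0 ^ (-(α + θ' + 2)) with hC1
  set C2 := 2 * Real.pi * Real.Gamma (α + 2) * c0 ^ (-(α + 2)) with hC2
  have hC10 : 0 < C1 := by
    have := Real.Gamma_pos_of_pos (show 0 < α + θ' + 2 by linarith)
    positivity
  have hC20 : 0 < C2 := by
    have := Real.Gamma_pos_of_pos (show 0 < α + 2 by linarith)
    positivity
  refine ⟨θ', 4 * (2 / Real.pi * (M * (C1 + C2))), hθ', fun n hn1 => ?_⟩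
  have hn0 : (0 : ℝ) < n := by exact_mod_cast hn1
  have hn1' : (1 : ℝ) ≤ n := by exact_mod_cast hn1
  -- integral of the difference
  have hI : ∀ i j : Fin 2, ‖(∫ z in UH, W0 α n y0 z i j) -
      (-Complex.I * ∫ z in UH, zQm α n z) * zM0 i j‖ ≤ M * (C1 + C2) * (n : ℝ) ^ (-α - θ') := by
    intro i j
    have e1 : (-Complex.I * ∫ z in UH, zQm α n z) * zM0 i j =
        ∫ z in UH, (-Complex.I * zQm α n z) * zM0 i j := by
      rw [integral_mul_const, integral_const_mul]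
    rw [e1, ← integral_sub (za_W0_int hα hδ hδ' hG hg hn1 i j)
      (((zQm_int hα hn1).const_mul _).mul_const _)]
    have i1 := ((zb_int_radial (q := α + θ') (b := c0 * n) (by linarith) (by positivity)).1).integrableOn
      (s := UH)
    have i2 := ((zb_int_radial (q := α) (b := c0 * n) (by linarith) (by positivity)).1).integrableOn
      (s := UH)
    have hb : ∀ᵐ z ∂(volume.restrict UH), ‖W0 α n y0 z i j - (-Complex.I * zQm α n z) * zM0 i j‖ ≤
        M * (n ^ 2 * (‖z‖ ^ (α + θ') * Real.exp (-(c0 * n) * ‖z‖)) +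
          n * (‖z‖ ^ α * Real.exp (-(c0 * n) * ‖z‖))) := by
      filter_upwards [ae_restrict_mem zb_meas_UH] with z hz
      refine (hd n hn1 z hz i j).trans (le_of_eq ?_)
      ring
    have j1 : Integrable (fun z : ℂ => (n : ℝ) ^ 2 * (‖z‖ ^ (α + θ') * Real.exp (-(c0 * n) * ‖z‖)))
      (volume.restrict UH) := i1.const_mul _
    have j2 : Integrable (fun z : ℂ => (n : ℝ) * (‖z‖ ^ α * Real.exp (-(c0 * n) * ‖z‖)))
      (volume.restrict UH) := i2.const_mul _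
    have j3 : Integrable (fun z : ℂ => M * ((n : ℝ) ^ 2 * (‖z‖ ^ (α + θ') *
      Real.exp (-(c0 * n) * ‖z‖)) + n * (‖z‖ ^ α * Real.exp (-(c0 * n) * ‖z‖))))
      (volume.restrict UH) := (j1.add j2).const_mul M
    refine (norm_integral_le_of_norm_le j3 hb).trans ?_
    rw [integral_const_mul, integral_add j1 j2, integral_const_mul, integral_const_mul]
    have b1 := za_int_bd (q := α + θ') (c0 := c0) (by linarith) hc0 hn1
    have b2 := za_int_bd (q := α) (c0 := c0) (by linarith) hc0 hn1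
    rw [← hC1] at b1
    rw [← hC2] at b2
    have p1 : (n : ℝ) ^ 2 * (n : ℝ) ^ (-(α + θ' + 2)) = (n : ℝ) ^ (-α - θ') := by
      rw [← Real.rpow_natCast (n : ℝ) 2, ← Real.rpow_add hn0]; congr 1; push_cast; ring
    have p2 : (n : ℝ) * (n : ℝ) ^ (-(α + 2)) ≤ (n : ℝ) ^ (-α - θ') := by
      nth_rewrite 1 [← Real.rpow_one (n : ℝ)]
      rw [← Real.rpow_add hn0]
      exact Real.rpow_le_rpow_of_exponent_le hn1' (by linarith)
    have q1 := mul_le_mul_of_nonneg_left b1 (show 0 ≤ (n : ℝ) ^ 2 by positivity)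
    have q2 := mul_le_mul_of_nonneg_left b2 hn0.le
    have q3 : (n : ℝ) ^ 2 * (C1 * (n : ℝ) ^ (-(α + θ' + 2))) = C1 * (n : ℝ) ^ (-α - θ') := by
      rw [← p1]; ring
    have q4 : (n : ℝ) * (C2 * (n : ℝ) ^ (-(α + 2))) ≤ C2 * (n : ℝ) ^ (-α - θ') := by
      have := mul_le_mul_of_nonneg_left p2 hC20.le
      linarith
    rw [q3] at q1
    have q5 := mul_le_mul_of_nonneg_left (add_le_add q1 (q2.trans q4)) hM
    linarith
  rw [zQm_integral hα hn1] at hI
  -- entries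
  have hentry : ∀ i j : Fin 2, ‖((2 / Real.pi : ℂ) • reM (IU (W0 α n y0)) -
        (((-1) ^ n * bco α * (n : ℝ) ^ (-α) : ℝ) : ℂ) • (!![0, 1; 1, 0] : Mat2)) i j‖ ≤
      2 / Real.pi * (M * (C1 + C2) * (n : ℝ) ^ (-α - θ')) := by
    intro i j
    have h := hI i j
    set T : ℂ := ∫ z in UH, W0 α n y0 z i j with hT
    set β : ℝ := (-1) ^ n * (Real.pi * bco α * (n : ℝ) ^ (-α)) with hβ
    have e1 : ((2 / Real.pi : ℂ) • reM (IU (W0 α n y0)) -
        (((-1) ^ n * bco α * (n : ℝ) ^ (-α) : ℝ) : ℂ) • (!![0, 1; 1, 0] : Mat2)) i j =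
        ((2 / Real.pi * (T - (-Complex.I * (β * Complex.I)) * zM0 i j).re : ℝ) : ℂ) := by
      have hb1 : (β : ℝ) = Real.pi * ((-1) ^ n * bco α * (n : ℝ) ^ (-α)) := by rw [hβ]; ring
      have hre : IU (W0 α n y0) i j = T := rfl
      have hII : -Complex.I * ((β : ℂ) * Complex.I) = β := by
        linear_combination (-(β : ℂ)) * Complex.I_mul_I
      rw [hII, Complex.sub_re, Complex.re_ofReal_mul]
      rw [Matrix.sub_apply, Matrix.smul_apply, Matrix.smul_apply]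
      have hr2 : reM (IU (W0 α n y0)) i j = ((T.re : ℝ) : ℂ) := by
        rw [← hre]; rfl
      rw [hr2, smul_eq_mul, smul_eq_mul]
      have hP : ((!![0, 1; 1, 0] : Mat2) i j) = ((2 * (zM0 i j).re : ℝ) : ℂ) := by
        fin_cases i <;> fin_cases j <;> simp [zM0]
      rw [hP, hb1]
      push_cast
      field_simp
    rw [e1, Complex.norm_real, Real.norm_eq_abs, abs_mul, abs_of_pos (by positivity)]
    apply mul_le_mul_of_nonneg_left _ (by positivity)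
    exact (Complex.abs_re_le_norm _).trans h
  unfold nm
  have a := hentry 0 0
  have b := hentry 0 1
  have c := hentry 1 0
  have d := hentry 1 1
  linarith

theorem zero_a (α δ y0 c : ℝ) (hα : 1 < α) (hδ : 0 < δ) (hδ' : δ < 1 / 2)
    (hG : Geo α δ y0 c) : ∃ θ C : ℝ, 0 < θ ∧ ∀ n : ℕ, 1 ≤ n →
      nm ((2 / Real.pi : ℂ) • reM (IU (W0 α n y0)) -
        (((-1) ^ n * bco α * (n : ℝ) ^ (-α) : ℝ) : ℂ) • (!![0, 1; 1, 0] : Mat2))
        ≤ C * (n : ℝ) ^ (-α - θ) := by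
  obtain ⟨θ, C, r, hθ, hr, hN⟩ := near_zero α hα
  exact zero_a_of hα hδ hδ' hG
    (fun z hz => (gfun_hasDerivAt α hα z hz).continuousAt.continuousWithinAt) ⟨hθ, hr, hN⟩

end Pool.Agent.Freud
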