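import Pool.Agent.Freud.Glue
import Pool.Agent.Freud.PertA
import Pool.Agent.Freud.ZeroA
import Pool.Agent.Freud.FreudOP

/-!
The leading oscillating term for every real `α > 1`.
-/

set_option autoImplicit false

open MeasureTheory Filter Topology Asymptotics

namespace Pool.Agent.Freud

/-- Truncated square root of a polynomial. -/
theorem poly_sqrt (F : Polynomial ℝ) (h0 : F.coeff 0 = 1) (K : ℕ) :
    ∃ S : Polynomial ℝ, S.coeff 0 = 1 ∧ Polynomial.X ^ (K + 1) ∣ S ^ 2 - F := by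
  induction K with
  | zero =>
    refine ⟨1, by simp, ?_⟩
    rw [zero_add, pow_one, Polynomial.X_dvd_iff]
    simp [h0]
  | succ K ih =>
    obtain ⟨S, hS, G, hG⟩ := ih
    refine ⟨S - Polynomial.C (G.coeff 0 / 2) * Polynomial.X ^ (K + 1), ?_, ?_⟩
    · simp [hS]
    · have e : (S - Polynomial.C (G.coeff 0 / 2) * Polynomial.X ^ (K + 1)) ^ 2 - F =
          Polynomial.X ^ (K + 1) * (G - 2 * Polynomial.C (G.coeff 0 / 2) * S +
            Polynomial.C (G.coeff 0 / 2) ^ 2 * Polynomial.X ^ (K + 1)) := by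
        have : F = S ^ 2 - Polynomial.X ^ (K + 1) * G := by rw [← hG]; ring
        rw [this]
        ring
      rw [e, pow_succ (Polynomial.X) (K + 1)]
      apply mul_dvd_mul_left
      rw [Polynomial.X_dvd_iff]
      simp [hS, Polynomial.mul_coeff_zero]
      ring

/-- A polynomial with vanishing low coefficients is small at `1 / n`. -/
theorem poly_small (G : Polynomial ℝ) (K : ℕ) :
    ∃ C : ℝ, 0 ≤ C ∧ ∀ n : ℕ, 1 ≤ n →
      |((Polynomial.X ^ K * G).eval ((n : ℝ)⁻¹))| ≤ C * ((n : ℝ)⁻¹) ^ K := by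
  have hc : IsCompact (Set.Icc (0 : ℝ) 1) := isCompact_Icc
  obtain ⟨C, hC⟩ := hc.exists_bound_of_continuousOn (G.continuous.continuousOn)
  refine ⟨|C|, abs_nonneg _, fun n hn => ?_⟩
  have hn' : (1 : ℝ) ≤ n := by exact_mod_cast hn
  have hmem : ((n : ℝ)⁻¹) ∈ Set.Icc (0 : ℝ) 1 := ⟨by positivity, inv_le_one_of_one_le₀ hn'⟩
  have h1 := hC _ hmem
  rw [Real.norm_eq_abs] at h1
  rw [Polynomial.eval_mul, Polynomial.eval_pow, Polynomial.eval_X, abs_mul, mul_comm]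
  have : |((n : ℝ)⁻¹) ^ K| = ((n : ℝ)⁻¹) ^ K := abs_of_nonneg (by positivity)
  rw [this]
  exact mul_le_mul_of_nonneg_right (h1.trans (le_abs_self C)) (by positivity)

/-- Any polynomial is bounded on `[0,1]`. -/
theorem poly_bdd (G : Polynomial ℝ) : ∃ C : ℝ, 0 ≤ C ∧ ∀ n : ℕ, 1 ≤ n →
    |G.eval ((n : ℝ)⁻¹)| ≤ C := by
  obtain ⟨C, hC, h⟩ := poly_small G 0
  refine ⟨C, hC, fun n hn => ?_⟩
  simpa using h n hn

/-- The polynomial with the given coefficients and zero constant term. -/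
noncomputable def polyOf (K : ℕ) (d : ℕ → ℝ) : Polynomial ℝ :=
  ∑ k ∈ Finset.range K, Polynomial.C (d k) * Polynomial.X ^ (k + 1)

theorem polyOf_coeff_zero (K : ℕ) (d : ℕ → ℝ) : (polyOf K d).coeff 0 = 0 := by
  unfold polyOf
  rw [Polynomial.finsetSum_coeff]
  apply Finset.sum_eq_zero
  intro k _
  simp [Polynomial.coeff_X_pow]

theorem polyOf_eval (K : ℕ) (d : ℕ → ℝ) (x : ℝ) :
    (polyOf K d).eval x = ∑ k ∈ Finset.range K, d k * x ^ (k + 1) := by
  unfold polyOf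
  rw [Polynomial.eval_finsetSum]
  simp

theorem reM_entry (A : Mat2) (i j : Fin 2) :
    ((2 / Real.pi : ℂ) • reM A) i j = (((2 / Real.pi) * (A i j).re : ℝ) : ℂ) := by
  simp [reM]

theorem freud_uv (α : ℝ) (hα : 1 < α) (p : ℕ → Polynomial ℝ) (a : ℕ → ℝ) (h : IsFreud α p a) :
    ∃ (U V : Polynomial ℝ) (θ B : ℝ) (n1 : ℕ), 0 < θ ∧ 1 ≤ n1 ∧ U.coeff 0 = 0 ∧ V.coeff 0 = 0 ∧
      ∀ n : ℕ, n1 ≤ n → ∃ u v : ℝ, (rfreud α a n) ^ 2 = (1 + 2 * u) * (1 + 2 * v) ∧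
        |u - U.eval ((n : ℝ)⁻¹) - (-1) ^ n * bco α * (n : ℝ) ^ (-α)| ≤ B * (n : ℝ) ^ (-α - θ) ∧
        |v - V.eval ((n : ℝ)⁻¹) - (-1) ^ n * bco α * (n : ℝ) ^ (-α)| ≤ B * (n : ℝ) ^ (-α - θ) := by
  obtain ⟨δ, y0, c, r, c', C, n0, A, w, We, Wx, hδ, hδ', hG, hA⟩ := freud_asm α hα
  have hn0 := hA.n0_pos
  -- choose the solutions
  have hex : ∀ n : ℕ, ∃ R : ℂ → Mat2, n0 ≤ n → (ContinuousOn R UH ∧
      (∃ B : ℝ, ∀ z ∈ UH, nm (R z) ≤ B) ∧
      (∀ z ∈ UH, R z = 1 + KK (fun s => R s * (We n s + W0 α n y0 s + Wx n s)) z) ∧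
      (rfreud α a n) ^ 2 = 4 * (
        (1 / 2 + (2 / Real.pi) * (IU (fun s => R s * (We n s + W0 α n y0 s + Wx n s)) 0 1).re) *
        (1 / 2 + (2 / Real.pi) * (IU (fun s => R s * (We n s + W0 α n y0 s + Wx n s)) 1 0).re))) := by
    intro n
    by_cases hn : n0 ≤ n
    · obtain ⟨_, P, Q, hP, hQ, hOP, hr⟩ := opdata_of_freud α hα p a h n (hn0.trans hn)
      obtain ⟨R, h1, h2, h3, h4⟩ := hA.sol n hn P Q hP hQ hOP
      refine ⟨R, fun _ => ⟨h1, h2, h3, ?_⟩⟩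
      rw [hr, h4]
    · exact ⟨fun _ => 0, fun h => absurd h hn⟩
  choose R hR using hex
  obtain ⟨D, hD⟩ := perturb_a α y0 r c' C hα n0 A w We Wx hA R (fun n hn => (hR n hn).1)
    (fun n hn => (hR n hn).2.1) (fun n hn => (hR n hn).2.2.1)
  obtain ⟨K, hK⟩ := exists_nat_ge (α + 1)
  obtain ⟨θ1, B1, hθ1, n1, hp⟩ := hD K hK
  obtain ⟨θ2, B2, hθ2, hz⟩ := zero_a α δ y0 c hα hδ hδ' hG
  refine ⟨polyOf K (fun k => (D k 0 1).re), polyOf K (fun k => (D k 1 0).re), min θ1 θ2,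
    |B1| + |B2|, max (max n0 n1) 1, lt_min hθ1 hθ2, le_max_right _ _, polyOf_coeff_zero _ _,
    polyOf_coeff_zero _ _, fun n hn => ?_⟩
  have hn0' : n0 ≤ n := (le_max_left _ _).trans ((le_max_left _ _).trans hn)
  have hn1' : n1 ≤ n := (le_max_right _ _).trans ((le_max_left _ _).trans hn)
  have hn1 : 1 ≤ n := (le_max_right _ _).trans hn
  have hnR : (1 : ℝ) ≤ n := by exact_mod_cast hn1
  obtain ⟨_, _, _, hr⟩ := hR n hn0'
  set M := IU (fun s => R n s * (We n s + W0 α n y0 s + Wx n s)) with hM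
  refine ⟨(2 / Real.pi) * (M 0 1).re, (2 / Real.pi) * (M 1 0).re, ?_, ?_⟩
  · rw [hr]; ring
  have hpn := hp n hn1'
  have hzn := hz n hn1
  have hpow1 : (n : ℝ) ^ (-α - θ1) ≤ (n : ℝ) ^ (-α - min θ1 θ2) :=
    Real.rpow_le_rpow_of_exponent_le hnR (by linarith [min_le_left θ1 θ2])
  have hpow2 : (n : ℝ) ^ (-α - θ2) ≤ (n : ℝ) ^ (-α - min θ1 θ2) :=
    Real.rpow_le_rpow_of_exponent_le hnR (by linarith [min_le_right θ1 θ2])
  have key : ∀ i j : Fin 2, (!![0, 1; 1, 0] : Mat2) i j = 1 →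
      |(2 / Real.pi) * (M i j).re - (polyOf K (fun k => (D k i j).re)).eval ((n : ℝ)⁻¹)
        - (-1) ^ n * bco α * (n : ℝ) ^ (-α)| ≤
        (|B1| + |B2|) * (n : ℝ) ^ (-α - min θ1 θ2) := by
    intro i j hij
    have e1 := (norm_le_nm _ i j).trans hpn
    have e2 := (norm_le_nm _ i j).trans hzn
    simp only [Matrix.sub_apply, Matrix.sum_apply, Matrix.smul_apply, smul_eq_mul, hij] at e1 e2
    have f1 : ∀ X : Mat2, (2 / Real.pi : ℂ) * reM X i j = (((2 / Real.pi) * (X i j).re : ℝ) : ℂ) := by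
      intro X
      have := reM_entry X i j
      simpa using this
    rw [f1, f1] at e1
    rw [f1] at e2
    have g1 := (Complex.abs_re_le_norm _).trans e1
    have g2 := (Complex.abs_re_le_norm _).trans e2
    have hsum : (∑ k ∈ Finset.range K, (((n : ℂ) ^ (k + 1))⁻¹) * D k i j).re =
        (polyOf K (fun k => (D k i j).re)).eval ((n : ℝ)⁻¹) := by
      rw [polyOf_eval, Complex.re_sum]
      apply Finset.sum_congr rfl
      intro k _
      have : (((n : ℂ) ^ (k + 1))⁻¹) = ((((n : ℝ)⁻¹) ^ (k + 1) : ℝ) : ℂ) := by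
        push_cast
        rw [inv_pow]
      rw [this, Complex.re_ofReal_mul]
      ring
    rw [Complex.sub_re, Complex.sub_re, Complex.ofReal_re, Complex.ofReal_re, hsum] at g1
    rw [Complex.sub_re, Complex.ofReal_re, mul_one, Complex.ofReal_re] at g2
    have g1' : |(2 / Real.pi) * (M i j).re - (polyOf K (fun k => (D k i j).re)).eval ((n : ℝ)⁻¹) -
        (2 / Real.pi) * (IU (W0 α n y0) i j).re| ≤ |B1| * (n : ℝ) ^ (-α - min θ1 θ2) := by
      refine g1.trans ?_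
      calc B1 * (n : ℝ) ^ (-α - θ1) ≤ |B1| * (n : ℝ) ^ (-α - θ1) := by
            gcongr; exact le_abs_self _
        _ ≤ _ := by gcongr
    have g2' : |(2 / Real.pi) * (IU (W0 α n y0) i j).re - (-1) ^ n * bco α * (n : ℝ) ^ (-α)| ≤
        |B2| * (n : ℝ) ^ (-α - min θ1 θ2) := by
      refine g2.trans ?_
      calc B2 * (n : ℝ) ^ (-α - θ2) ≤ |B2| * (n : ℝ) ^ (-α - θ2) := by
            gcongr; exact le_abs_self _
        _ ≤ _ := by gcongr
    have := abs_add_le ((2 / Real.pi) * (M i j).re -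
        (polyOf K (fun k => (D k i j).re)).eval ((n : ℝ)⁻¹) -
        (2 / Real.pi) * (IU (W0 α n y0) i j).re)
        ((2 / Real.pi) * (IU (W0 α n y0) i j).re - (-1) ^ n * bco α * (n : ℝ) ^ (-α))
    have e : (2 / Real.pi) * (M i j).re -
        (polyOf K (fun k => (D k i j).re)).eval ((n : ℝ)⁻¹) -
        (2 / Real.pi) * (IU (W0 α n y0) i j).re +
        ((2 / Real.pi) * (IU (W0 α n y0) i j).re - (-1) ^ n * bco α * (n : ℝ) ^ (-α)) =
        (2 / Real.pi) * (M i j).re - (polyOf K (fun k => (D k i j).re)).eval ((n : ℝ)⁻¹)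
        - (-1) ^ n * bco α * (n : ℝ) ^ (-α) := by ring
    rw [e] at this
    linarith
  exact ⟨key 0 1 (by simp), key 1 0 (by simp)⟩

/-- The conjectured coefficient. -/
noncomputable def B0c (α : ℝ) : ℝ :=
  (α - 1) * Real.sin (Real.pi * α / 2) * (1 - 1 / α) ^ α * Real.Gamma (α / 2) ^ 2 / (2 * Real.pi)

theorem npow_O {a b : ℝ} (h : a ≤ b) :
    (fun n : ℕ => (n : ℝ) ^ a) =O[atTop] (fun n : ℕ => (n : ℝ) ^ b) := by
  apply IsBigO.of_bound 1
  filter_upwards [eventually_ge_atTop 1] with n hn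
  have hn' : (1 : ℝ) ≤ n := by exact_mod_cast hn
  rw [one_mul, Real.norm_eq_abs, Real.norm_eq_abs, abs_of_nonneg (by positivity),
    abs_of_nonneg (by positivity)]
  exact Real.rpow_le_rpow_of_exponent_le hn' h

theorem npow_one_O {b : ℝ} (h : b ≤ 0) :
    (fun n : ℕ => (n : ℝ) ^ b) =O[atTop] (fun _ : ℕ => (1 : ℝ)) := by
  have := npow_O h
  refine this.congr_right fun n => ?_
  simp

theorem poly_O (G : Polynomial ℝ) :
    (fun n : ℕ => G.eval ((n : ℝ)⁻¹)) =O[atTop] (fun _ : ℕ => (1 : ℝ)) := by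
  obtain ⟨C, _, hC⟩ := poly_bdd G
  apply IsBigO.of_bound C
  filter_upwards [eventually_ge_atTop 1] with n hn
  simpa using hC n hn

theorem poly_O' (G : Polynomial ℝ) (h : G.coeff 0 = 0) :
    (fun n : ℕ => G.eval ((n : ℝ)⁻¹)) =O[atTop] (fun n : ℕ => (n : ℝ) ^ (-1 : ℝ)) := by
  obtain ⟨G', hG'⟩ := Polynomial.X_dvd_iff.mpr h
  obtain ⟨C, hC0, hC⟩ := poly_small G' 1
  apply IsBigO.of_bound C
  filter_upwards [eventually_ge_atTop 1] with n hn
  have := hC n hn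
  rw [pow_one, ← hG', pow_one] at this
  rw [Real.norm_eq_abs, Real.rpow_neg_one, Real.norm_eq_abs, abs_of_nonneg (by positivity :
    (0 : ℝ) ≤ (n : ℝ)⁻¹)]
  exact this

theorem poly_O_pow (G : Polynomial ℝ) (K : ℕ) {b : ℝ} (hb : -(K : ℝ) ≤ b) :
    (fun n : ℕ => (Polynomial.X ^ K * G).eval ((n : ℝ)⁻¹)) =O[atTop]
      (fun n : ℕ => (n : ℝ) ^ b) := by
  obtain ⟨C, hC0, hC⟩ := poly_small G K
  have h1 : (fun n : ℕ => (Polynomial.X ^ K * G).eval ((n : ℝ)⁻¹)) =O[atTop]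
      (fun n : ℕ => (n : ℝ) ^ (-(K : ℝ))) := by
    apply IsBigO.of_bound C
    filter_upwards [eventually_ge_atTop 1] with n hn
    have := hC n hn
    rw [Real.norm_eq_abs, Real.norm_eq_abs, abs_of_nonneg (by positivity :
      (0 : ℝ) ≤ (n : ℝ) ^ (-(K : ℝ)))]
    rw [Real.rpow_neg (by positivity), Real.rpow_natCast, ← inv_pow]
    exact this
  exact h1.trans (npow_O hb)

theorem poly_lim (G : Polynomial ℝ) :
    Tendsto (fun n : ℕ => G.eval ((n : ℝ)⁻¹)) atTop (𝓝 (G.coeff 0)) := by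
  have h1 : Tendsto (fun n : ℕ => ((n : ℝ)⁻¹)) atTop (𝓝 0) := tendsto_inv_atTop_nhds_zero_nat
  have h2 := (G.continuous.tendsto 0).comp h1
  rw [Polynomial.coeff_zero_eq_eval_zero]
  exact h2

/-- Algebraic part: from an expansion of `r ^ 2 = (1 + 2 u) (1 + 2 v)` to one of `r`. -/
theorem sqrt_expansion (α : ℝ) (hα : 1 < α) (r u v : ℕ → ℝ) (b θ : ℝ) (hθ : 0 < θ) (hθ1 : θ ≤ 1)
    (U V : Polynomial ℝ) (hU : U.coeff 0 = 0) (hV : V.coeff 0 = 0)
    (hr : ∀ᶠ n in atTop, 0 ≤ r n) (hruv : ∀ᶠ n in atTop, (r n) ^ 2 = (1 + 2 * u n) * (1 + 2 * v n))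
    (hu : (fun n : ℕ => u n - U.eval ((n : ℝ)⁻¹) - (-1) ^ n * b * (n : ℝ) ^ (-α)) =O[atTop]
      (fun n : ℕ => (n : ℝ) ^ (-α - θ)))
    (hv : (fun n : ℕ => v n - V.eval ((n : ℝ)⁻¹) - (-1) ^ n * b * (n : ℝ) ^ (-α)) =O[atTop]
      (fun n : ℕ => (n : ℝ) ^ (-α - θ))) :
    ∃ S : Polynomial ℝ, S.coeff 0 = 1 ∧
      (fun n : ℕ => r n - S.eval ((n : ℝ)⁻¹) - (-1) ^ n * (2 * b) * (n : ℝ) ^ (-α)) =O[atTop]
      (fun n : ℕ => (n : ℝ) ^ (-α - θ)) := by
  set F : Polynomial ℝ := (1 + 2 * U) * (1 + 2 * V) with hF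
  have hF0 : F.coeff 0 = 1 := by
    rw [hF]
    simp [Polynomial.mul_coeff_zero, hU, hV]
  obtain ⟨K, hK⟩ := exists_nat_ge (α + θ)
  obtain ⟨S, hS, G, hG⟩ := poly_sqrt F hF0 K
  refine ⟨S, hS, ?_⟩
  set g : ℕ → ℝ := fun n => (n : ℝ) ^ (-α - θ) with hg
  set t : ℕ → ℝ := fun n => (-1) ^ n * b * (n : ℝ) ^ (-α) with ht
  have htO : t =O[atTop] (fun n : ℕ => (n : ℝ) ^ (-α)) := by
    apply IsBigO.of_bound |b|
    refine Eventually.of_forall fun n => ?_
    simp [ht]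
  have htO1 : t =O[atTop] (fun _ : ℕ => (1 : ℝ)) := htO.trans (npow_one_O (by linarith))
  have hgO1 : g =O[atTop] (fun _ : ℕ => (1 : ℝ)) := npow_one_O (by linarith)
  set eu : ℕ → ℝ := fun n => u n - U.eval ((n : ℝ)⁻¹) - t n with heu
  set ev : ℕ → ℝ := fun n => v n - V.eval ((n : ℝ)⁻¹) - t n with hev
  have heuO : eu =O[atTop] g := hu
  have hevO : ev =O[atTop] g := hv
  have one : ∀ {f h : ℕ → ℝ}, f =O[atTop] g → h =O[atTop] (fun _ : ℕ => (1 : ℝ)) →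
      (fun n => f n * h n) =O[atTop] g := by
    intro f h hf hh
    have := hf.mul hh
    simpa using this
  -- the main difference
  have hdiff : (fun n : ℕ => (r n) ^ 2 - (S.eval ((n : ℝ)⁻¹) + 2 * t n) ^ 2) =O[atTop] g := by
    have e : (fun n : ℕ => (r n) ^ 2 - (S.eval ((n : ℝ)⁻¹) + 2 * t n) ^ 2) =ᶠ[atTop]
        fun n : ℕ => -((Polynomial.X ^ (K + 1) * G).eval ((n : ℝ)⁻¹)) +
          t n * ((4 + 4 * U + 4 * V - 4 * S : Polynomial ℝ).eval ((n : ℝ)⁻¹)) +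
          eu n * ((2 + 4 * V : Polynomial ℝ).eval ((n : ℝ)⁻¹)) +
          ev n * ((2 + 4 * U : Polynomial ℝ).eval ((n : ℝ)⁻¹)) +
          4 * (eu n * t n) + 4 * (ev n * t n) + 4 * (eu n * ev n) := by
      filter_upwards [hruv] with n hn
      rw [← hG, hn]
      have e1 : u n = U.eval ((n : ℝ)⁻¹) + t n + eu n := by simp [heu]
      have e2 : v n = V.eval ((n : ℝ)⁻¹) + t n + ev n := by simp [hev]
      rw [e1, e2]
      simp only [hF, Polynomial.eval_add, Polynomial.eval_sub, Polynomial.eval_mul,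
        Polynomial.eval_pow, Polynomial.eval_one, Polynomial.eval_ofNat]
      ring
    refine IsBigO.congr' ?_ e.symm EventuallyEq.rfl
    have a1 : (fun n : ℕ => -((Polynomial.X ^ (K + 1) * G).eval ((n : ℝ)⁻¹))) =O[atTop] g := by
      refine (poly_O_pow G (K + 1) ?_).neg_left
      push_cast
      linarith
    have a2 : (fun n : ℕ => t n * ((4 + 4 * U + 4 * V - 4 * S : Polynomial ℝ).eval ((n : ℝ)⁻¹)))
        =O[atTop] g := by
      have h0 : (4 + 4 * U + 4 * V - 4 * S : Polynomial ℝ).coeff 0 = 0 := by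
        simp [hU, hV, hS]
      have h1 := htO.mul (poly_O' _ h0)
      refine h1.trans ?_
      have h2 : (fun n : ℕ => (n : ℝ) ^ (-α) * (n : ℝ) ^ (-1 : ℝ)) =ᶠ[atTop]
          fun n : ℕ => (n : ℝ) ^ (-α - 1) := by
        filter_upwards [eventually_ge_atTop 1] with n hn
        have hn' : (0 : ℝ) < n := by exact_mod_cast hn
        rw [← Real.rpow_add hn']
        congr 1
      exact h2.isBigO.trans (npow_O (by linarith))
    have a3 := one heuO (poly_O (2 + 4 * V))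
    have a4 := one hevO (poly_O (2 + 4 * U))
    have a5 := (one heuO htO1).const_mul_left 4
    have a6 := (one hevO htO1).const_mul_left 4
    have a7 := (one heuO (hevO.trans hgO1)).const_mul_left 4
    exact (((((a1.add a2).add a3).add a4).add a5).add a6).add a7
  -- the sum is bounded below
  have hlim : Tendsto (fun n : ℕ => S.eval ((n : ℝ)⁻¹) + 2 * t n) atTop (𝓝 1) := by
    have h1 := poly_lim S
    rw [hS] at h1
    have h2 : Tendsto t atTop (𝓝 0) := by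
      refine htO.trans_tendsto ?_
      exact (tendsto_rpow_neg_atTop (by linarith : 0 < α)).comp tendsto_natCast_atTop_atTop
    have h3 := h1.add (h2.const_mul 2)
    simpa using h3
  have hlow : ∀ᶠ n : ℕ in atTop, 1 / 2 ≤ S.eval ((n : ℝ)⁻¹) + 2 * t n :=
    (hlim.eventually (lt_mem_nhds (by norm_num : (1 / 2 : ℝ) < 1))).mono fun n hn => hn.le
  have hfin : (fun n : ℕ => r n - S.eval ((n : ℝ)⁻¹) - (-1) ^ n * (2 * b) * (n : ℝ) ^ (-α))
      =O[atTop] (fun n : ℕ => (r n) ^ 2 - (S.eval ((n : ℝ)⁻¹) + 2 * t n) ^ 2) := by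
    apply IsBigO.of_bound 2
    filter_upwards [hlow, hr] with n hn hrn
    have e : r n ^ 2 - (S.eval ((n : ℝ)⁻¹) + 2 * t n) ^ 2 =
        (r n - (S.eval ((n : ℝ)⁻¹) + 2 * t n)) * (r n + (S.eval ((n : ℝ)⁻¹) + 2 * t n)) := by ring
    have e2 : r n - S.eval ((n : ℝ)⁻¹) - (-1) ^ n * (2 * b) * (n : ℝ) ^ (-α) =
        r n - (S.eval ((n : ℝ)⁻¹) + 2 * t n) := by
      simp only [ht]
      ring
    rw [e2, e, norm_mul]
    have h1 : 1 / 2 ≤ ‖r n + (S.eval ((n : ℝ)⁻¹) + 2 * t n)‖ := by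
      rw [Real.norm_eq_abs, abs_of_nonneg (by linarith)]
      linarith
    nlinarith [norm_nonneg (r n - (S.eval ((n : ℝ)⁻¹) + 2 * t n))]
  exact hfin.trans hdiff

/-- The leading oscillating term. -/
theorem lead_poly (α : ℝ) (hα : 1 < α) (p : ℕ → Polynomial ℝ) (a : ℕ → ℝ) (h : IsFreud α p a) :
    ∃ (S : Polynomial ℝ) (θ : ℝ), 0 < θ ∧ θ ≤ 1 ∧ S.coeff 0 = 1 ∧
      (fun n : ℕ => rfreud α a n - S.eval ((n : ℝ)⁻¹) - (-1) ^ n * B0c α * (n : ℝ) ^ (-α))
        =O[atTop] (fun n : ℕ => (n : ℝ) ^ (-α - θ)) := by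
  obtain ⟨U, V, θ, B, n1, hθ, hn1, hU, hV, huv⟩ := freud_uv α hα p a h
  have hex : ∀ n : ℕ, ∃ u v : ℝ, n1 ≤ n → ((rfreud α a n) ^ 2 = (1 + 2 * u) * (1 + 2 * v) ∧
        |u - U.eval ((n : ℝ)⁻¹) - (-1) ^ n * bco α * (n : ℝ) ^ (-α)| ≤ B * (n : ℝ) ^ (-α - θ) ∧
        |v - V.eval ((n : ℝ)⁻¹) - (-1) ^ n * bco α * (n : ℝ) ^ (-α)| ≤ B * (n : ℝ) ^ (-α - θ)) := by
    intro n
    by_cases hn : n1 ≤ n
    · obtain ⟨u, v, h⟩ := huv n hn
      exact ⟨u, v, fun _ => h⟩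
    · exact ⟨0, 0, fun h => absurd h hn⟩
  choose u v huv using hex
  have hr : ∀ᶠ n in atTop, 0 ≤ rfreud α a n := by
    filter_upwards [eventually_ge_atTop 1] with n hn
    have := (opdata_of_freud α hα p a h n hn).1
    unfold rfreud
    have h2 : 0 ≤ Cfreud α / n := by
      unfold Cfreud
      have g1 := Real.Gamma_pos_of_pos (by linarith : 0 < (α + 1) / 2)
      have g2 := Real.Gamma_pos_of_pos (by linarith : 0 < α / 2)
      positivity
    exact mul_nonneg this.le (Real.rpow_nonneg h2 _)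
  have hO : ∀ (f : ℕ → ℝ), (∀ n, n1 ≤ n → |f n| ≤ B * (n : ℝ) ^ (-α - θ)) →
      f =O[atTop] (fun n : ℕ => (n : ℝ) ^ (-α - min θ 1)) := by
    intro f hf
    have h1 : f =O[atTop] (fun n : ℕ => (n : ℝ) ^ (-α - θ)) := by
      apply IsBigO.of_bound B
      filter_upwards [eventually_ge_atTop n1] with n hn
      rw [Real.norm_eq_abs, Real.norm_eq_abs, abs_of_nonneg (by positivity :
        (0 : ℝ) ≤ (n : ℝ) ^ (-α - θ))]
      exact hf n hn
    exact h1.trans (npow_O (by linarith [min_le_left θ 1]))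
  obtain ⟨S, hS, hSO⟩ := sqrt_expansion α hα (rfreud α a) u v (bco α) (min θ 1)
    (lt_min hθ one_pos) (min_le_right _ _) U V hU hV hr
    (by filter_upwards [eventually_ge_atTop n1] with n hn using (huv n hn).1)
    (hO _ fun n hn => (huv n hn).2.1) (hO _ fun n hn => (huv n hn).2.2)
  refine ⟨S, min θ 1, lt_min hθ one_pos, min_le_right _ _, hS, ?_⟩
  have : B0c α = 2 * bco α := (two_bco α hα).symm
  rw [this]
  exact hSO

/-- The leading oscillating term, in the form of the problem. -/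
theorem lead_term (α : ℝ) (hα : 1 < α) (p : ℕ → Polynomial ℝ) (a : ℕ → ℝ) (h : IsFreud α p a) :
    ∃ c : ℕ → ℝ, c 0 = 1 ∧ (fun n : ℕ => rfreud α a n -
      ∑ k ∈ Finset.range (⌊α⌋₊ + 1), c k * (n : ℝ) ^ (-(k : ℝ)) -
      (-1) ^ n * (B0c α * (n : ℝ) ^ (-α))) =o[atTop] (fun n : ℕ => (n : ℝ) ^ (-α)) := by
  obtain ⟨S, θ, hθ, hθ1, hS, hO⟩ := lead_poly α hα p a h
  refine ⟨fun k => S.coeff k, hS, ?_⟩
  -- the tail of the polynomial
  set K := ⌊α⌋₊ + 1 with hK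
  have hKα : α < K := by
    rw [hK]
    push_cast
    exact Nat.lt_floor_add_one α
  set S1 : Polynomial ℝ := ∑ k ∈ Finset.range K, Polynomial.C (S.coeff k) * Polynomial.X ^ k
    with hS1
  have hdvd : Polynomial.X ^ K ∣ S - S1 := by
    rw [Polynomial.X_pow_dvd_iff]
    intro d hd
    rw [Polynomial.coeff_sub, hS1, Polynomial.finsetSum_coeff]
    simp only [Polynomial.coeff_C_mul, Polynomial.coeff_X_pow, mul_ite, mul_one, mul_zero]
    rw [Finset.sum_ite_eq]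
    simp [hd]
  obtain ⟨G, hG⟩ := hdvd
  have htail := poly_O_pow G K (b := -(K : ℝ)) le_rfl
  have hlit : ∀ {a b : ℝ}, a < b → (fun n : ℕ => (n : ℝ) ^ a) =o[atTop]
      (fun n : ℕ => (n : ℝ) ^ b) := by
    intro a b hab
    have h1 : Tendsto (fun n : ℕ => (n : ℝ) ^ (-(b - a))) atTop (𝓝 0) :=
      (tendsto_rpow_neg_atTop (by linarith : 0 < b - a)).comp tendsto_natCast_atTop_atTop
    have h2 : (fun n : ℕ => (n : ℝ) ^ (-(b - a))) =o[atTop] (fun _ : ℕ => (1 : ℝ)) :=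
      (isLittleO_one_iff ℝ).mpr h1
    have h3 := (isBigO_refl (fun n : ℕ => (n : ℝ) ^ b) atTop).mul_isLittleO h2
    refine h3.congr' ?_ ?_
    · filter_upwards [eventually_ge_atTop 1] with n hn
      have hn' : (0 : ℝ) < n := by exact_mod_cast hn
      rw [← Real.rpow_add hn']
      congr 1
      ring
    · exact Eventually.of_forall fun n => mul_one _
  have h1 := hO.trans_isLittleO (hlit (by linarith : -α - θ < -α))
  have h2 := htail.trans_isLittleO (hlit (by linarith : -(K : ℝ) < -α))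
  have h3 := h1.add h2
  refine h3.congr' ?_ EventuallyEq.rfl
  filter_upwards [eventually_ge_atTop 1] with n hn
  have hn' : (0 : ℝ) < n := by exact_mod_cast hn
  rw [← hG, Polynomial.eval_sub]
  have e1 : S1.eval ((n : ℝ)⁻¹) = ∑ k ∈ Finset.range K, S.coeff k * (n : ℝ) ^ (-(k : ℝ)) := by
    rw [hS1, Polynomial.eval_finsetSum]
    apply Finset.sum_congr rfl
    intro k _
    rw [Polynomial.eval_mul, Polynomial.eval_C, Polynomial.eval_pow, Polynomial.eval_X,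
      Real.rpow_neg hn'.le, Real.rpow_natCast, inv_pow]
  rw [e1]
  ring

end Pool.Agent.Freud
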