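import Pool.Agent.Freud.Defs2

/-!
A logarithmic term excludes an expansion of form (E).
-/

set_option autoImplicit false

open MeasureTheory Filter Topology Asymptotics

namespace Pool.Agent.Freud

namespace NotExpE

theorem key_empty (x : ℕ → ℝ) (hx : Tendsto x atTop atTop) (b C : ℝ)
    (h : ∀ᶠ m in atTop, |b * Real.log (x m) * x m ^ (-5 : ℝ)| ≤ C * x m ^ (-5 : ℝ)) : b = 0 := by
  by_contra hb
  have hb' : 0 < |b| := abs_pos.mpr hb
  have h1 : Tendsto (fun m => |b| * Real.log (x m)) atTop atTop :=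
    (Real.tendsto_log_atTop.comp hx).const_mul_atTop hb'
  have h2 := h1.eventually (eventually_gt_atTop C)
  have h3 := hx.eventually (eventually_gt_atTop (1 : ℝ))
  obtain ⟨m, hm, hm2, hm3⟩ := (h.and (h2.and h3)).exists
  have hp : 0 < x m ^ (-5 : ℝ) := Real.rpow_pos_of_pos (by linarith) _
  rw [abs_mul, abs_mul, abs_of_pos hp, abs_of_pos (Real.log_pos hm3)] at hm
  have := le_of_mul_le_mul_right hm hp
  linarith

theorem key (x : ℕ → ℝ) (hx : Tendsto x atTop atTop) (s : Finset ℝ) :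
    ∀ (a : ℝ → ℝ) (b C : ℝ),
      (∀ᶠ m in atTop, |∑ e ∈ s, a e * x m ^ (-e) + b * Real.log (x m) * x m ^ (-5 : ℝ)|
        ≤ C * x m ^ (-5 : ℝ)) → b = 0 := by
  induction s using Finset.induction_on_min with
  | empty =>
    intro a b C h
    refine key_empty x hx b C ?_
    filter_upwards [h] with m hm
    simpa using hm
  | insert e s he ih =>
    intro a b C h
    have hes : e ∉ s := fun h => lt_irrefl _ (he e h)
    rcases lt_or_ge e 5 with h5 | h5
    · -- the coefficient of the leading power vanishes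
      have hae : a e = 0 := by
        have hF1 : Tendsto (fun m => x m ^ e * (∑ e' ∈ insert e s, a e' * x m ^ (-e')
            + b * Real.log (x m) * x m ^ (-5 : ℝ))) atTop (𝓝 (a e)) := by
          have hsum : Tendsto (fun m => a e + (∑ e' ∈ s, a e' * x m ^ (-(e' - e))
              + b * (Real.log (x m) / x m ^ (5 - e)))) atTop
              (𝓝 (a e + (∑ e' ∈ s, a e' * 0 + b * 0))) := by
            refine tendsto_const_nhds.add (Tendsto.add ?_ ?_)
            · refine tendsto_finsetSum _ fun e' he' => ?_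
              refine Tendsto.const_mul _ ?_
              exact (tendsto_rpow_neg_atTop (by have := he e' he'; linarith)).comp hx
            · refine Tendsto.const_mul _ ?_
              have := (isLittleO_log_rpow_atTop (r := 5 - e) (by linarith)).tendsto_div_nhds_zero
              exact this.comp hx
          have hlim : (a e + (∑ e' ∈ s, a e' * 0 + b * 0)) = a e := by simp
          rw [hlim] at hsum
          refine hsum.congr' ?_
          filter_upwards [hx.eventually (eventually_gt_atTop (0 : ℝ))] with m hm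
          rw [Finset.sum_insert hes, mul_add, mul_add, Finset.mul_sum]
          have h1 : x m ^ e * (a e * x m ^ (-e)) = a e := by
            rw [mul_left_comm, ← Real.rpow_add hm]; simp
          have h2 : ∀ e' ∈ s, x m ^ e * (a e' * x m ^ (-e')) = a e' * x m ^ (-(e' - e)) := by
            intro e' _
            rw [mul_left_comm, ← Real.rpow_add hm]; congr 2; ring
          have h3 : x m ^ e * (b * Real.log (x m) * x m ^ (-5 : ℝ))
              = b * (Real.log (x m) / x m ^ (5 - e)) := by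
            have : x m ^ (5 - e) = (x m ^ (-(5 - e)))⁻¹ := by
              rw [Real.rpow_neg hm.le, inv_inv]
            rw [this, div_inv_eq_mul]
            have h4 : x m ^ (-(5 - e)) = x m ^ e * x m ^ (-5 : ℝ) := by
              rw [← Real.rpow_add hm]; congr 1; ring
            rw [h4]; ring
          rw [h1, Finset.sum_congr rfl h2, h3]
          ring
        have hF2 : Tendsto (fun m => x m ^ e * (∑ e' ∈ insert e s, a e' * x m ^ (-e')
            + b * Real.log (x m) * x m ^ (-5 : ℝ))) atTop (𝓝 0) := by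
          have hC : Tendsto (fun m => C * x m ^ (-(5 - e))) atTop (𝓝 (C * 0)) := by
            refine Tendsto.const_mul _ ?_
            exact (tendsto_rpow_neg_atTop (by linarith)).comp hx
          rw [mul_zero] at hC
          refine squeeze_zero_norm' ?_ hC
          filter_upwards [h, hx.eventually (eventually_gt_atTop (0 : ℝ))] with m hm hm0
          rw [Real.norm_eq_abs, abs_mul, abs_of_pos (Real.rpow_pos_of_pos hm0 e)]
          calc x m ^ e * |∑ e' ∈ insert e s, a e' * x m ^ (-e')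
                + b * Real.log (x m) * x m ^ (-5 : ℝ)|
              ≤ x m ^ e * (C * x m ^ (-5 : ℝ)) :=
                mul_le_mul_of_nonneg_left hm (Real.rpow_pos_of_pos hm0 e).le
            _ = C * x m ^ (-(5 - e)) := by
                rw [mul_left_comm, ← Real.rpow_add hm0]; congr 2; ring
        exact tendsto_nhds_unique hF1 hF2
      refine ih a b C ?_
      filter_upwards [h] with m hm
      rwa [Finset.sum_insert hes, hae, zero_mul, zero_add] at hm
    · -- all powers are at most `x ^ (-5)`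
      refine key_empty x hx b (C + ∑ e' ∈ insert e s, |a e'|) ?_
      filter_upwards [h, hx.eventually (eventually_ge_atTop (1 : ℝ))] with m hm hm1
      have hb : |∑ e' ∈ insert e s, a e' * x m ^ (-e')|
          ≤ (∑ e' ∈ insert e s, |a e'|) * x m ^ (-5 : ℝ) := by
        rw [Finset.sum_mul]
        refine (Finset.abs_sum_le_sum_abs _ _).trans (Finset.sum_le_sum fun e' he' => ?_)
        have h5' : 5 ≤ e' := by
          rcases Finset.mem_insert.mp he' with h | h
          · exact h ▸ h5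
          · exact h5.trans (he e' h).le
        rw [abs_mul, abs_of_pos (Real.rpow_pos_of_pos (by linarith) _)]
        exact mul_le_mul_of_nonneg_left
          (Real.rpow_le_rpow_of_exponent_le hm1 (by linarith)) (abs_nonneg _)
      have hz : b * Real.log (x m) * x m ^ (-5 : ℝ)
          = (∑ e' ∈ insert e s, a e' * x m ^ (-e') + b * Real.log (x m) * x m ^ (-5 : ℝ))
            - ∑ e' ∈ insert e s, a e' * x m ^ (-e') := by ring
      rw [hz]
      refine (abs_sub _ _).trans ?_
      linarith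

theorem finite_of {N : ℕ∞} {i : ℕ → ℝ} (h : N = ⊤ → Tendsto i atTop atTop) (T : ℝ) :
    {k : ℕ | (k : ℕ∞) < N ∧ i k ≤ T}.Finite := by
  by_cases hN : N = ⊤
  · have h1 := (h hN).eventually (eventually_gt_atTop T)
    obtain ⟨K, hK⟩ := eventually_atTop.mp h1
    refine (Set.finite_lt_nat K).subset ?_
    rintro k ⟨_, hk⟩
    by_contra hk2
    have := hK k (not_lt.mp hk2)
    linarith
  · obtain ⟨n, rfl⟩ := ENat.ne_top_iff_exists.mp hN
    refine (Set.finite_lt_nat n).subset ?_
    rintro k ⟨hk, _⟩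
    exact_mod_cast hk

end NotExpE

open NotExpE in
theorem not_expE (r : ℕ → ℝ) (c : ℕ → ℝ) (β β' γ C : ℝ) (hβ : β' ≠ 0) (n1 : ℕ)
    (h : ∀ n : ℕ, n1 ≤ n → |r n - ∑ k ∈ Finset.range 5, c k / (n : ℝ) ^ k
      - (-1) ^ n * (β / (n : ℝ) ^ 3 + γ / (n : ℝ) ^ 4 + β' * Real.log n / (n : ℝ) ^ 5)|
        ≤ C / (n : ℝ) ^ 5) : ¬ ExpE r := by
  rintro ⟨N, M, i, j, A, B, _, _, _, _, _, hN, hM, hE⟩
  apply hβ
  have hS1 := finite_of hN 5
  have hS2 := finite_of hM 5
  have f1 : ∀ n : ℕ, (∑ᶠ k ∈ {k : ℕ | (k : ℕ∞) < N ∧ i k ≤ 5}, A k * (n : ℝ) ^ (-(i k)))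
      = ∑ k ∈ hS1.toFinset, A k * (n : ℝ) ^ (-(i k)) :=
    fun n => finsum_mem_eq_finite_toFinset_sum _ hS1
  have f2 : ∀ n : ℕ, (∑ᶠ k ∈ {k : ℕ | (k : ℕ∞) < M ∧ j k ≤ 5}, B k * (n : ℝ) ^ (-(j k)))
      = ∑ k ∈ hS2.toFinset, B k * (n : ℝ) ^ (-(j k)) :=
    fun n => finsum_mem_eq_finite_toFinset_sum _ hS2
  have hE5 : (fun n : ℕ => r n - (∑ k ∈ hS1.toFinset, A k * (n : ℝ) ^ (-(i k)))
      - (-1) ^ n * ∑ k ∈ hS2.toFinset, B k * (n : ℝ) ^ (-(j k)))
        =o[atTop] (fun n : ℕ => (n : ℝ) ^ (-5 : ℝ)) := by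
    have := hE 5 (by norm_num)
    simpa only [f1, f2] using this
  set x : ℕ → ℝ := fun m => ((2 * m : ℕ) : ℝ) with hxdef
  have hx0 : Tendsto (fun m : ℕ => 2 * m) atTop atTop :=
    tendsto_id.const_mul_atTop' (by norm_num)
  have hx : Tendsto x atTop atTop := tendsto_natCast_atTop_atTop.comp hx0
  -- the coefficients
  set a : ℝ →₀ ℝ := ∑ k ∈ Finset.range 5, Finsupp.single (k : ℝ) (c k) + Finsupp.single 3 β
    + Finsupp.single 4 γ - ∑ k ∈ hS1.toFinset, Finsupp.single (i k) (A k)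
    - ∑ k ∈ hS2.toFinset, Finsupp.single (j k) (B k) with ha
  have hEb := (hE5.bound (c := 1) (by norm_num))
  have hEb2 := hx0.eventually hEb
  have hn1 : ∀ᶠ m : ℕ in atTop, n1 ≤ 2 * m := hx0.eventually (eventually_ge_atTop n1)
  refine key x hx a.support a β' (C + 1) ?_
  filter_upwards [hEb2, hn1, hx.eventually (eventually_gt_atTop (0 : ℝ))] with m hm1 hm2 hm3
  have hm4 := h (2 * m) hm2
  have hlin : ∑ e ∈ a.support, a e * x m ^ (-e)
      = Finsupp.linearCombination ℝ (fun e : ℝ => x m ^ (-e)) a := by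
    rw [Finsupp.linearCombination_apply, Finsupp.sum]
    simp [smul_eq_mul]
  have hlin2 : Finsupp.linearCombination ℝ (fun e : ℝ => x m ^ (-e)) a
      = ∑ k ∈ Finset.range 5, c k * x m ^ (-(k : ℝ)) + β * x m ^ (-3 : ℝ)
        + γ * x m ^ (-4 : ℝ) - ∑ k ∈ hS1.toFinset, A k * x m ^ (-(i k))
        - ∑ k ∈ hS2.toFinset, B k * x m ^ (-(j k)) := by
    rw [ha]
    simp only [map_add, map_sub, map_sum, Finsupp.linearCombination_single, smul_eq_mul]
  rw [hlin, hlin2]
  have hp : ∀ k : ℕ, x m ^ (-(k : ℝ)) = 1 / x m ^ k := by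
    intro k
    rw [Real.rpow_neg hm3.le, Real.rpow_natCast, one_div]
  have hp3 : x m ^ (-3 : ℝ) = 1 / x m ^ 3 := by have := hp 3; exact_mod_cast this
  have hp4 : x m ^ (-4 : ℝ) = 1 / x m ^ 4 := by have := hp 4; exact_mod_cast this
  have hp5 : x m ^ (-5 : ℝ) = 1 / x m ^ 5 := by have := hp 5; exact_mod_cast this
  have heven : (-1 : ℝ) ^ (2 * m) = 1 := by rw [pow_mul]; simp
  rw [heven] at hm1
  rw [heven] at hm4
  change |r (2 * m) - ∑ k ∈ Finset.range 5, c k / x m ^ k
      - 1 * (β / x m ^ 3 + γ / x m ^ 4 + β' * Real.log (x m) / x m ^ 5)|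
        ≤ C / x m ^ 5 at hm4
  change ‖r (2 * m) - ∑ k ∈ hS1.toFinset, A k * x m ^ (-(i k))
      - 1 * ∑ k ∈ hS2.toFinset, B k * x m ^ (-(j k))‖ ≤ 1 * ‖x m ^ (-5 : ℝ)‖ at hm1
  rw [Real.norm_eq_abs, Real.norm_eq_abs, abs_of_pos (Real.rpow_pos_of_pos hm3 _)] at hm1
  have e1 : ∑ k ∈ Finset.range 5, c k * x m ^ (-(k : ℝ))
      = ∑ k ∈ Finset.range 5, c k / x m ^ k := by
    refine Finset.sum_congr rfl fun k _ => ?_
    rw [hp k]; ring
  rw [e1]
  have e2 : ∑ k ∈ Finset.range 5, c k / x m ^ k + β * x m ^ (-3 : ℝ) + γ * x m ^ (-4 : ℝ)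
        - ∑ k ∈ hS1.toFinset, A k * x m ^ (-(i k))
        - ∑ k ∈ hS2.toFinset, B k * x m ^ (-(j k))
        + β' * Real.log (x m) * x m ^ (-5 : ℝ)
      = (r (2 * m) - ∑ k ∈ hS1.toFinset, A k * x m ^ (-(i k))
          - 1 * ∑ k ∈ hS2.toFinset, B k * x m ^ (-(j k)))
        - (r (2 * m) - ∑ k ∈ Finset.range 5, c k / x m ^ k
          - 1 * (β / x m ^ 3 + γ / x m ^ 4 + β' * Real.log (x m) / x m ^ 5)) := by
    rw [hp3, hp4, hp5]; ring
  rw [e2]
  refine (abs_sub _ _).trans ?_
  have e3 : C / x m ^ 5 = C * x m ^ (-5 : ℝ) := by rw [hp5]; ring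
  rw [e3] at hm4
  linarith

end Pool.Agent.Freud
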