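import Pool.Agent.Freud.PertExp

/-!
Perturbation theory, second order at the exponent three (`perturb_b`).
-/

set_option autoImplicit false

open MeasureTheory Filter Topology Set

namespace Pool.Agent.Freud

namespace PertBAux

open Pert

/-- Entrywise measurability on the half plane. -/
abbrev Mb (X : ℂ → Mat2) : Prop :=
  ∀ i j, AEStronglyMeasurable (fun s => X s i j) (volume.restrict UH)

theorem mb_add {X Y : ℂ → Mat2} (hX : Mb X) (hY : Mb Y) : Mb (fun s => X s + Y s) :=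
  fun i j => (hX i j).add (hY i j)

theorem mb_sub {X Y : ℂ → Mat2} (hX : Mb X) (hY : Mb Y) : Mb (fun s => X s - Y s) :=
  fun i j => (hX i j).sub (hY i j)

theorem mb_mul {X Y : ℂ → Mat2} (hX : Mb X) (hY : Mb Y) : Mb (fun s => X s * Y s) := by
  intro i j
  simp only [Matrix.mul_apply, Fin.sum_univ_two]
  exact ((hX i 0).mul (hY 0 j)).add ((hX i 1).mul (hY 1 j))

theorem mb_smul {X : ℂ → Mat2} {f : ℂ → ℂ} (hf : Measurable f) (hX : Mb X) :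
    Mb (fun s => f s • X s) := by
  intro i j
  simp only [Matrix.smul_apply, smul_eq_mul]
  exact hf.aestronglyMeasurable.mul (hX i j)

theorem mb_const (A : Mat2) : Mb (fun _ => A) := fun _ _ => aestronglyMeasurable_const

theorem mb_cont {X : ℂ → Mat2} (hX : ContinuousOn X UH) : Mb X := by
  intro i j
  have h : ContinuousOn (fun s => X s i j) UH := by
    have := (continuous_apply_apply i j).comp_continuousOn hX
    exact this
  exact h.aestronglyMeasurable measurableSet_UH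

theorem mb_meas {X : ℂ → Mat2} (hX : ∀ i j, Measurable fun s => X s i j) : Mb X :=
  fun i j => (hX i j).aestronglyMeasurable

theorem conj_sub_ne {s z : ℂ} (hs : s ∈ UH) (hz : z ∈ UH) : starRingEnd ℂ s - z ≠ 0 := by
  have h1 : 0 < s.im := hs
  have h2 : 0 < z.im := hz
  intro h
  have := congrArg Complex.im h
  simp only [Complex.sub_im, Complex.conj_im, Complex.zero_im] at this
  linarith

/-- The shift identity. -/
theorem KK_shift {X : ℂ → Mat2} (hX : Adm X) {z : ℂ} (hz : z ∈ UH) :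
    KK (fun s => s • X s) z = z • KK X z - (2 / Real.pi : ℂ) • reM (IU X) := by
  ext i j
  have h1 := hX.entry_int i j
  have h2 := (hX.entry_kernel hz i j).1
  have h1' : IntegrableOn (fun s => starRingEnd ℂ (X s i j)) UH := by
    have := (Complex.conjCLE : ℂ →L[ℝ] ℂ).integrable_comp h1
    exact this
  have e1 : ∫ s in UH, (s * X s i j / (s - z) + starRingEnd ℂ (s * X s i j) /
      (starRingEnd ℂ s - z)) = ∫ s in UH, ((X s i j + starRingEnd ℂ (X s i j)) +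
        z * (X s i j / (s - z) + starRingEnd ℂ (X s i j) / (starRingEnd ℂ s - z))) := by
    refine integral_congr_ae ?_
    filter_upwards [ae_ne z, ae_restrict_mem measurableSet_UH] with s hs1 hs
    have h4 : s - z ≠ 0 := sub_ne_zero.2 hs1
    have h5 := conj_sub_ne hs hz
    rw [map_mul]
    field_simp
    ring
  have e2 : ∫ s in UH, ((X s i j + starRingEnd ℂ (X s i j)) +
        z * (X s i j / (s - z) + starRingEnd ℂ (X s i j) / (starRingEnd ℂ s - z))) =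
      (∫ s in UH, (X s i j + starRingEnd ℂ (X s i j))) +
        ∫ s in UH, z * (X s i j / (s - z) + starRingEnd ℂ (X s i j) / (starRingEnd ℂ s - z)) :=
    integral_add (h1.add h1') (h2.const_mul z)
  have e3 : ∫ s in UH, (X s i j + starRingEnd ℂ (X s i j)) =
      (∫ s in UH, X s i j) + ∫ s in UH, starRingEnd ℂ (X s i j) := integral_add h1 h1'
  have e4 : (∫ s in UH, X s i j) + starRingEnd ℂ (∫ s in UH, X s i j) =
      2 * (((∫ s in UH, X s i j).re : ℝ) : ℂ) := by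
    rw [Complex.add_conj]
    push_cast
    ring
  have e5 : ∫ s in UH, starRingEnd ℂ (X s i j) = starRingEnd ℂ (∫ s in UH, X s i j) :=
    integral_conj
  simp only [KK, KS, Matrix.sub_apply, Matrix.smul_apply, smul_eq_mul, reM, Matrix.map_apply, IU]
  rw [e1, e2, e3, e5, e4, integral_const_mul]
  ring

/-- `gw_bounds` for the power two. -/
theorem gb2 (c r : ℝ) (hc : 0 < c) (hr : 0 < r) :
    ∃ C : ℝ, 0 ≤ C ∧ ∀ n : ℕ, 1 ≤ n → ∀ X : ℂ → Mat2, Mb X →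
      ∀ b : ℝ, 0 ≤ b → (∀ s ∈ UH, nm (X s) ≤ b * gw 2 c n s) →
      Adm X ∧ (∀ z ∈ UH, nm (KK X z) ≤ C * b * (n : ℝ)⁻¹ ^ 2) ∧
      (∀ z ∈ UH, r ≤ ‖z‖ → nm (KK X z) ≤ C * b * (n : ℝ)⁻¹ ^ 3) ∧
      nm (IU X) ≤ C * b * (n : ℝ)⁻¹ ^ 3 := by
  obtain ⟨C, hC, h⟩ := gw_bounds 2 c r two_pos hc hr
  refine ⟨C, hC, fun n hn X hX b hb hXb => ?_⟩
  have e1 : (n : ℝ) ^ (-(2 : ℝ)) = (n : ℝ)⁻¹ ^ 2 := by
    rw [Real.rpow_neg (Nat.cast_nonneg n), ← Real.inv_rpow (Nat.cast_nonneg n)]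
    norm_cast
  have e2 : (n : ℝ) ^ (-((2 : ℝ) + 1)) = (n : ℝ)⁻¹ ^ 3 := by
    rw [Real.rpow_neg (Nat.cast_nonneg n), ← Real.inv_rpow (Nat.cast_nonneg n)]
    norm_num
  have := h n hn X hX b hb hXb
  rw [e1, e2] at this
  exact this

/-- `gw_bounds` for the power three. -/
theorem gb3 (c r : ℝ) (hc : 0 < c) (hr : 0 < r) :
    ∃ C : ℝ, 0 ≤ C ∧ ∀ n : ℕ, 1 ≤ n → ∀ X : ℂ → Mat2, Mb X →
      ∀ b : ℝ, 0 ≤ b → (∀ s ∈ UH, nm (X s) ≤ b * gw 3 c n s) →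
      Adm X ∧ (∀ z ∈ UH, r ≤ ‖z‖ → nm (KK X z) ≤ C * b * (n : ℝ)⁻¹ ^ 4) ∧
      nm (IU X) ≤ C * b * (n : ℝ)⁻¹ ^ 4 := by
  obtain ⟨C, hC, h⟩ := gw_bounds 3 c r three_pos hc hr
  refine ⟨C, hC, fun n hn X hX b hb hXb => ?_⟩
  have e2 : (n : ℝ) ^ (-((3 : ℝ) + 1)) = (n : ℝ)⁻¹ ^ 4 := by
    rw [Real.rpow_neg (Nat.cast_nonneg n), ← Real.inv_rpow (Nat.cast_nonneg n)]
    norm_num
  obtain ⟨h1, -, h3, h4⟩ := h n hn X hX b hb hXb
  rw [e2] at h3 h4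
  exact ⟨h1, h3, h4⟩

theorem gw_succ (c : ℝ) (n : ℕ) (s : ℂ) : ‖s‖ * gw 2 c n s = gw 3 c n s := by
  unfold gw
  have e : ‖s‖ ^ (3 : ℝ) = ‖s‖ * ‖s‖ ^ (2 : ℝ) := by
    norm_cast
    ring
  rw [e]
  ring

theorem exp_small (c : ℝ) (hc : 0 < c) :
    ∃ C : ℝ, 0 ≤ C ∧ ∀ n : ℕ, 1 ≤ n → Real.exp (-(c * n)) ≤ C * (n : ℝ)⁻¹ ^ 5 := by
  refine ⟨(5 / c) ^ (5 : ℝ), by positivity, fun n hn => ?_⟩
  have hn' : (0 : ℝ) < n := by exact_mod_cast hn
  have h := pow_exp_bound 5 c (by norm_num) hc n hn'.le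
  have e : (n : ℝ) ^ (5 : ℝ) = (n : ℝ) ^ 5 := by norm_cast
  rw [e] at h
  calc Real.exp (-(c * n)) = (n : ℝ) ^ 5 * Real.exp (-(c * n)) * (n : ℝ)⁻¹ ^ 5 := by
        field_simp
    _ ≤ (5 / c) ^ (5 : ℝ) * (n : ℝ)⁻¹ ^ 5 := mul_le_mul_of_nonneg_right h (by positivity)

/-- The facts on the essential part which are used. -/
structure Base (y0 r c C : ℝ) (n0 : ℕ) (A : Set ℂ) (w We Wx R ρ : ℕ → ℂ → Mat2) (n1 : ℕ)
    (B : ℝ) : Prop where
  asm : Asm 3 y0 r c C n0 A w We Wx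
  le : n0 ≤ n1
  pos : 1 ≤ n1
  B_nonneg : 0 ≤ B
  R_cont : ∀ n, n1 ≤ n → ContinuousOn (R n) UH
  R_bd : ∀ n, n1 ≤ n → ∀ z ∈ UH, nm (R n z) ≤ 4
  eqn : ∀ n, n1 ≤ n → ∀ z ∈ UH,
    R n z = 1 + KK (fun s => R n s * (We n s + W0 3 n y0 s + Wx n s)) z
  ρ_zero : ∀ z, ρ 0 z = 1
  ρ_one : ∀ z ∈ UH, ρ 1 z = KK (w 0) z
  ρ_meas : ∀ k, Mb (ρ k)
  ρ_bd : ∀ k, ∃ B, 0 ≤ B ∧ ∀ z ∈ UH, nm (ρ k z) ≤ B
  expn : ∀ n, n1 ≤ n → ∀ z ∈ UH, nm (KK (fun s => R n s * We n s) z -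
    ((((n : ℝ)⁻¹ : ℝ) : ℂ) • ρ 1 z + (((n : ℝ)⁻¹ ^ 2 : ℝ) : ℂ) • ρ 2 z +
      (((n : ℝ)⁻¹ ^ 3 : ℝ) : ℂ) • ρ 3 z)) ≤ B * (n : ℝ)⁻¹ ^ 4

section

variable {y0 r c C : ℝ} {n0 : ℕ} {A : Set ℂ} {w We Wx R ρ : ℕ → ℂ → Mat2} {n1 : ℕ} {B : ℝ}

theorem Base.C_nonneg (h : Base y0 r c C n0 A w We Wx R ρ n1 B) : 0 ≤ C := by
  have h1 := h.asm.W0_bd 1 le_rfl Complex.I (by simp [UH])
  have h2 := (nm_nonneg _).trans h1
  simp only [Nat.cast_one, mul_one, Complex.norm_I, Real.one_rpow] at h2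
  exact nonneg_of_mul_nonneg_left h2 (Real.exp_pos _)

theorem Base.W0_le (h : Base y0 r c C n0 A w We Wx R ρ n1 B) {n : ℕ} (hn : 1 ≤ n) {s : ℂ}
    (hs : s ∈ UH) : nm (W0 3 n y0 s) ≤ C * gw 2 c n s := by
  refine (h.asm.W0_bd n hn s hs).trans (le_of_eq ?_)
  have e : (3 : ℝ) - 1 = 2 := by norm_num
  rw [e]
  unfold gw
  ring

theorem q_facts {n : ℕ} (hn : 1 ≤ n) : (0 : ℝ) < (n : ℝ)⁻¹ ∧ (n : ℝ)⁻¹ ≤ 1 := by
  have h : (1 : ℝ) ≤ n := by exact_mod_cast hn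
  exact ⟨by positivity, inv_le_one_of_one_le₀ h⟩

theorem nm_rsmul {x : ℝ} (hx : 0 ≤ x) (M : Mat2) : nm ((x : ℂ) • M) = x * nm M := by
  rw [nm_smul, Complex.norm_real, Real.norm_eq_abs, abs_of_nonneg hx]

theorem Base.We_small (h : Base y0 r c C n0 A w We Wx R ρ n1 B) :
    ∃ K : ℝ, 0 ≤ K ∧ ∀ n, n0 ≤ n → ∀ s ∈ A, nm (We n s) ≤ K * (n : ℝ)⁻¹ := by
  obtain ⟨B, hB⟩ := h.asm.We_exp 0
  refine ⟨|B|, abs_nonneg B, fun n hn s hs => ?_⟩
  have h1 := hB n hn s hs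
  simp only [Finset.range_zero, Finset.sum_empty, sub_zero, zero_add, pow_one] at h1
  refine h1.trans ?_
  rw [div_eq_mul_inv]
  exact mul_le_mul_of_nonneg_right (le_abs_self B) (by positivity)

/-- Decomposition of the integral equation. -/
theorem Base.pieces (h : Base y0 r c C n0 A w We Wx R ρ n1 B) :
    ∃ K : ℝ, 0 ≤ K ∧ ∀ n, n1 ≤ n →
      Adm (fun s => R n s * We n s) ∧ Adm (fun s => R n s * W0 3 n y0 s) ∧
      Adm (fun s => R n s * Wx n s) ∧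
      (∀ z ∈ UH, R n z = 1 + KK (fun s => R n s * We n s) z + KK (fun s => R n s * W0 3 n y0 s) z
        + KK (fun s => R n s * Wx n s) z) ∧
      (∀ z ∈ UH, nm (KK (fun s => R n s * W0 3 n y0 s) z) ≤ K * (n : ℝ)⁻¹ ^ 2) ∧
      (∀ z ∈ UH, nm (KK (fun s => R n s * Wx n s) z) ≤ K * (n : ℝ)⁻¹ ^ 5) ∧
      nm (IU (fun s => R n s * Wx n s)) ≤ K * (n : ℝ)⁻¹ ^ 5 ∧
      IU (fun s => R n s * (We n s + W0 3 n y0 s + Wx n s)) =
        IU (fun s => R n s * We n s) + IU (fun s => R n s * W0 3 n y0 s) +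
          IU (fun s => R n s * Wx n s) := by
  have hC := h.C_nonneg
  obtain ⟨K₀, hK₀, h0⟩ := h.We_small
  obtain ⟨K₁, hK₁, h1⟩ := gb2 c r h.asm.c_pos h.asm.r_pos
  obtain ⟨K₂, hK₂, h2⟩ := exp_bounds c h.asm.c_pos
  obtain ⟨K₃, hK₃, h3⟩ := exp_small c h.asm.c_pos
  refine ⟨K₁ * (4 * C) + K₂ * (4 * C) * K₃, by positivity, fun n hn => ?_⟩
  have hn0 : n0 ≤ n := h.le.trans hn
  have hn1 : 1 ≤ n := h.pos.trans hn
  obtain ⟨hq0, hq1⟩ := q_facts hn1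
  have hRm : Mb (R n) := mb_cont (h.R_cont n hn)
  have hRb := h.R_bd n hn
  have hWe : Adm (We n) := (adm_of_supp (fun s hs => (h.asm.A_loc s hs).2)
    (mb_cont (h.asm.We_cont n hn0)) (h.asm.We_supp n) (K₀ * (n : ℝ)⁻¹)
    (fun s hs => h0 n hn0 s hs) (by positivity)).1
  have a1 : Adm (fun s => R n s * We n s) := Adm.mul_left hRm 4 hRb hWe
  have hW0m : Mb (fun s => R n s * W0 3 n y0 s) := mb_mul hRm (mb_cont (h.asm.W0_cont n))
  have hWxm : Mb (fun s => R n s * Wx n s) := mb_mul hRm (mb_cont (h.asm.Wx_cont n hn0))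
  obtain ⟨a2, b2, -, -⟩ := h1 n hn1 _ hW0m (4 * C) (by positivity) (fun s hs => by
    refine (nm_mul _ _).trans ?_
    have e1 := h.W0_le hn1 hs
    calc nm (R n s) * nm (W0 3 n y0 s) ≤ 4 * (C * gw 2 c n s) :=
          mul_le_mul (hRb s hs) e1 (nm_nonneg _) (by norm_num)
      _ = 4 * C * gw 2 c n s := by ring)
  obtain ⟨a3, b3, c3⟩ := h2 _ hWxm (4 * C * Real.exp (-(c * n))) (by positivity) (fun s hs => by
    refine (nm_mul _ _).trans ?_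
    have e1 := h.asm.Wx_bd n hn0 s hs
    calc nm (R n s) * nm (Wx n s) ≤ 4 * (C * Real.exp (-(c * n)) * Real.exp (-(c * ‖s‖))) :=
          mul_le_mul (hRb s hs) e1 (nm_nonneg _) (by norm_num)
      _ = 4 * C * Real.exp (-(c * n)) * Real.exp (-(c * ‖s‖)) := by ring)
  have hx : K₂ * (4 * C * Real.exp (-(c * n))) ≤
      (K₁ * (4 * C) + K₂ * (4 * C) * K₃) * (n : ℝ)⁻¹ ^ 5 := by
    have e1 := h3 n hn1
    calc K₂ * (4 * C * Real.exp (-(c * n))) ≤ K₂ * (4 * C * (K₃ * (n : ℝ)⁻¹ ^ 5)) := by gcongr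
      _ ≤ (K₁ * (4 * C) + K₂ * (4 * C) * K₃) * (n : ℝ)⁻¹ ^ 5 := by
          have : 0 ≤ K₁ * (4 * C) * (n : ℝ)⁻¹ ^ 5 := by positivity
          linarith
  have hfun : ∀ s ∈ UH, R n s * (We n s + W0 3 n y0 s + Wx n s) =
      (R n s * We n s + R n s * W0 3 n y0 s) + R n s * Wx n s := fun s _ => by
    rw [mul_add, mul_add]
  refine ⟨a1, a2, a3, fun z hz => ?_, fun z hz => ?_, fun z hz => (b3 z hz).trans hx,
    c3.trans hx, ?_⟩
  · rw [h.eqn n hn z hz, KK_congr hfun z, KK_add (a1.add a2) a3 hz, KK_add a1 a2 hz]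
    abel
  · refine (b2 z hz).trans ?_
    refine mul_le_mul_of_nonneg_right ?_ (by positivity)
    have : 0 ≤ K₂ * (4 * C) * K₃ := by positivity
    linarith
  · rw [IU_congr hfun, IU_add (a1.add a2) a3, IU_add a1 a2]

/-- First approximation of the solution. -/
theorem Base.first (h : Base y0 r c C n0 A w We Wx R ρ n1 B) :
    ∃ K : ℝ, 0 ≤ K ∧ ∀ n, n1 ≤ n → ∀ z ∈ UH,
      nm (R n z - 1 - (((n : ℝ)⁻¹ : ℝ) : ℂ) • ρ 1 z) ≤ K * (n : ℝ)⁻¹ ^ 2 ∧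
      nm (R n z - 1) ≤ K * (n : ℝ)⁻¹ := by
  obtain ⟨K, hK, hp⟩ := h.pieces
  obtain ⟨B₁, hB₁, b1⟩ := h.ρ_bd 1
  obtain ⟨B₂, hB₂, b2⟩ := h.ρ_bd 2
  obtain ⟨B₃, hB₃, b3⟩ := h.ρ_bd 3
  have hB := h.B_nonneg
  refine ⟨B + B₁ + B₂ + B₃ + K + K, by positivity, fun n hn z hz => ?_⟩
  obtain ⟨-, -, -, p1, p2, p3, -, -⟩ := hp n hn
  have hn1 : 1 ≤ n := h.pos.trans hn
  obtain ⟨hq0, hq1⟩ := q_facts hn1
  set q : ℝ := (n : ℝ)⁻¹ with hq
  have e0 := h.expn n hn z hz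
  rw [← hq] at e0
  set E := KK (fun s => R n s * We n s) z - ((q : ℂ) • ρ 1 z + ((q ^ 2 : ℝ) : ℂ) • ρ 2 z +
      ((q ^ 3 : ℝ) : ℂ) • ρ 3 z) with hE
  have hq2 : 0 ≤ q ^ 2 := by positivity
  have hq3 : q ^ 3 ≤ q ^ 2 := pow_le_pow_of_le_one hq0.le hq1 (by norm_num)
  have hq4 : q ^ 4 ≤ q ^ 2 := pow_le_pow_of_le_one hq0.le hq1 (by norm_num)
  have hq5 : q ^ 5 ≤ q ^ 2 := pow_le_pow_of_le_one hq0.le hq1 (by norm_num)
  have hq21 : q ^ 2 ≤ q := by nlinarith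
  have e1 : R n z - 1 - (q : ℂ) • ρ 1 z = E + ((q ^ 2 : ℝ) : ℂ) • ρ 2 z +
      ((q ^ 3 : ℝ) : ℂ) • ρ 3 z + KK (fun s => R n s * W0 3 n y0 s) z +
      KK (fun s => R n s * Wx n s) z := by
    rw [p1 z hz, hE]
    abel
  have f1 : nm (R n z - 1 - (q : ℂ) • ρ 1 z) ≤ (B + B₂ + B₃ + K + K) * q ^ 2 := by
    rw [e1]
    refine (nm_add _ _).trans ?_
    refine (add_le_add (nm_add _ _) le_rfl).trans ?_
    refine (add_le_add (add_le_add (nm_add _ _) le_rfl) le_rfl).trans ?_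
    refine (add_le_add (add_le_add (add_le_add (nm_add _ _) le_rfl) le_rfl) le_rfl).trans ?_
    rw [nm_rsmul hq2, nm_rsmul (by positivity)]
    have g1 : nm E ≤ B * q ^ 2 := e0.trans (mul_le_mul_of_nonneg_left hq4 hB)
    have g2 : q ^ 2 * nm (ρ 2 z) ≤ q ^ 2 * B₂ := mul_le_mul_of_nonneg_left (b2 z hz) hq2
    have g3 : q ^ 3 * nm (ρ 3 z) ≤ q ^ 2 * B₃ := mul_le_mul hq3 (b3 z hz) (nm_nonneg _) hq2
    have g4 := p2 z hz
    have g5 : nm (KK (fun s => R n s * Wx n s) z) ≤ K * q ^ 2 :=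
      (p3 z hz).trans (mul_le_mul_of_nonneg_left hq5 hK)
    linarith
  constructor
  · refine f1.trans (mul_le_mul_of_nonneg_right (by linarith) hq2)
  · have e2 : R n z - 1 = (R n z - 1 - (q : ℂ) • ρ 1 z) + (q : ℂ) • ρ 1 z := by abel
    rw [e2]
    refine (nm_add _ _).trans ?_
    rw [nm_rsmul hq0.le]
    have g1 : q * nm (ρ 1 z) ≤ q * B₁ := mul_le_mul_of_nonneg_left (b1 z hz) hq0.le
    have g2 : (B + B₂ + B₃ + K + K) * q ^ 2 ≤ (B + B₂ + B₃ + K + K) * q :=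
      mul_le_mul_of_nonneg_left hq21 (by positivity)
    linarith

/-- The contribution of the origin away from the origin. -/
theorem Base.far (h : Base y0 r c C n0 A w We Wx R ρ n1 B) :
    ∃ K : ℝ, 0 ≤ K ∧ ∀ n, n1 ≤ n → (∀ z ∈ UH, r ≤ ‖z‖ →
      nm (KK (fun s => R n s * W0 3 n y0 s) z -
        z⁻¹ • ((2 / Real.pi : ℝ) : ℂ) • reM (IU (W0 3 n y0))) ≤ K * (n : ℝ)⁻¹ ^ 4) ∧
      Adm (W0 3 n y0) ∧ nm (reM (IU (W0 3 n y0))) ≤ K * (n : ℝ)⁻¹ ^ 3 := by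
  have hC := h.C_nonneg
  obtain ⟨K, hK, hf⟩ := h.first
  obtain ⟨K₁, hK₁, h1⟩ := gb2 c r h.asm.c_pos h.asm.r_pos
  obtain ⟨K₂, hK₂, h2⟩ := gb3 c r h.asm.c_pos h.asm.r_pos
  have hr := h.asm.r_pos
  refine ⟨K₁ * (K * C) + K₂ * C / r + K₁ * C, by positivity, fun n hn => ?_⟩
  have hn0 : n0 ≤ n := h.le.trans hn
  have hn1 : 1 ≤ n := h.pos.trans hn
  obtain ⟨hq0, hq1⟩ := q_facts hn1
  set q : ℝ := (n : ℝ)⁻¹ with hq
  have hRm : Mb (R n) := mb_cont (h.R_cont n hn)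
  have hW : Mb (W0 3 n y0) := mb_cont (h.asm.W0_cont n)
  obtain ⟨a0, -, -, d0⟩ := h1 n hn1 _ hW C hC (fun s hs => h.W0_le hn1 hs)
  obtain ⟨a1, -, c1, -⟩ := h1 n hn1 (fun s => (R n s - 1) * W0 3 n y0 s)
    (mb_mul (mb_sub hRm (mb_const 1)) hW) (K * q * C) (by positivity) (fun s hs => by
      refine (nm_mul _ _).trans ?_
      calc nm (R n s - 1) * nm (W0 3 n y0 s) ≤ K * q * (C * gw 2 c n s) :=
            mul_le_mul (hf n hn s hs).2 (h.W0_le hn1 hs) (nm_nonneg _) (by positivity)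
        _ = K * q * C * gw 2 c n s := by ring)
  obtain ⟨a2, c2, -⟩ := h2 n hn1 (fun s => s • W0 3 n y0 s) (mb_smul measurable_id hW) C hC
    (fun s hs => by
      rw [nm_smul]
      calc ‖s‖ * nm (W0 3 n y0 s) ≤ ‖s‖ * (C * gw 2 c n s) :=
            mul_le_mul_of_nonneg_left (h.W0_le hn1 hs) (norm_nonneg _)
        _ = C * gw 3 c n s := by rw [← gw_succ]; ring)
  refine ⟨fun z hz hrz => ?_, a0, ?_⟩
  · have hz0 : z ≠ 0 := by
      intro h0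
      rw [h0, norm_zero] at hrz
      linarith
    have e1 : KK (fun s => R n s * W0 3 n y0 s) z =
        KK (fun s => (R n s - 1) * W0 3 n y0 s) z + KK (W0 3 n y0) z := by
      rw [← KK_add a1 a0 hz]
      refine KK_congr (fun s _ => ?_) z
      rw [sub_mul, one_mul]
      abel
    have e2 := KK_shift a0 hz
    have e3 : KK (W0 3 n y0) z - z⁻¹ • ((2 / Real.pi : ℝ) : ℂ) • reM (IU (W0 3 n y0)) =
        z⁻¹ • KK (fun s => s • W0 3 n y0 s) z := by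
      rw [e2, smul_sub, inv_smul_smul₀ hz0]
      push_cast
      rfl
    have e4 : KK (fun s => R n s * W0 3 n y0 s) z -
        z⁻¹ • ((2 / Real.pi : ℝ) : ℂ) • reM (IU (W0 3 n y0)) =
        KK (fun s => (R n s - 1) * W0 3 n y0 s) z + z⁻¹ • KK (fun s => s • W0 3 n y0 s) z := by
      rw [e1, ← e3]
      abel
    rw [e4]
    refine (nm_add _ _).trans ?_
    rw [nm_smul, norm_inv]
    have g1 := c1 z hz hrz
    have g2 := c2 z hz hrz
    have g3 : ‖z‖⁻¹ ≤ r⁻¹ := inv_anti₀ hr hrz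
    have g4 : ‖z‖⁻¹ * nm (KK (fun s => s • W0 3 n y0 s) z) ≤ r⁻¹ * (K₂ * C * q ^ 4) :=
      mul_le_mul g3 g2 (nm_nonneg _) (by positivity)
    have g5 : K₁ * (K * q * C) * q ^ 3 = K₁ * (K * C) * q ^ 4 := by ring
    have g6 : r⁻¹ * (K₂ * C * q ^ 4) = K₂ * C / r * q ^ 4 := by
      field_simp
    have g7 : 0 ≤ K₁ * C * q ^ 4 := by positivity
    rw [g5] at g1
    rw [g6] at g4
    linarith
  · refine (nm_reM _).trans (d0.trans ?_)
    refine mul_le_mul_of_nonneg_right ?_ (by positivity)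
    have : 0 ≤ K₁ * (K * C) := by positivity
    have : 0 ≤ K₂ * C / r := by positivity
    linarith

/-- Product of the expansions, with the sharp error. -/
theorem prod_exp (hA : Asm 3 y0 r c C n0 A w We Wx) (m : ℕ) :
    ∃ D : ℝ, 0 ≤ D ∧ ∀ (n : ℕ), n0 ≤ n → ∀ (Y : ℂ → Mat2) (B : ℝ), 0 ≤ B →
      (∀ s ∈ A, nm (Y s - ∑ k ∈ Finset.range m, (((n : ℂ) ^ k)⁻¹) • rhoP w k s) ≤
        B * (1 / (n : ℝ) ^ m)) →
      ∀ s ∈ A, nm (Y s * We n s - ∑ l ∈ Finset.range m, (((n : ℂ) ^ (l + 1))⁻¹) • Fw w l s) ≤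
        D * (B + 1) * (1 / (n : ℝ) ^ (m + 1)) := by
  choose Br hBr0 hBr using fun l => (rho_props hA l).2
  choose Bw hBw using hA.We_exp
  refine ⟨|Bw 0| + ∑ j ∈ Finset.range m, Br j * |Bw (m - j)|, by
    have := Finset.sum_nonneg (s := Finset.range m) (f := fun j => Br j * |Bw (m - j)|)
      fun j _ => mul_nonneg (hBr0 j) (abs_nonneg _)
    positivity, ?_⟩
  intro n hn Y B hB hY s hs
  have h1n : 1 ≤ n := hA.n0_pos.trans hn
  have hn' : (0 : ℝ) < n := by exact_mod_cast h1n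
  have hnC : (n : ℂ) ≠ 0 := by exact_mod_cast hn'.ne'
  have hflip := Finset.sum_range_diag_flip m
    (fun j k => (((n : ℂ) ^ (j + k + 1))⁻¹) • (rhoP w j s * w k s))
  have hL : ∑ l ∈ Finset.range m, (((n : ℂ) ^ (l + 1))⁻¹) • Fw w l s =
      ∑ l ∈ Finset.range m, ∑ j ∈ Finset.range (l + 1),
        (((n : ℂ) ^ (j + (l - j) + 1))⁻¹) • (rhoP w j s * w (l - j) s) := by
    refine Finset.sum_congr rfl fun l _ => ?_
    unfold Fw
    rw [Finset.smul_sum]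
    refine Finset.sum_congr rfl fun j hj => ?_
    have hj' : j < l + 1 := by simpa using hj
    rw [show j + (l - j) + 1 = l + 1 by omega]
  have hdecomp : Y s * We n s - ∑ l ∈ Finset.range m, (((n : ℂ) ^ (l + 1))⁻¹) • Fw w l s =
      (Y s - ∑ k ∈ Finset.range m, (((n : ℂ) ^ k)⁻¹) • rhoP w k s) * We n s +
      ∑ j ∈ Finset.range m, ((((n : ℂ) ^ j)⁻¹) • rhoP w j s) *
        (We n s - ∑ k ∈ Finset.range (m - j), (((n : ℂ) ^ (k + 1))⁻¹) • w k s) := by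
    rw [hL, hflip, sub_mul, Finset.sum_mul]
    have : ∑ j ∈ Finset.range m, ((((n : ℂ) ^ j)⁻¹) • rhoP w j s) *
        (We n s - ∑ k ∈ Finset.range (m - j), (((n : ℂ) ^ (k + 1))⁻¹) • w k s) =
        (∑ j ∈ Finset.range m, ((((n : ℂ) ^ j)⁻¹) • rhoP w j s) * We n s) -
        ∑ j ∈ Finset.range m, ∑ k ∈ Finset.range (m - j),
          (((n : ℂ) ^ (j + k + 1))⁻¹) • (rhoP w j s * w k s) := by
      rw [← Finset.sum_sub_distrib]
      refine Finset.sum_congr rfl fun j _ => ?_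
      rw [mul_sub, Finset.mul_sum]
      congr 1
      refine Finset.sum_congr rfl fun k _ => ?_
      rw [Matrix.smul_mul, Matrix.mul_smul, smul_smul]
      congr 1
      rw [← mul_inv, ← pow_add, add_assoc]
    rw [this]
    abel
  have hWe : nm (We n s) ≤ |Bw 0| / n := by
    have := hBw 0 n hn s hs
    simp only [Finset.range_zero, Finset.sum_empty, sub_zero, zero_add, pow_one] at this
    exact this.trans (by gcongr; exact le_abs_self _)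
  have t1 : nm ((Y s - ∑ k ∈ Finset.range m, (((n : ℂ) ^ k)⁻¹) • rhoP w k s) * We n s) ≤
      |Bw 0| * B * (1 / (n : ℝ) ^ (m + 1)) := by
    refine (nm_mul _ _).trans ((mul_le_mul (hY s hs) hWe (nm_nonneg _)
      (by positivity)).trans (le_of_eq ?_))
    rw [pow_succ]
    field_simp
  have t2 : nm (∑ j ∈ Finset.range m, ((((n : ℂ) ^ j)⁻¹) • rhoP w j s) *
        (We n s - ∑ k ∈ Finset.range (m - j), (((n : ℂ) ^ (k + 1))⁻¹) • w k s)) ≤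
      (∑ j ∈ Finset.range m, Br j * |Bw (m - j)|) * (1 / (n : ℝ) ^ (m + 1)) := by
    refine (nm_sum _ _).trans ?_
    rw [Finset.sum_mul]
    refine Finset.sum_le_sum fun j hj => ?_
    have hj' : j < m := by simpa using hj
    refine (nm_mul _ _).trans ?_
    rw [Pert.nm_smul, norm_inv_pow]
    have h1 : nm (We n s - ∑ k ∈ Finset.range (m - j), (((n : ℂ) ^ (k + 1))⁻¹) • w k s) ≤
        |Bw (m - j)| / (n : ℝ) ^ (m - j + 1) :=
      (hBw (m - j) n hn s hs).trans (by gcongr; exact le_abs_self _)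
    calc 1 / (n : ℝ) ^ j * nm (rhoP w j s) *
          nm (We n s - ∑ k ∈ Finset.range (m - j), (((n : ℂ) ^ (k + 1))⁻¹) • w k s)
        ≤ 1 / (n : ℝ) ^ j * Br j * (|Bw (m - j)| / (n : ℝ) ^ (m - j + 1)) := by
          have := hBr j s (hA.A_sub hs)
          have p0 := hBr0 j
          have p1 := nm_nonneg (rhoP w j s)
          have p2 := nm_nonneg
            (We n s - ∑ k ∈ Finset.range (m - j), (((n : ℂ) ^ (k + 1))⁻¹) • w k s)
          gcongr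
      _ = Br j * |Bw (m - j)| * (1 / (n : ℝ) ^ (m + 1)) := by
          have : (n : ℝ) ^ (m + 1) = (n : ℝ) ^ j * (n : ℝ) ^ (m - j + 1) := by
            rw [← pow_add]
            congr 1
            omega
          rw [this]
          field_simp
  rw [hdecomp]
  refine (nm_add _ _).trans ?_
  have hE : 0 ≤ 1 / (n : ℝ) ^ (m + 1) := by positivity
  set SG := ∑ j ∈ Finset.range m, Br j * |Bw (m - j)| with hSG
  have hSG0 : 0 ≤ SG := Finset.sum_nonneg fun j _ => mul_nonneg (hBr0 j) (abs_nonneg _)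
  have q1 : 0 ≤ SG * B * (1 / (n : ℝ) ^ (m + 1)) := by positivity
  have q2 : 0 ≤ |Bw 0| * (1 / (n : ℝ) ^ (m + 1)) := by positivity
  linarith

/-- The solution on `A` up to the fourth order. -/
theorem Base.onA (h : Base y0 r c C n0 A w We Wx R (rhoP w) n1 B) :
    ∃ K : ℝ, 0 ≤ K ∧ ∀ n, n1 ≤ n → ∀ s ∈ A,
      nm (R n s - s⁻¹ • ((2 / Real.pi : ℝ) : ℂ) • reM (IU (W0 3 n y0)) -
        ∑ k ∈ Finset.range 4, (((n : ℂ) ^ k)⁻¹) • rhoP w k s) ≤ K * (1 / (n : ℝ) ^ 4) := by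
  obtain ⟨K₁, hK₁, hp⟩ := h.pieces
  obtain ⟨K₂, hK₂, hf⟩ := h.far
  refine ⟨B + K₁ + K₂, by have := h.B_nonneg; positivity, fun n hn s hs => ?_⟩
  have hn1 : 1 ≤ n := h.pos.trans hn
  have hsU := h.asm.A_sub hs
  obtain ⟨-, -, -, p1, -, p3, -, -⟩ := hp n hn
  obtain ⟨f1, -, -⟩ := hf n hn
  have f2 := f1 s hsU (h.asm.A_loc s hs).1
  have f3 := h.expn n hn s hsU
  obtain ⟨hq0, hq1⟩ := q_facts hn1
  have e0 : 1 / (n : ℝ) ^ 4 = (n : ℝ)⁻¹ ^ 4 := by rw [inv_pow, one_div]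
  have e1 : ∑ k ∈ Finset.range 4, (((n : ℂ) ^ k)⁻¹) • rhoP w k s =
      1 + ((((n : ℝ)⁻¹ : ℝ) : ℂ) • rhoP w 1 s + (((n : ℝ)⁻¹ ^ 2 : ℝ) : ℂ) • rhoP w 2 s +
      (((n : ℝ)⁻¹ ^ 3 : ℝ) : ℂ) • rhoP w 3 s) := by
    simp only [Finset.sum_range_succ, Finset.range_zero, Finset.sum_empty, zero_add, pow_zero,
      inv_one, one_smul, h.ρ_zero]
    push_cast
    rw [inv_pow, inv_pow, pow_one]
    abel
  rw [e0, e1]
  set q : ℝ := (n : ℝ)⁻¹ with hq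
  have e2 : R n s - s⁻¹ • ((2 / Real.pi : ℝ) : ℂ) • reM (IU (W0 3 n y0)) -
      (1 + ((q : ℂ) • rhoP w 1 s + ((q ^ 2 : ℝ) : ℂ) • rhoP w 2 s +
      ((q ^ 3 : ℝ) : ℂ) • rhoP w 3 s)) =
      (KK (fun s => R n s * We n s) s - ((q : ℂ) • rhoP w 1 s + ((q ^ 2 : ℝ) : ℂ) • rhoP w 2 s +
      ((q ^ 3 : ℝ) : ℂ) • rhoP w 3 s)) +
      (KK (fun s => R n s * W0 3 n y0 s) s -
        s⁻¹ • ((2 / Real.pi : ℝ) : ℂ) • reM (IU (W0 3 n y0))) +
      KK (fun s => R n s * Wx n s) s := by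
    rw [p1 s hsU]
    abel
  rw [e2]
  refine (nm_add _ _).trans ?_
  refine (add_le_add (nm_add _ _) le_rfl).trans ?_
  have g5 : K₁ * q ^ 5 ≤ K₁ * q ^ 4 :=
    mul_le_mul_of_nonneg_left (pow_le_pow_of_le_one hq0.le hq1 (by norm_num)) hK₁
  have g6 := p3 s hsU
  linarith

/-- The essential part of the integral. -/
theorem Base.int_We (h : Base y0 r c C n0 A w We Wx R (rhoP w) n1 B) :
    ∃ K : ℝ, 0 ≤ K ∧ ∀ n, n1 ≤ n →
      nm (IU (fun s => R n s * We n s) -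
        ∑ l ∈ Finset.range 4, (((n : ℂ) ^ (l + 1))⁻¹) • IU (Fw w l) -
        ((((n : ℝ)⁻¹ : ℝ) : ℂ) • ((2 / Real.pi : ℝ) : ℂ) •
          (reM (IU (W0 3 n y0)) * IU (fun s => s⁻¹ • w 0 s)))) ≤ K * (n : ℝ)⁻¹ ^ 5 := by
  obtain ⟨K₁, hK₁, hp⟩ := h.pieces
  obtain ⟨K₂, hK₂, hf⟩ := h.far
  obtain ⟨K₃, hK₃, ho⟩ := h.onA
  obtain ⟨D, hD, hpr⟩ := prod_exp h.asm 4
  obtain ⟨B₁, hB₁⟩ := h.asm.We_exp 1
  have hr := h.asm.r_pos
  refine ⟨13 * (D * (K₃ + 1) + r⁻¹ * (K₂ * |B₁|)), by positivity, fun n hn => ?_⟩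
  have hn0 : n0 ≤ n := h.le.trans hn
  have hn1 : 1 ≤ n := h.pos.trans hn
  obtain ⟨hq0, hq1⟩ := q_facts hn1
  obtain ⟨p0, -, -, -, -, -, -, -⟩ := hp n hn
  obtain ⟨-, f2, f3⟩ := hf n hn
  have hAm := h.asm
  set M := reM (IU (W0 3 n y0)) with hM
  set q : ℝ := (n : ℝ)⁻¹ with hq
  -- the function
  have aJ : Adm (fun s => s⁻¹ • w 0 s) := by
    obtain ⟨b, hb⟩ := hAm.w_bd 0
    refine (adm_of_supp (fun s hs => (hAm.A_loc s hs).2)
      (mb_smul measurable_inv (mb_meas (hAm.w_meas 0)))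
      (fun s hs => by rw [hAm.w_supp 0 s hs, smul_zero]) (r⁻¹ * |b|) (fun s hs => ?_)
      (by positivity)).1
    rw [Pert.nm_smul, norm_inv]
    exact mul_le_mul (inv_anti₀ hr (hAm.A_loc s hs).1) ((hb s hs).trans (le_abs_self b))
      (nm_nonneg _) (by positivity)
  have aMJ : Adm (fun s => M * s⁻¹ • w 0 s) :=
    Adm.mul_left (mb_const M) (nm M) (fun s _ => le_rfl) aJ
  have a3 : Adm (fun s => (q : ℂ) • ((2 / Real.pi : ℝ) : ℂ) • (M * s⁻¹ • w 0 s)) :=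
    (aMJ.smul _).smul _
  have aF : ∀ l ∈ Finset.range 4, Adm (fun s => (((n : ℂ) ^ (l + 1))⁻¹) • Fw w l s) :=
    fun l _ => (Fw_adm hAm l).smul _
  have aS : Adm (fun s => ∑ l ∈ Finset.range 4, (((n : ℂ) ^ (l + 1))⁻¹) • Fw w l s) :=
    Adm.sum _ aF
  have eI : IU (fun s => R n s * We n s) -
        ∑ l ∈ Finset.range 4, (((n : ℂ) ^ (l + 1))⁻¹) • IU (Fw w l) -
        ((q : ℂ) • ((2 / Real.pi : ℝ) : ℂ) • (M * IU (fun s => s⁻¹ • w 0 s))) =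
      IU (fun s => R n s * We n s - (∑ l ∈ Finset.range 4, (((n : ℂ) ^ (l + 1))⁻¹) • Fw w l s) -
        (q : ℂ) • ((2 / Real.pi : ℝ) : ℂ) • (M * s⁻¹ • w 0 s)) := by
    rw [IU_sub (p0.sub aS) a3, IU_sub p0 aS, IU_sum _ aF, IU_smul, IU_smul, IU_const_mul M aJ]
    congr 2
    exact Finset.sum_congr rfl fun l _ => (IU_smul _ _).symm
  rw [eI]
  have hmeas := ((p0.sub aS).sub a3).meas
  refine ((adm_of_supp (fun s hs => (hAm.A_loc s hs).2) hmeas (fun s hs => ?_)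
    ((D * (K₃ + 1) + r⁻¹ * (K₂ * |B₁|)) * q ^ 5) (fun s hs => ?_) (by positivity)).2.2).trans
    (le_of_eq (by ring))
  · rw [hAm.We_supp n s hs, hAm.w_supp 0 s hs]
    simp only [mul_zero, smul_zero, sub_zero, zero_sub, neg_eq_zero]
    exact Finset.sum_eq_zero fun l _ => by rw [(Fw_props hAm l).2.1 s hs, smul_zero]
  · have g1 := hpr n hn0 (fun s => R n s - s⁻¹ • ((2 / Real.pi : ℝ) : ℂ) • M) K₃ hK₃
      (ho n hn) s hs
    have g2 := hB₁ n hn0 s hs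
    simp only [Finset.sum_range_one, zero_add, pow_one] at g2
    have g2' : nm (We n s - (q : ℂ) • w 0 s) ≤ |B₁| * q ^ 2 := by
      have e : ((n : ℂ))⁻¹ = ((q : ℝ) : ℂ) := by
        rw [hq]
        push_cast
        rfl
      rw [e] at g2
      refine g2.trans ?_
      rw [hq, inv_pow, ← div_eq_mul_inv]
      exact div_le_div_of_nonneg_right (le_abs_self _) (by positivity)
    have e5 : 1 / (n : ℝ) ^ (4 + 1) = q ^ 5 := by
      rw [hq, inv_pow, one_div]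
    rw [e5] at g1
    have e6 : R n s * We n s - (∑ l ∈ Finset.range 4, (((n : ℂ) ^ (l + 1))⁻¹) • Fw w l s) -
        (q : ℂ) • ((2 / Real.pi : ℝ) : ℂ) • (M * s⁻¹ • w 0 s) =
        ((R n s - s⁻¹ • ((2 / Real.pi : ℝ) : ℂ) • M) * We n s -
          ∑ l ∈ Finset.range 4, (((n : ℂ) ^ (l + 1))⁻¹) • Fw w l s) +
        s⁻¹ • ((2 / Real.pi : ℝ) : ℂ) • (M * (We n s - (q : ℂ) • w 0 s)) := by
      simp only [sub_mul, mul_sub, smul_sub, Matrix.smul_mul, Matrix.mul_smul]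
      rw [smul_comm (q : ℂ) (((2 / Real.pi : ℝ) : ℂ)), smul_comm (q : ℂ) s⁻¹,
        smul_comm (((2 / Real.pi : ℝ) : ℂ)) s⁻¹]
      abel
    rw [e6]
    refine (nm_add _ _).trans ?_
    have hpi : 2 / Real.pi ≤ 1 := by
      rw [div_le_one Real.pi_pos]
      exact Real.two_le_pi
    have g7 : nm (s⁻¹ • ((2 / Real.pi : ℝ) : ℂ) • (M * (We n s - (q : ℂ) • w 0 s))) ≤
        r⁻¹ * (K₂ * |B₁|) * q ^ 5 := by
      rw [Pert.nm_smul, norm_inv, nm_rsmul (by positivity)]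
      have k1 : nm (M * (We n s - (q : ℂ) • w 0 s)) ≤ K₂ * q ^ 3 * (|B₁| * q ^ 2) :=
        (nm_mul _ _).trans (mul_le_mul f3 g2' (nm_nonneg _) (by positivity))
      have k2 : 2 / Real.pi * nm (M * (We n s - (q : ℂ) • w 0 s)) ≤
          1 * (K₂ * q ^ 3 * (|B₁| * q ^ 2)) :=
        mul_le_mul hpi k1 (nm_nonneg _) zero_le_one
      have k3 : ‖s‖⁻¹ * (2 / Real.pi * nm (M * (We n s - (q : ℂ) • w 0 s))) ≤
          r⁻¹ * (1 * (K₂ * q ^ 3 * (|B₁| * q ^ 2))) :=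
        mul_le_mul (inv_anti₀ hr (hAm.A_loc s hs).1) k2
          (mul_nonneg (by positivity) (nm_nonneg _)) (by positivity)
      refine k3.trans (le_of_eq ?_)
      ring
    linarith

theorem adm_J (hAm : Asm 3 y0 r c C n0 A w We Wx) : ∃ b : ℝ, 0 ≤ b ∧ Adm (fun s => s⁻¹ • w 0 s) ∧
    ∀ z ∈ UH, nm (KK (fun s => s⁻¹ • w 0 s) z) ≤ b := by
  have hr := hAm.r_pos
  obtain ⟨b, hb⟩ := hAm.w_bd 0
  have h := adm_of_supp (fun s hs => (hAm.A_loc s hs).2)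
    (mb_smul measurable_inv (mb_meas (hAm.w_meas 0)))
    (fun s hs => by rw [hAm.w_supp 0 s hs, smul_zero]) (r⁻¹ * |b|) (fun s hs => by
      rw [Pert.nm_smul, norm_inv]
      exact mul_le_mul (inv_anti₀ hr (hAm.A_loc s hs).1) ((hb s hs).trans (le_abs_self b))
        (nm_nonneg _) (by positivity)) (by positivity)
  exact ⟨17 * (r⁻¹ * |b|), by positivity, h.1, h.2.1⟩

/-- The contribution of the origin to the integral. -/
theorem Base.int_W0 (h : Base y0 r c C n0 A w We Wx R (rhoP w) n1 B) :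
    ∃ K : ℝ, 0 ≤ K ∧ ∀ n, n1 ≤ n →
      nm (IU (fun s => R n s * W0 3 n y0 s) - IU (W0 3 n y0) +
        ((((n : ℝ)⁻¹ : ℝ) : ℂ) • ((2 / Real.pi : ℝ) : ℂ) •
          (reM (IU (fun s => s⁻¹ • w 0 s)) * IU (W0 3 n y0)))) ≤ K * (n : ℝ)⁻¹ ^ 5 := by
  have hC := h.C_nonneg
  obtain ⟨K, hK, hf⟩ := h.first
  obtain ⟨K₁, hK₁, h1⟩ := gb2 c r h.asm.c_pos h.asm.r_pos
  obtain ⟨K₂, hK₂, h2⟩ := gb3 c r h.asm.c_pos h.asm.r_pos
  obtain ⟨b, hb, aJ, hJ⟩ := adm_J h.asm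
  refine ⟨K₁ * (K * C) + K₂ * (b * C), by positivity, fun n hn => ?_⟩
  have hn0 : n0 ≤ n := h.le.trans hn
  have hn1 : 1 ≤ n := h.pos.trans hn
  obtain ⟨hq0, hq1⟩ := q_facts hn1
  set q : ℝ := (n : ℝ)⁻¹ with hq
  set J := IU (fun s => s⁻¹ • w 0 s) with hJd
  have hRm : Mb (R n) := mb_cont (h.R_cont n hn)
  have hW : Mb (W0 3 n y0) := mb_cont (h.asm.W0_cont n)
  have hρm : Mb (rhoP w 1) := h.ρ_meas 1
  obtain ⟨a0, -, -, -⟩ := h1 n hn1 _ hW C hC (fun s hs => h.W0_le hn1 hs)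
  have key : ∀ z ∈ UH, rhoP w 1 z + ((2 / Real.pi : ℝ) : ℂ) • reM J =
      z • KK (fun s => s⁻¹ • w 0 s) z := by
    intro z hz
    have e1 := KK_shift aJ hz
    have e2 : KK (fun s => s • s⁻¹ • w 0 s) z = KK (w 0) z := by
      refine KK_congr (fun s hs => ?_) z
      have hs0 : s ≠ 0 := by
        rintro rfl
        exact lt_irrefl _ (show (0 : ℝ) < (0 : ℂ).im from hs)
      rw [smul_inv_smul₀ hs0]
    rw [h.ρ_one z hz, ← e2, e1]
    push_cast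
    abel
  obtain ⟨a1, -, -, d1⟩ := h1 n hn1 (fun s => (R n s - 1 - (q : ℂ) • rhoP w 1 s) * W0 3 n y0 s)
    (mb_mul (mb_sub (mb_sub hRm (mb_const 1)) (mb_smul measurable_const hρm)) hW)
    (K * q ^ 2 * C) (by positivity) (fun s hs => by
      refine (nm_mul _ _).trans ?_
      calc nm (R n s - 1 - (q : ℂ) • rhoP w 1 s) * nm (W0 3 n y0 s) ≤
            K * q ^ 2 * (C * gw 2 c n s) :=
            mul_le_mul (hf n hn s hs).1 (h.W0_le hn1 hs) (nm_nonneg _) (by positivity)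
        _ = K * q ^ 2 * C * gw 2 c n s := by ring)
  obtain ⟨a2, -, d2⟩ := h2 n hn1
    (fun s => ((q : ℂ) • (rhoP w 1 s + ((2 / Real.pi : ℝ) : ℂ) • reM J)) * W0 3 n y0 s)
    (mb_mul (mb_smul measurable_const (mb_add hρm (mb_const _))) hW)
    (q * b * C) (by positivity) (fun s hs => by
      refine (nm_mul _ _).trans ?_
      rw [nm_rsmul hq0.le, key s hs, Pert.nm_smul]
      calc q * (‖s‖ * nm (KK (fun s => s⁻¹ • w 0 s) s)) * nm (W0 3 n y0 s) ≤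
            q * (‖s‖ * b) * (C * gw 2 c n s) := by
            refine mul_le_mul ?_ (h.W0_le hn1 hs) (nm_nonneg _) (by positivity)
            refine mul_le_mul_of_nonneg_left ?_ hq0.le
            exact mul_le_mul_of_nonneg_left (hJ s hs) (norm_nonneg _)
        _ = q * b * C * gw 3 c n s := by rw [← gw_succ]; ring)
  have a3 : Adm (fun s => reM J * W0 3 n y0 s) :=
    Adm.mul_left (mb_const _) (nm (reM J)) (fun s _ => le_rfl) a0
  have a4 : Adm (fun s => (q : ℂ) • ((2 / Real.pi : ℝ) : ℂ) • (reM J * W0 3 n y0 s)) :=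
    (a3.smul _).smul _
  have a5 : Adm (fun s => R n s * W0 3 n y0 s) :=
    Adm.mul_left hRm 4 (h.R_bd n hn) a0
  have eI : IU (fun s => R n s * W0 3 n y0 s) - IU (W0 3 n y0) +
        ((q : ℂ) • ((2 / Real.pi : ℝ) : ℂ) • (reM J * IU (W0 3 n y0))) =
      IU (fun s => (R n s - 1 - (q : ℂ) • rhoP w 1 s) * W0 3 n y0 s) +
      IU (fun s => ((q : ℂ) • (rhoP w 1 s + ((2 / Real.pi : ℝ) : ℂ) • reM J)) * W0 3 n y0 s) := by
    rw [← IU_add a1 a2, ← IU_const_mul (reM J) a0, ← IU_smul, ← IU_smul, ← IU_sub a5 a0,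
      ← IU_add (a5.sub a0) a4]
    refine IU_congr fun s _ => ?_
    simp only [sub_mul, add_mul, one_mul, smul_add, Matrix.smul_mul]
    abel
  rw [eI]
  refine (nm_add _ _).trans ((add_le_add d1 d2).trans (le_of_eq ?_))
  ring

theorem reM_mul_left (A B : Mat2) : reM (reM A * B) = reM A * reM B := by
  ext i j
  simp [reM, Matrix.mul_apply]

/-- The conclusion. -/
theorem Base.final (h : Base y0 r c C n0 A w We Wx R (rhoP w) n1 B) :
    ∃ (D : ℕ → Mat2) (U : Mat2) (B : ℝ) (n1 : ℕ), ∀ n, n1 ≤ n →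
      nm ((2 / Real.pi : ℂ) • reM (IU (fun s => R n s * (We n s + W0 3 n y0 s + Wx n s)))
        - ∑ k ∈ Finset.range 4, (((n : ℂ) ^ (k + 1))⁻¹) • D k
        - (2 / Real.pi : ℂ) • reM (IU (W0 3 n y0))
        - ((n : ℂ)⁻¹) • (reM (IU (W0 3 n y0)) * U - U * reM (IU (W0 3 n y0)))) ≤ B / n ^ 5 := by
  obtain ⟨K₁, hK₁, h1⟩ := h.int_We
  obtain ⟨K₂, hK₂, h2⟩ := h.int_W0
  obtain ⟨K₃, hK₃, h3⟩ := h.pieces
  set J := IU (fun s => s⁻¹ • w 0 s) with hJ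
  refine ⟨fun k => ((2 / Real.pi : ℝ) : ℂ) • reM (IU (Fw w k)),
    ((4 / Real.pi ^ 2 : ℝ) : ℂ) • reM J, K₁ + K₂ + K₃, n1, fun n hn => ?_⟩
  have hn1 : 1 ≤ n := h.pos.trans hn
  obtain ⟨hq0, hq1⟩ := q_facts hn1
  have g1 := h1 n hn
  have g2 := h2 n hn
  obtain ⟨-, -, -, -, -, -, g3, g4⟩ := h3 n hn
  have hcast : ((n : ℂ))⁻¹ = (((n : ℝ)⁻¹ : ℝ) : ℂ) := by
    push_cast
    rfl
  set q : ℝ := (n : ℝ)⁻¹ with hq
  set a : ℝ := 2 / Real.pi with ha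
  have ha0 : 0 ≤ a := by positivity
  have ha1 : a ≤ 1 := by
    rw [ha, div_le_one Real.pi_pos]
    exact Real.two_le_pi
  have hab : (4 / Real.pi ^ 2 : ℝ) = a * a := by
    rw [ha]
    field_simp
    norm_num
  have hac : (2 / Real.pi : ℂ) = (a : ℂ) := by
    rw [ha]
    push_cast
    rfl
  have hpow : ∀ k : ℕ, ((n : ℂ) ^ (k + 1))⁻¹ = ((q ^ (k + 1) : ℝ) : ℂ) := by
    intro k
    rw [hq]
    push_cast
    rw [inv_pow]
  rw [hab, hac, g4, hcast]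
  simp only [hpow] at g1 ⊢
  set M := IU (W0 3 n y0) with hM
  set I₁ := IU (fun s => R n s * We n s) with hI₁
  set I₂ := IU (fun s => R n s * W0 3 n y0 s) with hI₂
  set I₃ := IU (fun s => R n s * Wx n s) with hI₃
  have key : (a : ℂ) • reM (I₁ + I₂ + I₃)
        - ∑ k ∈ Finset.range 4, ((q ^ (k + 1) : ℝ) : ℂ) • (a : ℂ) • reM (IU (Fw w k))
        - (a : ℂ) • reM M
        - (q : ℂ) • (reM M * ((a * a : ℝ) : ℂ) • reM J - ((a * a : ℝ) : ℂ) • reM J * reM M) =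
      (a : ℂ) • reM ((I₁ - ∑ l ∈ Finset.range 4, ((q ^ (l + 1) : ℝ) : ℂ) • IU (Fw w l) -
        ((q : ℂ) • (a : ℂ) • (reM M * J))) + (I₂ - M + ((q : ℂ) • (a : ℂ) • (reM J * M))) + I₃) := by
    simp only [reM_add, reM_sub, reM_smul_real, reM_mul_left, Finset.sum_range_succ,
      Finset.range_zero, Finset.sum_empty, zero_add, Matrix.mul_smul, Matrix.smul_mul]
    push_cast
    module
  rw [key, nm_rsmul ha0]
  have e1 : nm (reM ((I₁ - ∑ l ∈ Finset.range 4, ((q ^ (l + 1) : ℝ) : ℂ) • IU (Fw w l) -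
        ((q : ℂ) • (a : ℂ) • (reM M * J))) + (I₂ - M + ((q : ℂ) • (a : ℂ) • (reM J * M))) + I₃)) ≤
      (K₁ + K₂ + K₃) * q ^ 5 := by
    refine (nm_reM _).trans ?_
    refine (nm_add _ _).trans ?_
    refine (add_le_add (nm_add _ _) le_rfl).trans ?_
    linarith
  have e2 : (K₁ + K₂ + K₃) / (n : ℝ) ^ 5 = (K₁ + K₂ + K₃) * q ^ 5 := by
    rw [hq, inv_pow, div_eq_mul_inv]
  rw [e2]
  calc a * nm (reM ((I₁ - ∑ l ∈ Finset.range 4, ((q ^ (l + 1) : ℝ) : ℂ) • IU (Fw w l) -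
        ((q : ℂ) • (a : ℂ) • (reM M * J))) + (I₂ - M + ((q : ℂ) • (a : ℂ) • (reM J * M))) + I₃)) ≤
      1 * ((K₁ + K₂ + K₃) * q ^ 5) := mul_le_mul ha1 e1 (nm_nonneg _) zero_le_one
    _ = (K₁ + K₂ + K₃) * q ^ 5 := one_mul _

end

end PertBAux

open PertBAux Pert in
theorem perturb_b (y0 r c C : ℝ) (n0 : ℕ) (A : Set ℂ) (w : ℕ → ℂ → Mat2)
    (We Wx : ℕ → ℂ → Mat2) (hA : Asm 3 y0 r c C n0 A w We Wx) (R : ℕ → ℂ → Mat2)
    (hRc : ∀ n, n0 ≤ n → ContinuousOn (R n) UH)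
    (hRb : ∀ n, n0 ≤ n → ∃ B : ℝ, ∀ z ∈ UH, nm (R n z) ≤ B)
    (hR : ∀ n, n0 ≤ n → ∀ z ∈ UH,
      R n z = 1 + KK (fun s => R n s * (We n s + W0 3 n y0 s + Wx n s)) z) :
    ∃ (D : ℕ → Mat2) (U : Mat2) (B : ℝ) (n1 : ℕ), ∀ n, n1 ≤ n →
      nm ((2 / Real.pi : ℂ) • reM (IU (fun s => R n s * (We n s + W0 3 n y0 s + Wx n s)))
        - ∑ k ∈ Finset.range 4, (((n : ℂ) ^ (k + 1))⁻¹) • D k
        - (2 / Real.pi : ℂ) • reM (IU (W0 3 n y0))
        - ((n : ℂ)⁻¹) • (reM (IU (W0 3 n y0)) * U - U * reM (IU (W0 3 n y0)))) ≤ B / n ^ 5 := by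
  have hα : (1 : ℝ) < 3 := by norm_num
  obtain ⟨m1, hm1, hb⟩ := base_bound hα hA R hRc hRb hR
  obtain ⟨m2, hm2, he⟩ := base_exp hα hA R hRc hRb hR
  obtain ⟨B, hB, he3⟩ := he 3
  have hbase : Base y0 r c C n0 A w We Wx R (rhoP w) (max m1 m2) (B * 2) := by
    refine ⟨hA, hm1.trans (le_max_left _ _), hA.n0_pos.trans (hm1.trans (le_max_left _ _)),
      by positivity, fun n hn => hRc n (hm1.trans ((le_max_left _ _).trans hn)),
      fun n hn => hb n ((le_max_left _ _).trans hn),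
      fun n hn => hR n (hm1.trans ((le_max_left _ _).trans hn)), fun z => by rw [rhoP_zero],
      fun z _ => ?_, fun k i j => ((rho_props hA k).1 i j).aestronglyMeasurable,
      fun k => (rho_props hA k).2, fun n hn z hz => ?_⟩
    · rw [rhoP_succ]
      have : Fw w 0 = w 0 := by
        funext s
        simp [Fw, rhoP_zero]
      rw [this]
    · have hn1 : 1 ≤ n := hA.n0_pos.trans (hm1.trans ((le_max_left _ _).trans hn))
      have h3 := (he3 n ((le_max_right _ _).trans hn)).2.2.1 z hz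
      have e1 : ∑ l ∈ Finset.range 3, (((n : ℂ) ^ (l + 1))⁻¹) • rhoP w (l + 1) z =
          ((((n : ℝ)⁻¹ : ℝ) : ℂ) • rhoP w 1 z + (((n : ℝ)⁻¹ ^ 2 : ℝ) : ℂ) • rhoP w 2 z +
            (((n : ℝ)⁻¹ ^ 3 : ℝ) : ℂ) • rhoP w 3 z) := by
        simp only [Finset.sum_range_succ, Finset.range_zero, Finset.sum_empty, zero_add]
        push_cast
        rw [inv_pow, inv_pow, pow_one]
      have e2 : eps 3 3 n / n = 2 * (n : ℝ)⁻¹ ^ 4 := by
        have e3 : (n : ℝ) ^ (-(3 : ℝ)) = (n : ℝ)⁻¹ ^ 3 := by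
          rw [Real.rpow_neg (Nat.cast_nonneg n), ← Real.inv_rpow (Nat.cast_nonneg n)]
          norm_cast
        unfold eps
        rw [e3, one_div, ← inv_pow, div_eq_mul_inv]
        ring
      rw [e1, e2] at h3
      refine h3.trans (le_of_eq (by ring))
  exact hbase.final

end Pool.Agent.Freud
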