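import Pool.Agent.Freud.Defs2

/-!
Perturbation theory, base file: bounds for the operator `KK` on the upper half plane.
-/

set_option autoImplicit false

open MeasureTheory Filter Topology Asymptotics Set

namespace Pool.Agent.Freud

namespace Pert

/-! ### The norm `nm` -/

lemma nm_nonneg (A : Mat2) : 0 ≤ nm A := by unfold nm; positivity

lemma nm_zero : nm (0 : Mat2) = 0 := by simp [nm]

lemma nm_one : nm (1 : Mat2) = 2 := by
  simp [nm]; norm_num

lemma nm_add (A B : Mat2) : nm (A + B) ≤ nm A + nm B := by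
  unfold nm
  simp only [Matrix.add_apply]
  linarith [norm_add_le (A 0 0) (B 0 0), norm_add_le (A 0 1) (B 0 1),
    norm_add_le (A 1 0) (B 1 0), norm_add_le (A 1 1) (B 1 1)]

lemma nm_neg (A : Mat2) : nm (-A) = nm A := by simp [nm]

lemma nm_sub (A B : Mat2) : nm (A - B) ≤ nm A + nm B := by
  rw [sub_eq_add_neg]
  exact (nm_add _ _).trans (by rw [nm_neg])

lemma nm_smul (c : ℂ) (A : Mat2) : nm (c • A) = ‖c‖ * nm A := by
  unfold nm
  simp only [Matrix.smul_apply, smul_eq_mul, norm_mul]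
  ring

lemma nm_mul (A B : Mat2) : nm (A * B) ≤ nm A * nm B := by
  unfold nm
  simp only [Matrix.mul_apply, Fin.sum_univ_two]
  have h := fun i j => norm_add_le (A i 0 * B 0 j) (A i 1 * B 1 j)
  simp only [norm_mul] at h
  have h00 := h 0 0
  have h01 := h 0 1
  have h10 := h 1 0
  have h11 := h 1 1
  have p := fun i j k l => mul_nonneg (norm_nonneg (A i j)) (norm_nonneg (B k l))
  nlinarith [p 0 0 0 0, p 0 0 0 1, p 0 0 1 0, p 0 0 1 1, p 0 1 0 0, p 0 1 0 1, p 0 1 1 0,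
    p 0 1 1 1, p 1 0 0 0, p 1 0 0 1, p 1 0 1 0, p 1 0 1 1, p 1 1 0 0, p 1 1 0 1, p 1 1 1 0,
    p 1 1 1 1]

lemma nm_sum {ι : Type*} (t : Finset ι) (f : ι → Mat2) :
    nm (∑ i ∈ t, f i) ≤ ∑ i ∈ t, nm (f i) := by
  classical
  induction t using Finset.induction_on with
  | empty => simp [nm_zero]
  | insert a t ha ih =>
    rw [Finset.sum_insert ha, Finset.sum_insert ha]
    exact (nm_add _ _).trans (by linarith)

lemma entry_le_nm (A : Mat2) (i j : Fin 2) : ‖A i j‖ ≤ nm A := by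
  unfold nm
  fin_cases i <;> fin_cases j <;> simp <;>
    linarith [norm_nonneg (A 0 0), norm_nonneg (A 0 1), norm_nonneg (A 1 0), norm_nonneg (A 1 1)]

lemma nm_reM (A : Mat2) : nm (reM A) ≤ nm A := by
  have h : ∀ z : ℂ, ‖((z.re : ℝ) : ℂ)‖ ≤ ‖z‖ := fun z => by
    rw [Complex.norm_real]; exact Complex.abs_re_le_norm z
  unfold nm reM
  simp only [Matrix.map_apply]
  linarith [h (A 0 0), h (A 0 1), h (A 1 0), h (A 1 1)]

lemma reM_add (A B : Mat2) : reM (A + B) = reM A + reM B := by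
  ext i j; simp [reM]

lemma reM_sub (A B : Mat2) : reM (A - B) = reM A - reM B := by
  ext i j; simp [reM]

lemma reM_smul_real (c : ℝ) (A : Mat2) : reM ((c : ℂ) • A) = (c : ℂ) • reM A := by
  ext i j; simp [reM]

lemma reM_sum {ι : Type*} (t : Finset ι) (f : ι → Mat2) :
    reM (∑ i ∈ t, f i) = ∑ i ∈ t, reM (f i) := by
  classical
  induction t using Finset.induction_on with
  | empty => ext i j; simp [reM]
  | insert a t ha ih => rw [Finset.sum_insert ha, Finset.sum_insert ha, reM_add, ih]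

/-! ### The half plane -/

lemma isOpen_UH : IsOpen UH := by
  unfold UH
  exact isOpen_lt continuous_const Complex.continuous_im

lemma measurableSet_UH : MeasurableSet UH := isOpen_UH.measurableSet

lemma norm_sub_le_conj {s z : ℂ} (hs : s ∈ UH) (hz : z ∈ UH) :
    ‖s - z‖ ≤ ‖starRingEnd ℂ s - z‖ := by
  have hs' : 0 < s.im := hs
  have hz' : 0 < z.im := hz
  rw [Complex.norm_eq_sqrt_sq_add_sq, Complex.norm_eq_sqrt_sq_add_sq]
  apply Real.sqrt_le_sqrt
  simp only [Complex.sub_re, Complex.sub_im, Complex.conj_re, Complex.conj_im]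
  nlinarith [mul_pos hs' hz']

/-! ### The real kernel estimate -/

lemma integral_inv_norm (ρ : ℝ) (hρ : 0 < ρ) :
    Integrable (fun t : ℂ => if ‖t‖ ≤ ρ then ‖t‖⁻¹ else 0) ∧
    ∫ t : ℂ, (if ‖t‖ ≤ ρ then ‖t‖⁻¹ else 0) = 2 * Real.pi * ρ := by
  have hfun : ∀ y : ℝ, y ∈ Ioi (0:ℝ) → y ^ (Module.finrank ℝ ℂ - 1) •
      (if y ≤ ρ then y⁻¹ else 0) = (Ioc 0 ρ).indicator (fun _ => (1:ℝ)) y := by
    intro y hy
    have hy' : (0:ℝ) < y := hy
    rw [Complex.finrank_real_complex]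
    by_cases h : y ≤ ρ
    · simp [h, hy', hy'.ne', indicator]
    · simp [h, indicator]
  constructor
  · rw [integrable_fun_norm_addHaar volume (f := fun y : ℝ => if y ≤ ρ then y⁻¹ else 0),
      integrableOn_congr_fun hfun measurableSet_Ioi]
    apply Integrable.integrableOn
    rw [integrable_indicator_iff measurableSet_Ioc]
    exact integrableOn_const (by simp)
  · rw [integral_fun_norm_addHaar volume (f := fun y : ℝ => if y ≤ ρ then y⁻¹ else 0),
      setIntegral_congr_fun measurableSet_Ioi hfun]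
    rw [setIntegral_indicator measurableSet_Ioc]
    have : Ioi (0:ℝ) ∩ Ioc 0 ρ = Ioc 0 ρ := by
      ext x; simp
    rw [this, setIntegral_const]
    simp [Complex.finrank_real_complex, Measure.real, Complex.volume_ball, hρ.le]
    ring

lemma kint (g : ℂ → ℝ) (z : ℂ) (ρ M : ℝ) (hρ : 0 < ρ) (hM0 : 0 ≤ M)
    (hg0 : ∀ s ∈ UH, 0 ≤ g s) (hM : ∀ s ∈ UH, ‖s - z‖ ≤ ρ → g s ≤ M)
    (hint : IntegrableOn g UH) :
    IntegrableOn (fun s => g s / ‖s - z‖) UH ∧
      ∫ s in UH, g s / ‖s - z‖ ≤ 2 * Real.pi * ρ * M + ρ⁻¹ * ∫ s in UH, g s := by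
  obtain ⟨h1, h2⟩ := integral_inv_norm ρ hρ
  set h : ℂ → ℝ := fun t => if ‖t‖ ≤ ρ then ‖t‖⁻¹ else 0 with hh
  have h1' : Integrable (fun s => h (s - z)) := h1.comp_sub_right z
  have hle : ∀ s ∈ UH, g s / ‖s - z‖ ≤ M * h (s - z) + ρ⁻¹ * g s := by
    intro s hs
    have hρg : 0 ≤ ρ⁻¹ * g s := mul_nonneg (inv_nonneg.mpr hρ.le) (hg0 s hs)
    by_cases hsz : ‖s - z‖ ≤ ρ
    · have : h (s - z) = ‖s - z‖⁻¹ := by simp [hh, hsz]
      rw [this, div_eq_mul_inv]
      have := mul_le_mul_of_nonneg_right (hM s hs hsz) (inv_nonneg.mpr (norm_nonneg (s - z)))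
      linarith
    · have : h (s - z) = 0 := by simp [hh, hsz]
      rw [this, mul_zero, zero_add, div_eq_inv_mul]
      push Not at hsz
      exact mul_le_mul_of_nonneg_right (inv_anti₀ hρ hsz.le) (hg0 s hs)
  have hdom : IntegrableOn (fun s => M * h (s - z) + ρ⁻¹ * g s) UH :=
    (h1'.integrableOn.const_mul M).add (hint.const_mul ρ⁻¹)
  have hmeas : AEStronglyMeasurable (fun s => g s / ‖s - z‖) (volume.restrict UH) := by
    have e1 : AEStronglyMeasurable g (volume.restrict UH) := hint.aestronglyMeasurable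
    have e2 : Measurable (fun s : ℂ => ‖s - z‖⁻¹) := by fun_prop
    have := e1.mul e2.aestronglyMeasurable
    refine this.congr ?_
    filter_upwards with s
    simp [div_eq_mul_inv]
  have hI : IntegrableOn (fun s => g s / ‖s - z‖) UH := by
    refine Integrable.mono' hdom hmeas ?_
    filter_upwards [ae_restrict_mem measurableSet_UH] with s hs
    rw [Real.norm_of_nonneg (div_nonneg (hg0 s hs) (norm_nonneg _))]
    exact hle s hs
  refine ⟨hI, ?_⟩
  calc ∫ s in UH, g s / ‖s - z‖ ≤ ∫ s in UH, (M * h (s - z) + ρ⁻¹ * g s) :=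
        setIntegral_mono_on hI hdom measurableSet_UH hle
    _ = M * (∫ s in UH, h (s - z)) + ρ⁻¹ * ∫ s in UH, g s := by
        rw [integral_add (h1'.integrableOn.const_mul M) (hint.const_mul ρ⁻¹),
          integral_const_mul, integral_const_mul]
    _ ≤ M * (∫ s, h (s - z)) + ρ⁻¹ * ∫ s in UH, g s := by
        have h0 : ∀ t, 0 ≤ h t := fun t => by simp only [hh]; split_ifs <;> simp
        have := setIntegral_le_integral (s := UH) h1' (Eventually.of_forall fun s => h0 (s - z))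
        have := mul_le_mul_of_nonneg_left this hM0
        linarith
    _ = 2 * Real.pi * ρ * M + ρ⁻¹ * ∫ s in UH, g s := by
        rw [integral_sub_right_eq_self h z, h2]; ring

/-! ### Admissible matrix functions -/

/-- Measurable, bounded and integrable on the upper half plane. -/
structure Adm (X : ℂ → Mat2) : Prop where
  meas : ∀ i j, AEStronglyMeasurable (fun s => X s i j) (volume.restrict UH)
  bdd : ∃ M, ∀ s ∈ UH, nm (X s) ≤ M
  int : IntegrableOn (fun s => nm (X s)) UH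

lemma nm_meas {X : ℂ → Mat2}
    (h : ∀ i j, AEStronglyMeasurable (fun s => X s i j) (volume.restrict UH)) :
    AEStronglyMeasurable (fun s => nm (X s)) (volume.restrict UH) := by
  unfold nm
  exact (((h 0 0).norm.add (h 0 1).norm).add (h 1 0).norm).add (h 1 1).norm

lemma Adm.of_le {X : ℂ → Mat2} (F : ℂ → ℝ)
    (h : ∀ i j, AEStronglyMeasurable (fun s => X s i j) (volume.restrict UH))
    (hF : ∀ s ∈ UH, nm (X s) ≤ F s) (hFb : ∃ M, ∀ s ∈ UH, F s ≤ M)
    (hFi : IntegrableOn F UH) : Adm X := by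
  refine ⟨h, ?_, ?_⟩
  · obtain ⟨M, hM⟩ := hFb
    exact ⟨M, fun s hs => (hF s hs).trans (hM s hs)⟩
  · refine Integrable.mono' hFi (nm_meas h) ?_
    filter_upwards [ae_restrict_mem measurableSet_UH] with s hs
    rw [Real.norm_of_nonneg (nm_nonneg _)]
    exact hF s hs

lemma Adm.add {X Y : ℂ → Mat2} (hX : Adm X) (hY : Adm Y) : Adm (fun s => X s + Y s) := by
  obtain ⟨M, hM⟩ := hX.bdd
  obtain ⟨N, hN⟩ := hY.bdd
  refine Adm.of_le (fun s => nm (X s) + nm (Y s)) ?_ (fun s _ => nm_add _ _)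
    ⟨M + N, fun s hs => add_le_add (hM s hs) (hN s hs)⟩ (hX.int.add hY.int)
  intro i j
  exact (hX.meas i j).add (hY.meas i j)

lemma Adm.smul {X : ℂ → Mat2} (hX : Adm X) (c : ℂ) : Adm (fun s => c • X s) := by
  obtain ⟨M, hM⟩ := hX.bdd
  refine Adm.of_le (fun s => ‖c‖ * nm (X s)) ?_ (fun s _ => (nm_smul _ _).le)
    ⟨‖c‖ * M, fun s hs => mul_le_mul_of_nonneg_left (hM s hs) (norm_nonneg c)⟩
    (hX.int.const_mul _)
  intro i j
  simpa using (hX.meas i j).const_mul c

lemma Adm.zero : Adm (fun _ => (0 : Mat2)) := by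
  refine ⟨fun i j => ?_, ⟨0, fun s _ => nm_zero.le⟩, ?_⟩
  · simpa using aestronglyMeasurable_const
  · simp [nm_zero]

lemma Adm.neg {X : ℂ → Mat2} (hX : Adm X) : Adm (fun s => -X s) := by
  have := hX.smul (-1)
  simpa using this

lemma Adm.sub {X Y : ℂ → Mat2} (hX : Adm X) (hY : Adm Y) : Adm (fun s => X s - Y s) := by
  have := hX.add hY.neg
  simpa [sub_eq_add_neg] using this

lemma Adm.sum {ι : Type*} (t : Finset ι) {X : ι → ℂ → Mat2} (h : ∀ i ∈ t, Adm (X i)) :
    Adm (fun s => ∑ i ∈ t, X i s) := by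
  classical
  induction t using Finset.induction_on with
  | empty => simpa using Adm.zero
  | insert a t ha ih =>
    simp only [Finset.sum_insert ha]
    exact (h a (by simp)).add (ih fun i hi => h i (by simp [hi]))

lemma Adm.congr {X Y : ℂ → Mat2} (hX : Adm X) (h : ∀ s ∈ UH, Y s = X s) : Adm Y := by
  refine ⟨fun i j => ?_, ?_, ?_⟩
  · refine (hX.meas i j).congr ?_
    filter_upwards [ae_restrict_mem measurableSet_UH] with s hs
    rw [h s hs]
  · obtain ⟨M, hM⟩ := hX.bdd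
    exact ⟨M, fun s hs => by rw [h s hs]; exact hM s hs⟩
  · exact hX.int.congr_fun (fun s hs => by simp only [h s hs]) measurableSet_UH

lemma Adm.mul_left {X Y : ℂ → Mat2}
    (hX : ∀ i j, AEStronglyMeasurable (fun s => X s i j) (volume.restrict UH)) (B : ℝ)
    (hXB : ∀ s ∈ UH, nm (X s) ≤ B) (hY : Adm Y) : Adm (fun s => X s * Y s) := by
  obtain ⟨N, hN⟩ := hY.bdd
  refine Adm.of_le (fun s => |B| * nm (Y s)) ?_ ?_
    ⟨|B| * N, fun s hs => mul_le_mul_of_nonneg_left (hN s hs) (abs_nonneg B)⟩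
    (hY.int.const_mul _)
  · intro i j
    simp only [Matrix.mul_apply, Fin.sum_univ_two]
    exact ((hX i 0).mul (hY.meas 0 j)).add ((hX i 1).mul (hY.meas 1 j))
  · intro s hs
    exact (nm_mul _ _).trans (mul_le_mul_of_nonneg_right
      ((hXB s hs).trans (le_abs_self B)) (nm_nonneg _))

/-! ### The operators `KK` and `IU` on admissible functions -/

lemma Adm.entry_int {X : ℂ → Mat2} (hX : Adm X) (i j : Fin 2) :
    IntegrableOn (fun s => X s i j) UH :=
  Integrable.mono' hX.int (hX.meas i j) (by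
    filter_upwards with s
    exact entry_le_nm _ _ _)

lemma Adm.kernel {X : ℂ → Mat2} (hX : Adm X) (z : ℂ) :
    IntegrableOn (fun s => nm (X s) / ‖s - z‖) UH := by
  obtain ⟨M, hM⟩ := hX.bdd
  exact (kint (fun s => nm (X s)) z 1 |M| one_pos (abs_nonneg M) (fun s _ => nm_nonneg _)
    (fun s hs _ => (hM s hs).trans (le_abs_self M)) hX.int).1

lemma ae_ne (z : ℂ) : ∀ᵐ s ∂(volume.restrict UH), s ≠ z := by
  apply ae_restrict_of_ae
  exact compl_mem_ae_iff.mpr (measure_singleton z)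

lemma Adm.entry_kernel {X : ℂ → Mat2} (hX : Adm X) {z : ℂ} (hz : z ∈ UH) (i j : Fin 2) :
    IntegrableOn (fun s => X s i j / (s - z) +
      starRingEnd ℂ (X s i j) / (starRingEnd ℂ s - z)) UH ∧
    ∀ᵐ s ∂(volume.restrict UH),
      ‖X s i j / (s - z) + starRingEnd ℂ (X s i j) / (starRingEnd ℂ s - z)‖ ≤
      2 * (‖X s i j‖ / ‖s - z‖) := by
  have hb : ∀ᵐ s ∂(volume.restrict UH),
      ‖X s i j / (s - z) + starRingEnd ℂ (X s i j) / (starRingEnd ℂ s - z)‖ ≤
      2 * (‖X s i j‖ / ‖s - z‖) := by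
    filter_upwards [ae_restrict_mem measurableSet_UH, ae_ne z] with s hs h0
    refine (norm_add_le _ _).trans ?_
    rw [norm_div, norm_div, RCLike.norm_conj]
    have : ‖X s i j‖ / ‖starRingEnd ℂ s - z‖ ≤ ‖X s i j‖ / ‖s - z‖ :=
      div_le_div_of_nonneg_left (norm_nonneg _) (norm_pos_iff.mpr (sub_ne_zero.mpr h0))
          (norm_sub_le_conj hs hz)
    linarith
  refine ⟨?_, hb⟩
  have hm : AEStronglyMeasurable (fun s => X s i j / (s - z) +
      starRingEnd ℂ (X s i j) / (starRingEnd ℂ s - z)) (volume.restrict UH) := by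
    have e1 : Measurable (fun s : ℂ => (s - z)⁻¹) := by fun_prop
    have e2 : Measurable (fun s : ℂ => (starRingEnd ℂ s - z)⁻¹) := by fun_prop
    have e3 : AEStronglyMeasurable (fun s => starRingEnd ℂ (X s i j)) (volume.restrict UH) :=
      Complex.continuous_conj.comp_aestronglyMeasurable (hX.meas i j)
    exact ((hX.meas i j).mul e1.aestronglyMeasurable).add (e3.mul e2.aestronglyMeasurable)
  refine Integrable.mono' ((hX.kernel z).const_mul 2) hm ?_
  filter_upwards [hb] with s hs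
  refine hs.trans ?_
  gcongr
  exact entry_le_nm _ _ _

lemma int4 {a b c d : ℂ → ℝ} (ha : IntegrableOn a UH) (hb : IntegrableOn b UH)
    (hc : IntegrableOn c UH) (hd : IntegrableOn d UH) :
    ∫ s in UH, (a s + b s + c s + d s) = (∫ s in UH, a s) + (∫ s in UH, b s) +
      (∫ s in UH, c s) + ∫ s in UH, d s := by
  have h1 : ∫ s in UH, (a s + b s) = (∫ s in UH, a s) + ∫ s in UH, b s := integral_add ha hb
  have h2 : ∫ s in UH, (a s + b s + c s) = (∫ s in UH, (a s + b s)) + ∫ s in UH, c s :=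
    integral_add (ha.add hb) hc
  have h3 : ∫ s in UH, (a s + b s + c s + d s) = (∫ s in UH, (a s + b s + c s)) +
      ∫ s in UH, d s := integral_add ((ha.add hb).add hc) hd
  rw [h3, h2, h1]

lemma nm_KK_le {X : ℂ → Mat2} (hX : Adm X) {z : ℂ} (hz : z ∈ UH) :
    nm (KK X z) ≤ 2 / Real.pi * ∫ s in UH, nm (X s) / ‖s - z‖ := by
  have key : ∀ i j, ‖KK X z i j‖ ≤ 2 / Real.pi * ∫ s in UH, ‖X s i j‖ / ‖s - z‖ := by
    intro i j
    obtain ⟨h1, h2⟩ := hX.entry_kernel hz i j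
    have hk : IntegrableOn (fun s => ‖X s i j‖ / ‖s - z‖) UH := by
      refine Integrable.mono' (hX.kernel z) ?_ ?_
      · have e1 : Measurable (fun s : ℂ => ‖s - z‖⁻¹) := by fun_prop
        exact (hX.meas i j).norm.mul e1.aestronglyMeasurable
      · filter_upwards with s
        rw [Real.norm_of_nonneg (by positivity)]
        gcongr
        exact entry_le_nm _ _ _
    unfold KK KS
    rw [norm_mul]
    have hpi : ‖-(1 / (Real.pi : ℂ))‖ = 1 / Real.pi := by
      rw [norm_neg, norm_div, norm_one, Complex.norm_real, Real.norm_of_nonneg Real.pi_pos.le]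
    rw [hpi]
    have : ‖∫ s in UH, (X s i j / (s - z) + starRingEnd ℂ (X s i j) / (starRingEnd ℂ s - z))‖
        ≤ ∫ s in UH, 2 * (‖X s i j‖ / ‖s - z‖) :=
      (norm_integral_le_integral_norm _).trans
        (integral_mono_ae h1.norm (hk.const_mul 2) h2)
    rw [integral_const_mul] at this
    calc 1 / Real.pi * ‖∫ s in UH, (X s i j / (s - z) +
          starRingEnd ℂ (X s i j) / (starRingEnd ℂ s - z))‖
        ≤ 1 / Real.pi * (2 * ∫ s in UH, ‖X s i j‖ / ‖s - z‖) := by gcongr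
      _ = _ := by ring
  have hk : ∀ i j, IntegrableOn (fun s => ‖X s i j‖ / ‖s - z‖) UH := by
    intro i j
    refine Integrable.mono' (hX.kernel z) ?_ ?_
    · have e1 : Measurable (fun s : ℂ => ‖s - z‖⁻¹) := by fun_prop
      exact (hX.meas i j).norm.mul e1.aestronglyMeasurable
    · filter_upwards with s
      rw [Real.norm_of_nonneg (by positivity)]
      gcongr
      exact entry_le_nm _ _ _
  have hsum : ∫ s in UH, nm (X s) / ‖s - z‖ = (∫ s in UH, ‖X s 0 0‖ / ‖s - z‖) +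
      (∫ s in UH, ‖X s 0 1‖ / ‖s - z‖) + (∫ s in UH, ‖X s 1 0‖ / ‖s - z‖) +
      (∫ s in UH, ‖X s 1 1‖ / ‖s - z‖) := by
    rw [← int4 (hk 0 0) (hk 0 1) (hk 1 0) (hk 1 1)]
    apply setIntegral_congr_fun measurableSet_UH
    intro s _
    simp only [nm]
    ring
  rw [hsum]
  unfold nm
  have := key 0 0
  have := key 0 1
  have := key 1 0
  have := key 1 1
  linarith

lemma nm_IU_le {X : ℂ → Mat2} (hX : Adm X) : nm (IU X) ≤ ∫ s in UH, nm (X s) := by
  have key : ∀ i j, ‖IU X i j‖ ≤ ∫ s in UH, ‖X s i j‖ := fun i j =>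
    norm_integral_le_integral_norm _
  have hk : ∀ i j, IntegrableOn (fun s => ‖X s i j‖) UH := fun i j => (hX.entry_int i j).norm
  have hsum : ∫ s in UH, nm (X s) = (∫ s in UH, ‖X s 0 0‖) +
      (∫ s in UH, ‖X s 0 1‖) + (∫ s in UH, ‖X s 1 0‖) + (∫ s in UH, ‖X s 1 1‖) := by
    rw [← int4 (hk 0 0) (hk 0 1) (hk 1 0) (hk 1 1)]
    apply setIntegral_congr_fun measurableSet_UH
    intro s _
    simp only [nm]
  rw [hsum]
  unfold nm
  have := key 0 0
  have := key 0 1
  have := key 1 0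
  have := key 1 1
  linarith

lemma KK_add {X Y : ℂ → Mat2} (hX : Adm X) (hY : Adm Y) {z : ℂ} (hz : z ∈ UH) :
    KK (fun s => X s + Y s) z = KK X z + KK Y z := by
  ext i j
  simp only [KK, KS, Matrix.add_apply]
  rw [← mul_add, ← integral_add (hX.entry_kernel hz i j).1 (hY.entry_kernel hz i j).1]
  congr 1
  apply integral_congr_ae
  filter_upwards with s
  simp only [map_add]
  ring

lemma KK_smul (X : ℂ → Mat2) (c : ℝ) (z : ℂ) :
    KK (fun s => (c : ℂ) • X s) z = (c : ℂ) • KK X z := by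
  ext i j
  simp only [KK, KS, Matrix.smul_apply, smul_eq_mul]
  have h : ∫ s in UH, ((c : ℂ) * X s i j / (s - z) +
      starRingEnd ℂ ((c : ℂ) * X s i j) / (starRingEnd ℂ s - z)) = (c : ℂ) *
      ∫ s in UH, (X s i j / (s - z) + starRingEnd ℂ (X s i j) / (starRingEnd ℂ s - z)) := by
    rw [← integral_const_mul]
    apply integral_congr_ae
    filter_upwards with s
    simp only [map_mul, Complex.conj_ofReal]
    ring
  rw [h]
  ring

lemma KK_zero (z : ℂ) : KK (fun _ => (0 : Mat2)) z = 0 := by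
  ext i j
  simp [KK, KS]

lemma KK_sub {X Y : ℂ → Mat2} (hX : Adm X) (hY : Adm Y) {z : ℂ} (hz : z ∈ UH) :
    KK (fun s => X s - Y s) z = KK X z - KK Y z := by
  have h1 := KK_smul Y (-1) z
  have h2 := KK_add hX (hY.smul (((-1 : ℝ)) : ℂ)) hz
  rw [h1] at h2
  simpa [sub_eq_add_neg] using h2

lemma KK_sum {ι : Type*} (t : Finset ι) {X : ι → ℂ → Mat2} (h : ∀ i ∈ t, Adm (X i)) {z : ℂ}
    (hz : z ∈ UH) : KK (fun s => ∑ i ∈ t, X i s) z = ∑ i ∈ t, KK (X i) z := by
  classical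
  induction t using Finset.induction_on with
  | empty => simpa using KK_zero z
  | insert a t ha ih =>
    simp only [Finset.sum_insert ha]
    rw [KK_add (h a (by simp)) (Adm.sum t fun i hi => h i (by simp [hi])) hz,
      ih fun i hi => h i (by simp [hi])]

lemma KK_congr {X Y : ℂ → Mat2} (h : ∀ s ∈ UH, X s = Y s) (z : ℂ) : KK X z = KK Y z := by
  ext i j
  simp only [KK, KS]
  congr 1
  apply setIntegral_congr_fun measurableSet_UH
  intro s hs
  simp only [h s hs]

lemma IU_add {X Y : ℂ → Mat2} (hX : Adm X) (hY : Adm Y) :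
    IU (fun s => X s + Y s) = IU X + IU Y := by
  ext i j
  simp only [IU, Matrix.add_apply]
  exact integral_add (hX.entry_int i j) (hY.entry_int i j)

lemma IU_smul (X : ℂ → Mat2) (c : ℂ) : IU (fun s => c • X s) = c • IU X := by
  ext i j
  simp only [IU, Matrix.smul_apply, smul_eq_mul]
  exact integral_const_mul _ _

lemma IU_sub {X Y : ℂ → Mat2} (hX : Adm X) (hY : Adm Y) :
    IU (fun s => X s - Y s) = IU X - IU Y := by
  ext i j
  simp only [IU, Matrix.sub_apply]
  exact integral_sub (hX.entry_int i j) (hY.entry_int i j)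

lemma IU_sum {ι : Type*} (t : Finset ι) {X : ι → ℂ → Mat2} (h : ∀ i ∈ t, Adm (X i)) :
    IU (fun s => ∑ i ∈ t, X i s) = ∑ i ∈ t, IU (X i) := by
  classical
  induction t using Finset.induction_on with
  | empty => ext i j; simp [IU]
  | insert a t ha ih =>
    simp only [Finset.sum_insert ha]
    rw [IU_add (h a (by simp)) (Adm.sum t fun i hi => h i (by simp [hi])),
      ih fun i hi => h i (by simp [hi])]

lemma IU_congr {X Y : ℂ → Mat2} (h : ∀ s ∈ UH, X s = Y s) : IU X = IU Y := by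
  ext i j
  simp only [IU]
  apply setIntegral_congr_fun measurableSet_UH
  intro s hs
  simp only [h s hs]

/-- Constant matrices on the left come out of `IU`. -/
lemma IU_const_mul (M : Mat2) {X : ℂ → Mat2} (hX : Adm X) :
    IU (fun s => M * X s) = M * IU X := by
  ext i j
  simp only [IU, Matrix.mul_apply, Fin.sum_univ_two]
  rw [integral_add ((hX.entry_int 0 j).const_mul _) ((hX.entry_int 1 j).const_mul _),
    integral_const_mul, integral_const_mul]

/-- Constant matrices on the right come out of `IU`. -/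
lemma IU_mul_const (M : Mat2) {X : ℂ → Mat2} (hX : Adm X) :
    IU (fun s => X s * M) = IU X * M := by
  ext i j
  simp only [IU, Matrix.mul_apply, Fin.sum_univ_two]
  rw [integral_add ((hX.entry_int i 0).mul_const _) ((hX.entry_int i 1).mul_const _),
    integral_mul_const, integral_mul_const]

/-! ### The three types of bounds -/

/-- General bound of `KK` by the supremum near `z` and the integral. -/
lemma nm_KK_le' {X : ℂ → Mat2} (hX : Adm X) {z : ℂ} (hz : z ∈ UH) (F : ℂ → ℝ)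
    (hF : ∀ s ∈ UH, nm (X s) ≤ F s) (hFi : IntegrableOn F UH) (ρ M I : ℝ) (hρ : 0 < ρ)
    (hM0 : 0 ≤ M) (hM : ∀ s ∈ UH, ‖s - z‖ ≤ ρ → F s ≤ M) (hI : ∫ s in UH, F s ≤ I) :
    nm (KK X z) ≤ 4 * ρ * M + ρ⁻¹ * I := by
  have h0 : ∀ s ∈ UH, 0 ≤ F s := fun s hs => (nm_nonneg _).trans (hF s hs)
  obtain ⟨h1, h2⟩ := kint F z ρ M hρ hM0 h0 hM hFi
  have h3 : ∫ s in UH, nm (X s) / ‖s - z‖ ≤ ∫ s in UH, F s / ‖s - z‖ :=
    setIntegral_mono_on (hX.kernel z) h1 measurableSet_UH fun s hs => by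
      gcongr
      exact hF s hs
  have h4 := nm_KK_le hX hz
  have hpi := Real.pi_pos
  have hpi3 := Real.pi_gt_three
  have hI0 : 0 ≤ I := (setIntegral_nonneg measurableSet_UH h0).trans hI
  have h5 : 2 / Real.pi * (2 * Real.pi * ρ * M + ρ⁻¹ * ∫ s in UH, F s) ≤
      4 * ρ * M + ρ⁻¹ * I := by
    have e1 : 2 / Real.pi * (2 * Real.pi * ρ * M) = 4 * ρ * M := by
      field_simp
      ring
    have e2 : 2 / Real.pi * (ρ⁻¹ * ∫ s in UH, F s) ≤ 1 * (ρ⁻¹ * I) := by
      apply mul_le_mul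
      · rw [div_le_one hpi]; linarith
      · gcongr
      · exact mul_nonneg (inv_nonneg.mpr hρ.le) (setIntegral_nonneg measurableSet_UH h0)
      · norm_num
    rw [mul_add, e1]
    linarith
  calc nm (KK X z) ≤ 2 / Real.pi * ∫ s in UH, nm (X s) / ‖s - z‖ := h4
    _ ≤ 2 / Real.pi * (2 * Real.pi * ρ * M + ρ⁻¹ * ∫ s in UH, F s) := by
        gcongr
        exact h3.trans h2
    _ ≤ _ := h5

lemma integral_ball_le (b : ℝ) (hb : 0 ≤ b) :
    IntegrableOn (fun s : ℂ => (Metric.closedBall (0:ℂ) 2).indicator (fun _ => b) s) UH ∧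
    ∫ s in UH, (Metric.closedBall (0:ℂ) 2).indicator (fun _ => b) s ≤ 13 * b := by
  have hi : Integrable (fun s : ℂ => (Metric.closedBall (0:ℂ) 2).indicator (fun _ => b) s) := by
    rw [integrable_indicator_iff Metric.isClosed_closedBall.measurableSet]
    exact integrableOn_const measure_closedBall_lt_top.ne
  refine ⟨hi.integrableOn, ?_⟩
  have h1 := setIntegral_le_integral (s := UH) hi (Eventually.of_forall fun s => by
    simp only [indicator]; split_ifs <;> simp [hb])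
  have h2 : ∫ s, (Metric.closedBall (0:ℂ) 2).indicator (fun _ => b) s = 4 * Real.pi * b := by
    rw [integral_indicator Metric.isClosed_closedBall.measurableSet, setIntegral_const]
    simp [Measure.real, Complex.volume_closedBall]
    left
    norm_num
  have h3 := Real.pi_lt_d2
  nlinarith

/-- Functions supported in a bounded set `A`. -/
lemma adm_of_supp {A : Set ℂ} (hA2 : ∀ s ∈ A, ‖s‖ ≤ 2) {X : ℂ → Mat2}
    (hX : ∀ i j, AEStronglyMeasurable (fun s => X s i j) (volume.restrict UH))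
    (h0 : ∀ s, s ∉ A → X s = 0) (b : ℝ) (hb : ∀ s ∈ A, nm (X s) ≤ b) (hb0 : 0 ≤ b) :
    Adm X ∧ (∀ z ∈ UH, nm (KK X z) ≤ 17 * b) ∧ nm (IU X) ≤ 13 * b := by
  obtain ⟨hi, hI⟩ := integral_ball_le b hb0
  have hF : ∀ s ∈ UH, nm (X s) ≤ (Metric.closedBall (0:ℂ) 2).indicator (fun _ => b) s := by
    intro s _
    by_cases hs : s ∈ A
    · have : s ∈ Metric.closedBall (0:ℂ) 2 := by simpa using hA2 s hs
      rw [indicator_of_mem this]
      exact hb s hs
    · rw [h0 s hs, nm_zero]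
      simp only [indicator]
      split_ifs <;> simp [hb0]
  have hFb : ∀ s ∈ UH, (Metric.closedBall (0:ℂ) 2).indicator (fun _ => b) s ≤ b := by
    intro s _
    simp only [indicator]
    split_ifs <;> simp [hb0]
  have hadm : Adm X := Adm.of_le _ hX hF ⟨b, hFb⟩ hi
  refine ⟨hadm, ?_, ?_⟩
  · intro z hz
    have := nm_KK_le' hadm hz _ hF hi 1 b (13 * b) one_pos hb0 (fun s hs _ => hFb s hs) hI
    linarith
  · refine (nm_IU_le hadm).trans ((setIntegral_mono_on hadm.int hi measurableSet_UH hF).trans hI)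

lemma pow_exp_bound (p c : ℝ) (hp : 0 < p) (hc : 0 < c) (x : ℝ) (hx : 0 ≤ x) :
    x ^ p * Real.exp (-(c * x)) ≤ (p / c) ^ p := by
  have h1 : c * x / p ≤ Real.exp (c * x / p) := by
    linarith [Real.add_one_le_exp (c * x / p)]
  have h2 : (c * x / p) ^ p ≤ Real.exp (c * x) := by
    calc (c * x / p) ^ p ≤ (Real.exp (c * x / p)) ^ p :=
          Real.rpow_le_rpow (by positivity) h1 hp.le
      _ = Real.exp (c * x) := by
          rw [← Real.exp_mul]
          congr 1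
          field_simp
  have h3 : x ^ p = (p / c) ^ p * (c * x / p) ^ p := by
    rw [← Real.mul_rpow (by positivity) (by positivity)]
    congr 1
    field_simp
  rw [h3, Real.exp_neg, mul_assoc]
  have h4 : (c * x / p) ^ p * (Real.exp (c * x))⁻¹ ≤ 1 := by
    rw [mul_inv_le_iff₀ (Real.exp_pos _)]
    linarith
  have h5 : 0 ≤ (p / c) ^ p := by positivity
  calc (p / c) ^ p * ((c * x / p) ^ p * (Real.exp (c * x))⁻¹) ≤ (p / c) ^ p * 1 := by gcongr
    _ = _ := mul_one _

/-- The model weight at the origin. -/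
noncomputable def gw (p c : ℝ) (n : ℕ) (s : ℂ) : ℝ :=
  n * ‖s‖ ^ p * Real.exp (-(c * n * ‖s‖))

lemma gw_nonneg (p c : ℝ) (n : ℕ) (s : ℂ) : 0 ≤ gw p c n s := by unfold gw; positivity

lemma gw_int (p c : ℝ) (hp : 0 ≤ p) (hc : 0 < c) (n : ℕ) (hn : 1 ≤ n) :
    Integrable (gw p c n) ∧
    ∫ s, gw p c n s = 2 * Real.pi * Real.Gamma (p + 2) * c ^ (-(p + 2)) * (n : ℝ) ^ (-(p + 1)) := by
  have hn' : (0 : ℝ) < n := by exact_mod_cast hn
  have hcn : 0 < c * n := by positivity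
  have hfun : ∀ y : ℝ, y ∈ Ioi (0:ℝ) → y ^ (Module.finrank ℝ ℂ - 1) •
      (n * y ^ p * Real.exp (-(c * n * y))) =
        n * (y ^ (p + 2 - 1) * Real.exp (-(c * n * y))) := by
    intro y hy
    have hy' : (0:ℝ) < y := hy
    rw [Complex.finrank_real_complex]
    have : y ^ (p + 2 - 1) = y ^ p * y := by
      rw [show p + 2 - 1 = p + 1 by ring, Real.rpow_add hy', Real.rpow_one]
    rw [this]
    simp
    ring
  have hint : IntegrableOn (fun y : ℝ => y ^ (p + 2 - 1) * Real.exp (-(c * n * y))) (Ioi 0) := by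
    have := integrableOn_rpow_mul_exp_neg_mul_rpow (s := p + 2 - 1) (p := 1) (b := c * n)
      (by linarith) one_pos hcn
    refine this.congr_fun (fun y hy => ?_) measurableSet_Ioi
    simp
  unfold gw
  constructor
  · rw [integrable_fun_norm_addHaar volume
      (f := fun y : ℝ => n * y ^ p * Real.exp (-(c * n * y))),
      integrableOn_congr_fun hfun measurableSet_Ioi]
    exact hint.const_mul _
  · rw [integral_fun_norm_addHaar volume
      (f := fun y : ℝ => n * y ^ p * Real.exp (-(c * n * y))),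
      setIntegral_congr_fun measurableSet_Ioi hfun, integral_const_mul,
      Real.integral_rpow_mul_exp_neg_mul_Ioi (by linarith) hcn]
    simp only [Complex.finrank_real_complex, Measure.real, Complex.volume_ball]
    have e1 : (1 / (c * (n:ℝ))) ^ (p + 2) = c ^ (-(p + 2)) * (n : ℝ) ^ (-(p + 2)) := by
      rw [one_div, Real.inv_rpow hcn.le, ← Real.rpow_neg hcn.le, Real.mul_rpow hc.le hn'.le]
    have e2 : (n : ℝ) ^ (-(p + 1)) = n * (n : ℝ) ^ (-(p + 2)) := by
      rw [show -(p + 1) = 1 + -(p + 2) by ring, Real.rpow_add hn', Real.rpow_one]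
    rw [e1, e2]
    simp
    ring

lemma gw_le (p c : ℝ) (hp : 0 < p) (hc : 0 < c) (n : ℕ) (hn : 1 ≤ n) (s : ℂ) :
    gw p c n s ≤ (p / c) ^ p * (n : ℝ) ^ (1 - p) := by
  have hn' : (0 : ℝ) < n := by exact_mod_cast hn
  have h := pow_exp_bound p c hp hc (n * ‖s‖) (by positivity)
  unfold gw
  have e : (n : ℝ) * ‖s‖ ^ p * Real.exp (-(c * n * ‖s‖)) =
      (n : ℝ) ^ (1 - p) * ((n * ‖s‖) ^ p * Real.exp (-(c * (n * ‖s‖)))) := by
    rw [Real.mul_rpow hn'.le (norm_nonneg s), Real.rpow_sub hn', Real.rpow_one]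
    have : (n : ℝ) ^ p ≠ 0 := (Real.rpow_pos_of_pos hn' p).ne'
    field_simp
  rw [e, mul_comm]
  gcongr

/-- Away from the origin the model weight is small. -/
lemma gw_far (p c r : ℝ) (hp : 0 < p) (hc : 0 < c) (hr : 0 < r) :
    ∃ C : ℝ, 0 ≤ C ∧ ∀ n : ℕ, 1 ≤ n → ∀ s : ℂ, r ≤ ‖s‖ → gw p c n s ≤ C * (n : ℝ) ^ (-(p + 1)) := by
  refine ⟨((p + 2) / c) ^ (p + 2) * r ^ (-2 : ℝ), by positivity, fun n hn s hs => ?_⟩
  have hn' : (0 : ℝ) < n := by exact_mod_cast hn
  have hs' : 0 < ‖s‖ := hr.trans_le hs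
  have h := pow_exp_bound (p + 2) c (by linarith) hc (n * ‖s‖) (by positivity)
  unfold gw
  have e : (n : ℝ) * ‖s‖ ^ p * Real.exp (-(c * n * ‖s‖)) =
      (n : ℝ) ^ (-(p + 1)) * ((n * ‖s‖) ^ (p + 2) * Real.exp (-(c * (n * ‖s‖)))) *
        ‖s‖ ^ (-2 : ℝ) := by
    have e1 : (n : ℝ) ^ (-(p + 1)) * (n : ℝ) ^ (p + 2) = n := by
      rw [← Real.rpow_add hn', show -(p + 1) + (p + 2) = 1 by ring, Real.rpow_one]
    have e2 : ‖s‖ ^ (p + 2) * ‖s‖ ^ (-2 : ℝ) = ‖s‖ ^ p := by
      rw [← Real.rpow_add hs']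
      congr 1
      ring
    rw [Real.mul_rpow hn'.le (norm_nonneg s), ← e2]
    nth_rewrite 1 [← e1]
    rw [show c * n * ‖s‖ = c * (n * ‖s‖) by ring]
    ring
  rw [e]
  have h2 : ‖s‖ ^ (-2 : ℝ) ≤ r ^ (-2 : ℝ) :=
    Real.rpow_le_rpow_of_nonpos hr hs (by norm_num)
  calc (n : ℝ) ^ (-(p + 1)) * ((n * ‖s‖) ^ (p + 2) * Real.exp (-(c * (n * ‖s‖)))) *
        ‖s‖ ^ (-2 : ℝ)
      ≤ (n : ℝ) ^ (-(p + 1)) * (((p + 2) / c) ^ (p + 2)) * r ^ (-2 : ℝ) := by gcongr
    _ = _ := by ring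

/-- Functions with a bound of the type of `W0`. -/
lemma gw_bounds (p c r : ℝ) (hp : 0 < p) (hc : 0 < c) (hr : 0 < r) :
    ∃ C : ℝ, 0 ≤ C ∧ ∀ n : ℕ, 1 ≤ n → ∀ X : ℂ → Mat2,
      (∀ i j, AEStronglyMeasurable (fun s => X s i j) (volume.restrict UH)) →
      ∀ b : ℝ, 0 ≤ b → (∀ s ∈ UH, nm (X s) ≤ b * gw p c n s) →
      Adm X ∧ (∀ z ∈ UH, nm (KK X z) ≤ C * b * (n : ℝ) ^ (-p)) ∧
      (∀ z ∈ UH, r ≤ ‖z‖ → nm (KK X z) ≤ C * b * (n : ℝ) ^ (-(p + 1))) ∧
      nm (IU X) ≤ C * b * (n : ℝ) ^ (-(p + 1)) := by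
  obtain ⟨C1, hC1, hfar⟩ := gw_far p c (r / 2) hp hc (by positivity)
  set C2 : ℝ := 2 * Real.pi * Real.Gamma (p + 2) * c ^ (-(p + 2)) with hC2
  set C3 : ℝ := (p / c) ^ p with hC3
  have hC2' : 0 ≤ C2 := by
    have := Real.Gamma_pos_of_pos (show 0 < p + 2 by linarith)
    positivity
  have hC3' : 0 ≤ C3 := by positivity
  refine ⟨4 * C3 + C2 + 2 * r * C1 + (2 / r) * C2, by positivity, ?_⟩
  intro n hn X hX b hb hXb
  have hn' : (0 : ℝ) < n := by exact_mod_cast hn
  have hn1 : (1 : ℝ) ≤ n := by exact_mod_cast hn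
  obtain ⟨hi, hI⟩ := gw_int p c hp.le hc n hn
  have hI' : ∫ s in UH, b * gw p c n s ≤ b * (C2 * (n : ℝ) ^ (-(p + 1))) := by
    rw [integral_const_mul]
    apply mul_le_mul_of_nonneg_left _ hb
    rw [← hI]
    exact setIntegral_le_integral hi (Eventually.of_forall fun s => gw_nonneg _ _ _ _)
  have hiF : IntegrableOn (fun s => b * gw p c n s) UH := (hi.const_mul b).integrableOn
  have hadm : Adm X := Adm.of_le _ hX hXb
    ⟨b * (C3 * (n : ℝ) ^ (1 - p)), fun s _ => mul_le_mul_of_nonneg_left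
      (gw_le p c hp hc n hn s) hb⟩ hiF
  have hP : 0 ≤ (n : ℝ) ^ (-(p + 1)) := by positivity
  have hP' : 0 ≤ (n : ℝ) ^ (-p) := by positivity
  refine ⟨hadm, ?_, ?_, ?_⟩
  · intro z hz
    have h := nm_KK_le' hadm hz _ hXb hiF (1 / n) (b * (C3 * (n : ℝ) ^ (1 - p)))
      (b * (C2 * (n : ℝ) ^ (-(p + 1)))) (by positivity) (by positivity)
      (fun s _ _ => mul_le_mul_of_nonneg_left (gw_le p c hp hc n hn s) hb) hI'
    have e1 : (n : ℝ) ^ (1 - p) = n * (n : ℝ) ^ (-p) := by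
      rw [show 1 - p = 1 + -p by ring, Real.rpow_add hn', Real.rpow_one]
    have e2 : (n : ℝ) ^ (-p) = n * (n : ℝ) ^ (-(p + 1)) := by
      rw [show -p = 1 + -(p + 1) by ring, Real.rpow_add hn', Real.rpow_one]
    have e3 : 4 * (1 / (n : ℝ)) * (b * (C3 * (n : ℝ) ^ (1 - p))) +
        (1 / (n : ℝ))⁻¹ * (b * (C2 * (n : ℝ) ^ (-(p + 1)))) =
        (4 * C3 + C2) * b * (n : ℝ) ^ (-p) := by
      rw [e1, one_div, inv_inv]
      calc 4 * (n : ℝ)⁻¹ * (b * (C3 * (n * (n : ℝ) ^ (-p)))) +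
            n * (b * (C2 * (n : ℝ) ^ (-(p + 1))))
          = 4 * ((n : ℝ)⁻¹ * n) * (b * (C3 * ((n : ℝ) ^ (-p)))) +
            (b * (C2 * (n * (n : ℝ) ^ (-(p + 1))))) := by ring
        _ = _ := by rw [inv_mul_cancel₀ hn'.ne', ← e2]; ring
    rw [e3] at h
    refine h.trans ?_
    have h1 : 0 ≤ 2 * r * C1 + (2 / r) * C2 := by positivity
    have h2 : 4 * C3 + C2 ≤ 4 * C3 + C2 + 2 * r * C1 + (2 / r) * C2 := by linarith
    exact mul_le_mul_of_nonneg_right (mul_le_mul_of_nonneg_right h2 hb) hP'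
  · intro z hz hzr
    have h := nm_KK_le' hadm hz _ hXb hiF (r / 2) (b * (C1 * (n : ℝ) ^ (-(p + 1))))
      (b * (C2 * (n : ℝ) ^ (-(p + 1)))) (by positivity) (by positivity)
      (fun s _ hs => mul_le_mul_of_nonneg_left (hfar n hn s (by
        have := norm_sub_norm_le z s
        rw [norm_sub_rev] at this
        linarith)) hb) hI'
    have e3 : 4 * (r / 2) * (b * (C1 * (n : ℝ) ^ (-(p + 1)))) +
        (r / 2)⁻¹ * (b * (C2 * (n : ℝ) ^ (-(p + 1)))) =
        (2 * r * C1 + (2 / r) * C2) * b * (n : ℝ) ^ (-(p + 1)) := by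
      field_simp
      ring
    rw [e3] at h
    refine h.trans ?_
    have h1 : 0 ≤ 4 * C3 + C2 := by positivity
    have h2 : 2 * r * C1 + (2 / r) * C2 ≤ 4 * C3 + C2 + 2 * r * C1 + (2 / r) * C2 := by linarith
    exact mul_le_mul_of_nonneg_right (mul_le_mul_of_nonneg_right h2 hb) hP
  · refine (nm_IU_le hadm).trans ((setIntegral_mono_on hadm.int hiF measurableSet_UH
      hXb).trans (hI'.trans ?_))
    have : b * (C2 * (n : ℝ) ^ (-(p + 1))) = C2 * b * (n : ℝ) ^ (-(p + 1)) := by ring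
    rw [this]
    have h1 : 0 ≤ 4 * C3 + 2 * r * C1 + (2 / r) * C2 := by positivity
    have h2 : C2 ≤ 4 * C3 + C2 + 2 * r * C1 + (2 / r) * C2 := by linarith
    exact mul_le_mul_of_nonneg_right (mul_le_mul_of_nonneg_right h2 hb) hP

/-- Functions with an exponential bound. -/
lemma exp_bounds (c : ℝ) (hc : 0 < c) :
    ∃ C : ℝ, 0 ≤ C ∧ ∀ X : ℂ → Mat2,
      (∀ i j, AEStronglyMeasurable (fun s => X s i j) (volume.restrict UH)) →
      ∀ b : ℝ, 0 ≤ b → (∀ s ∈ UH, nm (X s) ≤ b * Real.exp (-(c * ‖s‖))) →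
      Adm X ∧ (∀ z ∈ UH, nm (KK X z) ≤ C * b) ∧ nm (IU X) ≤ C * b := by
  obtain ⟨hi, -⟩ := gw_int 0 c le_rfl hc 1 le_rfl
  have hfe : gw 0 c 1 = fun s => Real.exp (-(c * ‖s‖)) := by
    funext s
    simp [gw]
  rw [hfe] at hi
  set I : ℝ := ∫ s : ℂ, Real.exp (-(c * ‖s‖)) with hI
  have hI0 : 0 ≤ I := integral_nonneg fun s => (Real.exp_pos _).le
  refine ⟨4 + I, by positivity, ?_⟩
  intro X hX b hb hXb
  have hiF : IntegrableOn (fun s => b * Real.exp (-(c * ‖s‖))) UH :=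
    (hi.const_mul b).integrableOn
  have hI' : ∫ s in UH, b * Real.exp (-(c * ‖s‖)) ≤ b * I := by
    rw [integral_const_mul]
    apply mul_le_mul_of_nonneg_left _ hb
    exact setIntegral_le_integral hi (Eventually.of_forall fun s => (Real.exp_pos _).le)
  have hFb : ∀ s ∈ UH, b * Real.exp (-(c * ‖s‖)) ≤ b := by
    intro s _
    have : Real.exp (-(c * ‖s‖)) ≤ 1 := by
      rw [Real.exp_le_one_iff]
      have : 0 ≤ c * ‖s‖ := by positivity
      linarith
    nlinarith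
  have hadm : Adm X := Adm.of_le _ hX hXb ⟨b, hFb⟩ hiF
  refine ⟨hadm, ?_, ?_⟩
  · intro z hz
    have h := nm_KK_le' hadm hz _ hXb hiF 1 b (b * I) one_pos hb (fun s hs _ => hFb s hs) hI'
    linarith
  · refine (nm_IU_le hadm).trans ((setIntegral_mono_on hadm.int hiF measurableSet_UH
      hXb).trans (hI'.trans ?_))
    nlinarith

end Pert

end Pool.Agent.Freud
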