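import Pool.Agent.Freud.PertBase

/-!
Perturbation theory, second file: bounds for products with the three parts of the source term,
and the expansion of the solution on the set `A`.
-/

set_option autoImplicit false

open MeasureTheory Filter Topology Asymptotics Set

namespace Pool.Agent.Freud

namespace Pert

/-- The coefficients of the expansion of the solution on `A`. -/
noncomputable def rhoP (w : ℕ → ℂ → Mat2) : ℕ → ℂ → Mat2
  | 0 => fun _ => 1
  | (m + 1) => KK (fun s => ∑ j : Fin (m + 1), rhoP w j s * w (m - j) s)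
decreasing_by exact j.2

/-- The coefficients of the expansion of `R * We`. -/
noncomputable def Fw (w : ℕ → ℂ → Mat2) (l : ℕ) (s : ℂ) : Mat2 :=
  ∑ j ∈ Finset.range (l + 1), rhoP w j s * w (l - j) s

lemma rhoP_zero (w : ℕ → ℂ → Mat2) : rhoP w 0 = fun _ => 1 := by
  rw [rhoP]

lemma rhoP_succ (w : ℕ → ℂ → Mat2) (m : ℕ) : rhoP w (m + 1) = KK (Fw w m) := by
  rw [rhoP]
  congr 1
  funext s
  unfold Fw
  rw [Finset.sum_range]

lemma KS_measurable {B : ℂ → ℂ} (hB : Measurable B) : Measurable (KS B) := by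
  unfold KS
  apply Measurable.const_mul
  have h : StronglyMeasurable (Function.uncurry fun z s : ℂ =>
      B s / (s - z) + starRingEnd ℂ (B s) / (starRingEnd ℂ s - z)) := by
    apply Measurable.stronglyMeasurable
    unfold Function.uncurry
    have h1 : Measurable (fun p : ℂ × ℂ => B p.2) := hB.comp measurable_snd
    have h2 : Measurable (fun p : ℂ × ℂ => starRingEnd ℂ (B p.2)) :=
      Complex.continuous_conj.measurable.comp h1
    have h3 : Measurable (fun p : ℂ × ℂ => p.2 - p.1) := measurable_snd.sub measurable_fst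
    have h4 : Measurable (fun p : ℂ × ℂ => starRingEnd ℂ p.2 - p.1) :=
      (Complex.continuous_conj.measurable.comp measurable_snd).sub measurable_fst
    exact (h1.div h3).add (h2.div h4)
  exact (h.integral_prod_right).measurable

lemma meas_mul {X Y : ℂ → Mat2} (hX : ∀ i j, Measurable (fun s => X s i j))
    (hY : ∀ i j, Measurable (fun s => Y s i j)) (i j : Fin 2) :
    Measurable (fun s => (X s * Y s) i j) := by
  simp only [Matrix.mul_apply, Fin.sum_univ_two]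
  exact ((hX i 0).mul (hY 0 j)).add ((hX i 1).mul (hY 1 j))

lemma meas_sum {ι : Type*} (t : Finset ι) {X : ι → ℂ → Mat2}
    (hX : ∀ k ∈ t, ∀ i j, Measurable (fun s => X k s i j)) (i j : Fin 2) :
    Measurable (fun s => (∑ k ∈ t, X k s) i j) := by
  simp only [Matrix.sum_apply]
  exact Finset.measurable_sum t fun k hk => hX k hk i j

lemma aemeas_mul {X Y : ℂ → Mat2}
    (hX : ∀ i j, AEStronglyMeasurable (fun s => X s i j) (volume.restrict UH))
    (hY : ∀ i j, AEStronglyMeasurable (fun s => Y s i j) (volume.restrict UH)) (i j : Fin 2) :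
    AEStronglyMeasurable (fun s => (X s * Y s) i j) (volume.restrict UH) := by
  simp only [Matrix.mul_apply, Fin.sum_univ_two]
  exact ((hX i 0).mul (hY 0 j)).add ((hX i 1).mul (hY 1 j))

lemma aemeas_of_cont {X : ℂ → Mat2} (hX : ContinuousOn X UH) (i j : Fin 2) :
    AEStronglyMeasurable (fun s => X s i j) (volume.restrict UH) := by
  have h : ContinuousOn (fun s => X s i j) UH := by
    have h1 : Continuous (fun M : Mat2 => M i j) := continuous_id.matrix_elem i j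
    exact h1.comp_continuousOn hX
  exact h.aestronglyMeasurable measurableSet_UH

lemma aemeas_sub {X Y : ℂ → Mat2}
    (hX : ∀ i j, AEStronglyMeasurable (fun s => X s i j) (volume.restrict UH))
    (hY : ∀ i j, AEStronglyMeasurable (fun s => Y s i j) (volume.restrict UH)) (i j : Fin 2) :
    AEStronglyMeasurable (fun s => (X s - Y s) i j) (volume.restrict UH) :=
  (hX i j).sub (hY i j)

section

variable {α y0 r c C : ℝ} {n0 : ℕ} {A : Set ℂ} {w We Wx : ℕ → ℂ → Mat2}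

lemma rho_props (hA : Asm α y0 r c C n0 A w We Wx) (k : ℕ) :
    (∀ i j, Measurable (fun s => rhoP w k s i j)) ∧
      ∃ B : ℝ, 0 ≤ B ∧ ∀ s ∈ UH, nm (rhoP w k s) ≤ B := by
  induction k using Nat.strong_induction_on with
  | _ k ih =>
    match k with
    | 0 =>
      refine ⟨fun i j => ?_, 2, by norm_num, fun s _ => ?_⟩
      · rw [rhoP_zero]; exact measurable_const
      · rw [rhoP_zero, nm_one]
    | m + 1 =>
      have hm : ∀ i j, Measurable (fun s => Fw w m s i j) := by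
        intro i j
        unfold Fw
        refine meas_sum _ (fun l hl => ?_) i j
        have hl' : l < m + 1 := by simpa using hl
        exact meas_mul (ih l hl').1 (hA.w_meas (m - l))
      have hs : ∀ s, s ∉ A → Fw w m s = 0 := by
        intro s hs
        unfold Fw
        apply Finset.sum_eq_zero
        intro l _
        rw [hA.w_supp _ s hs, mul_zero]
      have hb : ∃ B : ℝ, 0 ≤ B ∧ ∀ s ∈ A, nm (Fw w m s) ≤ B := by
        choose! Br hBr0 hBr using fun l (hl : l < m + 1) => (ih l hl).2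
        choose Bw hBw using hA.w_bd
        refine ⟨∑ l ∈ Finset.range (m + 1), |Br l| * |Bw (m - l)|,
          Finset.sum_nonneg fun l _ => by positivity, fun s hs => ?_⟩
        unfold Fw
        refine (nm_sum _ _).trans (Finset.sum_le_sum fun l hl => (nm_mul _ _).trans ?_)
        have hl' : l < m + 1 := by simpa using hl
        exact mul_le_mul ((hBr l hl' s (hA.A_sub hs)).trans (le_abs_self _))
          ((hBw _ s hs).trans (le_abs_self _)) (nm_nonneg _) (abs_nonneg _)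
      obtain ⟨B, hB0, hB⟩ := hb
      rw [rhoP_succ]
      refine ⟨fun i j => KS_measurable (hm i j), 17 * B, by positivity, ?_⟩
      exact (adm_of_supp (fun s hs => (hA.A_loc s hs).2)
        (fun i j => (hm i j).aestronglyMeasurable) hs B hB hB0).2.1

lemma Fw_props (hA : Asm α y0 r c C n0 A w We Wx) (m : ℕ) :
    (∀ i j, Measurable (fun s => Fw w m s i j)) ∧ (∀ s, s ∉ A → Fw w m s = 0) ∧
      ∃ B : ℝ, 0 ≤ B ∧ ∀ s ∈ A, nm (Fw w m s) ≤ B := by
  refine ⟨?_, ?_, ?_⟩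
  · intro i j
    unfold Fw
    exact meas_sum _ (fun l _ => meas_mul (rho_props hA l).1 (hA.w_meas (m - l))) i j
  · intro s hs
    unfold Fw
    apply Finset.sum_eq_zero
    intro l _
    rw [hA.w_supp _ s hs, mul_zero]
  · choose Br hBr0 hBr using fun l => (rho_props hA l).2
    choose Bw hBw using hA.w_bd
    refine ⟨∑ l ∈ Finset.range (m + 1), |Br l| * |Bw (m - l)|,
      Finset.sum_nonneg fun l _ => by positivity, fun s hs => ?_⟩
    unfold Fw
    refine (nm_sum _ _).trans (Finset.sum_le_sum fun l _ => (nm_mul _ _).trans ?_)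
    exact mul_le_mul ((hBr l s (hA.A_sub hs)).trans (le_abs_self _))
      ((hBw _ s hs).trans (le_abs_self _)) (nm_nonneg _) (abs_nonneg _)

lemma Fw_adm (hA : Asm α y0 r c C n0 A w We Wx) (m : ℕ) : Adm (Fw w m) := by
  obtain ⟨h1, h2, B, hB0, hB⟩ := Fw_props hA m
  exact (adm_of_supp (fun s hs => (hA.A_loc s hs).2)
    (fun i j => (h1 i j).aestronglyMeasurable) h2 B hB hB0).1

lemma w_adm (hA : Asm α y0 r c C n0 A w We Wx) (m : ℕ) : Adm (w m) := by
  obtain ⟨B, hB⟩ := hA.w_bd m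
  exact (adm_of_supp (fun s hs => (hA.A_loc s hs).2)
    (fun i j => (hA.w_meas m i j).aestronglyMeasurable) (hA.w_supp m) |B|
    (fun s hs => (hB s hs).trans (le_abs_self _)) (abs_nonneg B)).1

/-- Products with `We`. -/
lemma We_prod (hA : Asm α y0 r c C n0 A w We Wx) : ∃ C1 : ℝ, 0 ≤ C1 ∧
    ∀ n, n0 ≤ n → ∀ Y : ℂ → Mat2,
      (∀ i j, AEStronglyMeasurable (fun s => Y s i j) (volume.restrict UH)) →
      ∀ B : ℝ, 0 ≤ B → (∀ s ∈ A, nm (Y s) ≤ B) →
      Adm (fun s => Y s * We n s) ∧ (∀ z ∈ UH, nm (KK (fun s => Y s * We n s) z) ≤ C1 * B / n) ∧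
        nm (IU (fun s => Y s * We n s)) ≤ C1 * B / n := by
  obtain ⟨B0, hB0⟩ := hA.We_exp 0
  refine ⟨17 * |B0|, by positivity, ?_⟩
  intro n hn Y hY B hB hYB
  have hn1 : 1 ≤ n := hA.n0_pos.trans hn
  have hn' : (0 : ℝ) < n := by exact_mod_cast hn1
  have hWe : ∀ s ∈ A, nm (We n s) ≤ |B0| / n := by
    intro s hs
    have := hB0 n hn s hs
    simp only [Finset.range_zero, Finset.sum_empty, sub_zero, zero_add, pow_one] at this
    exact this.trans (by gcongr; exact le_abs_self _)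
  have h := adm_of_supp (fun s hs => (hA.A_loc s hs).2) (X := fun s => Y s * We n s)
    (aemeas_mul hY (aemeas_of_cont (hA.We_cont n hn)))
    (fun s hs => by rw [hA.We_supp n s hs, mul_zero]) (B * (|B0| / n))
    (fun s hs => (nm_mul _ _).trans (mul_le_mul (hYB s hs) (hWe s hs) (nm_nonneg _) hB))
    (by positivity)
  refine ⟨h.1, fun z hz => (h.2.1 z hz).trans (le_of_eq (by ring)), h.2.2.trans ?_⟩
  have : 13 * (B * (|B0| / n)) ≤ 17 * (B * (|B0| / n)) := by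
    have : 0 ≤ B * (|B0| / n) := by positivity
    linarith
  exact this.trans (le_of_eq (by ring))

/-- Products with `W0`. -/
lemma W0_prod (hα : 1 < α) (hA : Asm α y0 r c C n0 A w We Wx) : ∃ C1 : ℝ, 0 ≤ C1 ∧
    ∀ n : ℕ, 1 ≤ n → ∀ Y : ℂ → Mat2,
      (∀ i j, AEStronglyMeasurable (fun s => Y s i j) (volume.restrict UH)) →
      ∀ B : ℝ, 0 ≤ B → (∀ s ∈ UH, nm (Y s) ≤ B) →
      Adm (fun s => Y s * W0 α n y0 s) ∧
      (∀ z ∈ UH, nm (KK (fun s => Y s * W0 α n y0 s) z) ≤ C1 * B * (n : ℝ) ^ (1 - α)) ∧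
      (∀ z ∈ UH, r ≤ ‖z‖ →
        nm (KK (fun s => Y s * W0 α n y0 s) z) ≤ C1 * B * (n : ℝ) ^ (-α)) ∧
        nm (IU (fun s => Y s * W0 α n y0 s)) ≤ C1 * B * (n : ℝ) ^ (-α) := by
  obtain ⟨C2, hC2, h⟩ := gw_bounds (α - 1) c r (by linarith) hA.c_pos hA.r_pos
  refine ⟨C2 * |C|, by positivity, ?_⟩
  intro n hn Y hY B hB hYB
  have hW0 : ∀ s ∈ UH, nm (W0 α n y0 s) ≤ |C| * gw (α - 1) c n s := by
    intro s hs
    refine (hA.W0_bd n hn s hs).trans ?_
    unfold gw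
    have : 0 ≤ (n : ℝ) * ‖s‖ ^ (α - 1) * Real.exp (-(c * n * ‖s‖)) := by positivity
    calc C * n * ‖s‖ ^ (α - 1) * Real.exp (-(c * n * ‖s‖))
        = C * (n * ‖s‖ ^ (α - 1) * Real.exp (-(c * n * ‖s‖))) := by ring
      _ ≤ _ := mul_le_mul_of_nonneg_right (le_abs_self C) this
  have h' := h n hn (fun s => Y s * W0 α n y0 s)
    (aemeas_mul hY (aemeas_of_cont (hA.W0_cont n))) (B * |C|) (by positivity)
    (fun s hs => (nm_mul _ _).trans ((mul_le_mul (hYB s hs) (hW0 s hs) (nm_nonneg _) hB).trans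
      (le_of_eq (by ring))))
  have e1 : -(α - 1) = 1 - α := by ring
  have e2 : -(α - 1 + 1) = -α := by ring
  rw [e1, e2] at h'
  refine ⟨h'.1, fun z hz => (h'.2.1 z hz).trans (le_of_eq (by ring)),
    fun z hz hr => (h'.2.2.1 z hz hr).trans (le_of_eq (by ring)),
    h'.2.2.2.trans (le_of_eq (by ring))⟩

/-- Products with `Wx`. -/
lemma Wx_prod (hA : Asm α y0 r c C n0 A w We Wx) : ∃ C1 : ℝ, 0 ≤ C1 ∧
    ∀ n : ℕ, n0 ≤ n → ∀ Y : ℂ → Mat2,
      (∀ i j, AEStronglyMeasurable (fun s => Y s i j) (volume.restrict UH)) →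
      ∀ B : ℝ, 0 ≤ B → (∀ s ∈ UH, nm (Y s) ≤ B) →
      Adm (fun s => Y s * Wx n s) ∧
      (∀ z ∈ UH, nm (KK (fun s => Y s * Wx n s) z) ≤ C1 * B * Real.exp (-(c * n))) ∧
        nm (IU (fun s => Y s * Wx n s)) ≤ C1 * B * Real.exp (-(c * n)) := by
  obtain ⟨C2, hC2, h⟩ := exp_bounds c hA.c_pos
  refine ⟨C2 * |C|, by positivity, ?_⟩
  intro n hn Y hY B hB hYB
  have hWx : ∀ s ∈ UH, nm (Wx n s) ≤ |C| * Real.exp (-(c * n)) * Real.exp (-(c * ‖s‖)) := by
    intro s hs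
    refine (hA.Wx_bd n hn s hs).trans ?_
    gcongr
    exact le_abs_self C
  have h' := h (fun s => Y s * Wx n s)
    (aemeas_mul hY (aemeas_of_cont (hA.Wx_cont n hn))) (B * (|C| * Real.exp (-(c * n))))
    (by positivity)
    (fun s hs => (nm_mul _ _).trans ((mul_le_mul (hYB s hs) (hWx s hs) (nm_nonneg _) hB).trans
      (le_of_eq (by ring))))
  refine ⟨h'.1, fun z hz => (h'.2.1 z hz).trans (le_of_eq (by ring)),
    h'.2.2.trans (le_of_eq (by ring))⟩

lemma exp_le_rpow (c q : ℝ) (hc : 0 < c) (hq : 0 < q) : ∃ C : ℝ, 0 ≤ C ∧ ∀ n : ℕ, 1 ≤ n →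
    Real.exp (-(c * n)) ≤ C * (n : ℝ) ^ (-q) := by
  refine ⟨(q / c) ^ q, by positivity, fun n hn => ?_⟩
  have hn' : (0 : ℝ) < n := by exact_mod_cast hn
  have h := pow_exp_bound q c hq hc n hn'.le
  have h2 : Real.exp (-(c * n)) = (n : ℝ) ^ (-q) * ((n : ℝ) ^ q * Real.exp (-(c * n))) := by
    rw [← mul_assoc, ← Real.rpow_add hn']
    simp
  rw [h2, mul_comm]
  gcongr

/-- Splitting the integral equation. -/
lemma R_split (hα : 1 < α) (hA : Asm α y0 r c C n0 A w We Wx) (R : ℕ → ℂ → Mat2)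
    (hRc : ∀ n, n0 ≤ n → ContinuousOn (R n) UH)
    (hRb : ∀ n, n0 ≤ n → ∃ B : ℝ, ∀ z ∈ UH, nm (R n z) ≤ B)
    (hR : ∀ n, n0 ≤ n → ∀ z ∈ UH,
      R n z = 1 + KK (fun s => R n s * (We n s + W0 α n y0 s + Wx n s)) z) (n : ℕ) (hn : n0 ≤ n) :
    Adm (fun s => R n s * We n s) ∧ Adm (fun s => R n s * W0 α n y0 s) ∧
      Adm (fun s => R n s * Wx n s) ∧
    (∀ z ∈ UH, R n z = 1 + KK (fun s => R n s * We n s) z +
      (KK (fun s => R n s * W0 α n y0 s) z + KK (fun s => R n s * Wx n s) z)) ∧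
    IU (fun s => R n s * (We n s + W0 α n y0 s + Wx n s)) =
      IU (fun s => R n s * We n s) + IU (fun s => R n s * W0 α n y0 s) +
        IU (fun s => R n s * Wx n s) := by
  obtain ⟨B, hB⟩ := hRb n hn
  have hB' : ∀ z ∈ UH, nm (R n z) ≤ |B| := fun z hz => (hB z hz).trans (le_abs_self B)
  obtain ⟨Ce, _, he⟩ := We_prod hA
  obtain ⟨C0, _, h0⟩ := W0_prod hα hA
  obtain ⟨Cx, _, hx⟩ := Wx_prod hA
  have hm := aemeas_of_cont (hRc n hn)
  have a1 := (he n hn (R n) hm |B| (abs_nonneg B) (fun s hs => hB' s (hA.A_sub hs))).1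
  have a2 := (h0 n (hA.n0_pos.trans hn) (R n) hm |B| (abs_nonneg B) hB').1
  have a3 := (hx n hn (R n) hm |B| (abs_nonneg B) hB').1
  have hfun : (fun s => R n s * (We n s + W0 α n y0 s + Wx n s)) =
      fun s => (R n s * We n s + R n s * W0 α n y0 s) + R n s * Wx n s := by
    funext s
    rw [mul_add, mul_add]
  refine ⟨a1, a2, a3, ?_, ?_⟩
  · intro z hz
    rw [hR n hn z hz, hfun, KK_add (a1.add a2) a3 hz, KK_add a1 a2 hz]
    abel
  · rw [hfun, IU_add (a1.add a2) a3, IU_add a1 a2]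

/-- A priori bound for the solution. -/
theorem base_bound (hα : 1 < α) (hA : Asm α y0 r c C n0 A w We Wx) (R : ℕ → ℂ → Mat2)
    (hRc : ∀ n, n0 ≤ n → ContinuousOn (R n) UH)
    (hRb : ∀ n, n0 ≤ n → ∃ B : ℝ, ∀ z ∈ UH, nm (R n z) ≤ B)
    (hR : ∀ n, n0 ≤ n → ∀ z ∈ UH,
      R n z = 1 + KK (fun s => R n s * (We n s + W0 α n y0 s + Wx n s)) z) :
    ∃ n1 : ℕ, n0 ≤ n1 ∧ ∀ n, n1 ≤ n → ∀ z ∈ UH, nm (R n z) ≤ 4 := by
  obtain ⟨Ce, hCe, he⟩ := We_prod hA
  obtain ⟨C0, hC0, h0⟩ := W0_prod hα hA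
  obtain ⟨Cx, hCx, hx⟩ := Wx_prod hA
  have hlim : Tendsto (fun n : ℕ => Ce * (n : ℝ)⁻¹ + C0 * (n : ℝ) ^ (1 - α) +
      Cx * Real.exp (-(c * n))) atTop (𝓝 (Ce * 0 + C0 * 0 + Cx * 0)) := by
    have t1 : Tendsto (fun n : ℕ => (n : ℝ)⁻¹) atTop (𝓝 0) :=
      tendsto_inv_atTop_zero.comp tendsto_natCast_atTop_atTop
    have t2 : Tendsto (fun n : ℕ => (n : ℝ) ^ (1 - α)) atTop (𝓝 0) := by
      have := (tendsto_rpow_neg_atTop (show 0 < α - 1 by linarith)).comp
        (tendsto_natCast_atTop_atTop (R := ℝ))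
      refine this.congr fun n => ?_
      simp only [Function.comp_apply]
      congr 1
      ring
    have t3 : Tendsto (fun n : ℕ => Real.exp (-(c * n))) atTop (𝓝 0) := by
      apply Real.tendsto_exp_atBot.comp
      apply tendsto_neg_atTop_atBot.comp
      exact (tendsto_natCast_atTop_atTop (R := ℝ)).const_mul_atTop hA.c_pos
    exact ((t1.const_mul Ce).add (t2.const_mul C0)).add (t3.const_mul Cx)
  simp only [mul_zero, add_zero] at hlim
  have hev := hlim.eventually (gt_mem_nhds (show (0:ℝ) < 1 / 2 by norm_num))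
  obtain ⟨n2, hn2⟩ := eventually_atTop.mp hev
  refine ⟨max n0 n2, le_max_left _ _, ?_⟩
  intro n hn
  have hn0 : n0 ≤ n := (le_max_left _ _).trans hn
  have hκ := hn2 n ((le_max_right _ _).trans hn)
  have hn1 : 1 ≤ n := hA.n0_pos.trans hn0
  have hm := aemeas_of_cont (hRc n hn0)
  obtain ⟨-, -, -, hsp, -⟩ := R_split hα hA R hRc hRb hR n hn0
  have step : ∀ B : ℝ, 0 ≤ B → (∀ z ∈ UH, nm (R n z) ≤ B) →
      ∀ z ∈ UH, nm (R n z) ≤ 2 + 1 / 2 * B := by
    intro B hB0 hB z hz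
    have b1 := (he n hn0 (R n) hm B hB0 (fun s hs => hB s (hA.A_sub hs))).2.1 z hz
    have b2 := (h0 n hn1 (R n) hm B hB0 hB).2.1 z hz
    have b3 := (hx n hn0 (R n) hm B hB0 hB).2.1 z hz
    rw [hsp z hz]
    refine (nm_add _ _).trans ?_
    have e1 := nm_add (1 : Mat2) (KK (fun s => R n s * We n s) z)
    have e2 := nm_add (KK (fun s => R n s * W0 α n y0 s) z) (KK (fun s => R n s * Wx n s) z)
    rw [nm_one] at e1
    have e3 : Ce * B / n + C0 * B * (n : ℝ) ^ (1 - α) + Cx * B * Real.exp (-(c * n)) =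
        (Ce * (n : ℝ)⁻¹ + C0 * (n : ℝ) ^ (1 - α) + Cx * Real.exp (-(c * n))) * B := by
      rw [div_eq_mul_inv]; ring
    have e4 := mul_le_mul_of_nonneg_right hκ.le hB0
    linarith
  obtain ⟨B, hB⟩ := hRb n hn0
  set S := sSup ((fun z => nm (R n z)) '' UH) with hS
  have hbdd : BddAbove ((fun z => nm (R n z)) '' UH) := by
    refine ⟨B, ?_⟩
    rintro _ ⟨z, hz, rfl⟩
    exact hB z hz
  have hI : Complex.I ∈ UH := by simp [UH]
  have hle : ∀ z ∈ UH, nm (R n z) ≤ S := fun z hz => le_csSup hbdd ⟨z, hz, rfl⟩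
  have hS0 : 0 ≤ S := (nm_nonneg _).trans (hle _ hI)
  have hS2 : S ≤ 2 + 1 / 2 * S := by
    apply csSup_le (Set.Nonempty.image _ ⟨Complex.I, hI⟩)
    rintro _ ⟨z, hz, rfl⟩
    exact step S hS0 hle z hz
  intro z hz
  exact (hle z hz).trans (by linarith)

/-- The solution is close to one. -/
theorem base_sub_one (hα : 1 < α) (hA : Asm α y0 r c C n0 A w We Wx) (R : ℕ → ℂ → Mat2)
    (hRc : ∀ n, n0 ≤ n → ContinuousOn (R n) UH)
    (hRb : ∀ n, n0 ≤ n → ∃ B : ℝ, ∀ z ∈ UH, nm (R n z) ≤ B)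
    (hR : ∀ n, n0 ≤ n → ∀ z ∈ UH,
      R n z = 1 + KK (fun s => R n s * (We n s + W0 α n y0 s + Wx n s)) z) :
    ∃ (n1 : ℕ) (B : ℝ), n0 ≤ n1 ∧ 0 ≤ B ∧ ∀ n, n1 ≤ n → ∀ z ∈ UH,
      nm (R n z - 1) ≤ B * ((n : ℝ)⁻¹ + (n : ℝ) ^ (1 - α)) := by
  obtain ⟨n1, hn1, hb⟩ := base_bound hα hA R hRc hRb hR
  obtain ⟨Ce, hCe, he⟩ := We_prod hA
  obtain ⟨C0, hC0, h0⟩ := W0_prod hα hA
  obtain ⟨Cx, hCx, hx⟩ := Wx_prod hA
  obtain ⟨D, hD, hexp⟩ := exp_le_rpow c 1 hA.c_pos one_pos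
  refine ⟨n1, Ce * 4 + C0 * 4 + Cx * 4 * D, hn1, by positivity, ?_⟩
  intro n hn z hz
  have hn0 : n0 ≤ n := hn1.trans hn
  have h1n : 1 ≤ n := hA.n0_pos.trans hn0
  have hn' : (0 : ℝ) < n := by exact_mod_cast h1n
  have hm := aemeas_of_cont (hRc n hn0)
  obtain ⟨-, -, -, hsp, -⟩ := R_split hα hA R hRc hRb hR n hn0
  have b1 := (he n hn0 (R n) hm 4 (by norm_num) (fun s hs => hb n hn s (hA.A_sub hs))).2.1 z hz
  have b2 := (h0 n h1n (R n) hm 4 (by norm_num) (hb n hn)).2.1 z hz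
  have b3 := (hx n hn0 (R n) hm 4 (by norm_num) (hb n hn)).2.1 z hz
  have b4 := hexp n h1n
  rw [Real.rpow_neg_one] at b4
  have e0 : R n z - 1 = KK (fun s => R n s * We n s) z +
      (KK (fun s => R n s * W0 α n y0 s) z + KK (fun s => R n s * Wx n s) z) := by
    rw [hsp z hz]; abel
  rw [e0]
  refine (nm_add _ _).trans ?_
  have e2 := nm_add (KK (fun s => R n s * W0 α n y0 s) z) (KK (fun s => R n s * Wx n s) z)
  have b5 : Cx * 4 * Real.exp (-(c * n)) ≤ Cx * 4 * (D * (n : ℝ)⁻¹) :=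
    mul_le_mul_of_nonneg_left b4 (by positivity)
  have p1 : 0 ≤ (n : ℝ)⁻¹ := by positivity
  have p2 : 0 ≤ (n : ℝ) ^ (1 - α) := by positivity
  have q1 : 0 ≤ Ce * 4 * (n : ℝ) ^ (1 - α) := by positivity
  have q2 : 0 ≤ C0 * 4 * (n : ℝ)⁻¹ := by positivity
  have q3 : 0 ≤ Cx * 4 * D * (n : ℝ) ^ (1 - α) := by positivity
  rw [div_eq_mul_inv] at b1
  linarith

/-- The error term on `A`. -/
theorem err_bound (hα : 1 < α) (hA : Asm α y0 r c C n0 A w We Wx) (R : ℕ → ℂ → Mat2)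
    (hRc : ∀ n, n0 ≤ n → ContinuousOn (R n) UH)
    (hRb : ∀ n, n0 ≤ n → ∃ B : ℝ, ∀ z ∈ UH, nm (R n z) ≤ B)
    (hR : ∀ n, n0 ≤ n → ∀ z ∈ UH,
      R n z = 1 + KK (fun s => R n s * (We n s + W0 α n y0 s + Wx n s)) z) :
    ∃ (n1 : ℕ) (B : ℝ), n0 ≤ n1 ∧ 0 ≤ B ∧ ∀ n, n1 ≤ n → ∀ z ∈ A,
      nm (KK (fun s => R n s * W0 α n y0 s) z + KK (fun s => R n s * Wx n s) z) ≤
        B * (n : ℝ) ^ (-α) := by
  obtain ⟨n1, hn1, hb⟩ := base_bound hα hA R hRc hRb hR
  obtain ⟨C0, hC0, h0⟩ := W0_prod hα hA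
  obtain ⟨Cx, hCx, hx⟩ := Wx_prod hA
  obtain ⟨D, hD, hexp⟩ := exp_le_rpow c α hA.c_pos (by linarith)
  refine ⟨n1, C0 * 4 + Cx * 4 * D, hn1, by positivity, ?_⟩
  intro n hn z hz
  have hn0 : n0 ≤ n := hn1.trans hn
  have h1n : 1 ≤ n := hA.n0_pos.trans hn0
  have hm := aemeas_of_cont (hRc n hn0)
  have b2 := (h0 n h1n (R n) hm 4 (by norm_num) (hb n hn)).2.2.1 z (hA.A_sub hz)
    (hA.A_loc z hz).1
  have b3 := (hx n hn0 (R n) hm 4 (by norm_num) (hb n hn)).2.1 z (hA.A_sub hz)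
  have b5 : Cx * 4 * Real.exp (-(c * n)) ≤ Cx * 4 * (D * (n : ℝ) ^ (-α)) :=
    mul_le_mul_of_nonneg_left (hexp n h1n) (by positivity)
  refine (nm_add _ _).trans ?_
  linarith

/-- Size of the error in the expansions on `A`. -/
noncomputable def eps (α : ℝ) (m n : ℕ) : ℝ := 1 / (n : ℝ) ^ m + (n : ℝ) ^ (-α)

lemma eps_nonneg (α : ℝ) (m n : ℕ) : 0 ≤ eps α m n := by unfold eps; positivity

lemma eps_step (α : ℝ) (m n : ℕ) (hn : 1 ≤ n) : eps α m n / n ≤ eps α (m + 1) n := by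
  have hn' : (1 : ℝ) ≤ n := by exact_mod_cast hn
  have hn0 : (0 : ℝ) < n := by linarith
  unfold eps
  rw [add_div, div_div, ← pow_succ]
  have : (n : ℝ) ^ (-α) / n ≤ (n : ℝ) ^ (-α) := div_le_self (by positivity) hn'
  linarith

lemma inv_pow_cast (n l : ℕ) : (((n : ℂ) ^ l)⁻¹) = ((((n : ℝ) ^ l)⁻¹ : ℝ) : ℂ) := by
  push_cast
  rfl

lemma norm_inv_pow (n l : ℕ) : ‖((n : ℂ) ^ l)⁻¹‖ = 1 / (n : ℝ) ^ l := by
  rw [norm_inv, norm_pow, Complex.norm_natCast, one_div]

/-- Product of the expansions of `R` and `We`. -/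
lemma prod_expansion (hA : Asm α y0 r c C n0 A w We Wx) (m : ℕ) :
    ∃ D : ℝ, 0 ≤ D ∧ ∀ (n : ℕ), n0 ≤ n → ∀ (Y : ℂ → Mat2) (B : ℝ), 0 ≤ B →
      (∀ s ∈ A, nm (Y s - ∑ k ∈ Finset.range m, (((n : ℂ) ^ k)⁻¹) • rhoP w k s) ≤ B * eps α m n) →
      ∀ s ∈ A, nm (Y s * We n s - ∑ l ∈ Finset.range m, (((n : ℂ) ^ (l + 1))⁻¹) • Fw w l s) ≤
        D * (B + 1) * (eps α m n / n) := by
  choose Br hBr0 hBr using fun l => (rho_props hA l).2
  choose Bw hBw using hA.We_exp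
  refine ⟨|Bw 0| + ∑ j ∈ Finset.range m, Br j * |Bw (m - j)|, by
    have := Finset.sum_nonneg (s := Finset.range m) (f := fun j => Br j * |Bw (m - j)|)
      fun j _ => mul_nonneg (hBr0 j) (abs_nonneg _)
    positivity, ?_⟩
  intro n hn Y B hB hY s hs
  have h1n : 1 ≤ n := hA.n0_pos.trans hn
  have hn' : (0 : ℝ) < n := by exact_mod_cast h1n
  have hnC : (n : ℂ) ≠ 0 := by exact_mod_cast hn'.ne'
  have hflip := Finset.sum_range_diag_flip m
    (fun j k => (((n : ℂ) ^ (j + k + 1))⁻¹) • (rhoP w j s * w k s))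
  have hL : ∑ l ∈ Finset.range m, (((n : ℂ) ^ (l + 1))⁻¹) • Fw w l s =
      ∑ l ∈ Finset.range m, ∑ j ∈ Finset.range (l + 1),
        (((n : ℂ) ^ (j + (l - j) + 1))⁻¹) • (rhoP w j s * w (l - j) s) := by
    refine Finset.sum_congr rfl fun l _ => ?_
    unfold Fw
    rw [Finset.smul_sum]
    refine Finset.sum_congr rfl fun j hj => ?_
    have hj' : j < l + 1 := by simpa using hj
    rw [show j + (l - j) + 1 = l + 1 by omega]
  have hdecomp : Y s * We n s - ∑ l ∈ Finset.range m, (((n : ℂ) ^ (l + 1))⁻¹) • Fw w l s =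
      (Y s - ∑ k ∈ Finset.range m, (((n : ℂ) ^ k)⁻¹) • rhoP w k s) * We n s +
      ∑ j ∈ Finset.range m, ((((n : ℂ) ^ j)⁻¹) • rhoP w j s) *
        (We n s - ∑ k ∈ Finset.range (m - j), (((n : ℂ) ^ (k + 1))⁻¹) • w k s) := by
    rw [hL, hflip, sub_mul, Finset.sum_mul]
    have : ∑ j ∈ Finset.range m, ((((n : ℂ) ^ j)⁻¹) • rhoP w j s) *
        (We n s - ∑ k ∈ Finset.range (m - j), (((n : ℂ) ^ (k + 1))⁻¹) • w k s) =
        (∑ j ∈ Finset.range m, ((((n : ℂ) ^ j)⁻¹) • rhoP w j s) * We n s) -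
        ∑ j ∈ Finset.range m, ∑ k ∈ Finset.range (m - j),
          (((n : ℂ) ^ (j + k + 1))⁻¹) • (rhoP w j s * w k s) := by
      rw [← Finset.sum_sub_distrib]
      refine Finset.sum_congr rfl fun j _ => ?_
      rw [mul_sub, Finset.mul_sum]
      congr 1
      refine Finset.sum_congr rfl fun k _ => ?_
      rw [Matrix.smul_mul, Matrix.mul_smul, smul_smul]
      congr 1
      rw [← mul_inv, ← pow_add, add_assoc]
    rw [this]
    abel
  have hWe : nm (We n s) ≤ |Bw 0| / n := by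
    have := hBw 0 n hn s hs
    simp only [Finset.range_zero, Finset.sum_empty, sub_zero, zero_add, pow_one] at this
    exact this.trans (by gcongr; exact le_abs_self _)
  have t1 : nm ((Y s - ∑ k ∈ Finset.range m, (((n : ℂ) ^ k)⁻¹) • rhoP w k s) * We n s) ≤
      |Bw 0| * B * (eps α m n / n) := by
    refine (nm_mul _ _).trans ((mul_le_mul (hY s hs) hWe (nm_nonneg _)
      (mul_nonneg hB (eps_nonneg _ _ _))).trans (le_of_eq (by ring)))
  have hepn : 1 / (n : ℝ) ^ (m + 1) ≤ eps α m n / n := by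
    unfold eps
    rw [add_div, div_div, ← pow_succ]
    have : 0 ≤ (n : ℝ) ^ (-α) / n := by positivity
    linarith
  have t2 : nm (∑ j ∈ Finset.range m, ((((n : ℂ) ^ j)⁻¹) • rhoP w j s) *
        (We n s - ∑ k ∈ Finset.range (m - j), (((n : ℂ) ^ (k + 1))⁻¹) • w k s)) ≤
      (∑ j ∈ Finset.range m, Br j * |Bw (m - j)|) * (eps α m n / n) := by
    refine (nm_sum _ _).trans ?_
    rw [Finset.sum_mul]
    refine Finset.sum_le_sum fun j hj => ?_
    have hj' : j < m := by simpa using hj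
    refine (nm_mul _ _).trans ?_
    rw [nm_smul, norm_inv_pow]
    have h1 : nm (We n s - ∑ k ∈ Finset.range (m - j), (((n : ℂ) ^ (k + 1))⁻¹) • w k s) ≤
        |Bw (m - j)| / (n : ℝ) ^ (m - j + 1) :=
      (hBw (m - j) n hn s hs).trans (by gcongr; exact le_abs_self _)
    calc 1 / (n : ℝ) ^ j * nm (rhoP w j s) *
          nm (We n s - ∑ k ∈ Finset.range (m - j), (((n : ℂ) ^ (k + 1))⁻¹) • w k s)
        ≤ 1 / (n : ℝ) ^ j * Br j * (|Bw (m - j)| / (n : ℝ) ^ (m - j + 1)) := by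
          have := hBr j s (hA.A_sub hs)
          have p0 := hBr0 j
          have p1 := nm_nonneg (rhoP w j s)
          have p2 := nm_nonneg
            (We n s - ∑ k ∈ Finset.range (m - j), (((n : ℂ) ^ (k + 1))⁻¹) • w k s)
          gcongr
      _ = Br j * |Bw (m - j)| * (1 / (n : ℝ) ^ (m + 1)) := by
          have : (n : ℝ) ^ (m + 1) = (n : ℝ) ^ j * (n : ℝ) ^ (m - j + 1) := by
            rw [← pow_add]
            congr 1
            omega
          rw [this]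
          field_simp
      _ ≤ Br j * |Bw (m - j)| * (eps α m n / n) := by
          have p0 := hBr0 j
          gcongr
  rw [hdecomp]
  refine (nm_add _ _).trans ?_
  have hE : 0 ≤ eps α m n / n := div_nonneg (eps_nonneg _ _ _) hn'.le
  set SG := ∑ j ∈ Finset.range m, Br j * |Bw (m - j)| with hSG
  have hSG0 : 0 ≤ SG := Finset.sum_nonneg fun j _ => mul_nonneg (hBr0 j) (abs_nonneg _)
  have q1 : 0 ≤ SG * B * (eps α m n / n) := by positivity
  have q2 : 0 ≤ |Bw 0| * (eps α m n / n) := by positivity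
  linarith

/-- The expansion of the solution, all orders. -/
theorem base_exp (hα : 1 < α) (hA : Asm α y0 r c C n0 A w We Wx) (R : ℕ → ℂ → Mat2)
    (hRc : ∀ n, n0 ≤ n → ContinuousOn (R n) UH)
    (hRb : ∀ n, n0 ≤ n → ∃ B : ℝ, ∀ z ∈ UH, nm (R n z) ≤ B)
    (hR : ∀ n, n0 ≤ n → ∀ z ∈ UH,
      R n z = 1 + KK (fun s => R n s * (We n s + W0 α n y0 s + Wx n s)) z) :
    ∃ n1 : ℕ, n0 ≤ n1 ∧ ∀ m : ℕ, ∃ B : ℝ, 0 ≤ B ∧ ∀ n, n1 ≤ n →
      (∀ s ∈ A, nm (R n s - ∑ k ∈ Finset.range m, (((n : ℂ) ^ k)⁻¹) • rhoP w k s) ≤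
        B * eps α m n) ∧
      (∀ s ∈ A, nm (R n s * We n s - ∑ l ∈ Finset.range m, (((n : ℂ) ^ (l + 1))⁻¹) • Fw w l s) ≤
        B * (eps α m n / n)) ∧
      (∀ z ∈ UH, nm (KK (fun s => R n s * We n s) z -
        ∑ l ∈ Finset.range m, (((n : ℂ) ^ (l + 1))⁻¹) • rhoP w (l + 1) z) ≤
          B * (eps α m n / n)) ∧
      nm (IU (fun s => R n s * We n s) -
        ∑ l ∈ Finset.range m, (((n : ℂ) ^ (l + 1))⁻¹) • IU (Fw w l)) ≤
          B * (eps α m n / n) := by
  obtain ⟨n1, hn1, hb⟩ := base_bound hα hA R hRc hRb hR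
  obtain ⟨n2, E, hn2, hE, herr⟩ := err_bound hα hA R hRc hRb hR
  refine ⟨max n1 n2, hn1.trans (le_max_left _ _), ?_⟩
  -- from the first estimate to the others
  have hstep : ∀ m : ℕ, ∀ B : ℝ, 0 ≤ B → (∀ n, max n1 n2 ≤ n → ∀ s ∈ A,
      nm (R n s - ∑ k ∈ Finset.range m, (((n : ℂ) ^ k)⁻¹) • rhoP w k s) ≤ B * eps α m n) →
      ∃ B' : ℝ, 0 ≤ B' ∧ ∀ n, max n1 n2 ≤ n →
      (∀ s ∈ A, nm (R n s * We n s - ∑ l ∈ Finset.range m, (((n : ℂ) ^ (l + 1))⁻¹) • Fw w l s) ≤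
        B' * (eps α m n / n)) ∧
      (∀ z ∈ UH, nm (KK (fun s => R n s * We n s) z -
        ∑ l ∈ Finset.range m, (((n : ℂ) ^ (l + 1))⁻¹) • rhoP w (l + 1) z) ≤
          B' * (eps α m n / n)) ∧
      nm (IU (fun s => R n s * We n s) -
        ∑ l ∈ Finset.range m, (((n : ℂ) ^ (l + 1))⁻¹) • IU (Fw w l)) ≤
          B' * (eps α m n / n) := by
    intro m B hB hYB
    obtain ⟨D, hD, hprod⟩ := prod_expansion hA m
    refine ⟨17 * (D * (B + 1)), by positivity, ?_⟩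
    intro n hn
    have hn0 : n0 ≤ n := hn1.trans ((le_max_left _ _).trans hn)
    have h1n : 1 ≤ n := hA.n0_pos.trans hn0
    have hn' : (0 : ℝ) < n := by exact_mod_cast h1n
    have hE' : 0 ≤ eps α m n / n := div_nonneg (eps_nonneg _ _ _) hn'.le
    have key := hprod n hn0 (R n) B hB (hYB n hn)
    obtain ⟨a1, -, -, -, -⟩ := R_split hα hA R hRc hRb hR n hn0
    have aF : ∀ l ∈ Finset.range m, Adm (fun s => (((n : ℂ) ^ (l + 1))⁻¹) • Fw w l s) :=
      fun l _ => (Fw_adm hA l).smul _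
    have aS : Adm (fun s => ∑ l ∈ Finset.range m, (((n : ℂ) ^ (l + 1))⁻¹) • Fw w l s) :=
      Adm.sum _ aF
    have hsup := adm_of_supp (fun s hs => (hA.A_loc s hs).2)
      (X := fun s => R n s * We n s -
        ∑ l ∈ Finset.range m, (((n : ℂ) ^ (l + 1))⁻¹) • Fw w l s)
      (a1.sub aS).meas (fun s hs => by
        rw [hA.We_supp n s hs, mul_zero, zero_sub, neg_eq_zero]
        exact Finset.sum_eq_zero fun l _ => by rw [(Fw_props hA l).2.1 s hs, smul_zero])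
      (D * (B + 1) * (eps α m n / n)) key (by positivity)
    refine ⟨?_, ?_, ?_⟩
    · intro s hs
      refine (key s hs).trans ?_
      have : 0 ≤ D * (B + 1) * (eps α m n / n) := by positivity
      linarith
    · intro z hz
      have h1 := hsup.2.1 z hz
      rw [KK_sub a1 aS hz, KK_sum _ aF hz] at h1
      have h2 : ∑ l ∈ Finset.range m, KK (fun s => (((n : ℂ) ^ (l + 1))⁻¹) • Fw w l s) z =
          ∑ l ∈ Finset.range m, (((n : ℂ) ^ (l + 1))⁻¹) • rhoP w (l + 1) z := by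
        refine Finset.sum_congr rfl fun l _ => ?_
        rw [inv_pow_cast, KK_smul, rhoP_succ]
      rw [h2] at h1
      exact h1.trans (le_of_eq (by ring))
    · have h1 := hsup.2.2
      rw [IU_sub a1 aS, IU_sum _ aF] at h1
      have h2 : ∑ l ∈ Finset.range m, IU (fun s => (((n : ℂ) ^ (l + 1))⁻¹) • Fw w l s) =
          ∑ l ∈ Finset.range m, (((n : ℂ) ^ (l + 1))⁻¹) • IU (Fw w l) := by
        refine Finset.sum_congr rfl fun l _ => ?_
        rw [IU_smul]
      rw [h2] at h1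
      refine h1.trans ?_
      have : 0 ≤ D * (B + 1) * (eps α m n / n) := by positivity
      linarith
  -- the first estimate by induction
  have hfirst : ∀ m : ℕ, ∃ B : ℝ, 0 ≤ B ∧ ∀ n, max n1 n2 ≤ n → ∀ s ∈ A,
      nm (R n s - ∑ k ∈ Finset.range m, (((n : ℂ) ^ k)⁻¹) • rhoP w k s) ≤ B * eps α m n := by
    intro m
    induction m with
    | zero =>
      refine ⟨4, by norm_num, fun n hn s hs => ?_⟩
      have h1 := hb n ((le_max_left _ _).trans hn) s (hA.A_sub hs)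
      simp only [Finset.range_zero, Finset.sum_empty, sub_zero]
      have : (1 : ℝ) ≤ eps α 0 n := by
        unfold eps
        have : 0 ≤ (n : ℝ) ^ (-α) := by positivity
        simp only [pow_zero, div_one]
        linarith
      linarith
    | succ m ih =>
      obtain ⟨B, hB, hY⟩ := ih
      obtain ⟨B', hB', h'⟩ := hstep m B hB hY
      refine ⟨B' + E, by positivity, fun n hn s hs => ?_⟩
      have hn0 : n0 ≤ n := hn1.trans ((le_max_left _ _).trans hn)
      have h1n : 1 ≤ n := hA.n0_pos.trans hn0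
      obtain ⟨-, -, -, hsp, -⟩ := R_split hα hA R hRc hRb hR n hn0
      have hs' := hA.A_sub hs
      have e1 : R n s - ∑ k ∈ Finset.range (m + 1), (((n : ℂ) ^ k)⁻¹) • rhoP w k s =
          (KK (fun s => R n s * We n s) s -
            ∑ l ∈ Finset.range m, (((n : ℂ) ^ (l + 1))⁻¹) • rhoP w (l + 1) s) +
          (KK (fun s => R n s * W0 α n y0 s) s + KK (fun s => R n s * Wx n s) s) := by
        rw [Finset.sum_range_succ', hsp s hs', rhoP_zero]
        simp only [pow_zero, inv_one, one_smul]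
        abel
      rw [e1]
      refine (nm_add _ _).trans ?_
      have b1 := ((h' n hn).2.1 s hs').trans
        (mul_le_mul_of_nonneg_left (eps_step α m n h1n) hB')
      have b2 := herr n ((le_max_right _ _).trans hn) s hs
      have b3 : E * (n : ℝ) ^ (-α) ≤ E * eps α (m + 1) n := by
        apply mul_le_mul_of_nonneg_left _ hE
        unfold eps
        have : 0 ≤ 1 / (n : ℝ) ^ (m + 1) := by positivity
        linarith
      linarith
  intro m
  obtain ⟨B, hB, hY⟩ := hfirst m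
  obtain ⟨B', hB', h'⟩ := hstep m B hB hY
  refine ⟨B + B', by positivity, fun n hn => ?_⟩
  have hn0 : n0 ≤ n := hn1.trans ((le_max_left _ _).trans hn)
  have h1n : 1 ≤ n := hA.n0_pos.trans hn0
  have hn' : (0 : ℝ) < n := by exact_mod_cast h1n
  have hE0 := eps_nonneg α m n
  have hE' : 0 ≤ eps α m n / n := div_nonneg hE0 hn'.le
  have w1 : B * eps α m n ≤ (B + B') * eps α m n :=
    mul_le_mul_of_nonneg_right (by linarith) hE0
  have w2 : B' * (eps α m n / n) ≤ (B + B') * (eps α m n / n) :=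
    mul_le_mul_of_nonneg_right (by linarith) hE'
  obtain ⟨g1, g2, g3⟩ := h' n hn
  exact ⟨fun s hs => (hY n hn s hs).trans w1, fun s hs => (g1 s hs).trans w2,
    fun z hz => (g2 z hz).trans w2, g3.trans w2⟩

end

end Pert

end Pool.Agent.Freud
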