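import Pool.Agent.Freud.Defs2

set_option autoImplicit false

open MeasureTheory Filter Topology

namespace Pool.Agent.Freud

namespace StAux

lemma sub_ne (z : ℂ) (hz : z ∈ UH) (x : ℝ) : z - x ≠ 0 := by
  intro h
  have h1 : z.im = 0 := by
    have := congrArg Complex.im h
    simpa using this
  have h2 : 0 < z.im := hz
  linarith

lemma im_le (z : ℂ) (x : ℝ) : z.im ≤ ‖z - x‖ := by
  have := Complex.abs_im_le_norm (z - x)
  simp only [Complex.sub_im, Complex.ofReal_im, sub_zero] at this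
  exact (le_abs_self _).trans this

lemma re_le (z : ℂ) (x : ℝ) : |x - z.re| ≤ ‖z - x‖ := by
  have := Complex.abs_re_le_norm (z - x)
  simp only [Complex.sub_re, Complex.ofReal_re] at this
  rwa [abs_sub_comm] at this

lemma cont_inv (z : ℂ) (hz : z ∈ UH) : Continuous (fun x : ℝ => (z - x)⁻¹) :=
  Continuous.inv₀ (by fun_prop) (sub_ne z hz)

lemma integrable_div {f : ℝ → ℝ} (hf : Integrable f) (z : ℂ) (hz : z ∈ UH) :
    Integrable (fun x : ℝ => (f x : ℂ) / (z - x)) := by
  have h0 : 0 < z.im := hz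
  refine Integrable.mono' (g := fun x => ‖f x‖ / z.im) (hf.norm.div_const _) ?_ ?_
  · simp only [div_eq_mul_inv]
    exact (Complex.continuous_ofReal.comp_aestronglyMeasurable hf.1).mul
      (cont_inv z hz).aestronglyMeasurable
  · refine ae_of_all _ fun x => ?_
    rw [norm_div, Complex.norm_real]
    gcongr
    exact im_le z x

/-- Multiplication by `z`. -/
lemma mul_Hst {f : ℝ → ℝ} (hf : Integrable f) (hf1 : Integrable (fun x => x * f x))
    (z : ℂ) (hz : z ∈ UH) :
    z * Hst f z = ((1 / (2 * Real.pi) * ∫ x, f x : ℝ) : ℂ) + Hst (fun x => x * f x) z := by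
  have h1 : ∫ x : ℝ, ((x * f x : ℝ) : ℂ) / (z - x) + (f x : ℂ) =
      ∫ x : ℝ, z * ((f x : ℂ) / (z - x)) := by
    refine integral_congr_ae (ae_of_all _ fun x => ?_)
    have := sub_ne z hz x
    simp only
    push_cast
    field_simp
    ring
  have h2 : ∫ x : ℝ, ((x * f x : ℝ) : ℂ) / (z - x) + (f x : ℂ) =
      (∫ x : ℝ, ((x * f x : ℝ) : ℂ) / (z - x)) + ∫ x : ℝ, (f x : ℂ) :=
    integral_add (integrable_div hf1 z hz) hf.ofReal
  rw [integral_const_mul] at h1
  unfold Hst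
  have h3 : ((1 / (2 * Real.pi) * ∫ x, f x : ℝ) : ℂ) =
      1 / (2 * (Real.pi : ℂ)) * ∫ x : ℝ, (f x : ℂ) := by
    rw [Complex.ofReal_mul, ← integral_complex_ofReal]
    push_cast
    rfl
  rw [h3]
  have h4 : z * (1 / (2 * (Real.pi : ℂ)) * ∫ x : ℝ, (f x : ℂ) / (z - x)) =
      1 / (2 * (Real.pi : ℂ)) * (z * ∫ x : ℝ, (f x : ℂ) / (z - x)) := by ring
  rw [h4, ← h1, h2]
  ring

/-- Subtracting the local constant. -/
noncomputable def hh (g : ℝ → ℝ) (a : ℝ) (x : ℝ) : ℝ :=
  g x - (Set.Ioc (a - 1) (a + 1)).indicator (fun _ => g a) x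

/-- The dominating function. -/
noncomputable def bd (g : ℝ → ℝ) (M a : ℝ) (x : ℝ) : ℝ :=
  (Set.Ioc (a - 1) (a + 1)).indicator (fun _ => M) x + |g x|

lemma integrable_ind (a c : ℝ) :
    Integrable (fun x : ℝ => (Set.Ioc (a - 1) (a + 1)).indicator (fun _ => c) x) := by
  rw [integrable_indicator_iff measurableSet_Ioc]
  exact integrableOn_const (by simp)

lemma integrable_hh {g : ℝ → ℝ} (hg : Integrable g) (a : ℝ) : Integrable (hh g a) :=
  hg.sub (integrable_ind a (g a))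

lemma integrable_bd {g : ℝ → ℝ} (hg : Integrable g) (M a : ℝ) : Integrable (bd g M a) :=
  (integrable_ind a M).add hg.abs

lemma integral_bd {g : ℝ → ℝ} (hg : Integrable g) (M a : ℝ) :
    ∫ x, bd g M a x = 2 * M + ∫ x, |g x| := by
  unfold bd
  rw [integral_add (integrable_ind a M) hg.abs, integral_indicator measurableSet_Ioc]
  congr 1
  rw [setIntegral_const]
  simp only [Measure.real, Real.volume_Ioc, smul_eq_mul]
  rw [ENNReal.toReal_ofReal (by linarith)]
  ring

lemma norm_le_bd {g : ℝ → ℝ} {M : ℝ} (hM : 0 ≤ M) (hL : ∀ x y, |g x - g y| ≤ M * |x - y|)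
    (z : ℂ) (hz : z ∈ UH) (x : ℝ) :
    ‖(hh g z.re x : ℂ) / (z - x)‖ ≤ bd g M z.re x := by
  have h0 : 0 < ‖z - x‖ := norm_pos_iff.mpr (sub_ne z hz x)
  rw [norm_div, Complex.norm_real, div_le_iff₀ h0]
  unfold hh bd
  by_cases hx : x ∈ Set.Ioc (z.re - 1) (z.re + 1)
  · rw [Set.indicator_of_mem hx, Set.indicator_of_mem hx, Real.norm_eq_abs]
    calc |g x - g z.re| ≤ M * |x - z.re| := hL _ _
      _ ≤ M * ‖z - x‖ := by gcongr; exact re_le z x
      _ ≤ (M + |g x|) * ‖z - x‖ := by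
        gcongr
        linarith [abs_nonneg (g x)]
  · rw [Set.indicator_of_notMem hx, Set.indicator_of_notMem hx, Real.norm_eq_abs, sub_zero,
      zero_add]
    have h1 : 1 ≤ ‖z - x‖ := by
      refine le_trans ?_ (re_le z x)
      rw [Set.mem_Ioc, not_and_or] at hx
      rcases hx with hx | hx
      · rw [abs_sub_comm]
        exact le_trans (by linarith) (le_abs_self _)
      · exact le_trans (by linarith) (le_abs_self _)
    nlinarith [abs_nonneg (g x)]

/-- The explicit integral of the kernel. -/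
lemma integral_kernel (z : ℂ) (hz : z ∈ UH) (a : ℝ) :
    ∫ x in (a - 1)..(a + 1), (1 : ℂ) / (z - x) =
      Complex.log (z - (a - 1)) - Complex.log (z - (a + 1)) := by
  have h0 : 0 < z.im := hz
  have hd : ∀ x : ℝ, HasDerivAt (fun x : ℝ => -Complex.log (z - x)) (1 / (z - x)) x := by
    intro x
    have h1 : HasDerivAt (fun x : ℝ => z - (x : ℂ)) (-1) x := by
      simpa using (Complex.ofRealCLM.hasDerivAt (x := x)).const_sub z
    have h2 : z - (x : ℂ) ∈ Complex.slitPlane := by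
      right
      simp only [Complex.sub_im, Complex.ofReal_im, sub_zero]
      exact ne_of_gt h0
    have h3 := (h1.clog_real h2).neg
    have h4 : -(-1 / (z - (x : ℂ))) = 1 / (z - x) := by ring
    rw [h4] at h3
    exact h3
  rw [intervalIntegral.integral_eq_sub_of_hasDerivAt (fun x _ => hd x)]
  · push_cast
    ring
  · apply Continuous.intervalIntegrable
    simp only [one_div]
    exact cont_inv z hz

/-- The decomposition. -/
lemma decomp {g : ℝ → ℝ} (hg : Integrable g) (z : ℂ) (hz : z ∈ UH) :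
    ∫ x : ℝ, (g x : ℂ) / (z - x) = (∫ x : ℝ, (hh g z.re x : ℂ) / (z - x)) +
      g z.re * (Complex.log (z - (z.re - 1)) - Complex.log (z - (z.re + 1))) := by
  have h1 : ∫ x : ℝ, (((Set.Ioc (z.re - 1) (z.re + 1)).indicator (fun _ => g z.re) x : ℝ) : ℂ)
      / (z - x) = g z.re * (Complex.log (z - (z.re - 1)) - Complex.log (z - (z.re + 1))) := by
    rw [← integral_kernel z hz z.re, intervalIntegral.integral_of_le (by linarith),
      ← integral_const_mul, ← integral_indicator measurableSet_Ioc]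
    refine integral_congr_ae (ae_of_all _ fun x => ?_)
    by_cases hx : x ∈ Set.Ioc (z.re - 1) (z.re + 1)
    · simp only [Set.indicator_of_mem hx]
      ring
    · simp only [Set.indicator_of_notMem hx]
      simp
  rw [← h1, ← integral_add (integrable_div (integrable_hh hg _) z hz)
    (integrable_div (integrable_ind _ _) z hz)]
  refine integral_congr_ae (ae_of_all _ fun x => ?_)
  simp only [hh]
  push_cast
  ring

lemma norm_log_sub (z : ℂ) :
    ‖Complex.log (z - (z.re - 1)) - Complex.log (z - (z.re + 1))‖ ≤ 2 * Real.pi := by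
  have h1 : ‖z - ((z.re : ℂ) - 1)‖ = ‖z - ((z.re : ℂ) + 1)‖ := by
    rw [Complex.norm_eq_sqrt_sq_add_sq, Complex.norm_eq_sqrt_sq_add_sq]
    simp
  have h2 : ∀ w₁ w₂ : ℂ, ‖w₁‖ = ‖w₂‖ → ‖Complex.log w₁ - Complex.log w₂‖ ≤ 2 * Real.pi := by
    intro w₁ w₂ h
    have : Complex.log w₁ - Complex.log w₂ = ((w₁.arg - w₂.arg : ℝ) : ℂ) * Complex.I := by
      simp only [Complex.log, h]
      push_cast
      ring
    rw [this, norm_mul, Complex.norm_I, mul_one, Complex.norm_real, Real.norm_eq_abs]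
    calc |w₁.arg - w₂.arg| ≤ |w₁.arg| + |w₂.arg| := abs_sub _ _
      _ ≤ 2 * Real.pi := by linarith [Complex.abs_arg_le_pi w₁, Complex.abs_arg_le_pi w₂]
  exact h2 _ _ h1

/-- Uniform bound for the Stieltjes transform of an integrable bounded Lipschitz function. -/
lemma bdd {g : ℝ → ℝ} (hg : Integrable g) {M A : ℝ} (hM : 0 ≤ M)
    (hL : ∀ x y, |g x - g y| ≤ M * |x - y|) (hA : ∀ x, |g x| ≤ A) :
    ∃ C, 0 ≤ C ∧ ∀ z ∈ UH, ‖Hst g z‖ ≤ C := by
  have hA0 : 0 ≤ A := (abs_nonneg _).trans (hA 0)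
  have hI : 0 ≤ ∫ x, |g x| := integral_nonneg fun x => abs_nonneg _
  refine ⟨1 / (2 * Real.pi) * ((2 * M + ∫ x, |g x|) + A * (2 * Real.pi)), by positivity,
    fun z hz => ?_⟩
  unfold Hst
  rw [decomp hg z hz, norm_mul]
  have h0 : ‖(1 : ℂ) / (2 * (Real.pi : ℂ))‖ = 1 / (2 * Real.pi) := by
    rw [norm_div, norm_mul, Complex.norm_real, Real.norm_eq_abs, abs_of_pos Real.pi_pos]
    simp
  rw [h0]
  gcongr
  refine (norm_add_le _ _).trans (add_le_add ?_ ?_)
  · rw [← integral_bd hg M z.re]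
    exact norm_integral_le_of_norm_le (integrable_bd hg M z.re)
      (ae_of_all _ fun x => norm_le_bd hM hL z hz x)
  · rw [norm_mul, Complex.norm_real, Real.norm_eq_abs]
    exact mul_le_mul (hA _) (norm_log_sub z) (norm_nonneg _) hA0

/-- Weighted functions `p * f` for `p` growing at most quadratically. -/
lemma good {f f' : ℝ → ℝ} (h : Dec f f') (p p' : ℝ → ℝ) (hp : ∀ x, HasDerivAt p (p' x) x)
    (hp1 : ∀ x, |p x| ≤ 1 + x ^ 2) (hp2 : ∀ x, |p' x| ≤ 1 + x ^ 2) :
    Integrable (fun x => p x * f x) ∧ ∃ M A : ℝ, 0 ≤ M ∧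
      (∀ x y, |p x * f x - p y * f y| ≤ M * |x - y|) ∧ ∀ x, |p x * f x| ≤ A := by
  obtain ⟨C, hC⟩ := h.bound
  have hC0 : 0 ≤ C := by
    have := (abs_nonneg _).trans (hC 0).1
    simpa using this
  have hkey : ∀ x u v : ℝ, |u| ≤ 1 + x ^ 2 → |v| ≤ C / (1 + x ^ 2) ^ 2 →
      |u * v| ≤ C * (1 + x ^ 2)⁻¹ := by
    intro x u v hu hv
    rw [abs_mul]
    have hx : 0 < 1 + x ^ 2 := by positivity
    calc |u| * |v| ≤ (1 + x ^ 2) * (C / (1 + x ^ 2) ^ 2) :=
          mul_le_mul hu hv (abs_nonneg _) hx.le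
      _ = C * (1 + x ^ 2)⁻¹ := by field_simp
  have hle1 : ∀ x : ℝ, C * (1 + x ^ 2)⁻¹ ≤ C := by
    intro x
    have hx : (1 : ℝ) ≤ 1 + x ^ 2 := by nlinarith [sq_nonneg x]
    calc C * (1 + x ^ 2)⁻¹ ≤ C * 1 := by
          gcongr
          exact inv_le_one_of_one_le₀ hx
      _ = C := mul_one C
  have hd : ∀ x, HasDerivAt (fun x => p x * f x) (p' x * f x + p x * f' x) x := fun x =>
    (hp x).mul (h.deriv x)
  have hcont : Continuous (fun x => p x * f x) :=
    continuous_iff_continuousAt.mpr fun x => (hd x).continuousAt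
  refine ⟨?_, 2 * C, C, by positivity, ?_, ?_⟩
  · refine Integrable.mono' (g := fun x => C * (1 + x ^ 2)⁻¹)
      (integrable_inv_one_add_sq.const_mul C) hcont.aestronglyMeasurable
      (ae_of_all _ fun x => ?_)
    rw [Real.norm_eq_abs]
    exact hkey x _ _ (hp1 x) (hC x).1
  · intro x y
    have := Convex.norm_image_sub_le_of_norm_hasDerivWithin_le (f := fun x => p x * f x)
      (f' := fun x => p' x * f x + p x * f' x) (C := 2 * C) (s := Set.univ) (x := y) (y := x)
      (fun t _ => (hd t).hasDerivWithinAt) (fun t _ => ?_) convex_univ (Set.mem_univ _)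
      (Set.mem_univ _)
    · simpa [Real.norm_eq_abs] using this
    · rw [Real.norm_eq_abs]
      calc |p' t * f t + p t * f' t| ≤ |p' t * f t| + |p t * f' t| := abs_add_le _ _
        _ ≤ C + C := add_le_add ((hkey t _ _ (hp2 t) (hC t).1).trans (hle1 t))
          ((hkey t _ _ (hp1 t) (hC t).2).trans (hle1 t))
        _ = 2 * C := by ring
  · intro x
    exact (hkey x _ _ (hp1 x) (hC x).1).trans (hle1 x)

lemma good0 {f f' : ℝ → ℝ} (h : Dec f f') :
    Integrable f ∧ ∃ M A : ℝ, 0 ≤ M ∧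
      (∀ x y, |f x - f y| ≤ M * |x - y|) ∧ ∀ x, |f x| ≤ A := by
  have := good h (fun _ => 1) (fun _ => 0) (fun x => hasDerivAt_const x 1)
    (fun x => by rw [abs_one]; nlinarith [sq_nonneg x])
    (fun x => by rw [abs_zero]; positivity)
  simpa using this

lemma good1 {f f' : ℝ → ℝ} (h : Dec f f') :
    Integrable (fun x => x * f x) ∧ ∃ M A : ℝ, 0 ≤ M ∧
      (∀ x y, |x * f x - y * f y| ≤ M * |x - y|) ∧ ∀ x, |x * f x| ≤ A :=
  good h (fun x => x) (fun _ => 1) (fun x => hasDerivAt_id x)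
    (fun x => by rw [abs_le]; constructor <;> nlinarith [sq_nonneg (x - 1), sq_nonneg (x + 1)])
    (fun x => by rw [abs_one]; nlinarith [sq_nonneg x])

lemma good2 {f f' : ℝ → ℝ} (h : Dec f f') :
    Integrable (fun x => x * (x * f x)) ∧ ∃ M A : ℝ, 0 ≤ M ∧
      (∀ x y, |x * (x * f x) - y * (y * f y)| ≤ M * |x - y|) ∧ ∀ x, |x * (x * f x)| ≤ A := by
  have := good h (fun x => x ^ 2) (fun x => 2 * x) (fun x => by
      simpa using hasDerivAt_pow 2 x)
    (fun x => by rw [abs_of_nonneg (sq_nonneg x)]; linarith)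
    (fun x => by rw [abs_le]; constructor <;> nlinarith [sq_nonneg (x - 1), sq_nonneg (x + 1)])
  simpa [pow_two, mul_assoc] using this

end StAux

open StAux

theorem Hst_differentiableAt {f f' : ℝ → ℝ} (h : Dec f f') :
    ∀ z ∈ UH, DifferentiableAt ℂ (Hst f) z := by
  intro z hz
  have h0 : 0 < z.im := hz
  have hf := (good0 h).1
  have hball : ∀ w ∈ Metric.ball z (z.im / 2), z.im / 2 < w.im := by
    intro w hw
    rw [Metric.mem_ball, dist_eq_norm] at hw
    have h1 := (Complex.abs_im_le_norm (w - z)).trans_lt hw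
    rw [abs_lt, Complex.sub_im] at h1
    linarith [h1.1]
  have key := hasDerivAt_integral_of_dominated_loc_of_deriv_le
    (F := fun (w : ℂ) (x : ℝ) => (f x : ℂ) / (w - x))
    (F' := fun (w : ℂ) (x : ℝ) => -((f x : ℂ) / (w - x) ^ 2))
    (x₀ := z) (s := Metric.ball z (z.im / 2)) (μ := volume)
    (bound := fun x => ‖f x‖ * (4 / z.im ^ 2))
    (Metric.ball_mem_nhds z (by positivity))
    (by
      filter_upwards [Metric.ball_mem_nhds z (show 0 < z.im / 2 by positivity)] with w hw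
      exact (integrable_div hf w (show 0 < w.im by linarith [hball w hw])).1)
    (integrable_div hf z hz)
    (by
      refine AEStronglyMeasurable.neg ?_
      simp only [div_eq_mul_inv]
      refine (Complex.continuous_ofReal.comp_aestronglyMeasurable hf.1).mul ?_
      refine Continuous.aestronglyMeasurable ?_
      exact Continuous.inv₀ (by fun_prop) (fun x => pow_ne_zero 2 (sub_ne z hz x)))
    (ae_of_all _ fun x w hw => by
      have h1 : z.im / 2 ≤ ‖w - x‖ := (hball w hw).le.trans (im_le w x)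
      rw [norm_neg, norm_div, norm_pow, Complex.norm_real, div_eq_mul_inv]
      gcongr
      rw [show 4 / z.im ^ 2 = ((z.im / 2) ^ 2)⁻¹ by field_simp; norm_num]
      gcongr)
    (hf.norm.mul_const _)
    (ae_of_all _ fun x w hw => by
      have h1 : w - x ≠ 0 := sub_ne w (show 0 < w.im by linarith [hball w hw]) x
      have h2 : HasDerivAt (fun w : ℂ => w - x) 1 w := (hasDerivAt_id w).sub_const _
      have h3 := (h2.inv h1).const_mul (f x : ℂ)
      have h4 : (f x : ℂ) * (-1 / (w - x) ^ 2) = -((f x : ℂ) / (w - x) ^ 2) := by ring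
      rw [h4] at h3
      exact h3)
  have h4 := key.2.differentiableAt
  exact h4.const_mul _

theorem Hst_bound {f f' : ℝ → ℝ} (h : Dec f f') :
    ∃ C, ∀ z ∈ UH, ‖Hst f z‖ ≤ C / (1 + ‖z‖) := by
  obtain ⟨hi0, M0, A0, hM0, hL0, hA0⟩ := good0 h
  obtain ⟨hi1, M1, A1, hM1, hL1, hA1⟩ := good1 h
  obtain ⟨C0, hC0, hb0⟩ := bdd hi0 hM0 hL0 hA0
  obtain ⟨C1, hC1, hb1⟩ := bdd hi1 hM1 hL1 hA1
  refine ⟨C0 + (|1 / (2 * Real.pi) * ∫ x, f x| + C1), fun z hz => ?_⟩
  have h1 : 0 < 1 + ‖z‖ := by positivity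
  rw [le_div_iff₀ h1, mul_add, mul_one]
  refine add_le_add (hb0 z hz) ?_
  rw [mul_comm, ← norm_mul, mul_Hst hi0 hi1 z hz]
  refine (norm_add_le _ _).trans (add_le_add ?_ (hb1 z hz))
  rw [Complex.norm_real, Real.norm_eq_abs]

theorem Hst_inf {f f' : ℝ → ℝ} (h : Dec f f') :
    Tendsto (fun z => z * Hst f z) (cocompact ℂ ⊓ 𝓟 UH)
      (𝓝 (((1 / (2 * Real.pi)) * ∫ x, f x : ℝ) : ℂ)) := by
  obtain ⟨hi0, -⟩ := good0 h
  obtain ⟨hi1, -⟩ := good1 h
  obtain ⟨hi2, M2, A2, hM2, hL2, hA2⟩ := good2 h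
  obtain ⟨C2, hC2, hb2⟩ := bdd hi2 hM2 hL2 hA2
  rw [tendsto_iff_norm_sub_tendsto_zero]
  have hmain : ∀ z ∈ UH, ‖z * Hst f z - (((1 / (2 * Real.pi)) * ∫ x, f x : ℝ) : ℂ)‖ ≤
      (|1 / (2 * Real.pi) * ∫ x, x * f x| + C2) * ‖z‖⁻¹ := by
    intro z hz
    have hz0 : z ≠ 0 := by
      rintro rfl
      have : (0 : ℝ) < (0 : ℂ).im := hz
      simp at this
    have hz1 : 0 < ‖z‖ := norm_pos_iff.mpr hz0
    rw [mul_Hst hi0 hi1 z hz, add_sub_cancel_left, ← div_eq_mul_inv, le_div_iff₀ hz1, mul_comm,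
      ← norm_mul, mul_Hst hi1 hi2 z hz]
    refine (norm_add_le _ _).trans (add_le_add ?_ (hb2 z hz))
    rw [Complex.norm_real, Real.norm_eq_abs]
  have hlim : Tendsto (fun z : ℂ => (|1 / (2 * Real.pi) * ∫ x, x * f x| + C2) * ‖z‖⁻¹)
      (cocompact ℂ ⊓ 𝓟 UH) (𝓝 0) := by
    have h1 : Tendsto (fun z : ℂ => ‖z‖⁻¹) (cocompact ℂ) (𝓝 0) :=
      tendsto_inv_atTop_zero.comp (tendsto_norm_cocompact_atTop (E := ℂ))
    have h2 := (h1.const_mul (|1 / (2 * Real.pi) * ∫ x, x * f x| + C2)).mono_left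
      (inf_le_left : cocompact ℂ ⊓ 𝓟 UH ≤ cocompact ℂ)
    simpa using h2
  refine squeeze_zero' (Eventually.of_forall fun z => norm_nonneg _) ?_ hlim
  exact Filter.mem_inf_of_right (Filter.mem_principal.mpr fun z hz => hmain z hz)

theorem Hst_bdry {f f' : ℝ → ℝ} (h : Dec f f') (x : ℝ) :
    ∃ L : ℝ, Tendsto (fun ε : ℝ => Hst f (x + ε * Complex.I)) (𝓝[>] 0)
      (𝓝 ((L : ℂ) - (f x / 2 : ℝ) * Complex.I)) := by
  obtain ⟨hi, M, A, hM, hL, hA⟩ := good0 h
  refine ⟨1 / (2 * Real.pi) * ∫ t : ℝ, hh f x t / (x - t), ?_⟩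
  have hmem : ∀ ε : ℝ, 0 < ε → ((x : ℂ) + ε * Complex.I) ∈ UH := by
    intro ε hε
    simpa [UH] using hε
  have hre : ∀ ε : ℝ, ((x : ℂ) + ε * Complex.I).re = x := by
    intro ε
    simp
  -- the regular part
  have h1 : Tendsto (fun ε : ℝ => ∫ t : ℝ, (hh f x t : ℂ) / (((x : ℂ) + ε * Complex.I) - t))
      (𝓝[>] 0) (𝓝 (∫ t : ℝ, (hh f x t : ℂ) / ((x : ℂ) - t))) := by
    refine tendsto_integral_filter_of_dominated_convergence (bd f M x) ?_ ?_
      (integrable_bd hi M x) ?_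
    · filter_upwards [self_mem_nhdsWithin] with ε hε
      exact (integrable_div (integrable_hh hi x) _ (hmem ε hε)).1
    · filter_upwards [self_mem_nhdsWithin] with ε hε
      refine ae_of_all _ fun t => ?_
      have := norm_le_bd hM hL _ (hmem ε hε) t
      rwa [hre ε] at this
    · refine ae_of_all _ fun t => ?_
      by_cases ht : t = x
      · have h0 : hh f x t = 0 := by
          unfold hh
          rw [Set.indicator_of_mem (by rw [ht]; constructor <;> linarith), ht, sub_self]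
        simp only [h0, Complex.ofReal_zero, zero_div]
        exact tendsto_const_nhds
      · refine Tendsto.div tendsto_const_nhds ?_ ?_
        · have : Tendsto (fun ε : ℝ => ((x : ℂ) + ε * Complex.I) - t) (𝓝 0)
              (𝓝 (((x : ℂ) + (0 : ℝ) * Complex.I) - t)) := by
            apply Continuous.tendsto
            fun_prop
          simp only [Complex.ofReal_zero, zero_mul, add_zero] at this
          exact this.mono_left nhdsWithin_le_nhds
        · rw [sub_ne_zero]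
          intro h'
          exact ht (by exact_mod_cast h'.symm)
  -- the logarithms
  have h2 : Tendsto (fun ε : ℝ => Complex.log (((x : ℂ) + ε * Complex.I) - (x - 1)))
      (𝓝[>] 0) (𝓝 0) := by
    have h3 : Tendsto (fun ε : ℝ => ((x : ℂ) + ε * Complex.I) - (x - 1)) (𝓝[>] 0) (𝓝 1) := by
      have : Tendsto (fun ε : ℝ => ((x : ℂ) + ε * Complex.I) - (x - 1)) (𝓝 0)
          (𝓝 (((x : ℂ) + (0 : ℝ) * Complex.I) - (x - 1))) := by
        apply Continuous.tendsto
        fun_prop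
      simp only [Complex.ofReal_zero, zero_mul, add_zero, sub_sub_cancel] at this
      exact this.mono_left nhdsWithin_le_nhds
    have h4 := h3.clog Complex.one_mem_slitPlane
    rwa [Complex.log_one] at h4
  have h5 : Tendsto (fun ε : ℝ => Complex.log (((x : ℂ) + ε * Complex.I) - (x + 1)))
      (𝓝[>] 0) (𝓝 (Real.pi * Complex.I)) := by
    have h3 : Tendsto (fun ε : ℝ => ((x : ℂ) + ε * Complex.I) - (x + 1)) (𝓝[>] 0)
        (𝓝[{z : ℂ | 0 ≤ z.im}] (-1)) := by
      refine tendsto_nhdsWithin_iff.mpr ⟨?_, ?_⟩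
      · have : Tendsto (fun ε : ℝ => ((x : ℂ) + ε * Complex.I) - (x + 1)) (𝓝 0)
            (𝓝 (((x : ℂ) + (0 : ℝ) * Complex.I) - (x + 1))) := by
          apply Continuous.tendsto
          fun_prop
        have h6 : ((x : ℂ) + (0 : ℝ) * Complex.I) - (x + 1) = -1 := by
          push_cast
          ring
        rw [h6] at this
        exact this.mono_left nhdsWithin_le_nhds
      · filter_upwards [self_mem_nhdsWithin] with ε hε
        have : (0 : ℝ) < ε := hε
        simp [this.le]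
    have h4 := (Complex.tendsto_log_nhdsWithin_im_nonneg_of_re_neg_of_im_zero
      (z := -1) (by simp) (by simp)).comp h3
    have h7 : ((Real.log ‖(-1 : ℂ)‖ : ℝ) : ℂ) + Real.pi * Complex.I = Real.pi * Complex.I := by
      simp
    rw [h7] at h4
    exact h4
  have h6 : Tendsto (fun ε : ℝ => Hst f (x + ε * Complex.I)) (𝓝[>] 0)
      (𝓝 (1 / (2 * (Real.pi : ℂ)) * ((∫ t : ℝ, (hh f x t : ℂ) / ((x : ℂ) - t)) +
        f x * (0 - Real.pi * Complex.I)))) := by
    have h7 := (h1.add ((h2.sub h5).const_mul (f x : ℂ))).const_mul (1 / (2 * (Real.pi : ℂ)))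
    refine h7.congr' ?_
    filter_upwards [self_mem_nhdsWithin] with ε hε
    have h8 := decomp hi _ (hmem ε hε)
    rw [hre ε] at h8
    rw [Hst, h8]
  have h9 : 1 / (2 * (Real.pi : ℂ)) * ((∫ t : ℝ, (hh f x t : ℂ) / ((x : ℂ) - t)) +
        f x * (0 - Real.pi * Complex.I)) =
      ((1 / (2 * Real.pi) * ∫ t : ℝ, hh f x t / (x - t) : ℝ) : ℂ) -
        (f x / 2 : ℝ) * Complex.I := by
    have h10 : ((∫ t : ℝ, hh f x t / (x - t) : ℝ) : ℂ) =
        ∫ t : ℝ, (hh f x t : ℂ) / ((x : ℂ) - t) := by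
      rw [← integral_complex_ofReal]
      push_cast
      rfl
    have hpi : (Real.pi : ℂ) ≠ 0 := by exact_mod_cast Real.pi_ne_zero
    rw [Complex.ofReal_mul, h10]
    push_cast
    field_simp
    ring
  rw [h9] at h6
  exact h6

end Pool.Agent.Freud
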