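import Pool.Agent.Freud.Defs2

/-!
Rotations of the Airy function: the entries of the local parametrix in terms of the normalised
Airy functions `aA`, `aB`.
-/

set_option autoImplicit false

open MeasureTheory Filter Topology Asymptotics

namespace Pool.Agent.Freud

namespace Xr

/-! ### Rotations -/

lemma log_rot {ζ : ℂ} (h0 : ζ ≠ 0) (θ : ℝ) (h1 : -Real.pi < ζ.arg + θ)
    (h2 : ζ.arg + θ ≤ Real.pi) :
    Complex.log (Complex.exp (θ * Complex.I) * ζ) = Complex.log ζ + θ * Complex.I := by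
  have h3 : Complex.exp (θ * Complex.I) * ζ = Complex.exp (Complex.log ζ + θ * Complex.I) := by
    rw [Complex.exp_add, Complex.exp_log h0, mul_comm]
  rw [h3, Complex.log_exp]
  · simpa [Complex.log_im] using h1
  · simpa [Complex.log_im] using h2

lemma rot_ne {ζ : ℂ} (h0 : ζ ≠ 0) (θ : ℝ) : Complex.exp (θ * Complex.I) * ζ ≠ 0 :=
  mul_ne_zero (Complex.exp_ne_zero _) h0

lemma cpow_rot {ζ : ℂ} (h0 : ζ ≠ 0) (θ : ℝ) (h1 : -Real.pi < ζ.arg + θ)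
    (h2 : ζ.arg + θ ≤ Real.pi) (c : ℂ) :
    (Complex.exp (θ * Complex.I) * ζ) ^ c = Complex.exp (θ * Complex.I * c) * ζ ^ c := by
  rw [Complex.cpow_def_of_ne_zero (rot_ne h0 θ), log_rot h0 θ h1 h2,
    Complex.cpow_def_of_ne_zero h0, ← Complex.exp_add]
  congr 1
  ring

lemma arg_rot {ζ : ℂ} (h0 : ζ ≠ 0) (θ : ℝ) (h1 : -Real.pi < ζ.arg + θ)
    (h2 : ζ.arg + θ ≤ Real.pi) :
    (Complex.exp (θ * Complex.I) * ζ).arg = ζ.arg + θ := by
  have := congrArg Complex.im (log_rot h0 θ h1 h2)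
  simpa [Complex.log_im] using this

lemma norm_rot (ζ : ℂ) (θ : ℝ) : ‖Complex.exp (θ * Complex.I) * ζ‖ = ‖ζ‖ := by
  rw [norm_mul, Complex.norm_exp_ofReal_mul_I, one_mul]

/-- The angle of `om ^ 2`. -/
noncomputable def th2 : ℝ := -(2 * Real.pi / 3)

/-- The angle of `om`. -/
noncomputable def th1 : ℝ := -(4 * Real.pi / 3)

lemma om2_eq : om ^ 2 = Complex.exp ((th2 : ℝ) * Complex.I) := by
  rw [om, ← Complex.exp_nat_mul, Complex.exp_eq_exp_iff_exists_int]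
  refine ⟨1, ?_⟩
  simp only [th2]
  push_cast
  ring

lemma om_eq : om = Complex.exp ((th1 : ℝ) * Complex.I) := by
  rw [om, Complex.exp_eq_exp_iff_exists_int]
  refine ⟨1, ?_⟩
  simp only [th1]
  push_cast
  ring

/-- The normalised Airy function. -/
noncomputable def aA (ζ : ℂ) : ℂ :=
  2 * √Real.pi * ζ ^ (1 / 4 : ℂ) * Complex.exp (2 / 3 * ζ ^ (3 / 2 : ℂ)) * Airy ζ

/-- The normalised derivative of the Airy function. -/
noncomputable def aB (ζ : ℂ) : ℂ :=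
  -(2 * √Real.pi * ζ ^ (-(1 / 4) : ℂ) * Complex.exp (2 / 3 * ζ ^ (3 / 2 : ℂ)) * Airy' ζ)

lemma sqrt_two_pi : (√(2 * Real.pi) : ℂ) = ((1 / √2 : ℝ) : ℂ) * (2 * √Real.pi) := by
  have h : √(2 * Real.pi) = (1 / √2) * (2 * √Real.pi) := by
    rw [Real.sqrt_mul (by norm_num)]
    have h2 : √2 * √2 = (2 : ℝ) := Real.mul_self_sqrt (by norm_num)
    have h3 : (√2 : ℝ) ≠ 0 := by positivity
    field_simp
    nlinarith [h2]
  rw [h]
  push_cast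
  ring

lemma th2_cpow32 : Complex.exp ((th2 : ℝ) * Complex.I * (3 / 2 : ℂ)) = -1 := by
  have : (th2 : ℝ) * Complex.I * (3 / 2 : ℂ) = -(Real.pi * Complex.I) := by
    simp only [th2]; push_cast; ring
  rw [this, Complex.exp_neg, Complex.exp_pi_mul_I]
  norm_num

lemma th1_cpow32 : Complex.exp ((th1 : ℝ) * Complex.I * (3 / 2 : ℂ)) = 1 := by
  have : (th1 : ℝ) * Complex.I * (3 / 2 : ℂ) = -(2 * Real.pi * Complex.I) := by
    simp only [th1]; push_cast; ring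
  rw [this, Complex.exp_neg, Complex.exp_two_pi_mul_I]
  norm_num

lemma I_eq : Complex.I = Complex.exp (Real.pi / 2 * Complex.I) := by
  rw [Complex.exp_pi_div_two_mul_I]

/-- `i ω² = exp (iθ/4)` with `θ` the angle of `ω²`. -/
lemma aux2A : Complex.I * om ^ 2 = Complex.exp ((th2 : ℝ) * Complex.I * (1 / 4 : ℂ)) := by
  rw [om2_eq, I_eq, ← Complex.exp_add, Complex.exp_eq_exp_iff_exists_int]
  rw [← I_eq]
  refine ⟨0, ?_⟩
  simp only [th2]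
  push_cast
  ring

lemma aux2B : Complex.I * om ^ 4 = -Complex.exp ((th2 : ℝ) * Complex.I * (-(1 / 4) : ℂ)) := by
  have h1 : om ^ 4 = om ^ 2 * om ^ 2 := by ring
  have h2 : (-1 : ℂ) = Complex.exp (Real.pi * Complex.I) := Complex.exp_pi_mul_I.symm
  have h3 : -Complex.exp ((th2 : ℝ) * Complex.I * (-(1 / 4) : ℂ)) =
      (-1) * Complex.exp ((th2 : ℝ) * Complex.I * (-(1 / 4) : ℂ)) := by ring
  rw [h3, h1, om2_eq, h2]
  nth_rewrite 1 [I_eq]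
  rw [← Complex.exp_add, ← Complex.exp_add, ← Complex.exp_add, Complex.exp_eq_exp_iff_exists_int]
  refine ⟨-1, ?_⟩
  simp only [th2]
  push_cast
  ring

lemma aux1A : -om = Complex.exp ((th1 : ℝ) * Complex.I * (1 / 4 : ℂ)) := by
  have h2 : (-1 : ℂ) = Complex.exp (Real.pi * Complex.I) := Complex.exp_pi_mul_I.symm
  have h3 : -om = (-1) * om := by ring
  rw [h3, om_eq, h2, ← Complex.exp_add, Complex.exp_eq_exp_iff_exists_int]
  refine ⟨0, ?_⟩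
  simp only [th1]
  push_cast
  ring

lemma aux1B : om ^ 2 = -Complex.exp ((th1 : ℝ) * Complex.I * (-(1 / 4) : ℂ)) := by
  have h2 : (-1 : ℂ) = Complex.exp (Real.pi * Complex.I) := Complex.exp_pi_mul_I.symm
  have h3 : -Complex.exp ((th1 : ℝ) * Complex.I * (-(1 / 4) : ℂ)) =
      (-1) * Complex.exp ((th1 : ℝ) * Complex.I * (-(1 / 4) : ℂ)) := by ring
  rw [h3, om2_eq, h2, ← Complex.exp_add, Complex.exp_eq_exp_iff_exists_int]
  refine ⟨-1, ?_⟩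
  simp only [th2, th1]
  push_cast
  ring

/-! ### The entries -/

/-- The `(1,1)` entry. -/
lemma entry11 (ζ : ℂ) : √(2 * Real.pi) * Airy ζ *
    (ζ ^ (1 / 4 : ℂ) * Complex.exp (2 / 3 * ζ ^ (3 / 2 : ℂ))) = ((1 / √2 : ℝ) : ℂ) * aA ζ := by
  rw [sqrt_two_pi, aA]; ring

lemma entry21 (ζ : ℂ) : √(2 * Real.pi) * (-Airy' ζ) *
    (ζ ^ (-(1 / 4) : ℂ) * Complex.exp (2 / 3 * ζ ^ (3 / 2 : ℂ))) = ((1 / √2 : ℝ) : ℂ) * aB ζ := by
  rw [sqrt_two_pi, aB]; ring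

section

variable {ζ : ℂ} (h1 : 0 < ζ.arg) (h2 : ζ.arg < Real.pi)

include h1 in
lemma ne_of_arg : ζ ≠ 0 := by
  rintro rfl
  simp at h1

include h1 h2 in
lemma arg_om2 : (om ^ 2 * ζ).arg = ζ.arg + th2 := by
  rw [om2_eq]
  apply arg_rot (ne_of_arg h1)
  · simp only [th2]; linarith [Real.pi_pos]
  · simp only [th2]; linarith [Real.pi_pos]

include h1 h2 in
lemma cpow_om2 (c : ℂ) : (om ^ 2 * ζ) ^ c = Complex.exp ((th2 : ℝ) * Complex.I * c) * ζ ^ c := by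
  rw [om2_eq]
  apply cpow_rot (ne_of_arg h1)
  · simp only [th2]; linarith [Real.pi_pos]
  · simp only [th2]; linarith [Real.pi_pos]

lemma norm_om2 (ζ : ℂ) : ‖om ^ 2 * ζ‖ = ‖ζ‖ := by
  rw [om2_eq]; exact norm_rot _ _

lemma norm_om (ζ : ℂ) : ‖om * ζ‖ = ‖ζ‖ := by
  rw [om_eq]; exact norm_rot _ _

include h1 h2 in
lemma cpow32_om2 : (om ^ 2 * ζ) ^ (3 / 2 : ℂ) = -ζ ^ (3 / 2 : ℂ) := by
  rw [cpow_om2 h1 h2, th2_cpow32]; ring

include h1 h2 in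
lemma entry12 : √(2 * Real.pi) * (Complex.I * om ^ 2 * Airy (om ^ 2 * ζ)) *
    (ζ ^ (1 / 4 : ℂ) * Complex.exp (-(2 / 3 * ζ ^ (3 / 2 : ℂ)))) =
      ((1 / √2 : ℝ) : ℂ) * aA (om ^ 2 * ζ) := by
  rw [sqrt_two_pi, aA, cpow32_om2 h1 h2, cpow_om2 h1 h2, aux2A,
    show (2 / 3 : ℂ) * -ζ ^ (3 / 2 : ℂ) = -(2 / 3 * ζ ^ (3 / 2 : ℂ)) by ring]
  ring

include h1 h2 in
lemma entry22 : √(2 * Real.pi) * (-(Complex.I * om ^ 4 * Airy' (om ^ 2 * ζ))) *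
    (ζ ^ (-(1 / 4) : ℂ) * Complex.exp (-(2 / 3 * ζ ^ (3 / 2 : ℂ)))) =
      -(((1 / √2 : ℝ) : ℂ) * aB (om ^ 2 * ζ)) := by
  rw [sqrt_two_pi, aB, cpow32_om2 h1 h2, cpow_om2 h1 h2, aux2B,
    show (2 / 3 : ℂ) * -ζ ^ (3 / 2 : ℂ) = -(2 / 3 * ζ ^ (3 / 2 : ℂ)) by ring]
  ring

variable (h3 : Real.pi / 3 < ζ.arg)

include h1 h2 h3 in
lemma arg_om : (om * ζ).arg = ζ.arg + th1 := by
  rw [om_eq]
  apply arg_rot (ne_of_arg h1)
  · simp only [th1]; linarith [Real.pi_pos]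
  · simp only [th1]; linarith [Real.pi_pos]

include h1 h2 h3 in
lemma cpow_om (c : ℂ) : (om * ζ) ^ c = Complex.exp ((th1 : ℝ) * Complex.I * c) * ζ ^ c := by
  nth_rewrite 1 [om_eq]
  apply cpow_rot (ne_of_arg h1)
  · simp only [th1]; linarith [Real.pi_pos]
  · simp only [th1]; linarith [Real.pi_pos]

include h1 h2 h3 in
lemma cpow32_om : (om * ζ) ^ (3 / 2 : ℂ) = ζ ^ (3 / 2 : ℂ) := by
  rw [cpow_om h1 h2 h3, th1_cpow32]; ring

include h1 h2 h3 in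
lemma entry1m : √(2 * Real.pi) * (-om * Airy (om * ζ)) *
    (ζ ^ (1 / 4 : ℂ) * Complex.exp (2 / 3 * ζ ^ (3 / 2 : ℂ))) =
      ((1 / √2 : ℝ) : ℂ) * aA (om * ζ) := by
  rw [sqrt_two_pi, aA, cpow32_om h1 h2 h3, cpow_om h1 h2 h3, ← aux1A]
  ring

include h1 h2 h3 in
lemma entry2m : √(2 * Real.pi) * (om ^ 2 * Airy' (om * ζ)) *
    (ζ ^ (-(1 / 4) : ℂ) * Complex.exp (2 / 3 * ζ ^ (3 / 2 : ℂ))) =
      ((1 / √2 : ℝ) : ℂ) * aB (om * ζ) := by
  rw [sqrt_two_pi, aB, cpow32_om h1 h2 h3, cpow_om h1 h2 h3, aux1B]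
  ring

end

end Xr

end Pool.Agent.Freud
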