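import Pool.Agent.Freud.XratA

/-!
Expansions of the two columns of the local parametrix with opened lens.
-/

set_option autoImplicit false

open MeasureTheory Filter Topology Asymptotics

namespace Pool.Agent.Freud

namespace Xr

lemma norm_cpow32 (ζ : ℂ) : ‖ζ ^ (3 / 2 : ℂ)‖ = ‖ζ‖ ^ (3 / 2 : ℝ) := by
  rw [show (3 / 2 : ℂ) = ((3 / 2 : ℝ) : ℂ) by push_cast; ring, Complex.norm_cpow_real]

lemma norm_cpow14 (ζ : ℂ) : ‖ζ ^ (1 / 4 : ℂ)‖ = ‖ζ‖ ^ (1 / 4 : ℝ) := by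
  rw [show (1 / 4 : ℂ) = ((1 / 4 : ℝ) : ℂ) by push_cast; ring, Complex.norm_cpow_real]

lemma norm_cpow14n (ζ : ℂ) : ‖ζ ^ (-(1 / 4) : ℂ)‖ = ‖ζ‖ ^ (-(1 / 4) : ℝ) := by
  rw [show (-(1 / 4) : ℂ) = ((-(1 / 4) : ℝ) : ℂ) by push_cast; ring, Complex.norm_cpow_real]

lemma re_cpow32 {ζ : ℂ} (h : ζ ≠ 0) :
    (ζ ^ (3 / 2 : ℂ)).re = ‖ζ‖ ^ (3 / 2 : ℝ) * Real.cos (3 / 2 * ζ.arg) := by
  rw [Complex.cpow_def_of_ne_zero h, Complex.exp_re]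
  have h1 : (Complex.log ζ * (3 / 2 : ℂ)).re = Real.log ‖ζ‖ * (3 / 2) := by
    rw [show (3 / 2 : ℂ) = ((3 / 2 : ℝ) : ℂ) by push_cast; ring, Complex.re_mul_ofReal,
      Complex.log_re]
  have h2 : (Complex.log ζ * (3 / 2 : ℂ)).im = 3 / 2 * ζ.arg := by
    rw [show (3 / 2 : ℂ) = ((3 / 2 : ℝ) : ℂ) by push_cast; ring, Complex.im_mul_ofReal,
      Complex.log_im]
    ring
  rw [h1, h2, Real.rpow_def_of_pos (norm_pos_iff.2 h)]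

/-- The asymptotic expansions away from the origin. -/
def Asy (u v : ℕ → ℂ) : Prop :=
  ∀ (K : ℕ) (ε r : ℝ), 0 < ε → 0 < r → ∃ C : ℝ, 0 ≤ C ∧
    ∀ ζ : ℂ, r ≤ ‖ζ‖ → |ζ.arg| ≤ Real.pi - ε →
      ‖aA ζ - ∑ k ∈ Finset.range (K + 1), u k * ((ζ ^ (3 / 2 : ℂ)) ^ k)⁻¹‖
          ≤ C * ‖ζ‖ ^ (-(3 * (K + 1) / 2) : ℝ) ∧
      ‖aB ζ - ∑ k ∈ Finset.range (K + 1), v k * ((ζ ^ (3 / 2 : ℂ)) ^ k)⁻¹‖
          ≤ C * ‖ζ‖ ^ (-(3 * (K + 1) / 2) : ℝ)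

lemma sum_bound (u : ℕ → ℂ) (K : ℕ) (r : ℝ) (hr : 0 < r) :
    ∃ C : ℝ, 0 ≤ C ∧ ∀ ζ : ℂ, r ≤ ‖ζ‖ →
      ‖∑ k ∈ Finset.range (K + 1), u k * ((ζ ^ (3 / 2 : ℂ)) ^ k)⁻¹‖ ≤ C := by
  refine ⟨∑ k ∈ Finset.range (K + 1), ‖u k‖ * ((r ^ (3 / 2 : ℝ)) ^ k)⁻¹, by positivity, ?_⟩
  intro ζ hζ
  refine (norm_sum_le _ _).trans (Finset.sum_le_sum fun k _ => ?_)
  rw [norm_mul, norm_inv, norm_pow, norm_cpow32]
  have h1 : r ^ (3 / 2 : ℝ) ≤ ‖ζ‖ ^ (3 / 2 : ℝ) := Real.rpow_le_rpow hr.le hζ (by norm_num)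
  have h2 : 0 < r ^ (3 / 2 : ℝ) := Real.rpow_pos_of_pos hr _
  gcongr

lemma asy_of (hc : Continuous Airy) (hc' : Continuous Airy')
    (h : ∃ u v : ℕ → ℂ, u 0 = 1 ∧ v 0 = 1 ∧
    ∀ (K : ℕ) (ε : ℝ), 0 < ε → ∃ C : ℝ, ∀ ζ : ℂ, 1 ≤ ‖ζ‖ → |ζ.arg| ≤ Real.pi - ε →
      ‖2 * √Real.pi * ζ ^ (1 / 4 : ℂ) * Complex.exp (2 / 3 * ζ ^ (3 / 2 : ℂ)) * Airy ζ
        - ∑ k ∈ Finset.range (K + 1), u k * ((ζ ^ (3 / 2 : ℂ)) ^ k)⁻¹‖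
          ≤ C * ‖ζ‖ ^ (-(3 * (K + 1) / 2) : ℝ) ∧
      ‖-(2 * √Real.pi * ζ ^ (-(1 / 4) : ℂ) * Complex.exp (2 / 3 * ζ ^ (3 / 2 : ℂ)) * Airy' ζ)
        - ∑ k ∈ Finset.range (K + 1), v k * ((ζ ^ (3 / 2 : ℂ)) ^ k)⁻¹‖
          ≤ C * ‖ζ‖ ^ (-(3 * (K + 1) / 2) : ℝ)) :
    ∃ u v : ℕ → ℂ, u 0 = 1 ∧ v 0 = 1 ∧ Asy u v := by
  obtain ⟨u, v, hu, hv, h⟩ := h
  refine ⟨u, v, hu, hv, ?_⟩
  intro K ε r hε hr
  obtain ⟨C, hC⟩ := h K ε hε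
  obtain ⟨Cu, hCu0, hCu⟩ := sum_bound u K r hr
  obtain ⟨Cv, hCv0, hCv⟩ := sum_bound v K r hr
  obtain ⟨BA, hBA⟩ := (isCompact_closedBall (0 : ℂ) 1).exists_bound_of_continuousOn hc.continuousOn
  obtain ⟨BB, hBB⟩ := (isCompact_closedBall (0 : ℂ) 1).exists_bound_of_continuousOn hc'.continuousOn
  have hBA0 : 0 ≤ BA := (norm_nonneg _).trans (hBA 0 (by simp))
  have hBB0 : 0 ≤ BB := (norm_nonneg _).trans (hBB 0 (by simp))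
  set DA : ℝ := 2 * √Real.pi * 1 * Real.exp (2 / 3) * BA with hDA
  set DB : ℝ := 2 * √Real.pi * r ^ (-(1 / 4) : ℝ) * Real.exp (2 / 3) * BB with hDB
  have hr4 : 0 < r ^ (-(1 / 4) : ℝ) := Real.rpow_pos_of_pos hr _
  have hDA0 : 0 ≤ DA := by positivity
  have hDB0 : 0 ≤ DB := by positivity
  refine ⟨|C| + (DA + Cu) + (DB + Cv), by positivity, ?_⟩
  intro ζ hζ harg
  have hζ0 : 0 < ‖ζ‖ := hr.trans_le hζ
  have hp : 0 < ‖ζ‖ ^ (-(3 * (K + 1) / 2) : ℝ) := Real.rpow_pos_of_pos hζ0 _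
  rcases le_or_gt 1 ‖ζ‖ with h1 | h1
  · obtain ⟨h2, h3⟩ := hC ζ h1 harg
    have h4 : C ≤ |C| + (DA + Cu) + (DB + Cv) := by
      have := le_abs_self C
      linarith
    exact ⟨h2.trans (by gcongr), h3.trans (by gcongr)⟩
  · have hmem : ζ ∈ Metric.closedBall (0 : ℂ) 1 := by simpa using h1.le
    have hp1 : 1 ≤ ‖ζ‖ ^ (-(3 * (K + 1) / 2) : ℝ) :=
      Real.one_le_rpow_of_pos_of_le_one_of_nonpos hζ0 h1.le (by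
        have : (0 : ℝ) ≤ 3 * (K + 1) / 2 := by positivity
        linarith)
    have hexp : ‖Complex.exp (2 / 3 * ζ ^ (3 / 2 : ℂ))‖ ≤ Real.exp (2 / 3) := by
      refine (Complex.norm_exp_le_exp_norm _).trans (Real.exp_le_exp.2 ?_)
      rw [norm_mul, norm_cpow32]
      have h5 : ‖ζ‖ ^ (3 / 2 : ℝ) ≤ 1 := Real.rpow_le_one hζ0.le h1.le (by norm_num)
      have h6 : ‖(2 / 3 : ℂ)‖ = 2 / 3 := by norm_num
      rw [h6]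
      linarith
    have hA : ‖aA ζ‖ ≤ DA := by
      rw [aA, norm_mul, norm_mul, norm_mul, norm_mul, norm_cpow14, hDA]
      have h7 : ‖ζ‖ ^ (1 / 4 : ℝ) ≤ 1 := Real.rpow_le_one hζ0.le h1.le (by norm_num)
      have h8 : ‖(2 : ℂ)‖ = 2 := by norm_num
      have h9 : ‖((√Real.pi : ℝ) : ℂ)‖ = √Real.pi := by
        rw [Complex.norm_real, Real.norm_of_nonneg (Real.sqrt_nonneg _)]
      rw [h8, h9]
      have h10 := hBA ζ hmem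
      gcongr
    have hB : ‖aB ζ‖ ≤ DB := by
      rw [aB, norm_neg, norm_mul, norm_mul, norm_mul, norm_mul, norm_cpow14n, hDB]
      have h7 : ‖ζ‖ ^ (-(1 / 4) : ℝ) ≤ r ^ (-(1 / 4) : ℝ) :=
        Real.rpow_le_rpow_of_nonpos hr hζ (by norm_num)
      have h8 : ‖(2 : ℂ)‖ = 2 := by norm_num
      have h9 : ‖((√Real.pi : ℝ) : ℂ)‖ = √Real.pi := by
        rw [Complex.norm_real, Real.norm_of_nonneg (Real.sqrt_nonneg _)]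
      rw [h8, h9]
      have h10 := hBB ζ hmem
      gcongr
    have hX : 0 ≤ |C| := abs_nonneg C
    constructor
    · calc ‖aA ζ - ∑ k ∈ Finset.range (K + 1), u k * ((ζ ^ (3 / 2 : ℂ)) ^ k)⁻¹‖
          ≤ DA + Cu := (norm_sub_le _ _).trans (add_le_add hA (hCu ζ hζ))
        _ ≤ (|C| + (DA + Cu) + (DB + Cv)) * 1 := by linarith
        _ ≤ _ := by gcongr
    · calc ‖aB ζ - ∑ k ∈ Finset.range (K + 1), v k * ((ζ ^ (3 / 2 : ℂ)) ^ k)⁻¹‖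
          ≤ DB + Cv := (norm_sub_le _ _).trans (add_le_add hB (hCv ζ hζ))
        _ ≤ (|C| + (DA + Cu) + (DB + Cv)) * 1 := by linarith
        _ ≤ _ := by gcongr

/-- `n^(2/3)`. -/
noncomputable def n23 (n : ℕ) : ℝ := (n : ℝ) ^ (2 / 3 : ℝ)

lemma n23_pos {n : ℕ} (hn : 1 ≤ n) : 0 < n23 n :=
  Real.rpow_pos_of_pos (by exact_mod_cast hn) _

lemma one_le_n23 {n : ℕ} (hn : 1 ≤ n) : 1 ≤ n23 n :=
  Real.one_le_rpow (by exact_mod_cast hn) (by norm_num)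

lemma n23_rpow {n : ℕ} : n23 n ^ (3 / 2 : ℝ) = n := by
  rw [n23, ← Real.rpow_mul (Nat.cast_nonneg n)]
  norm_num

/-- Bounds in terms of `n`. -/
lemma asy_n {u v : ℕ → ℂ} (h : Asy u v) (K : ℕ) (ε r : ℝ) (hε : 0 < ε) (hr : 0 < r) :
    ∃ C : ℝ, 0 ≤ C ∧ ∀ n : ℕ, 1 ≤ n → ∀ ζ : ℂ, r * n23 n ≤ ‖ζ‖ → |ζ.arg| ≤ Real.pi - ε →
      ‖aA ζ - ∑ k ∈ Finset.range (K + 1), u k * ((ζ ^ (3 / 2 : ℂ)) ^ k)⁻¹‖
          ≤ C / n ^ (K + 1) ∧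
      ‖aB ζ - ∑ k ∈ Finset.range (K + 1), v k * ((ζ ^ (3 / 2 : ℂ)) ^ k)⁻¹‖
          ≤ C / n ^ (K + 1) ∧ ‖aA ζ‖ ≤ C ∧ ‖aB ζ‖ ≤ C := by
  obtain ⟨C, hC0, hC⟩ := h K ε r hε hr
  obtain ⟨Cu, hCu0, hCu⟩ := sum_bound u K r hr
  obtain ⟨Cv, hCv0, hCv⟩ := sum_bound v K r hr
  set D : ℝ := C * r ^ (-(3 * (K + 1) / 2) : ℝ) with hD
  have hrp : 0 < r ^ (-(3 * (K + 1) / 2) : ℝ) := Real.rpow_pos_of_pos hr _
  have hD0 : 0 ≤ D := by positivity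
  refine ⟨D + Cu + Cv, by positivity, ?_⟩
  intro n hn ζ hζ harg
  have hn0 : (0 : ℝ) < n := by exact_mod_cast hn
  have hn1 : (1 : ℝ) ≤ n := by exact_mod_cast hn
  have h1 := n23_pos hn
  have hrζ : r ≤ ‖ζ‖ := by
    refine le_trans ?_ hζ
    nlinarith [one_le_n23 hn]
  have h2 : ‖ζ‖ ^ (-(3 * (K + 1) / 2) : ℝ) ≤ r ^ (-(3 * (K + 1) / 2) : ℝ) / n ^ (K + 1) := by
    calc ‖ζ‖ ^ (-(3 * (K + 1) / 2) : ℝ) ≤ (r * n23 n) ^ (-(3 * (K + 1) / 2) : ℝ) := by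
          apply Real.rpow_le_rpow_of_nonpos (by positivity) hζ
          have : (0 : ℝ) ≤ 3 * (K + 1) / 2 := by positivity
          linarith
      _ = r ^ (-(3 * (K + 1) / 2) : ℝ) * n23 n ^ (-(3 * (K + 1) / 2) : ℝ) := by
          rw [Real.mul_rpow hr.le h1.le]
      _ = r ^ (-(3 * (K + 1) / 2) : ℝ) / n ^ (K + 1) := by
          rw [div_eq_mul_inv]
          congr 1
          rw [n23, ← Real.rpow_mul hn0.le, ← Real.rpow_natCast, ← Real.rpow_neg hn0.le]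
          congr 1
          push_cast
          ring
  have hnp : (1 : ℝ) ≤ (n : ℝ) ^ (K + 1) := one_le_pow₀ hn1
  have h3 : C * ‖ζ‖ ^ (-(3 * (K + 1) / 2) : ℝ) ≤ D / n ^ (K + 1) := by
    calc C * ‖ζ‖ ^ (-(3 * (K + 1) / 2) : ℝ)
        ≤ C * (r ^ (-(3 * (K + 1) / 2) : ℝ) / n ^ (K + 1)) := mul_le_mul_of_nonneg_left h2 hC0
      _ = D / n ^ (K + 1) := by rw [hD]; ring
  have h3' : C * ‖ζ‖ ^ (-(3 * (K + 1) / 2) : ℝ) ≤ D :=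
    h3.trans (div_le_self hD0 hnp)
  have h4 : D / n ^ (K + 1) ≤ (D + Cu + Cv) / n ^ (K + 1) := by
    gcongr
    linarith
  obtain ⟨h5, h6⟩ := hC ζ hrζ harg
  refine ⟨h5.trans (h3.trans h4), h6.trans (h3.trans h4), ?_, ?_⟩
  · have h7 : aA ζ = (aA ζ - ∑ k ∈ Finset.range (K + 1), u k * ((ζ ^ (3 / 2 : ℂ)) ^ k)⁻¹) +
      ∑ k ∈ Finset.range (K + 1), u k * ((ζ ^ (3 / 2 : ℂ)) ^ k)⁻¹ := by ring
    rw [h7]
    refine (norm_add_le _ _).trans ?_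
    have := hCu ζ hrζ
    linarith [h5.trans h3']
  · have h7 : aB ζ = (aB ζ - ∑ k ∈ Finset.range (K + 1), v k * ((ζ ^ (3 / 2 : ℂ)) ^ k)⁻¹) +
      ∑ k ∈ Finset.range (K + 1), v k * ((ζ ^ (3 / 2 : ℂ)) ^ k)⁻¹ := by ring
    rw [h7]
    refine (norm_add_le _ _).trans ?_
    have := hCv ζ hrζ
    linarith [h6.trans h3']

/-- Exponentials beat powers. -/
lemma exp_small (K : ℕ) (c : ℝ) (hc : 0 < c) :
    ∃ C : ℝ, 0 ≤ C ∧ ∀ n : ℕ, 1 ≤ n → Real.exp (-(c * n)) ≤ C / n ^ (K + 1) := by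
  refine ⟨(K + 1).factorial / c ^ (K + 1), by positivity, fun n hn => ?_⟩
  have hn0 : (0 : ℝ) < n := by exact_mod_cast hn
  have h1 : (c * n) ^ (K + 1) / (K + 1).factorial ≤ Real.exp (c * n) :=
    Real.pow_div_factorial_le_exp _ (by positivity) _
  rw [Real.exp_neg, div_div, inv_eq_one_div, div_le_div_iff₀ (Real.exp_pos _) (by positivity)]
  rw [div_le_iff₀ (by positivity), mul_pow] at h1
  linarith

/-- Size of the exponential `exp (4/3 ζ^(3/2))` for arguments between `π/2` and `π - ε`. -/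
lemma exp_left (ε r : ℝ) (hε : 0 < ε) (hr : 0 < r) : ∃ c : ℝ, 0 < c ∧
    ∀ n : ℕ, 1 ≤ n → ∀ ζ : ℂ, r * n23 n ≤ ‖ζ‖ → Real.pi / 2 ≤ ζ.arg → ζ.arg ≤ Real.pi - ε →
      ‖Complex.exp (2 * (2 / 3 * ζ ^ (3 / 2 : ℂ)))‖ ≤ Real.exp (-(c * n)) := by
  set η : ℝ := min (Real.pi / 4) (3 / 2 * ε) with hη
  have hη0 : 0 < η := lt_min (by positivity) (by positivity)
  have hη1 : η ≤ Real.pi / 4 := min_le_left _ _
  have hη2 : η ≤ 3 / 2 * ε := min_le_right _ _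
  have hs : 0 < Real.sin η := Real.sin_pos_of_pos_of_lt_pi hη0 (by linarith [Real.pi_pos])
  have hr32 : 0 < r ^ (3 / 2 : ℝ) := Real.rpow_pos_of_pos hr _
  refine ⟨4 / 3 * (r ^ (3 / 2 : ℝ) * Real.sin η), by positivity, ?_⟩
  intro n hn ζ hζ h1 h2
  have hn0 : (0 : ℝ) < n := by exact_mod_cast hn
  have hn23 := n23_pos hn
  have hζ0 : 0 < ‖ζ‖ := lt_of_lt_of_le (by positivity) hζ
  have hne : ζ ≠ 0 := norm_pos_iff.1 hζ0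
  have hcos : Real.cos (3 / 2 * ζ.arg) ≤ -Real.sin η := by
    have h3 : Real.cos (3 / 2 * ζ.arg) = -Real.cos (|3 / 2 * ζ.arg - Real.pi|) := by
      rw [Real.cos_abs, Real.cos_sub_pi, neg_neg]
    have h4 : |3 / 2 * ζ.arg - Real.pi| ≤ Real.pi / 2 - η := by
      rw [abs_le]
      constructor <;> linarith
    have h5 : Real.sin η = Real.cos (Real.pi / 2 - η) := (Real.cos_pi_div_two_sub η).symm
    rw [h3, h5]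
    have := Real.cos_le_cos_of_nonneg_of_le_pi (abs_nonneg (3 / 2 * ζ.arg - Real.pi))
      (by linarith [Real.pi_pos]) h4
    linarith
  have hpow : r ^ (3 / 2 : ℝ) * n ≤ ‖ζ‖ ^ (3 / 2 : ℝ) := by
    calc r ^ (3 / 2 : ℝ) * n = (r * n23 n) ^ (3 / 2 : ℝ) := by
          rw [Real.mul_rpow hr.le hn23.le, n23_rpow]
      _ ≤ _ := Real.rpow_le_rpow (by positivity) hζ (by norm_num)
  rw [Complex.norm_exp, Real.exp_le_exp]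
  have h6 : (2 * (2 / 3 * ζ ^ (3 / 2 : ℂ))).re = 4 / 3 * (ζ ^ (3 / 2 : ℂ)).re := by
    rw [show 2 * (2 / 3 * ζ ^ (3 / 2 : ℂ)) = ((4 / 3 : ℝ) : ℂ) * ζ ^ (3 / 2 : ℂ) by
      push_cast; ring, Complex.re_ofReal_mul]
  rw [h6, re_cpow32 hne]
  have h7 : ‖ζ‖ ^ (3 / 2 : ℝ) * Real.cos (3 / 2 * ζ.arg) ≤
      -(r ^ (3 / 2 : ℝ) * n * Real.sin η) := by
    have h8 : 0 ≤ ‖ζ‖ ^ (3 / 2 : ℝ) := by positivity
    have h9 : ‖ζ‖ ^ (3 / 2 : ℝ) * Real.cos (3 / 2 * ζ.arg) ≤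
        ‖ζ‖ ^ (3 / 2 : ℝ) * (-Real.sin η) := mul_le_mul_of_nonneg_left hcos h8
    have h10 : r ^ (3 / 2 : ℝ) * n * Real.sin η ≤ ‖ζ‖ ^ (3 / 2 : ℝ) * Real.sin η :=
      mul_le_mul_of_nonneg_right hpow hs.le
    linarith
  linarith

/-- Size of the exponential `exp (-4/3 ζ^(3/2))` for arguments at most `π/4`. -/
lemma exp_right (r : ℝ) (hr : 0 < r) : ∃ c : ℝ, 0 < c ∧
    ∀ n : ℕ, 1 ≤ n → ∀ ζ : ℂ, r * n23 n ≤ ‖ζ‖ → 0 < ζ.arg → ζ.arg ≤ Real.pi / 4 →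
      ‖Complex.exp (-(2 * (2 / 3 * ζ ^ (3 / 2 : ℂ))))‖ ≤ Real.exp (-(c * n)) := by
  have hs : 0 < Real.cos (3 / 8 * Real.pi) := Real.cos_pos_of_mem_Ioo
    ⟨by linarith [Real.pi_pos], by linarith [Real.pi_pos]⟩
  have hr32 : 0 < r ^ (3 / 2 : ℝ) := Real.rpow_pos_of_pos hr _
  refine ⟨4 / 3 * (r ^ (3 / 2 : ℝ) * Real.cos (3 / 8 * Real.pi)), by positivity, ?_⟩
  intro n hn ζ hζ h1 h2
  have hn0 : (0 : ℝ) < n := by exact_mod_cast hn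
  have hn23 := n23_pos hn
  have hζ0 : 0 < ‖ζ‖ := lt_of_lt_of_le (by positivity) hζ
  have hne : ζ ≠ 0 := norm_pos_iff.1 hζ0
  have hcos : Real.cos (3 / 8 * Real.pi) ≤ Real.cos (3 / 2 * ζ.arg) :=
    Real.cos_le_cos_of_nonneg_of_le_pi (by positivity) (by linarith [Real.pi_pos]) (by linarith)
  have hpow : r ^ (3 / 2 : ℝ) * n ≤ ‖ζ‖ ^ (3 / 2 : ℝ) := by
    calc r ^ (3 / 2 : ℝ) * n = (r * n23 n) ^ (3 / 2 : ℝ) := by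
          rw [Real.mul_rpow hr.le hn23.le, n23_rpow]
      _ ≤ _ := Real.rpow_le_rpow (by positivity) hζ (by norm_num)
  rw [Complex.norm_exp, Real.exp_le_exp]
  have h6 : (-(2 * (2 / 3 * ζ ^ (3 / 2 : ℂ)))).re = -(4 / 3 * (ζ ^ (3 / 2 : ℂ)).re) := by
    rw [show -(2 * (2 / 3 * ζ ^ (3 / 2 : ℂ))) = ((-(4 / 3) : ℝ) : ℂ) * ζ ^ (3 / 2 : ℂ) by
      push_cast; ring, Complex.re_ofReal_mul]
    ring
  rw [h6, re_cpow32 hne]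
  have h7 : r ^ (3 / 2 : ℝ) * n * Real.cos (3 / 8 * Real.pi) ≤
      ‖ζ‖ ^ (3 / 2 : ℝ) * Real.cos (3 / 2 * ζ.arg) := by
    have h8 : 0 ≤ ‖ζ‖ ^ (3 / 2 : ℝ) := by positivity
    calc r ^ (3 / 2 : ℝ) * n * Real.cos (3 / 8 * Real.pi)
        ≤ ‖ζ‖ ^ (3 / 2 : ℝ) * Real.cos (3 / 8 * Real.pi) :=
          mul_le_mul_of_nonneg_right hpow hs.le
      _ ≤ _ := mul_le_mul_of_nonneg_left hcos h8
  linarith

end Xr

end Pool.Agent.Freud
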