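import Pool.Agent.Freud.XratB

/-!
The two columns.
-/

set_option autoImplicit false

open MeasureTheory Filter Topology Asymptotics

namespace Pool.Agent.Freud

namespace Xr

/-- The phase. -/
noncomputable def ph (ζ : ℂ) : ℂ := 2 / 3 * ζ ^ (3 / 2 : ℂ)

/-- Entries of `ζ^(σ₃/4) Ψ(ζ) e^((2/3) ζ^(3/2) σ₃)`. -/
noncomputable def T11 (ζ : ℂ) : ℂ :=
  √(2 * Real.pi) * Airy ζ * (ζ ^ (1 / 4 : ℂ) * Complex.exp (ph ζ))
noncomputable def T21 (ζ : ℂ) : ℂ :=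
  √(2 * Real.pi) * (-Airy' ζ) * (ζ ^ (-(1 / 4) : ℂ) * Complex.exp (ph ζ))
noncomputable def T12 (ζ : ℂ) : ℂ :=
  √(2 * Real.pi) * (Complex.I * om ^ 2 * Airy (om ^ 2 * ζ)) *
    (ζ ^ (1 / 4 : ℂ) * Complex.exp (-ph ζ))
noncomputable def T22 (ζ : ℂ) : ℂ :=
  √(2 * Real.pi) * (-(Complex.I * om ^ 4 * Airy' (om ^ 2 * ζ))) *
    (ζ ^ (-(1 / 4) : ℂ) * Complex.exp (-ph ζ))

/-- `1/√2`. -/
noncomputable def hs : ℂ := ((1 / √2 : ℝ) : ℂ)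

lemma norm_hs : ‖hs‖ ≤ 1 := by
  rw [hs, Complex.norm_real, Real.norm_of_nonneg (by positivity)]
  rw [div_le_one (by positivity)]
  exact Real.one_le_sqrt.2 (by norm_num)

/-- The connection formulas. -/
structure Conn : Prop where
  a : ∀ ζ : ℂ, Airy ζ + om * Airy (om * ζ) + om ^ 2 * Airy (om ^ 2 * ζ) = 0
  b : ∀ ζ : ℂ, Airy' ζ + om ^ 2 * Airy' (om * ζ) + om ^ 4 * Airy' (om ^ 2 * ζ) = 0

lemma T11_eq (ζ : ℂ) : T11 ζ = hs * aA ζ := entry11 ζ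

lemma T21_eq (ζ : ℂ) : T21 ζ = hs * aB ζ := entry21 ζ

lemma T12_eq {ζ : ℂ} (h1 : 0 < ζ.arg) (h2 : ζ.arg < Real.pi) :
    T12 ζ = hs * aA (om ^ 2 * ζ) := entry12 h1 h2

lemma T22_eq {ζ : ℂ} (h1 : 0 < ζ.arg) (h2 : ζ.arg < Real.pi) :
    T22 ζ = -(hs * aB (om ^ 2 * ζ)) := entry22 h1 h2

lemma conn_first (hc : Conn) {ζ : ℂ} (h1 : 0 < ζ.arg) (h2 : ζ.arg < Real.pi)
    (h3 : Real.pi / 3 < ζ.arg) :
    T11 ζ - Complex.I * Complex.exp (2 * ph ζ) * T12 ζ = hs * aA (om * ζ) := by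
  have h8 : _ = hs * aA (om * ζ) := entry1m h1 h2 h3
  rw [← h8, T11, T12]
  have h4 : Complex.exp (2 * ph ζ) * Complex.exp (-ph ζ) = Complex.exp (ph ζ) := by
    rw [← Complex.exp_add]; congr 1; ring
  have h5 : -om * Airy (om * ζ) = Airy ζ + om ^ 2 * Airy (om ^ 2 * ζ) := by
    linear_combination -(hc.a ζ)
  rw [h5]
  have h6 : Complex.exp (2 / 3 * ζ ^ (3 / 2 : ℂ)) = Complex.exp (ph ζ) := rfl
  rw [h6]
  have h7 : Complex.I * Complex.exp (2 * ph ζ) *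
      (√(2 * Real.pi) * (Complex.I * om ^ 2 * Airy (om ^ 2 * ζ)) *
        (ζ ^ (1 / 4 : ℂ) * Complex.exp (-ph ζ))) =
      Complex.I * Complex.I * (√(2 * Real.pi) * (om ^ 2 * Airy (om ^ 2 * ζ)) *
        (ζ ^ (1 / 4 : ℂ) * (Complex.exp (2 * ph ζ) * Complex.exp (-ph ζ)))) := by ring
  rw [h7, h4, Complex.I_mul_I]
  ring

lemma conn_second (hc : Conn) {ζ : ℂ} (h1 : 0 < ζ.arg) (h2 : ζ.arg < Real.pi)
    (h3 : Real.pi / 3 < ζ.arg) :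
    T21 ζ - Complex.I * Complex.exp (2 * ph ζ) * T22 ζ = hs * aB (om * ζ) := by
  have h8 : _ = hs * aB (om * ζ) := entry2m h1 h2 h3
  rw [← h8, T21, T22]
  have h4 : Complex.exp (2 * ph ζ) * Complex.exp (-ph ζ) = Complex.exp (ph ζ) := by
    rw [← Complex.exp_add]; congr 1; ring
  have h5 : om ^ 2 * Airy' (om * ζ) = -Airy' ζ - om ^ 4 * Airy' (om ^ 2 * ζ) := by
    linear_combination (hc.b ζ)
  rw [h5]
  have h6 : Complex.exp (2 / 3 * ζ ^ (3 / 2 : ℂ)) = Complex.exp (ph ζ) := rfl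
  rw [h6]
  have h7 : Complex.I * Complex.exp (2 * ph ζ) *
      (√(2 * Real.pi) * (-(Complex.I * om ^ 4 * Airy' (om ^ 2 * ζ))) *
        (ζ ^ (-(1 / 4) : ℂ) * Complex.exp (-ph ζ))) =
      -(Complex.I * Complex.I) * (√(2 * Real.pi) * (om ^ 4 * Airy' (om ^ 2 * ζ)) *
        (ζ ^ (-(1 / 4) : ℂ) * (Complex.exp (2 * ph ζ) * Complex.exp (-ph ζ)))) := by ring
  rw [h7, h4, Complex.I_mul_I]
  ring

/-- The truncated series. -/
noncomputable def ser (u : ℕ → ℂ) (K : ℕ) (w : ℂ) : ℂ :=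
  ∑ k ∈ Finset.range (K + 1), u k * (w ^ k)⁻¹

lemma norm_hs_mul {a b : ℂ} {C : ℝ} (h : ‖a - b‖ ≤ C) : ‖hs * a - hs * b‖ ≤ C := by
  rw [← mul_sub, norm_mul]
  calc ‖hs‖ * ‖a - b‖ ≤ 1 * ‖a - b‖ := mul_le_mul_of_nonneg_right norm_hs (norm_nonneg _)
    _ ≤ C := by rw [one_mul]; exact h

/-- First column. -/
lemma col1 (hc : Conn) {u v : ℕ → ℂ} (h : Asy u v) (K : ℕ) (ε r : ℝ) (hε : 0 < ε)
    (hr : 0 < r) :
    ∃ C : ℝ, 0 ≤ C ∧ ∀ n : ℕ, 1 ≤ n → ∀ ζ : ℂ, r * n23 n ≤ ‖ζ‖ → 0 < ζ.arg → ζ.arg < Real.pi →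
      ∀ g : ℂ, ((g = 0 ∧ ζ.arg ≤ Real.pi - ε) ∨
        ∃ ρ : ℝ, 0 ≤ ρ ∧ ρ ≤ 1 ∧ g = -Complex.I * ρ * Complex.exp (2 * ph ζ) ∧
          Real.pi / 2 ≤ ζ.arg ∧ (ρ = 1 ∨ ζ.arg ≤ Real.pi - ε)) →
      ‖T11 ζ + g * T12 ζ - hs * ser u K (ζ ^ (3 / 2 : ℂ))‖ ≤ C / n ^ (K + 1) ∧
      ‖T21 ζ + g * T22 ζ - hs * ser v K (ζ ^ (3 / 2 : ℂ))‖ ≤ C / n ^ (K + 1) := by
  have hpi := Real.pi_pos
  obtain ⟨C1, hC10, hC1⟩ := asy_n h K ε r hε hr
  obtain ⟨C2, hC20, hC2⟩ := asy_n h K (Real.pi / 6) r (by positivity) hr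
  obtain ⟨c, hc0, hcε⟩ := exp_left ε r hε hr
  obtain ⟨C3, hC30, hC3⟩ := exp_small K c hc0
  refine ⟨C1 + (C2 + C3 * C2), by positivity, ?_⟩
  intro n hn ζ hζ h1 h2 g hg
  have hn0 : (0 : ℝ) < n := by exact_mod_cast hn
  have hnp : (0 : ℝ) < (n : ℝ) ^ (K + 1) := by positivity
  have hle1 : C1 / (n : ℝ) ^ (K + 1) ≤ (C1 + (C2 + C3 * C2)) / n ^ (K + 1) := by
    gcongr
    have : 0 ≤ C3 * C2 := by positivity
    linarith
  have hle2 : (C2 + C3 * C2) / (n : ℝ) ^ (K + 1) ≤ (C1 + (C2 + C3 * C2)) / n ^ (K + 1) :=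
    div_le_div_of_nonneg_right (by linarith) hnp.le
  rcases hg with ⟨hg0, hg1⟩ | ⟨ρ, hρ0, hρ1, hg0, hg1, hg2⟩
  · have hab : |ζ.arg| ≤ Real.pi - ε := by rw [abs_of_pos h1]; exact hg1
    obtain ⟨h3, h4, _, _⟩ := hC1 n hn ζ hζ hab
    rw [hg0, zero_mul, zero_mul, add_zero, add_zero, T11_eq, T21_eq]
    exact ⟨(norm_hs_mul h3).trans hle1, (norm_hs_mul h4).trans hle1⟩
  · -- expansions at `om * ζ`
    have harg1 : |(om * ζ).arg| ≤ Real.pi - Real.pi / 6 := by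
      rw [arg_om h1 h2 (by linarith), abs_le]
      simp only [th1]
      constructor <;> linarith
    have harg2 : |(om ^ 2 * ζ).arg| ≤ Real.pi - Real.pi / 6 := by
      rw [arg_om2 h1 h2, abs_le]
      simp only [th2]
      constructor <;> linarith
    obtain ⟨h3, h4, _, _⟩ := hC2 n hn (om * ζ) (by rw [norm_om]; exact hζ) harg1
    obtain ⟨_, _, h5, h6⟩ := hC2 n hn (om ^ 2 * ζ) (by rw [norm_om2]; exact hζ) harg2
    rw [cpow32_om h1 h2 (by linarith)] at h3 h4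
    -- the exponentially small correction
    have hsm : ‖((1 - ρ : ℝ) : ℂ) * Complex.exp (2 * ph ζ)‖ ≤ C3 / n ^ (K + 1) := by
      rcases hg2 with hg2 | hg2
      · rw [hg2]; simp; positivity
      · rw [norm_mul, Complex.norm_real, Real.norm_of_nonneg (by linarith)]
        have h7 := (hcε n hn ζ hζ hg1 hg2).trans (hC3 n hn)
        calc (1 - ρ) * ‖Complex.exp (2 * ph ζ)‖ ≤ 1 * ‖Complex.exp (2 * ph ζ)‖ :=
              mul_le_mul_of_nonneg_right (by linarith) (norm_nonneg _)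
          _ ≤ _ := by rw [one_mul]; exact h7
    have hT12 : ‖T12 ζ‖ ≤ C2 := by
      rw [T12_eq h1 h2, norm_mul]
      calc ‖hs‖ * ‖aA (om ^ 2 * ζ)‖ ≤ 1 * C2 :=
            mul_le_mul norm_hs h5 (norm_nonneg _) (by norm_num)
        _ = C2 := one_mul _
    have hT22 : ‖T22 ζ‖ ≤ C2 := by
      rw [T22_eq h1 h2, norm_neg, norm_mul]
      calc ‖hs‖ * ‖aB (om ^ 2 * ζ)‖ ≤ 1 * C2 :=
            mul_le_mul norm_hs h6 (norm_nonneg _) (by norm_num)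
        _ = C2 := one_mul _
    have key : ∀ (t1 t2 a S : ℂ), t1 - Complex.I * Complex.exp (2 * ph ζ) * t2 = hs * a →
        ‖a - S‖ ≤ C2 / n ^ (K + 1) → ‖t2‖ ≤ C2 →
        ‖t1 + g * t2 - hs * S‖ ≤ (C1 + (C2 + C3 * C2)) / n ^ (K + 1) := by
      intro t1 t2 a S e1 e2 e3
      have e4 : t1 + g * t2 - hs * S = (hs * a - hs * S) +
          Complex.I * (((1 - ρ : ℝ) : ℂ) * Complex.exp (2 * ph ζ)) * t2 := by
        rw [hg0, ← e1]; push_cast; ring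
      rw [e4]
      refine le_trans (norm_add_le _ _) (le_trans ?_ hle2)
      have e5 : ‖Complex.I * (((1 - ρ : ℝ) : ℂ) * Complex.exp (2 * ph ζ)) * t2‖ ≤
          C3 / n ^ (K + 1) * C2 := by
        rw [norm_mul, norm_mul Complex.I, Complex.norm_I, one_mul]
        exact mul_le_mul hsm e3 (norm_nonneg _) (by positivity)
      calc _ ≤ C2 / n ^ (K + 1) + C3 / n ^ (K + 1) * C2 := add_le_add (norm_hs_mul e2) e5
        _ = (C2 + C3 * C2) / (n : ℝ) ^ (K + 1) := by ring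
    exact ⟨key _ _ _ _ (conn_first hc h1 h2 (by linarith)) h3 hT12,
      key _ _ _ _ (conn_second hc h1 h2 (by linarith)) h4 hT22⟩

lemma ser_neg (u : ℕ → ℂ) (K : ℕ) (w : ℂ) :
    ser u K (-w) = ser (fun k => (-1) ^ k * u k) K w := by
  unfold ser
  apply Finset.sum_congr rfl
  intro k _
  rw [neg_pow, mul_inv, ← inv_pow, show ((-1 : ℂ))⁻¹ = -1 by norm_num]
  ring

/-- Second column. -/
lemma col2 {u v : ℕ → ℂ} (h : Asy u v) (K : ℕ) (r : ℝ) (hr : 0 < r) :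
    ∃ C : ℝ, 0 ≤ C ∧ ∀ n : ℕ, 1 ≤ n → ∀ ζ : ℂ, r * n23 n ≤ ‖ζ‖ → 0 < ζ.arg → ζ.arg < Real.pi →
      ∀ g : ℂ, (g = 0 ∨
        ∃ ρ : ℝ, 0 ≤ ρ ∧ ρ ≤ 1 ∧ g = Complex.I / 2 * ρ * Complex.exp (-(2 * ph ζ)) ∧
          ζ.arg ≤ Real.pi / 4) →
      ‖T12 ζ + g * T11 ζ - hs * ser (fun k => (-1) ^ k * u k) K (ζ ^ (3 / 2 : ℂ))‖
        ≤ C / n ^ (K + 1) ∧
      ‖T22 ζ + g * T21 ζ - -(hs * ser (fun k => (-1) ^ k * v k) K (ζ ^ (3 / 2 : ℂ)))‖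
        ≤ C / n ^ (K + 1) := by
  have hpi := Real.pi_pos
  obtain ⟨C2, hC20, hC2⟩ := asy_n h K (Real.pi / 6) r (by positivity) hr
  obtain ⟨c, hc0, hcε⟩ := exp_right r hr
  obtain ⟨C3, hC30, hC3⟩ := exp_small K c hc0
  refine ⟨C2 + C3 * C2, by positivity, ?_⟩
  intro n hn ζ hζ h1 h2 g hg
  have hn0 : (0 : ℝ) < n := by exact_mod_cast hn
  have hnp : (0 : ℝ) < (n : ℝ) ^ (K + 1) := by positivity
  have harg2 : |(om ^ 2 * ζ).arg| ≤ Real.pi - Real.pi / 6 := by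
    rw [arg_om2 h1 h2, abs_le]
    simp only [th2]
    constructor <;> linarith
  obtain ⟨h3, h4, h5, h6⟩ := hC2 n hn (om ^ 2 * ζ) (by rw [norm_om2]; exact hζ) harg2
  rw [cpow32_om2 h1 h2] at h3 h4
  change ‖_ - ser u K (-ζ ^ (3 / 2 : ℂ))‖ ≤ _ at h3
  change ‖_ - ser v K (-ζ ^ (3 / 2 : ℂ))‖ ≤ _ at h4
  rw [ser_neg] at h3 h4
  have e3 := norm_hs_mul h3
  have e4 := norm_hs_mul h4
  rw [← T12_eq h1 h2] at e3
  have e4' : ‖T22 ζ - -(hs * ser (fun k => (-1) ^ k * v k) K (ζ ^ (3 / 2 : ℂ)))‖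
      ≤ C2 / n ^ (K + 1) := by
    rw [T22_eq h1 h2, ← norm_neg, show -(-(hs * aB (om ^ 2 * ζ)) -
      -(hs * ser (fun k => (-1) ^ k * v k) K (ζ ^ (3 / 2 : ℂ)))) = hs * aB (om ^ 2 * ζ) -
      hs * ser (fun k => (-1) ^ k * v k) K (ζ ^ (3 / 2 : ℂ)) by ring]
    exact e4
  -- the correction
  have hcor : ‖g * T11 ζ‖ ≤ C3 * C2 / n ^ (K + 1) ∧ ‖g * T21 ζ‖ ≤ C3 * C2 / n ^ (K + 1) := by
    rcases hg with hg | ⟨ρ, hρ0, hρ1, hg0, hg1⟩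
    · rw [hg, zero_mul, norm_zero, zero_mul, norm_zero]
      constructor <;> positivity
    · have harg : |ζ.arg| ≤ Real.pi - Real.pi / 6 := by
        rw [abs_of_pos h1]; linarith
      obtain ⟨_, _, h7, h8⟩ := hC2 n hn ζ hζ harg
      have hgn : ‖g‖ ≤ C3 / n ^ (K + 1) := by
        rw [hg0, norm_mul, norm_mul, Complex.norm_real, Real.norm_of_nonneg hρ0]
        have h9 := (hcε n hn ζ hζ h1 hg1).trans (hC3 n hn)
        have h10 : ‖Complex.I / 2‖ * ρ ≤ 1 := by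
          rw [norm_div, Complex.norm_I]
          have : ‖(2 : ℂ)‖ = 2 := by norm_num
          rw [this]
          linarith
        calc ‖Complex.I / 2‖ * ρ * ‖Complex.exp (-(2 * ph ζ))‖
            ≤ 1 * ‖Complex.exp (-(2 * ph ζ))‖ :=
              mul_le_mul_of_nonneg_right h10 (norm_nonneg _)
          _ ≤ _ := by rw [one_mul]; exact h9
      have hT11 : ‖T11 ζ‖ ≤ C2 := by
        rw [T11_eq, norm_mul]
        calc ‖hs‖ * ‖aA ζ‖ ≤ 1 * C2 :=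
              mul_le_mul norm_hs h7 (norm_nonneg _) (by norm_num)
          _ = C2 := one_mul _
      have hT21 : ‖T21 ζ‖ ≤ C2 := by
        rw [T21_eq, norm_mul]
        calc ‖hs‖ * ‖aB ζ‖ ≤ 1 * C2 :=
              mul_le_mul norm_hs h8 (norm_nonneg _) (by norm_num)
          _ = C2 := one_mul _
      have e5 : C3 * C2 / (n : ℝ) ^ (K + 1) = C3 / n ^ (K + 1) * C2 := by ring
      rw [e5]
      constructor
      · rw [norm_mul]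
        exact mul_le_mul hgn hT11 (norm_nonneg _) (by positivity)
      · rw [norm_mul]
        exact mul_le_mul hgn hT21 (norm_nonneg _) (by positivity)
  have e6 : (C2 + C3 * C2) / (n : ℝ) ^ (K + 1) = C2 / n ^ (K + 1) + C3 * C2 / n ^ (K + 1) := by
    ring
  rw [e6]
  constructor
  · have e7 : T12 ζ + g * T11 ζ - hs * ser (fun k => (-1) ^ k * u k) K (ζ ^ (3 / 2 : ℂ)) =
        (T12 ζ - hs * ser (fun k => (-1) ^ k * u k) K (ζ ^ (3 / 2 : ℂ))) + g * T11 ζ := by ring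
    rw [e7]
    exact (norm_add_le _ _).trans (add_le_add e3 hcor.1)
  · have e7 : T22 ζ + g * T21 ζ - -(hs * ser (fun k => (-1) ^ k * v k) K (ζ ^ (3 / 2 : ℂ))) =
        (T22 ζ - -(hs * ser (fun k => (-1) ^ k * v k) K (ζ ^ (3 / 2 : ℂ)))) + g * T21 ζ := by ring
    rw [e7]
    exact (norm_add_le _ _).trans (add_le_add e4' hcor.2)

end Xr

end Pool.Agent.Freud
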