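import Pool.Agent.Freud.XratC

/-!
Geometry of the annulus and the matrix identity for the ratio of the parametrices.
-/

set_option autoImplicit false

open MeasureTheory Filter Topology Asymptotics

namespace Pool.Agent.Freud

namespace Xr

/-- The conformal map. -/
noncomputable def qq (m : ℂ → ℂ) (z : ℂ) : ℂ := (z - 1) * m z

section

variable {α δ m1 : ℝ} {m : ℂ → ℂ}

lemma ann_ball (hL : LocMap α δ m1 m) {z : ℂ} (hz : z ∈ ann δ) : z ∈ Metric.ball (1 : ℂ) δ := by
  rw [Metric.mem_ball, dist_eq_norm]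
  have := hz.2.2
  have h := hL.δ_pos
  linarith

lemma qq_UH (hL : LocMap α δ m1 m) {z : ℂ} (hz : z ∈ ann δ) : 0 < (qq m z).im :=
  hL.upper z (ann_ball hL hz) hz.1

lemma arg_pos_of {w : ℂ} (h : 0 < w.im) : 0 < w.arg ∧ w.arg < Real.pi := by
  constructor
  · have h1 : 0 ≤ w.arg := Complex.arg_nonneg_iff.2 h.le
    rcases h1.lt_or_eq with h2 | h2
    · exact h2
    · exfalso
      have := Complex.arg_eq_zero_iff.1 h2.symm
      linarith [this.2]
  · have h1 : w.arg ≤ Real.pi := Complex.arg_le_pi w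
    rcases h1.lt_or_eq with h2 | h2
    · exact h2
    · exfalso
      have := Complex.arg_eq_pi_iff.1 h2
      linarith [this.2]

lemma m_re (hL : LocMap α δ m1 m) {z : ℂ} (hz : z ∈ ann δ) :
    |(m z).re - m1| ≤ m1 / 10 ∧ |(m z).im| ≤ m1 / 10 := by
  have h := hL.close z (ann_ball hL hz)
  have h1 := Complex.abs_re_le_norm (m z - m1)
  have h2 := Complex.abs_im_le_norm (m z - m1)
  simp only [Complex.sub_re, Complex.ofReal_re, Complex.sub_im, Complex.ofReal_im, sub_zero] at h1 h2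
  exact ⟨h1.trans h, h2.trans h⟩

lemma qq_norm (hL : LocMap α δ m1 m) {z : ℂ} (hz : z ∈ ann δ) :
    δ / 2 * (9 / 10 * m1) ≤ ‖qq m z‖ := by
  rw [qq, norm_mul]
  have h := hL.close z (ann_ball hL hz)
  have hm := hL.m1_pos
  have h1 : m1 ≤ ‖m z‖ + m1 / 10 := by
    have h2 : ‖(m1 : ℂ)‖ = m1 := by rw [Complex.norm_real, Real.norm_of_nonneg hm.le]
    have h3 : ‖(m1 : ℂ)‖ ≤ ‖m z‖ + ‖m z - m1‖ := by
      have : (m1 : ℂ) = m z - (m z - m1) := by ring
      nth_rewrite 1 [this]
      exact norm_sub_le _ _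
    linarith
  have h4 : 9 / 10 * m1 ≤ ‖m z‖ := by linarith
  exact mul_le_mul hz.2.1 h4 (by positivity) (norm_nonneg _)

lemma coord (z : ℂ) (hz : z ∈ ann δ) :
    (δ / 2) ^ 2 ≤ (z.re - 1) ^ 2 + z.im ^ 2 := by
  have h1 := hz.2.1
  have h2 : ‖z - 1‖ ^ 2 = (z.re - 1) ^ 2 + z.im ^ 2 := by
    rw [← Complex.normSq_eq_norm_sq, Complex.normSq_apply]
    simp
    ring
  have h3 : 0 ≤ ‖z - 1‖ := norm_nonneg _
  have h5 : 0 < ‖z - 1‖ + δ := by
    rcases hz with ⟨_, h6, h7⟩
    rcases le_or_gt 0 δ with h8 | h8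
    · rcases h8.lt_or_eq with h9 | h9
      · linarith
      · exfalso
        rw [← h9] at h7
        have h10 : ‖z - 1‖ = 0 := le_antisymm (by linarith) h3
        have h11 := norm_eq_zero.1 h10
        have h12 : z.im = 0 := by
          have := congrArg Complex.im h11
          simpa using this
        have h13 : 0 < z.im := by assumption
        linarith
    · linarith
  rcases le_or_gt 0 δ with h8 | h8
  · rw [← h2]
    exact pow_le_pow_left₀ (by linarith) h1 2
  · exfalso
    have h7 := hz.2.2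
    linarith

lemma geo_left (hL : LocMap α δ m1 m) {z : ℂ} (hz : z ∈ ann δ) (h1 : z.re < 1)
    (h2 : z.im ≤ δ / 8) : Real.pi / 2 ≤ (qq m z).arg := by
  have hδ := hL.δ_pos
  have hm := hL.m1_pos
  have hy : 0 < z.im := hz.1
  obtain ⟨h3, h4⟩ := m_re hL hz
  rw [abs_le] at h3 h4
  have h5 := coord z hz
  have hq := arg_pos_of (qq_UH hL hz)
  have hre : (qq m z).re = (z.re - 1) * (m z).re - z.im * (m z).im := by
    rw [qq, Complex.mul_re]; simp
  have ha : 3 / 8 * δ ≤ 1 - z.re := by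
    by_contra hcon
    push Not at hcon
    have h6 : (z.re - 1) ^ 2 ≤ (3 / 8 * δ) ^ 2 := by nlinarith
    have h7 : z.im ^ 2 ≤ (δ / 8) ^ 2 := pow_le_pow_left₀ hy.le h2 2
    nlinarith
  have hneg : (qq m z).re ≤ 0 := by
    rw [hre]
    have h8 : 9 / 10 * m1 ≤ (m z).re := by linarith [h3.1]
    have h9 : (z.re - 1) * (m z).re ≤ -(3 / 8 * δ) * (9 / 10 * m1) := by
      have : (3 / 8 * δ) * (9 / 10 * m1) ≤ (1 - z.re) * (m z).re :=
        mul_le_mul ha h8 (by positivity) (by linarith)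
      linarith
    have h10 : -(z.im * (m z).im) ≤ δ / 8 * (m1 / 10) := by
      have h11 : z.im * (-(m z).im) ≤ δ / 8 * (m1 / 10) := by
        calc z.im * (-(m z).im) ≤ z.im * (m1 / 10) :=
              mul_le_mul_of_nonneg_left (by linarith [h4.1]) hy.le
          _ ≤ _ := mul_le_mul_of_nonneg_right h2 (by positivity)
      linarith
    have h12 : 0 < δ * m1 := by positivity
    nlinarith
  by_contra hcon
  push Not at hcon
  have h13 : 0 < Real.cos (qq m z).arg := Real.cos_pos_of_mem_Ioo ⟨by linarith [hq.1, Real.pi_pos], hcon⟩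
  have hne : qq m z ≠ 0 := ne_of_arg hq.1
  rw [Complex.cos_arg hne] at h13
  have h14 : 0 < ‖qq m z‖ := norm_pos_iff.2 hne
  have h15 : 0 < (qq m z).re := by
    have := mul_pos h13 h14
    rwa [div_mul_cancel₀ _ h14.ne'] at this
  linarith

lemma geo_right (hL : LocMap α δ m1 m) {z : ℂ} (hz : z ∈ ann δ) (h1 : 1 ≤ z.re)
    (h2 : z.im ≤ δ / 8) : (qq m z).arg ≤ Real.pi / 4 := by
  have hδ := hL.δ_pos
  have hm := hL.m1_pos
  have hy : 0 < z.im := hz.1
  obtain ⟨h3, h4⟩ := m_re hL hz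
  rw [abs_le] at h3 h4
  have h5 := coord z hz
  have hq := arg_pos_of (qq_UH hL hz)
  have hre : (qq m z).re = (z.re - 1) * (m z).re - z.im * (m z).im := by
    rw [qq, Complex.mul_re]; simp
  have him : (qq m z).im = (z.re - 1) * (m z).im + z.im * (m z).re := by
    rw [qq, Complex.mul_im]; simp
  have ha : 3 / 8 * δ ≤ z.re - 1 := by
    by_contra hcon
    push Not at hcon
    have h6 : (z.re - 1) ^ 2 ≤ (3 / 8 * δ) ^ 2 := by nlinarith
    have h7 : z.im ^ 2 ≤ (δ / 8) ^ 2 := pow_le_pow_left₀ hy.le h2 2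
    nlinarith
  have hya : z.im ≤ 1 / 3 * (z.re - 1) := by linarith
  have hlt : (qq m z).im < (qq m z).re := by
    rw [hre, him]
    have ha0 : 0 < z.re - 1 := by linarith
    have h8 : (z.re - 1) * (m z).im ≤ (z.re - 1) * (m1 / 10) :=
      mul_le_mul_of_nonneg_left h4.2 ha0.le
    have h9 : z.im * (m z).re ≤ 1 / 3 * (z.re - 1) * (11 / 10 * m1) :=
      mul_le_mul hya (by linarith [h3.2]) (by linarith [h3.1]) (by positivity)
    have h10 : (z.re - 1) * (9 / 10 * m1) ≤ (z.re - 1) * (m z).re :=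
      mul_le_mul_of_nonneg_left (by linarith [h3.1]) ha0.le
    have h11 : z.im * (m z).im ≤ 1 / 3 * (z.re - 1) * (m1 / 10) := by
      calc z.im * (m z).im ≤ z.im * (m1 / 10) :=
            mul_le_mul_of_nonneg_left h4.2 hy.le
        _ ≤ _ := mul_le_mul_of_nonneg_right hya (by positivity)
    have h12 : 0 < (z.re - 1) * m1 := by positivity
    nlinarith
  by_contra hcon
  push Not at hcon
  have hne : qq m z ≠ 0 := ne_of_arg hq.1
  have h14 : 0 < ‖qq m z‖ := norm_pos_iff.2 hne
  have him0 := qq_UH hL hz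
  have hre0 : 0 < (qq m z).re := him0.trans hlt
  have harg2 : (qq m z).arg < Real.pi / 2 := by
    by_contra hc2
    push Not at hc2
    have h15 : Real.cos (qq m z).arg ≤ 0 :=
      Real.cos_nonpos_of_pi_div_two_le_of_le hc2 (by linarith [hq.2, Real.pi_pos])
    rw [Complex.cos_arg hne] at h15
    have : 0 < (qq m z).re / ‖qq m z‖ := by positivity
    linarith
  -- on `(π/4, π/2)` the sine exceeds the cosine
  have h16 : Real.cos (qq m z).arg < Real.cos (Real.pi / 4) :=
    Real.cos_lt_cos_of_nonneg_of_le_pi (by positivity) (by linarith [Real.pi_pos]) hcon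
  have h17 : Real.sin (Real.pi / 4) < Real.sin (qq m z).arg :=
    Real.sin_lt_sin_of_lt_of_le_pi_div_two (by linarith [Real.pi_pos]) harg2.le hcon
  rw [Complex.cos_arg hne, Real.cos_pi_div_four] at h16
  rw [Complex.sin_arg, Real.sin_pi_div_four] at h17
  have h18 : (qq m z).re / ‖qq m z‖ < (qq m z).im / ‖qq m z‖ := h16.trans h17
  rw [div_lt_div_iff_of_pos_right h14] at h18
  linarith

lemma qq_cont (hL : LocMap α δ m1 m) : ContinuousOn (qq m) (Metric.ball (1 : ℂ) δ) :=
  (continuousOn_id.sub continuousOn_const).mul hL.diff.continuousOn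

lemma geo_high (hL : LocMap α δ m1 m) (y0 : ℝ) (hy0 : 0 < y0) :
    ∃ ε : ℝ, 0 < ε ∧ ∀ z ∈ ann δ, y0 / 2 ≤ z.im → (qq m z).arg ≤ Real.pi - ε := by
  set S : Set ℂ := {z | δ / 2 ≤ ‖z - 1‖ ∧ ‖z - 1‖ ≤ 3 * δ / 4 ∧ y0 / 2 ≤ z.im} with hS
  have hclosed : IsClosed S := by
    rw [hS]
    refine IsClosed.inter ?_ (IsClosed.inter ?_ ?_)
    · exact isClosed_le continuous_const (continuous_norm.comp (continuous_id.sub continuous_const))
    · exact isClosed_le (continuous_norm.comp (continuous_id.sub continuous_const)) continuous_const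
    · exact isClosed_le continuous_const Complex.continuous_im
  have hcomp : IsCompact S := by
    refine (isCompact_closedBall (1 : ℂ) (3 * δ / 4)).of_isClosed_subset hclosed ?_
    intro z hz
    rw [Metric.mem_closedBall, dist_eq_norm]
    exact hz.2.1
  have hSann : ∀ z ∈ S, z ∈ ann δ := fun z hz =>
    ⟨show 0 < z.im by linarith [hz.2.2], hz.1, hz.2.1⟩
  have hcont : ContinuousOn (fun z => (qq m z).arg) S := by
    intro z hz
    have h1 := hSann z hz
    have h2 : ContinuousWithinAt (qq m) S z :=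
      ((qq_cont hL).mono (fun w hw => ann_ball hL (hSann w hw))) z hz
    have h3 : qq m z ∈ Complex.slitPlane := Or.inr (qq_UH hL h1).ne'
    exact (Complex.continuousAt_arg h3).comp_continuousWithinAt h2
  rcases S.eq_empty_or_nonempty with hemp | hne
  · refine ⟨1, one_pos, fun z hz hz' => ?_⟩
    exfalso
    have : z ∈ S := ⟨hz.2.1, hz.2.2, hz'⟩
    rw [hemp] at this
    exact this
  · obtain ⟨w, hw, hmax⟩ := hcomp.exists_isMaxOn hne hcont
    refine ⟨Real.pi - (qq m w).arg, ?_, ?_⟩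
    · have := (arg_pos_of (qq_UH hL (hSann w hw))).2
      linarith
    · intro z hz hz'
      have h4 : z ∈ S := ⟨hz.2.1, hz.2.2, hz'⟩
      have := hmax h4
      simp only [Set.mem_ofPred_eq] at this
      linarith

/-! ### The scaled variable -/

lemma zet_eq (n : ℕ) (z : ℂ) : zet n m z = ((n23 n : ℝ) : ℂ) * qq m z := rfl

lemma zet_arg {n : ℕ} (hn : 1 ≤ n) (z : ℂ) : (zet n m z).arg = (qq m z).arg := by
  rw [zet_eq, Complex.arg_real_mul _ (n23_pos hn)]

lemma zet_norm {n : ℕ} (hn : 1 ≤ n) (z : ℂ) : ‖zet n m z‖ = n23 n * ‖qq m z‖ := by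
  rw [zet_eq, norm_mul, Complex.norm_real, Real.norm_of_nonneg (n23_pos hn).le]

lemma zet_cpow {n : ℕ} (hn : 1 ≤ n) {z : ℂ} (hz : qq m z ≠ 0) (c : ℝ) :
    zet n m z ^ (c : ℂ) = ((n23 n ^ c : ℝ) : ℂ) * qq m z ^ (c : ℂ) := by
  have h1 := n23_pos hn
  have h2 : zet n m z ≠ 0 := by
    rw [zet_eq]
    exact mul_ne_zero (by exact_mod_cast h1.ne') hz
  rw [Complex.cpow_def_of_ne_zero h2, Complex.cpow_def_of_ne_zero hz, zet_eq,
    Complex.log_ofReal_mul h1 hz, add_mul, Complex.exp_add, Real.rpow_def_of_pos h1,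
    Complex.ofReal_exp, Complex.ofReal_mul]

lemma zet_cpow32 {n : ℕ} (hn : 1 ≤ n) {z : ℂ} (hz : qq m z ≠ 0) :
    zet n m z ^ (3 / 2 : ℂ) = n * qq m z ^ (3 / 2 : ℂ) := by
  have h := zet_cpow hn hz (3 / 2)
  rw [show (((3 / 2 : ℝ)) : ℂ) = (3 / 2 : ℂ) by push_cast; ring, n23_rpow] at h
  rw [h]
  norm_cast

lemma ph_zet (hL : LocMap α δ m1 m) {n : ℕ} (hn : 1 ≤ n) {z : ℂ} (hz : z ∈ ann δ) :
    ph (zet n m z) = -(n * xiR α z) := by
  have h1 := hL.eqn z (ann_ball hL hz) hz.1
  have hne : qq m z ≠ 0 := ne_of_arg (arg_pos_of (qq_UH hL hz)).1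
  rw [ph, zet_cpow32 hn hne]
  have h2 : (2 / 3 : ℂ) * qq m z ^ (3 / 2 : ℂ) = -xiR α z := h1
  calc 2 / 3 * (n * qq m z ^ (3 / 2 : ℂ)) = n * ((2 / 3 : ℂ) * qq m z ^ (3 / 2 : ℂ)) := by ring
    _ = _ := by rw [h2]; ring

lemma ratio_im {z : ℂ} (hz : z ∈ UH) : 0 < ((z - 1) / (z + 1)).im := by
  have hy : 0 < z.im := hz
  have h0 : z + 1 ≠ 0 := by
    intro h
    have := congrArg Complex.im h
    simp at this
    linarith
  have h1 : (z - 1) / (z + 1) = 1 - 2 / (z + 1) := by
    field_simp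
    ring
  rw [h1, Complex.sub_im, Complex.one_im, Complex.div_im]
  simp only [Complex.add_re, Complex.one_re, Complex.add_im, Complex.one_im]
  have h2 : 0 < Complex.normSq (z + 1) := Complex.normSq_pos.2 h0
  have h3 : (2 : ℂ).re = 2 := rfl
  have h4 : (2 : ℂ).im = 0 := rfl
  rw [h3, h4]
  have : 0 - (0 * (z.re + 1) / Complex.normSq (z + 1) - 2 * (z.im + 0) / Complex.normSq (z + 1)) =
    2 * z.im / Complex.normSq (z + 1) := by ring
  rw [this]
  positivity

/-- `β = ((z-1)/(z+1))^(1/4)`. -/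
noncomputable def bet (z : ℂ) : ℂ := Complex.exp (bfun z)

lemma bet_ne (z : ℂ) : bet z ≠ 0 := Complex.exp_ne_zero _

lemma bet_eq {z : ℂ} (hz : z ∈ UH) : bet z = ((z - 1) / (z + 1)) ^ (1 / 4 : ℂ) := by
  have h1 : (z - 1) / (z + 1) ≠ 0 := ne_of_arg (arg_pos_of (ratio_im hz)).1
  rw [bet, bfun, Complex.cpow_def_of_ne_zero h1]
  congr 1
  ring

lemma arg_small {w : ℂ} (h1 : 0 < w.re) : |w.arg| < Real.pi / 2 := by
  exact Complex.abs_arg_lt_pi_div_two_iff.2 (Or.inl h1)

lemma epre_bet (hL : LocMap α δ m1 m) {n : ℕ} (hn : 1 ≤ n) {z : ℂ} (hz : z ∈ ann δ) :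
    epre n m z * bet z = zet n m z ^ (1 / 4 : ℂ) := by
  have hne : qq m z ≠ 0 := ne_of_arg (arg_pos_of (qq_UH hL hz)).1
  have hδ := hL.δ_pos
  have hδ' := hL.δ_lt
  have hm := hL.m1_pos
  have hy : 0 < z.im := hz.1
  have h0 := zet_cpow hn hne (1 / 4)
  rw [show (((1 / 4 : ℝ)) : ℂ) = (1 / 4 : ℂ) by push_cast; ring] at h0
  have h1 : n23 n ^ (1 / 4 : ℝ) = (n : ℝ) ^ (1 / 6 : ℝ) := by
    rw [n23, ← Real.rpow_mul (Nat.cast_nonneg n)]
    norm_num
  rw [h0, h1, epre, bet_eq hz.1, mul_assoc]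
  congr 1
  -- the product rule for the fourth root
  obtain ⟨h3, h4⟩ := m_re hL hz
  rw [abs_le] at h3 h4
  have hzp : z + 1 ≠ 0 := by
    intro h
    have := congrArg Complex.im h
    simp at this
    linarith
  have hmz : m z ≠ 0 := by
    intro h
    rw [h] at h3
    simp at h3
    linarith
  have hz1 : z - 1 ≠ 0 := by
    intro h
    have := congrArg Complex.im h
    simp at this
    linarith
  set a : ℂ := m z * (z + 1) with ha
  set b : ℂ := (z - 1) / (z + 1) with hb
  have ha0 : a ≠ 0 := mul_ne_zero hmz hzp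
  have hb0 : b ≠ 0 := div_ne_zero hz1 hzp
  have hab : qq m z = a * b := by
    rw [ha, hb, qq]
    field_simp
  have hx : |z.re - 1| ≤ 3 * δ / 4 := by
    have h5 := Complex.abs_re_le_norm (z - 1)
    simp only [Complex.sub_re, Complex.one_re] at h5
    exact h5.trans hz.2.2
  have hyl : z.im ≤ 3 * δ / 4 := by
    have h5 := Complex.abs_im_le_norm (z - 1)
    simp only [Complex.sub_im, Complex.one_im, sub_zero] at h5
    exact (le_abs_self _).trans (h5.trans hz.2.2)
  rw [abs_le] at hx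
  have hare : 0 < a.re := by
    rw [ha, Complex.mul_re]
    simp only [Complex.add_re, Complex.one_re, Complex.add_im, Complex.one_im, add_zero]
    have h6 : 1 ≤ z.re + 1 := by linarith
    have h7 : 9 / 10 * m1 * 1 ≤ (m z).re * (z.re + 1) :=
      mul_le_mul (by linarith [h3.1]) h6 (by norm_num) (by linarith [h3.1])
    have h8 : (m z).im * z.im ≤ m1 / 10 * (3 * δ / 4) := by
      calc (m z).im * z.im ≤ m1 / 10 * z.im := mul_le_mul_of_nonneg_right h4.2 hy.le
        _ ≤ _ := mul_le_mul_of_nonneg_left hyl (by positivity)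
    nlinarith
  have haarg := arg_small hare
  rw [abs_lt] at haarg
  have hbarg := arg_pos_of (ratio_im hz.1)
  rw [← hb] at hbarg
  have hqarg := arg_pos_of (qq_UH hL hz)
  -- the arguments add up
  have hlog : Complex.log (a * b) = Complex.log a + Complex.log b := by
    have e1 : a * b = Complex.exp (Complex.log a + Complex.log b) := by
      rw [Complex.exp_add, Complex.exp_log ha0, Complex.exp_log hb0]
    have e2 : -Real.pi < (Complex.log a + Complex.log b).im := by
      rw [Complex.add_im, Complex.log_im, Complex.log_im]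
      linarith [haarg.1, hbarg.1]
    rcases le_or_gt (Complex.log a + Complex.log b).im Real.pi with e3 | e3
    · rw [e1, Complex.log_exp e2 e3]
    · exfalso
      -- then the argument of the product is the sum minus `2π`, negative
      have e4 : a * b = Complex.exp (Complex.log a + Complex.log b - 2 * Real.pi * Complex.I) := by
        rw [Complex.exp_sub, Complex.exp_two_pi_mul_I, div_one, ← e1]
      have e5 : (Complex.log a + Complex.log b - 2 * Real.pi * Complex.I).im =
          (Complex.log a + Complex.log b).im - 2 * Real.pi := by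
        simp
      have e6 : (Complex.log a + Complex.log b).im < 3 / 2 * Real.pi := by
        rw [Complex.add_im, Complex.log_im, Complex.log_im]
        linarith [haarg.2, hbarg.2]
      have e7 : Complex.log (a * b) =
          Complex.log a + Complex.log b - 2 * Real.pi * Complex.I := by
        rw [e4, Complex.log_exp]
        · rw [e5]; linarith
        · rw [e5]; linarith [Real.pi_pos]
      have e8 := congrArg Complex.im e7
      rw [e5, Complex.log_im, ← hab] at e8
      linarith [hqarg.1, Real.pi_pos]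
  rw [hab, Complex.cpow_def_of_ne_zero ha0, Complex.cpow_def_of_ne_zero hb0,
    Complex.cpow_def_of_ne_zero (mul_ne_zero ha0 hb0), hlog, ← Complex.exp_add]
  congr 1
  ring

lemma ecen_eq (hL : LocMap α δ m1 m) {n : ℕ} (hn : 1 ≤ n) {z : ℂ} (hz : z ∈ ann δ) :
    Ecen α n z = Complex.exp (2 * ph (zet n m z)) := by
  have hδ := hL.δ_pos
  have hδ' := hL.δ_lt
  have hy : 0 < z.im := hz.1
  have hx : |z.re - 1| ≤ 3 * δ / 4 := by
    have h5 := Complex.abs_re_le_norm (z - 1)
    simp only [Complex.sub_re, Complex.one_re] at h5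
    exact h5.trans hz.2.2
  have hyl : z.im ≤ 3 * δ / 4 := by
    have h5 := Complex.abs_im_le_norm (z - 1)
    simp only [Complex.sub_im, Complex.one_im, sub_zero] at h5
    exact (le_abs_self _).trans (h5.trans hz.2.2)
  rw [abs_le] at hx
  have htau : tau (z.re / z.im) = 1 := by
    rw [tau]
    apply Real.smoothTransition.one_of_one_le
    have : 1 ≤ z.re / z.im := by
      rw [le_div_iff₀ hy]
      linarith
    linarith
  rw [Ecen, htau, ph_zet hL hn hz, xiR]
  simp only [Complex.ofReal_one, one_mul, sub_self, zero_mul, add_zero]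
  rw [← Complex.exp_add]
  congr 1
  ring

end

end Xr

end Pool.Agent.Freud
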