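import Pool.Agent.Freud.XratD

/-!
Assembly of the expansion of the ratio of the parametrices.
-/

set_option autoImplicit false

open MeasureTheory Filter Topology Asymptotics

namespace Pool.Agent.Freud

namespace Xr

lemma nm_eq (A : Mat2) : nm A = ∑ i, ∑ j, ‖A i j‖ := by
  simp only [nm, Fin.sum_univ_two]
  ring

lemma nm_nonneg (A : Mat2) : 0 ≤ nm A := by unfold nm; positivity

lemma nm_mul (A B : Mat2) : nm (A * B) ≤ nm A * nm B := by
  simp only [nm, Matrix.mul_apply, Fin.sum_univ_two]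
  have h : ∀ a b c d : ℂ, ‖a * b + c * d‖ ≤ ‖a‖ * ‖b‖ + ‖c‖ * ‖d‖ := fun a b c d => by
    refine (norm_add_le _ _).trans ?_
    rw [norm_mul, norm_mul]
  have h1 := h (A 0 0) (B 0 0) (A 0 1) (B 1 0)
  have h2 := h (A 0 0) (B 0 1) (A 0 1) (B 1 1)
  have h3 := h (A 1 0) (B 0 0) (A 1 1) (B 1 0)
  have h4 := h (A 1 0) (B 0 1) (A 1 1) (B 1 1)
  have p : ∀ a b : ℂ, 0 ≤ ‖a‖ * ‖b‖ := fun a b => by positivity
  have p1 := p (A 0 0) (B 1 0)
  have p2 := p (A 0 0) (B 1 1)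
  have p3 := p (A 0 1) (B 0 0)
  have p4 := p (A 0 1) (B 0 1)
  have p5 := p (A 1 0) (B 1 0)
  have p6 := p (A 1 0) (B 1 1)
  have p7 := p (A 1 1) (B 0 0)
  have p8 := p (A 1 1) (B 0 1)
  nlinarith

lemma nm_QQ : nm QQ ≤ 4 := by
  have h : ‖((1 / √2 : ℝ) : ℂ)‖ ≤ 1 := norm_hs
  have h' : ‖((-(1 / √2) : ℝ) : ℂ)‖ ≤ 1 := by
    rw [Complex.ofReal_neg, norm_neg]; exact h
  simp only [nm, QQ, Matrix.of_apply, Matrix.cons_val', Matrix.cons_val_zero, Matrix.cons_val_one,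
    Matrix.cons_val_fin_one]
  linarith

/-- Conjugation by the outer factors. -/
noncomputable def cnj (b : ℂ) (M : Mat2) : Mat2 :=
  QQ * !![b⁻¹, 0; 0, b] * M * (QQ * !![b, 0; 0, b⁻¹] * QQ)

lemma hs_sq : ((1 / √2 : ℝ) : ℂ) * ((1 / √2 : ℝ) : ℂ) = 1 / 2 := by
  rw [← Complex.ofReal_mul]
  have : (1 / √2 : ℝ) * (1 / √2) = 1 / 2 := by
    rw [div_mul_div_comm, one_mul, Real.mul_self_sqrt (by norm_num)]
  rw [this]
  push_cast
  ring

lemma QQ_mul_QQ : QQ * QQ = 1 := by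
  ext i j
  fin_cases i <;> fin_cases j <;>
    simp only [QQ, Matrix.mul_apply, Fin.sum_univ_two, Matrix.of_apply, Matrix.cons_val',
      Matrix.cons_val_zero, Matrix.cons_val_one, Matrix.cons_val_fin_one, Fin.zero_eta,
      Fin.mk_one, Matrix.one_apply_eq, Fin.isValue, Complex.ofReal_neg] <;>
    first
    | (rw [Matrix.one_apply_ne (by decide)]; ring)
    | (linear_combination 2 * hs_sq)

lemma cnj_QQ {b : ℂ} (hb : b ≠ 0) : cnj b QQ = 1 := by
  have h1 : (!![b⁻¹, 0; 0, b] : Mat2) * !![b, 0; 0, b⁻¹] = 1 := by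
    ext i j
    fin_cases i <;> fin_cases j <;>
      simp [Matrix.mul_apply, Fin.sum_univ_two, hb]
  calc cnj b QQ = QQ * !![b⁻¹, 0; 0, b] * (QQ * QQ) * !![b, 0; 0, b⁻¹] * QQ := by
        unfold cnj; simp only [Matrix.mul_assoc]
    _ = QQ * (!![b⁻¹, 0; 0, b] * !![b, 0; 0, b⁻¹]) * QQ := by
        rw [QQ_mul_QQ, Matrix.mul_one]; simp only [Matrix.mul_assoc]
    _ = 1 := by rw [h1, Matrix.mul_one, QQ_mul_QQ]

lemma cnj_sub (b : ℂ) (M N : Mat2) : cnj b (M - N) = cnj b M - cnj b N := by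
  unfold cnj; rw [Matrix.mul_sub, Matrix.sub_mul]

lemma cnj_add (b : ℂ) (M N : Mat2) : cnj b (M + N) = cnj b M + cnj b N := by
  unfold cnj; rw [Matrix.mul_add, Matrix.add_mul]

lemma cnj_smul (b c : ℂ) (M : Mat2) : cnj b (c • M) = c • cnj b M := by
  unfold cnj; rw [Matrix.mul_smul, Matrix.smul_mul]

lemma cnj_sum (b : ℂ) {ι : Type*} (s : Finset ι) (f : ι → Mat2) :
    cnj b (∑ i ∈ s, f i) = ∑ i ∈ s, cnj b (f i) := by
  unfold cnj; rw [Matrix.mul_sum, Matrix.sum_mul]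

lemma nm_diag (a b : ℂ) : nm (!![a, 0; 0, b] : Mat2) = ‖a‖ + ‖b‖ := by
  simp [nm]

lemma nm_cnj {b : ℂ} {B : ℝ} (h1 : ‖b‖ ≤ B) (h2 : ‖b⁻¹‖ ≤ B) (M : Mat2) :
    nm (cnj b M) ≤ (4 * (2 * B)) * nm M * (4 * (2 * B) * 4) := by
  have hB : 0 ≤ B := (norm_nonneg _).trans h1
  have h3 : nm (QQ * !![b⁻¹, 0; 0, b]) ≤ 4 * (2 * B) := by
    refine (nm_mul _ _).trans (mul_le_mul nm_QQ ?_ (nm_nonneg _) (by norm_num))
    rw [nm_diag]; linarith
  have h4 : nm (QQ * !![b, 0; 0, b⁻¹] * QQ) ≤ 4 * (2 * B) * 4 := by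
    refine (nm_mul _ _).trans (mul_le_mul ?_ nm_QQ (nm_nonneg _) (by positivity))
    refine (nm_mul _ _).trans (mul_le_mul nm_QQ ?_ (nm_nonneg _) (by norm_num))
    rw [nm_diag]; linarith
  have hM := nm_nonneg M
  unfold cnj
  refine (nm_mul _ _).trans (mul_le_mul ?_ h4 (nm_nonneg _) (by positivity))
  exact (nm_mul _ _).trans (mul_le_mul_of_nonneg_right h3 hM)

lemma Ninv_eq (z : ℂ) : Ninv z = QQ * !![bet z, 0; 0, (bet z)⁻¹] * QQ := by
  have h1 : (bet z)⁻¹ = Complex.exp (-bfun z) := by rw [bet, Complex.exp_neg]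
  rw [h1, Ninv, bet]
  ext i j
  fin_cases i <;> fin_cases j <;>
    simp only [QQ, Matrix.mul_apply, Fin.sum_univ_two, Matrix.of_apply, Matrix.cons_val',
      Matrix.cons_val_zero, Matrix.cons_val_one, Matrix.cons_val_fin_one, Fin.zero_eta,
      Fin.mk_one, Fin.isValue, Complex.ofReal_neg, Complex.cosh, Complex.sinh]
  · linear_combination (-(Complex.exp (bfun z) + Complex.exp (-bfun z))) * hs_sq
  · linear_combination (-(Complex.exp (bfun z) - Complex.exp (-bfun z))) * hs_sq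
  · linear_combination (-(Complex.exp (bfun z) - Complex.exp (-bfun z))) * hs_sq
  · linear_combination (-(Complex.exp (bfun z) + Complex.exp (-bfun z))) * hs_sq

/-- The local solution in the normalised form. -/
noncomputable def TT (ζ : ℂ) : Mat2 := !![T11 ζ, T12 ζ; T21 ζ, T22 ζ]

section

variable {α δ m1 : ℝ} {m : ℂ → ℂ}

lemma ploc_eq (hL : LocMap α δ m1 m) {n : ℕ} (hn : 1 ≤ n) {z : ℂ} (hz : z ∈ ann δ) :
    Ploc α n m z = QQ * !![(bet z)⁻¹, 0; 0, bet z] * TT (zet n m z) := by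
  have hph := ph_zet hL hn hz
  have hE1 : Complex.exp (-(n * xiR α z)) = Complex.exp (ph (zet n m z)) := by rw [hph]
  have hE2 : Complex.exp (n * xiR α z) = Complex.exp (-ph (zet n m z)) := by rw [hph, neg_neg]
  have he := epre_bet hL hn hz
  have hb := bet_ne z
  have hne : qq m z ≠ 0 := ne_of_arg (arg_pos_of (qq_UH hL hz)).1
  have hζ : zet n m z ≠ 0 := by
    rw [zet_eq]
    exact mul_ne_zero (by exact_mod_cast (n23_pos hn).ne') hne
  have h14 : zet n m z ^ (1 / 4 : ℂ) ≠ 0 := by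
    rw [Ne, Complex.cpow_eq_zero_iff]; tauto
  have he0 : epre n m z ≠ 0 := by
    intro h
    rw [h, zero_mul] at he
    exact h14 he.symm
  have hneg : zet n m z ^ (-(1 / 4) : ℂ) = (epre n m z * bet z)⁻¹ := by
    rw [Complex.cpow_neg, he]
  rw [Ploc, hE1, hE2, Matrix.mul_assoc, Matrix.mul_assoc, Matrix.mul_assoc QQ]
  congr 1
  have hmat : (!![epre n m z, 0; 0, (epre n m z)⁻¹] : Mat2) * (Psi (zet n m z) *
      !![Complex.exp (ph (zet n m z)), 0; 0, Complex.exp (-ph (zet n m z))]) =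
      !![(bet z)⁻¹, 0; 0, bet z] * TT (zet n m z) := by
    unfold TT T11 T12 T21 T22
    rw [hneg, ← he, Psi]
    ext i j
    fin_cases i <;> fin_cases j <;>
      simp only [Matrix.mul_apply, Fin.sum_univ_two, Matrix.of_apply, Matrix.cons_val',
        Matrix.cons_val_zero, Matrix.cons_val_one, Matrix.cons_val_fin_one, Fin.zero_eta,
        Fin.mk_one, Fin.isValue, Matrix.smul_apply, smul_eq_mul, zero_mul, mul_zero, add_zero,
        zero_add] <;>
      field_simp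
  exact hmat

/-- The matrix coefficients. -/
noncomputable def MM (u v : ℕ → ℂ) (k : ℕ) : Mat2 :=
  !![hs * u k, hs * ((-1) ^ k * u k); hs * v k, -(hs * ((-1) ^ k * v k))]

lemma MM_zero {u v : ℕ → ℂ} (hu : u 0 = 1) (hv : v 0 = 1) : MM u v 0 = QQ := by
  unfold MM QQ
  rw [hu, hv]
  simp [hs]

/-- The truncated matrix series. -/
noncomputable def SS (u v : ℕ → ℂ) (K : ℕ) (w : ℂ) : Mat2 :=
  !![hs * ser u K w, hs * ser (fun k => (-1) ^ k * u k) K w;
    hs * ser v K w, -(hs * ser (fun k => (-1) ^ k * v k) K w)]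

lemma SS_eq (u v : ℕ → ℂ) (K : ℕ) (w : ℂ) :
    SS u v K w = ∑ k ∈ Finset.range (K + 1), (w ^ k)⁻¹ • MM u v k := by
  ext i j
  rw [Matrix.sum_apply]
  fin_cases i <;> fin_cases j <;>
    simp only [SS, MM, ser, Matrix.of_apply, Matrix.cons_val', Matrix.cons_val_zero,
      Matrix.cons_val_one, Matrix.cons_val_fin_one, Fin.zero_eta, Fin.mk_one, Fin.isValue,
      Matrix.smul_apply, smul_eq_mul, Finset.mul_sum, ← Finset.sum_neg_distrib] <;>
    (apply Finset.sum_congr rfl; intro k _; ring)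

lemma bet_bound (hδ : 0 < δ) (hδ' : δ < 1 / 2) : ∃ B : ℝ, 0 ≤ B ∧ ∀ z ∈ ann δ,
    ‖bet z‖ ≤ B ∧ ‖(bet z)⁻¹‖ ≤ B := by
  refine ⟨max 1 (Real.exp (-(Real.log (δ / 6)) / 4)), by positivity, ?_⟩
  intro z hz
  have hy : 0 < z.im := hz.1
  have hz1 : z - 1 ≠ 0 := by
    intro h
    have := congrArg Complex.im h
    simp at this
    linarith
  have hzp : z + 1 ≠ 0 := by
    intro h
    have := congrArg Complex.im h
    simp at this
    linarith
  have h2 : ‖(2 : ℂ)‖ = 2 := by norm_num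
  have h3 : 1 ≤ ‖z + 1‖ := by
    have h4 : ‖(2 : ℂ)‖ ≤ ‖z + 1‖ + ‖z - 1‖ := by
      have : (2 : ℂ) = (z + 1) - (z - 1) := by ring
      nth_rewrite 1 [this]
      exact norm_sub_le _ _
    have := hz.2.2
    linarith
  have h5 : ‖z + 1‖ ≤ 3 := by
    have h4 : ‖z + 1‖ ≤ ‖(2 : ℂ)‖ + ‖z - 1‖ := by
      have : z + 1 = 2 + (z - 1) := by ring
      rw [this]
      exact norm_add_le _ _
    have := hz.2.2
    linarith
  have hr1 : ‖(z - 1) / (z + 1)‖ ≤ 1 := by
    rw [norm_div, div_le_one (by linarith)]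
    have := hz.2.2
    linarith
  have hr2 : δ / 6 ≤ ‖(z - 1) / (z + 1)‖ := by
    rw [norm_div, le_div_iff₀ (by linarith)]
    have h6 := hz.2.1
    nlinarith
  have hre : (bfun z).re = Real.log ‖(z - 1) / (z + 1)‖ / 4 := by
    rw [bfun]
    have : (Complex.log ((z - 1) / (z + 1)) / 4).re =
        (Complex.log ((z - 1) / (z + 1))).re / 4 := by
      have h7 : (4 : ℂ) = ((4 : ℝ) : ℂ) := by norm_num
      rw [h7, Complex.div_ofReal_re]
    rw [this, Complex.log_re]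
  constructor
  · refine le_trans ?_ (le_max_left _ _)
    rw [bet, Complex.norm_exp, hre, ← Real.exp_zero, Real.exp_le_exp]
    have := Real.log_nonpos (norm_nonneg _) hr1
    linarith
  · refine le_trans ?_ (le_max_right _ _)
    rw [bet, ← Complex.exp_neg, Complex.norm_exp, Complex.neg_re, hre, Real.exp_le_exp]
    have := Real.log_le_log (by positivity) hr2
    linarith

/-- The coefficients of the expansion. -/
noncomputable def xx (u v : ℕ → ℂ) (m : ℂ → ℂ) (k : ℕ) (z : ℂ) : Mat2 :=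
  ((qq m z ^ (3 / 2 : ℂ)) ^ (k + 1))⁻¹ • cnj (bet z) (MM u v (k + 1))

lemma cnj_SS {u v : ℕ → ℂ} (hu : u 0 = 1) (hv : v 0 = 1) (hL : LocMap α δ m1 m) {n : ℕ}
    (hn : 1 ≤ n) {z : ℂ} (hz : z ∈ ann δ) (K : ℕ) :
    cnj (bet z) (SS u v K (zet n m z ^ (3 / 2 : ℂ))) =
      1 + ∑ k ∈ Finset.range K, (((n : ℂ) ^ (k + 1))⁻¹) • xx u v m k z := by
  have hne : qq m z ≠ 0 := ne_of_arg (arg_pos_of (qq_UH hL hz)).1
  rw [SS_eq, cnj_sum, Finset.sum_range_succ', zet_cpow32 hn hne]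
  have h0 : cnj (bet z) (((((n : ℂ) * qq m z ^ (3 / 2 : ℂ)) ^ 0)⁻¹) • MM u v 0) = 1 := by
    rw [pow_zero, inv_one, one_smul, MM_zero hu hv, cnj_QQ (bet_ne z)]
  rw [h0, add_comm]
  congr 1
  apply Finset.sum_congr rfl
  intro k _
  rw [cnj_smul, xx, smul_smul, mul_pow, mul_inv]

lemma TT_mul (ζ g12 g21 : ℂ) : TT ζ * !![1, g12; g21, 1] =
    !![T11 ζ + g21 * T12 ζ, T12 ζ + g12 * T11 ζ; T21 ζ + g21 * T22 ζ, T22 ζ + g12 * T21 ζ] := by
  ext i j
  fin_cases i <;> fin_cases j <;>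
    simp only [TT, Matrix.mul_apply, Fin.sum_univ_two, Matrix.of_apply, Matrix.cons_val',
      Matrix.cons_val_zero, Matrix.cons_val_one, Matrix.cons_val_fin_one, Fin.zero_eta,
      Fin.mk_one, Fin.isValue] <;> ring

/-- The lens factor on the annulus. -/
lemma G_eq (hL : LocMap α δ m1 m) {y0 : ℝ} (hy0 : 0 < y0) (hy0' : y0 ≤ δ / 8) {ε : ℝ}
    (hε : ∀ z ∈ ann δ, y0 / 2 ≤ z.im → (qq m z).arg ≤ Real.pi - ε)
    (hε' : ε ≤ 3 * Real.pi / 4)
    {n : ℕ} (hn : 1 ≤ n) {z : ℂ} (hz : z ∈ ann δ) :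
    ∃ g12 g21 : ℂ, Gmat α n y0 z = !![1, g12; g21, 1] ∧
      ((g21 = 0 ∧ (zet n m z).arg ≤ Real.pi - ε) ∨
        ∃ ρ : ℝ, 0 ≤ ρ ∧ ρ ≤ 1 ∧ g21 = -Complex.I * ρ * Complex.exp (2 * ph (zet n m z)) ∧
          Real.pi / 2 ≤ (zet n m z).arg ∧ (ρ = 1 ∨ (zet n m z).arg ≤ Real.pi - ε)) ∧
      (g12 = 0 ∨
        ∃ ρ : ℝ, 0 ≤ ρ ∧ ρ ≤ 1 ∧
          g12 = Complex.I / 2 * ρ * Complex.exp (-(2 * ph (zet n m z))) ∧
          (zet n m z).arg ≤ Real.pi / 4) := by
  have hδ := hL.δ_pos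
  have hδ' := hL.δ_lt
  have hy : 0 < z.im := hz.1
  have hx : |z.re - 1| ≤ 3 * δ / 4 := by
    have h5 := Complex.abs_re_le_norm (z - 1)
    simp only [Complex.sub_re, Complex.one_re] at h5
    exact h5.trans hz.2.2
  rw [abs_le] at hx
  have hρ0 : 0 ≤ rho (z.im / y0) := Real.smoothTransition.nonneg _
  have hρ1 : rho (z.im / y0) ≤ 1 := Real.smoothTransition.le_one _
  have hρz : y0 ≤ z.im → rho (z.im / y0) = 0 := by
    intro h
    rw [rho]
    apply Real.smoothTransition.zero_of_nonpos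
    have : 1 ≤ z.im / y0 := by rw [le_div_iff₀ hy0]; linarith
    linarith
  have hρo : z.im < y0 / 2 → rho (z.im / y0) = 1 := by
    intro h
    rw [rho]
    apply Real.smoothTransition.one_of_one_le
    have : z.im / y0 ≤ 1 / 2 := by rw [div_le_iff₀ hy0]; linarith
    linarith
  rw [zet_arg hn]
  by_cases h1 : |z.re| < 1
  · refine ⟨0, -Complex.I * (rho (z.im / y0) : ℂ) * Ecen α n z, ?_, ?_, Or.inl rfl⟩
    · rw [Gmat, if_pos h1]
    · have h1' : z.re < 1 := (abs_lt.1 h1).2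
      rcases le_or_gt y0 z.im with h2 | h2
      · left
        constructor
        · rw [hρz h2]; simp
        · exact hε z hz (by linarith)
      · right
        refine ⟨rho (z.im / y0), hρ0, hρ1, ?_, geo_left hL hz h1' (by linarith), ?_⟩
        · rw [ecen_eq hL hn hz]
        · rcases lt_or_ge z.im (y0 / 2) with h3 | h3
          · exact Or.inl (hρo h3)
          · exact Or.inr (hε z hz h3)
  · have h1' : 1 ≤ z.re := by
      by_contra hcon
      push Not at hcon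
      exact h1 (abs_lt.2 ⟨by linarith, hcon⟩)
    have h4 : (qq m z).arg ≤ Real.pi - ε := by
      rcases lt_or_ge z.im (y0 / 2) with h3 | h3
      · have := geo_right hL hz h1' (by linarith)
        linarith
      · exact hε z hz h3
    refine ⟨Complex.I / 2 * (rho (z.im / y0) : ℂ) * Complex.exp (2 * n * xiR α z), 0, ?_,
      Or.inl ⟨rfl, h4⟩, ?_⟩
    · rw [Gmat, if_neg h1, if_pos (by linarith)]
    · rcases le_or_gt y0 z.im with h2 | h2
      · left
        rw [hρz h2]; simp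
      · right
        refine ⟨rho (z.im / y0), hρ0, hρ1, ?_, geo_right hL hz h1' (by linarith)⟩
        rw [ph_zet hL hn hz]
        congr 2
        ring

/-- The expansion, from the facts on the Airy function. -/
theorem expansion (hc : Conn) (hA : ∃ u v : ℕ → ℂ, u 0 = 1 ∧ v 0 = 1 ∧ Asy u v)
    (hL : LocMap α δ m1 m) :
    ∃ x : ℕ → ℂ → Mat2,
      (∀ k, ContinuousOn (x k) (ann δ)) ∧ (∀ k, ∃ C : ℝ, ∀ z ∈ ann δ, nm (x k z) ≤ C) ∧
      ∀ y0 : ℝ, 0 < y0 → y0 ≤ δ / 8 →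
        ∀ K : ℕ, ∃ C : ℝ, ∀ n : ℕ, 1 ≤ n → ∀ z ∈ ann δ,
          nm (Xrat α n y0 m z - 1 - ∑ k ∈ Finset.range K, (((n : ℂ) ^ (k + 1))⁻¹) • x k z)
            ≤ C / n ^ (K + 1) := by
  obtain ⟨u, v, hu, hv, hasy⟩ := hA
  obtain ⟨B, hB0, hB⟩ := bet_bound hL.δ_pos hL.δ_lt
  have hδ := hL.δ_pos
  have hm := hL.m1_pos
  set r : ℝ := δ / 2 * (9 / 10 * m1) with hr
  have hr0 : 0 < r := by positivity
  refine ⟨xx u v m, ?_, ?_, ?_⟩
  · -- continuity
    intro k
    have hb : ContinuousOn bet (ann δ) := by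
      intro z hz
      have hy : 0 < z.im := hz.1
      have hzp : z + 1 ≠ 0 := by
        intro h
        have := congrArg Complex.im h
        simp at this
        linarith
      have h1 : (z - 1) / (z + 1) ∈ Complex.slitPlane := Or.inr (ratio_im hz.1).ne'
      have h2 : ContinuousAt bet z := by
        unfold bet bfun
        refine Complex.continuous_exp.continuousAt.comp (ContinuousAt.div_const ?_ _)
        refine ContinuousAt.clog ?_ h1
        exact (continuousAt_id.sub continuousAt_const).div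
          (continuousAt_id.add continuousAt_const) hzp
      exact h2.continuousWithinAt
    have hbi : ContinuousOn (fun z => (bet z)⁻¹) (ann δ) :=
      hb.inv₀ (fun z _ => bet_ne z)
    have hd1 : ContinuousOn (fun z => (!![(bet z)⁻¹, 0; 0, bet z] : Mat2)) (ann δ) := by
      refine continuousOn_pi.2 fun i => continuousOn_pi.2 fun j => ?_
      fin_cases i <;> fin_cases j
      · exact hbi
      · exact continuousOn_const
      · exact continuousOn_const
      · exact hb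
    have hd2 : ContinuousOn (fun z => (!![bet z, 0; 0, (bet z)⁻¹] : Mat2)) (ann δ) := by
      refine continuousOn_pi.2 fun i => continuousOn_pi.2 fun j => ?_
      fin_cases i <;> fin_cases j
      · exact hb
      · exact continuousOn_const
      · exact continuousOn_const
      · exact hbi
    have hq : ContinuousOn (fun z => ((qq m z ^ (3 / 2 : ℂ)) ^ (k + 1))⁻¹) (ann δ) := by
      refine ContinuousOn.inv₀ (ContinuousOn.pow ?_ _) ?_
      · intro z hz
        have h1 : ContinuousWithinAt (qq m) (ann δ) z :=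
          ((qq_cont hL).mono (fun w hw => ann_ball hL hw)) z hz
        exact h1.cpow continuousWithinAt_const (Or.inr (qq_UH hL hz).ne')
      · intro z hz
        have hne : qq m z ≠ 0 := ne_of_arg (arg_pos_of (qq_UH hL hz)).1
        apply pow_ne_zero
        rw [Ne, Complex.cpow_eq_zero_iff]
        tauto
    unfold xx cnj
    refine hq.smul ?_
    exact ((continuousOn_const.mul hd1).mul continuousOn_const).mul
      ((continuousOn_const.mul hd2).mul continuousOn_const)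
  · -- boundedness
    intro k
    refine ⟨((r ^ (3 / 2 : ℝ)) ^ (k + 1))⁻¹ *
      ((4 * (2 * B)) * nm (MM u v (k + 1)) * (4 * (2 * B) * 4)), ?_⟩
    intro z hz
    have h1 : nm (xx u v m k z) = ‖((qq m z ^ (3 / 2 : ℂ)) ^ (k + 1))⁻¹‖ *
        nm (cnj (bet z) (MM u v (k + 1))) := by
      simp only [xx, nm, Matrix.smul_apply, smul_eq_mul, norm_mul]
      ring
    rw [h1]
    have h2 := nm_cnj (hB z hz).1 (hB z hz).2 (MM u v (k + 1))
    have h3 : ‖((qq m z ^ (3 / 2 : ℂ)) ^ (k + 1))⁻¹‖ ≤ ((r ^ (3 / 2 : ℝ)) ^ (k + 1))⁻¹ := by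
      rw [norm_inv, norm_pow, norm_cpow32]
      have h4 : r ^ (3 / 2 : ℝ) ≤ ‖qq m z‖ ^ (3 / 2 : ℝ) :=
        Real.rpow_le_rpow hr0.le (qq_norm hL hz) (by norm_num)
      have h5 : 0 < r ^ (3 / 2 : ℝ) := Real.rpow_pos_of_pos hr0 _
      gcongr
    exact mul_le_mul h3 h2 (nm_nonneg _) (by positivity)
  · intro y0 hy0 hy0' K
    obtain ⟨ε1, hε1, hε1'⟩ := geo_high hL y0 hy0
    set ε : ℝ := min ε1 (3 * Real.pi / 4) with hεdef
    have hε : 0 < ε := lt_min hε1 (by positivity)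
    have hε' : ∀ z ∈ ann δ, y0 / 2 ≤ z.im → (qq m z).arg ≤ Real.pi - ε := by
      intro z hz h
      have := hε1' z hz h
      have h2 : ε ≤ ε1 := min_le_left _ _
      linarith
    obtain ⟨C1, hC1, hcol1⟩ := col1 hc hasy K ε r hε hr0
    obtain ⟨C2, hC2, hcol2⟩ := col2 hasy K r hr0
    refine ⟨(4 * (2 * B)) * (2 * (C1 + C2)) * (4 * (2 * B) * 4), ?_⟩
    intro n hn z hz
    have hn0 : (0 : ℝ) < n := by exact_mod_cast hn
    obtain ⟨g12, g21, hG, hg21, hg12⟩ := G_eq hL hy0 hy0' hε' (min_le_right _ _) hn hz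
    have hq := arg_pos_of (qq_UH hL hz)
    have hζ1 : 0 < (zet n m z).arg := by rw [zet_arg hn]; exact hq.1
    have hζ2 : (zet n m z).arg < Real.pi := by rw [zet_arg hn]; exact hq.2
    have hζ3 : r * n23 n ≤ ‖zet n m z‖ := by
      rw [zet_norm hn, mul_comm]
      exact mul_le_mul_of_nonneg_left (qq_norm hL hz) (n23_pos hn).le
    obtain ⟨e1, e2⟩ := hcol1 n hn _ hζ3 hζ1 hζ2 g21 hg21
    obtain ⟨e3, e4⟩ := hcol2 n hn _ hζ3 hζ1 hζ2 g12 hg12
    have hX : Xrat α n y0 m z = cnj (bet z) (TT (zet n m z) * !![1, g12; g21, 1]) := by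
      rw [Xrat, ploc_eq hL hn hz, hG, Ninv_eq, cnj, Matrix.mul_assoc (QQ * _) (TT _)]
    have hD : Xrat α n y0 m z - 1 -
        ∑ k ∈ Finset.range K, (((n : ℂ) ^ (k + 1))⁻¹) • xx u v m k z =
        cnj (bet z) (TT (zet n m z) * !![1, g12; g21, 1] -
          SS u v K (zet n m z ^ (3 / 2 : ℂ))) := by
      rw [cnj_sub, ← hX, cnj_SS hu hv hL hn hz K]
      abel
    rw [hD]
    refine (nm_cnj (hB z hz).1 (hB z hz).2 _).trans ?_
    have hS : nm (TT (zet n m z) * !![1, g12; g21, 1] - SS u v K (zet n m z ^ (3 / 2 : ℂ))) ≤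
        2 * (C1 + C2) / n ^ (K + 1) := by
      rw [TT_mul, SS]
      have h5 : 2 * (C1 + C2) / (n : ℝ) ^ (K + 1) = C1 / n ^ (K + 1) + C2 / n ^ (K + 1) +
          C1 / n ^ (K + 1) + C2 / n ^ (K + 1) := by ring
      rw [h5]
      simp only [nm, Matrix.sub_apply, Matrix.of_apply, Matrix.cons_val', Matrix.cons_val_zero,
        Matrix.cons_val_one, Matrix.cons_val_fin_one]
      exact add_le_add (add_le_add (add_le_add e1 e3) e2) e4
    calc 4 * (2 * B) * nm (TT (zet n m z) * !![1, g12; g21, 1] -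
            SS u v K (zet n m z ^ (3 / 2 : ℂ))) * (4 * (2 * B) * 4)
        ≤ 4 * (2 * B) * (2 * (C1 + C2) / n ^ (K + 1)) * (4 * (2 * B) * 4) := by
          gcongr
      _ = _ := by ring

end

end Xr

end Pool.Agent.Freud
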