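import Pool.Agent.Freud.ZeroErr

/-!
The contribution of the origin to the next orders for `α = 3`.
-/

set_option autoImplicit false

open MeasureTheory Filter Topology Set Complex

namespace Pool.Agent.Freud

namespace ZT

/-- the error -/
noncomputable def DD (y0 : ℝ) (n : ℕ) (z : ℂ) : Mat2 := W0 3 n y0 z - Mod n z

lemma Mod_entry (n : ℕ) (z : ℂ) (i j : Fin 2) : Mod n z i j =
    A0 i j * (-((-1) ^ n * (n * kap 3)) * PK 3 n z + ((-1) ^ n * (I * n ^ 2 * kap 3)) * LK n z) +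
      A1 i j * (-((-1) ^ n * (n * kap 3)) * PK 4 n z) := by
  unfold Mod M1 M2 PK LK
  simp only [Matrix.add_apply, Matrix.smul_apply, smul_eq_mul]
  ring

lemma Mod_entry_continuousOn (n : ℕ) (i j : Fin 2) :
    ContinuousOn (fun z => Mod n z i j) UH := by
  simp only [Mod_entry]
  exact (continuousOn_const.mul ((continuousOn_const.mul (PK_continuousOn 3 n)).add
    (continuousOn_const.mul (LK_continuousOn n)))).add
    (continuousOn_const.mul (continuousOn_const.mul (PK_continuousOn 4 n)))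

lemma Mod_entry_integrable {n : ℕ} (hn : 1 ≤ n) (i j : Fin 2) :
    IntegrableOn (fun z => Mod n z i j) UH := by
  simp only [Mod_entry]
  exact ((((PK_integrable 2 hn).const_mul _).add ((LK_integrable hn).const_mul _)).const_mul _).add
    (((PK_integrable 3 hn).const_mul _).const_mul _)

lemma Mod_entry_integral {n : ℕ} (hn : 1 ≤ n) (i j : Fin 2) :
    ∫ z in UH, Mod n z i j =
      A0 i j * (-((-1) ^ n * (n * kap 3)) * (∫ z in UH, PK 3 n z) +
        ((-1) ^ n * (I * n ^ 2 * kap 3)) * ∫ z in UH, LK n z) +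
      A1 i j * (-((-1) ^ n * (n * kap 3)) * ∫ z in UH, PK 4 n z) := by
  simp only [Mod_entry]
  rw [integral_add, integral_const_mul, integral_add, integral_const_mul, integral_const_mul,
    integral_const_mul, integral_const_mul]
  · exact (PK_integrable 2 hn).const_mul _
  · exact (LK_integrable hn).const_mul _
  · exact (((PK_integrable 2 hn).const_mul _).add ((LK_integrable hn).const_mul _)).const_mul _
  · exact ((PK_integrable 3 hn).const_mul _).const_mul _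

lemma DD_entry_continuousOn (y0 : ℝ) (n : ℕ) (i j : Fin 2) :
    ContinuousOn (fun z => DD y0 n z i j) UH := by
  unfold DD
  simp only [Matrix.sub_apply]
  exact (W0_entry_continuousOn (by norm_num) n y0 i j).sub (Mod_entry_continuousOn n i j)

lemma entry_le_nm (A : Mat2) (i j : Fin 2) : ‖A i j‖ ≤ nm A := by
  unfold nm
  have h00 := norm_nonneg (A 0 0)
  have h01 := norm_nonneg (A 0 1)
  have h10 := norm_nonneg (A 1 0)
  have h11 := norm_nonneg (A 1 1)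
  fin_cases i <;> fin_cases j <;> simp <;> linarith

/-- majorant of the error -/
noncomputable def EJ (K c1 : ℝ) (n : ℕ) (z : ℂ) : ℝ :=
  K * (n * Maj 4 n c1 z + n ^ 2 * Maj 5 n c1 z + n ^ 3 * Maj 6 n c1 z)

lemma EJ_eq (K c1 : ℝ) (n : ℕ) (z : ℂ) :
    EJ K c1 n z = K * EM n ‖z‖ * Real.exp (-(c1 * n * ‖z‖)) := by
  unfold EJ EM Maj
  rw [show (4 : ℝ) = ((4 : ℕ) : ℝ) by norm_num, show (5 : ℝ) = ((5 : ℕ) : ℝ) by norm_num,
      show (6 : ℝ) = ((6 : ℕ) : ℝ) by norm_num, Real.rpow_natCast, Real.rpow_natCast,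
      Real.rpow_natCast]
  rw [show -(c1 * (n : ℝ)) * ‖z‖ = -(c1 * n * ‖z‖) by ring]
  ring

lemma EJ_integrable (K : ℝ) {c1 : ℝ} (hc : 0 < c1) {n : ℕ} (hn : 1 ≤ n) :
    Integrable (EJ K c1 n) := by
  have hn' : (0 : ℝ) < n := by exact_mod_cast hn
  unfold EJ
  exact ((((Maj_integrable (by norm_num) hn' hc).const_mul _).add
    ((Maj_integrable (by norm_num) hn' hc).const_mul _)).add
    ((Maj_integrable (by norm_num) hn' hc).const_mul _)).const_mul K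

lemma EJ_integral {K : ℝ} (hK : 0 ≤ K) {c1 : ℝ} (hc : 0 < c1) : ∃ B : ℝ, 0 ≤ B ∧
    ∀ n : ℕ, 1 ≤ n → ∫ z in UH, EJ K c1 n z ≤ B / (n : ℝ) ^ 5 := by
  set b4 := 2 * Real.pi * c1 ^ (-((4 : ℝ) + 2)) * Real.Gamma (4 + 2) with hb4
  set b5 := 2 * Real.pi * c1 ^ (-((5 : ℝ) + 2)) * Real.Gamma (5 + 2) with hb5
  set b6 := 2 * Real.pi * c1 ^ (-((6 : ℝ) + 2)) * Real.Gamma (6 + 2) with hb6
  have g4 : 0 < Real.Gamma (4 + 2) := Real.Gamma_pos_of_pos (by norm_num)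
  have g5 : 0 < Real.Gamma (5 + 2) := Real.Gamma_pos_of_pos (by norm_num)
  have g6 : 0 < Real.Gamma (6 + 2) := Real.Gamma_pos_of_pos (by norm_num)
  refine ⟨K * (b4 + b5 + b6), by positivity, ?_⟩
  intro n hn
  have hn' : (0 : ℝ) < n := by exact_mod_cast hn
  have i4 := Maj_integrable (q := 4) (by norm_num) hn' hc
  have i5 := Maj_integrable (q := 5) (by norm_num) hn' hc
  have i6 := Maj_integrable (q := 6) (by norm_num) hn' hc
  have e : ∫ z in UH, EJ K c1 n z = K * (n * (∫ z in UH, Maj 4 n c1 z) +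
      n ^ 2 * (∫ z in UH, Maj 5 n c1 z) + n ^ 3 * ∫ z in UH, Maj 6 n c1 z) := by
    unfold EJ
    rw [integral_const_mul, integral_add, integral_add, integral_const_mul, integral_const_mul,
      integral_const_mul]
    · exact (i4.const_mul _).integrableOn
    · exact (i5.const_mul _).integrableOn
    · exact ((i4.const_mul _).add (i5.const_mul _)).integrableOn
    · exact (i6.const_mul _).integrableOn
  rw [e]
  have m4 := Maj_integral_le (q := 4) (by norm_num) hn' hc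
  have m5 := Maj_integral_le (q := 5) (by norm_num) hn' hc
  have m6 := Maj_integral_le (q := 6) (by norm_num) hn' hc
  rw [← hb4] at m4
  rw [← hb5] at m5
  rw [← hb6] at m6
  have r4 : (n : ℝ) ^ (-((4 : ℝ) + 2)) = ((n : ℝ) ^ 6)⁻¹ := by
    rw [Real.rpow_neg hn'.le, show (4 : ℝ) + 2 = ((6 : ℕ) : ℝ) by norm_num, Real.rpow_natCast]
  have r5 : (n : ℝ) ^ (-((5 : ℝ) + 2)) = ((n : ℝ) ^ 7)⁻¹ := by
    rw [Real.rpow_neg hn'.le, show (5 : ℝ) + 2 = ((7 : ℕ) : ℝ) by norm_num, Real.rpow_natCast]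
  have r6 : (n : ℝ) ^ (-((6 : ℝ) + 2)) = ((n : ℝ) ^ 8)⁻¹ := by
    rw [Real.rpow_neg hn'.le, show (6 : ℝ) + 2 = ((8 : ℕ) : ℝ) by norm_num, Real.rpow_natCast]
  rw [r4] at m4
  rw [r5] at m5
  rw [r6] at m6
  calc K * (n * (∫ z in UH, Maj 4 n c1 z) +
      n ^ 2 * (∫ z in UH, Maj 5 n c1 z) + n ^ 3 * ∫ z in UH, Maj 6 n c1 z)
      ≤ K * (n * (b4 * ((n : ℝ) ^ 6)⁻¹) + n ^ 2 * (b5 * ((n : ℝ) ^ 7)⁻¹) +
        n ^ 3 * (b6 * ((n : ℝ) ^ 8)⁻¹)) := by gcongr
    _ = K * (b4 + b5 + b6) / (n : ℝ) ^ 5 := by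
      field_simp

lemma DD_entry_integrable {y0 K c1 : ℝ} (hc : 0 < c1) {n : ℕ} (hn : 1 ≤ n)
    (h : ∀ z ∈ UH, nm (DD y0 n z) ≤ EJ K c1 n z) (i j : Fin 2) :
    IntegrableOn (fun z => DD y0 n z i j) UH := by
  refine Integrable.mono' (g := EJ K c1 n) (EJ_integrable K hc hn).integrableOn
    ((DD_entry_continuousOn y0 n i j).aestronglyMeasurable measurableSet_UH) ?_
  exact (ae_restrict_mem measurableSet_UH).mono fun z hz => (entry_le_nm _ i j).trans (h z hz)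

lemma DD_entry_integral_le {y0 K c1 : ℝ} (hc : 0 < c1) {n : ℕ} (hn : 1 ≤ n)
    (h : ∀ z ∈ UH, nm (DD y0 n z) ≤ EJ K c1 n z) (i j : Fin 2) :
    ‖∫ z in UH, DD y0 n z i j‖ ≤ ∫ z in UH, EJ K c1 n z := by
  refine norm_integral_le_of_norm_le (EJ_integrable K hc hn).integrableOn ?_
  exact (ae_restrict_mem measurableSet_UH).mono fun z hz => (entry_le_nm _ i j).trans (h z hz)

/-- the integral of the logarithmic kernel for `n = 1` -/
noncomputable def J1 : ℂ := ∫ z in UH, LK 1 z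

lemma sq_one (n : ℕ) : ((-1 : ℝ) ^ n : ℝ) = 1 ∨ ((-1 : ℝ) ^ n : ℝ) = -1 := neg_one_pow_eq_or ℝ n

/-- the scalar part -/
lemma Mod_integral_scalar {n : ℕ} (hn : 1 ≤ n) :
    -((-1) ^ n * (n * kap 3)) * (∫ z in UH, PK 3 n z) +
        ((-1) ^ n * (I * n ^ 2 * kap 3)) * ∫ z in UH, LK n z =
      (((-1 : ℝ) ^ n * kap 3 : ℝ) : ℂ) * (-((2 / 27 / (n : ℝ) ^ 3 : ℝ) : ℂ) +
        I * ((1 / (n : ℝ) ^ 5 : ℝ) : ℂ) * (J1 + 80 / 243 * I * Real.log n)) := by
  have hn' : (0 : ℝ) < n := by exact_mod_cast hn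
  have hn0 : (n : ℂ) ≠ 0 := by exact_mod_cast hn'.ne'
  rw [PK_integral 3 hn, LK_integral hn, ← J1]
  have hI : I ^ 4 = 1 := Complex.I_pow_four
  rw [div_pow, hI]
  push_cast [Nat.factorial]
  field_simp
  ring

lemma Mod_integral_scalar2 {n : ℕ} (hn : 1 ≤ n) :
    -((-1) ^ n * (n * kap 3)) * (∫ z in UH, PK 4 n z) =
      (((-1 : ℝ) ^ n * kap 3 : ℝ) : ℂ) * (-((24 / 243 / (n : ℝ) ^ 4 : ℝ) : ℂ) * I) := by
  have hn' : (0 : ℝ) < n := by exact_mod_cast hn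
  have hn0 : (n : ℂ) ≠ 0 := by exact_mod_cast hn'.ne'
  rw [PK_integral 4 hn]
  have hI : I ^ 5 = I := by
    rw [show I ^ 5 = I ^ 4 * I by ring, Complex.I_pow_four, one_mul]
  rw [div_pow, hI]
  push_cast [Nat.factorial]
  field_simp
  ring

/-- the second order coefficient matrix -/
noncomputable def Z4 : Mat2 := !![0, 12 / 243; -(12 / 243), 0]

lemma Mod_re {n : ℕ} (hn : 1 ≤ n) (i j : Fin 2) :
    2 / Real.pi * (∫ z in UH, Mod n z i j).re -
      (((-1) ^ n * (bco 3 * (1 / (n : ℝ) ^ 3 + 40 / 9 * Real.log n / (n : ℝ) ^ 5)))) *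
          ((!![0, 1; 1, 0] : Mat2) i j).re - ((-1) ^ n / (n : ℝ) ^ 4) * (Z4 i j).re =
      (-1) ^ n / (n : ℝ) ^ 5 * (I * A0 i j * J1).re := by
  have hn' : (0 : ℝ) < n := by exact_mod_cast hn
  rw [Mod_entry_integral hn, Mod_integral_scalar hn, Mod_integral_scalar2 hn, bco_three]
  have hk : kap 3 = Real.pi / 2 := kap_three
  rw [hk]
  have hpi := Real.pi_ne_zero
  obtain ⟨l, hl⟩ : ∃ l, l = Real.log n := ⟨_, rfl⟩
  rw [← hl]
  fin_cases i <;> fin_cases j <;>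
    simp [A0, A1, Z4, -ofReal_mul, -ofReal_div, -ofReal_pow, -ofReal_neg, -ofReal_one,
      Complex.mul_re, Complex.mul_im, Complex.add_re, Complex.add_im] <;>
    field_simp <;> ring

lemma A0_entry_le (i j : Fin 2) : ‖A0 i j‖ ≤ 1 := by
  fin_cases i <;> fin_cases j <;> simp [A0] <;> norm_num

end ZT

open ZT in
theorem zero_b (δ y0 c : ℝ) (hδ : 0 < δ) (hδ' : δ < 1 / 2)
    (hG : Geo 3 δ y0 c) : ∃ (Z4 : Mat2) (C : ℝ), ∀ n : ℕ, 1 ≤ n →
      nm ((2 / Real.pi : ℂ) • reM (IU (W0 3 n y0)) -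
        (((-1) ^ n * (bco 3 * (1 / (n : ℝ) ^ 3 + 40 / 9 * Real.log n / (n : ℝ) ^ 5)) : ℝ) : ℂ) •
          (!![0, 1; 1, 0] : Mat2) -
        (((-1) ^ n / (n : ℝ) ^ 4 : ℝ) : ℂ) • Z4)
        ≤ C / (n : ℝ) ^ 5 := by
  obtain ⟨c1, K, hc1, hK, hb⟩ := all_bound hδ hδ' hG
  obtain ⟨B, hB, hEJ⟩ := EJ_integral hK hc1
  refine ⟨ZT.Z4, 4 * (B + ‖J1‖), ?_⟩
  intro n hn
  have hn' : (0 : ℝ) < n := by exact_mod_cast hn
  have hD : ∀ z ∈ UH, nm (DD y0 n z) ≤ EJ K c1 n z := by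
    intro z hz
    rw [EJ_eq]
    exact hb n hn z hz
  have hent : ∀ i j, ‖((2 / Real.pi : ℂ) • reM (IU (W0 3 n y0)) -
        (((-1) ^ n * (bco 3 * (1 / (n : ℝ) ^ 3 + 40 / 9 * Real.log n / (n : ℝ) ^ 5)) : ℝ) : ℂ) •
          (!![0, 1; 1, 0] : Mat2) -
        (((-1) ^ n / (n : ℝ) ^ 4 : ℝ) : ℂ) • ZT.Z4) i j‖ ≤ (B + ‖J1‖) / (n : ℝ) ^ 5 := by
    intro i j
    have h1 : ∫ z in UH, W0 3 n y0 z i j =
        (∫ z in UH, Mod n z i j) + ∫ z in UH, DD y0 n z i j := by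
      rw [← integral_add (Mod_entry_integrable hn i j) (DD_entry_integrable hc1 hn hD i j)]
      refine setIntegral_congr_fun measurableSet_UH fun z _ => ?_
      unfold DD
      simp [Matrix.sub_apply]
    have h2 := Mod_re hn i j
    have hre1 : ((!![0, 1; 1, 0] : Mat2) i j) =
        ((((!![0, 1; 1, 0] : Mat2) i j).re : ℝ) : ℂ) := by
      fin_cases i <;> fin_cases j <;> simp
    have hre2 : (ZT.Z4 i j) = (((ZT.Z4 i j).re : ℝ) : ℂ) := by
      fin_cases i <;> fin_cases j <;> simp [ZT.Z4]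
    have h3 : ((2 / Real.pi : ℂ) • reM (IU (W0 3 n y0)) -
        (((-1) ^ n * (bco 3 * (1 / (n : ℝ) ^ 3 + 40 / 9 * Real.log n / (n : ℝ) ^ 5)) : ℝ) : ℂ) •
          (!![0, 1; 1, 0] : Mat2) -
        (((-1) ^ n / (n : ℝ) ^ 4 : ℝ) : ℂ) • ZT.Z4) i j =
        ((2 / Real.pi * (∫ z in UH, DD y0 n z i j).re +
          (-1) ^ n / (n : ℝ) ^ 5 * (I * A0 i j * J1).re : ℝ) : ℂ) := by
      rw [← h2]
      simp only [Matrix.sub_apply, Matrix.smul_apply, smul_eq_mul]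
      rw [hre1, hre2]
      have h4 : reM (IU (W0 3 n y0)) i j = (((∫ z in UH, W0 3 n y0 z i j).re : ℝ) : ℂ) := rfl
      rw [h4, h1, Complex.add_re]
      simp only [Complex.ofReal_re]
      push_cast
      ring
    rw [h3, Complex.norm_real, Real.norm_eq_abs]
    have h5 := DD_entry_integral_le hc1 hn hD i j
    have h6 := hEJ n hn
    have h7 := Complex.abs_re_le_norm (∫ z in UH, DD y0 n z i j)
    have h8 := Complex.abs_re_le_norm (I * A0 i j * J1)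
    rw [norm_mul, norm_mul, Complex.norm_I, one_mul] at h8
    have h9 : ‖A0 i j‖ * ‖J1‖ ≤ 1 * ‖J1‖ :=
      mul_le_mul_of_nonneg_right (A0_entry_le i j) (norm_nonneg _)
    have h10 : |2 / Real.pi * (∫ z in UH, DD y0 n z i j).re| ≤ B / (n : ℝ) ^ 5 := by
      rw [abs_mul, abs_of_pos (by positivity)]
      have : 2 / Real.pi ≤ 1 := by
        rw [div_le_one Real.pi_pos]
        exact Real.two_le_pi
      calc 2 / Real.pi * |(∫ z in UH, DD y0 n z i j).re| ≤ 1 * (B / (n : ℝ) ^ 5) := by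
            gcongr
            linarith
        _ = _ := one_mul _
    have h11 : |(-1) ^ n / (n : ℝ) ^ 5 * (I * A0 i j * J1).re| ≤ ‖J1‖ / (n : ℝ) ^ 5 := by
      rw [abs_mul, abs_div, abs_pow, abs_neg, abs_one, one_pow, abs_of_pos (by positivity)]
      rw [div_mul_eq_mul_div, one_mul]
      gcongr
      linarith
    refine (abs_add_le _ _).trans ?_
    rw [add_div]
    linarith
  unfold nm
  have e00 := hent 0 0
  have e01 := hent 0 1
  have e10 := hent 1 0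
  have e11 := hent 1 1
  have : 4 * (B + ‖J1‖) / (n : ℝ) ^ 5 = 4 * ((B + ‖J1‖) / (n : ℝ) ^ 5) := by ring
  rw [this]
  linarith

end Pool.Agent.Freud
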