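import Pool.Agent.Freud.ZeroModel
import Pool.Agent.Freud.ZeroQ
import Pool.Agent.Freud.NearZero

/-!
Comparison of `W0` with its model for `α = 3`.
-/

set_option autoImplicit false

open MeasureTheory Filter Topology Set Complex

namespace Pool.Agent.Freud.ZT

lemma scal {p p' Q : ℂ} {s : ℝ} (hp : ‖p‖ ≤ s) (hQ : ‖Q‖ ≤ s) :
    ‖cexp p * (cexp Q - cexp (-Q)) - 2 * Q * (1 + p')‖ ≤
      (2 * ‖Q‖ ^ 2 + 2 * ‖Q‖ * ‖p‖ ^ 2) * Real.exp (2 * s) + 2 * ‖Q‖ * ‖p - p'‖ := by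
  have h1 := za_exp_norm_sub_two Q
  have h2 := za_exp_norm_sub_two (-Q)
  have h3 := za_exp_norm_sub_two p
  have h4 := za_exp_norm p
  rw [norm_neg] at h2
  have hs : 0 ≤ s := (norm_nonneg _).trans hp
  have e1 : Real.exp ‖p‖ ≤ Real.exp s := Real.exp_le_exp.2 hp
  have e2 : Real.exp ‖Q‖ ≤ Real.exp s := Real.exp_le_exp.2 hQ
  have e3 : Real.exp s ≤ Real.exp (2 * s) := Real.exp_le_exp.2 (by linarith)
  have e4 : Real.exp s * Real.exp s = Real.exp (2 * s) := by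
    rw [← Real.exp_add]; ring_nf
  have e : cexp p * (cexp Q - cexp (-Q)) - 2 * Q * (1 + p') =
      cexp p * ((cexp Q - 1 - Q) - (cexp (-Q) - 1 - -Q)) + 2 * Q * (cexp p - 1 - p) +
        2 * Q * (p - p') := by ring
  rw [e]
  have f1 : ‖cexp p * ((cexp Q - 1 - Q) - (cexp (-Q) - 1 - -Q))‖ ≤
      Real.exp s * (‖Q‖ ^ 2 * Real.exp s + ‖Q‖ ^ 2 * Real.exp s) := by
    rw [norm_mul]
    refine mul_le_mul (h4.trans e1) ?_ (norm_nonneg _) (Real.exp_pos _).le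
    refine (norm_sub_le _ _).trans (add_le_add (h1.trans ?_) (h2.trans ?_)) <;> gcongr
  have f2 : ‖2 * Q * (cexp p - 1 - p)‖ ≤ 2 * ‖Q‖ * (‖p‖ ^ 2 * Real.exp (2 * s)) := by
    rw [norm_mul, norm_mul, Complex.norm_ofNat]
    gcongr
    refine h3.trans ?_
    exact mul_le_mul_of_nonneg_left (e1.trans e3) (by positivity)
  have f3 : ‖2 * Q * (p - p')‖ = 2 * ‖Q‖ * ‖p - p'‖ := by
    rw [norm_mul, norm_mul, Complex.norm_ofNat]
  have f4 := norm_add_le (cexp p * ((cexp Q - 1 - Q) - (cexp (-Q) - 1 - -Q)) +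
    2 * Q * (cexp p - 1 - p)) (2 * Q * (p - p'))
  have f5 := norm_add_le (cexp p * ((cexp Q - 1 - Q) - (cexp (-Q) - 1 - -Q)))
    (2 * Q * (cexp p - 1 - p))
  have f6 : Real.exp s * (‖Q‖ ^ 2 * Real.exp s + ‖Q‖ ^ 2 * Real.exp s) =
      2 * ‖Q‖ ^ 2 * Real.exp (2 * s) := by
    rw [← e4]; ring
  rw [f6] at f1
  linarith

lemma rho_one' {t : ℝ} (h : t ≤ 1 / 2) : rho t = 1 := za_rho_one h

lemma kap_three_pos : 0 < kap 3 := by
  rw [kap_three]; positivity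

lemma kap_three_le : kap 3 ≤ 2 := by
  rw [kap_three]
  have := Real.pi_le_four
  linarith

/-- The scalar source term for `α = 3` near the origin, factorised. -/
lemma q_near {y0 : ℝ} {n : ℕ} {z : ℂ} (hy : z.im / y0 ≤ 1 / 2) :
    -I * qfun 3 n y0 z = -(1 / 2) * (-1) ^ n * (cexp (I * ((3 * n : ℝ) : ℂ) * z) * TT z) *
      (cexp (-(I * n * z ^ 3 * log z) - 2 * n * (gfun 3 z - (ell 3 / 2 + Real.pi / 2 * Complex.I -
          Complex.I * (3 / 2) * z + Complex.I / 2 * z ^ 3 * Complex.log z))) *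
        (cexp (n * kap 3 * z ^ 3) - cexp (-(n * kap 3 * z ^ 3)))) := by
  rw [qfun_eq, rho_one' hy]
  have h3 : z ^ (((3 : ℝ)) : ℂ) = z ^ 3 := by
    rw [show (((3 : ℝ)) : ℂ) = ((3 : ℕ) : ℂ) by norm_num, Complex.cpow_natCast]
  have h4 : (-z) ^ (((3 : ℝ)) : ℂ) = -z ^ 3 := by
    rw [show (((3 : ℝ)) : ℂ) = ((3 : ℕ) : ℂ) by norm_num, Complex.cpow_natCast]
    ring
  rw [h3, h4]
  have h5 : cexp (-(2 * n * gfun 3 z) + n * ell 3) = (-1) ^ n *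
      cexp (I * ((3 * n : ℝ) : ℂ) * z) *
      cexp (-(I * n * z ^ 3 * log z) - 2 * n * (gfun 3 z - (ell 3 / 2 + Real.pi / 2 * Complex.I -
          Complex.I * (3 / 2) * z + Complex.I / 2 * z ^ 3 * Complex.log z))) := by
    have h6 : (-1 : ℂ) ^ n = cexp (-(n * (Real.pi * I))) := by
      rw [Complex.exp_neg, Complex.exp_nat_mul, Complex.exp_pi_mul_I, ← inv_pow]
      norm_num
    rw [h6, ← Complex.exp_add, ← Complex.exp_add]
    congr 1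
    push_cast
    ring
  rw [h5]
  rw [show (n : ℂ) * kap 3 * -z ^ 3 = -(n * kap 3 * z ^ 3) by ring]
  push_cast
  ring

/-- the error majorant -/
noncomputable def EM (n : ℝ) (x : ℝ) : ℝ := n * x ^ 4 + n ^ 2 * x ^ 5 + n ^ 3 * x ^ 6

lemma scalar_near (y0 : ℝ) (hy0 : 0 < y0) : ∃ r K : ℝ, 0 < r ∧ r ≤ 1 / 2 ∧ 0 ≤ K ∧
    ∀ n : ℕ, 1 ≤ n → ∀ z ∈ UH, ‖z‖ ≤ r →
      ‖-I * qfun 3 n y0 z - (M1 n z + M2 n z)‖ ≤
        K * ((n : ℝ) ^ 2 * ‖z‖ ^ 5 + (n : ℝ) ^ 3 * ‖z‖ ^ 6) * Real.exp (-(n * ‖z‖)) := by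
  obtain ⟨C, r0, hr0, hC⟩ := near_zero_three
  obtain ⟨CT, hCT0, hCT⟩ := exists_TT_bound
  set C0 : ℝ := |C| with hC0
  have hC0' : 0 ≤ C0 := abs_nonneg C
  set L : ℝ := 6 + 2 * C0 with hL
  have hLpos : 0 < L := by positivity
  refine ⟨min (min (1 / 2) r0) (min (y0 / 2) (1 / (2 * L))), CT * (4 + 4 * C0 + 2 * L ^ 2),
    by positivity, (min_le_left _ _).trans (min_le_left _ _), by positivity, ?_⟩
  intro n hn z hz hzr
  have hz1 : ‖z‖ ≤ 1 / 2 := hzr.trans ((min_le_left _ _).trans (min_le_left _ _))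
  have hz2 : ‖z‖ ≤ r0 := hzr.trans ((min_le_left _ _).trans (min_le_right _ _))
  have hz3 : ‖z‖ ≤ y0 / 2 := hzr.trans ((min_le_right _ _).trans (min_le_left _ _))
  have hz4 : ‖z‖ ≤ 1 / (2 * L) := hzr.trans ((min_le_right _ _).trans (min_le_right _ _))
  have hzpos := UH_norm_pos hz
  have hn' : (1 : ℝ) ≤ n := by exact_mod_cast hn
  have hn0 : (0 : ℝ) < n := by linarith
  have hy : z.im / y0 ≤ 1 / 2 := by
    rw [div_le_iff₀ hy0]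
    have := Complex.im_le_norm z
    linarith
  have hh := hC z hz hz2
  have hh' : ‖gfun 3 z - (ell 3 / 2 + Real.pi / 2 * Complex.I - Complex.I * (3 / 2) * z
        + Complex.I / 2 * z ^ 3 * Complex.log z)‖ ≤ C0 * ‖z‖ ^ 3 :=
    hh.trans (mul_le_mul_of_nonneg_right (le_abs_self C) (by positivity))
  rw [q_near hy]
  set h : ℂ := gfun 3 z - (ell 3 / 2 + Real.pi / 2 * Complex.I - Complex.I * (3 / 2) * z
        + Complex.I / 2 * z ^ 3 * Complex.log z) with hdef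
  set p : ℂ := -(I * n * z ^ 3 * log z) - 2 * n * h with hp
  set p' : ℂ := -(I * n * z ^ 3 * log z) with hp'
  set Q : ℂ := n * kap 3 * z ^ 3 with hQ
  set E : ℂ := cexp (I * ((3 * n : ℝ) : ℂ) * z) with hE
  have e1 : -(1 / 2) * (-1) ^ n * (E * TT z) * (cexp p * (cexp Q - cexp (-Q))) -
      (M1 n z + M2 n z) = -(1 / 2) * (-1) ^ n * (E * TT z) *
        (cexp p * (cexp Q - cexp (-Q)) - 2 * Q * (1 + p')) := by
    unfold M1 M2
    rw [← hE, hQ, hp']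
    ring
  rw [e1]
  by_cases hT : TT z = 0
  · rw [hT]
    simp only [mul_zero, zero_mul, norm_zero]
    positivity
  have hEb : ‖E‖ ≤ Real.exp (-(2 * n * ‖z‖)) := norm_exp_on_supp hz hT
  have hlog := norm_mul_log_le hzpos
  have hlog' : ‖z‖ * ‖log z‖ ≤ 6 := by nlinarith
  have hQn : ‖Q‖ ≤ 2 * n * ‖z‖ ^ 3 := by
    rw [hQ, norm_mul, norm_mul, norm_pow, Complex.norm_natCast, Complex.norm_real,
      Real.norm_eq_abs, abs_of_pos kap_three_pos]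
    have := kap_three_le
    have h3 : (0 : ℝ) ≤ ‖z‖ ^ 3 := by positivity
    calc (n : ℝ) * kap 3 * ‖z‖ ^ 3 ≤ n * 2 * ‖z‖ ^ 3 := by gcongr
      _ = _ := by ring
  have hpp' : ‖p - p'‖ ≤ 2 * n * (C0 * ‖z‖ ^ 3) := by
    have : p - p' = -(2 * n * h) := by rw [hp, hp']; ring
    rw [this, norm_neg, norm_mul, norm_mul, Complex.norm_natCast, Complex.norm_ofNat]
    gcongr
  have hp'n : ‖p'‖ ≤ n * ‖z‖ ^ 2 * 6 := by
    rw [hp', norm_neg, norm_mul, norm_mul, norm_mul, Complex.norm_I, one_mul, norm_pow,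
      Complex.norm_natCast]
    calc (n : ℝ) * ‖z‖ ^ 3 * ‖log z‖ = n * ‖z‖ ^ 2 * (‖z‖ * ‖log z‖) := by ring
      _ ≤ n * ‖z‖ ^ 2 * 6 := by gcongr
  have hpn : ‖p‖ ≤ n * ‖z‖ ^ 2 * L := by
    have h1 : ‖p‖ ≤ ‖p - p'‖ + ‖p'‖ := by
      have := norm_add_le (p - p') p'
      rwa [sub_add_cancel] at this
    have h2 : 2 * n * (C0 * ‖z‖ ^ 3) ≤ n * ‖z‖ ^ 2 * (2 * C0) := by
      have : ‖z‖ ^ 3 ≤ ‖z‖ ^ 2 := by
        apply pow_le_pow_of_le_one hzpos.le (by linarith) (by norm_num)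
      calc 2 * (n : ℝ) * (C0 * ‖z‖ ^ 3) ≤ 2 * n * (C0 * ‖z‖ ^ 2) := by gcongr
        _ = _ := by ring
    rw [hL]
    linarith
  have hs1 : ‖p‖ ≤ n * ‖z‖ / 2 := by
    refine hpn.trans ?_
    have : ‖z‖ * L ≤ 1 / 2 := by
      rw [le_div_iff₀ (by positivity)] at hz4
      linarith
    calc (n : ℝ) * ‖z‖ ^ 2 * L = n * ‖z‖ * (‖z‖ * L) := by ring
      _ ≤ n * ‖z‖ * (1 / 2) := by gcongr
      _ = _ := by ring
  have hs2 : ‖Q‖ ≤ n * ‖z‖ / 2 := by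
    refine hQn.trans ?_
    have : ‖z‖ ^ 2 ≤ 1 / 4 := by nlinarith
    calc 2 * (n : ℝ) * ‖z‖ ^ 3 = 2 * (n * ‖z‖) * ‖z‖ ^ 2 := by ring
      _ ≤ 2 * (n * ‖z‖) * (1 / 4) := by gcongr
      _ = _ := by ring
  have hsc := scal (p' := p') hs1 hs2
  rw [show 2 * ((n : ℝ) * ‖z‖ / 2) = n * ‖z‖ by ring] at hsc
  set x : ℝ := ‖z‖ with hx
  have hexp1 : 1 ≤ Real.exp (n * x) := Real.one_le_exp (by positivity)
  have hsc2 : ‖cexp p * (cexp Q - cexp (-Q)) - 2 * Q * (1 + p')‖ ≤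
      (8 * n ^ 2 * x ^ 6 + 4 * L ^ 2 * n ^ 3 * x ^ 7 + 8 * C0 * n ^ 2 * x ^ 6) *
        Real.exp (n * x) := by
    refine hsc.trans ?_
    have g1 : 2 * ‖Q‖ ^ 2 ≤ 2 * (2 * n * x ^ 3) ^ 2 := by gcongr
    have g2 : 2 * ‖Q‖ * ‖p‖ ^ 2 ≤ 2 * (2 * n * x ^ 3) * (n * x ^ 2 * L) ^ 2 := by gcongr
    have g3 : 2 * ‖Q‖ * ‖p - p'‖ ≤ 2 * (2 * n * x ^ 3) * (2 * n * (C0 * x ^ 3)) := by gcongr
    have g4 : 2 * ‖Q‖ * ‖p - p'‖ ≤ 2 * (2 * n * x ^ 3) * (2 * n * (C0 * x ^ 3)) *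
        Real.exp (n * x) := by
      refine g3.trans ?_
      exact le_mul_of_one_le_right (by positivity) hexp1
    calc _ ≤ (2 * (2 * n * x ^ 3) ^ 2 + 2 * (2 * n * x ^ 3) * (n * x ^ 2 * L) ^ 2) *
          Real.exp (n * x) + 2 * (2 * n * x ^ 3) * (2 * n * (C0 * x ^ 3)) * Real.exp (n * x) := by
          refine add_le_add ?_ g4
          exact mul_le_mul_of_nonneg_right (add_le_add g1 g2) (Real.exp_pos _).le
      _ = _ := by ring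
  have hTb := hCT z hz
  have hn1 : ‖-(1 / 2 : ℂ) * (-1) ^ n * (E * TT z)‖ = 1 / 2 * (‖E‖ * ‖TT z‖) := by
    rw [norm_mul, norm_mul, norm_mul, norm_neg, norm_pow, norm_neg, norm_one, one_pow]
    norm_num
  rw [norm_mul, hn1]
  have hexp2 : Real.exp (-(2 * n * x)) * Real.exp (n * x) = Real.exp (-(n * x)) := by
    rw [← Real.exp_add]; ring_nf
  calc 1 / 2 * (‖E‖ * ‖TT z‖) * ‖cexp p * (cexp Q - cexp (-Q)) - 2 * Q * (1 + p')‖
      ≤ 1 / 2 * (Real.exp (-(2 * n * x)) * ‖TT z‖) *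
        ((8 * n ^ 2 * x ^ 6 + 4 * L ^ 2 * n ^ 3 * x ^ 7 + 8 * C0 * n ^ 2 * x ^ 6) *
        Real.exp (n * x)) := by gcongr
    _ = (‖TT z‖ * x) * ((4 + 4 * C0) * n ^ 2 * x ^ 5 + 2 * L ^ 2 * n ^ 3 * x ^ 6) *
        (Real.exp (-(2 * n * x)) * Real.exp (n * x)) := by ring
    _ = (‖TT z‖ * x) * ((4 + 4 * C0) * n ^ 2 * x ^ 5 + 2 * L ^ 2 * n ^ 3 * x ^ 6) *
        Real.exp (-(n * x)) := by rw [hexp2]
    _ ≤ CT * ((4 + 4 * C0) * n ^ 2 * x ^ 5 + 2 * L ^ 2 * n ^ 3 * x ^ 6) *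
        Real.exp (-(n * x)) := by gcongr
    _ ≤ CT * ((4 + 4 * C0 + 2 * L ^ 2) * n ^ 2 * x ^ 5 + (4 + 4 * C0 + 2 * L ^ 2) * n ^ 3 * x ^ 6) *
        Real.exp (-(n * x)) := by
          refine mul_le_mul_of_nonneg_right (mul_le_mul_of_nonneg_left ?_ hCT0.le)
            (Real.exp_pos _).le
          have k1 : 0 ≤ L ^ 2 * (n ^ 2 * x ^ 5) := by positivity
          have k2 : 0 ≤ (4 + 4 * C0) * (n ^ 3 * x ^ 6) := by positivity
          nlinarith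
    _ = _ := by ring

lemma M1_bound {C : ℝ} (hC : ∀ z ∈ UH, ‖TT z‖ * ‖z‖ ≤ C) (n : ℕ) {z : ℂ} (hz : z ∈ UH) :
    ‖M1 n z‖ ≤ 2 * C * n * ‖z‖ ^ 2 * Real.exp (-(2 * n * ‖z‖)) := by
  have h := PK_bound hC 2 n hz
  have e : M1 n z = -((-1) ^ n * (n * kap 3)) * PK 3 n z := rfl
  have hC0 : 0 ≤ C := le_trans (by positivity) (hC z hz)
  rw [e, norm_mul, norm_neg, norm_mul, norm_pow, norm_neg, norm_one, one_pow, one_mul, norm_mul,
    Complex.norm_natCast, Complex.norm_real, Real.norm_eq_abs, abs_of_pos kap_three_pos]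
  calc (n : ℝ) * kap 3 * ‖PK 3 n z‖ ≤ n * 2 * (C * (‖z‖ ^ 2 * Real.exp (-(2 * n * ‖z‖)))) := by
        have := kap_three_le
        gcongr
    _ = _ := by ring

lemma M2_bound {C : ℝ} (hC : ∀ z ∈ UH, ‖TT z‖ * ‖z‖ ≤ C) (n : ℕ) {z : ℂ} (hz : z ∈ UH) :
    ‖M2 n z‖ ≤ 2 * C * n ^ 2 * (‖z‖ ^ 4 * (1 + 4 * ‖z‖ + ‖z‖ ^ 2)) *
      Real.exp (-(2 * n * ‖z‖)) := by
  have h := LK_bound hC n hz
  have e : M2 n z = ((-1) ^ n * (I * n ^ 2 * kap 3)) * LK n z := rfl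
  have hC0 : 0 ≤ C := le_trans (by positivity) (hC z hz)
  rw [e, norm_mul, norm_mul, norm_pow, norm_neg, norm_one, one_pow, one_mul, norm_mul, norm_mul,
    Complex.norm_I, one_mul, norm_pow,
    Complex.norm_natCast, Complex.norm_real, Real.norm_eq_abs, abs_of_pos kap_three_pos]
  calc (n : ℝ) ^ 2 * kap 3 * ‖LK n z‖ ≤
      n ^ 2 * 2 * (C * (‖z‖ ^ 4 * (1 + 4 * ‖z‖ + ‖z‖ ^ 2) * Real.exp (-(2 * n * ‖z‖)))) := by
        have := kap_three_le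
        gcongr
    _ = _ := by ring

lemma Mod_bound {C : ℝ} (hC : ∀ z ∈ UH, ‖TT z‖ * ‖z‖ ≤ C) (n : ℕ) {z : ℂ} (hz : z ∈ UH) :
    nm (Mod n z) ≤ (2 * C * n * ‖z‖ ^ 2 * (2 + ‖z‖) +
      4 * C * n ^ 2 * (‖z‖ ^ 4 * (1 + 4 * ‖z‖ + ‖z‖ ^ 2))) *
      Real.exp (-(2 * n * ‖z‖)) := by
  have h1 := M1_bound hC n hz
  have h2 := M2_bound hC n hz
  have h3 := nm_add ((M1 n z + M2 n z) • A0) ((M1 n z * z) • A1)
  rw [nm_smul, nm_smul, nm_A0, nm_A1, norm_mul, mul_one] at h3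
  have h4 := norm_add_le (M1 n z) (M2 n z)
  have h5 : ‖M1 n z‖ * ‖z‖ ≤ 2 * C * n * ‖z‖ ^ 2 * Real.exp (-(2 * n * ‖z‖)) * ‖z‖ := by gcongr
  unfold Mod
  nlinarith

lemma Mod_diff {y0 : ℝ} {n : ℕ} {z : ℂ} :
    W0 3 n y0 z - Mod n z = (-I * qfun 3 n y0 z - (M1 n z + M2 n z)) • PP z +
      ((M1 n z + M2 n z) • (PP z - A0 - z • A1) + (M2 n z * z) • A1) := by
  rw [W0_eq]
  unfold Mod
  simp only [sub_smul, smul_sub, smul_smul, add_smul, add_mul]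
  abel

lemma near_bound (y0 : ℝ) (hy0 : 0 < y0) : ∃ r K : ℝ, 0 < r ∧ r ≤ 1 / 2 ∧ 0 ≤ K ∧
    ∀ n : ℕ, 1 ≤ n → ∀ z ∈ UH, ‖z‖ ≤ r →
      nm (W0 3 n y0 z - Mod n z) ≤ K * EM n ‖z‖ * Real.exp (-(n * ‖z‖)) := by
  obtain ⟨r, K, hr, hr2, hK, hb⟩ := scalar_near y0 hy0
  obtain ⟨CT, hCT0, hCT⟩ := exists_TT_bound
  refine ⟨r, 6 * K + 180 * CT, hr, hr2, by positivity, ?_⟩
  intro n hn z hz hzr
  have hz1 : ‖z‖ ≤ 1 / 2 := hzr.trans hr2
  have hzpos := UH_norm_pos hz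
  have hn' : (1 : ℝ) ≤ n := by exact_mod_cast hn
  have h1 := hb n hn z hz hzr
  have h2 := PP_bound hz hz1
  have h3 := PP_expand hz hz1
  have h4 := M1_bound hCT n hz
  have h5 := M2_bound hCT n hz
  have h6 := norm_add_le (M1 n z) (M2 n z)
  have he : Real.exp (-(2 * n * ‖z‖)) ≤ Real.exp (-(n * ‖z‖)) := by
    apply Real.exp_le_exp.2
    nlinarith
  set x := ‖z‖ with hx
  set e := Real.exp (-(n * x)) with hedef
  have he0 : 0 < e := Real.exp_pos _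
  have h4' : ‖M1 n z‖ ≤ 2 * CT * n * x ^ 2 * e := h4.trans (by gcongr)
  have h5' : ‖M2 n z‖ ≤ 12 * CT * n ^ 2 * x ^ 4 * e := by
    refine h5.trans ?_
    have hx6 : 1 + 4 * x + x ^ 2 ≤ 6 := by nlinarith
    calc 2 * CT * n ^ 2 * (x ^ 4 * (1 + 4 * x + x ^ 2)) * Real.exp (-(2 * n * x))
        ≤ 2 * CT * n ^ 2 * (x ^ 4 * 6) * e := by gcongr
      _ = _ := by ring
  rw [Mod_diff]
  have g1 := nm_add ((-I * qfun 3 n y0 z - (M1 n z + M2 n z)) • PP z)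
      ((M1 n z + M2 n z) • (PP z - A0 - z • A1) + (M2 n z * z) • A1)
  have g2 := nm_add ((M1 n z + M2 n z) • (PP z - A0 - z • A1)) ((M2 n z * z) • A1)
  rw [nm_smul] at g1
  rw [nm_smul, nm_smul, nm_A1, mul_one, norm_mul] at g2
  have g3 : ‖-I * qfun 3 n y0 z - (M1 n z + M2 n z)‖ * nm (PP z) ≤
      K * ((n : ℝ) ^ 2 * x ^ 5 + (n : ℝ) ^ 3 * x ^ 6) * e * 6 :=
    mul_le_mul h1 h2 (nm_nonneg _) (by positivity)
  have g4 : ‖M1 n z + M2 n z‖ * nm (PP z - A0 - z • A1) ≤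
      (2 * CT * n * x ^ 2 * e + 12 * CT * n ^ 2 * x ^ 4 * e) * (12 * x ^ 2) := by
    refine mul_le_mul ?_ h3 (nm_nonneg _) (by positivity)
    linarith
  have g5 : ‖M2 n z‖ * x ≤ 12 * CT * n ^ 2 * x ^ 4 * e * x := by gcongr
  have g6 : x ^ 6 ≤ x ^ 5 := pow_le_pow_of_le_one hzpos.le (by linarith) (by norm_num)
  have g7 : (n : ℝ) ^ 2 * x ^ 6 * (CT * e) ≤ (n : ℝ) ^ 2 * x ^ 5 * (CT * e) := by gcongr
  have p1 : 0 ≤ CT * e * ((n : ℝ) * x ^ 4) := by positivity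
  have p2 : 0 ≤ CT * e * ((n : ℝ) ^ 2 * x ^ 5) := by positivity
  have p3 : 0 ≤ CT * e * ((n : ℝ) ^ 3 * x ^ 6) := by positivity
  have p4 : 0 ≤ K * e * ((n : ℝ) * x ^ 4) := by positivity
  unfold EM
  nlinarith

lemma all_bound {δ y0 c : ℝ} (hδ : 0 < δ) (hδ' : δ < 1 / 2) (hG : Geo 3 δ y0 c) :
    ∃ c1 K : ℝ, 0 < c1 ∧ 0 ≤ K ∧
    ∀ n : ℕ, 1 ≤ n → ∀ z ∈ UH,
      nm (W0 3 n y0 z - Mod n z) ≤ K * EM n ‖z‖ * Real.exp (-(c1 * n * ‖z‖)) := by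
  obtain ⟨r, K, hr, hr2, hK, hb⟩ := near_bound y0 hG.y0_pos
  obtain ⟨CT, hCT0, hCT⟩ := exists_TT_bound
  obtain ⟨c', C, hc', hW⟩ := W0_bound 3 δ y0 c (by norm_num) hδ hδ' hG
  set c1 := min c' 1 with hc1
  have hc1pos : 0 < c1 := lt_min hc' one_pos
  have hC : 0 ≤ |C| := abs_nonneg C
  refine ⟨c1, K + |C| / r ^ 2 + (4 * CT / r ^ 2 + 2 * CT / r) + (4 * CT / r + 20 * CT), hc1pos,
    by positivity, ?_⟩
  intro n hn z hz
  have hzpos := UH_norm_pos hz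
  have hn' : (1 : ℝ) ≤ n := by exact_mod_cast hn
  have hn0 : (0 : ℝ) < n := by linarith
  have hEM : 0 ≤ EM n ‖z‖ := by unfold EM; positivity
  have hexp : ∀ a : ℝ, c1 ≤ a → Real.exp (-(a * n * ‖z‖)) ≤ Real.exp (-(c1 * n * ‖z‖)) := by
    intro a ha
    apply Real.exp_le_exp.2
    have : c1 * n * ‖z‖ ≤ a * n * ‖z‖ := by gcongr
    linarith
  rcases le_total ‖z‖ r with hzr | hzr
  · refine (hb n hn z hz hzr).trans ?_
    have h1 := hexp 1 (min_le_right _ _)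
    rw [one_mul] at h1
    have h2 : K ≤ K + |C| / r ^ 2 + (4 * CT / r ^ 2 + 2 * CT / r) + (4 * CT / r + 20 * CT) := by
      have : 0 ≤ |C| / r ^ 2 + (4 * CT / r ^ 2 + 2 * CT / r) + (4 * CT / r + 20 * CT) := by
        positivity
      linarith
    gcongr
  · have hWz := (hW n hn z hz).1
    have hMz := Mod_bound hCT n hz
    have e0 : nm (W0 3 n y0 z - Mod n z) ≤ nm (W0 3 n y0 z) + nm (Mod n z) := by
      have := nm_add (W0 3 n y0 z) ((-1 : ℂ) • Mod n z)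
      rw [nm_smul, norm_neg, norm_one, one_mul, neg_one_smul, ← sub_eq_add_neg] at this
      exact this
    have h3 : ‖z‖ ^ ((3 : ℝ) - 1) = ‖z‖ ^ 2 := by
      rw [show (3 : ℝ) - 1 = ((2 : ℕ) : ℝ) by norm_num, Real.rpow_natCast]
    rw [h3] at hWz
    have hx1 := hexp c' (min_le_left _ _)
    have hx2 : Real.exp (-(2 * n * ‖z‖)) ≤ Real.exp (-(c1 * n * ‖z‖)) :=
      hexp 2 ((min_le_right _ _).trans (by norm_num))
    set x := ‖z‖ with hx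
    set e := Real.exp (-(c1 * n * x)) with hedef
    have he0 : 0 < e := Real.exp_pos _
    have hWz' : nm (W0 3 n y0 z) ≤ |C| * n * x ^ 2 * e := by
      refine hWz.trans ?_
      have := le_abs_self C
      gcongr
    have hMz' : nm (Mod n z) ≤ (2 * CT * n * x ^ 2 * (2 + x) +
      4 * CT * n ^ 2 * (x ^ 4 * (1 + 4 * x + x ^ 2))) * e := hMz.trans (by gcongr)
    have hq : 1 ≤ x / r := by rwa [one_le_div hr]
    have k1 : x ^ 2 ≤ x ^ 4 / r ^ 2 := by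
      rw [le_div_iff₀ (by positivity)]
      have : r ^ 2 ≤ x ^ 2 := by gcongr
      calc x ^ 2 * r ^ 2 ≤ x ^ 2 * x ^ 2 := by gcongr
        _ = _ := by ring
    have k2 : x ^ 3 ≤ x ^ 4 / r := by
      rw [le_div_iff₀ hr]
      calc x ^ 3 * r ≤ x ^ 3 * x := by gcongr
        _ = _ := by ring
    have k3 : x ^ 4 ≤ x ^ 5 / r := by
      rw [le_div_iff₀ hr]
      calc x ^ 4 * r ≤ x ^ 4 * x := by gcongr
        _ = _ := by ring
    have k4 : (n : ℝ) ^ 2 * x ^ 6 ≤ n ^ 3 * x ^ 6 := by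
      have : (n : ℝ) ^ 2 ≤ n ^ 3 := pow_le_pow_right₀ hn' (by norm_num)
      gcongr
    have m1 : |C| * n * x ^ 2 * e ≤ |C| / r ^ 2 * (n * x ^ 4) * e := by
      calc |C| * n * x ^ 2 * e ≤ |C| * n * (x ^ 4 / r ^ 2) * e := by gcongr
        _ = _ := by ring
    have m2 : 2 * CT * n * x ^ 2 * (2 + x) * e ≤ (4 * CT / r ^ 2 + 2 * CT / r) * (n * x ^ 4) * e := by
      calc 2 * CT * n * x ^ 2 * (2 + x) * e = (4 * CT * n * x ^ 2 + 2 * CT * n * x ^ 3) * e := by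
            ring
        _ ≤ (4 * CT * n * (x ^ 4 / r ^ 2) + 2 * CT * n * (x ^ 4 / r)) * e := by gcongr
        _ = _ := by ring
    have m3 : 4 * CT * n ^ 2 * (x ^ 4 * (1 + 4 * x + x ^ 2)) * e ≤
        ((4 * CT / r + 16 * CT) * (n ^ 2 * x ^ 5) + 4 * CT * (n ^ 3 * x ^ 6)) * e := by
      calc 4 * CT * n ^ 2 * (x ^ 4 * (1 + 4 * x + x ^ 2)) * e =
            (4 * CT * n ^ 2 * x ^ 4 + 16 * CT * (n ^ 2 * x ^ 5) + 4 * CT * (n ^ 2 * x ^ 6)) * e := by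
            ring
        _ ≤ (4 * CT * n ^ 2 * (x ^ 5 / r) + 16 * CT * (n ^ 2 * x ^ 5) +
            4 * CT * (n ^ 3 * x ^ 6)) * e := by gcongr
        _ = _ := by ring
    have q1 : (n : ℝ) * x ^ 4 ≤ EM n x := by
      unfold EM
      have : 0 ≤ (n : ℝ) ^ 2 * x ^ 5 + n ^ 3 * x ^ 6 := by positivity
      linarith
    have m4 : (4 * CT / r + 16 * CT) * (n ^ 2 * x ^ 5) + 4 * CT * (n ^ 3 * x ^ 6) ≤
        (4 * CT / r + 20 * CT) * EM n x := by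
      unfold EM
      have t1 : 0 ≤ (4 * CT / r + 20 * CT) * (n * x ^ 4) := by positivity
      have t2 : 0 ≤ 4 * CT * ((n : ℝ) ^ 2 * x ^ 5) := by positivity
      have t3 : 0 ≤ (4 * CT / r + 16 * CT) * ((n : ℝ) ^ 3 * x ^ 6) := by positivity
      nlinarith
    have m5 : |C| / r ^ 2 * (n * x ^ 4) * e ≤ |C| / r ^ 2 * EM n x * e := by gcongr
    have m6 : (4 * CT / r ^ 2 + 2 * CT / r) * (n * x ^ 4) * e ≤
        (4 * CT / r ^ 2 + 2 * CT / r) * EM n x * e := by gcongr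
    have m7 := mul_le_mul_of_nonneg_right m4 he0.le
    have m8 : 0 ≤ K * EM n x * e := by positivity
    have m9 : (2 * CT * n * x ^ 2 * (2 + x) +
      4 * CT * n ^ 2 * (x ^ 4 * (1 + 4 * x + x ^ 2))) * e = 2 * CT * n * x ^ 2 * (2 + x) * e +
      4 * CT * n ^ 2 * (x ^ 4 * (1 + 4 * x + x ^ 2)) * e := by ring
    have m10 : (K + |C| / r ^ 2 + (4 * CT / r ^ 2 + 2 * CT / r) + (4 * CT / r + 20 * CT)) *
        EM n x * e = K * EM n x * e + |C| / r ^ 2 * EM n x * e +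
        (4 * CT / r ^ 2 + 2 * CT / r) * EM n x * e + (4 * CT / r + 20 * CT) * EM n x * e := by
      ring
    rw [m10]
    linarith

end Pool.Agent.Freud.ZT
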