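import Pool.Agent.Freud.ZeroW

/-!
The model of the source term at the origin for `α = 3` and its integrals.
-/

set_option autoImplicit false

open MeasureTheory Filter Topology Set Complex Pointwise

namespace Pool.Agent.Freud.ZT

lemma kap_three : kap 3 = Real.pi / 2 := by
  unfold kap
  have h1 : (3 / 2 : ℝ) = 1 / 2 + 1 := by norm_num
  rw [h1, Real.Gamma_add_one (by norm_num), Real.Gamma_one_half_eq,
    show ((3 : ℝ) + 1) / 2 = 2 by norm_num, Real.Gamma_two]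
  have := Real.mul_self_sqrt Real.pi_pos.le
  linarith

lemma bco_three : bco 3 = -(1 / 27) := by
  unfold bco
  have hs : Real.sin (Real.pi * 3 / 2) = -1 := by
    rw [show Real.pi * 3 / 2 = Real.pi / 2 + Real.pi by ring, Real.sin_add_pi,
      Real.sin_pi_div_two]
  have hG : Real.Gamma ((3 : ℝ) + 1) = 6 := by
    have := Real.Gamma_nat_eq_factorial 3
    rw [show ((3 : ℕ) : ℝ) + 1 = (3 : ℝ) + 1 by norm_num] at this
    rw [this]
    norm_num [Nat.factorial]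
  have hp : ((3 - 1) / (2 * 3) : ℝ) ^ ((3 : ℝ) + 1) = 1 / 81 := by
    rw [show (3 : ℝ) + 1 = ((4 : ℕ) : ℝ) by norm_num, Real.rpow_natCast]
    norm_num
  rw [kap_three, hs, hG, hp]
  have := Real.pi_ne_zero
  field_simp
  norm_num

lemma norm_log_le (z : ℂ) : ‖log z‖ ≤ |Real.log ‖z‖| + Real.pi := by
  unfold Complex.log
  refine (norm_add_le _ _).trans ?_
  rw [norm_mul, Complex.norm_I, mul_one, Complex.norm_real, Complex.norm_real, Real.norm_eq_abs,
    Real.norm_eq_abs]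
  exact add_le_add le_rfl (Complex.abs_arg_le_pi z)

lemma mul_abs_log_le {x : ℝ} (hx : 0 < x) : x * |Real.log x| ≤ 1 + x ^ 2 := by
  rcases le_total x 1 with h | h
  · have := Real.abs_log_mul_self_lt x hx h
    rw [abs_mul, abs_of_pos hx] at this
    nlinarith [sq_nonneg x]
  · rw [abs_of_nonneg (Real.log_nonneg h)]
    have := Real.log_le_sub_one_of_pos hx
    nlinarith

lemma norm_mul_log_le {z : ℂ} (hz : 0 < ‖z‖) : ‖z‖ * ‖log z‖ ≤ 1 + 4 * ‖z‖ + ‖z‖ ^ 2 := by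
  have h1 := norm_log_le z
  have h2 := mul_abs_log_le hz
  have h3 : ‖z‖ * ‖log z‖ ≤ ‖z‖ * (|Real.log ‖z‖| + Real.pi) :=
    mul_le_mul_of_nonneg_left h1 hz.le
  have h4 := Real.pi_le_four
  nlinarith

/-- The leading scalar model. -/
noncomputable def M1 (n : ℕ) (z : ℂ) : ℂ :=
  -((-1) ^ n * (n * kap 3)) * (z ^ 3 * TT z * cexp (I * ((3 * n : ℝ) : ℂ) * z))

/-- The logarithmic correction. -/
noncomputable def M2 (n : ℕ) (z : ℂ) : ℂ :=
  ((-1) ^ n * (I * n ^ 2 * kap 3)) * (z ^ 6 * log z * TT z * cexp (I * ((3 * n : ℝ) : ℂ) * z))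

/-- The matrix model. -/
noncomputable def Mod (n : ℕ) (z : ℂ) : Mat2 :=
  (M1 n z + M2 n z) • A0 + (M1 n z * z) • A1

/-- the exponential is small on the support of `TT` -/
lemma norm_exp_on_supp {n : ℕ} {z : ℂ} (hz : z ∈ UH) (h : TT z ≠ 0) :
    ‖cexp (I * ((3 * n : ℝ) : ℂ) * z)‖ ≤ Real.exp (-(2 * n * ‖z‖)) := by
  rw [Complex.norm_exp]
  apply Real.exp_le_exp.2
  have h1 := im_ge_of_TT hz h
  have h2 : (I * ((3 * n : ℝ) : ℂ) * z).re = -(3 * n * z.im) := by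
    rw [mul_assoc, Complex.I_mul_re, Complex.im_ofReal_mul]
  rw [h2]
  have hn : (0 : ℝ) ≤ n := Nat.cast_nonneg n
  nlinarith

lemma continuousOn_log_UH : ContinuousOn log UH :=
  fun _ hz => (continuousAt_clog (UH_slit hz)).continuousWithinAt

/-- the model kernel with the logarithm -/
noncomputable def LK (n : ℕ) (z : ℂ) : ℂ :=
  z ^ 6 * log z * TT z * cexp (I * ((3 * n : ℝ) : ℂ) * z)

/-- the model kernel with a power -/
noncomputable def PK (m n : ℕ) (z : ℂ) : ℂ :=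
  z ^ m * TT z * cexp (I * ((3 * n : ℝ) : ℂ) * z)

lemma PK_continuousOn (m n : ℕ) : ContinuousOn (PK m n) UH := by
  unfold PK
  exact ((continuousOn_id.pow m).mul TT_continuousOn).mul (by fun_prop)

lemma LK_continuousOn (n : ℕ) : ContinuousOn (LK n) UH := by
  unfold LK
  exact (((continuousOn_id.pow 6).mul continuousOn_log_UH).mul TT_continuousOn).mul (by fun_prop)

/-- the integrable majorant -/
noncomputable def Maj (q n c : ℝ) (z : ℂ) : ℝ := ‖z‖ ^ q * Real.exp (-(c * n) * ‖z‖)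

lemma Maj_integrable {q n c : ℝ} (hq : -2 < q) (hn : 0 < n) (hc : 0 < c) :
    Integrable (Maj q n c) := by
  unfold Maj
  exact integrable_norm_exp hq (by positivity)

lemma Maj_nonneg (q n c : ℝ) (z : ℂ) : 0 ≤ Maj q n c z := by
  unfold Maj; positivity

lemma Maj_integral_le {q n c : ℝ} (hq : -2 < q) (hn : 0 < n) (hc : 0 < c) :
    ∫ z in UH, Maj q n c z ≤ 2 * Real.pi * c ^ (-(q + 2)) * Real.Gamma (q + 2) *
      n ^ (-(q + 2)) := by
  have h1 : ∫ z in UH, Maj q n c z ≤ ∫ z, Maj q n c z :=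
    setIntegral_le_integral (Maj_integrable hq hn hc)
      (Filter.Eventually.of_forall fun z => Maj_nonneg q n c z)
  refine h1.trans (le_of_eq ?_)
  unfold Maj
  rw [integral_norm_exp hq (by positivity), Real.mul_rpow hc.le hn.le]
  ring

lemma PK_bound {C : ℝ} (hC : ∀ z ∈ UH, ‖TT z‖ * ‖z‖ ≤ C) (m n : ℕ) {z : ℂ} (hz : z ∈ UH) :
    ‖PK (m + 1) n z‖ ≤ C * (‖z‖ ^ m * Real.exp (-(2 * n * ‖z‖))) := by
  have hC0 : 0 ≤ C := le_trans (by positivity) (hC z hz)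
  by_cases h : TT z = 0
  · unfold PK
    rw [h]
    simp only [mul_zero, zero_mul, norm_zero]
    positivity
  · unfold PK
    rw [norm_mul, norm_mul, norm_pow]
    have h1 := norm_exp_on_supp (n := n) hz h
    have h2 := hC z hz
    calc ‖z‖ ^ (m + 1) * ‖TT z‖ * ‖cexp (I * ((3 * n : ℝ) : ℂ) * z)‖
        = (‖TT z‖ * ‖z‖) * (‖z‖ ^ m * ‖cexp (I * ((3 * n : ℝ) : ℂ) * z)‖) := by ring
      _ ≤ C * (‖z‖ ^ m * Real.exp (-(2 * n * ‖z‖))) := by gcongr

lemma UH_norm_pos {z : ℂ} (hz : z ∈ UH) : 0 < ‖z‖ := by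
  rw [norm_pos_iff]
  rintro rfl
  have : (0 : ℝ) < (0 : ℂ).im := hz
  simp at this

lemma LK_bound {C : ℝ} (hC : ∀ z ∈ UH, ‖TT z‖ * ‖z‖ ≤ C) (n : ℕ) {z : ℂ} (hz : z ∈ UH) :
    ‖LK n z‖ ≤ C * (‖z‖ ^ 4 * (1 + 4 * ‖z‖ + ‖z‖ ^ 2) * Real.exp (-(2 * n * ‖z‖))) := by
  have e : LK n z = log z * PK 6 n z := by
    unfold LK PK; ring
  rw [e, norm_mul]
  have h1 := PK_bound hC 5 n hz
  have h2 := norm_mul_log_le (UH_norm_pos hz)
  have hC0 : 0 ≤ C := le_trans (by positivity) (hC z hz)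
  calc ‖log z‖ * ‖PK 6 n z‖ ≤ ‖log z‖ * (C * (‖z‖ ^ 5 * Real.exp (-(2 * n * ‖z‖)))) := by gcongr
    _ = (‖z‖ * ‖log z‖) * (C * (‖z‖ ^ 4 * Real.exp (-(2 * n * ‖z‖)))) := by ring
    _ ≤ (1 + 4 * ‖z‖ + ‖z‖ ^ 2) * (C * (‖z‖ ^ 4 * Real.exp (-(2 * n * ‖z‖)))) := by gcongr
    _ = _ := by ring

lemma PK_integrable (m : ℕ) {n : ℕ} (hn : 1 ≤ n) : IntegrableOn (PK (m + 1) n) UH := by
  obtain ⟨C, hC0, hC⟩ := exists_TT_bound
  have hn' : (0 : ℝ) < n := by exact_mod_cast hn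
  refine Integrable.mono' (g := fun z => C * Maj m n 2 z) ?_ ?_ ?_
  · exact ((Maj_integrable (by
      have : (0 : ℝ) ≤ m := Nat.cast_nonneg m
      linarith) hn' two_pos).const_mul C).integrableOn
  · exact (PK_continuousOn (m + 1) n).aestronglyMeasurable measurableSet_UH
  · refine (ae_restrict_mem measurableSet_UH).mono fun z hz => ?_
    refine (PK_bound hC m n hz).trans (le_of_eq ?_)
    unfold Maj
    rw [Real.rpow_natCast]
    ring_nf

lemma LK_integrable {n : ℕ} (hn : 1 ≤ n) : IntegrableOn (LK n) UH := by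
  obtain ⟨C, hC0, hC⟩ := exists_TT_bound
  have hn' : (0 : ℝ) < n := by exact_mod_cast hn
  refine Integrable.mono' (g := fun z => C * (Maj 4 n 2 z + 4 * Maj 5 n 2 z + Maj 6 n 2 z)) ?_ ?_ ?_
  · exact ((((Maj_integrable (by norm_num) hn' two_pos).add
      ((Maj_integrable (by norm_num) hn' two_pos).const_mul 4)).add
      (Maj_integrable (by norm_num) hn' two_pos)).const_mul C).integrableOn
  · exact (LK_continuousOn n).aestronglyMeasurable measurableSet_UH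
  · refine (ae_restrict_mem measurableSet_UH).mono fun z hz => ?_
    refine (LK_bound hC n hz).trans (le_of_eq ?_)
    unfold Maj
    rw [show (4 : ℝ) = ((4 : ℕ) : ℝ) by norm_num, show (5 : ℝ) = ((5 : ℕ) : ℝ) by norm_num,
      show (6 : ℝ) = ((6 : ℕ) : ℝ) by norm_num, Real.rpow_natCast, Real.rpow_natCast,
      Real.rpow_natCast]
    push_cast
    ring_nf

lemma PK_integral (m : ℕ) {n : ℕ} (hn : 1 ≤ n) :
    ∫ z in UH, PK m n z = m.factorial * (I / ((3 * n : ℝ) : ℂ)) ^ (m + 1) := by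
  have hn' : (0 : ℝ) < 3 * n := by
    have : (0 : ℝ) < n := by exact_mod_cast hn
    positivity
  exact cone_integral m hn'

lemma smul_UH {t : ℝ} (ht : 0 < t) : t • UH = UH := by
  ext z
  rw [Set.mem_smul_set_iff_inv_smul_mem₀ ht.ne']
  show 0 < (t⁻¹ • z).im ↔ 0 < z.im
  rw [Complex.smul_im, smul_eq_mul]
  constructor
  · intro h
    exact (mul_pos_iff_of_pos_left (inv_pos.2 ht)).1 h
  · intro h
    positivity

lemma LK_scale {n : ℕ} (hn : 1 ≤ n) (z : ℂ) :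
    LK 1 ((n : ℝ) • z) = (n : ℂ) ^ 5 * (LK n z + Real.log n * PK 6 n z) := by
  have hn' : (0 : ℝ) < n := by exact_mod_cast hn
  have hn0 : (n : ℂ) ≠ 0 := by exact_mod_cast hn'.ne'
  unfold LK PK
  rw [Complex.real_smul]
  by_cases hz : z = 0
  · subst hz
    simp
  rw [TT_smul hn', Complex.log_ofReal_mul hn' hz]
  push_cast
  rw [show I * (3 * 1) * ((n : ℂ) * z) = I * (3 * n) * z by ring]
  field_simp
  ring

lemma LK_integral {n : ℕ} (hn : 1 ≤ n) :
    ∫ z in UH, LK n z = (n : ℂ)⁻¹ ^ 7 * ((∫ z in UH, LK 1 z) + 80 / 243 * I * Real.log n) := by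
  have hn' : (0 : ℝ) < n := by exact_mod_cast hn
  have hn0 : (n : ℂ) ≠ 0 := by exact_mod_cast hn'.ne'
  have h1 := Measure.setIntegral_comp_smul_of_pos (volume : Measure ℂ) (LK 1) UH hn'
  rw [smul_UH hn', Complex.finrank_real_complex] at h1
  have h2 : ∫ z in UH, LK 1 ((n : ℝ) • z) =
      (n : ℂ) ^ 5 * ((∫ z in UH, LK n z) + Real.log n * ∫ z in UH, PK 6 n z) := by
    rw [← integral_const_mul, ← integral_add (LK_integrable hn)
      ((PK_integrable 5 hn).const_mul _), ← integral_const_mul]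
    exact setIntegral_congr_fun measurableSet_UH fun z _ => LK_scale hn z
  rw [h2, PK_integral 6 hn] at h1
  have h3 : ((6 : ℕ).factorial : ℂ) * (I / ((3 * n : ℝ) : ℂ)) ^ (6 + 1) =
      -(80 / 243 * I) * (n : ℂ)⁻¹ ^ 7 := by
    have hI : I ^ 7 = -I := by
      rw [show I ^ 7 = (I ^ 2) ^ 3 * I by ring, Complex.I_sq]
      ring
    rw [div_pow, hI]
    push_cast [Nat.factorial]
    field_simp
    norm_num
  rw [h3] at h1
  have h4 : ((((n : ℝ) ^ 2)⁻¹ : ℝ) • ∫ z in UH, LK 1 z) = (n : ℂ)⁻¹ ^ 2 * ∫ z in UH, LK 1 z := by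
    rw [Complex.real_smul]
    push_cast
    rw [inv_pow]
  rw [h4] at h1
  have h5 : (∫ z in UH, LK n z) = (n : ℂ)⁻¹ ^ 5 * ((n : ℂ)⁻¹ ^ 2 * ∫ z in UH, LK 1 z) -
      Real.log n * (-(80 / 243 * I) * (n : ℂ)⁻¹ ^ 7) := by
    rw [← h1]
    field_simp
    ring
  rw [h5]
  ring

end Pool.Agent.Freud.ZT
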