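import Pool.Agent.Freud.Defs2

/-!
Tools for the contribution of the origin: the homogeneous kernel `TT`, polar coordinates.
-/

set_option autoImplicit false

open MeasureTheory Filter Topology Set Complex

namespace Pool.Agent.Freud.ZT

lemma isOpen_UH : IsOpen UH := isOpen_lt continuous_const Complex.continuous_im

lemma measurableSet_UH : MeasurableSet UH := isOpen_UH.measurableSet

/-! ### the cut-off tau -/

lemma tau_contDiff {m : WithTop ℕ∞} (hm : m ≤ ((⊤ : ℕ∞) : WithTop ℕ∞)) : ContDiff ℝ m tau := by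
  unfold tau
  exact (Real.smoothTransition.contDiff.of_le hm).comp
    ((contDiff_id.add contDiff_const).div_const 2)

lemma tau_zero {t : ℝ} (ht : t ≤ -1) : tau t = 0 :=
  Real.smoothTransition.zero_of_nonpos (by linarith)

lemma tau_one {t : ℝ} (ht : 1 ≤ t) : tau t = 1 :=
  Real.smoothTransition.one_of_one_le (by linarith)

lemma tau_nonneg (t : ℝ) : 0 ≤ tau t := Real.smoothTransition.nonneg _

lemma tau_le_one (t : ℝ) : tau t ≤ 1 := Real.smoothTransition.le_one _

lemma tau_hasDerivAt (t : ℝ) : HasDerivAt tau (deriv tau t) t :=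
  ((tau_contDiff (m := 1) (by exact_mod_cast le_top)).differentiable one_ne_zero t).hasDerivAt

lemma deriv_tau_continuous : Continuous (deriv tau) :=
  (tau_contDiff (m := 1) (by exact_mod_cast le_top)).continuous_deriv le_rfl

lemma deriv_tau_zero {t : ℝ} (ht : 1 ≤ |t|) : deriv tau t = 0 := by
  rcases le_or_gt t 0 with h | h
  · have ht' : t ≤ -1 := by rw [abs_of_nonpos h] at ht; linarith
    have hmin : IsLocalMin tau t := by
      refine Eventually.of_forall fun s => ?_
      rw [tau_zero ht']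
      exact tau_nonneg s
    exact hmin.deriv_eq_zero
  · have ht' : 1 ≤ t := by rwa [abs_of_pos h] at ht
    have hmax : IsLocalMax tau t := by
      refine Eventually.of_forall fun s => ?_
      rw [tau_one ht']
      exact tau_le_one s
    exact hmax.deriv_eq_zero

lemma exists_deriv_tau_le : ∃ C : ℝ, 0 < C ∧ ∀ t, |deriv tau t| ≤ C := by
  obtain ⟨C, hC⟩ := (isCompact_Icc (a := (-1 : ℝ)) (b := 1)).exists_bound_of_continuousOn
    deriv_tau_continuous.continuousOn
  refine ⟨max C 1, by positivity, fun t => ?_⟩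
  by_cases ht : 1 ≤ |t|
  · rw [deriv_tau_zero ht, abs_zero]
    positivity
  · push Not at ht
    have := abs_lt.1 ht
    exact (hC t ⟨this.1.le, this.2.le⟩).trans (le_max_left _ _)

/-! ### the homogeneous kernel -/

/-- `T(z) = τ'(x/y) z / y²`, homogeneous of degree `-1`. -/
noncomputable def TT (z : ℂ) : ℂ := ((deriv tau (z.re / z.im) : ℝ) : ℂ) * z / (z.im : ℂ) ^ 2

lemma TT_eq_zero {z : ℂ} (hz : z ∈ UH) (h : z.im ≤ |z.re|) : TT z = 0 := by
  unfold TT
  rw [deriv_tau_zero, Complex.ofReal_zero, zero_mul, zero_div]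
  have hz' : 0 < z.im := hz
  rw [abs_div, abs_of_pos hz', le_div_iff₀ hz', one_mul]
  exact h

/-- On the support of `T` we have `|z|² ≤ 2 y²`. -/
lemma norm_sq_le_of_TT {z : ℂ} (hz : z ∈ UH) (h : TT z ≠ 0) : ‖z‖ ^ 2 ≤ 2 * z.im ^ 2 := by
  have h1 : |z.re| < z.im := by
    by_contra h'
    push Not at h'
    exact h (TT_eq_zero hz h')
  have h2 : z.re ^ 2 ≤ z.im ^ 2 := by
    rw [← sq_abs z.re]
    exact pow_le_pow_left₀ (abs_nonneg _) h1.le 2
  have h3 : ‖z‖ ^ 2 = z.re ^ 2 + z.im ^ 2 := by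
    rw [← Complex.normSq_eq_norm_sq, Complex.normSq_apply]
    ring
  linarith

lemma exists_TT_bound : ∃ C : ℝ, 0 < C ∧ ∀ z ∈ UH, ‖TT z‖ * ‖z‖ ≤ C := by
  obtain ⟨C, hC, h⟩ := exists_deriv_tau_le
  refine ⟨2 * C, by positivity, fun z hz => ?_⟩
  by_cases h0 : TT z = 0
  · rw [h0, norm_zero, zero_mul]
    positivity
  · have hz' : 0 < z.im := hz
    have h1 := norm_sq_le_of_TT hz h0
    unfold TT
    rw [norm_div, norm_mul, Complex.norm_real, Real.norm_eq_abs, norm_pow, Complex.norm_real,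
      Real.norm_eq_abs, sq_abs, div_mul_eq_mul_div, div_le_iff₀ (by positivity)]
    have h2 := h (z.re / z.im)
    calc |deriv tau (z.re / z.im)| * ‖z‖ * ‖z‖ = |deriv tau (z.re / z.im)| * ‖z‖ ^ 2 := by ring
      _ ≤ C * (2 * z.im ^ 2) := mul_le_mul h2 h1 (by positivity) hC.le
      _ = 2 * C * z.im ^ 2 := by ring

/-- on the support of `T`, `|exp (3 i n z)| ≤ exp (-2 n |z|)`. -/
lemma im_ge_of_TT {z : ℂ} (hz : z ∈ UH) (h : TT z ≠ 0) : 2 * ‖z‖ ≤ 3 * z.im := by
  have h1 := norm_sq_le_of_TT hz h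
  have hz' : 0 < z.im := hz
  nlinarith [norm_nonneg z, sq_nonneg (2 * ‖z‖ - 3 * z.im)]

lemma TT_smul {z : ℂ} {t : ℝ} (ht : 0 < t) : TT (t * z) = TT z / t := by
  unfold TT
  have h1 : (t * z : ℂ).re = t * z.re := by simp
  have h2 : (t * z : ℂ).im = t * z.im := by simp
  rw [h1, h2, mul_div_mul_left _ _ ht.ne']
  have ht' : (t : ℂ) ≠ 0 := by exact_mod_cast ht.ne'
  push_cast
  by_cases hy : (z.im : ℂ) = 0
  · rw [hy]; simp
  · field_simp

lemma TT_continuousOn : ContinuousOn TT UH := by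
  unfold TT
  refine ContinuousOn.div ?_ ?_ ?_
  · refine ContinuousOn.mul ?_ continuousOn_id
    refine Complex.continuous_ofReal.comp_continuousOn ?_
    refine deriv_tau_continuous.comp_continuousOn ?_
    exact Complex.continuous_re.continuousOn.div Complex.continuous_im.continuousOn
      fun z hz => (show 0 < z.im from hz).ne'
  · exact (Complex.continuous_ofReal.comp Complex.continuous_im).continuousOn.pow 2
  · intro z hz
    have : (z.im : ℂ) ≠ 0 := by exact_mod_cast (show 0 < z.im from hz).ne'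
    exact pow_ne_zero 2 this

/-! ### polar coordinates on the upper half plane -/

lemma integral_UH_polar (F : ℂ → ℂ) :
    ∫ z in UH, F z = ∫ p in Ioi (0 : ℝ) ×ˢ Ioo 0 Real.pi,
      (p.1 : ℂ) * F (p.1 * (Real.cos p.2 + Real.sin p.2 * I)) := by
  rw [← integral_indicator measurableSet_UH, ← Complex.integral_comp_polarCoord_symm,
    polarCoord_target]
  have hsub : Ioi (0 : ℝ) ×ˢ Ioo 0 Real.pi ⊆ Ioi (0 : ℝ) ×ˢ Ioo (-Real.pi) Real.pi :=
    Set.prod_mono subset_rfl (Ioo_subset_Ioo_left (by linarith [Real.pi_pos]))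
  rw [setIntegral_eq_of_subset_of_forall_sdiff_eq_zero
    (measurableSet_Ioi.prod measurableSet_Ioo) hsub]
  · refine setIntegral_congr_fun (measurableSet_Ioi.prod measurableSet_Ioo) fun p hp => ?_
    have h1 : 0 < p.1 := hp.1
    have h2 : 0 < Real.sin p.2 := Real.sin_pos_of_pos_of_lt_pi hp.2.1 hp.2.2
    have hmem : (p.1 : ℂ) * (Real.cos p.2 + Real.sin p.2 * I) ∈ UH := by
      show 0 < ((p.1 : ℂ) * (Real.cos p.2 + Real.sin p.2 * I)).im
      simp only [Complex.mul_im, Complex.ofReal_re, Complex.ofReal_im, Complex.add_im,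
        Complex.mul_re, Complex.I_re, Complex.I_im, Complex.add_re]
      have := mul_pos h1 h2
      nlinarith
    simp only [Complex.polarCoord_symm_apply]
    rw [Set.indicator_of_mem hmem, Complex.real_smul]
  · rintro p ⟨hp, hp'⟩
    have h1 : 0 < p.1 := hp.1
    have h2 : p.2 ≤ 0 := by
      by_contra h
      push Not at h
      exact hp' ⟨h1, h, hp.2.2⟩
    have h3 : Real.sin p.2 ≤ 0 := Real.sin_nonpos_of_nonpos_of_neg_pi_le h2 hp.2.1.le
    have hmem : (p.1 : ℂ) * (Real.cos p.2 + Real.sin p.2 * I) ∉ UH := by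
      intro h
      have h4 : 0 < ((p.1 : ℂ) * (Real.cos p.2 + Real.sin p.2 * I)).im := h
      simp only [Complex.mul_im, Complex.ofReal_re, Complex.ofReal_im, Complex.add_im,
        Complex.mul_re, Complex.I_re, Complex.I_im, Complex.add_re] at h4
      have := mul_nonneg h1.le (neg_nonneg.2 h3)
      nlinarith
    simp only [Complex.polarCoord_symm_apply]
    rw [Set.indicator_of_notMem hmem, smul_zero]

/-! ### the radial integral -/

lemma integrableOn_pow_exp (m : ℕ) {b : ℝ} (hb : 0 < b) :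
    IntegrableOn (fun r : ℝ => r ^ m * Real.exp (-b * r)) (Ioi 0) := by
  have h := integrableOn_rpow_mul_exp_neg_mul_rpow (s := m) (p := 1)
    (by have : (0 : ℝ) ≤ m := Nat.cast_nonneg m
        linarith) one_pos hb
  refine h.congr_fun (fun r _ => ?_) measurableSet_Ioi
  simp only [Real.rpow_one, Real.rpow_natCast]

lemma integrableOn_pow_cexp (m : ℕ) {ρ : ℂ} (hρ : 0 < ρ.re) :
    IntegrableOn (fun r : ℝ => (r : ℂ) ^ m * cexp (-ρ * r)) (Ioi 0) := by
  refine Integrable.mono' (integrableOn_pow_exp m hρ) ?_ ?_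
  · exact Continuous.aestronglyMeasurable (by fun_prop)
  · refine (ae_restrict_mem measurableSet_Ioi).mono fun r hr => ?_
    have hr' : (0 : ℝ) < r := hr
    rw [norm_mul, norm_pow, Complex.norm_real, Real.norm_eq_abs, abs_of_pos hr', Complex.norm_exp]
    simp

lemma integral_pow_cexp (m : ℕ) {ρ : ℂ} (hρ : 0 < ρ.re) :
    ∫ r in Ioi (0 : ℝ), (r : ℂ) ^ m * cexp (-ρ * r) = m.factorial / ρ ^ (m + 1) := by
  have hρ0 : ρ ≠ 0 := by
    rintro rfl
    simp at hρ
  have hlim : ∀ k : ℕ, Tendsto (fun r : ℝ => (r : ℂ) ^ k * cexp (-ρ * r)) atTop (𝓝 0) := by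
    intro k
    rw [tendsto_zero_iff_norm_tendsto_zero]
    have h := Real.tendsto_pow_mul_exp_neg_atTop_nhds_zero k
    have h2 : Tendsto (fun r : ℝ => (ρ.re * r) ^ k * Real.exp (-(ρ.re * r))) atTop (𝓝 0) :=
      h.comp (tendsto_id.const_mul_atTop hρ)
    have h3 := h2.const_mul ((ρ.re ^ k)⁻¹)
    rw [mul_zero] at h3
    refine h3.congr' ?_
    filter_upwards [eventually_gt_atTop 0] with r hr
    rw [norm_mul, norm_pow, Complex.norm_real, Real.norm_eq_abs, abs_of_pos hr, Complex.norm_exp]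
    have : (-ρ * (r : ℂ)).re = -(ρ.re * r) := by simp
    rw [this, mul_pow]
    have : ρ.re ^ k ≠ 0 := pow_ne_zero k hρ.ne'
    field_simp
  induction m with
  | zero =>
    have hd : ∀ r ∈ Ici (0 : ℝ), HasDerivAt (fun r : ℝ => -(cexp (-ρ * r)) / ρ)
        ((r : ℂ) ^ 0 * cexp (-ρ * r)) r := by
      intro r _
      have h1 : HasDerivAt (fun r : ℝ => cexp (-ρ * r)) (cexp (-ρ * r) * (-ρ * 1)) r :=
        ((Complex.ofRealCLM.hasDerivAt (x := r)).const_mul (-ρ)).cexp
      have h2 := (h1.neg.div_const ρ)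
      refine h2.congr_deriv ?_
      field_simp
    have hl : Tendsto (fun r : ℝ => -(cexp (-ρ * r)) / ρ) atTop (𝓝 0) := by
      have := (hlim 0).neg.div_const ρ
      simpa using this
    rw [integral_Ioi_of_hasDerivAt_of_tendsto' hd (integrableOn_pow_cexp 0 hρ) hl]
    simp
    ring
  | succ m ih =>
    have hd : ∀ r ∈ Ici (0 : ℝ), HasDerivAt (fun r : ℝ => -((r : ℂ) ^ (m + 1) * cexp (-ρ * r)) / ρ)
        ((r : ℂ) ^ (m + 1) * cexp (-ρ * r) - (m + 1 : ℂ) / ρ * ((r : ℂ) ^ m * cexp (-ρ * r))) r := by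
      intro r _
      have h1 : HasDerivAt (fun r : ℝ => cexp (-ρ * r)) (cexp (-ρ * r) * (-ρ * 1)) r :=
        ((Complex.ofRealCLM.hasDerivAt (x := r)).const_mul (-ρ)).cexp
      have h0 : HasDerivAt (fun r : ℝ => (r : ℂ) ^ (m + 1))
          (((m + 1 : ℕ) : ℂ) * (r : ℂ) ^ m * 1) r :=
        (Complex.ofRealCLM.hasDerivAt (x := r)).pow (m + 1)
      have h2 := ((h0.mul h1).neg.div_const ρ)
      refine h2.congr_deriv ?_
      push_cast
      field_simp
      ring
    have hl : Tendsto (fun r : ℝ => -((r : ℂ) ^ (m + 1) * cexp (-ρ * r)) / ρ) atTop (𝓝 0) := by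
      have := (hlim (m + 1)).neg.div_const ρ
      simpa using this
    have i1 := integrableOn_pow_cexp (m + 1) hρ
    have i2 := (integrableOn_pow_cexp m hρ).const_mul ((m + 1 : ℂ) / ρ)
    have h := integral_Ioi_of_hasDerivAt_of_tendsto' hd (i1.sub i2) hl
    rw [integral_sub i1 i2, integral_const_mul, ih] at h
    have h0 : -(((0 : ℝ) : ℂ) ^ (m + 1) * cexp (-ρ * ((0 : ℝ) : ℂ))) / ρ = 0 := by
      simp
    rw [h0, sub_zero] at h
    rw [sub_eq_zero.1 h, Nat.factorial_succ]
    push_cast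
    field_simp
    ring

/-! ### the angular integral -/

lemma integral_angular :
    ∫ φ in Ioo (0 : ℝ) Real.pi, deriv tau (Real.cos φ / Real.sin φ) / Real.sin φ ^ 2 = 1 := by
  have hpi := Real.pi_pos
  have hsub : Ioc (Real.pi / 4) (3 * Real.pi / 4) ⊆ Ioo 0 Real.pi := by
    intro φ hφ
    exact ⟨by linarith [hφ.1], by linarith [hφ.2]⟩
  have hsin : ∀ φ ∈ Icc (Real.pi / 4) (3 * Real.pi / 4), 0 < Real.sin φ := by
    intro φ hφ
    exact Real.sin_pos_of_pos_of_lt_pi (by linarith [hφ.1]) (by linarith [hφ.2])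
  rw [setIntegral_eq_of_subset_of_forall_sdiff_eq_zero measurableSet_Ioo hsub,
    ← intervalIntegral.integral_of_le (by linarith)]
  · have hd : ∀ φ ∈ uIcc (Real.pi / 4) (3 * Real.pi / 4),
        HasDerivAt (fun φ => -tau (Real.cos φ / Real.sin φ))
          (deriv tau (Real.cos φ / Real.sin φ) / Real.sin φ ^ 2) φ := by
      intro φ hφ
      rw [uIcc_of_le (by linarith)] at hφ
      have hs := hsin φ hφ
      have h1 : HasDerivAt (fun φ => Real.cos φ / Real.sin φ)
          ((-Real.sin φ * Real.sin φ - Real.cos φ * Real.cos φ) / Real.sin φ ^ 2) φ :=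
        (Real.hasDerivAt_cos φ).div (Real.hasDerivAt_sin φ) hs.ne'
      have h2 := ((tau_hasDerivAt (Real.cos φ / Real.sin φ)).comp φ h1).neg
      refine h2.congr_deriv ?_
      have h3 : -Real.sin φ * Real.sin φ - Real.cos φ * Real.cos φ = -1 := by
        have := Real.sin_sq_add_cos_sq φ
        nlinarith
      rw [h3]
      ring
    rw [intervalIntegral.integral_eq_sub_of_hasDerivAt hd]
    · have e1 : Real.cos (3 * Real.pi / 4) / Real.sin (3 * Real.pi / 4) = -1 := by
        have h1 : 3 * Real.pi / 4 = Real.pi - Real.pi / 4 := by ring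
        rw [h1, Real.cos_pi_sub, Real.sin_pi_sub, Real.cos_pi_div_four, Real.sin_pi_div_four,
          neg_div, div_self (by positivity)]
      have e2 : Real.cos (Real.pi / 4) / Real.sin (Real.pi / 4) = 1 := by
        rw [Real.cos_pi_div_four, Real.sin_pi_div_four, div_self (by positivity)]
      rw [e1, e2, tau_zero le_rfl, tau_one le_rfl]
      norm_num
    · refine ContinuousOn.intervalIntegrable ?_
      rw [uIcc_of_le (by linarith)]
      refine ContinuousOn.div ?_ (Real.continuous_sin.continuousOn.pow 2)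
        fun φ hφ => pow_ne_zero 2 (hsin φ hφ).ne'
      exact deriv_tau_continuous.comp_continuousOn
        (Real.continuous_cos.continuousOn.div Real.continuous_sin.continuousOn
          fun φ hφ => (hsin φ hφ).ne')
  · rintro φ ⟨hφ, hφ'⟩
    have hs : 0 < Real.sin φ := Real.sin_pos_of_pos_of_lt_pi hφ.1 hφ.2
    rw [deriv_tau_zero, zero_div]
    rw [abs_div, abs_of_pos hs, le_div_iff₀ hs, one_mul]
    rcases le_or_gt φ (Real.pi / 4) with h | h
    · have h1 : Real.sin φ ≤ Real.sin (Real.pi / 4) :=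
        Real.sin_le_sin_of_le_of_le_pi_div_two (by linarith [hφ.1]) (by linarith) h
      have h2 : Real.cos (Real.pi / 4) ≤ Real.cos φ :=
        Real.cos_le_cos_of_nonneg_of_le_pi hφ.1.le (by linarith) h
      rw [Real.sin_pi_div_four] at h1
      rw [Real.cos_pi_div_four] at h2
      exact (h1.trans h2).trans (le_abs_self _)
    · have h' : 3 * Real.pi / 4 < φ := by
        by_contra h''
        push Not at h''
        exact hφ' ⟨h, h''⟩
      have h1 : Real.sin φ ≤ Real.sin (Real.pi / 4) := by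
        rw [← Real.sin_pi_sub φ]
        exact Real.sin_le_sin_of_le_of_le_pi_div_two (by linarith [hφ.2]) (by linarith)
          (by linarith)
      have h2 : Real.cos (Real.pi / 4) ≤ -Real.cos φ := by
        rw [← Real.cos_pi_sub φ]
        exact Real.cos_le_cos_of_nonneg_of_le_pi (by linarith [hφ.2]) (by linarith) (by linarith)
      rw [Real.sin_pi_div_four] at h1
      rw [Real.cos_pi_div_four] at h2
      exact (h1.trans h2).trans (neg_le_abs _)

/-! ### integrability of radial functions -/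

lemma integrable_norm_exp {q b : ℝ} (hq : -2 < q) (hb : 0 < b) :
    Integrable (fun z : ℂ => ‖z‖ ^ q * Real.exp (-b * ‖z‖)) := by
  by_contra h
  have h1 := Complex.integral_rpow_mul_exp_neg_mul_rpow (p := 1) le_rfl hq hb
  simp only [Real.rpow_one] at h1
  rw [integral_undef h] at h1
  have h2 : 0 < (2 * Real.pi / 1) * b ^ (-(q + 2) / 1) * Real.Gamma ((q + 2) / 1) := by
    have := Real.Gamma_pos_of_pos (show 0 < (q + 2) / 1 by linarith)
    have := Real.pi_pos
    positivity
  linarith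

lemma integral_norm_exp {q b : ℝ} (hq : -2 < q) (hb : 0 < b) :
    ∫ z : ℂ, ‖z‖ ^ q * Real.exp (-b * ‖z‖) =
      2 * Real.pi * b ^ (-(q + 2)) * Real.Gamma (q + 2) := by
  have h1 := Complex.integral_rpow_mul_exp_neg_mul_rpow (p := 1) le_rfl hq hb
  simp only [Real.rpow_one, div_one] at h1
  exact h1

/-! ### the cone integral -/

/-- the angular factor -/
noncomputable def Kang (m : ℕ) (φ : ℝ) : ℂ :=
  ((deriv tau (Real.cos φ / Real.sin φ) / Real.sin φ ^ 2 : ℝ) : ℂ) *
    (Real.cos φ + Real.sin φ * I) ^ (m + 1)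

/-- the complex decay rate along a ray -/
noncomputable def rate (lam φ : ℝ) : ℂ := -(I * lam * (Real.cos φ + Real.sin φ * I))

lemma rate_re (lam φ : ℝ) : (rate lam φ).re = lam * Real.sin φ := by
  unfold rate
  simp only [Complex.neg_re, Complex.mul_re, Complex.I_re, Complex.I_im, Complex.ofReal_re,
    Complex.ofReal_im, Complex.add_re, Complex.add_im, Complex.mul_im]
  ring

lemma norm_cis (φ : ℝ) : ‖(Real.cos φ + Real.sin φ * I : ℂ)‖ = 1 := by
  simp

lemma cone_integrand (m : ℕ) (lam : ℝ) {p : ℝ × ℝ} (hp : p ∈ Ioi (0 : ℝ) ×ˢ Ioo 0 Real.pi) :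
    (p.1 : ℂ) * ((p.1 * (Real.cos p.2 + Real.sin p.2 * I) : ℂ) ^ m *
      TT (p.1 * (Real.cos p.2 + Real.sin p.2 * I)) *
      cexp (I * lam * (p.1 * (Real.cos p.2 + Real.sin p.2 * I)))) =
    Kang m p.2 * ((p.1 : ℂ) ^ m * cexp (-(rate lam p.2) * p.1)) := by
  have h1 : 0 < p.1 := hp.1
  have h2 : 0 < Real.sin p.2 := Real.sin_pos_of_pos_of_lt_pi hp.2.1 hp.2.2
  have hre : ((p.1 : ℂ) * (Real.cos p.2 + Real.sin p.2 * I)).re = p.1 * Real.cos p.2 := by
    simp only [Complex.mul_re, Complex.ofReal_re, Complex.ofReal_im, Complex.add_re,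
      Complex.I_re, Complex.I_im, Complex.add_im, Complex.mul_im]
    ring
  have him : ((p.1 : ℂ) * (Real.cos p.2 + Real.sin p.2 * I)).im = p.1 * Real.sin p.2 := by
    simp only [Complex.mul_re, Complex.ofReal_re, Complex.ofReal_im, Complex.add_re,
      Complex.I_re, Complex.I_im, Complex.add_im, Complex.mul_im]
    ring
  unfold TT Kang rate
  rw [hre, him, mul_div_mul_left _ _ h1.ne']
  have e : cexp (I * lam * (p.1 * (Real.cos p.2 + Real.sin p.2 * I))) =
      cexp (-(-(I * lam * (Real.cos p.2 + Real.sin p.2 * I))) * p.1) := by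
    congr 1
    ring
  rw [e]
  have h1' : (p.1 : ℂ) ≠ 0 := by exact_mod_cast h1.ne'
  have h2' : (Real.sin p.2 : ℂ) ≠ 0 := by exact_mod_cast h2.ne'
  push_cast
  push_cast at h2'
  field_simp
  rw [mul_pow]
  ring

lemma Kang_bound (m : ℕ) : ∃ C : ℝ, 0 < C ∧ ∀ φ ∈ Ioo 0 Real.pi, ‖Kang m φ‖ ≤ C ∧
    (Kang m φ ≠ 0 → 1 / 2 ≤ Real.sin φ) := by
  obtain ⟨C, hC, h⟩ := exists_deriv_tau_le
  refine ⟨2 * C, by positivity, fun φ hφ => ?_⟩
  have hs : 0 < Real.sin φ := Real.sin_pos_of_pos_of_lt_pi hφ.1 hφ.2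
  have key : Kang m φ ≠ 0 → 1 / 2 ≤ Real.sin φ ^ 2 := by
    intro h0
    have h1 : |Real.cos φ / Real.sin φ| < 1 := by
      by_contra h'
      push Not at h'
      apply h0
      unfold Kang
      rw [deriv_tau_zero h']
      simp
    rw [abs_div, abs_of_pos hs, div_lt_one hs] at h1
    have h2 : Real.cos φ ^ 2 ≤ Real.sin φ ^ 2 := by
      rw [← sq_abs (Real.cos φ)]
      exact pow_le_pow_left₀ (abs_nonneg _) h1.le 2
    have := Real.sin_sq_add_cos_sq φ
    linarith
  constructor
  · by_cases h0 : Kang m φ = 0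
    · rw [h0, norm_zero]
      positivity
    · have h1 := key h0
      unfold Kang
      rw [norm_mul, norm_pow, norm_cis, one_pow, mul_one, Complex.norm_real, Real.norm_eq_abs,
        abs_div, abs_of_pos (show 0 < Real.sin φ ^ 2 by positivity), div_le_iff₀ (by positivity)]
      have := h (Real.cos φ / Real.sin φ)
      nlinarith
  · intro h0
    have h1 := key h0
    have h2 := Real.sin_le_one φ
    nlinarith

lemma Kang_measurable (m : ℕ) : Measurable (Kang m) := by
  unfold Kang
  refine Measurable.mul ?_ ?_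
  · refine Complex.measurable_ofReal.comp ?_
    refine Measurable.div ?_ (Real.measurable_sin.pow_const 2)
    exact deriv_tau_continuous.measurable.comp (Real.measurable_cos.div Real.measurable_sin)
  · exact Continuous.measurable (by fun_prop)

theorem cone_integral (m : ℕ) {lam : ℝ} (hl : 0 < lam) :
    ∫ z in UH, z ^ m * TT z * cexp (I * lam * z) = m.factorial * (I / lam) ^ (m + 1) := by
  rw [integral_UH_polar, setIntegral_congr_fun (measurableSet_Ioi.prod measurableSet_Ioo)
    (fun p hp => cone_integrand m lam hp)]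
  obtain ⟨C, hC, hK⟩ := Kang_bound m
  set μ := (volume : Measure ℝ).restrict (Ioi 0)
  set ν := (volume : Measure ℝ).restrict (Ioo 0 Real.pi)
  have hprod : (volume : Measure (ℝ × ℝ)).restrict (Ioi (0 : ℝ) ×ˢ Ioo 0 Real.pi) = μ.prod ν := by
    rw [Measure.volume_eq_prod, Measure.prod_restrict]
  have hint : Integrable (fun p : ℝ × ℝ => Kang m p.2 * ((p.1 : ℂ) ^ m *
      cexp (-(rate lam p.2) * p.1))) (μ.prod ν) := by
    have hb : Integrable (fun p : ℝ × ℝ => (p.1 ^ m * Real.exp (-(lam / 2) * p.1)) * C)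
        (μ.prod ν) := by
      refine Integrable.mul_prod (f := fun r : ℝ => r ^ m * Real.exp (-(lam / 2) * r))
        (g := fun _ : ℝ => C) (integrableOn_pow_exp m (by positivity)) ?_
      exact integrable_const _
    refine Integrable.mono' hb ?_ ?_
    · refine Measurable.aestronglyMeasurable ?_
      refine ((Kang_measurable m).comp measurable_snd).mul ?_
      refine Continuous.measurable ?_
      unfold rate
      fun_prop
    · rw [← hprod]
      refine (ae_restrict_mem (measurableSet_Ioi.prod measurableSet_Ioo)).mono fun p hp => ?_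
      have h1 : 0 < p.1 := hp.1
      obtain ⟨h2, h3⟩ := hK p.2 hp.2
      by_cases h0 : Kang m p.2 = 0
      · rw [h0, zero_mul, norm_zero]
        positivity
      · have h4 := h3 h0
        rw [norm_mul, norm_mul, norm_pow, Complex.norm_real, Real.norm_eq_abs, abs_of_pos h1,
          Complex.norm_exp]
        have e : (-(rate lam p.2) * (p.1 : ℂ)).re = -(lam * Real.sin p.2 * p.1) := by
          rw [Complex.mul_re, Complex.neg_re, rate_re, Complex.ofReal_re, Complex.ofReal_im]
          ring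
        rw [e, mul_comm]
        refine mul_le_mul ?_ h2 (norm_nonneg _) (by positivity)
        refine mul_le_mul_of_nonneg_left (Real.exp_le_exp.2 ?_) (by positivity)
        have := mul_le_mul_of_nonneg_left h4 (mul_pos hl h1).le
        nlinarith
  rw [hprod, integral_prod_symm _ hint]
  have hinner : ∀ φ ∈ Ioo 0 Real.pi, ∫ r, Kang m φ * ((r : ℂ) ^ m * cexp (-(rate lam φ) * r)) ∂μ =
      ((deriv tau (Real.cos φ / Real.sin φ) / Real.sin φ ^ 2 : ℝ) : ℂ) *
        (m.factorial * (I / lam) ^ (m + 1)) := by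
    intro φ hφ
    have hs : 0 < Real.sin φ := Real.sin_pos_of_pos_of_lt_pi hφ.1 hφ.2
    rw [integral_const_mul, integral_pow_cexp m (by rw [rate_re]; positivity)]
    unfold Kang rate
    have hl' : (lam : ℂ) ≠ 0 := by exact_mod_cast hl.ne'
    have hc : (Real.cos φ + Real.sin φ * I : ℂ) ≠ 0 := by
      intro h
      have := norm_cis φ
      rw [h, norm_zero] at this
      exact zero_ne_one this
    have e : (-(I * lam * (Real.cos φ + Real.sin φ * I)) : ℂ) ^ (m + 1) =
        (-(I * lam)) ^ (m + 1) * (Real.cos φ + Real.sin φ * I) ^ (m + 1) := by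
      rw [← mul_pow]
      congr 1
      ring
    have e2 : (I / lam : ℂ) = (-(I * lam))⁻¹ := by
      rw [eq_comm, inv_eq_iff_eq_inv, inv_div, eq_div_iff Complex.I_ne_zero]
      have := Complex.I_mul_I
      linear_combination (-(lam : ℂ)) * this
    rw [e, e2, inv_pow]
    have h3 : (Real.cos φ + Real.sin φ * I : ℂ) ^ (m + 1) ≠ 0 := pow_ne_zero _ hc
    have h4 : (-(I * lam) : ℂ) ^ (m + 1) ≠ 0 :=
      pow_ne_zero _ (neg_ne_zero.2 (mul_ne_zero Complex.I_ne_zero hl'))
    field_simp
  rw [setIntegral_congr_fun measurableSet_Ioo hinner, integral_mul_const,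
    integral_complex_ofReal, integral_angular, Complex.ofReal_one, one_mul]

end Pool.Agent.Freud.ZT
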