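import Pool.Agent.Freud.ZeroTools
import Pool.Agent.Freud.GBasic
import Pool.Agent.Freud.Dbar

/-!
The matrix `W0`: factorisation, continuity, and the expansion of `N E₂₁ N⁻¹` at the origin.
-/

set_option autoImplicit false

open MeasureTheory Filter Topology Set Complex

namespace Pool.Agent.Freud.ZT

/-- `N E₂₁ N⁻¹` -/
noncomputable def PP (z : ℂ) : Mat2 :=
  !![-(sinh (bfun z) * cosh (bfun z)), -(sinh (bfun z) ^ 2);
    cosh (bfun z) ^ 2, cosh (bfun z) * sinh (bfun z)]

lemma W0_eq (α : ℝ) (n : ℕ) (y0 : ℝ) (z : ℂ) :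
    W0 α n y0 z = (-I * qfun α n y0 z) • PP z := by
  unfold W0 PP Nmat Ninv
  ext i j
  fin_cases i <;> fin_cases j <;>
    simp [Matrix.mul_apply, Fin.sum_univ_two, Matrix.smul_apply] <;> ring

lemma qfun_eq (α : ℝ) (n : ℕ) (y0 : ℝ) (z : ℂ) :
    -I * qfun α n y0 z = -(1 / 2) * (rho (z.im / y0) : ℂ) *
      cexp (-(2 * n * gfun α z) + n * ell α) * TT z *
      (cexp (n * kap α * z ^ (α : ℂ)) - cexp (n * kap α * (-z) ^ (α : ℂ))) := by
  unfold qfun TT
  have := Complex.I_mul_I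
  linear_combination (1 / 2 * (rho (z.im / y0) : ℂ) *
      cexp (-(2 * n * gfun α z) + n * ell α) *
      (((deriv tau (z.re / z.im) : ℝ) : ℂ) * z / (z.im : ℂ) ^ 2) *
      (cexp (n * kap α * z ^ (α : ℂ)) - cexp (n * kap α * (-z) ^ (α : ℂ)))) * this

/-! ### continuity -/

lemma UH_slit {z : ℂ} (hz : z ∈ UH) : z ∈ slitPlane := by
  right
  exact (show 0 < z.im from hz).ne'

lemma UH_neg_slit {z : ℂ} (hz : z ∈ UH) : -z ∈ slitPlane := by
  right
  rw [Complex.neg_im]
  have : 0 < z.im := hz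
  linarith

lemma UH_add_one_ne {z : ℂ} (hz : z ∈ UH) : z + 1 ≠ 0 := by
  intro h
  have h1 : (z + 1).im = 0 := by rw [h]; rfl
  simp at h1
  have : 0 < z.im := hz
  linarith

lemma UH_ratio {z : ℂ} (hz : z ∈ UH) : (z - 1) / (z + 1) ∈ UH := by
  have hz' : 0 < z.im := hz
  show 0 < ((z - 1) / (z + 1)).im
  have hn : 0 < normSq (z + 1) := Complex.normSq_pos.2 (UH_add_one_ne hz)
  rw [Complex.div_im]
  simp only [Complex.sub_im, Complex.one_im, sub_zero, Complex.add_re, Complex.one_re,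
    Complex.sub_re, Complex.add_im, add_zero]
  rw [← sub_div]
  apply div_pos _ hn
  nlinarith

lemma bfun_continuousOn : ContinuousOn bfun UH := by
  unfold bfun
  refine ContinuousOn.div_const ?_ 4
  refine ContinuousOn.clog ?_ fun z hz => UH_slit (UH_ratio hz)
  exact (continuousOn_id.sub continuousOn_const).div (continuousOn_id.add continuousOn_const)
    fun z hz => UH_add_one_ne hz

lemma PP_continuousOn (i j : Fin 2) : ContinuousOn (fun z => PP z i j) UH := by
  have hs : ContinuousOn (fun z => sinh (bfun z)) UH :=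
    Complex.continuous_sinh.comp_continuousOn bfun_continuousOn
  have hc : ContinuousOn (fun z => cosh (bfun z)) UH :=
    Complex.continuous_cosh.comp_continuousOn bfun_continuousOn
  fin_cases i <;> fin_cases j
  · exact (hs.mul hc).neg
  · exact (hs.pow 2).neg
  · exact hc.pow 2
  · exact hc.mul hs

lemma gfun_continuousOn {α : ℝ} (hα : 1 < α) : ContinuousOn (gfun α) UH :=
  fun z hz => (gfun_hasDerivAt α hα z hz).continuousAt.continuousWithinAt

lemma qq_continuousOn {α : ℝ} (hα : 1 < α) (n : ℕ) (y0 : ℝ) :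
    ContinuousOn (fun z => -I * qfun α n y0 z) UH := by
  simp only [qfun_eq]
  have h1 : Continuous rho := rho_facts.1.continuous
  have h2 : ContinuousOn (fun z : ℂ => (rho (z.im / y0) : ℂ)) UH :=
    (Complex.continuous_ofReal.comp
      (h1.comp (Complex.continuous_im.div_const y0))).continuousOn
  have h3 : ContinuousOn (fun z : ℂ => cexp (-(2 * n * gfun α z) + n * ell α)) UH :=
    (((continuousOn_const.mul (gfun_continuousOn hα)).neg.add continuousOn_const)).cexp
  have h4 : ContinuousOn (fun z : ℂ => cexp (n * kap α * z ^ (α : ℂ))) UH := by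
    refine (continuousOn_const.mul ?_).cexp
    exact continuousOn_id.cpow_const fun z hz => UH_slit hz
  have h5 : ContinuousOn (fun z : ℂ => cexp (n * kap α * (-z) ^ (α : ℂ))) UH := by
    refine (continuousOn_const.mul ?_).cexp
    exact continuousOn_id.neg.cpow_const fun z hz => UH_neg_slit hz
  exact (((continuousOn_const.mul h2).mul h3).mul TT_continuousOn).mul (h4.sub h5)

lemma W0_entry_continuousOn {α : ℝ} (hα : 1 < α) (n : ℕ) (y0 : ℝ) (i j : Fin 2) :
    ContinuousOn (fun z => W0 α n y0 z i j) UH := by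
  have : (fun z => W0 α n y0 z i j) = fun z => (-I * qfun α n y0 z) * PP z i j := by
    funext z
    rw [W0_eq, Matrix.smul_apply, smul_eq_mul]
  rw [this]
  exact (qq_continuousOn hα n y0).mul (PP_continuousOn i j)

lemma W0_continuousOn {α : ℝ} (hα : 1 < α) (n : ℕ) (y0 : ℝ) : ContinuousOn (W0 α n y0) UH :=
  continuousOn_pi.2 fun i => continuousOn_pi.2 fun j => W0_entry_continuousOn hα n y0 i j

/-! ### the expansion of `PP` at the origin -/

/-- leading coefficient -/
noncomputable def A0 : Mat2 := !![-(I / 2), 1 / 2; 1 / 2, I / 2]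

/-- next coefficient -/
noncomputable def A1 : Mat2 := !![0, I / 2; -(I / 2), 0]

/-- the variable `w` with `2 b = i π / 2 + w` -/
noncomputable def ww (z : ℂ) : ℂ := (log (1 - z) - log (1 + z)) / 2

lemma ww_bound {z : ℂ} (hz : ‖z‖ ≤ 1 / 2) : ‖ww z + z‖ ≤ ‖z‖ ^ 2 := by
  have h1 := Complex.norm_log_one_add_sub_self_le (z := z) (by linarith)
  have h2 := Complex.norm_log_one_add_sub_self_le (z := -z) (by rw [norm_neg]; linarith)
  rw [norm_neg] at h2
  have h3 : (1 - ‖z‖)⁻¹ ≤ 2 := by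
    rw [inv_le_comm₀ (by linarith) (by norm_num)]
    linarith
  have e : ww z + z = ((log (1 + -z) - -z) - (log (1 + z) - z)) / 2 := by
    unfold ww
    rw [sub_eq_add_neg 1 z]
    ring
  rw [e, norm_div, Complex.norm_two]
  have h4 := norm_sub_le (log (1 + -z) - -z) (log (1 + z) - z)
  have h5 : ‖z‖ ^ 2 * (1 - ‖z‖)⁻¹ / 2 ≤ ‖z‖ ^ 2 := by
    have := mul_le_mul_of_nonneg_left h3 (sq_nonneg ‖z‖)
    linarith
  linarith

lemma bfun_eq {z : ℂ} (hz : z ∈ UH) (hz1 : ‖z‖ ≤ 1 / 2) :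
    bfun z = ww z / 2 + Real.pi / 4 * I := by
  have hz' : 0 < z.im := hz
  have hre := abs_le.1 ((Complex.abs_re_le_norm z).trans hz1)
  have hpi := Real.pi_pos
  have h1 : (1 - z) ≠ 0 := by
    intro h
    have : (1 - z).re = 0 := by rw [h]; rfl
    simp at this
    linarith [hre.2]
  have h2 : (1 + z) ≠ 0 := by
    intro h
    have : (1 + z).re = 0 := by rw [h]; rfl
    simp at this
    linarith [hre.1]
  have ha1 : -(Real.pi / 2) < (log (1 - z)).im ∧ (log (1 - z)).im < 0 := by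
    rw [Complex.log_im]
    constructor
    · have := Complex.abs_arg_lt_pi_div_two_iff.2 (Or.inl (show 0 < (1 - z).re by
        simp; linarith [hre.2]))
      exact (abs_lt.1 this).1
    · rw [Complex.arg_neg_iff]
      simp [hz']
  have ha2 : 0 < (log (1 + z)).im ∧ (log (1 + z)).im < Real.pi / 2 := by
    rw [Complex.log_im]
    constructor
    · have h3 : 0 ≤ Complex.arg (1 + z) := Complex.arg_nonneg_iff.2 (by simp [hz'.le])
      rcases h3.eq_or_lt with h4 | h4
      · exfalso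
        have := (Complex.arg_eq_zero_iff.1 h4.symm).2
        simp at this
        linarith
      · exact h4
    · have := Complex.abs_arg_lt_pi_div_two_iff.2 (Or.inl (show 0 < (1 + z).re by
        simp; linarith [hre.1]))
      exact (abs_lt.1 this).2
  have key : log ((z - 1) / (z + 1)) = 2 * ww z + Real.pi * I := by
    have e1 : cexp (2 * ww z + Real.pi * I) = (z - 1) / (z + 1) := by
      rw [Complex.exp_add, Complex.exp_pi_mul_I]
      have : 2 * ww z = log (1 - z) - log (1 + z) := by unfold ww; ring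
      rw [this, Complex.exp_sub, Complex.exp_log h1, Complex.exp_log h2]
      have h3 : z + 1 ≠ 0 := by rw [add_comm]; exact h2
      field_simp
      ring
    have him : (2 * ww z + Real.pi * I).im = (log (1 - z)).im - (log (1 + z)).im + Real.pi := by
      have : 2 * ww z = log (1 - z) - log (1 + z) := by unfold ww; ring
      rw [this]
      simp
    rw [← e1, Complex.log_exp]
    · rw [him]; linarith [ha1.1, ha2.2]
    · rw [him]; linarith [ha1.2, ha2.1]
  unfold bfun
  rw [key]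
  ring

lemma cosh_sub_one_le {w : ℂ} (hw : ‖w‖ ≤ 1) : ‖cosh w - 1‖ ≤ ‖w‖ ^ 2 := by
  have h1 := Complex.norm_exp_sub_one_sub_id_le hw
  have h2 := Complex.norm_exp_sub_one_sub_id_le (x := -w) (by rwa [norm_neg])
  rw [norm_neg] at h2
  have e : cosh w - 1 = ((cexp w - 1 - w) + (cexp (-w) - 1 - -w)) / 2 := by
    rw [Complex.cosh]
    ring
  rw [e, norm_div, Complex.norm_two]
  have := norm_add_le (cexp w - 1 - w) (cexp (-w) - 1 - -w)
  linarith

lemma sinh_sub_le {w : ℂ} (hw : ‖w‖ ≤ 1) : ‖sinh w - w‖ ≤ ‖w‖ ^ 2 := by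
  have h1 := Complex.norm_exp_sub_one_sub_id_le hw
  have h2 := Complex.norm_exp_sub_one_sub_id_le (x := -w) (by rwa [norm_neg])
  rw [norm_neg] at h2
  have e : sinh w - w = ((cexp w - 1 - w) - (cexp (-w) - 1 - -w)) / 2 := by
    rw [Complex.sinh]
    ring
  rw [e, norm_div, Complex.norm_two]
  have := norm_sub_le (cexp w - 1 - w) (cexp (-w) - 1 - -w)
  linarith

lemma PP_ww {z : ℂ} (hz : z ∈ UH) (hz1 : ‖z‖ ≤ 1 / 2) :
    PP z = !![-(I / 2) * cosh (ww z), (1 - I * sinh (ww z)) / 2;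
      (1 + I * sinh (ww z)) / 2, I / 2 * cosh (ww z)] := by
  have hb := bfun_eq hz hz1
  have h2b : 2 * bfun z = ww z + Real.pi / 2 * I := by rw [hb]; ring
  have hs : sinh (2 * bfun z) = I * cosh (ww z) := by
    rw [h2b, Complex.sinh_add, Complex.cosh_mul_I, Complex.sinh_mul_I]
    have e1 : cos ((Real.pi : ℂ) / 2) = 0 := by exact_mod_cast Complex.cos_pi_div_two
    have e2 : sin ((Real.pi : ℂ) / 2) = 1 := by exact_mod_cast Complex.sin_pi_div_two
    rw [e1, e2]
    ring
  have hc : cosh (2 * bfun z) = I * sinh (ww z) := by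
    rw [h2b, Complex.cosh_add, Complex.cosh_mul_I, Complex.sinh_mul_I]
    have e1 : cos ((Real.pi : ℂ) / 2) = 0 := by exact_mod_cast Complex.cos_pi_div_two
    have e2 : sin ((Real.pi : ℂ) / 2) = 1 := by exact_mod_cast Complex.sin_pi_div_two
    rw [e1, e2]
    ring
  have hs' := Complex.sinh_two_mul (bfun z)
  have hc' := Complex.cosh_two_mul (bfun z)
  have hq := Complex.cosh_sq (bfun z)
  rw [hs] at hs'
  rw [hc] at hc'
  unfold PP
  ext i j
  fin_cases i <;> fin_cases j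
  · show -(sinh (bfun z) * cosh (bfun z)) = -(I / 2) * cosh (ww z)
    linear_combination (1 / 2 : ℂ) * hs'
  · show -(sinh (bfun z) ^ 2) = (1 - I * sinh (ww z)) / 2
    linear_combination (1 / 2 : ℂ) * hc' + (1 / 2 : ℂ) * hq
  · show cosh (bfun z) ^ 2 = (1 + I * sinh (ww z)) / 2
    linear_combination (-1 / 2 : ℂ) * hc' + (1 / 2 : ℂ) * hq
  · show cosh (bfun z) * sinh (bfun z) = I / 2 * cosh (ww z)
    linear_combination (-1 / 2 : ℂ) * hs'

lemma nm_nonneg (A : Mat2) : 0 ≤ nm A := by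
  unfold nm
  positivity

lemma nm_add (A B : Mat2) : nm (A + B) ≤ nm A + nm B := by
  unfold nm
  simp only [Matrix.add_apply]
  have h1 := norm_add_le (A 0 0) (B 0 0)
  have h2 := norm_add_le (A 0 1) (B 0 1)
  have h3 := norm_add_le (A 1 0) (B 1 0)
  have h4 := norm_add_le (A 1 1) (B 1 1)
  linarith

lemma nm_smul (c : ℂ) (A : Mat2) : nm (c • A) = ‖c‖ * nm A := by
  unfold nm
  simp only [Matrix.smul_apply, smul_eq_mul, norm_mul]
  ring

lemma PP_expand {z : ℂ} (hz : z ∈ UH) (hz1 : ‖z‖ ≤ 1 / 2) :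
    nm (PP z - A0 - z • A1) ≤ 12 * ‖z‖ ^ 2 := by
  have hw := ww_bound hz1
  have hz0 := norm_nonneg z
  have hw1 : ‖ww z‖ ≤ 3 / 2 * ‖z‖ := by
    have h1 : ‖ww z‖ ≤ ‖ww z + z‖ + ‖z‖ := by
      have := norm_sub_le (ww z + z) z
      rwa [add_sub_cancel_right] at this
    nlinarith
  have hw2 : ‖ww z‖ ≤ 1 := by linarith
  have hc := cosh_sub_one_le hw2
  have hs := sinh_sub_le hw2
  have hww : ‖ww z‖ ^ 2 ≤ 9 / 4 * ‖z‖ ^ 2 := by nlinarith [norm_nonneg (ww z)]
  have hs2 : ‖sinh (ww z) + z‖ ≤ 4 * ‖z‖ ^ 2 := by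
    have : sinh (ww z) + z = (sinh (ww z) - ww z) + (ww z + z) := by ring
    rw [this]
    have := norm_add_le (sinh (ww z) - ww z) (ww z + z)
    nlinarith [sq_nonneg ‖z‖]
  have hI : ‖(I / 2 : ℂ)‖ = 1 / 2 := by
    rw [norm_div, Complex.norm_I, Complex.norm_two]
  rw [PP_ww hz hz1]
  unfold A0 A1 nm
  have e00 : (!![-(I / 2) * cosh (ww z), (1 - I * sinh (ww z)) / 2;
      (1 + I * sinh (ww z)) / 2, I / 2 * cosh (ww z)] - !![-(I / 2), 1 / 2; 1 / 2, I / 2] -
      z • !![0, I / 2; -(I / 2), 0] : Mat2) 0 0 = -(I / 2) * (cosh (ww z) - 1) := by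
    simp
    ring
  have e01 : (!![-(I / 2) * cosh (ww z), (1 - I * sinh (ww z)) / 2;
      (1 + I * sinh (ww z)) / 2, I / 2 * cosh (ww z)] - !![-(I / 2), 1 / 2; 1 / 2, I / 2] -
      z • !![0, I / 2; -(I / 2), 0] : Mat2) 0 1 = -(I / 2) * (sinh (ww z) + z) := by
    simp
    ring
  have e10 : (!![-(I / 2) * cosh (ww z), (1 - I * sinh (ww z)) / 2;
      (1 + I * sinh (ww z)) / 2, I / 2 * cosh (ww z)] - !![-(I / 2), 1 / 2; 1 / 2, I / 2] -
      z • !![0, I / 2; -(I / 2), 0] : Mat2) 1 0 = (I / 2) * (sinh (ww z) + z) := by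
    simp
    ring
  have e11 : (!![-(I / 2) * cosh (ww z), (1 - I * sinh (ww z)) / 2;
      (1 + I * sinh (ww z)) / 2, I / 2 * cosh (ww z)] - !![-(I / 2), 1 / 2; 1 / 2, I / 2] -
      z • !![0, I / 2; -(I / 2), 0] : Mat2) 1 1 = (I / 2) * (cosh (ww z) - 1) := by
    simp
    ring
  rw [e00, e01, e10, e11, norm_mul, norm_mul, norm_mul, norm_mul, norm_neg, hI]
  nlinarith [sq_nonneg ‖z‖]

lemma nm_A0 : nm A0 = 2 := by
  unfold nm A0
  simp
  norm_num

lemma nm_A1 : nm A1 = 1 := by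
  unfold nm A1
  simp
  norm_num

lemma PP_bound {z : ℂ} (hz : z ∈ UH) (hz1 : ‖z‖ ≤ 1 / 2) : nm (PP z) ≤ 6 := by
  have h := PP_expand hz hz1
  have e : PP z = (PP z - A0 - z • A1) + (A0 + z • A1) := by
    abel
  rw [e]
  have h1 := nm_add (PP z - A0 - z • A1) (A0 + z • A1)
  have h2 := nm_add A0 (z • A1)
  rw [nm_smul, nm_A0, nm_A1] at h2
  have hz0 := norm_nonneg z
  nlinarith

end Pool.Agent.Freud.ZT
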